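import Pool.Agent.Work.MP_e0c7e8_nt.SM.Defs

/-!
# Basic lemmas on `chi`
-/

set_option autoImplicit false

namespace Pool.Agent.Work.MP_e0c7e8_nt.SM

open Finset

lemma chi_of_odd {d : ℤ} {n : ℕ} (h : Odd n) : chi d n = jacobiSym d n := by simp [chi, h]

lemma chi_of_not_odd {d : ℤ} {n : ℕ} (h : ¬ Odd n) : chi d n = 0 := by simp [chi, h]

lemma chi_zero (d : ℤ) : chi d 0 = 0 := by simp [chi]

lemma chi_one (d : ℤ) : chi d 1 = 1 := by simp [chi]

lemma chi_mul (d : ℤ) (m n : ℕ) : chi d (m * n) = chi d m * chi d n := by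
  by_cases hm : Odd m
  · by_cases hn : Odd n
    · have h0 : (m : ℕ) ≠ 0 := fun h => by rw [h] at hm; exact absurd hm (by decide)
      have h1 : (n : ℕ) ≠ 0 := fun h => by rw [h] at hn; exact absurd hn (by decide)
      haveI : NeZero m := ⟨h0⟩
      haveI : NeZero n := ⟨h1⟩
      rw [chi_of_odd (hm.mul hn), chi_of_odd hm, chi_of_odd hn, jacobiSym.mul_right]
    · rw [chi_of_not_odd hn, mul_zero, chi_of_not_odd]
      intro h
      exact hn (Nat.odd_mul.1 h).2
  · rw [chi_of_not_odd hm, zero_mul, chi_of_not_odd]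
    intro h
    exact hm (Nat.odd_mul.1 h).1

lemma chi_mul_left (d e : ℤ) (n : ℕ) : chi (d * e) n = chi d n * chi e n := by
  by_cases hn : Odd n
  · rw [chi_of_odd hn, chi_of_odd hn, chi_of_odd hn, jacobiSym.mul_left]
  · rw [chi_of_not_odd hn, chi_of_not_odd hn, zero_mul]

lemma chi_trichotomy (d : ℤ) (n : ℕ) : chi d n = 0 ∨ chi d n = 1 ∨ chi d n = -1 := by
  by_cases hn : Odd n
  · rw [chi_of_odd hn]; exact jacobiSym.trichotomy d n
  · rw [chi_of_not_odd hn]; exact Or.inl rfl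

lemma abs_chi_le (d : ℤ) (n : ℕ) : |chi d n| ≤ 1 := by
  rcases chi_trichotomy d n with h | h | h <;> rw [h] <;> decide

lemma abs_chi_real_le (d : ℤ) (n : ℕ) : |(chi d n : ℝ)| ≤ 1 := by
  exact_mod_cast abs_chi_le d n

/-- periodicity modulo `4 |d|` -/
lemma chi_periodic (d : ℤ) (n : ℕ) : chi d (n + 4 * d.natAbs) = chi d n := by
  by_cases hn : Odd n
  · have h1 : Odd (n + 4 * d.natAbs) := by
      rw [Nat.odd_add]
      exact ⟨fun _ => ⟨2 * d.natAbs, by ring⟩, fun _ => hn⟩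
    rw [chi_of_odd hn, chi_of_odd h1, jacobiSym.mod_right d hn, jacobiSym.mod_right d h1,
      Nat.add_mod_right]
  · have h1 : ¬ Odd (n + 4 * d.natAbs) := by
      rw [Nat.odd_add]
      intro h
      exact hn (h.2 ⟨2 * d.natAbs, by ring⟩)
    rw [chi_of_not_odd hn, chi_of_not_odd h1]

lemma chi_sq (d : ℤ) (s n : ℕ) :
    chi (d * (s : ℤ) ^ 2) n = if Nat.Coprime s n then chi d n else 0 := by
  by_cases hn : Odd n
  · rw [chi_of_odd hn, chi_of_odd hn, jacobiSym.mul_left]
    by_cases h : Nat.Coprime s n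
    · rw [if_pos h, jacobiSym.sq_one' (by simpa [Int.gcd] using h), mul_one]
    · rw [if_neg h]
      have h2 : jacobiSym ((s : ℤ) ^ 2) n = 0 := by
        haveI : NeZero n := ⟨fun h => by rw [h] at hn; exact absurd hn (by decide)⟩
        rw [jacobiSym.eq_zero_iff_not_coprime]
        intro h3
        apply h
        have h4 : Nat.Coprime (s ^ 2) n := by simpa [Int.gcd] using h3
        exact Nat.Coprime.coprime_mul_right (k := s) (by simpa [sq] using h4)
      rw [h2, mul_zero]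
  · rw [chi_of_not_odd hn, chi_of_not_odd hn]; simp

lemma chi_prime {d : ℤ} {p : ℕ} [Fact p.Prime] (h2 : p ≠ 2) : chi d p = legendreSym p d := by
  have hodd : Odd p := (Fact.out : p.Prime).odd_of_ne_two h2
  rw [chi_of_odd hodd, jacobiSym.legendreSym.to_jacobiSym]

lemma isum_zero_len (g : ℤ → ℝ) (M : ℤ) : isum g M 0 = 0 := by simp [isum]

lemma abs_isum_le {g : ℤ → ℝ} (hg : ∀ n, |g n| ≤ 1) (M : ℤ) (N : ℕ) : |isum g M N| ≤ N := by
  unfold isum
  refine (Finset.abs_sum_le_sum_abs _ _).trans ?_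
  refine (Finset.sum_le_sum fun n _ => hg n).trans ?_
  simp

lemma PJ_nil (q : ℕ) (n : ℤ) : PJ q [] n = 1 := by simp [PJ]

lemma PJ_append (q : ℕ) (A B : List ℤ) (n : ℤ) : PJ q (A ++ B) n = PJ q A n * PJ q B n := by
  simp [PJ]

lemma PJ_shift (q : ℕ) (A : List ℤ) (t n : ℤ) :
    PJ q (A.map (fun a => a + t)) n = PJ q A (n + t) := by
  unfold PJ
  rw [List.map_map]
  congr 1
  apply List.map_congr_left
  intro a _
  simp only [Function.comp]
  congr 2
  ring

lemma PJ_mul (q r : ℕ) [NeZero q] [NeZero r] (A : List ℤ) (n : ℤ) :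
    PJ (q * r) A n = PJ q A n * PJ r A n := by
  unfold PJ
  rw [← List.prod_map_mul]
  congr 1
  apply List.map_congr_left
  intro a _
  rw [jacobiSym.mul_right]
  push_cast
  ring

lemma PJ_periodic (q : ℕ) (A : List ℤ) (n : ℤ) (k : ℤ) : PJ q A (n + k * q) = PJ q A n := by
  unfold PJ
  congr 1
  apply List.map_congr_left
  intro a _
  congr 1
  rw [jacobiSym.mod_left, jacobiSym.mod_left (n + a)]
  congr 1
  have : n + k * q + a = (n + a) + q * k := by ring
  rw [this, Int.add_mul_emod_self_left]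

lemma abs_PJ_le (q : ℕ) (A : List ℤ) (n : ℤ) : |PJ q A n| ≤ 1 := by
  induction A with
  | nil => simp [PJ]
  | cons a A ih =>
    have : PJ q (a :: A) n = ((jacobiSym (n + a) q : ℤ) : ℝ) * PJ q A n := by simp [PJ]
    rw [this, abs_mul]
    have h1 : |((jacobiSym (n + a) q : ℤ) : ℝ)| ≤ 1 := by
      rcases jacobiSym.trichotomy (n + a) q with h | h | h <;> rw [h] <;> norm_num
    calc _ ≤ (1 : ℝ) * 1 := mul_le_mul h1 ih (abs_nonneg _) zero_le_one
      _ = 1 := one_mul 1

end Pool.Agent.Work.MP_e0c7e8_nt.SM
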