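import Pool.Agent.Work.MP_e0c7e8_nt.SM.Stmts
import Pool.Agent.Work.MP_e0c7e8_nt.SM.Basic

/-!
# Item C2b: classes of short products of split primes
-/

set_option autoImplicit false

namespace Pool.Agent.Work.MP_e0c7e8_nt.SM

open Finset

namespace ItemC2b

open nonZeroDivisors

theorem units {R : Type} [CommRing R] [IsDomain R] (I J : Ideal R) (r : R) (hr : r ≠ 0)
    (h : I * J = Ideal.span {r}) :
    ∃ U V : (FractionalIdeal R⁰ (FractionRing R))ˣ,
      (U : FractionalIdeal R⁰ (FractionRing R)) = (I : FractionalIdeal R⁰ (FractionRing R)) ∧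
      (V : FractionalIdeal R⁰ (FractionRing R)) = (J : FractionalIdeal R⁰ (FractionRing R)) ∧
      ClassGroup.mk (FractionRing R) U * ClassGroup.mk (FractionRing R) V = 1 := by
  have hx : algebraMap R (FractionRing R) r ≠ 0 := by
    intro h0
    exact hr ((IsFractionRing.injective R (FractionRing R)) (by rw [h0, map_zero]))
  have hIJ : (I : FractionalIdeal R⁰ (FractionRing R)) * (J : FractionalIdeal R⁰ (FractionRing R)) =
      FractionalIdeal.spanSingleton R⁰ (algebraMap R (FractionRing R) r) := by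
    rw [← FractionalIdeal.coeIdeal_mul, h, FractionalIdeal.coeIdeal_span_singleton]
  have hinv : FractionalIdeal.spanSingleton R⁰ (algebraMap R (FractionRing R) r) *
      FractionalIdeal.spanSingleton R⁰ (algebraMap R (FractionRing R) r)⁻¹ = 1 := by
    rw [FractionalIdeal.spanSingleton_mul_spanSingleton, mul_inv_cancel₀ hx,
      FractionalIdeal.spanSingleton_one]
  have hU : (I : FractionalIdeal R⁰ (FractionRing R)) * ((J : FractionalIdeal R⁰ (FractionRing R)) *
      FractionalIdeal.spanSingleton R⁰ (algebraMap R (FractionRing R) r)⁻¹) = 1 := by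
    rw [← mul_assoc, hIJ, hinv]
  have hV : (J : FractionalIdeal R⁰ (FractionRing R)) * ((I : FractionalIdeal R⁰ (FractionRing R)) *
      FractionalIdeal.spanSingleton R⁰ (algebraMap R (FractionRing R) r)⁻¹) = 1 := by
    rw [← mul_assoc, mul_comm (J : FractionalIdeal R⁰ (FractionRing R)), hIJ, hinv]
  refine ⟨⟨_, _, hU, by rw [mul_comm]; exact hU⟩, ⟨_, _, hV, by rw [mul_comm]; exact hV⟩,
    rfl, rfl, ?_⟩
  rw [← map_mul]
  rw [ClassGroup.mk_eq_one_of_coe_ideal (I' := Ideal.span {r})]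
  · exact ⟨r, hr, rfl⟩
  · rw [Units.val_mul]
    change (I : FractionalIdeal R⁰ (FractionRing R)) * (J : FractionalIdeal R⁰ (FractionRing R)) = _
    rw [hIJ, FractionalIdeal.coeIdeal_span_singleton]

theorem zpow_split {G : Type} [CommGroup G] (a b : G) (h : a * b = 1) (e : ℤ) :
    a ^ e = a ^ e.toNat * b ^ (-e).toNat := by
  have hb : b = a⁻¹ := (inv_eq_of_mul_eq_one_right h).symm
  subst hb
  rcases le_total 0 e with he | he
  · obtain ⟨m, rfl⟩ := Int.eq_ofNat_of_zero_le he
    simp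
  · obtain ⟨m, hm⟩ := Int.eq_ofNat_of_zero_le (neg_nonneg.2 he)
    have he' : e = -(m : ℤ) := by linarith
    subst he'
    simp

end ItemC2b

theorem claimC2b (h0 : ClaimC2b0) (h1 : ClaimC2b1) (h2 : ClaimC2b2) : ClaimC2b := by
  classical
  intro d hd hd4
  have hn : ∀ p : ℕ, ∃ n : ℤ, p.Prime → chi d p = 1 →
      (p : ℤ) ∣ FF d n ∧ ¬ (p : ℤ) ∣ 2 * n + d := by
    intro p
    by_cases hp : p.Prime ∧ chi d p = 1
    · obtain ⟨n, hn⟩ := h0 d p hd4 hp.1 hp.2
      exact ⟨n, fun _ _ => hn⟩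
    · exact ⟨0, fun ha hb => absurd ⟨ha, hb⟩ hp⟩
  choose n hn using hn
  have hU : ∀ p : ℕ, ∃ U V : (FractionalIdeal (nonZeroDivisors ↥(Od d)) (FractionRing ↥(Od d)))ˣ,
      p.Prime → chi d p = 1 →
      (U : FractionalIdeal (nonZeroDivisors ↥(Od d)) (FractionRing ↥(Od d))) =
        (Pi1 d p (n p) : FractionalIdeal (nonZeroDivisors ↥(Od d)) (FractionRing ↥(Od d))) ∧
      (V : FractionalIdeal (nonZeroDivisors ↥(Od d)) (FractionRing ↥(Od d))) =
        (Pi2 d p (n p) : FractionalIdeal (nonZeroDivisors ↥(Od d)) (FractionRing ↥(Od d))) ∧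
      ClassGroup.mk (FractionRing ↥(Od d)) U * ClassGroup.mk (FractionRing ↥(Od d)) V = 1 := by
    intro p
    by_cases hp : p.Prime ∧ chi d p = 1
    · obtain ⟨ha, hb⟩ := hn p hp.1 hp.2
      have hp0 : ((p : ℕ) : ↥(Od d)) ≠ 0 := by exact_mod_cast hp.1.ne_zero
      obtain ⟨U, V, h⟩ := ItemC2b.units _ _ _ hp0 (h1 d p (n p) hd hd4 hp.1 ha hb)
      exact ⟨U, V, fun _ _ => h⟩
    · exact ⟨1, 1, fun ha hb => absurd ⟨ha, hb⟩ hp⟩
  choose U V hUV using hU
  refine ⟨fun p => ClassGroup.mk (FractionRing ↥(Od d)) (U p), ?_⟩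
  intro S e hS hlt hprod
  have hprod2 : ClassGroup.mk (FractionRing ↥(Od d))
      (∏ p ∈ S, (U p ^ (e p).toNat * V p ^ (-(e p)).toNat)) = 1 := by
    rw [map_prod, ← hprod]
    refine Finset.prod_congr rfl fun p hp => ?_
    rw [map_mul, map_pow, map_pow]
    exact (ItemC2b.zpow_split _ _ (hUV p (hS p hp).1 (hS p hp).2).2.2 _).symm
  have hval : ((∏ p ∈ S, (U p ^ (e p).toNat * V p ^ (-(e p)).toNat) :
      (FractionalIdeal (nonZeroDivisors ↥(Od d)) (FractionRing ↥(Od d)))ˣ) :
      FractionalIdeal (nonZeroDivisors ↥(Od d)) (FractionRing ↥(Od d))) =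
      ((∏ p ∈ S, (Pi1 d p (n p) ^ (e p).toNat * Pi2 d p (n p) ^ (-(e p)).toNat) :
        Ideal ↥(Od d)) : FractionalIdeal (nonZeroDivisors ↥(Od d)) (FractionRing ↥(Od d))) := by
    rw [Units.coe_prod]
    have : ∀ (T : Finset ℕ), (∀ p ∈ T, p ∈ S) → ∏ p ∈ T, ((U p ^ (e p).toNat *
        V p ^ (-(e p)).toNat :
        (FractionalIdeal (nonZeroDivisors ↥(Od d)) (FractionRing ↥(Od d)))ˣ) :
        FractionalIdeal (nonZeroDivisors ↥(Od d)) (FractionRing ↥(Od d))) =
        ((∏ p ∈ T, (Pi1 d p (n p) ^ (e p).toNat * Pi2 d p (n p) ^ (-(e p)).toNat) :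
        Ideal ↥(Od d)) : FractionalIdeal (nonZeroDivisors ↥(Od d)) (FractionRing ↥(Od d))) := by
      intro T
      induction T using Finset.induction_on with
      | empty => intro _; simp
      | insert p T hpT ih =>
        intro hT
        rw [Finset.prod_insert hpT, Finset.prod_insert hpT, FractionalIdeal.coeIdeal_mul,
          ih fun q hq => hT q (Finset.mem_insert_of_mem hq)]
        have hpS := hS p (hT p (Finset.mem_insert_self _ _))
        obtain ⟨hu, hv, _⟩ := hUV p hpS.1 hpS.2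
        rw [Units.val_mul, Units.val_pow_eq_pow_val, Units.val_pow_eq_pow_val, hu, hv,
          FractionalIdeal.coeIdeal_mul, FractionalIdeal.coeIdeal_pow,
          FractionalIdeal.coeIdeal_pow]
    exact this S fun p hp => hp
  rw [ClassGroup.mk_eq_one_of_coe_ideal hval] at hprod2
  obtain ⟨α, _, hα⟩ := hprod2
  intro p hp
  have hfin := h2 d S n (fun p => (e p).toNat) (fun p => (-(e p)).toNat) α hd hd4
    (fun p hp => ⟨(hS p hp).1, hn p (hS p hp).1 (hS p hp).2⟩)
    (fun p _ => by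
      rcases le_total 0 (e p) with he | he
      · right
        exact Int.toNat_of_nonpos (by linarith)
      · left
        exact Int.toNat_of_nonpos he)
    (by
      refine lt_of_le_of_lt (le_of_eq ?_) hlt
      congr 1
      refine Finset.prod_congr rfl fun p _ => ?_
      congr 1
      omega)
    hα p hp
  obtain ⟨ha, hb⟩ := hfin

  omega

end Pool.Agent.Work.MP_e0c7e8_nt.SM
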