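import Pool.Agent.Work.MP_e0c7e8_nt.SM.Stmts
import Pool.Agent.Work.MP_e0c7e8_nt.SM.Basic

/-!
# Item C2b2: a short product of split prime ideals is not principal
-/

set_option autoImplicit false

namespace Pool.Agent.Work.MP_e0c7e8_nt.SM

open Finset

namespace ItemC2b2

/-- Integers embed into the order. -/
lemma int_inj {d a b : ℤ} (h : (a : ↥(Od d)) = (b : ↥(Od d))) : a = b := by
  have h1 := congrArg (fun z : ↥(Od d) => (z : ℂ)) h
  simp only [SubringClass.coe_intCast] at h1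
  exact_mod_cast h1

/-- The coordinates are unique. -/
lemma coord {d : ℤ} (hd : d < 0)
    (hnb : ∀ u v : ℤ, (v : ℝ) ^ 2 * |(d : ℝ)| ≤
      4 * Complex.normSq (((u : ↥(Od d)) + (v : ↥(Od d)) * th d : ↥(Od d)) : ℂ))
    {u v u' v' : ℤ}
    (h : (u : ↥(Od d)) + (v : ↥(Od d)) * th d = (u' : ↥(Od d)) + (v' : ↥(Od d)) * th d) :
    u = u' ∧ v = v' := by
  have h0 : (((u - u' : ℤ) : ↥(Od d)) + ((v - v' : ℤ) : ↥(Od d)) * th d : ↥(Od d)) = 0 := by
    push_cast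
    linear_combination h
  have h1 := hnb (u - u') (v - v')
  rw [h0] at h1
  have h2 : (0 : ℝ) < |(d : ℝ)| := abs_pos.2 (by exact_mod_cast hd.ne)
  have h3 : ((v - v' : ℤ) : ℝ) ^ 2 * |(d : ℝ)| ≤ 0 := by simpa using h1
  have h4 : ((v - v' : ℤ) : ℝ) ^ 2 ≤ 0 := by
    by_contra hcon
    push Not at hcon
    have := mul_pos hcon h2
    linarith
  have h5 : ((v - v' : ℤ) : ℝ) = 0 := by
    have := sq_nonneg ((v - v' : ℤ) : ℝ)
    exact pow_eq_zero_iff (two_ne_zero) |>.1 (le_antisymm h4 this)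
  have h6 : v - v' = 0 := by exact_mod_cast h5
  have h7 : v = v' := by omega
  subst h7
  refine ⟨int_inj (d := d) ?_, rfl⟩
  linear_combination h

/-- Powers of `x` with `x ^ 2 ≡ c x` modulo `p`. -/
lemma pow_mod {R : Type} [CommRing R] (x c p F : R) (h : x * x = c * x - p * F) (k : ℕ) :
    ∃ z : R, x ^ (k + 1) = c ^ k * x + p * z := by
  induction k with
  | zero => exact ⟨0, by ring⟩
  | succ k ih =>
    obtain ⟨z, hz⟩ := ih
    refine ⟨z * x - c ^ k * F, ?_⟩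
    rw [pow_succ, hz]
    linear_combination c ^ k * h

/-- A prime `p` does not divide `M x ^ k` if `x ^ 2 ≡ c x`, `x = a ± θ`. -/
lemma not_dvd {d : ℤ} (hd : d < 0)
    (hrep : ∀ z : ↥(Od d), ∃ u v : ℤ, z = (u : ↥(Od d)) + (v : ↥(Od d)) * th d)
    (hnb : ∀ u v : ℤ, (v : ℝ) ^ 2 * |(d : ℝ)| ≤
      4 * Complex.normSq (((u : ↥(Od d)) + (v : ↥(Od d)) * th d : ↥(Od d)) : ℂ))
    (p : ℕ) (hp : p.Prime) (a e c F M : ℤ) (he : e = 1 ∨ e = -1) (hc : ¬ (p : ℤ) ∣ c)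
    (hM : ¬ (p : ℤ) ∣ M) (x : ↥(Od d)) (hx : x = (a : ↥(Od d)) + (e : ↥(Od d)) * th d)
    (h : x * x = (c : ↥(Od d)) * x - (p : ↥(Od d)) * (F : ↥(Od d))) (k : ℕ)
    (hdv : (p : ↥(Od d)) ∣ x ^ (k + 1) * (M : ↥(Od d))) : False := by
  obtain ⟨z, hz⟩ := pow_mod x (c : ↥(Od d)) (p : ↥(Od d)) (F : ↥(Od d)) h k
  obtain ⟨y, hy⟩ := hdv
  obtain ⟨s, t, hst⟩ := hrep (y - (M : ↥(Od d)) * z)
  have h1 : ((c ^ k * M * a : ℤ) : ↥(Od d)) + ((c ^ k * M * e : ℤ) : ↥(Od d)) * th d =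
      ((p * s : ℤ) : ↥(Od d)) + ((p * t : ℤ) : ↥(Od d)) * th d := by
    have h2 : (p : ↥(Od d)) * (y - (M : ↥(Od d)) * z) =
        (c : ↥(Od d)) ^ k * (M : ↥(Od d)) * x := by
      rw [hz] at hy
      linear_combination -hy
    rw [hst, hx] at h2
    push_cast
    linear_combination -h2
  obtain ⟨-, h3⟩ := coord hd hnb h1
  have hpp : Prime (p : ℤ) := Nat.prime_iff_prime_int.1 hp
  have h4 : (p : ℤ) ∣ c ^ k * M * e := ⟨t, h3⟩
  have h5 : (p : ℤ) ∣ c ^ k * M := by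
    rcases he with he | he
    · rw [he, mul_one] at h4; exact h4
    · rw [he] at h4
      have h6 : c ^ k * M * -1 = -(c ^ k * M) := by ring
      rw [h6] at h4
      exact (dvd_neg).1 h4
  rcases hpp.dvd_or_dvd h5 with h6 | h6
  · exact hc (hpp.dvd_of_dvd_pow h6)
  · exact hM h6

/-- The image of the first ideal under conjugation. -/
lemma map_Pi1 {d : ℤ} (σ : ↥(Od d) ≃+* ↥(Od d)) (hσ : σ (th d) = (d : ↥(Od d)) - th d)
    (p : ℕ) (n : ℤ) : Ideal.map (σ : ↥(Od d) →+* ↥(Od d)) (Pi1 d p n) = Pi2 d p n := by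
  unfold Pi1 Pi2
  rw [Ideal.map_span, Set.image_pair]
  congr 1
  have e1 : (σ : ↥(Od d) →+* ↥(Od d)) (p : ↥(Od d)) = (p : ↥(Od d)) := map_natCast _ _
  have e2 : (σ : ↥(Od d) →+* ↥(Od d)) ((n : ↥(Od d)) + th d) = (n : ↥(Od d)) + d - th d := by
    rw [map_add, map_intCast]
    change (n : ↥(Od d)) + σ (th d) = _
    rw [hσ]
    ring
  rw [e1, e2]

/-- The image of the second ideal under conjugation. -/
lemma map_Pi2 {d : ℤ} (σ : ↥(Od d) ≃+* ↥(Od d)) (hσ : σ (th d) = (d : ↥(Od d)) - th d)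
    (p : ℕ) (n : ℤ) : Ideal.map (σ : ↥(Od d) →+* ↥(Od d)) (Pi2 d p n) = Pi1 d p n := by
  unfold Pi1 Pi2
  rw [Ideal.map_span, Set.image_pair]
  congr 1
  have e1 : (σ : ↥(Od d) →+* ↥(Od d)) (p : ↥(Od d)) = (p : ↥(Od d)) := map_natCast _ _
  have e2 : (σ : ↥(Od d) →+* ↥(Od d)) ((n : ↥(Od d)) + d - th d) = (n : ↥(Od d)) + th d := by
    rw [map_sub, map_add, map_intCast, map_intCast]
    change (n : ↥(Od d)) + d - σ (th d) = _
    rw [hσ]
    ring
  rw [e1, e2]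

/-- If two integers generate the same ideal of the order, then one divides the other. -/
lemma dvd_of_dvd {d : ℤ} (hd : d < 0)
    (hrep : ∀ z : ↥(Od d), ∃ u v : ℤ, z = (u : ↥(Od d)) + (v : ↥(Od d)) * th d)
    (hnb : ∀ u v : ℤ, (v : ℝ) ^ 2 * |(d : ℝ)| ≤
      4 * Complex.normSq (((u : ↥(Od d)) + (v : ↥(Od d)) * th d : ↥(Od d)) : ℂ))
    {a b : ℤ} (h : (a : ↥(Od d)) ∣ (b : ↥(Od d))) : a ∣ b := by
  obtain ⟨w, hw⟩ := h
  obtain ⟨s, t, hst⟩ := hrep w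
  have h1 : (b : ↥(Od d)) + ((0 : ℤ) : ↥(Od d)) * th d =
      ((a * s : ℤ) : ↥(Od d)) + ((a * t : ℤ) : ↥(Od d)) * th d := by
    rw [hw, hst]
    push_cast
    ring
  exact ⟨s, (coord hd hnb h1).1⟩

end ItemC2b2

open ItemC2b2 in
theorem claimC2b2 (h0 : ClaimC0) (h1 : ClaimC2b1) : ClaimC2b2 := by
  intro d S n f g α hd hd4 hS hfg hsmall hprod
  obtain ⟨hrep, hns, hnb, hth, σ, hσθ, hσn⟩ := h0 d hd hd4
  -- the integer m
  obtain ⟨m, hm⟩ : ∃ m : ℕ, m = ∏ p ∈ S, p ^ (f p + g p) := ⟨_, rfl⟩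
  have hmpos : 0 < m := by
    rw [hm]
    exact Finset.prod_pos (fun p hp => pow_pos (hS p hp).1.pos _)
  -- the norm ideal
  have hA : Ideal.span {α} * Ideal.map (σ : ↥(Od d) →+* ↥(Od d)) (Ideal.span {α}) =
      Ideal.span {(m : ↥(Od d))} := by
    rw [← hprod]
    have e1 : Ideal.map (σ : ↥(Od d) →+* ↥(Od d))
        (∏ p ∈ S, (Pi1 d p (n p) ^ f p * Pi2 d p (n p) ^ g p)) =
        ∏ p ∈ S, (Pi2 d p (n p) ^ f p * Pi1 d p (n p) ^ g p) := by
      have e0 := map_prod (Ideal.mapHom (σ : ↥(Od d) →+* ↥(Od d)))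
        (fun p => Pi1 d p (n p) ^ f p * Pi2 d p (n p) ^ g p) S
      change Ideal.map (σ : ↥(Od d) →+* ↥(Od d)) _ = ∏ p ∈ S, Ideal.map
        (σ : ↥(Od d) →+* ↥(Od d)) (Pi1 d p (n p) ^ f p * Pi2 d p (n p) ^ g p) at e0
      rw [e0]
      refine Finset.prod_congr rfl ?_
      intro p _
      rw [Ideal.map_mul, Ideal.map_pow, Ideal.map_pow, map_Pi1 σ hσθ, map_Pi2 σ hσθ]
    rw [e1, ← Finset.prod_mul_distrib]
    have e2 : ∀ p ∈ S, Pi1 d p (n p) ^ f p * Pi2 d p (n p) ^ g p *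
        (Pi2 d p (n p) ^ f p * Pi1 d p (n p) ^ g p) =
        Ideal.span {(p : ↥(Od d)) ^ (f p + g p)} := by
      intro p hp
      obtain ⟨hp1, hp2, hp3⟩ := hS p hp
      rw [← Ideal.span_singleton_pow, ← h1 d p (n p) hd hd4 hp1 hp2 hp3]
      ring
    rw [Finset.prod_congr rfl e2, Ideal.prod_span_singleton, hm]
    push_cast
    rfl
  obtain ⟨u, v, huv⟩ := hrep α
  obtain ⟨N, hN⟩ : ∃ N : ℤ, N = u ^ 2 + u * v * d + v ^ 2 * ((d ^ 2 - d) / 4) := ⟨_, rfl⟩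
  have hnα : Complex.normSq (α : ℂ) = (N : ℝ) := by
    rw [huv, hns u v, hN]
  have hασ : α * σ α = (N : ↥(Od d)) := by
    apply Subtype.ext
    rw [hσn α, hnα]
    simp
  rw [Ideal.map_span, Set.image_singleton, Ideal.span_singleton_mul_span_singleton] at hA
  have hA' : Ideal.span {(N : ↥(Od d))} = Ideal.span {(m : ↥(Od d))} := by
    rw [← hασ, ← hA]
    rfl
  have hdv1 : (N : ℤ) ∣ (m : ℤ) := by
    apply dvd_of_dvd hd hrep hnb
    have : (m : ↥(Od d)) ∈ Ideal.span {(N : ↥(Od d))} := by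
      rw [hA']; exact Ideal.mem_span_singleton_self _
    have := Ideal.mem_span_singleton.1 this
    rwa [Int.cast_natCast]
  have hdv2 : (m : ℤ) ∣ N := by
    apply dvd_of_dvd hd hrep hnb
    have : (N : ↥(Od d)) ∈ Ideal.span {(m : ↥(Od d))} := by
      rw [← hA']; exact Ideal.mem_span_singleton_self _
    have := Ideal.mem_span_singleton.1 this
    rwa [Int.cast_natCast]
  have hN0 : 0 ≤ N := by
    have := Complex.normSq_nonneg (α : ℂ)
    rw [hnα] at this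
    exact_mod_cast this
  have hNm : N = (m : ℤ) := Int.dvd_antisymm hN0 (by positivity) hdv1 hdv2
  -- the coordinate v vanishes
  have hv : v = 0 := by
    have h2 := hnb u v
    rw [← huv, hnα, hNm] at h2
    have h3 : (4 * m : ℕ) < d.natAbs := by rw [hm]; exact hsmall
    have h4 : (4 : ℝ) * m < |(d : ℝ)| := by
      have h5 : ((4 * m : ℕ) : ℝ) < ((d.natAbs : ℕ) : ℝ) := by exact_mod_cast h3
      rw [Nat.cast_natAbs] at h5
      push_cast at h5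
      exact h5
    push_cast at h2
    have h6 : (0 : ℝ) < |(d : ℝ)| := abs_pos.2 (by exact_mod_cast hd.ne)
    have h7 : (v : ℝ) ^ 2 < 1 := by
      by_contra hcon
      push Not at hcon
      have := mul_le_mul_of_nonneg_right hcon h6.le
      linarith
    have h8 : v ^ 2 < 1 := by exact_mod_cast h7
    by_contra hv
    have : 0 < v ^ 2 := by positivity
    omega
  have hαu : α = (u : ↥(Od d)) := by
    rw [huv, hv]; simp
  have hum : u ^ 2 = (m : ℤ) := by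
    rw [← hNm, hN, hv]; ring
  -- the key step
  have hθ2 : th d * th d = (d : ↥(Od d)) * th d - (((d ^ 2 - d) / 4 : ℤ) : ↥(Od d)) := by
    linear_combination -hth
  intro p hp
  obtain ⟨hp1, hp2, hp3⟩ := hS p hp
  obtain ⟨F, hF⟩ := hp2
  have hFF : ((n p : ℤ) : ↥(Od d)) ^ 2 + (d : ↥(Od d)) * ((n p : ℤ) : ↥(Od d)) +
      (((d ^ 2 - d) / 4 : ℤ) : ↥(Od d)) = (p : ↥(Od d)) * (F : ↥(Od d)) := by
    have := congrArg (fun z : ℤ => (z : ↥(Od d))) hF
    unfold FF at this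
    push_cast at this
    exact this
  -- M
  obtain ⟨M, hM⟩ : ∃ M : ℕ, M = ∏ q ∈ S.erase p, q ^ (f q + g q) := ⟨_, rfl⟩
  have hpM : ¬ (p : ℤ) ∣ (M : ℤ) := by
    intro hcon
    rw [Int.natCast_dvd_natCast, hM, (Nat.Prime.prime hp1).dvd_finsetProd_iff] at hcon
    obtain ⟨q, hq, hpq⟩ := hcon
    obtain ⟨hq1, hq2⟩ := Finset.mem_erase.1 hq
    have := (Nat.prime_dvd_prime_iff_eq hp1 (hS q hq2).1).1 (hp1.dvd_of_dvd_pow hpq)
    exact hq1 this.symm
  have hMmem : (M : ↥(Od d)) ∈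
      ∏ q ∈ S.erase p, (Pi1 d q (n q) ^ f q * Pi2 d q (n q) ^ g q) := by
    rw [hM]
    push_cast
    refine Ideal.prod_mem_prod ?_
    intro q _
    rw [pow_add]
    refine Ideal.mul_mem_mul (Ideal.pow_mem_pow ?_ _) (Ideal.pow_mem_pow ?_ _)
    · exact Ideal.subset_span (by simp)
    · exact Ideal.subset_span (by simp)
  have hpu : (0 < f p + g p) → (p : ↥(Od d)) ∣ α := by
    intro hpos
    have h2 : p ∣ m := by
      rw [hm]
      exact (dvd_pow_self p hpos.ne').trans (Finset.dvd_prod_of_mem _ hp)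
    have h3 : (p : ℤ) ∣ u ^ 2 := by
      rw [hum]; exact_mod_cast h2
    have h4 : (p : ℤ) ∣ u := (Nat.prime_iff_prime_int.1 hp1).dvd_of_dvd_pow h3
    obtain ⟨w, hw⟩ := h4
    rw [hαu, hw]
    push_cast
    exact ⟨_, rfl⟩
  have hmem : ∀ x : ↥(Od d), ∀ k : ℕ, 0 < f p + g p →
      x ^ k ∈ Pi1 d p (n p) ^ f p * Pi2 d p (n p) ^ g p →
      (p : ↥(Od d)) ∣ x ^ k * ((M : ℤ) : ↥(Od d)) := by
    intro x k hpos hx
    have h2 : x ^ k * (M : ↥(Od d)) ∈ Ideal.span {α} := by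
      rw [← hprod, ← Finset.mul_prod_erase S _ hp]
      exact Ideal.mul_mem_mul hx hMmem
    have h3 := (hpu hpos).trans (Ideal.mem_span_singleton.1 h2)
    rwa [Int.cast_natCast]
  rcases hfg p hp with hf | hg
  · refine ⟨hf, ?_⟩
    by_contra hg
    obtain ⟨k, hk⟩ : ∃ k, g p = k + 1 := ⟨g p - 1, by omega⟩
    refine not_dvd hd hrep hnb p hp1 (n p + d) (-1) (2 * n p + d) F (M : ℤ) (Or.inr rfl) hp3 hpM
      ((n p : ↥(Od d)) + d - th d) ?_ ?_ k ?_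
    · push_cast; ring
    · push_cast
      linear_combination hθ2 - hFF
    · refine hmem _ _ (by omega) ?_
      rw [hf, hk, pow_zero, one_mul]
      exact Ideal.pow_mem_pow (Ideal.subset_span (by simp)) _
  · refine ⟨?_, hg⟩
    by_contra hf
    obtain ⟨k, hk⟩ : ∃ k, f p = k + 1 := ⟨f p - 1, by omega⟩
    refine not_dvd hd hrep hnb p hp1 (n p) 1 (2 * n p + d) F (M : ℤ) (Or.inl rfl) hp3 hpM
      ((n p : ↥(Od d)) + th d) ?_ ?_ k ?_
    · push_cast; ring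
    · push_cast
      linear_combination hθ2 - hFF
    · refine hmem _ _ (by omega) ?_
      rw [hg, hk, pow_zero, mul_one]
      exact Ideal.pow_mem_pow (Ideal.subset_span (by simp)) _

end Pool.Agent.Work.MP_e0c7e8_nt.SM
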