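import Pool.Agent.Work.MP_e0c7e8_nt.SM.Stmts
import Pool.Agent.Work.MP_e0c7e8_nt.SM.Basic

/-!
# Item C1b: roots of `F` modulo `a`
-/

set_option autoImplicit false

namespace Pool.Agent.Work.MP_e0c7e8_nt.SM

open Finset

namespace ItemC1b

/-- The number of square roots of `D` modulo `q`. -/
def R (D : ℤ) (q : ℕ) : ℕ := ((range q).filter (fun y : ℕ => (q : ℤ) ∣ (y : ℤ) ^ 2 - D)).card

theorem class_card (q k : ℕ) (hq : 0 < q) (c : ℤ) :
    ((range (k * q)).filter (fun n : ℕ => (q : ℤ) ∣ (n : ℤ) - c)).card ≤ k := by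
  have h : ((range (k * q)).filter (fun n : ℕ => (q : ℤ) ∣ (n : ℤ) - c)).card ≤ (range k).card := by
    refine Finset.card_le_card_of_injOn (fun n => n / q) ?_ ?_
    · intro n hn
      have hn' := (Finset.mem_filter.1 (Finset.mem_coe.1 hn)).1
      rw [Finset.mem_range] at hn'
      exact Finset.mem_coe.2 (Finset.mem_range.2 (Nat.div_lt_of_lt_mul (by rwa [mul_comm] at hn')))
    · intro n hn m hm hnm
      have hn' := (Finset.mem_filter.1 (Finset.mem_coe.1 hn)).2
      have hm' := (Finset.mem_filter.1 (Finset.mem_coe.1 hm)).2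
      have hd : (q : ℤ) ∣ (n : ℤ) - m := by
        have := dvd_sub hn' hm'
        have e : (n : ℤ) - c - (m - c) = n - m := by ring
        rwa [e] at this
      have hmod : n % q = m % q := by
        have h2 : (n : ℤ) ≡ m [ZMOD q] := (Int.modEq_iff_dvd.2 (by
          rw [← dvd_neg]
          have e : -((m : ℤ) - n) = n - m := by ring
          rwa [e]))
        exact (Int.natCast_modEq_iff.1 h2)
      have h3 : n / q = m / q := hnm
      rw [← Nat.div_add_mod n q, ← Nat.div_add_mod m q, hmod, h3]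
  rwa [Finset.card_range] at h

theorem two_classes (q k : ℕ) (hq : 0 < q) (S : Finset ℕ) (hS : S ⊆ range (k * q)) (c c' : ℤ)
    (h : ∀ n ∈ S, (q : ℤ) ∣ (n : ℤ) - c ∨ (q : ℤ) ∣ (n : ℤ) - c') : S.card ≤ 2 * k := by
  have hsub : S ⊆ (range (k * q)).filter (fun n : ℕ => (q : ℤ) ∣ (n : ℤ) - c) ∪
      (range (k * q)).filter (fun n : ℕ => (q : ℤ) ∣ (n : ℤ) - c') := by
    intro n hn
    rw [Finset.mem_union, Finset.mem_filter, Finset.mem_filter]
    rcases h n hn with h1 | h1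
    · exact Or.inl ⟨hS hn, h1⟩
    · exact Or.inr ⟨hS hn, h1⟩
  have h1 := Finset.card_le_card hsub
  have h2 := Finset.card_union_le ((range (k * q)).filter (fun n : ℕ => (q : ℤ) ∣ (n : ℤ) - c))
    ((range (k * q)).filter (fun n : ℕ => (q : ℤ) ∣ (n : ℤ) - c'))
  have h3 := class_card q k hq c
  have h4 := class_card q k hq c'
  omega

/-- An odd prime power dividing a product, the prime not dividing one of the factors. -/
theorem split_odd (p : ℕ) (hp : p.Prime) (hp2 : p ≠ 2) (j : ℕ) (y z : ℤ) (hy : ¬ (p : ℤ) ∣ y)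
    (h : ((p ^ j : ℕ) : ℤ) ∣ (z - y) * (z + y)) :
    ((p ^ j : ℕ) : ℤ) ∣ z - y ∨ ((p ^ j : ℕ) : ℤ) ∣ z - (-y) := by
  have hpi : Prime (p : ℤ) := Nat.prime_iff_prime_int.1 hp
  by_cases h1 : (p : ℤ) ∣ z - y
  · left
    have h2 : ¬ (p : ℤ) ∣ z + y := by
      intro h2
      have h3 : (p : ℤ) ∣ 2 * y := by
        have := dvd_sub h2 h1
        have e : z + y - (z - y) = 2 * y := by ring
        rwa [e] at this
      rcases hpi.dvd_or_dvd h3 with h4 | h4
      · have h5 : p ∣ 2 := by exact_mod_cast h4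
        exact hp2 ((Nat.prime_dvd_prime_iff_eq hp Nat.prime_two).1 h5)
      · exact hy h4
    have hc : IsCoprime ((p : ℤ) ^ j) (z + y) :=
      IsCoprime.pow_left ((hpi.irreducible.coprime_iff_not_dvd).2 h2)
    push_cast at h ⊢
    exact hc.dvd_of_dvd_mul_right h
  · right
    have hc : IsCoprime ((p : ℤ) ^ j) (z - y) :=
      IsCoprime.pow_left ((hpi.irreducible.coprime_iff_not_dvd).2 h1)
    push_cast at h ⊢
    rw [sub_neg_eq_add]
    exact hc.dvd_of_dvd_mul_left h

theorem split_two (j : ℕ) (y z : ℤ) (hy : ¬ (2 : ℤ) ∣ y) (hz : ¬ (2 : ℤ) ∣ z)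
    (h : ((2 ^ (j + 1) : ℕ) : ℤ) ∣ (z - y) * (z + y)) :
    ((2 ^ j : ℕ) : ℤ) ∣ z - y ∨ ((2 ^ j : ℕ) : ℤ) ∣ z - (-y) := by
  obtain ⟨a, ha⟩ : ∃ a, z - y = 2 * a := by
    obtain ⟨u, hu⟩ := Int.not_even_iff_odd.1 (fun h => hy h.two_dvd)
    obtain ⟨v, hv⟩ := Int.not_even_iff_odd.1 (fun h => hz h.two_dvd)
    exact ⟨v - u, by rw [hu, hv]; ring⟩
  have hb : z + y = 2 * (a + y) := by linarith
  rcases Nat.eq_zero_or_pos j with rfl | hj
  · left
    simp
  obtain ⟨i, rfl⟩ : ∃ i, j = i + 1 := ⟨j - 1, by omega⟩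
  rw [ha, hb] at h
  have h1 : (2 : ℤ) ^ i ∣ a * (a + y) := by
    have h4 : (4 : ℤ) * 2 ^ i ∣ 4 * (a * (a + y)) := by
      have e1 : ((2 ^ (i + 1 + 1) : ℕ) : ℤ) = 4 * 2 ^ i := by push_cast; ring
      have e2 : 2 * a * (2 * (a + y)) = 4 * (a * (a + y)) := by ring
      rwa [e1, e2] at h
    exact (mul_dvd_mul_iff_left (by norm_num : (4 : ℤ) ≠ 0)).1 h4
  have hp2 : Prime (2 : ℤ) := Int.prime_two
  have key : (2 : ℤ) ^ i ∣ a ∨ (2 : ℤ) ^ i ∣ a + y := by
    by_cases h2 : (2 : ℤ) ∣ a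
    · left
      have h3 : ¬ (2 : ℤ) ∣ a + y := by
        intro h3
        have := dvd_sub h3 h2
        rw [add_sub_cancel_left] at this
        exact hy this
      exact (IsCoprime.pow_left ((hp2.irreducible.coprime_iff_not_dvd).2 h3)).dvd_of_dvd_mul_right h1
    · right
      exact (IsCoprime.pow_left ((hp2.irreducible.coprime_iff_not_dvd).2 h2)).dvd_of_dvd_mul_left h1
  rcases key with ⟨c, hc⟩ | ⟨c, hc⟩
  · left
    refine ⟨c, ?_⟩
    rw [ha, hc]
    push_cast
    ring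
  · right
    refine ⟨c, ?_⟩
    rw [sub_neg_eq_add, hb, hc]
    push_cast
    ring

theorem step (p : ℕ) (hp : p.Prime) (j : ℕ) (D : ℤ) :
    R ((p : ℤ) ^ 2 * D) (p ^ (j + 2)) ≤ p * R D (p ^ j) := by
  have hpi : Prime (p : ℤ) := Nat.prime_iff_prime_int.1 hp
  have hp0 : 0 < p := hp.pos
  have hq0 : 0 < p ^ j := Nat.pos_of_ne_zero (pow_ne_zero _ hp0.ne')
  have hcard : ((range p) ×ˢ ((range (p ^ j)).filter
      (fun y : ℕ => ((p ^ j : ℕ) : ℤ) ∣ (y : ℤ) ^ 2 - D))).card = p * R D (p ^ j) := by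
    rw [Finset.card_product, Finset.card_range]
    rfl
  rw [← hcard]
  unfold R
  have hmul : ∀ y : ℕ, ((p ^ (j + 2) : ℕ) : ℤ) ∣ (y : ℤ) ^ 2 - (p : ℤ) ^ 2 * D → p ∣ y := by
    intro y hy
    have h1 : (p : ℤ) ∣ (y : ℤ) ^ 2 := by
      have h2 : (p : ℤ) ∣ ((p ^ (j + 2) : ℕ) : ℤ) := by
        push_cast
        exact dvd_pow_self _ (by omega)
      have h3 := h2.trans hy
      have h4 : (p : ℤ) ∣ (p : ℤ) ^ 2 * D := Dvd.dvd.mul_right (dvd_pow_self _ (by norm_num)) _
      have h5 := dvd_add h3 h4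
      rwa [sub_add_cancel] at h5
    exact_mod_cast hpi.dvd_of_dvd_pow h1
  refine Finset.card_le_card_of_injOn (fun y => (y / p / p ^ j, y / p % p ^ j)) ?_ ?_
  · intro y hy
    obtain ⟨hy1, hy2⟩ := Finset.mem_filter.1 (Finset.mem_coe.1 hy)
    rw [Finset.mem_range] at hy1
    obtain ⟨z, rfl⟩ := hmul y hy2
    have hz : p * z / p = z := Nat.mul_div_cancel_left z hp0
    have hz1 : z < p * p ^ j := by
      have : p ^ (j + 2) = p * (p * p ^ j) := by ring
      rw [this] at hy1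
      exact Nat.lt_of_mul_lt_mul_left hy1
    rw [Finset.mem_coe, Finset.mem_product, Finset.mem_filter, Finset.mem_range, Finset.mem_range]
    simp only [hz]
    refine ⟨Nat.div_lt_of_lt_mul (by rwa [mul_comm] at hz1), Nat.mod_lt _ hq0, ?_⟩
    have h1 : ((p ^ j : ℕ) : ℤ) ∣ (z : ℤ) ^ 2 - D := by
      have h2 : (p : ℤ) ^ 2 * ((p ^ j : ℕ) : ℤ) ∣ (p : ℤ) ^ 2 * ((z : ℤ) ^ 2 - D) := by
        have e1 : ((p ^ (j + 2) : ℕ) : ℤ) = (p : ℤ) ^ 2 * ((p ^ j : ℕ) : ℤ) := by push_cast; ring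
        have e2 : ((p * z : ℕ) : ℤ) ^ 2 - (p : ℤ) ^ 2 * D = (p : ℤ) ^ 2 * ((z : ℤ) ^ 2 - D) := by
          push_cast; ring
        rwa [e1, e2] at hy2
      exact (mul_dvd_mul_iff_left (pow_ne_zero 2 hpi.ne_zero)).1 h2
    have h3 : ((p ^ j : ℕ) : ℤ) ∣ (z : ℤ) - ((z % p ^ j : ℕ) : ℤ) := by
      refine ⟨((z / p ^ j : ℕ) : ℤ), ?_⟩
      have := Nat.div_add_mod z (p ^ j)
      have h4 : ((p ^ j : ℕ) : ℤ) * ((z / p ^ j : ℕ) : ℤ) + ((z % p ^ j : ℕ) : ℤ) = z := by
        exact_mod_cast this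
      linarith
    have h5 : ((z % p ^ j : ℕ) : ℤ) ^ 2 - D = ((z : ℤ) ^ 2 - D) -
        ((z : ℤ) - ((z % p ^ j : ℕ) : ℤ)) * ((z : ℤ) + ((z % p ^ j : ℕ) : ℤ)) := by ring
    rw [h5]
    exact dvd_sub h1 (Dvd.dvd.mul_right h3 _)
  · intro y hy y' hy' hyy
    obtain ⟨z, rfl⟩ := hmul y (Finset.mem_filter.1 (Finset.mem_coe.1 hy)).2
    obtain ⟨z', rfl⟩ := hmul y' (Finset.mem_filter.1 (Finset.mem_coe.1 hy')).2
    simp only [Nat.mul_div_cancel_left _ hp0, Prod.mk.injEq] at hyy
    obtain ⟨h1, h2⟩ := hyy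
    have h3 : z = z' := by
      rw [← Nat.div_add_mod z (p ^ j), ← Nat.div_add_mod z' (p ^ j), h1, h2]
    rw [h3]

theorem rootsPow (p : ℕ) (hp : p.Prime) (j : ℕ) : ∀ D : ℤ, ∃ s : ℕ, s ^ 2 ∣ p ^ j ∧
    ((s : ℤ) ^ 2 ∣ D) ∧ R D (p ^ j) ≤ (if p = 2 then 4 else 2) * s := by
  have hpi : Prime (p : ℤ) := Nat.prime_iff_prime_int.1 hp
  induction j using Nat.strong_induction_on with
  | _ j ih =>
    intro D
    have hc2 : 2 ≤ (if p = 2 then 4 else 2) := by split_ifs <;> norm_num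
    have hq0 : 0 < p ^ j := Nat.pos_of_ne_zero (pow_ne_zero _ hp.pos.ne')
    rcases Nat.eq_zero_or_pos j with rfl | hj
    · refine ⟨1, by simp, by simp, ?_⟩
      have : R D (p ^ 0) ≤ 1 := by
        unfold R
        refine (Finset.card_filter_le _ _).trans ?_
        simp
      omega
    by_cases hD : (p : ℤ) ∣ D
    · rcases Nat.lt_or_ge j 2 with hj2 | hj2
      · have hj1 : j = 1 := by omega
        subst hj1
        refine ⟨1, by simp, by simp, ?_⟩
        have h1 : R D (p ^ 1) ≤ 1 := by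
          have h2 := class_card (p ^ 1) 1 hq0 0
          refine le_trans (Finset.card_le_card ?_) h2
          intro y hy
          obtain ⟨hy1, hy2⟩ := Finset.mem_filter.1 hy
          rw [Finset.mem_filter, one_mul]
          refine ⟨hy1, ?_⟩
          rw [pow_one] at hy2 ⊢
          rw [sub_zero]
          have h3 := dvd_add hy2 hD
          rw [sub_add_cancel] at h3
          exact hpi.dvd_of_dvd_pow h3
        omega
      · obtain ⟨i, rfl⟩ : ∃ i, j = i + 2 := ⟨j - 2, by omega⟩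
        by_cases hD2 : (p : ℤ) ^ 2 ∣ D
        · obtain ⟨D', rfl⟩ := hD2
          obtain ⟨s, hs1, hs2, hs3⟩ := ih i (by omega) D'
          refine ⟨p * s, ?_, ?_, ?_⟩
          · rw [mul_pow, pow_add, mul_comm (p ^ i)]
            exact mul_dvd_mul_left _ hs1
          · push_cast
            rw [mul_pow]
            exact mul_dvd_mul_left _ hs2
          · refine (step p hp i D').trans ?_
            calc p * R D' (p ^ i) ≤ p * ((if p = 2 then 4 else 2) * s) :=
                  Nat.mul_le_mul_left _ hs3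
              _ = (if p = 2 then 4 else 2) * (p * s) := by ring
        · refine ⟨1, by simp, by simp, ?_⟩
          have h0 : R D (p ^ (i + 2)) = 0 := by
            unfold R
            rw [Finset.card_eq_zero, Finset.filter_eq_empty_iff]
            intro y _ hy
            apply hD2
            have h2 : (p : ℤ) ^ 2 ∣ (y : ℤ) ^ 2 - D := by
              refine Dvd.dvd.trans ?_ hy
              push_cast
              exact pow_dvd_pow _ (by omega)
            have h3 : (p : ℤ) ∣ (y : ℤ) := by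
              have h4 := dvd_add ((dvd_pow_self (p : ℤ) (by norm_num : (2 : ℕ) ≠ 0)).trans h2) hD
              rw [sub_add_cancel] at h4
              exact hpi.dvd_of_dvd_pow h4
            have h5 : (p : ℤ) ^ 2 ∣ (y : ℤ) ^ 2 := pow_dvd_pow_of_dvd h3 2
            have h6 := dvd_sub h5 h2
            have e : (y : ℤ) ^ 2 - ((y : ℤ) ^ 2 - D) = D := by ring
            rwa [e] at h6
          omega
    · refine ⟨1, by simp, by simp, ?_⟩
      rw [mul_one]
      have hroot : ∀ y : ℕ, ((p ^ j : ℕ) : ℤ) ∣ (y : ℤ) ^ 2 - D → ¬ (p : ℤ) ∣ (y : ℤ) := by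
        intro y hy hpy
        apply hD
        have h1 : (p : ℤ) ∣ (y : ℤ) ^ 2 - D := by
          refine Dvd.dvd.trans ?_ hy
          push_cast
          exact dvd_pow_self _ (by omega)
        have h2 : (p : ℤ) ∣ (y : ℤ) ^ 2 := Dvd.dvd.pow hpy (by norm_num)
        have h3 := dvd_sub h2 h1
        have e : (y : ℤ) ^ 2 - ((y : ℤ) ^ 2 - D) = D := by ring
        rwa [e] at h3
      unfold R
      rcases Finset.eq_empty_or_nonempty ((range (p ^ j)).filter
        (fun y : ℕ => ((p ^ j : ℕ) : ℤ) ∣ (y : ℤ) ^ 2 - D)) with he | ⟨y, hy⟩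
      · rw [he]
        simp
      · have hy2 := (Finset.mem_filter.1 hy).2
        have hdiff : ∀ z ∈ (range (p ^ j)).filter
            (fun y : ℕ => ((p ^ j : ℕ) : ℤ) ∣ (y : ℤ) ^ 2 - D),
            ((p ^ j : ℕ) : ℤ) ∣ ((z : ℤ) - y) * (z + y) := by
          intro z hz
          have hz2 := (Finset.mem_filter.1 hz).2
          have h3 := dvd_sub hz2 hy2
          have e : (z : ℤ) ^ 2 - D - ((y : ℤ) ^ 2 - D) = ((z : ℤ) - y) * (z + y) := by ring
          rwa [e] at h3
        by_cases hp2 : p = 2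
        · subst hp2
          simp only [if_true]
          obtain ⟨i, rfl⟩ : ∃ i, j = i + 1 := ⟨j - 1, by omega⟩
          refine two_classes (2 ^ i) 2 (by positivity) _ ?_ (y : ℤ) (-(y : ℤ)) ?_
          · rw [show 2 * 2 ^ i = 2 ^ (i + 1) by ring]
            exact Finset.filter_subset _ _
          · intro z hz
            exact split_two i y z (hroot y hy2) (hroot z (Finset.mem_filter.1 hz).2) (hdiff z hz)
        · rw [if_neg hp2]
          refine two_classes (p ^ j) 1 hq0 _ ?_ (y : ℤ) (-(y : ℤ)) ?_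
          · rw [one_mul]
            exact Finset.filter_subset _ _
          · intro z hz
            exact split_odd p hp hp2 j y z (hroot y hy2) (hdiff z hz)

theorem FF_four (d n : ℤ) (hd : d % 4 = 0 ∨ d % 4 = 1) :
    4 * FF d n = (2 * n + d) ^ 2 - d := by
  have h : 4 * ((d ^ 2 - d) / 4) = d ^ 2 - d := by
    apply Int.mul_ediv_cancel'
    rcases hd with h | h
    · obtain ⟨k, hk⟩ : ∃ k, d = 4 * k := ⟨d / 4, by omega⟩
      exact ⟨4 * k ^ 2 - k, by rw [hk]; ring⟩
    · obtain ⟨k, hk⟩ : ∃ k, d = 4 * k + 1 := ⟨d / 4, by omega⟩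
      exact ⟨4 * k ^ 2 + k, by rw [hk]; ring⟩
  unfold FF
  linear_combination h

theorem FF_sub (d n m : ℤ) : FF d n - FF d m = (n - m) * (n + m + d) := by
  unfold FF
  ring

/-- Injection of the roots of `F` into square roots. -/
theorem wt_le_R (d D : ℤ) (q : ℕ) (hq : 0 < q) (u v : ℤ) (hu : IsCoprime (q : ℤ) u)
    (h : ∀ n : ℤ, (q : ℤ) ∣ FF d n → (q : ℤ) ∣ (u * n + v) ^ 2 - D) : wt d q ≤ R D q := by
  have hq' : (0 : ℤ) < (q : ℤ) := by exact_mod_cast hq
  unfold wt R
  have hmod : ∀ n : ℤ, (q : ℤ) ∣ n - (((n % q).toNat : ℕ) : ℤ) := by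
    intro n
    rw [Int.toNat_of_nonneg (Int.emod_nonneg _ hq'.ne')]
    exact Int.dvd_self_sub_emod
  refine Finset.card_le_card_of_injOn (fun n : ℕ => ((u * n + v) % q).toNat) ?_ ?_
  · intro n hn
    obtain ⟨_, hn2⟩ := Finset.mem_filter.1 (Finset.mem_coe.1 hn)
    rw [Finset.mem_coe, Finset.mem_filter, Finset.mem_range]
    constructor
    · have h1 := Int.emod_lt_of_pos (u * n + v) hq'
      have h0 := Int.emod_nonneg (u * n + v) hq'.ne'
      change ((u * n + v) % q).toNat < q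
      omega
    · have h1 := h n hn2
      have h2 := hmod (u * n + v)
      have e : ((((u * n + v) % q).toNat : ℕ) : ℤ) ^ 2 - D = ((u * n + v) ^ 2 - D) -
        ((u * n + v) - ((((u * n + v) % q).toNat : ℕ) : ℤ)) *
          ((u * n + v) + ((((u * n + v) % q).toNat : ℕ) : ℤ)) := by ring
      rw [e]
      exact dvd_sub h1 (Dvd.dvd.mul_right h2 _)
  · intro n hn m hm hnm
    have hn1 := Finset.mem_range.1 (Finset.mem_filter.1 (Finset.mem_coe.1 hn)).1
    have hm1 := Finset.mem_range.1 (Finset.mem_filter.1 (Finset.mem_coe.1 hm)).1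
    have h1 := hmod (u * n + v)
    have h2 := hmod (u * m + v)
    have hnm' : ((((u * n + v) % q).toNat : ℕ) : ℤ) = ((((u * m + v) % q).toNat : ℕ) : ℤ) := by
      exact_mod_cast hnm
    rw [hnm'] at h1
    have h3 := dvd_sub h1 h2
    have e : u * (n : ℤ) + v - ((((u * m + v) % q).toNat : ℕ) : ℤ) -
      (u * m + v - ((((u * m + v) % q).toNat : ℕ) : ℤ)) = u * (n - m) := by ring
    rw [e] at h3
    have h4 : (q : ℤ) ∣ (n : ℤ) - m := hu.dvd_of_dvd_mul_left h3
    by_contra hne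
    rcases Nat.lt_or_gt_of_ne hne with hl | hl
    · have h5 : (q : ℤ) ∣ (m : ℤ) - n := by
        rw [← dvd_neg]
        have e2 : -((m : ℤ) - n) = n - m := by ring
        rwa [e2]
      have := Int.le_of_dvd (by omega) h5
      omega
    · have := Int.le_of_dvd (by omega) h4
      omega

theorem wtPow (d : ℤ) (hd : d % 4 = 0 ∨ d % 4 = 1) (p : ℕ) (hp : p.Prime) (j : ℕ) (hj : 0 < j) :
    ∃ s : ℕ, s ^ 2 ∣ p ^ j ∧ ((s : ℤ) ^ 2 ∣ d) ∧ wt d (p ^ j) ≤ (if p = 2 then 4 else 2) * s := by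
  have hq0 : 0 < p ^ j := Nat.pos_of_ne_zero (pow_ne_zero _ hp.pos.ne')
  by_cases hp2 : p = 2
  · subst hp2
    rcases hd with h4 | h4
    · obtain ⟨D, hD⟩ : ∃ D, d = 4 * D := ⟨d / 4, by omega⟩
      obtain ⟨s, hs1, hs2, hs3⟩ := rootsPow 2 hp j D
      refine ⟨s, hs1, by rw [hD]; exact Dvd.dvd.mul_left hs2 _, le_trans ?_ hs3⟩
      refine wt_le_R d D _ hq0 1 (2 * D) isCoprime_one_right ?_
      intro n hn
      have h1 := FF_four d n (Or.inl h4)
      have h2 : FF d n = (1 * n + 2 * D) ^ 2 - D := by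
        have h3 : (4 : ℤ) * FF d n = 4 * ((1 * n + 2 * D) ^ 2 - D) := by
          rw [h1, hD]; ring
        linarith
      rwa [← h2]
    · refine ⟨1, by simp, by simp, ?_⟩
      simp only [if_true, mul_one]
      have h2 : wt d (2 ^ j) ≤ 2 := by
        unfold wt
        rcases Finset.eq_empty_or_nonempty ((range (2 ^ j)).filter
          (fun n : ℕ => ((2 ^ j : ℕ) : ℤ) ∣ FF d n)) with he | ⟨m, hm⟩
        · rw [he]
          simp
        · have hm2 := (Finset.mem_filter.1 hm).2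
          refine two_classes (2 ^ j) 1 hq0 _ ?_ (m : ℤ) (-(m : ℤ) - d) ?_
          · rw [one_mul]
            exact Finset.filter_subset _ _
          · intro n hn
            have hn2 := (Finset.mem_filter.1 hn).2
            have h3 := dvd_sub hn2 hm2
            rw [FF_sub] at h3
            have hpt : Prime (2 : ℤ) := Int.prime_two
            have e : (n : ℤ) - (-(m : ℤ) - d) = n + m + d := by ring
            rw [e]
            push_cast at h3 ⊢
            by_cases h5 : (2 : ℤ) ∣ (n : ℤ) - m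
            · left
              have h6 : ¬ (2 : ℤ) ∣ (n : ℤ) + m + d := by omega
              exact (IsCoprime.pow_left
                ((hpt.irreducible.coprime_iff_not_dvd).2 h6)).dvd_of_dvd_mul_right h3
            · right
              exact (IsCoprime.pow_left
                ((hpt.irreducible.coprime_iff_not_dvd).2 h5)).dvd_of_dvd_mul_left h3
      omega
  · obtain ⟨s, hs1, hs2, hs3⟩ := rootsPow p hp j d
    refine ⟨s, hs1, hs2, le_trans ?_ hs3⟩
    have hpi : Prime (p : ℤ) := Nat.prime_iff_prime_int.1 hp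
    refine wt_le_R d d _ hq0 2 d ?_ ?_
    · push_cast
      refine IsCoprime.pow_left ((hpi.irreducible.coprime_iff_not_dvd).2 ?_)
      intro h
      have h5 : p ∣ 2 := by exact_mod_cast h
      exact hp2 ((Nat.prime_dvd_prime_iff_eq hp Nat.prime_two).1 h5)
    · intro n hn
      rw [← FF_four d n hd]
      exact Dvd.dvd.mul_left hn _

theorem wt_mul (d : ℤ) (a b : ℕ) (ha : 0 < a) (hb : 0 < b) (hab : a.Coprime b) :
    wt d (a * b) ≤ wt d a * wt d b := by
  have hcard : (((range a).filter (fun n : ℕ => (a : ℤ) ∣ FF d n)) ×ˢ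
      ((range b).filter (fun n : ℕ => (b : ℤ) ∣ FF d n))).card = wt d a * wt d b := by
    rw [Finset.card_product]
    rfl
  rw [← hcard]
  unfold wt
  have hred : ∀ q n : ℕ, (q : ℤ) ∣ FF d n → (q : ℤ) ∣ FF d ((n % q : ℕ) : ℤ) := by
    intro q n h
    have h3 : (q : ℤ) ∣ (n : ℤ) - ((n % q : ℕ) : ℤ) := by
      refine ⟨((n / q : ℕ) : ℤ), ?_⟩
      have h4 : (q : ℤ) * ((n / q : ℕ) : ℤ) + ((n % q : ℕ) : ℤ) = n := by
        exact_mod_cast Nat.div_add_mod n q
      linarith
    have h5 : (q : ℤ) ∣ FF d n - FF d ((n % q : ℕ) : ℤ) := by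
      rw [FF_sub]
      exact Dvd.dvd.mul_right h3 _
    have h6 := dvd_sub h h5
    have e : FF d n - (FF d n - FF d ((n % q : ℕ) : ℤ)) = FF d ((n % q : ℕ) : ℤ) := by ring
    rwa [e] at h6
  refine Finset.card_le_card_of_injOn (fun n => (n % a, n % b)) ?_ ?_
  · intro n hn
    obtain ⟨_, hn2⟩ := Finset.mem_filter.1 (Finset.mem_coe.1 hn)
    rw [Finset.mem_coe, Finset.mem_product, Finset.mem_filter, Finset.mem_filter,
      Finset.mem_range, Finset.mem_range]
    push_cast at hn2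
    exact ⟨⟨Nat.mod_lt _ ha, hred a n ((dvd_mul_right _ _).trans hn2)⟩,
      ⟨Nat.mod_lt _ hb, hred b n ((dvd_mul_left _ _).trans hn2)⟩⟩
  · intro n hn m hm hnm
    have hn1 := Finset.mem_range.1 (Finset.mem_filter.1 (Finset.mem_coe.1 hn)).1
    have hm1 := Finset.mem_range.1 (Finset.mem_filter.1 (Finset.mem_coe.1 hm)).1
    simp only [Prod.mk.injEq] at hnm
    have h1 : n ≡ m [MOD a * b] := (Nat.modEq_and_modEq_iff_modEq_mul hab).1 hnm
    have h2 : n % (a * b) = m % (a * b) := h1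
    rwa [Nat.mod_eq_of_lt hn1, Nat.mod_eq_of_lt hm1] at h2

theorem main (d : ℤ) (hd : d % 4 = 0 ∨ d % 4 = 1) (a : ℕ) : 0 < a →
    ∃ s : ℕ, s ^ 2 ∣ a ∧ ((s : ℤ) ^ 2 ∣ d) ∧
      wt d a ≤ (if 2 ∣ a then 2 else 1) * 2 ^ a.primeFactors.card * s := by
  induction a using Nat.recOnPosPrimePosCoprime with
  | prime_pow p j hp hj =>
    intro _
    obtain ⟨s, hs1, hs2, hs3⟩ := wtPow d hd p hp j hj
    refine ⟨s, hs1, hs2, hs3.trans ?_⟩
    rw [Nat.primeFactors_prime_pow hj.ne' hp, Finset.card_singleton, pow_one]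
    by_cases hp2 : p = 2
    · subst hp2
      have : 2 ∣ 2 ^ j := dvd_pow_self _ hj.ne'
      simp only [if_true, this]
      omega
    · have h2 : ¬ 2 ∣ p ^ j := by
        intro h
        exact hp2 ((Nat.prime_dvd_prime_iff_eq Nat.prime_two hp).1
          (Nat.prime_two.dvd_of_dvd_pow h)).symm
      rw [if_neg hp2, if_neg h2]
  | zero => intro h; exact absurd h (lt_irrefl 0)
  | one =>
    intro _
    refine ⟨1, by simp, by simp, ?_⟩
    have : wt d 1 ≤ 1 := by
      unfold wt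
      refine (Finset.card_filter_le _ _).trans ?_
      simp
    simpa using this
  | coprime a b ha hb hab iha ihb =>
    intro _
    obtain ⟨s, hs1, hs2, hs3⟩ := iha (by omega)
    obtain ⟨t, ht1, ht2, ht3⟩ := ihb (by omega)
    refine ⟨s * t, ?_, ?_, ?_⟩
    · rw [mul_pow]
      exact mul_dvd_mul hs1 ht1
    · push_cast
      rw [mul_pow]
      have hc : Nat.Coprime (s ^ 2) (t ^ 2) := Nat.Coprime.coprime_dvd_left hs1
        (Nat.Coprime.coprime_dvd_right ht1 hab)
      have hci : IsCoprime ((s : ℤ) ^ 2) ((t : ℤ) ^ 2) := by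
        have := Nat.isCoprime_iff_coprime.2 hc
        push_cast at this
        exact this
      exact hci.mul_dvd hs2 ht2
    · refine (wt_mul d a b (by omega) (by omega) hab).trans ?_
      rw [hab.primeFactors_mul, Finset.card_union_of_disjoint hab.disjoint_primeFactors, pow_add]
      have hif : (if 2 ∣ a then 2 else 1) * (if 2 ∣ b then 2 else 1) ≤
          (if 2 ∣ a * b then 2 else 1) := by
        by_cases h1 : 2 ∣ a
        · have h2 : ¬ 2 ∣ b := by
            intro h2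
            have := Nat.dvd_gcd h1 h2
            rw [hab] at this
            omega
          rw [if_pos h1, if_neg h2, if_pos (Dvd.dvd.mul_right h1 _)]
        · rw [if_neg h1]
          by_cases h2 : 2 ∣ b
          · rw [if_pos h2, if_pos (Dvd.dvd.mul_left h2 _)]
          · rw [if_neg h2]
            split_ifs <;> norm_num
      calc wt d a * wt d b
          ≤ ((if 2 ∣ a then 2 else 1) * 2 ^ a.primeFactors.card * s) *
            ((if 2 ∣ b then 2 else 1) * 2 ^ b.primeFactors.card * t) := Nat.mul_le_mul hs3 ht3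
        _ = ((if 2 ∣ a then 2 else 1) * (if 2 ∣ b then 2 else 1)) *
            (2 ^ a.primeFactors.card * 2 ^ b.primeFactors.card) * (s * t) := by ring
        _ ≤ (if 2 ∣ a * b then 2 else 1) *
            (2 ^ a.primeFactors.card * 2 ^ b.primeFactors.card) * (s * t) := by
            gcongr

end ItemC1b

theorem claimC1b : ClaimC1b := by
  intro d _ hd a ha
  obtain ⟨s, hs1, hs2, hs3⟩ := ItemC1b.main d hd a ha
  have hmem : s ∈ a.divisors.filter (fun s : ℕ => s ^ 2 ∣ a ∧ ((s : ℤ) ^ 2 ∣ d)) := by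
    rw [Finset.mem_filter, Nat.mem_divisors]
    exact ⟨⟨(dvd_pow_self s (by norm_num)).trans hs1, by omega⟩, hs1, hs2⟩
  have hle : s ≤ ∑ s ∈ a.divisors.filter (fun s : ℕ => s ^ 2 ∣ a ∧ ((s : ℤ) ^ 2 ∣ d)), s :=
    Finset.single_le_sum (f := fun s : ℕ => s) (fun _ _ => Nat.zero_le _) hmem
  refine hs3.trans ?_
  have h4 : (if 2 ∣ a then 2 else 1) ≤ 4 := by split_ifs <;> norm_num
  gcongr

end Pool.Agent.Work.MP_e0c7e8_nt.SM
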