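import Pool.Agent.Work.MP_e0c7e8_nt.SM.ItemH2
import Pool.Agent.Work.MP_e0aece_nt.DivisorBound

/-!
# Item H3: the odd part of the exponent
-/

set_option autoImplicit false

namespace Pool.Agent.Work.MP_e0c7e8_nt.SM

open Finset

namespace ItemH

/-- Torsion of composite order in a finite abelian group. -/
lemma card_tors_mul (G : Type) [CommGroup G] [Finite G] (r s : ℕ) :
    Nat.card {y : G // y ^ (r * s) = 1} ≤
      Nat.card {y : G // y ^ r = 1} * Nat.card {y : G // y ^ s = 1} := by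
  classical
  haveI : Fintype G := Fintype.ofFinite G
  -- the power map
  let φ : {y : G // y ^ (r * s) = 1} → {y : G // y ^ s = 1} := fun y => ⟨y.1 ^ r, by
    rw [← pow_mul]; exact y.2⟩
  -- choose a section on the image
  have hsec : ∀ z : {y : G // y ^ s = 1}, ∃ x : G, ∀ y : {y : G // y ^ (r * s) = 1},
      φ y = z → (y.1 * x⁻¹) ^ r = 1 := by
    intro z
    by_cases h : ∃ y : {y : G // y ^ (r * s) = 1}, φ y = z
    · obtain ⟨y0, hy0⟩ := h
      refine ⟨y0.1, fun y hy => ?_⟩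
      have h1 : y.1 ^ r = y0.1 ^ r := congrArg Subtype.val (hy.trans hy0.symm)
      rw [mul_pow, h1, inv_pow, mul_inv_cancel]
    · exact ⟨1, fun y hy => absurd ⟨y, hy⟩ h⟩
  choose x hx using hsec
  let f : {y : G // y ^ (r * s) = 1} → {y : G // y ^ r = 1} × {y : G // y ^ s = 1} :=
    fun y => (⟨y.1 * (x (φ y))⁻¹, hx (φ y) y rfl⟩, φ y)
  have hf : Function.Injective f := by
    intro y y' h
    have h1 : φ y = φ y' := congrArg Prod.snd h
    have h2 : y.1 * (x (φ y))⁻¹ = y'.1 * (x (φ y'))⁻¹ := congrArg Subtype.val (congrArg Prod.fst h)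
    rw [h1] at h2
    exact Subtype.ext (mul_right_cancel h2)
  have := Nat.card_le_card_of_injective f hf
  rwa [Nat.card_prod] at this

lemma card_tors_two_pow (G : Type) [CommGroup G] [Finite G] (a : ℕ) :
    Nat.card {y : G // y ^ (2 ^ a) = 1} ≤ Nat.card {y : G // y ^ 2 = 1} ^ a := by
  induction a with
  | zero =>
    rw [pow_zero, pow_zero]
    have : Subsingleton {y : G // y ^ 1 = 1} := ⟨by
      rintro ⟨y, hy⟩ ⟨z, hz⟩
      rw [pow_one] at hy hz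
      exact Subtype.ext (hy.trans hz.symm)⟩
    exact Finite.card_le_one_iff_subsingleton.2 this
  | succ a ih =>
    rw [pow_succ, pow_succ]
    exact (card_tors_mul G (2 ^ a) 2).trans (Nat.mul_le_mul_right _ ih)

end ItemH

open ItemH in
/-- The strengthened theorem. -/
theorem claimFinalH (h0 : ClaimC0) (h1 : ClaimC1a1) (h1a : ClaimC1a) (hF : ClaimFinal) :
    ∀ a m : ℕ, 0 < m → ∀ η : ℝ, 0 < η → ∀ ε : ℝ, 0 < ε → ∃ C : ℝ, 0 < C ∧
      ∀ d : ℤ, d < 0 → (d % 4 = 0 ∨ d % 4 = 1) →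
        Smo d (|(d : ℝ)| ^ ((1 : ℝ) / (2 * m) - η)) →
        (Nat.card {x : ClassGroup ↥(Od d) // x ^ (2 ^ a * m) = 1} : ℝ) ≤
          C * |(d : ℝ)| ^ ((1 : ℝ) / 2 - 1 / (2 * m) + ε) := by
  intro a m hm η hη ε hε
  obtain ⟨C1, hC1, hC⟩ := hF m hm η hη (ε / 2) (by linarith)
  have hδ : 0 < ε / (2 * (a + 1)) := by positivity
  obtain ⟨C2, hC2, hD⟩ := Pool.Agent.Work.MP_e0aece_nt.exists_divisor_bound _ hδ
  refine ⟨(4 * C2) ^ a * C1, by positivity, ?_⟩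
  intro d hd hd4 hS
  haveI := (h1a d hd hd4).1
  have e1 := card_tors_mul (ClassGroup ↥(Od d)) (2 ^ a) m
  have e2 := card_tors_two_pow (ClassGroup ↥(Od d)) a
  have e3 := claimH h0 h1 d hd hd4
  have e4 := hC d hd hd4 hS
  have hd1 : 1 ≤ d.natAbs := by omega
  have hnat : (d.natAbs : ℝ) = |(d : ℝ)| := by
    rw [Nat.cast_natAbs, Int.cast_abs]
  have hb1 : (1 : ℝ) ≤ |(d : ℝ)| := by
    rw [← hnat]; exact_mod_cast hd1
  have hb0 : (0 : ℝ) < |(d : ℝ)| := by linarith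
  have e5 := hD d.natAbs hd1
  rw [hnat] at e5
  have e6 : (Nat.card {y : ClassGroup ↥(Od d) // y ^ 2 = 1} : ℝ) ≤
      4 * C2 * |(d : ℝ)| ^ (ε / (2 * (a + 1))) := by
    calc (Nat.card {y : ClassGroup ↥(Od d) // y ^ 2 = 1} : ℝ) ≤ ((4 * d.natAbs.divisors.card : ℕ) : ℝ) := by
          exact_mod_cast e3
      _ = 4 * (d.natAbs.divisors.card : ℝ) := by push_cast; ring
      _ ≤ 4 * (C2 * |(d : ℝ)| ^ (ε / (2 * (a + 1)))) := by gcongr
      _ = _ := by ring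
  have e7 : (Nat.card {y : ClassGroup ↥(Od d) // y ^ (2 ^ a) = 1} : ℝ) ≤
      (4 * C2) ^ a * |(d : ℝ)| ^ (ε / 2) := by
    calc (Nat.card {y : ClassGroup ↥(Od d) // y ^ (2 ^ a) = 1} : ℝ) ≤
        (Nat.card {y : ClassGroup ↥(Od d) // y ^ 2 = 1} : ℝ) ^ a := by exact_mod_cast e2
      _ ≤ (4 * C2 * |(d : ℝ)| ^ (ε / (2 * (a + 1)))) ^ a := by gcongr
      _ = (4 * C2) ^ a * |(d : ℝ)| ^ (ε / (2 * (a + 1)) * a) := by
          rw [mul_pow, Real.rpow_mul_natCast hb0.le]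
      _ ≤ (4 * C2) ^ a * |(d : ℝ)| ^ (ε / 2) := by
          refine mul_le_mul_of_nonneg_left ?_ (by positivity)
          apply Real.rpow_le_rpow_of_exponent_le hb1
          rw [div_mul_eq_mul_div, div_le_div_iff₀ (by positivity) (by norm_num)]
          nlinarith
  calc (Nat.card {x : ClassGroup ↥(Od d) // x ^ (2 ^ a * m) = 1} : ℝ)
      ≤ (Nat.card {y : ClassGroup ↥(Od d) // y ^ (2 ^ a) = 1} : ℝ) *
        (Nat.card {y : ClassGroup ↥(Od d) // y ^ m = 1} : ℝ) := by exact_mod_cast e1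
    _ ≤ ((4 * C2) ^ a * |(d : ℝ)| ^ (ε / 2)) *
        (C1 * |(d : ℝ)| ^ ((1 : ℝ) / 2 - 1 / (2 * m) + ε / 2)) := by gcongr
    _ = (4 * C2) ^ a * C1 * (|(d : ℝ)| ^ (ε / 2) *
        |(d : ℝ)| ^ ((1 : ℝ) / 2 - 1 / (2 * m) + ε / 2)) := by ring
    _ = (4 * C2) ^ a * C1 * |(d : ℝ)| ^ ((1 : ℝ) / 2 - 1 / (2 * m) + ε) := by
        rw [← Real.rpow_add hb0]
        congr 2
        ring

end Pool.Agent.Work.MP_e0c7e8_nt.SM
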