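import Pool.Agent.Work.MP_e0c7e8_nt.SM.Stmts
import Pool.Agent.Work.MP_e0c7e8_nt.SM.Basic

/-!
# Item C0: structure of the order
-/

set_option autoImplicit false

namespace Pool.Agent.Work.MP_e0c7e8_nt.SM

namespace ItemC0

open Complex

theorem th_coe (d : ℤ) : ((th d : ↥(Od d)) : ℂ) = tht d := rfl

theorem sq_sqrt {d : ℤ} (hd : d < 0) :
    Real.sqrt (-(d : ℝ)) * Real.sqrt (-(d : ℝ)) = -(d : ℝ) := by
  have : (d : ℝ) < 0 := by exact_mod_cast hd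
  exact Real.mul_self_sqrt (by linarith)

theorem tht_re (d : ℤ) : (tht d).re = (d : ℝ) / 2 := by
  unfold tht
  rw [show ((d : ℂ) + Complex.I * ((Real.sqrt (-(d : ℝ)) : ℝ) : ℂ)) / 2 =
    (((d : ℝ) / 2 : ℝ) : ℂ) + (((Real.sqrt (-(d : ℝ))) / 2 : ℝ) : ℂ) * Complex.I by
      push_cast; ring]
  simp

theorem tht_im (d : ℤ) : (tht d).im = Real.sqrt (-(d : ℝ)) / 2 := by
  unfold tht
  rw [show ((d : ℂ) + Complex.I * ((Real.sqrt (-(d : ℝ)) : ℝ) : ℂ)) / 2 =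
    (((d : ℝ) / 2 : ℝ) : ℂ) + (((Real.sqrt (-(d : ℝ))) / 2 : ℝ) : ℂ) * Complex.I by
      push_cast; ring]
  simp

theorem four_c {d : ℤ} (h : d % 4 = 0 ∨ d % 4 = 1) : 4 * ((d ^ 2 - d) / 4) = d ^ 2 - d := by
  apply Int.mul_ediv_cancel'
  rcases h with h | h
  · obtain ⟨k, rfl⟩ : (4 : ℤ) ∣ d := Int.dvd_of_emod_eq_zero h
    exact ⟨4 * k ^ 2 - k, by ring⟩
  · obtain ⟨k, hk⟩ : (4 : ℤ) ∣ d - 1 := by omega
    have : d = 4 * k + 1 := by linarith
    subst this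
    exact ⟨(4 * k + 1) * k, by ring⟩

theorem c_real {d : ℤ} (h : d % 4 = 0 ∨ d % 4 = 1) :
    (((d ^ 2 - d) / 4 : ℤ) : ℝ) = ((d : ℝ) ^ 2 - d) / 4 := by
  have h4 := four_c h
  have : (4 : ℝ) * (((d ^ 2 - d) / 4 : ℤ) : ℝ) = (d : ℝ) ^ 2 - d := by exact_mod_cast h4
  linarith

theorem c_complex {d : ℤ} (h : d % 4 = 0 ∨ d % 4 = 1) :
    (((d ^ 2 - d) / 4 : ℤ) : ℂ) = ((d : ℂ) ^ 2 - d) / 4 := by
  have h4 := c_real h
  have : ((((d ^ 2 - d) / 4 : ℤ) : ℝ) : ℂ) = ((((d : ℝ) ^ 2 - d) / 4 : ℝ) : ℂ) := by rw [h4]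
  push_cast at this
  rw [← this]

theorem tht_mul {d : ℤ} (hd : d < 0) (h : d % 4 = 0 ∨ d % 4 = 1) :
    tht d * ((d : ℂ) - tht d) = (((d ^ 2 - d) / 4 : ℤ) : ℂ) := by
  rw [c_complex h]
  have hs := sq_sqrt hd
  have hs' : ((Real.sqrt (-(d : ℝ)) : ℝ) : ℂ) * ((Real.sqrt (-(d : ℝ)) : ℝ) : ℂ) = -(d : ℂ) := by
    have := congrArg (fun x : ℝ => (x : ℂ)) hs
    push_cast at this
    exact this
  unfold tht
  have hI := Complex.I_mul_I
  generalize ((Real.sqrt (-(d : ℝ)) : ℝ) : ℂ) = s at hs'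
  generalize Complex.I = i at hI
  linear_combination (-(s * s) / 4) * hI + (1 / 4 : ℂ) * hs'

theorem conj_tht (d : ℤ) : (starRingEnd ℂ) (tht d) = (d : ℂ) - tht d := by
  apply Complex.ext
  · rw [Complex.conj_re, Complex.sub_re, tht_re]
    simp
    ring
  · rw [Complex.conj_im, Complex.sub_im, tht_im]
    simp

theorem mem_form {d : ℤ} (hd : d < 0) (h : d % 4 = 0 ∨ d % 4 = 1) (z : ℂ) (hz : z ∈ Od d) :
    ∃ u v : ℤ, z = (u : ℂ) + (v : ℂ) * tht d := by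
  induction hz using Algebra.adjoin_induction with
  | mem x hx =>
    rw [Set.mem_singleton_iff] at hx
    refine ⟨0, 1, ?_⟩
    rw [hx]
    unfold tht
    push_cast
    ring
  | algebraMap r =>
    refine ⟨r, 0, ?_⟩
    simp
  | add x y _ _ hx hy =>
    obtain ⟨u, v, rfl⟩ := hx
    obtain ⟨u', v', rfl⟩ := hy
    refine ⟨u + u', v + v', ?_⟩
    push_cast
    ring
  | mul x y _ _ hx hy =>
    obtain ⟨u, v, rfl⟩ := hx
    obtain ⟨u', v', rfl⟩ := hy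
    have hm := tht_mul hd h
    refine ⟨u * u' - v * v' * ((d ^ 2 - d) / 4), u * v' + u' * v + v * v' * d, ?_⟩
    push_cast at hm ⊢
    linear_combination (-(v : ℂ) * v') * hm

theorem th_mem (d : ℤ) : tht d ∈ Od d := (th d).2

theorem conj_mem {d : ℤ} (hd : d < 0) (h : d % 4 = 0 ∨ d % 4 = 1) (z : ℂ) (hz : z ∈ Od d) :
    (starRingEnd ℂ) z ∈ Od d := by
  obtain ⟨u, v, rfl⟩ := mem_form hd h z hz
  rw [map_add, map_mul, conj_tht, map_intCast, map_intCast]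
  exact (Od d).add_mem (intCast_mem _ _)
    ((Od d).mul_mem (intCast_mem _ _) ((Od d).sub_mem (intCast_mem _ _) (th_mem d)))

/-- Complex conjugation on the order. -/
noncomputable def sig {d : ℤ} (hd : d < 0) (h : d % 4 = 0 ∨ d % 4 = 1) :
    ↥(Od d) ≃+* ↥(Od d) where
  toFun z := ⟨(starRingEnd ℂ) z.1, conj_mem hd h z.1 z.2⟩
  invFun z := ⟨(starRingEnd ℂ) z.1, conj_mem hd h z.1 z.2⟩
  left_inv z := Subtype.ext (by simp)
  right_inv z := Subtype.ext (by simp)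
  map_mul' x y := Subtype.ext (by simp)
  map_add' x y := Subtype.ext (by simp)

theorem normSq_form {d : ℤ} (hd : d < 0) (u v : ℤ) :
    4 * Complex.normSq ((u : ℂ) + (v : ℂ) * tht d) =
      (2 * u + v * d) ^ 2 + (v : ℝ) ^ 2 * (-(d : ℝ)) := by
  have hs := sq_sqrt hd
  have e1 : ((u : ℂ) + (v : ℂ) * tht d).re = u + v * ((d : ℝ) / 2) := by
    rw [← tht_re d]
    simp [Complex.add_re, Complex.mul_re]
  have e2 : ((u : ℂ) + (v : ℂ) * tht d).im = v * (Real.sqrt (-(d : ℝ)) / 2) := by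
    rw [← tht_im d]
    simp [Complex.add_im, Complex.mul_im]
  rw [Complex.normSq_apply, e1, e2]
  linear_combination ((v : ℝ) ^ 2) * hs

end ItemC0

open ItemC0 in
theorem claimC0 : ClaimC0 := by
  intro d hd h
  have hcast : ∀ u v : ℤ, (((u : ↥(Od d)) + (v : ↥(Od d)) * th d : ↥(Od d)) : ℂ) =
      (u : ℂ) + (v : ℂ) * tht d := by
    intro u v
    rw [← th_coe]
    push_cast
    rfl
  refine ⟨?_, ?_, ?_, ?_, sig hd h, ?_, ?_⟩
  · intro z
    obtain ⟨u, v, huv⟩ := mem_form hd h z.1 z.2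
    refine ⟨u, v, Subtype.ext ?_⟩
    rw [hcast]
    exact huv
  · intro u v
    rw [hcast]
    have h1 := normSq_form hd u v
    have h2 := c_real h
    push_cast
    rw [h2]
    linarith
  · intro u v
    rw [hcast, normSq_form hd u v]
    have hd' : (d : ℝ) < 0 := by exact_mod_cast hd
    rw [abs_of_neg hd']
    nlinarith [sq_nonneg (2 * (u : ℝ) + v * d)]
  · apply Subtype.ext
    have := tht_mul hd h
    rw [← th_coe] at this
    push_cast at this ⊢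
    exact this
  · apply Subtype.ext
    change (starRingEnd ℂ) (tht d) = _
    rw [conj_tht, ← th_coe]
    push_cast
    rfl
  · intro z
    change ((z : ℂ) * (starRingEnd ℂ) (z : ℂ)) = _
    rw [Complex.mul_conj]

end Pool.Agent.Work.MP_e0c7e8_nt.SM
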