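import Pool.Agent.Work.MP_e0c7e8_nt.SM.Stmts
import Pool.Agent.Work.MP_e0c7e8_nt.SM.Basic

/-!
# Reduction of an ideal of an imaginary quadratic order
-/

set_option autoImplicit false

namespace Pool.Agent.Work.MP_e0c7e8_nt.SM

namespace ItemC1a1

theorem abs_red {R : Type} [CommRing R] (d : ℤ) (hd : d < 0) (hd4 : d % 4 = 0 ∨ d % 4 = 1)
    (θ : R) (nu : R → ℕ) (cj : R → R)
    (hrep : ∀ z : R, ∃ u v : ℤ, z = (u : R) + (v : R) * θ)
    (huniq : ∀ u v : ℤ, (u : R) + (v : R) * θ = 0 → u = 0 ∧ v = 0)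
    (hmul : ∀ z w, nu (z * w) = nu z * nu w) (hz : ∀ z, nu z = 0 ↔ z = 0)
    (hint : ∀ n : ℤ, (nu (n : R) : ℤ) = n ^ 2)
    (hth : ∀ m : ℤ, (nu ((m : R) + θ) : ℤ) = FF d m)
    (hprod : θ * ((d : R) - θ) = (((d ^ 2 - d) / 4 : ℤ) : R))
    (hcj : ∀ z, z * cj z = (nu z : R)) (J : Ideal R) (hJ : J ≠ ⊥) :
    ∃ (α : R) (a n : ℕ), α ≠ 0 ∧ 0 < a ∧ n < a ∧ 3 * a ^ 2 ≤ d.natAbs ∧ (a : ℤ) ∣ FF d n ∧
      Ideal.span {(a : R)} * J = Ideal.span {α} * Ideal.span {(a : R), (n : R) + θ} := by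
  classical
  choose U V hUV using hrep
  have huq : ∀ u v u' v' : ℤ, (u : R) + (v : R) * θ = (u' : R) + (v' : R) * θ →
      u = u' ∧ v = v' := by
    intro u v u' v' h
    have h1 := huniq (u - u') (v - v') (by push_cast; linear_combination h)
    omega
  have hV : ∀ (z : R) (u v : ℤ), z = (u : R) + (v : R) * θ → V z = v := by
    intro z u v h
    exact (huq (U z) (V z) u v ((hUV z).symm.trans h)).2
  have hVadd : ∀ z w, V (z + w) = V z + V w := by
    intro z w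
    apply hV (z + w) (U z + U w) (V z + V w)
    push_cast
    linear_combination hUV z + hUV w
  have hVmul : ∀ (n : ℤ) (z : R), V ((n : R) * z) = n * V z := by
    intro n z
    apply hV _ (n * U z) (n * V z)
    push_cast
    linear_combination (n : R) * hUV z
  have hVint : ∀ n : ℤ, V (n : R) = 0 := by
    intro n
    apply hV _ n 0
    push_cast
    ring
  -- the minimal element
  have hex : ∃ m : ℕ, ∃ z ∈ J, z ≠ 0 ∧ nu z = m := by
    obtain ⟨z, hz1, hz2⟩ := Submodule.exists_mem_ne_zero_of_ne_bot hJ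
    exact ⟨nu z, z, hz1, hz2, rfl⟩
  obtain ⟨α, hαJ, hα0, hαA⟩ := Nat.find_spec hex
  have hmin : ∀ z ∈ J, z ≠ 0 → nu α ≤ nu z := by
    intro z hz1 hz2
    rw [hαA]
    exact Nat.find_min' hex ⟨z, hz1, hz2, rfl⟩
  have hApos : 0 < nu α := Nat.pos_of_ne_zero fun h => hα0 ((hz α).mp h)
  have hκ := hcj α
  have hnuA : nu ((nu α : ℕ) : R) = nu α ^ 2 := by
    have h := hint (nu α : ℤ)
    rw [Int.cast_natCast] at h
    exact_mod_cast h
  have hnuκ : nu (cj α) = nu α := by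
    have h := hmul α (cj α)
    rw [hκ, hnuA, pow_two] at h
    exact (Nat.eq_of_mul_eq_mul_left hApos h).symm
  -- the kernel
  have hker : ∀ z ∈ J, V (z * cj α) = 0 → ∃ q : ℤ, z = (q : R) * α := by
    intro z hzJ hv
    have h1 := hUV (z * cj α)
    rw [hv] at h1
    obtain ⟨u, hu⟩ : ∃ u, u = U (z * cj α) := ⟨_, rfl⟩
    rw [← hu] at h1
    have hA0 : (0 : ℤ) < (nu α : ℤ) := by exact_mod_cast hApos
    refine ⟨u / (nu α : ℤ), ?_⟩
    have hr1 := Int.emod_nonneg u hA0.ne'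
    have hr2 := Int.emod_lt_of_pos u hA0
    have hr3 := Int.emod_add_mul_ediv u (nu α : ℤ)
    obtain ⟨q, hq⟩ : ∃ q, q = u / (nu α : ℤ) := ⟨_, rfl⟩
    obtain ⟨r, hr⟩ : ∃ r, r = u % (nu α : ℤ) := ⟨_, rfl⟩
    rw [← hr] at hr1 hr2 hr3
    rw [← hq] at hr3 ⊢
    by_contra hne
    have hz'J : z - (q : R) * α ∈ J := J.sub_mem hzJ (J.mul_mem_left _ hαJ)
    have hz'0 : z - (q : R) * α ≠ 0 := fun h => hne (sub_eq_zero.mp h)
    have h2 : (z - (q : R) * α) * cj α = (r : R) := by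
      have h3 : (u : R) = (r : R) + ((nu α : ℕ) : R) * (q : R) := by
        rw [← hr3]
        push_cast
        ring
      linear_combination h1 + h3 - (q : R) * hκ
    have h4 : (nu (z - (q : R) * α) : ℤ) * (nu α : ℤ) = r ^ 2 := by
      rw [← hint r, ← h2, hmul, hnuκ]
      push_cast
      ring
    have h5 : (nu α : ℤ) ≤ nu (z - (q : R) * α) := by exact_mod_cast hmin _ hz'J hz'0
    nlinarith
  -- the second generator
  have hLθ : V (θ * α * cj α) = (nu α : ℤ) := by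
    have h : θ * α * cj α = (((nu α : ℕ) : ℤ) : R) * θ := by
      rw [Int.cast_natCast]
      linear_combination θ * hκ
    apply hV _ 0 (nu α : ℤ)
    rw [h]
    push_cast
    ring
  have hex2 : ∃ m : ℕ, 0 < m ∧ ∃ z ∈ J, V (z * cj α) = (m : ℤ) :=
    ⟨nu α, hApos, θ * α, J.mul_mem_left _ hαJ, hLθ⟩
  obtain ⟨hg0, β, hβJ, hβ⟩ := Nat.find_spec hex2
  have hgmin : ∀ m : ℕ, 0 < m → (∃ z ∈ J, V (z * cj α) = (m : ℤ)) → Nat.find hex2 ≤ m :=
    fun m h1 h2 => Nat.find_min' hex2 ⟨h1, h2⟩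
  obtain ⟨g, hg⟩ : ∃ g, g = Nat.find hex2 := ⟨_, rfl⟩
  rw [← hg] at hg0 hβ hgmin
  have hg0' : (0 : ℤ) < (g : ℤ) := by exact_mod_cast hg0
  have hgen : ∀ z ∈ J, ∃ x y : ℤ, z = (x : R) * α + (y : R) * β := by
    intro z hzJ
    obtain ⟨c, hc⟩ : ∃ c, c = V (z * cj α) := ⟨_, rfl⟩
    have hr1 := Int.emod_nonneg c hg0'.ne'
    have hr2 := Int.emod_lt_of_pos c hg0'
    have hr3 := Int.emod_add_mul_ediv c (g : ℤ)
    obtain ⟨y, hy⟩ : ∃ y, y = c / (g : ℤ) := ⟨_, rfl⟩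
    obtain ⟨r, hr⟩ : ∃ r, r = c % (g : ℤ) := ⟨_, rfl⟩
    rw [← hr] at hr1 hr2 hr3
    rw [← hy] at hr3
    have hz'J : z + ((-y : ℤ) : R) * β ∈ J := J.add_mem hzJ (J.mul_mem_left _ hβJ)
    have hL : V ((z + ((-y : ℤ) : R) * β) * cj α) = r := by
      have e : (z + ((-y : ℤ) : R) * β) * cj α = z * cj α + ((-y : ℤ) : R) * (β * cj α) := by
        ring
      rw [e, hVadd, hVmul, hβ, ← hc]
      linarith
    have hr0 : r = 0 := by
      by_contra hne
      have hrp : 0 < r := lt_of_le_of_ne hr1 (Ne.symm hne)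
      have h := hgmin r.toNat (by omega) ⟨_, hz'J, by rw [hL]; omega⟩
      omega
    rw [hr0] at hL
    obtain ⟨x, hx⟩ := hker _ hz'J hL
    refine ⟨x, y, ?_⟩
    push_cast at hx
    linear_combination hx
  have hLlin : ∀ x y : ℤ, V (((x : R) * α + (y : R) * β) * cj α) = y * g := by
    intro x y
    have e : ((x : R) * α + (y : R) * β) * cj α =
        (x : R) * (((nu α : ℕ) : ℤ) : R) + (y : R) * (β * cj α) := by
      rw [Int.cast_natCast]
      linear_combination (x : R) * hκ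
    rw [e, hVadd, hVmul, hVmul, hVint, hβ]
    ring
  have hV0 : V 0 = 0 := by
    have := hVint 0
    rwa [Int.cast_zero] at this
  have hind : ∀ x y : ℤ, (x : R) * α + (y : R) * β = 0 → x = 0 ∧ y = 0 := by
    intro x y h
    have h1 := hLlin x y
    rw [h, zero_mul, hV0] at h1
    have hy : y = 0 := by
      rcases mul_eq_zero.mp h1.symm with h2 | h2
      · exact h2
      · omega
    refine ⟨?_, hy⟩
    rw [hy, Int.cast_zero, zero_mul, add_zero] at h
    have h3 := hmul (x : R) α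
    rw [h, (hz 0).mpr rfl] at h3
    have h4 : nu (x : R) = 0 := by
      rcases Nat.mul_eq_zero.mp h3.symm with h5 | h5
      · exact h5
      · omega
    have h6 := hint x
    rw [h4] at h6
    have h7 : x ^ 2 = 0 := by exact_mod_cast h6.symm
    exact pow_eq_zero_iff (two_ne_zero) |>.mp h7
  -- theta alpha
  obtain ⟨x0, a0, hθα⟩ := hgen (θ * α) (J.mul_mem_left _ hαJ)
  have ha0g : a0 * g = nu α := by
    rw [← hLlin x0 a0, ← hθα, hLθ]
  have ha0 : 0 < a0 := by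
    by_contra hcon
    have hA0 : (0 : ℤ) < (nu α : ℤ) := by exact_mod_cast hApos
    nlinarith
  obtain ⟨a, ha⟩ : ∃ a : ℕ, (a : ℤ) = a0 := ⟨a0.toNat, Int.toNat_of_nonneg ha0.le⟩
  have hapos : 0 < a := by omega
  obtain ⟨n0, hn0⟩ : ∃ n0 : ℤ, n0 = -x0 := ⟨_, rfl⟩
  have hrel : (a : R) * β = ((n0 : R) + θ) * α := by
    have h1 : (a : R) = (a0 : R) := by rw [← ha, Int.cast_natCast]
    have h2 : (n0 : R) = -(x0 : R) := by rw [hn0]; push_cast; ring
    rw [h1, h2]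
    linear_combination -hθα
  have hF4 : ∀ m : ℤ, 4 * FF d m = (2 * m + d) ^ 2 - d := by
    intro m
    unfold FF
    have h4 : 4 * ((d ^ 2 - d) / 4) = d ^ 2 - d := by
      apply Int.mul_ediv_cancel'
      rcases hd4 with h | h
      · have : d = 4 * (d / 4) := by omega
        rw [this]
        exact ⟨4 * (d / 4) ^ 2 - d / 4, by ring⟩
      · have : d = 4 * (d / 4) + 1 := by omega
        rw [this]
        exact ⟨4 * (d / 4) ^ 2 + d / 4, by ring⟩
    nlinarith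
  have ha' : (0 : ℤ) < (a : ℤ) := by exact_mod_cast hapos
  -- the bound
  have hbound : 3 * a ^ 2 ≤ d.natAbs := by
    obtain ⟨c, hc⟩ : ∃ c : ℤ, c = 2 * n0 + d + a := ⟨_, rfl⟩
    have h2a : (0 : ℤ) < 2 * (a : ℤ) := by linarith
    have hr1 := Int.emod_nonneg c h2a.ne'
    have hr2 := Int.emod_lt_of_pos c h2a
    have hr3 := Int.emod_add_mul_ediv c (2 * (a : ℤ))
    obtain ⟨t, ht⟩ : ∃ t, t = c / (2 * (a : ℤ)) := ⟨_, rfl⟩
    rw [← ht] at hr3
    obtain ⟨m, hm⟩ : ∃ m : ℤ, m = n0 - t * a := ⟨_, rfl⟩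
    have hm1 : -(a : ℤ) ≤ 2 * m + d := by rw [hm]; linarith
    have hm2 : 2 * m + d ≤ a := by rw [hm]; linarith
    have hβ2J : ((-t : ℤ) : R) * α + ((1 : ℤ) : R) * β ∈ J :=
      J.add_mem (J.mul_mem_left _ hαJ) (J.mul_mem_left _ hβJ)
    have hβ20 : ((-t : ℤ) : R) * α + ((1 : ℤ) : R) * β ≠ 0 := fun h => by
      have := (hind _ _ h).2
      omega
    have h1 := hmin _ hβ2J hβ20
    have h2 : (a : R) * (((-t : ℤ) : R) * α + ((1 : ℤ) : R) * β) = ((m : R) + θ) * α := by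
      rw [hm]
      push_cast
      linear_combination hrel
    have h3 : (nu (a : R) : ℤ) = (a : ℤ) ^ 2 := by
      have := hint (a : ℤ)
      rwa [Int.cast_natCast] at this
    have h4 : (nu (a : R) : ℤ) * nu (((-t : ℤ) : R) * α + ((1 : ℤ) : R) * β) =
        FF d m * nu α := by
      rw [← hth m]
      have h5 := congrArg nu h2
      rw [hmul, hmul] at h5
      exact_mod_cast h5
    rw [h3] at h4
    have h6 : (nu α : ℤ) ≤ nu (((-t : ℤ) : R) * α + ((1 : ℤ) : R) * β) := by exact_mod_cast h1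
    have hA0 : (0 : ℤ) < (nu α : ℤ) := by exact_mod_cast hApos
    have h7 : (a : ℤ) ^ 2 * nu α ≤ FF d m * nu α := by
      rw [← h4]
      exact mul_le_mul_of_nonneg_left h6 (by positivity)
    have h8 : (a : ℤ) ^ 2 ≤ FF d m := le_of_mul_le_mul_right h7 hA0
    have h9 := hF4 m
    have h10 : (2 * m + d) ^ 2 ≤ (a : ℤ) ^ 2 := by nlinarith
    have h11 : 3 * (a : ℤ) ^ 2 ≤ -d := by nlinarith
    have h12 : ((3 * a ^ 2 : ℕ) : ℤ) ≤ (d.natAbs : ℤ) := by
      push_cast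
      rw [abs_of_neg hd]
      exact h11
    exact_mod_cast h12
  -- the reduced second generator
  obtain ⟨n, hn⟩ : ∃ n : ℕ, (n : ℤ) = n0 % a :=
    ⟨(n0 % a).toNat, Int.toNat_of_nonneg (Int.emod_nonneg _ ha'.ne')⟩
  have hnlt : n < a := by
    have h := Int.emod_lt_of_pos n0 ha'
    rw [← hn] at h
    exact_mod_cast h
  obtain ⟨s, hs⟩ : ∃ s : ℤ, n0 = n + a * s := ⟨n0 / a, by rw [hn, Int.emod_add_mul_ediv]⟩
  have hrel2 : (a : R) * (β - (s : R) * α) = ((n : R) + θ) * α := by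
    have h1 : (n0 : R) = (n : R) + (a : R) * (s : R) := by
      rw [hs]
      push_cast
      ring
    linear_combination hrel + α * h1
  have hβ'J : β - (s : R) * α ∈ J := J.sub_mem hβJ (J.mul_mem_left _ hαJ)
  have hJspan : J = Ideal.span {α, β - (s : R) * α} := by
    apply le_antisymm
    · intro z hzJ
      obtain ⟨x, y, hxy⟩ := hgen z hzJ
      rw [Ideal.mem_span_pair]
      refine ⟨(x : R) + (y : R) * (s : R), (y : R), ?_⟩
      rw [hxy]
      ring
    · rw [Ideal.span_le]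
      intro z hz1
      rcases Set.mem_insert_iff.mp hz1 with h | h
      · rw [h]; exact hαJ
      · rw [Set.mem_singleton_iff.mp h]; exact hβ'J
  refine ⟨α, a, n, hα0, hapos, hnlt, hbound, ?_, ?_⟩
  · -- divisibility
    obtain ⟨x, y, hxy⟩ := hgen (((n : R) + (d : R) - θ) * (β - (s : R) * α))
      (J.mul_mem_left _ hβ'J)
    have hFF : ((n : R) + θ) * ((n : R) + (d : R) - θ) = (FF d n : R) := by
      unfold FF
      push_cast
      linear_combination hprod
    have h1 : ((FF d n - a * x : ℤ) : R) * α + ((-(a * y) : ℤ) : R) * β = 0 := by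
      push_cast
      linear_combination (-α) * hFF - ((n : R) + (d : R) - θ) * hrel2 + (a : R) * hxy
    have h2 := (hind _ _ h1).1
    exact ⟨x, by linarith⟩
  · rw [hJspan, Ideal.span_mul_span', Ideal.span_mul_span', Set.singleton_mul, Set.singleton_mul,
      Set.image_pair, Set.image_pair, hrel2]
    congr 1
    rw [mul_comm (a : R) α, mul_comm α ((n : R) + θ)]

end ItemC1a1

theorem claimC1a1 (h0 : ClaimC0) : ClaimC1a1 := by
  intro d hd hd4 J hJ
  obtain ⟨hrep, hnorm, hv, hprod, σ, _, hσn⟩ := h0 d hd hd4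
  have hex : ∀ z : ↥(Od d), ∃ m : ℕ, Complex.normSq (z : ℂ) = (m : ℝ) := by
    intro z
    obtain ⟨u, v, huv⟩ := hrep z
    have h1 := hnorm u v
    rw [← huv] at h1
    have h2 := Complex.normSq_nonneg (z : ℂ)
    rw [h1] at h2
    have h3 : 0 ≤ u ^ 2 + u * v * d + v ^ 2 * ((d ^ 2 - d) / 4) := by exact_mod_cast h2
    refine ⟨(u ^ 2 + u * v * d + v ^ 2 * ((d ^ 2 - d) / 4)).toNat, ?_⟩
    rw [h1, ← Int.cast_natCast, Int.toNat_of_nonneg h3]
  choose nu hnu using hex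
  have hint : ∀ n : ℤ, (nu ((n : ℤ) : ↥(Od d)) : ℤ) = n ^ 2 := by
    intro n
    have h1 := hnu ((n : ℤ) : ↥(Od d))
    have h2 : (((n : ℤ) : ↥(Od d)) : ℂ) = ((n : ℤ) : ℂ) := by push_cast; rfl
    rw [h2, Complex.normSq_intCast] at h1
    have h3 : ((n * n : ℤ) : ℝ) = ((nu ((n : ℤ) : ↥(Od d)) : ℤ) : ℝ) := by
      push_cast
      exact h1
    have h4 : n * n = (nu ((n : ℤ) : ↥(Od d)) : ℤ) := by exact_mod_cast h3
    rw [← h4]
    ring
  have hz : ∀ z : ↥(Od d), nu z = 0 ↔ z = 0 := by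
    intro z
    have h1 := hnu z
    constructor
    · intro h
      rw [h, Nat.cast_zero, Complex.normSq_eq_zero] at h1
      exact Subtype.ext h1
    · intro h
      rw [h] at h1
      have h2 : ((0 : ↥(Od d)) : ℂ) = 0 := rfl
      rw [h2, Complex.normSq_zero] at h1
      rw [h]
      exact_mod_cast h1.symm
  apply ItemC1a1.abs_red d hd hd4 (th d) nu (fun z => σ z) hrep ?_ ?_ hz hint ?_ hprod ?_ J hJ
  · intro u v h
    have h1 := hv u v
    rw [h] at h1
    have h2 : ((0 : ↥(Od d)) : ℂ) = 0 := rfl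
    rw [h2, Complex.normSq_zero, mul_zero] at h1
    have h3 : (0 : ℝ) < |(d : ℝ)| := by
      rw [abs_pos]
      exact_mod_cast hd.ne
    have h4 : v = 0 := by
      by_contra hne
      have h5 : (0 : ℝ) < (v : ℝ) ^ 2 := by
        have : (v : ℝ) ≠ 0 := by exact_mod_cast hne
        positivity
      have := mul_pos h5 h3
      linarith
    refine ⟨?_, h4⟩
    rw [h4, Int.cast_zero, zero_mul, add_zero] at h
    have h6 := hint u
    rw [h, (hz 0).mpr rfl] at h6
    have h7 : u ^ 2 = 0 := by exact_mod_cast h6.symm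
    exact (pow_eq_zero_iff (two_ne_zero)).mp h7
  · intro z w
    have h1 := hnu (z * w)
    have h2 : ((z * w : ↥(Od d)) : ℂ) = (z : ℂ) * (w : ℂ) := rfl
    rw [h2, Complex.normSq_mul, hnu z, hnu w] at h1
    exact_mod_cast h1.symm
  · intro m
    have h1 := hnorm m 1
    rw [Int.cast_one, one_mul] at h1
    rw [hnu ((m : ↥(Od d)) + th d)] at h1
    unfold FF
    have h2 : (nu ((m : ↥(Od d)) + th d) : ℤ) =
        m ^ 2 + m * 1 * d + 1 ^ 2 * ((d ^ 2 - d) / 4) := by exact_mod_cast h1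
    rw [h2]
    ring
  · intro z
    apply Subtype.ext
    rw [hσn z, hnu z]
    push_cast
    rfl

end Pool.Agent.Work.MP_e0c7e8_nt.SM
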