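import Pool.Agent.Work.MP_e0c7e8_nt.SM.Stmts
import Pool.Agent.Work.MP_e0c7e8_nt.SM.Basic

/-!
# Item C1a2: finiteness of the class group and the bound by the number of roots
-/

set_option autoImplicit false

namespace Pool.Agent.Work.MP_e0c7e8_nt.SM

open Finset

namespace ItemC1a2

open nonZeroDivisors

/-- Every class contains an integral ideal. -/
theorem rep {R : Type*} [CommRing R] [IsDomain R] (c : ClassGroup R) :
    ∃ (I : (FractionalIdeal R⁰ (FractionRing R))ˣ) (J : Ideal R), J ≠ ⊥ ∧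
      (I : FractionalIdeal R⁰ (FractionRing R)) = J ∧ ClassGroup.mk (FractionRing R) I = c := by
  refine ClassGroup.induction (K := FractionRing R) (fun I => ?_) c
  obtain ⟨a, aI, ha, hI⟩ := FractionalIdeal.exists_eq_spanSingleton_mul
    (I : FractionalIdeal R⁰ (FractionRing R))
  have ha' : algebraMap R (FractionRing R) a ≠ 0 := by simpa using ha
  refine ⟨I * toPrincipalIdeal R (FractionRing R) (Units.mk0 _ ha'), aI, ?_, ?_, ?_⟩
  · intro h
    rw [h] at hI
    have : (I : FractionalIdeal R⁰ (FractionRing R)) = 0 := by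
      rw [hI]
      simp
    exact I.ne_zero this
  · rw [Units.val_mul, coe_toPrincipalIdeal, hI, Units.val_mk0, mul_right_comm,
      FractionalIdeal.spanSingleton_mul_spanSingleton, inv_mul_cancel₀ ha',
      FractionalIdeal.spanSingleton_one, one_mul]
  · rw [ClassGroup.mk_eq_mk]
    refine ⟨(Units.mk0 _ ha')⁻¹, ?_⟩
    rw [map_inv, mul_inv_cancel_right]

end ItemC1a2

open ItemC1a2 in
theorem claimC1a (h1 : ClaimC1a1) : ClaimC1a := by
  classical
  intro d hd hd4
  choose I J hJ hIJ hIc using fun c : ClassGroup ↥(Od d) => rep c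
  choose α a n hα ha hn h3 hdvd hspan using fun c : ClassGroup ↥(Od d) => h1 d hd hd4 (J c) (hJ c)
  set S : Finset (Σ _ : ℕ, ℕ) := (Icc 1 (Nat.sqrt (d.natAbs / 3))).sigma
    (fun a => (range a).filter (fun n : ℕ => (a : ℤ) ∣ FF d n)) with hS
  have hmem : ∀ c, (⟨a c, n c⟩ : Σ _ : ℕ, ℕ) ∈ S := by
    intro c
    rw [hS, Finset.mem_sigma, Finset.mem_Icc, Finset.mem_filter, Finset.mem_range]
    refine ⟨⟨ha c, ?_⟩, hn c, hdvd c⟩
    show a c ≤ Nat.sqrt (d.natAbs / 3)
    rw [Nat.le_sqrt, Nat.le_div_iff_mul_le (by norm_num)]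
    have := h3 c
    nlinarith
  let f : ClassGroup ↥(Od d) → {x // x ∈ S} := fun c => ⟨⟨a c, n c⟩, hmem c⟩
  have hf : Function.Injective f := by
    intro c c' h
    have h2 : (⟨a c, n c⟩ : Σ _ : ℕ, ℕ) = ⟨a c', n c'⟩ := congrArg Subtype.val h
    have ha' : a c = a c' := congrArg Sigma.fst h2
    have hn' : n c = n c' := by
      have := congrArg Sigma.snd h2
      exact this
    rw [← hIc c, ← hIc c', ClassGroup.mk_eq_mk_of_coe_ideal (hIJ c) (hIJ c')]
    have hac : ((a c : ℕ) : ↥(Od d)) ≠ 0 := by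
      have := ha c
      exact_mod_cast this.ne'
    refine ⟨α c' * (a c : ↥(Od d)), α c * (a c : ↥(Od d)), mul_ne_zero (hα c') hac,
      mul_ne_zero (hα c) hac, ?_⟩
    have e1 := hspan c
    have e2 := hspan c'
    rw [← ha', ← hn'] at e2
    rw [← Ideal.span_singleton_mul_span_singleton, ← Ideal.span_singleton_mul_span_singleton,
      mul_assoc, mul_assoc, e1, e2, ← mul_assoc, ← mul_assoc,
      mul_comm (Ideal.span {α c'}) (Ideal.span {α c})]
  haveI : Finite (ClassGroup ↥(Od d)) := Finite.of_injective f hf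
  refine ⟨this, ?_⟩
  have hcard := Nat.card_le_card_of_injective f hf
  rw [Nat.card_eq_fintype_card (α := {x // x ∈ S}), Fintype.card_coe, hS,
    Finset.card_sigma] at hcard
  exact hcard

end Pool.Agent.Work.MP_e0c7e8_nt.SM
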