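import Pool.Agent.Work.MP_e0c7e8_nt.SM.Stmts
import Pool.Agent.Work.MP_e0c7e8_nt.SM.Basic
import Pool.Agent.Work.MP_e0aece_nt.DivisorBound

/-!
# Item C1c: the class number bound, numbers
-/

set_option autoImplicit false

namespace Pool.Agent.Work.MP_e0c7e8_nt.SM

open Finset

namespace ItemC1c

/-- The double sum over square divisors. -/
theorem dsum (D X : ℕ) (d : ℤ) (hD : D = d.natAbs) (hd : d ≠ 0) :
    ∑ a ∈ Icc 1 X, ∑ s ∈ a.divisors.filter (fun s : ℕ => s ^ 2 ∣ a ∧ ((s : ℤ) ^ 2 ∣ d)), s ≤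
      X * D.divisors.card := by
  have hD0 : D ≠ 0 := by
    rw [hD]
    exact Int.natAbs_ne_zero.2 hd
  have h1 : ∀ a ∈ Icc 1 X,
      ∑ s ∈ a.divisors.filter (fun s : ℕ => s ^ 2 ∣ a ∧ ((s : ℤ) ^ 2 ∣ d)), s ≤
        ∑ s ∈ D.divisors, if s ^ 2 ∣ a then s else 0 := by
    intro a _
    rw [← Finset.sum_filter]
    apply Finset.sum_le_sum_of_subset
    intro s hs
    rw [Finset.mem_filter] at hs ⊢
    refine ⟨?_, hs.2.1⟩
    rw [Nat.mem_divisors]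
    refine ⟨?_, hD0⟩
    have h2 : ((s ^ 2 : ℕ) : ℤ) ∣ d := by
      push_cast
      exact hs.2.2
    have h3 : s ^ 2 ∣ D := by
      rw [hD]
      exact Int.natCast_dvd.1 h2
    exact (dvd_pow_self s two_ne_zero).trans h3
  refine (Finset.sum_le_sum h1).trans ?_
  rw [Finset.sum_comm]
  have h2 : ∀ s ∈ D.divisors, ∑ a ∈ Icc 1 X, (if s ^ 2 ∣ a then s else 0) ≤ X := by
    intro s hs
    have hs0 : 0 < s := Nat.pos_of_mem_divisors hs
    rw [← Finset.sum_filter, Finset.sum_const, smul_eq_mul]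
    have e : Icc 1 X = Ioc 0 X := by
      ext x
      simp [Nat.succ_le_iff]
    rw [e, Nat.Ioc_filter_dvd_card_eq_div]
    calc X / s ^ 2 * s ≤ X / s ^ 2 * s ^ 2 := by
          apply Nat.mul_le_mul_left
          nlinarith
      _ ≤ X := Nat.div_mul_le_self _ _
  calc ∑ s ∈ D.divisors, ∑ a ∈ Icc 1 X, (if s ^ 2 ∣ a then s else 0)
      ≤ ∑ s ∈ D.divisors, X := Finset.sum_le_sum h2
    _ = X * D.divisors.card := by rw [Finset.sum_const, smul_eq_mul, mul_comm]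

end ItemC1c

open ItemC1c in
theorem claimC1c (hb : ClaimC1b) (hN : ClaimN1) : ClaimC1c := by
  intro ε hε
  obtain ⟨C1, hC1, h1⟩ := hN 2 (by norm_num) (ε / 2) (by linarith)
  obtain ⟨C2, hC2, h2⟩ := Pool.Agent.Work.MP_e0aece_nt.exists_divisor_bound (ε / 2) (by linarith)
  refine ⟨4 * C1 * C2, by positivity, ?_⟩
  intro d hd hd4
  have hd0 : d ≠ 0 := hd.ne
  set D : ℕ := d.natAbs with hD
  have hD1 : 1 ≤ D := Int.natAbs_pos.2 hd0
  have hDr : (1 : ℝ) ≤ (D : ℝ) := by exact_mod_cast hD1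
  have hDabs : |(d : ℝ)| = (D : ℝ) := by
    rw [hD, Nat.cast_natAbs]
    push_cast
    rfl
  set X : ℕ := Nat.sqrt (D / 3) with hX
  have hXD : (X : ℝ) ≤ (D : ℝ) ^ ((1 : ℝ) / 2) := by
    rw [← Real.sqrt_eq_rpow]
    apply Real.le_sqrt_of_sq_le
    have h3 : X ^ 2 ≤ D / 3 := by
      rw [hX, sq]
      exact Nat.sqrt_le _
    have h4 : X ^ 2 ≤ D := h3.trans (Nat.div_le_self _ _)
    exact_mod_cast h4
  have hXD2 : X ≤ D := by
    have h3 : X ≤ D / 3 := Nat.sqrt_le_self _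
    exact h3.trans (Nat.div_le_self _ _)
  set g : ℕ → ℕ := fun a => ∑ s ∈ a.divisors.filter (fun s : ℕ => s ^ 2 ∣ a ∧ ((s : ℤ) ^ 2 ∣ d)), s
    with hg
  have hterm : ∀ a ∈ Icc 1 X, ((wt d a : ℕ) : ℝ) ≤ 4 * (C1 * (D : ℝ) ^ (ε / 2)) * (g a : ℝ) := by
    intro a ha
    rw [Finset.mem_Icc] at ha
    have h3 := hb d hd0 hd4 a ha.1
    have h4 : ((wt d a : ℕ) : ℝ) ≤ 4 * 2 ^ a.primeFactors.card * (g a : ℝ) := by
      have : wt d a ≤ 4 * 2 ^ a.primeFactors.card * g a := h3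
      exact_mod_cast this
    refine h4.trans ?_
    apply mul_le_mul_of_nonneg_right _ (Nat.cast_nonneg _)
    apply mul_le_mul_of_nonneg_left _ (by norm_num)
    refine (h1 a ha.1).trans ?_
    apply mul_le_mul_of_nonneg_left _ hC1.le
    apply Real.rpow_le_rpow (Nat.cast_nonneg _) _ (by linarith)
    exact_mod_cast ha.2.trans hXD2
  have hsum : (∑ a ∈ Icc 1 X, (g a : ℝ)) ≤ (X : ℝ) * (D.divisors.card : ℝ) := by
    have := dsum D X d hD hd0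
    exact_mod_cast this
  have hdiv := h2 D hD1
  calc (∑ a ∈ Icc 1 X, ((wt d a : ℕ) : ℝ))
      ≤ ∑ a ∈ Icc 1 X, 4 * (C1 * (D : ℝ) ^ (ε / 2)) * (g a : ℝ) := Finset.sum_le_sum hterm
    _ = 4 * (C1 * (D : ℝ) ^ (ε / 2)) * ∑ a ∈ Icc 1 X, (g a : ℝ) := by rw [Finset.mul_sum]
    _ ≤ 4 * (C1 * (D : ℝ) ^ (ε / 2)) * ((X : ℝ) * (D.divisors.card : ℝ)) :=
        mul_le_mul_of_nonneg_left hsum (by positivity)
    _ ≤ 4 * (C1 * (D : ℝ) ^ (ε / 2)) * ((D : ℝ) ^ ((1 : ℝ) / 2) * (C2 * (D : ℝ) ^ (ε / 2))) := by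
        apply mul_le_mul_of_nonneg_left _ (by positivity)
        exact mul_le_mul hXD hdiv (Nat.cast_nonneg _) (by positivity)
    _ = 4 * C1 * C2 * |(d : ℝ)| ^ (1 / 2 + ε) := by
        rw [hDabs]
        have hD0 : (0 : ℝ) < (D : ℝ) := by linarith
        have e1 : (D : ℝ) ^ (1 / 2 + ε) =
            (D : ℝ) ^ ((1 : ℝ) / 2) * ((D : ℝ) ^ (ε / 2) * (D : ℝ) ^ (ε / 2)) := by
          rw [← Real.rpow_add hD0, ← Real.rpow_add hD0]
          congr 1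
          ring
        rw [e1]
        ring

end Pool.Agent.Work.MP_e0c7e8_nt.SM
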