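import Pool.Agent.Work.MP_e0c7e8_nt.SM.Stmts
import Pool.Agent.Work.MP_e0c7e8_nt.SM.Basic

set_option autoImplicit false

namespace Pool.Agent.Work.MP_e0c7e8_nt.SM

theorem claimC2b0 : ClaimC2b0 := by
  intro d p hd hp hchi
  haveI : Fact p.Prime := ⟨hp⟩
  have hodd : Odd p := by
    by_contra h
    rw [chi_of_not_odd h] at hchi
    exact absurd hchi (by decide)
  have hj : jacobiSym d p = 1 := by rw [← chi_of_odd hodd]; exact hchi
  have hl : legendreSym p d = 1 := by rw [jacobiSym.legendreSym.to_jacobiSym]; exact hj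
  have hd0 : ((d : ℤ) : ZMod p) ≠ 0 := by
    intro h
    have := (legendreSym.eq_zero_iff p d).2 h
    rw [this] at hl
    exact absurd hl (by decide)
  obtain ⟨z, hz⟩ := (legendreSym.eq_one_iff p hd0).1 hl
  obtain ⟨m, hm⟩ := hodd
  set y : ℤ := (z.val : ℤ) with hy
  have hyz : ((y : ℤ) : ZMod p) = z := by
    rw [hy]
    push_cast
    exact ZMod.natCast_zmod_val z
  refine ⟨(y - d) * ((m : ℤ) + 1), ?_, ?_⟩
  · have h4 : (4 : ℤ) * FF d ((y - d) * ((m : ℤ) + 1)) =
        (2 * ((y - d) * ((m : ℤ) + 1)) + d) ^ 2 - d := by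
      unfold FF
      have h5 : (4 : ℤ) ∣ d ^ 2 - d := by
        have e : d ^ 2 - d = d * (d - 1) := by ring
        rw [e]
        rcases hd with h | h
        · exact Dvd.dvd.mul_right (by omega) _
        · exact Dvd.dvd.mul_left (by omega) _
      obtain ⟨t, ht⟩ := h5
      rw [ht, Int.mul_ediv_cancel_left _ (by decide : (4 : ℤ) ≠ 0)]
      linear_combination (-1) * ht
    have h6 : (p : ℤ) ∣ 4 * FF d ((y - d) * ((m : ℤ) + 1)) := by
      rw [h4, ← ZMod.intCast_zmod_eq_zero_iff_dvd]
      push_cast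
      have hp0 : (2 : ZMod p) * (m : ZMod p) + 1 = 0 := by
        have h8 := congrArg (Nat.cast : ℕ → ZMod p) hm
        rw [ZMod.natCast_self] at h8
        push_cast at h8
        exact h8.symm
      have e1 : (2 : ZMod p) * ((((y : ℤ) : ZMod p) - (d : ZMod p)) * ((m : ZMod p) + 1)) + (d : ZMod p)
          = ((y : ℤ) : ZMod p) := by
        linear_combination (((y : ℤ) : ZMod p) - (d : ZMod p)) * hp0
      rw [e1, hyz, hz]
      ring
    have h7 : IsCoprime (p : ℤ) 4 := by
      rw [Int.isCoprime_iff_gcd_eq_one]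
      have : Nat.Coprime p 4 := by
        have h2 : Nat.Coprime p 2 := by
          rw [Nat.coprime_comm]
          exact (Nat.coprime_primes Nat.prime_two hp).2 (by omega)
        have : (4 : ℕ) = 2 ^ 2 := by norm_num
        rw [this]
        exact Nat.Coprime.pow_right 2 h2
      exact_mod_cast this
    exact h7.dvd_of_dvd_mul_left h6
  · intro h
    rw [← ZMod.intCast_zmod_eq_zero_iff_dvd] at h
    push_cast at h
    have hp0 : (2 : ZMod p) * (m : ZMod p) + 1 = 0 := by
      have h8 := congrArg (Nat.cast : ℕ → ZMod p) hm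
      rw [ZMod.natCast_self] at h8
      push_cast at h8
      exact h8.symm
    have e1 : (2 : ZMod p) * ((((y : ℤ) : ZMod p) - (d : ZMod p)) * ((m : ZMod p) + 1)) + (d : ZMod p)
        = ((y : ℤ) : ZMod p) := by
      linear_combination (((y : ℤ) : ZMod p) - (d : ZMod p)) * hp0
    rw [e1, hyz] at h
    rw [h, mul_zero] at hz
    exact hd0 hz

end Pool.Agent.Work.MP_e0c7e8_nt.SM
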