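import Pool.Agent.Work.MP_e0c7e8_nt.SM.Stmts
import Pool.Agent.Work.MP_e0c7e8_nt.SM.Basic

/-!
# Item C2b1: product of a prime ideal and its conjugate
-/

set_option autoImplicit false

namespace Pool.Agent.Work.MP_e0c7e8_nt.SM

open Finset

namespace ItemC2b1

theorem ring_part {R : Type} [CommRing R] (p A B t : R) (x y s : R) (hAB : A * B = p * t)
    (hs : A + B = s) (hxy : x * p + y * s = 1) :
    Ideal.span {p, A} * Ideal.span {p, B} = Ideal.span {p} := by
  apply le_antisymm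
  · rw [Ideal.mul_le]
    intro r hr q hq
    rw [Ideal.mem_span_pair] at hr hq
    obtain ⟨a, b, rfl⟩ := hr
    obtain ⟨c, e, rfl⟩ := hq
    rw [Ideal.mem_span_singleton]
    refine ⟨a * (c * p + e * B) + b * A * c + b * e * t, ?_⟩
    linear_combination b * e * hAB
  · rw [Ideal.span_singleton_le_iff_mem]
    have hp1 : p ∈ Ideal.span {p, A} := Ideal.subset_span (by simp)
    have hp2 : p ∈ Ideal.span {p, B} := Ideal.subset_span (by simp)
    have hA : A ∈ Ideal.span {p, A} := Ideal.subset_span (by simp)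
    have hB : B ∈ Ideal.span {p, B} := Ideal.subset_span (by simp)
    have h1 := Ideal.mul_mem_mul hp1 hp2
    have h2 := Ideal.mul_mem_mul hp1 hB
    have h3 := Ideal.mul_mem_mul hA hp2
    have h4 : p = x * (p * p) + y * (p * B + A * p) := by
      linear_combination (-p) * hxy + (-y * p) * hs
    have h5 := Ideal.add_mem _ (Ideal.mul_mem_left _ x h1)
      (Ideal.mul_mem_left _ y (Ideal.add_mem _ h2 h3))
    rw [← h4] at h5
    exact h5

end ItemC2b1

theorem claimC2b1 (h0 : ClaimC0) : ClaimC2b1 := by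
  intro d p n hd hd4 hp hdvd hnd
  obtain ⟨_, _, _, h4, _⟩ := h0 d hd hd4
  obtain ⟨t, ht⟩ := hdvd
  have hirr : Irreducible (p : ℤ) := (Nat.prime_iff_prime_int.mp hp).irreducible
  obtain ⟨x, y, hxy⟩ := hirr.coprime_iff_not_dvd.mpr hnd
  unfold Pi1 Pi2
  refine ItemC2b1.ring_part (p : ↥(Od d)) ((n : ↥(Od d)) + th d) ((n : ↥(Od d)) + d - th d)
    (t : ↥(Od d)) (x : ↥(Od d)) (y : ↥(Od d)) ((2 * n + d : ℤ) : ↥(Od d)) ?_ ?_ ?_
  · have h5 : ((FF d n : ℤ) : ↥(Od d)) = (((p : ℤ) * t : ℤ) : ↥(Od d)) := by rw [ht]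
    unfold FF at h5
    push_cast at h5 h4 ⊢
    linear_combination h4 + h5
  · push_cast
    ring
  · have h6 : ((x * (p : ℤ) + y * (2 * n + d) : ℤ) : ↥(Od d)) = ((1 : ℤ) : ↥(Od d)) := by
      rw [hxy]
    push_cast at h6 ⊢
    exact h6

end Pool.Agent.Work.MP_e0c7e8_nt.SM
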