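import Pool.Agent.Work.MP_e0c7e8_nt.SM.Stmts
import Pool.Agent.Work.MP_e0c7e8_nt.SM.Basic

/-!
# The torsion inequality
-/

set_option autoImplicit false

namespace Pool.Agent.Work.MP_e0c7e8_nt.SM

open Finset

namespace ItemC2c

/-- signed exponents -/
def ee (a : ℕ) (U : Finset ℕ) (p : ℕ) : ℤ :=
  if p ∈ U then (a.factorization p : ℤ) else -(a.factorization p : ℤ)

theorem natAbs_ee (a : ℕ) (U : Finset ℕ) (p : ℕ) : (ee a U p).natAbs = a.factorization p := by
  unfold ee
  split_ifs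
  · exact Int.natAbs_natCast _
  · rw [Int.natAbs_neg, Int.natAbs_natCast]

theorem fact_zero {a p : ℕ} (h : p ∉ a.primeFactors) : a.factorization p = 0 := by
  rw [← Nat.support_factorization] at h
  exact Finsupp.notMem_support_iff.mp h

theorem ee_zero {a p : ℕ} (U : Finset ℕ) (h : p ∉ a.primeFactors) : ee a U p = 0 := by
  unfold ee
  rw [fact_zero h]
  simp

theorem prod_sub {G : Type*} [CommGroup G] (c : ℕ → G) {a : ℕ} (U : Finset ℕ) {S : Finset ℕ}
    (hS : a.primeFactors ⊆ S) :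
    ∏ p ∈ a.primeFactors, c p ^ ee a U p = ∏ p ∈ S, c p ^ ee a U p := by
  refine Finset.prod_subset hS fun p _ hp => ?_
  rw [ee_zero U hp, zpow_zero]

theorem prod_fact {a : ℕ} (ha : a ≠ 0) {S : Finset ℕ} (hS : a.primeFactors ⊆ S) :
    ∏ p ∈ S, p ^ a.factorization p = a := by
  have h1 : ∏ p ∈ a.primeFactors, p ^ a.factorization p = ∏ p ∈ S, p ^ a.factorization p := by
    refine Finset.prod_subset hS fun p _ hp => ?_
    rw [fact_zero hp, pow_zero]
  rw [← h1]
  have h2 := Nat.prod_factorization_pow_eq_self ha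
  rw [Finsupp.prod, Nat.support_factorization] at h2
  exact h2

theorem key {G : Type*} [CommGroup G] (D k x : ℕ) (hk : 0 < k) (hx : 4 * x ^ (2 * k) < D)
    (good : ℕ → Prop) (c : ℕ → G)
    (hc : ∀ (S : Finset ℕ) (e : ℕ → ℤ), (∀ p ∈ S, p.Prime ∧ good p) →
      4 * ∏ p ∈ S, p ^ (e p).natAbs < D → ∏ p ∈ S, c p ^ e p = 1 → ∀ p ∈ S, e p = 0)
    (a a' : ℕ) (U U' : Finset ℕ) (ha : 1 ≤ a) (ha' : 1 ≤ a') (hax : a ≤ x) (hax' : a' ≤ x)
    (hag : ∀ p ∈ a.primeFactors, good p) (hag' : ∀ p ∈ a'.primeFactors, good p)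
    (hU : U ⊆ a.primeFactors) (hU' : U' ⊆ a'.primeFactors)
    (h : (∏ p ∈ a.primeFactors, c p ^ ee a U p) ^ k =
      (∏ p ∈ a'.primeFactors, c p ^ ee a' U' p) ^ k) : a = a' ∧ U = U' := by
  classical
  have hS : a.primeFactors ⊆ a.primeFactors ∪ a'.primeFactors := Finset.subset_union_left
  have hS' : a'.primeFactors ⊆ a.primeFactors ∪ a'.primeFactors := Finset.subset_union_right
  have hpr : ∀ p ∈ a.primeFactors ∪ a'.primeFactors, p.Prime ∧ good p := by
    intro p hp
    rcases Finset.mem_union.1 hp with h1 | h1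
    · exact ⟨Nat.prime_of_mem_primeFactors h1, hag p h1⟩
    · exact ⟨Nat.prime_of_mem_primeFactors h1, hag' p h1⟩
  have h0 := hc (a.primeFactors ∪ a'.primeFactors)
    (fun p => (k : ℤ) * (ee a U p - ee a' U' p)) hpr ?_ ?_
  · have he : ∀ p, ee a U p = ee a' U' p := by
      intro p
      by_cases hp : p ∈ a.primeFactors ∪ a'.primeFactors
      · have h1 := h0 p hp
        have hk' : (k : ℤ) ≠ 0 := by exact_mod_cast hk.ne'
        rcases mul_eq_zero.1 h1 with h2 | h2
        · exact absurd h2 hk'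
        · linarith
      · rw [Finset.mem_union, not_or] at hp
        rw [ee_zero U hp.1, ee_zero U' hp.2]
    have hf : ∀ p, a.factorization p = a'.factorization p := by
      intro p
      rw [← natAbs_ee a U p, ← natAbs_ee a' U' p, he p]
    have haa : a = a' := Nat.eq_of_factorization_eq (by omega) (by omega) hf
    refine ⟨haa, ?_⟩
    subst haa
    have hpos : ∀ p ∈ a.primeFactors, 0 < a.factorization p := by
      intro p hp
      rw [← Nat.support_factorization] at hp
      exact Nat.pos_of_ne_zero (Finsupp.mem_support_iff.1 hp)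
    have hincl : ∀ W W' : Finset ℕ, W ⊆ a.primeFactors → (∀ p, ee a W p = ee a W' p) → W ⊆ W' := by
      intro W W' hW hee p hp
      by_contra hn
      have h1 := hee p
      unfold ee at h1
      rw [if_pos hp, if_neg hn] at h1
      have h2 := hpos p (hW hp)
      omega
    exact Finset.Subset.antisymm (hincl U U' hU he) (hincl U' U hU' fun p => (he p).symm)
  · have h1 : ∏ p ∈ a.primeFactors ∪ a'.primeFactors,
        p ^ ((k : ℤ) * (ee a U p - ee a' U' p)).natAbs ≤ a ^ k * a' ^ k := by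
      calc ∏ p ∈ a.primeFactors ∪ a'.primeFactors,
            p ^ ((k : ℤ) * (ee a U p - ee a' U' p)).natAbs
          ≤ ∏ p ∈ a.primeFactors ∪ a'.primeFactors,
            ((p ^ a.factorization p) ^ k * (p ^ a'.factorization p) ^ k) := by
            refine Finset.prod_le_prod' fun p hp => ?_
            rw [← pow_mul, ← pow_mul, ← pow_add]
            apply Nat.pow_le_pow_right (hpr p hp).1.pos
            rw [Int.natAbs_mul, Int.natAbs_natCast]
            have h2 := Int.natAbs_sub_le (ee a U p) (ee a' U' p)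
            rw [natAbs_ee, natAbs_ee] at h2
            calc k * (ee a U p - ee a' U' p).natAbs
                ≤ k * (a.factorization p + a'.factorization p) := Nat.mul_le_mul_left k h2
              _ = a.factorization p * k + a'.factorization p * k := by ring
        _ = a ^ k * a' ^ k := by
            rw [Finset.prod_mul_distrib, Finset.prod_pow, Finset.prod_pow,
              prod_fact (by omega) hS, prod_fact (by omega) hS']
    have h2 : a ^ k * a' ^ k ≤ x ^ (2 * k) := by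
      calc a ^ k * a' ^ k ≤ x ^ k * x ^ k :=
            Nat.mul_le_mul (Nat.pow_le_pow_left hax k) (Nat.pow_le_pow_left hax' k)
        _ = x ^ (2 * k) := by ring
    omega
  · have h1 : ∀ p ∈ a.primeFactors ∪ a'.primeFactors,
        c p ^ ((k : ℤ) * (ee a U p - ee a' U' p)) =
          (c p ^ ee a U p) ^ k / (c p ^ ee a' U' p) ^ k := by
      intro p _
      rw [mul_comm, zpow_mul, zpow_sub, zpow_natCast, ← div_eq_mul_inv, div_pow]
    rw [Finset.prod_congr rfl h1, Finset.prod_div_distrib, Finset.prod_pow, Finset.prod_pow,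
      ← prod_sub c U hS, ← prod_sub c U' hS', h, div_self']

theorem card_le {G : Type*} [CommGroup G] (hfin : Finite G) (D k x : ℕ) (hk : 0 < k)
    (hx : 4 * x ^ (2 * k) < D) (good : ℕ → Prop) [DecidablePred good] (c : ℕ → G)
    (hc : ∀ (S : Finset ℕ) (e : ℕ → ℤ), (∀ p ∈ S, p.Prime ∧ good p) →
      4 * ∏ p ∈ S, p ^ (e p).natAbs < D → ∏ p ∈ S, c p ^ e p = 1 → ∀ p ∈ S, e p = 0) :
    Nat.card {y : G // y ^ k = 1} *
      ∑ a ∈ Icc 1 x, (if ∀ p ∈ a.primeFactors, good p then 2 ^ a.primeFactors.card else 0) ≤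
      Nat.card G := by
  classical
  set I : Finset (Σ _ : ℕ, Finset ℕ) :=
    ((Icc 1 x).filter (fun a => ∀ p ∈ a.primeFactors, good p)).sigma
      (fun a => a.primeFactors.powerset) with hI
  have hcard : ∑ a ∈ Icc 1 x,
      (if ∀ p ∈ a.primeFactors, good p then 2 ^ a.primeFactors.card else 0) = I.card := by
    rw [hI, Finset.card_sigma, Finset.sum_filter]
    refine Finset.sum_congr rfl fun a _ => ?_
    rw [Finset.card_powerset]
  have hmem : ∀ i : Σ _ : ℕ, Finset ℕ, i ∈ I → 1 ≤ i.1 ∧ i.1 ≤ x ∧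
      (∀ p ∈ i.1.primeFactors, good p) ∧ i.2 ⊆ i.1.primeFactors := by
    intro i hi
    rw [hI, Finset.mem_sigma, Finset.mem_filter, Finset.mem_Icc, Finset.mem_powerset] at hi
    exact ⟨hi.1.1.1, hi.1.1.2, hi.1.2, hi.2⟩
  have hI2 : Nat.card I = I.card := by
    rw [Nat.card_eq_fintype_card, Fintype.card_coe]
  rw [hcard, ← hI2, ← Nat.card_prod]
  let φ : {y : G // y ^ k = 1} × I → G := fun z =>
    z.1.1 * ∏ p ∈ z.2.1.1.primeFactors, c p ^ ee z.2.1.1 z.2.1.2 p
  apply Nat.card_le_card_of_injective φ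
  rintro ⟨⟨t, ht⟩, ⟨⟨a, U⟩, hi⟩⟩ ⟨⟨t', ht'⟩, ⟨⟨a', U'⟩, hi'⟩⟩ hφ
  have hφ' : t * ∏ p ∈ a.primeFactors, c p ^ ee a U p =
      t' * ∏ p ∈ a'.primeFactors, c p ^ ee a' U' p := hφ
  have hm := hmem _ hi
  have hm' := hmem _ hi'
  have hpow : (∏ p ∈ a.primeFactors, c p ^ ee a U p) ^ k =
      (∏ p ∈ a'.primeFactors, c p ^ ee a' U' p) ^ k := by
    have h1 := congrArg (fun z => z ^ k) hφ'
    simp only [mul_pow, ht, ht', one_mul] at h1
    exact h1
  obtain ⟨h1, h2⟩ := key D k x hk hx good c hc a a' U U' hm.1 hm'.1 hm.2.1 hm'.2.1 hm.2.2.1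
    hm'.2.2.1 hm.2.2.2 hm'.2.2.2 hpow
  subst h1
  subst h2
  have h3 : t = t' := mul_right_cancel hφ'
  subst h3
  rfl

end ItemC2c

theorem claimC2c (hb : ClaimC2b) : ClaimC2c := by
  intro d k x hd h4 hk hx hfin
  obtain ⟨c, hc⟩ := hb d hd h4
  have h := ItemC2c.card_le hfin d.natAbs k x hk hx (fun p => chi d p = 1) c hc
  exact h

end Pool.Agent.Work.MP_e0c7e8_nt.SM
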