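import Pool.Agent.Work.MP_e0c7e8_nt.SM.Stmts
import Pool.Agent.Work.MP_e0c7e8_nt.SM.Basic
import Pool.Agent.Work.MP_e0aece_nt.DivisorBound

/-!
# Item G10: short character sums for all nonsquare `d`
-/

set_option autoImplicit false

namespace Pool.Agent.Work.MP_e0c7e8_nt.SM

open Finset

namespace ItemG10

theorem coprime_sum (d : ℤ) (s N : ℕ) (hs : s ≠ 0) :
    ∑ n ∈ Icc 1 N, ((if Nat.Coprime s n then chi d n else 0 : ℤ) : ℝ) =
      ∑ e ∈ s.divisors, ((ArithmeticFunction.moebius e : ℤ) : ℝ) *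
        ((chi d e : ℝ) * ∑ m ∈ Icc 1 (N / e), (chi d m : ℝ)) := by
  classical
  have h1 : ∀ n ∈ Icc 1 N, ((if Nat.Coprime s n then chi d n else 0 : ℤ) : ℝ) =
      ∑ e ∈ s.divisors, if e ∣ n then ((ArithmeticFunction.moebius e : ℤ) : ℝ) * (chi d n : ℝ)
        else 0 := by
    intro n hn
    have h2 : ∑ e ∈ (Nat.gcd s n).divisors, ArithmeticFunction.moebius e =
        if Nat.gcd s n = 1 then 1 else 0 := by
      have := congrArg (fun f : ArithmeticFunction ℤ => f (Nat.gcd s n))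
        ArithmeticFunction.moebius_mul_coe_zeta
      simp only [ArithmeticFunction.coe_mul_zeta_apply, ArithmeticFunction.one_apply] at this
      exact this
    have h3 : (Nat.gcd s n).divisors = s.divisors.filter (fun e => e ∣ n) := by
      ext e
      rw [Nat.mem_divisors, Finset.mem_filter, Nat.mem_divisors]
      constructor
      · rintro ⟨h4, _⟩
        exact ⟨⟨h4.trans (Nat.gcd_dvd_left _ _), hs⟩, h4.trans (Nat.gcd_dvd_right _ _)⟩
      · rintro ⟨⟨h4, _⟩, h5⟩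
        exact ⟨Nat.dvd_gcd h4 h5, (Nat.gcd_pos_of_pos_left _ (Nat.pos_of_ne_zero hs)).ne'⟩
    rw [← Finset.sum_filter, ← h3, ← Finset.sum_mul]
    have h4 : ∑ e ∈ (Nat.gcd s n).divisors, ((ArithmeticFunction.moebius e : ℤ) : ℝ) =
        if Nat.gcd s n = 1 then 1 else 0 := by
      have := congrArg (Int.cast : ℤ → ℝ) h2
      push_cast at this
      exact this
    rw [h4]
    unfold Nat.Coprime
    split_ifs <;> simp
  rw [Finset.sum_congr rfl h1, Finset.sum_comm]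
  refine Finset.sum_congr rfl fun e he => ?_
  have he0 : 0 < e := Nat.pos_of_mem_divisors he
  rw [← Finset.sum_filter, ← Finset.mul_sum]
  congr 1
  rw [Finset.mul_sum]
  symm
  refine Finset.sum_nbij' (fun m => e * m) (fun n => n / e) ?_ ?_ ?_ ?_ ?_
  · intro m hm
    rw [Finset.mem_Icc] at hm
    rw [Finset.mem_filter, Finset.mem_Icc]
    refine ⟨⟨Nat.mul_pos he0 hm.1, ?_⟩, Dvd.intro _ rfl⟩
    rw [mul_comm]
    exact (Nat.le_div_iff_mul_le he0).1 hm.2
  · intro n hn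
    rw [Finset.mem_filter, Finset.mem_Icc] at hn
    rw [Finset.mem_Icc]
    exact ⟨Nat.div_pos (Nat.le_of_dvd hn.1.1 hn.2) he0, Nat.div_le_div_right hn.1.2⟩
  · intro m _
    exact Nat.mul_div_cancel_left _ he0
  · intro n hn
    rw [Finset.mem_filter] at hn
    exact Nat.mul_div_cancel' hn.2
  · intro m _
    rw [chi_mul]
    push_cast
    ring

theorem abs_coprime_sum (d : ℤ) (s N : ℕ) (hs : s ≠ 0) (B : ℝ)
    (hB : ∀ e ∈ s.divisors, |∑ m ∈ Icc 1 (N / e), (chi d m : ℝ)| ≤ B) :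
    |∑ n ∈ Icc 1 N, ((if Nat.Coprime s n then chi d n else 0 : ℤ) : ℝ)| ≤
      (s.divisors.card : ℝ) * B := by
  rw [coprime_sum d s N hs]
  refine (Finset.abs_sum_le_sum_abs _ _).trans ?_
  rw [← nsmul_eq_mul, ← Finset.sum_const]
  refine Finset.sum_le_sum fun e he => ?_
  rw [abs_mul, abs_mul]
  have h1 : |((ArithmeticFunction.moebius e : ℤ) : ℝ)| ≤ 1 := by
    have := ArithmeticFunction.abs_moebius_le_one (n := e)
    exact_mod_cast this
  have h2 := abs_chi_real_le d e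
  have h3 := hB e he
  calc |((ArithmeticFunction.moebius e : ℤ) : ℝ)| * (|(chi d e : ℝ)| *
        |∑ m ∈ Icc 1 (N / e), (chi d m : ℝ)|)
      ≤ 1 * (1 * B) := mul_le_mul h1 (mul_le_mul h2 h3 (abs_nonneg _) zero_le_one)
        (by positivity) zero_le_one
    _ = B := by ring

theorem trivial_bound (d : ℤ) (M : ℕ) : |∑ m ∈ Icc 1 M, (chi d m : ℝ)| ≤ M := by
  refine (Finset.abs_sum_le_sum_abs _ _).trans ?_
  refine (Finset.sum_le_sum fun n _ => abs_chi_real_le d n).trans ?_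
  simp

theorem isum_eq (g : ℤ → ℝ) (M : ℕ) : isum g 1 M = ∑ n ∈ Icc 1 M, g (n : ℤ) := by
  unfold isum
  symm
  refine Finset.sum_nbij' (fun n : ℕ => (n : ℤ)) (fun n : ℤ => n.toNat) ?_ ?_ ?_ ?_ ?_
  · intro n hn
    rw [Finset.mem_Icc] at hn
    rw [Finset.mem_Ico]
    constructor <;> omega
  · intro n hn
    rw [Finset.mem_Ico] at hn
    rw [Finset.mem_Icc]
    constructor <;> omega
  · intro n _
    simp
  · intro n hn
    rw [Finset.mem_Ico] at hn
    exact Int.toNat_of_nonneg (by omega)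
  · intro n _
    rfl

/-- decomposition of `d` -/
theorem decomp (d : ℤ) (hd : ¬ IsSquare d) : ∃ (d' : ℤ) (s : ℕ), s ≠ 0 ∧ Squarefree d' ∧
    d = d' * (s : ℤ) ^ 2 ∧ ¬ IsSquare d' ∧ d'.natAbs ≤ d.natAbs ∧ s ≤ d.natAbs ∧
    ∀ p : ℕ, p.Prime → p ∣ d'.natAbs → Odd (padicValInt p d) := by
  have hd0 : d ≠ 0 := by
    rintro rfl
    exact hd ⟨0, by simp⟩
  obtain ⟨a, b, hab, ha⟩ := Nat.sq_mul_squarefree d.natAbs
  have hn0 : d.natAbs ≠ 0 := Int.natAbs_ne_zero.2 hd0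
  have hb0 : b ≠ 0 := by
    rintro rfl
    simp at hab
    exact hd0 (by simpa using hab.symm)
  have ha0 : a ≠ 0 := ha.ne_zero
  have hdeq : d = (d.sign * a) * (b : ℤ) ^ 2 := by
    have h1 : ((b ^ 2 * a : ℕ) : ℤ) = |d| := by rw [hab]; exact Int.natCast_natAbs d
    push_cast at h1
    calc d = d.sign * |d| := (Int.sign_mul_abs d).symm
      _ = _ := by rw [← h1]; ring
  have hnat : (d.sign * (a : ℤ)).natAbs = a := by
    rw [Int.natAbs_mul, Int.natAbs_sign_of_ne_zero hd0, one_mul, Int.natAbs_natCast]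
  refine ⟨d.sign * a, b, hb0, ?_, hdeq, ?_, ?_, ?_, ?_⟩
  · rw [← Int.squarefree_natAbs, hnat]
    exact ha
  · rintro ⟨r, hr⟩
    apply hd
    refine ⟨r * b, ?_⟩
    rw [hdeq, hr]
    ring
  · rw [hnat, ← hab]
    exact Nat.le_mul_of_pos_left _ (pow_pos (Nat.pos_of_ne_zero hb0) 2)
  · rw [← hab]
    calc b ≤ b ^ 2 := Nat.le_self_pow two_ne_zero b
      _ ≤ b ^ 2 * a := Nat.le_mul_of_pos_right _ (Nat.pos_of_ne_zero ha0)
  · intro p hp hpa
    rw [hnat] at hpa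
    have : Fact p.Prime := ⟨hp⟩
    unfold padicValInt
    rw [← hab, padicValNat.mul (pow_ne_zero 2 hb0) ha0, padicValNat.pow]
    have h1 : padicValNat p a = 1 := by
      have h2 := (Nat.squarefree_iff_factorization_le_one ha0).1 ha p
      rw [Nat.factorization_def a hp] at h2
      have h3 := one_le_padicValNat_of_dvd ha0 hpa
      omega
    rw [h1]
    exact ⟨padicValNat p b, by ring⟩

theorem core (η c1 C1 : ℝ) (hη : 0 < η) (hc1 : 0 < c1) (hC1 : 0 < C1)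
    (h8 : ∀ (Y : ℝ) (q N : ℕ) (ψ : ℤ → ℝ), 1 ≤ Y → (∀ n, |ψ n| ≤ 1) → (∀ n, ψ (n + 8) = ψ n) →
      Odd q → Squarefree q → (q : ℝ) ≤ Y → Y ^ (η / 2) / 8 ≤ q →
      (∀ p : ℕ, p.Prime → p ∣ q → (p : ℝ) * Y ^ (η / 2) ≤ N) → Y ^ (2 * (η / 2)) ≤ N →
      SB (fun n => ψ n * ((jacobiSym n q : ℤ) : ℝ)) N (C1 * N * Y ^ (-c1)))
    (h9 : ClaimG9) (hS : ClaimS1) (Y : ℝ) (hY : 1 ≤ Y) (hY2 : 2 ≤ Y ^ (η / 4)) (d : ℤ)
    (hd : ¬ IsSquare d) (hsq : Squarefree d) (hdY : |(d : ℝ)| ≤ Y) (N e : ℕ) (he : 1 ≤ e)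
    (heY : (e : ℝ) ≤ Y ^ (η / 4)) (hN : Y ^ (2 * η) ≤ N)
    (hp : ∀ p : ℕ, p.Prime → p ∣ d.natAbs → (p : ℝ) ≤ N / Y ^ η) :
    |∑ m ∈ Icc 1 (N / e), (chi d m : ℝ)| ≤ (C1 + 1) * (N * Y ^ (-(min c1 (η / 4)))) := by
  have hY0 : 0 < Y := by linarith
  have hN0 : (0 : ℝ) ≤ N := Nat.cast_nonneg N
  set c2 := min c1 (η / 4) with hc2
  have hc2a : c2 ≤ c1 := min_le_left _ _
  have hc2b : c2 ≤ η / 4 := min_le_right _ _
  have hT : 0 ≤ N * Y ^ (-c2) := by positivity
  by_cases hA : 4 * |(d : ℝ)| ≤ Y ^ (η / 2)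
  · refine (hS d hd (N / e)).trans (hA.trans ?_)
    have h1 : Y ^ (η / 2) ≤ N * Y ^ (-c2) := by
      calc Y ^ (η / 2) = Y ^ (2 * η) * Y ^ (-(3 * η / 2)) := by
            rw [← Real.rpow_add hY0]; congr 1; ring
        _ ≤ N * Y ^ (-c2) := by
            refine mul_le_mul hN ?_ (by positivity) hN0
            exact Real.rpow_le_rpow_of_exponent_le hY (by linarith)
    nlinarith
  · push Not at hA
    obtain ⟨q, ψ, hqo, hqs, hqd, hdq, hψ1, hψ8, hchi⟩ := h9 d hsq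
    set M := N / e with hM
    have he0 : (0 : ℝ) < e := by exact_mod_cast he
    have hdabs : |(d : ℝ)| = (d.natAbs : ℝ) := by
      rw [Nat.cast_natAbs, Int.cast_abs]
    have hd0 : d ≠ 0 := hsq.ne_zero
    have hMlow : (N : ℝ) * Y ^ (-(η / 2)) ≤ M := by
      have h1 : (N : ℝ) / e < M + 1 := by
        rw [div_lt_iff₀ he0]
        have : N < (N / e + 1) * e := by
          rw [mul_comm]
          exact Nat.lt_mul_div_succ N he
        exact_mod_cast this
      set u := Y ^ (-(η / 4)) with hu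
      have hu0 : 0 < u := by positivity
      have hu1 : u * Y ^ (η / 4) = 1 := by
        rw [hu, ← Real.rpow_add hY0]
        simp
      have hu2 : u ≤ 1 / 2 := by
        rw [le_div_iff₀ (by norm_num)]
        nlinarith
      have hu3 : Y ^ (-(η / 2)) = u * u := by
        rw [hu, ← Real.rpow_add hY0]
        congr 1; ring
      have hNe : (N : ℝ) * u ≤ N / e := by
        rw [le_div_iff₀ he0, mul_assoc]
        have : u * e ≤ 1 := by
          rw [← hu1]
          exact mul_le_mul_of_nonneg_left heY hu0.le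
        nlinarith
      have h2 : 2 ≤ (N : ℝ) * u := by
        calc (2 : ℝ) ≤ Y ^ (η / 4) := hY2
          _ ≤ Y ^ (2 * η - η / 4) := Real.rpow_le_rpow_of_exponent_le hY (by linarith)
          _ = Y ^ (2 * η) * u := by rw [hu, ← Real.rpow_add hY0]; congr 1
          _ ≤ N * u := mul_le_mul_of_nonneg_right hN hu0.le
      rw [hu3]
      nlinarith
    have hMN : (M : ℝ) ≤ N := by exact_mod_cast Nat.div_le_self N e
    have hsb := h8 Y q M ψ hY hψ1 hψ8 hqo hqs ?_ ?_ ?_ ?_ 1 M le_rfl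
    · have h1 : ∑ m ∈ Icc 1 M, (chi d m : ℝ) =
          isum (fun n => ψ n * ((jacobiSym n q : ℤ) : ℝ)) 1 M := by
        rw [isum_eq]
        exact Finset.sum_congr rfl fun n _ => hchi n
      rw [h1]
      refine hsb.trans ?_
      have h2 : Y ^ (-c1) ≤ Y ^ (-c2) := Real.rpow_le_rpow_of_exponent_le hY (by linarith)
      calc C1 * M * Y ^ (-c1) ≤ C1 * N * Y ^ (-c2) := by gcongr
        _ ≤ (C1 + 1) * (N * Y ^ (-c2)) := by nlinarith
    · rw [hdabs] at hdY
      refine le_trans ?_ hdY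
      exact_mod_cast Nat.le_of_dvd (Int.natAbs_pos.2 hd0) hqd
    · have h1 : (d.natAbs : ℝ) ≤ 2 * q := by exact_mod_cast hdq
      rw [hdabs] at hA
      linarith
    · intro p hpp hpq
      have h1 := hp p hpp (hpq.trans hqd)
      refine le_trans ?_ hMlow
      have hYη : 0 < Y ^ η := by positivity
      rw [le_div_iff₀ hYη] at h1
      have h2 : Y ^ η = Y ^ (η / 2) * Y ^ (η / 2) := by
        rw [← Real.rpow_add hY0]; congr 1; ring
      have h3 : Y ^ (η / 2) * Y ^ (-(η / 2)) = 1 := by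
        rw [← Real.rpow_add hY0]; simp
      have h4 : 0 < Y ^ (-(η / 2)) := by positivity
      calc (p : ℝ) * Y ^ (η / 2) = p * Y ^ η * Y ^ (-(η / 2)) := by
            rw [h2]
            linear_combination -(p : ℝ) * Y ^ (η / 2) * h3
        _ ≤ N * Y ^ (-(η / 2)) := mul_le_mul_of_nonneg_right h1 h4.le
    · refine le_trans ?_ hMlow
      calc Y ^ (2 * (η / 2)) ≤ Y ^ (2 * η - η / 2) :=
            Real.rpow_le_rpow_of_exponent_le hY (by linarith)
        _ = Y ^ (2 * η) * Y ^ (-(η / 2)) := by rw [← Real.rpow_add hY0]; congr 1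
        _ ≤ N * Y ^ (-(η / 2)) := mul_le_mul_of_nonneg_right hN (by positivity)

end ItemG10

open ItemG10 in
theorem claimG10 (h8 : ClaimG8) (h9 : ClaimG9) (hS : ClaimS1) (_hN : ClaimN1) : ClaimG10 := by
  intro η hη hη1
  obtain ⟨c1, hc1, C1, hC1, h8'⟩ := h8 (η / 2) (by positivity) (by linarith)
  obtain ⟨c2, hc2⟩ : ∃ c2, c2 = min c1 (η / 4) := ⟨_, rfl⟩
  have hc20 : 0 < c2 := by rw [hc2]; exact lt_min hc1 (by positivity)
  have hc2b : c2 ≤ η / 4 := by rw [hc2]; exact min_le_right _ _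
  obtain ⟨C2, hC2, hdiv⟩ := Pool.Agent.Work.MP_e0aece_nt.exists_divisor_bound (c2 / 2)
    (by positivity)
  refine ⟨c2 / 2, by positivity, C2 * (C1 + 1) + 2, by positivity, ?_⟩
  intro Y d N hY hdY hd hSmo hN
  have hY0 : 0 < Y := by linarith
  have hN0 : (0 : ℝ) ≤ N := Nat.cast_nonneg N
  by_cases hY2 : 2 ≤ Y ^ (η / 4)
  · obtain ⟨d', s, hs, hsq, hdd, hd', hle1, hle2, hodd⟩ := decomp d hd
    have hdabs : |(d : ℝ)| = (d.natAbs : ℝ) := by rw [Nat.cast_natAbs, Int.cast_abs]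
    have hdabs' : |(d' : ℝ)| = (d'.natAbs : ℝ) := by rw [Nat.cast_natAbs, Int.cast_abs]
    have hd'Y : |(d' : ℝ)| ≤ Y := by
      rw [hdabs']
      rw [hdabs] at hdY
      exact le_trans (by exact_mod_cast hle1) hdY
    have hsY : (s : ℝ) ≤ Y := by
      rw [hdabs] at hdY
      exact le_trans (by exact_mod_cast hle2) hdY
    have h1 : ∑ n ∈ Icc 1 N, (chi d n : ℝ) =
        ∑ n ∈ Icc 1 N, ((if Nat.Coprime s n then chi d' n else 0 : ℤ) : ℝ) := by
      refine Finset.sum_congr rfl fun n _ => ?_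
      rw [hdd, chi_sq]
    rw [h1]
    have h2 := abs_coprime_sum d' s N hs ((C1 + 1) * (N * Y ^ (-c2))) (by
      intro e he
      have he1 : 1 ≤ e := Nat.pos_of_mem_divisors he
      have he0 : (0 : ℝ) < e := by exact_mod_cast he1
      by_cases heY : (e : ℝ) ≤ Y ^ (η / 4)
      · rw [hc2]
        exact core η c1 C1 hη hc1 hC1 h8' h9 hS Y hY hY2 d' hd' hsq hd'Y N e he1 heY hN
          (fun p hp hpd => hSmo p hp (hodd p hp hpd))
      · push Not at heY
        refine (trivial_bound d' (N / e)).trans ?_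
        have h3 : ((N / e : ℕ) : ℝ) ≤ N / e := Nat.cast_div_le
        refine h3.trans ?_
        have h4 : (N : ℝ) / e ≤ N * Y ^ (-c2) := by
          rw [div_eq_mul_inv]
          refine mul_le_mul_of_nonneg_left ?_ hN0
          rw [Real.rpow_neg hY0.le]
          have h5 : Y ^ c2 ≤ Y ^ (η / 4) := Real.rpow_le_rpow_of_exponent_le hY hc2b
          exact inv_anti₀ (by positivity) (h5.trans heY.le)
        have h6 : 0 ≤ N * Y ^ (-c2) := by positivity
        nlinarith)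
    refine h2.trans ?_
    have h3 : (s.divisors.card : ℝ) ≤ C2 * Y ^ (c2 / 2) := by
      refine (hdiv s (Nat.pos_of_ne_zero hs)).trans ?_
      gcongr
    have h4 : Y ^ (c2 / 2) * Y ^ (-c2) = Y ^ (-(c2 / 2)) := by
      rw [← Real.rpow_add hY0]; congr 1; ring
    have h5 : 0 ≤ (N : ℝ) * Y ^ (-(c2 / 2)) := by positivity
    calc (s.divisors.card : ℝ) * ((C1 + 1) * (N * Y ^ (-c2)))
        ≤ (C2 * Y ^ (c2 / 2)) * ((C1 + 1) * (N * Y ^ (-c2))) := by gcongr
      _ = C2 * (C1 + 1) * (N * (Y ^ (c2 / 2) * Y ^ (-c2))) := by ring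
      _ = C2 * (C1 + 1) * (N * Y ^ (-(c2 / 2))) := by rw [h4]
      _ ≤ (C2 * (C1 + 1) + 2) * N * Y ^ (-(c2 / 2)) := by nlinarith
  · push Not at hY2
    refine (trivial_bound d N).trans ?_
    have h1 : Y ^ (c2 / 2) ≤ 2 :=
      (Real.rpow_le_rpow_of_exponent_le hY (by linarith)).trans hY2.le
    have h2 : Y ^ (c2 / 2) * Y ^ (-(c2 / 2)) = 1 := by
      rw [← Real.rpow_add hY0]; simp
    have h3 : 0 < Y ^ (-(c2 / 2)) := by positivity
    have h4 : 1 ≤ 2 * Y ^ (-(c2 / 2)) := by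
      rw [← h2]
      exact mul_le_mul_of_nonneg_right h1 h3.le
    have h5 : 0 ≤ C2 * (C1 + 1) := by positivity
    have h6 : 0 ≤ (N : ℝ) * Y ^ (-(c2 / 2)) := by positivity
    calc (N : ℝ) = N * 1 := (mul_one _).symm
      _ ≤ N * (2 * Y ^ (-(c2 / 2))) := mul_le_mul_of_nonneg_left h4 hN0
      _ ≤ (C2 * (C1 + 1) + 2) * N * Y ^ (-(c2 / 2)) := by nlinarith

end Pool.Agent.Work.MP_e0c7e8_nt.SM
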