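import Pool.Agent.Work.MP_e0c7e8_nt.SM.Stmts
import Pool.Agent.Work.MP_e0c7e8_nt.SM.Basic

/-!
# Item G3: incomplete sums
-/

set_option autoImplicit false

namespace Pool.Agent.Work.MP_e0c7e8_nt.SM

open Finset

namespace ItemG3

lemma isum_add (F : ℤ → ℝ) (M : ℤ) (a b : ℕ) :
    isum F M (a + b) = isum F M a + isum F (M + a) b := by
  unfold isum
  have h : M + ((a + b : ℕ) : ℤ) = M + a + b := by push_cast; ring
  rw [h, ← Finset.sum_union]
  · congr 1
    ext x
    simp only [mem_Ico, mem_union]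
    omega
  · rw [Finset.disjoint_left]
    intro x hx hy
    rw [mem_Ico] at hx hy
    omega

lemma isum_one (F : ℤ → ℝ) (M : ℤ) : isum F M 1 = F M := by
  unfold isum
  have : Ico M (M + ((1 : ℕ) : ℤ)) = {M} := by
    ext x; simp only [mem_Ico, mem_singleton]; push_cast; omega
  rw [this, Finset.sum_singleton]

lemma isum_period {F : ℤ → ℝ} {m : ℕ} (hF : ∀ n, F (n + m) = F n) (M : ℤ) :
    isum F (M + 1) m = isum F M m := by
  have h1 := isum_add F M 1 m
  have h2 := isum_add F M m 1
  rw [add_comm 1 m, h2, isum_one, isum_one, hF] at h1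
  push_cast at h1
  linarith

lemma isum_period_all {F : ℤ → ℝ} {m : ℕ} (hF : ∀ n, F (n + m) = F n) (M : ℤ) :
    isum F M m = isum F 0 m := by
  induction M using Int.induction_on with
  | zero => rfl
  | succ i ih => rw [isum_period hF, ih]
  | pred i ih =>
    rw [← ih]
    have := isum_period hF (-(i : ℤ) - 1)
    rw [sub_add_cancel] at this
    exact this.symm

lemma isum_zero_range (F : ℤ → ℝ) (m : ℕ) : isum F 0 m = ∑ x ∈ range m, F x := by
  unfold isum
  induction m with
  | zero => simp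
  | succ m ih =>
    rw [Finset.sum_range_succ, ← ih]
    have : Ico (0 : ℤ) (0 + ((m + 1 : ℕ) : ℤ)) = insert (m : ℤ) (Ico (0 : ℤ) (0 + (m : ℤ))) := by
      ext x; simp only [mem_Ico, mem_insert]; push_cast; omega
    rw [this, Finset.sum_insert (by simp), add_comm]

lemma isum_blocks {F : ℤ → ℝ} {m : ℕ} (hF : ∀ n, F (n + m) = F n) (k : ℕ) (M : ℤ) :
    isum F M (k * m) = k * isum F 0 m := by
  induction k generalizing M with
  | zero => simp [isum_zero_len]
  | succ k ih =>
    rw [Nat.succ_mul, isum_add, ih, isum_period_all hF (M + ((k * m : ℕ) : ℤ))]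
    push_cast; ring

end ItemG3

open ItemG3 in
theorem claimG3 (h2 : ClaimG2) : ClaimG3 := by
  intro m hmo hms A u hu hA hbad N M L hL
  have hm : 0 < m := hmo.pos
  have hmR : (0 : ℝ) < m := by exact_mod_cast hm
  have hT := h2 m hmo hms A u hu hA hbad
  set W : ℝ := (A.length : ℝ) ^ m.primeFactors.card * Real.sqrt (m * u) with hW
  have hW0 : 0 ≤ W := by rw [hW]; positivity
  have hF : ∀ n : ℤ, PJ m A (n + m) = PJ m A n := by
    intro n
    have := PJ_periodic m A n 1
    rwa [one_mul] at this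
  have hsplit : L = L / m * m + L % m := by rw [Nat.div_add_mod' L m]
  rw [hsplit, isum_add, isum_blocks hF, isum_zero_range]
  calc |((L / m : ℕ) : ℝ) * ∑ x ∈ range m, PJ m A x + isum (PJ m A) (M + ((L / m * m : ℕ) : ℤ)) (L % m)|
      ≤ |((L / m : ℕ) : ℝ) * ∑ x ∈ range m, PJ m A x| +
        |isum (PJ m A) (M + ((L / m * m : ℕ) : ℤ)) (L % m)| := abs_add_le _ _
    _ ≤ (N : ℝ) / m * W + m := by
        apply add_le_add
        · rw [abs_mul, abs_of_nonneg (by positivity : (0 : ℝ) ≤ ((L / m : ℕ) : ℝ))]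
          apply mul_le_mul _ hT (abs_nonneg _) (by positivity)
          calc ((L / m : ℕ) : ℝ) ≤ (L : ℝ) / m := Nat.cast_div_le
            _ ≤ (N : ℝ) / m := by
                apply div_le_div_of_nonneg_right _ hmR.le
                exact_mod_cast hL
        · refine (abs_isum_le (abs_PJ_le m A) _ _).trans ?_
          exact_mod_cast (Nat.mod_lt L hm).le

end Pool.Agent.Work.MP_e0c7e8_nt.SM
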