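import Pool.Agent.Work.MP_e0c7e8_nt.SM.Stmts
import Pool.Agent.Work.MP_e0c7e8_nt.SM.Basic

/-!
# Item G4: the van der Corput step
-/

set_option autoImplicit false

namespace Pool.Agent.Work.MP_e0c7e8_nt.SM

open Finset

namespace ItemG4

/-- indicator of `Ico M (M+L)` -/
noncomputable def ind (M : ℤ) (L : ℕ) (n : ℤ) : ℝ := if n ∈ Ico M (M + L) then 1 else 0

lemma ind_zero {M : ℤ} {L : ℕ} {n : ℤ} (h : n ∉ Ico M (M + L)) : ind M L n = 0 := if_neg h

lemma ind_one {M : ℤ} {L : ℕ} {n : ℤ} (h : n ∈ Ico M (M + L)) : ind M L n = 1 := if_pos h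

lemma isum_eq {F : ℤ → ℝ} {M : ℤ} {L : ℕ} {J : Finset ℤ} (hJ : Ico M (M + L) ⊆ J) :
    isum F M L = ∑ n ∈ J, ind M L n * F n := by
  unfold isum ind
  simp only [ite_mul, one_mul, zero_mul]
  rw [← Finset.sum_filter]
  apply Finset.sum_congr _ (fun _ _ => rfl)
  ext n
  simp only [mem_filter]
  exact ⟨fun h => ⟨hJ h, h⟩, fun h => h.2⟩

lemma sum_shift {F : ℤ → ℝ} {a b : ℤ} {t : ℤ} (a' b' : ℤ) (hF : ∀ n, F n ≠ 0 → a ≤ n ∧ n < b)
    (h1 : a' ≤ a - t) (h2 : b - t ≤ b') :
    ∑ n ∈ Ico a' b', F (n + t) = ∑ n ∈ Ico a b, F n := by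
  have e1 : ∑ n ∈ Ico a' b', F (n + t) = ∑ n ∈ Ico (a' + t) (b' + t), F n := by
    rw [← Finset.sum_image (f := F) (s := Ico a' b') (g := fun n => n + t)]
    · congr 1
      ext x
      simp only [mem_image, mem_Ico]
      constructor
      · rintro ⟨y, hy, rfl⟩; omega
      · intro hx; exact ⟨x - t, by omega, by omega⟩
    · intro x _ y _ h
      simpa using h
  rw [e1]
  symm
  apply Finset.sum_subset
  · intro x hx
    rw [mem_Ico] at *
    omega
  · intro x _ hx
    by_contra h
    have := hF x h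
    exact hx (mem_Ico.2 this)

end ItemG4

open ItemG4 in
theorem claimG4 : ClaimG4 := by
  intro f g Q N H B hf hg hper hH hB hsb M L hL
  set S := isum (fun n => f n * g n) M L with hS
  have hH' : (0 : ℝ) < H := by exact_mod_cast hH
  -- periodicity for multiples
  have hperk : ∀ (k : ℕ) (n : ℤ), f (n + Q * k) = f n := by
    intro k
    induction k with
    | zero => intro n; simp
    | succ k ih =>
      intro n
      have : n + (Q : ℤ) * ((k + 1 : ℕ) : ℤ) = (n + Q * k) + Q := by push_cast; ring
      rw [this, hper, ih]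
  -- the large interval
  set a' : ℤ := M - Q * (H - 1 : ℕ) with ha'
  set b' : ℤ := M + L with hb'
  have hsupp : ∀ n, ind M L n * (f n * g n) ≠ 0 → M ≤ n ∧ n < M + L := by
    intro n hn
    by_contra h
    apply hn
    have : n ∉ Ico M (M + L) := by rw [mem_Ico]; exact h
    rw [ind_zero this, zero_mul]
  -- S for every shift
  have hSh : ∀ h : ℕ, h < H →
      S = ∑ n ∈ Ico a' b', ind M L (n + Q * h) * (f n * g (n + Q * h)) := by
    intro h hh
    have h0 : (Q : ℤ) * h ≤ Q * (H - 1 : ℕ) := by
      have : h ≤ H - 1 := by omega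
      have h3 : (h : ℤ) ≤ ((H - 1 : ℕ) : ℤ) := by exact_mod_cast this
      exact mul_le_mul_of_nonneg_left h3 (by positivity)
    have h1 := sum_shift (F := fun n => ind M L n * (f n * g n)) (a := M) (b := M + L)
      (t := (Q : ℤ) * h) a' b' hsupp (by omega)
      (by
        have : (0 : ℤ) ≤ (Q : ℤ) * h := by positivity
        omega)
    rw [hS, isum_eq (J := Ico M (M + L)) (Finset.Subset.refl _), ← h1]
    apply Finset.sum_congr rfl
    intro n _
    rw [hperk]
  set G : ℤ → ℝ := fun n => ∑ h ∈ range H, ind M L (n + Q * h) * g (n + Q * h) with hG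
  have hHS : (H : ℝ) * S = ∑ n ∈ Ico a' b', f n * G n := by
    have : ∑ h ∈ range H, S = ∑ h ∈ range H,
        ∑ n ∈ Ico a' b', ind M L (n + Q * h) * (f n * g (n + Q * h)) :=
      Finset.sum_congr rfl fun h hh => hSh h (mem_range.1 hh)
    rw [Finset.sum_const, card_range, nsmul_eq_mul] at this
    rw [this, Finset.sum_comm]
    apply Finset.sum_congr rfl
    intro n _
    rw [hG]
    simp only
    rw [Finset.mul_sum]
    apply Finset.sum_congr rfl
    intro h _
    ring
  have hcard : ((Ico a' b').card : ℝ) ≤ (N : ℝ) + Q * H := by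
    rw [Int.card_Ico]
    have h1 : (b' - a').toNat = L + Q * (H - 1) := by
      rw [ha', hb']
      have : M + (L : ℤ) - (M - (Q : ℤ) * ((H - 1 : ℕ) : ℤ)) = ((L + Q * (H - 1) : ℕ) : ℤ) := by
        push_cast; ring
      rw [this, Int.toNat_natCast]
    rw [h1]
    have h2 : L + Q * (H - 1) ≤ N + Q * H :=
      Nat.add_le_add hL (Nat.mul_le_mul_left _ (Nat.sub_le _ _))
    exact_mod_cast h2
  -- Cauchy-Schwarz
  have hCS : ((H : ℝ) * S) ^ 2 ≤ ((N : ℝ) + Q * H) * ∑ n ∈ Ico a' b', G n ^ 2 := by
    rw [hHS]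
    calc (∑ n ∈ Ico a' b', f n * G n) ^ 2
        ≤ (∑ n ∈ Ico a' b', f n ^ 2) * ∑ n ∈ Ico a' b', G n ^ 2 :=
          Finset.sum_mul_sq_le_sq_mul_sq _ _ _
      _ ≤ ((N : ℝ) + Q * H) * ∑ n ∈ Ico a' b', G n ^ 2 := by
          apply mul_le_mul_of_nonneg_right _ (Finset.sum_nonneg fun _ _ => sq_nonneg _)
          refine le_trans ?_ hcard
          calc ∑ n ∈ Ico a' b', f n ^ 2 ≤ ∑ n ∈ Ico a' b', (1 : ℝ) := by
                apply Finset.sum_le_sum
                intro n _
                have := hf n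
                rw [← sq_abs]
                exact pow_le_one₀ (abs_nonneg _) this
            _ = _ := by simp
  -- the correlations
  set c : ℕ → ℕ → ℝ := fun h1 h2 => ∑ n ∈ Ico a' b',
    (ind M L (n + Q * h1) * g (n + Q * h1)) * (ind M L (n + Q * h2) * g (n + Q * h2)) with hc
  have hG2 : ∑ n ∈ Ico a' b', G n ^ 2 = ∑ h1 ∈ range H, ∑ h2 ∈ range H, c h1 h2 := by
    have : ∀ n, G n ^ 2 = ∑ h1 ∈ range H, ∑ h2 ∈ range H,
        (ind M L (n + Q * h1) * g (n + Q * h1)) * (ind M L (n + Q * h2) * g (n + Q * h2)) := by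
      intro n
      rw [hG, sq, Finset.sum_mul_sum]
    simp_rw [this]
    rw [Finset.sum_comm]
    apply Finset.sum_congr rfl
    intro h1 _
    rw [Finset.sum_comm]
  have hsym : ∀ h1 h2, c h1 h2 = c h2 h1 := by
    intro h1 h2
    apply Finset.sum_congr rfl
    intro n _
    ring
  -- off diagonal
  have hoff : ∀ h1 h2 : ℕ, h1 < h2 → h2 < H → c h1 h2 ≤ B := by
    intro h1 h2 h12 h2H
    obtain ⟨h, rfl⟩ : ∃ h, h2 = h1 + h := ⟨h2 - h1, by omega⟩
    have hh1 : 1 ≤ h := by omega
    have hhH : h < H := by omega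
    have hQh : (0 : ℤ) ≤ (Q : ℤ) * h := by positivity
    set F : ℤ → ℝ := fun n => (ind M L n * g n) * (ind M L (n + Q * h) * g (n + Q * h)) with hF
    have hFs : ∀ n, F n ≠ 0 → M ≤ n ∧ n < M + L := by
      intro n hn
      by_contra hcon
      apply hn
      have : n ∉ Ico M (M + L) := by rw [mem_Ico]; exact hcon
      simp only [hF, ind_zero this, zero_mul, mul_zero]
    have h0 : (Q : ℤ) * h1 ≤ Q * (H - 1 : ℕ) := by
      have : h1 ≤ H - 1 := by omega
      have h3 : (h1 : ℤ) ≤ ((H - 1 : ℕ) : ℤ) := by exact_mod_cast this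
      exact mul_le_mul_of_nonneg_left h3 (by positivity)
    have e1 : c h1 (h1 + h) = ∑ n ∈ Ico M (M + L), F n := by
      rw [← sum_shift (F := F) (a := M) (b := M + L) (t := (Q : ℤ) * h1) a' b' hFs (by omega)
        (by
          have : (0 : ℤ) ≤ (Q : ℤ) * h1 := by positivity
          omega)]
      apply Finset.sum_congr rfl
      intro n _
      simp only [hF]
      have : n + (Q : ℤ) * ((h1 + h : ℕ) : ℤ) = n + Q * h1 + Q * h := by push_cast; ring
      rw [this]
    rw [e1]
    -- it is an interval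
    have e2 : ∑ n ∈ Ico M (M + L), F n =
        isum (fun n => g n * g (n + Q * h)) M (L - Q * h) := by
      unfold isum
      symm
      apply Finset.sum_subset_zero_on_sdiff
      · intro x hx
        rw [mem_Ico] at *
        omega
      · intro x hx
        rw [mem_sdiff, mem_Ico, mem_Ico] at hx
        have : x + (Q : ℤ) * h ∉ Ico M (M + L) := by
          rw [mem_Ico]
          rcases Nat.lt_or_ge L (Q * h) with hlt | hge
          · have : (L : ℤ) < Q * h := by exact_mod_cast hlt
            omega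
          · have h5 : ((L - Q * h : ℕ) : ℤ) = (L : ℤ) - Q * h := by
              rw [Nat.cast_sub hge]; push_cast; ring
            omega
        simp only [hF, ind_zero this, zero_mul, mul_zero]
      · intro x hx
        rw [mem_Ico] at hx
        have hle : ((L - Q * h : ℕ) : ℤ) ≤ (L : ℤ) := by
          have := Nat.sub_le L (Q * h)
          exact_mod_cast this
        have h6 : (Q * h : ℕ) ≤ L := by
          by_contra hcon
          have : L - Q * h = 0 := by omega
          rw [this] at hx
          simp at hx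
          omega
        have h5 : ((L - Q * h : ℕ) : ℤ) = (L : ℤ) - Q * h := by
          rw [Nat.cast_sub h6]; push_cast; ring
        have m1 : x ∈ Ico M (M + L) := by rw [mem_Ico]; omega
        have m2 : x + (Q : ℤ) * h ∈ Ico M (M + L) := by rw [mem_Ico]; omega
        simp only [hF, ind_one m1, ind_one m2, one_mul]
    rw [e2]
    exact (le_abs_self _).trans (hsb h hh1 hhH M (L - Q * h) ((Nat.sub_le _ _).trans hL))
  have hdiag : ∀ h1 : ℕ, h1 < H → c h1 h1 ≤ N := by
    intro h1 h1H
    set F : ℤ → ℝ := fun n => (ind M L n * g n) * (ind M L n * g n) with hF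
    have hFs : ∀ n, F n ≠ 0 → M ≤ n ∧ n < M + L := by
      intro n hn
      by_contra hcon
      apply hn
      have : n ∉ Ico M (M + L) := by rw [mem_Ico]; exact hcon
      simp only [hF, ind_zero this, zero_mul, mul_zero]
    have h0 : (Q : ℤ) * h1 ≤ Q * (H - 1 : ℕ) := by
      have : h1 ≤ H - 1 := by omega
      have h3 : (h1 : ℤ) ≤ ((H - 1 : ℕ) : ℤ) := by exact_mod_cast this
      exact mul_le_mul_of_nonneg_left h3 (by positivity)
    have e1 : c h1 h1 = ∑ n ∈ Ico M (M + L), F n := by
      rw [← sum_shift (F := F) (a := M) (b := M + L) (t := (Q : ℤ) * h1) a' b' hFs (by omega)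
        (by
          have : (0 : ℤ) ≤ (Q : ℤ) * h1 := by positivity
          omega)]
    rw [e1]
    calc ∑ n ∈ Ico M (M + L), F n ≤ ∑ n ∈ Ico M (M + L), (1 : ℝ) := by
          apply Finset.sum_le_sum
          intro n hn
          simp only [hF, ind_one hn, one_mul]
          have := hg n
          have h2 : g n * g n = |g n| ^ 2 := by rw [sq_abs]; ring
          rw [h2]
          exact pow_le_one₀ (abs_nonneg _) this
      _ = L := by simp
      _ ≤ N := by exact_mod_cast hL
  have hsum : ∑ h1 ∈ range H, ∑ h2 ∈ range H, c h1 h2 ≤ H * N + H * H * B := by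
    calc ∑ h1 ∈ range H, ∑ h2 ∈ range H, c h1 h2
        ≤ ∑ h1 ∈ range H, ((N : ℝ) + H * B) := by
          apply Finset.sum_le_sum
          intro h1 hh1
          rw [mem_range] at hh1
          calc ∑ h2 ∈ range H, c h1 h2 ≤ ∑ h2 ∈ range H, ((if h2 = h1 then (N : ℝ) else 0) + B) := by
                apply Finset.sum_le_sum
                intro h2 hh2
                rw [mem_range] at hh2
                rcases lt_trichotomy h1 h2 with h | h | h
                · rw [if_neg (by omega), zero_add]
                  exact hoff h1 h2 h hh2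
                · subst h
                  rw [if_pos rfl]
                  have := hdiag h1 hh1
                  linarith
                · rw [if_neg (by omega), zero_add, hsym]
                  exact hoff h2 h1 h hh1
            _ = (N : ℝ) + H * B := by
                rw [Finset.sum_add_distrib, Finset.sum_ite_eq' (range H) h1 (fun _ => (N : ℝ)),
                  if_pos (mem_range.2 hh1)]
                simp
      _ = H * N + H * H * B := by
          simp
          ring
  have hfin : ((H : ℝ) * S) ^ 2 ≤ ((N : ℝ) + Q * H) * (H * N + H * H * B) := by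
    refine hCS.trans ?_
    rw [hG2]
    exact mul_le_mul_of_nonneg_left hsum (by positivity)
  have h7 : (H : ℝ) ^ 2 * S ^ 2 ≤ (H : ℝ) ^ 2 * (((N : ℝ) + Q * H) / H * (N + 2 * H * B)) := by
    calc (H : ℝ) ^ 2 * S ^ 2 = ((H : ℝ) * S) ^ 2 := by ring
      _ ≤ ((N : ℝ) + Q * H) * (H * N + H * H * B) := hfin
      _ ≤ ((N : ℝ) + Q * H) * (H * N + 2 * H * H * B) := by
          apply mul_le_mul_of_nonneg_left _ (by positivity)
          have : 0 ≤ (H : ℝ) * H * B := by positivity
          linarith
      _ = (H : ℝ) ^ 2 * (((N : ℝ) + Q * H) / H * (N + 2 * H * B)) := by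
          field_simp
  exact le_of_mul_le_mul_left h7 (by positivity)

end Pool.Agent.Work.MP_e0c7e8_nt.SM
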