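import Pool.Agent.Work.MP_e0c7e8_nt.SM.Stmts
import Pool.Agent.Work.MP_e0c7e8_nt.SM.Basic

/-!
# Item G5: nonconstant parity is preserved
-/

set_option autoImplicit false

namespace Pool.Agent.Work.MP_e0c7e8_nt.SM

open Finset

namespace ItemG5

lemma cnt_append (l : ℕ) (A B : List ℤ) (r : ZMod l) :
    cnt l (A ++ B) r = cnt l A r + cnt l B r := by
  simp [cnt]

lemma cnt_shift (l : ℕ) (A : List ℤ) (t : ℤ) (r : ZMod l) :
    cnt l (A.map (fun a => a + t)) r = cnt l A (r - (t : ZMod l)) := by
  unfold cnt
  induction A with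
  | nil => simp
  | cons a A ih =>
    simp only [List.map_cons, List.count_cons] at ih ⊢
    rw [ih]
    congr 1
    have : ((((a + t : ℤ) : ZMod l) == r) : Bool) = (((a : ZMod l)) == r - (t : ZMod l)) := by
      rw [Bool.eq_iff_iff, beq_iff_eq, beq_iff_eq]
      push_cast
      exact eq_sub_iff_add_eq.symm
    rw [this]

lemma sum_cnt (l : ℕ) [NeZero l] (A : List ℤ) : ∑ r : ZMod l, cnt l A r = A.length := by
  induction A with
  | nil => simp [cnt]
  | cons a A ih =>
    have : ∀ r : ZMod l, cnt l (a :: A) r = cnt l A r + if (a : ZMod l) = r then 1 else 0 := by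
      intro r
      unfold cnt
      rw [List.map_cons, List.count_cons]
      congr 1
      simp
    simp_rw [this, Finset.sum_add_distrib, ih]
    simp

end ItemG5

open ItemG5 in
theorem claimG5 : ClaimG5 := by
  intro l hl hl2 A t ht hNc
  have hf : Fact l.Prime := ⟨hl⟩
  have hne : NeZero l := ⟨hl.ne_zero⟩
  have hodd : Odd l := hl.odd_of_ne_two hl2
  set A' := A ++ A.map (fun a => a + t) with hA'
  have hcnt : ∀ r : ZMod l, cnt l A' r = cnt l A r + cnt l A (r - (t : ZMod l)) := by
    intro r
    rw [hA', cnt_append, cnt_shift]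
  have ht0 : (t : ZMod l) ≠ 0 := by
    intro h
    exact ht ((ZMod.intCast_zmod_eq_zero_iff_dvd t l).1 h)
  have h1 : ∃ r, Odd (cnt l A' r) := by
    by_contra hcon
    push Not at hcon
    have hper : ∀ r : ZMod l, (Odd (cnt l A r) ↔ Odd (cnt l A (r - (t : ZMod l)))) := by
      intro r
      have := hcon r
      rw [hcnt, Nat.not_odd_iff_even, Nat.even_add] at this
      rw [← Nat.not_even_iff_odd, ← Nat.not_even_iff_odd]
      exact not_congr this
    have hper2 : ∀ (k : ℕ) (r : ZMod l),
        (Odd (cnt l A r) ↔ Odd (cnt l A (r - (k : ZMod l) * (t : ZMod l)))) := by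
      intro k
      induction k with
      | zero => intro r; simp
      | succ k ih =>
        intro r
        rw [ih r, hper (r - (k : ZMod l) * (t : ZMod l))]
        have : r - (k : ZMod l) * (t : ZMod l) - (t : ZMod l) =
            r - ((k + 1 : ℕ) : ZMod l) * (t : ZMod l) := by
          push_cast; ring
        rw [this]
    obtain ⟨r, r', hr, hr'⟩ := hNc
    apply hr'
    set k : ℕ := ((r - r') * (t : ZMod l)⁻¹).val with hk
    have h2 := (hper2 k r).1 hr
    have h3 : (k : ZMod l) = (r - r') * (t : ZMod l)⁻¹ := by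
      rw [hk, ZMod.natCast_val, ZMod.cast_id]
    have h4 : r - (k : ZMod l) * (t : ZMod l) = r' := by
      rw [h3, mul_assoc, inv_mul_cancel₀ ht0]
      ring
    rwa [h4] at h2
  have h2 : ∃ r, ¬ Odd (cnt l A' r) := by
    by_contra hcon
    push Not at hcon
    have hs := sum_cnt l A'
    have hlen : A'.length = 2 * A.length := by
      rw [hA', List.length_append, List.length_map]; ring
    have hsodd : Odd (∑ r : ZMod l, cnt l A' r) := by
      rw [Finset.odd_sum_iff_odd_card_odd]
      have : (Finset.univ.filter fun r : ZMod l => Odd (cnt l A' r)) = Finset.univ := by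
        apply Finset.filter_true_of_mem
        intro r _
        exact hcon r
      rw [this, Finset.card_univ, ZMod.card]
      exact hodd
    rw [hs, hlen] at hsodd
    exact (Nat.not_odd_iff_even.2 (even_two_mul _)) hsodd
  obtain ⟨r, hr⟩ := h1
  obtain ⟨r', hr'⟩ := h2
  exact ⟨r, r', hr, hr'⟩

end Pool.Agent.Work.MP_e0c7e8_nt.SM
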