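import Pool.Agent.Work.MP_e0c7e8_nt.SM.Stmts
import Pool.Agent.Work.MP_e0c7e8_nt.SM.Basic

/-!
# Item G6: iteration of the van der Corput step
-/

set_option autoImplicit false

namespace Pool.Agent.Work.MP_e0c7e8_nt.SM

open Finset

namespace ItemG6

lemma SB_mono {g : ℤ → ℝ} {N : ℕ} {B B' : ℝ} (h : SB g N B) (hB : B ≤ B') : SB g N B' :=
  fun M L hL => (h M L hL).trans hB

/-- the numerical step -/
lemma num_step {N H Q : ℕ} {δ S : ℝ} {j : ℕ} (hN : 0 < N) (hH : 0 < H) (hδ : 0 < δ) (hδ1 : δ ≤ 1)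
    (h1 : 1 / (H : ℝ) ≤ δ) (hQ : Q * H ≤ N)
    (hS : S ^ 2 ≤ ((N : ℝ) + Q * H) / H * (N + 2 * H * (8 * N * δ ^ ((1 : ℝ) / 2 ^ j)))) :
    |S| ≤ 8 * N * δ ^ ((1 : ℝ) / 2 ^ (j + 1)) := by
  have hN' : (0 : ℝ) < N := by exact_mod_cast hN
  have hH' : (0 : ℝ) < H := by exact_mod_cast hH
  set δ' := δ ^ ((1 : ℝ) / 2 ^ j) with hδ'
  have hδ'0 : 0 < δ' := Real.rpow_pos_of_pos hδ _
  have hle : δ ≤ δ' := by
    calc δ = δ ^ (1 : ℝ) := (Real.rpow_one δ).symm
      _ ≤ δ' := by
        apply Real.rpow_le_rpow_of_exponent_ge hδ hδ1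
        rw [div_le_one (by positivity)]
        exact one_le_pow₀ (by norm_num)
  have hsq : (δ ^ ((1 : ℝ) / 2 ^ (j + 1))) ^ 2 = δ' := by
    rw [hδ', ← Real.rpow_natCast, ← Real.rpow_mul hδ.le]
    congr 1
    rw [pow_succ]
    field_simp
    push_cast
    ring
  have hQ' : (Q : ℝ) * H ≤ N := by exact_mod_cast hQ
  have h2 : S ^ 2 ≤ (8 * N * δ ^ ((1 : ℝ) / 2 ^ (j + 1))) ^ 2 := by
    calc S ^ 2 ≤ ((N : ℝ) + Q * H) / H * (N + 2 * H * (8 * N * δ')) := hS
      _ ≤ ((N : ℝ) + N) / H * (N + 2 * H * (8 * N * δ')) := by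
          apply mul_le_mul_of_nonneg_right _ (by positivity)
          apply div_le_div_of_nonneg_right _ hH'.le
          linarith
      _ = 2 * N ^ 2 * (1 / H) + 32 * N ^ 2 * δ' := by
          field_simp
          ring
      _ ≤ 2 * N ^ 2 * δ' + 32 * N ^ 2 * δ' := by
          have := h1.trans hle
          have h3 : 2 * (N : ℝ) ^ 2 * (1 / H) ≤ 2 * N ^ 2 * δ' :=
            mul_le_mul_of_nonneg_left this (by positivity)
          linarith
      _ ≤ 64 * N ^ 2 * δ' := by nlinarith [sq_nonneg (N : ℝ), hδ'0, mul_pos (pow_pos hN' 2) hδ'0]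
      _ = (8 * N * δ ^ ((1 : ℝ) / 2 ^ (j + 1))) ^ 2 := by
          rw [mul_pow, mul_pow, hsq]; norm_num
  have h3 : 0 ≤ 8 * (N : ℝ) * δ ^ ((1 : ℝ) / 2 ^ (j + 1)) := by positivity
  exact abs_le_of_sq_le_sq h2 h3

end ItemG6

open ItemG6 in
theorem claimG6 (h3 : ClaimG3) (h4 : ClaimG4) (h5 : ClaimG5) : ClaimG6 := by
  intro qs
  induction qs with
  | nil =>
    intro m A u N H δ hmo hms hA hu hH hN hδ hδ1 hHδ _ _ _ hbad hfin
    have hmR : (0 : ℝ) < m := by exact_mod_cast hmo.pos
    have hNR : (0 : ℝ) < N := by exact_mod_cast hN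
    have h := h3 m hmo hms A u hu hA hbad N
    simp only [List.prod_nil, one_mul, List.length_nil, pow_zero, mul_one, div_one,
      Real.rpow_one] at hfin ⊢
    apply SB_mono h
    have e1 : (N : ℝ) / m * ((A.length : ℝ) ^ m.primeFactors.card * Real.sqrt (m * u)) + m =
        N * ((A.length : ℝ) ^ m.primeFactors.card * Real.sqrt u / Real.sqrt m + m / N) := by
      rw [Real.sqrt_mul hmR.le]
      have h1 : Real.sqrt m * Real.sqrt m = m := Real.mul_self_sqrt hmR.le
      have h2 : Real.sqrt m ≠ 0 := (Real.sqrt_pos.2 hmR).ne'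
      have h4 : Real.sqrt m / m = 1 / Real.sqrt m := by
        rw [div_eq_div_iff hmR.ne' h2, h1, one_mul]
      calc (N : ℝ) / m * ((A.length : ℝ) ^ m.primeFactors.card * (Real.sqrt m * Real.sqrt u)) + m
          = N * ((A.length : ℝ) ^ m.primeFactors.card * Real.sqrt u * (Real.sqrt m / m)) +
            N * (m / N) := by
            rw [mul_div_cancel₀ _ hNR.ne']
            ring
        _ = _ := by rw [h4]; ring
    rw [e1]
    calc (N : ℝ) * ((A.length : ℝ) ^ m.primeFactors.card * Real.sqrt u / Real.sqrt m + m / N)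
        ≤ N * δ := mul_le_mul_of_nonneg_left hfin hNR.le
      _ ≤ 8 * N * δ := by nlinarith [mul_pos hNR hδ]
  | cons q qs ih =>
    intro m A u N H δ hmo hms hA hu hH hN hδ hδ1 hHδ hq hcop hpos hbad hfin
    have hq0 : 0 < q := hpos q (by simp)
    have hprod : 0 < qs.prod * m := by
      apply Nat.mul_pos _ hmo.pos
      apply Nat.pos_of_ne_zero
      apply List.prod_ne_zero
      intro h0
      exact absurd (hpos 0 (by simp [h0])) (by omega)
    have hne1 : NeZero q := ⟨hq0.ne'⟩
    have hne2 : NeZero (qs.prod * m) := ⟨hprod.ne'⟩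
    have hNR : (0 : ℝ) < N := by exact_mod_cast hN
    have hHR : (0 : ℝ) < H := by exact_mod_cast hH
    have hIH : ∀ h : ℕ, 1 ≤ h → h < H →
        SB (fun n => PJ (qs.prod * m) A n * PJ (qs.prod * m) A (n + ((8 * q : ℕ) : ℤ) * h)) N
          (8 * N * δ ^ ((1 : ℝ) / 2 ^ qs.length)) := by
      intro h hh1 hhH
      have e : (fun n => PJ (qs.prod * m) A n * PJ (qs.prod * m) A (n + ((8 * q : ℕ) : ℤ) * h)) =
          PJ (qs.prod * m) (A ++ A.map (fun a => a + ((8 * q : ℕ) : ℤ) * h)) := by
        funext n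
        rw [PJ_append, PJ_shift]
      rw [e]
      apply ih m (A ++ A.map (fun a => a + ((8 * q : ℕ) : ℤ) * h)) (u * h) N H δ hmo hms
        (by simp [hA]) (Nat.mul_pos hu (by omega)) hH hN hδ hδ1 hHδ
        (fun x hx => hq x (by simp [hx])) (fun x hx => hcop x (by simp [hx]))
        (fun x hx => hpos x (by simp [hx]))
      · intro l hl hlm hnc
        by_cases hncA : Nc l A
        · have hl2 : l ≠ 2 := by
            rintro rfl
            exact (Nat.not_even_iff_odd.2 hmo) (even_iff_two_dvd.2 hlm)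
          have hdvd : (l : ℤ) ∣ ((8 * q : ℕ) : ℤ) * h := by
            by_contra hcon
            exact hnc (h5 l hl hl2 A _ hcon hncA)
          have hdvd' : l ∣ 8 * q * h := by exact_mod_cast hdvd
          have h8 : ¬ l ∣ 8 * q := by
            intro h
            rcases (hl.dvd_mul).1 h with h | h
            · have : l ∣ 2 := hl.dvd_of_dvd_pow (show l ∣ 2 ^ 3 by simpa using h)
              exact hl2 ((Nat.prime_dvd_prime_iff_eq hl Nat.prime_two).1 this)
            · have hc := hcop q (by simp)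
              have := Nat.dvd_gcd h hlm
              rw [Nat.Coprime] at hc
              rw [hc] at this
              exact hl.one_lt.ne' (Nat.dvd_one.1 this)
          rcases (hl.dvd_mul).1 hdvd' with h | h
          · exact absurd h h8
          · exact Dvd.dvd.mul_left h u
        · exact Dvd.dvd.mul_right (hbad l hl hlm hncA) h
      · refine le_trans ?_ hfin
        apply add_le_add_left
        apply div_le_div_of_nonneg_right _ (Real.sqrt_nonneg _)
        have e2 : (((A ++ A.map (fun a => a + ((8 * q : ℕ) : ℤ) * h)).length : ℕ) : ℝ) *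
            2 ^ qs.length = (A.length : ℝ) * 2 ^ (q :: qs).length := by
          rw [List.length_append, List.length_map, List.length_cons]
          push_cast
          ring
        rw [e2]
        apply mul_le_mul_of_nonneg_left _ (by positivity)
        apply Real.sqrt_le_sqrt
        rw [List.length_cons, pow_succ]
        have : (h : ℝ) ≤ H := by exact_mod_cast hhH.le
        push_cast
        calc (u : ℝ) * h * (H : ℝ) ^ qs.length ≤ (u : ℝ) * H * (H : ℝ) ^ qs.length := by
              gcongr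
          _ = (u : ℝ) * ((H : ℝ) ^ qs.length * H) := by ring
    intro M L hL
    have hv := h4 (PJ q A) (PJ (qs.prod * m) A) (8 * q) N H (8 * N * δ ^ ((1 : ℝ) / 2 ^ qs.length))
      (abs_PJ_le _ _) (abs_PJ_le _ _)
      (fun n => by
        have := PJ_periodic q A n 8
        push_cast
        exact this) hH (by positivity) hIH M L hL
    have e3 : (fun n => PJ q A n * PJ (qs.prod * m) A n) = PJ ((q :: qs).prod * m) A := by
      funext n
      rw [List.prod_cons, mul_assoc, PJ_mul q (qs.prod * m)]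
    rw [e3] at hv
    rw [List.length_cons]
    refine num_step hN hH hδ hδ1 hHδ (hq q (by simp)) hv

end Pool.Agent.Work.MP_e0c7e8_nt.SM
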