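import Pool.Agent.Work.MP_e0c7e8_nt.SM.ItemG6

/-!
# Item G6b: iteration with a function of period 8
-/

set_option autoImplicit false

namespace Pool.Agent.Work.MP_e0c7e8_nt.SM

open Finset ItemG6

theorem claimG6b (h4 : ClaimG4) (h6 : ClaimG6) : ClaimG6b := by
  intro q0 qs m N H δ ψ hψ hper hmo hms hH hN hδ hδ1 hHδ hq hcop hpos hfin
  have hq0 : 0 < q0 := hpos q0 (by simp)
  have hprod : 0 < qs.prod * m := by
    apply Nat.mul_pos _ hmo.pos
    apply Nat.pos_of_ne_zero
    apply List.prod_ne_zero
    intro h0
    exact absurd (hpos 0 (by simp [h0])) (by omega)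
  have hne1 : NeZero q0 := ⟨hq0.ne'⟩
  have hne2 : NeZero (qs.prod * m) := ⟨hprod.ne'⟩
  have hperk : ∀ (k : ℕ) (n : ℤ), ψ (n + 8 * k) = ψ n := by
    intro k
    induction k with
    | zero => intro n; simp
    | succ k ih =>
      intro n
      have : n + 8 * ((k + 1 : ℕ) : ℤ) = (n + 8 * k) + 8 := by push_cast; ring
      rw [this, hper, ih]
  have hIH : ∀ h : ℕ, 1 ≤ h → h < H →
      SB (fun n => PJ (qs.prod * m) [0] n * PJ (qs.prod * m) [0] (n + ((8 * q0 : ℕ) : ℤ) * h)) N
        (8 * N * δ ^ ((1 : ℝ) / 2 ^ qs.length)) := by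
    intro h hh1 hhH
    have e : (fun n => PJ (qs.prod * m) [0] n * PJ (qs.prod * m) [0] (n + ((8 * q0 : ℕ) : ℤ) * h)) =
        PJ (qs.prod * m) [0, 0 + ((8 * q0 : ℕ) : ℤ) * h] := by
      funext n
      rw [← PJ_shift, ← PJ_append]
      rfl
    rw [e]
    apply h6 qs m [0, 0 + ((8 * q0 : ℕ) : ℤ) * h] h N H δ hmo hms
      (by simp) (by omega) hH hN hδ hδ1 hHδ
      (fun x hx => hq x (by simp [hx])) (fun x hx => hcop x (by simp [hx]))
      (fun x hx => hpos x (by simp [hx]))
    · intro l hl hlm hnc
      have hl2 : l ≠ 2 := by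
        rintro rfl
        exact (Nat.not_even_iff_odd.2 hmo) (even_iff_two_dvd.2 hlm)
      have hf : Fact l.Prime := ⟨hl⟩
      have hl3 : 3 ≤ l := by
        have := hl.two_le
        omega
      have hdvd : (l : ℤ) ∣ ((8 * q0 : ℕ) : ℤ) * h := by
        by_contra hcon
        apply hnc
        have ht : ((((8 * q0 : ℕ) : ℤ) * h : ℤ) : ZMod l) ≠ 0 := by
          intro h0
          exact hcon ((ZMod.intCast_zmod_eq_zero_iff_dvd _ l).1 h0)
        set t : ZMod l := ((((8 * q0 : ℕ) : ℤ) * h : ℤ) : ZMod l) with htdef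
        obtain ⟨r', hr'⟩ : ∃ r' : ZMod l, r' ≠ 0 ∧ r' ≠ t := by
          by_contra hcon2
          push Not at hcon2
          have : (Finset.univ : Finset (ZMod l)) ⊆ {0, t} := by
            intro x _
            rw [mem_insert, mem_singleton]
            by_cases hx : x = 0
            · exact Or.inl hx
            · exact Or.inr (hcon2 x hx)
          have h5 := Finset.card_le_card this
          rw [Finset.card_univ, ZMod.card] at h5
          have h6 := Finset.card_le_two (a := (0 : ZMod l)) (b := t)
          omega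
        refine ⟨0, r', ?_, ?_⟩
        · have : cnt l [0, 0 + ((8 * q0 : ℕ) : ℤ) * h] (0 : ZMod l) = 1 := by
            unfold cnt
            simp only [List.map_cons, List.map_nil, List.count_cons, List.count_nil, zero_add]
            rw [← htdef]
            simp [ht]
          rw [this]
          exact odd_one
        · have : cnt l [0, 0 + ((8 * q0 : ℕ) : ℤ) * h] r' = 0 := by
            unfold cnt
            simp only [List.map_cons, List.map_nil, List.count_cons, List.count_nil, zero_add]
            rw [← htdef]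
            have e1 : ((((0 : ℤ) : ZMod l) == r') : Bool) = false := by
              rw [Int.cast_zero, beq_eq_false_iff_ne]
              exact fun h => hr'.1 h.symm
            have e2 : ((t == r') : Bool) = false := by
              rw [beq_eq_false_iff_ne]
              exact fun h => hr'.2 h.symm
            rw [e1, e2]
            simp
          rw [this]
          decide
      have hdvd' : l ∣ 8 * q0 * h := by exact_mod_cast hdvd
      have h8 : ¬ l ∣ 8 * q0 := by
        intro h
        rcases (hl.dvd_mul).1 h with h | h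
        · have : l ∣ 2 := hl.dvd_of_dvd_pow (show l ∣ 2 ^ 3 by simpa using h)
          exact hl2 ((Nat.prime_dvd_prime_iff_eq hl Nat.prime_two).1 this)
        · have hc := hcop q0 (by simp)
          have := Nat.dvd_gcd h hlm
          rw [Nat.Coprime] at hc
          rw [hc] at this
          exact hl.one_lt.ne' (Nat.dvd_one.1 this)
      rcases (hl.dvd_mul).1 hdvd' with h | h
      · exact absurd h h8
      · exact h
    · refine le_trans ?_ hfin
      apply add_le_add_left
      apply div_le_div_of_nonneg_right _ (Real.sqrt_nonneg _)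
      have e2 : ((([0, 0 + ((8 * q0 : ℕ) : ℤ) * h] : List ℤ).length : ℕ) : ℝ) *
          2 ^ qs.length = 2 ^ (qs.length + 1) := by
        simp only [List.length_cons, List.length_nil]
        push_cast
        ring
      rw [e2]
      apply mul_le_mul_of_nonneg_left _ (by positivity)
      apply Real.sqrt_le_sqrt
      rw [pow_succ]
      have : (h : ℝ) ≤ H := by exact_mod_cast hhH.le
      calc (h : ℝ) * (H : ℝ) ^ qs.length ≤ (H : ℝ) * (H : ℝ) ^ qs.length := by
            gcongr
        _ = (H : ℝ) ^ qs.length * H := by ring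
  have hPJ0 : ∀ (q : ℕ) (n : ℤ), PJ q [0] n = ((jacobiSym n q : ℤ) : ℝ) := by
    intro q n
    simp [PJ]
  intro M L hL
  have hv := h4 (fun n => ψ n * PJ q0 [0] n) (PJ (qs.prod * m) [0]) (8 * q0) N H
    (8 * N * δ ^ ((1 : ℝ) / 2 ^ qs.length))
    (fun n => by
      rw [abs_mul]
      calc |ψ n| * |PJ q0 [0] n| ≤ 1 * 1 :=
            mul_le_mul (hψ n) (abs_PJ_le _ _ _) (abs_nonneg _) zero_le_one
        _ = 1 := one_mul 1)
    (abs_PJ_le _ _)
    (fun n => by
      have h7 := PJ_periodic q0 [0] n 8
      have h8 := hperk q0 n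
      push_cast
      rw [h7, h8]) hH (by positivity) hIH M L hL
  have e3 : (fun n => ψ n * PJ q0 [0] n * PJ (qs.prod * m) [0] n) =
      (fun n => ψ n * ((jacobiSym n (q0 * (qs.prod * m)) : ℤ) : ℝ)) := by
    funext n
    rw [mul_assoc, ← PJ_mul q0 (qs.prod * m), hPJ0]
  rw [e3] at hv
  exact num_step hN hH hδ hδ1 hHδ (hq q0 (by simp)) hv

end Pool.Agent.Work.MP_e0c7e8_nt.SM
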