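import Pool.Agent.Work.MP_e0c7e8_nt.SM.Stmts
import Pool.Agent.Work.MP_e0c7e8_nt.SM.Basic

/-!
# Item G7: factorization of a smooth number
-/

set_option autoImplicit false

namespace Pool.Agent.Work.MP_e0c7e8_nt.SM

open Finset

namespace ItemG7

/-- Merging entries as long as possible. -/
theorem merge (B : ℝ) (k : ℕ) : ∀ L : List ℕ, L.length ≤ k → (∀ x ∈ L, 1 ≤ x ∧ (x : ℝ) ≤ B) →
    ∃ L' : List ℕ, L'.prod = L.prod ∧ (∀ x ∈ L', 1 ≤ x ∧ (x : ℝ) ≤ B) ∧ L'.length ≤ L.length ∧
      L'.Pairwise (fun x y : ℕ => B < (x : ℝ) * y) := by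
  induction k with
  | zero =>
    intro L hL _
    have h0 : L = [] := List.eq_nil_of_length_eq_zero (by omega)
    subst h0
    exact ⟨[], rfl, by simp, le_rfl, List.Pairwise.nil⟩
  | succ k ih =>
    intro L hL hB
    rcases L with _ | ⟨a, L0⟩
    · exact ⟨[], rfl, by simp, le_rfl, List.Pairwise.nil⟩
    · have hlen : L0.length ≤ k := by
        simp only [List.length_cons] at hL
        omega
      obtain ⟨L1, hp, hb, hl, hpw⟩ := ih L0 hlen (fun x hx => hB x (List.mem_cons_of_mem _ hx))
      have ha := hB a List.mem_cons_self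
      by_cases hall : ∀ x ∈ L1, B < (a : ℝ) * x
      · refine ⟨a :: L1, ?_, ?_, ?_, List.Pairwise.cons hall hpw⟩
        · rw [List.prod_cons, List.prod_cons, hp]
        · intro x hx
          rcases List.mem_cons.1 hx with rfl | hx
          · exact ha
          · exact hb x hx
        · simp only [List.length_cons]
          omega
      · push Not at hall
        obtain ⟨x, hx, hax⟩ := hall
        have hperm : L1.Perm (x :: L1.erase x) := List.perm_cons_erase hx
        have hprod : L1.prod = x * (L1.erase x).prod := by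
          rw [hperm.prod_eq, List.prod_cons]
        have hlen1 : L1.length = (L1.erase x).length + 1 := by
          rw [hperm.length_eq, List.length_cons]
        have hlen2 : ((a * x) :: L1.erase x).length ≤ k := by
          rw [List.length_cons, ← hlen1]
          omega
        obtain ⟨L2, hp2, hb2, hl2, hpw2⟩ := ih ((a * x) :: L1.erase x) hlen2 (by
          intro y hy
          rcases List.mem_cons.1 hy with rfl | hy
          · refine ⟨Nat.mul_pos ha.1 (hb x hx).1, ?_⟩
            push_cast
            exact hax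
          · exact hb y (List.mem_of_mem_erase hy))
        refine ⟨L2, ?_, hb2, ?_, hpw2⟩
        · rw [hp2, List.prod_cons, List.prod_cons, ← hp, hprod]
          ring
        · rw [List.length_cons, ← hlen1] at hl2
          rw [List.length_cons]
          omega

theorem pairs_one (B a : ℝ) (hB : 0 < B) (ha : 0 ≤ a) : ∀ l : List ℕ, l ≠ [] →
    (∀ x ∈ l, B < a * x) → B ^ l.length < a ^ l.length * (l.prod : ℝ) := by
  intro l
  induction l with
  | nil => intro h; exact absurd rfl h
  | cons b l ih =>
    intro _ hx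
    have h1 := hx b List.mem_cons_self
    by_cases hl : l = []
    · subst hl
      simpa using h1
    · have h2 := ih hl (fun x hx' => hx x (List.mem_cons_of_mem _ hx'))
      have h3 : B ^ l.length * B < (a ^ l.length * (l.prod : ℝ)) * (a * b) := by
        have h4 : (0 : ℝ) < B ^ l.length := pow_pos hB _
        exact mul_lt_mul'' h2 h1 h4.le hB.le
      rw [List.length_cons, pow_succ, pow_succ, List.prod_cons, Nat.cast_mul]
      calc B ^ l.length * B < (a ^ l.length * (l.prod : ℝ)) * (a * b) := h3
        _ = _ := by ring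

theorem pairs (B : ℝ) (hB : 0 < B) : ∀ l : List ℕ,
    l.Pairwise (fun x y : ℕ => B < (x : ℝ) * y) →
    (1 ≤ l.length → B ^ (l.length * (l.length - 1)) ≤ ((l.prod : ℝ) ^ (l.length - 1)) ^ 2) ∧
    (2 ≤ l.length → B ^ (l.length * (l.length - 1)) < ((l.prod : ℝ) ^ (l.length - 1)) ^ 2) := by
  intro l
  induction l with
  | nil => intro _; simp
  | cons a l ih =>
    intro h
    rw [List.pairwise_cons] at h
    obtain ⟨ha, hl⟩ := h
    obtain ⟨i1, -⟩ := ih hl
    by_cases h0 : l = []
    · subst h0
      simp
    · have hlen : 1 ≤ l.length := by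
        rcases l with _ | ⟨b, l'⟩
        · exact absurd rfl h0
        · simp
      have k1 := pairs_one B a hB (Nat.cast_nonneg a) l h0 (fun x hx => ha x hx)
      have k2 := i1 hlen
      obtain ⟨u, hu⟩ : ∃ u, l.length = u + 1 := ⟨l.length - 1, by omega⟩
      have k3 : B ^ ((a :: l).length * ((a :: l).length - 1)) <
          (((a :: l).prod : ℝ) ^ ((a :: l).length - 1)) ^ 2 := by
        simp only [List.length_cons, List.prod_cons, Nat.add_sub_cancel]
        rw [hu] at k1 k2 ⊢
        simp only [Nat.add_sub_cancel] at k2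
        rw [Nat.cast_mul]
        have e1 : B ^ ((u + 1 + 1) * (u + 1)) = (B ^ (u + 1)) ^ 2 * B ^ ((u + 1) * u) := by
          rw [← pow_mul, ← pow_add]
          congr 1
          ring
        have e2 : (((a : ℝ) * (l.prod : ℝ)) ^ (u + 1)) ^ 2 =
            ((a : ℝ) ^ (u + 1) * (l.prod : ℝ)) ^ 2 * ((l.prod : ℝ) ^ u) ^ 2 := by
          ring
        rw [e1, e2]
        have p1 : (0 : ℝ) < B ^ (u + 1) := pow_pos hB _
        have p2 : (0 : ℝ) < B ^ ((u + 1) * u) := pow_pos hB _
        have q1 : (B ^ (u + 1)) ^ 2 < ((a : ℝ) ^ (u + 1) * (l.prod : ℝ)) ^ 2 :=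
          pow_lt_pow_left₀ k1 p1.le (by norm_num)
        calc (B ^ (u + 1)) ^ 2 * B ^ ((u + 1) * u)
            < ((a : ℝ) ^ (u + 1) * (l.prod : ℝ)) ^ 2 * B ^ ((u + 1) * u) :=
              mul_lt_mul_of_pos_right q1 p2
          _ ≤ _ := mul_le_mul_of_nonneg_left k2 (sq_nonneg _)
      exact ⟨fun _ => k3.le, fun _ => k3⟩

theorem length_lt (B : ℝ) (hB : 1 < B) (l : List ℕ) (s : ℕ)
    (h : l.Pairwise (fun x y : ℕ => B < (x : ℝ) * y)) (hs : (l.prod : ℝ) ^ 2 ≤ B ^ (s + 1)) :
    l.length ≤ s + 1 := by
  by_contra hcon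
  push Not at hcon
  have h2 : 2 ≤ l.length := by omega
  have k := (pairs B (by linarith) l h).2 h2
  have e1 : B ^ (l.length * (l.length - 1)) = (B ^ l.length) ^ (l.length - 1) := by
    rw [pow_mul]
  have e2 : ((l.prod : ℝ) ^ (l.length - 1)) ^ 2 = ((l.prod : ℝ) ^ 2) ^ (l.length - 1) := by
    ring
  rw [e1, e2] at k
  have k2 : B ^ l.length < (l.prod : ℝ) ^ 2 := lt_of_pow_lt_pow_left₀ _ (sq_nonneg _) k
  have k3 : B ^ l.length < B ^ (s + 1) := lt_of_lt_of_le k2 hs
  have k4 := (pow_lt_pow_iff_right₀ hB).1 k3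
  omega

end ItemG7

theorem claimG7 : ClaimG7 := by
  intro q s B hq hB hp hs
  have hq0 : q ≠ 0 := hq.ne_zero
  obtain ⟨L, hprod, hb, -, hpw⟩ := ItemG7.merge B q.primeFactorsList.length q.primeFactorsList
    le_rfl (by
      intro x hx
      have hx1 := Nat.prime_of_mem_primeFactorsList hx
      exact ⟨hx1.one_lt.le, hp x hx1 (Nat.dvd_of_mem_primeFactorsList hx)⟩)
  rw [Nat.prod_primeFactorsList hq0] at hprod
  have hlen : L.length ≤ s + 1 := ItemG7.length_lt B hB L s hpw (by rw [hprod]; exact hs)
  by_cases h0 : L = []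
  · subst h0
    refine ⟨List.replicate s 1, 1, by simp, ?_, ?_, ?_, ?_⟩
    · simpa using hprod
    · intro x hx
      rw [List.eq_of_mem_replicate hx]
      simpa using hB.le
    · simpa using hB.le
    · rw [← hprod]
      simp
  · have hne : L.toFinset.Nonempty := by
      rw [List.toFinset_nonempty_iff]
      exact h0
    obtain ⟨m, hm, hmax⟩ := Finset.exists_max_image L.toFinset id hne
    have hmL : m ∈ L := List.mem_toFinset.1 hm
    have hperm : L.Perm (m :: L.erase m) := List.perm_cons_erase hmL
    have hprod2 : L.prod = m * (L.erase m).prod := by rw [hperm.prod_eq, List.prod_cons]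
    have hlen2 : L.length = (L.erase m).length + 1 := by rw [hperm.length_eq, List.length_cons]
    refine ⟨L.erase m ++ List.replicate (s - (L.erase m).length) 1, m, ?_, ?_, ?_,
      (hb m hmL).2, ?_⟩
    · rw [List.length_append, List.length_replicate]
      omega
    · rw [List.prod_append, List.prod_replicate, one_pow, mul_one, ← hprod, hprod2]
      ring
    · intro x hx
      rcases List.mem_append.1 hx with hx | hx
      · exact (hb x (List.mem_of_mem_erase hx)).2
      · rw [List.eq_of_mem_replicate hx]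
        simpa using hB.le
    · have h1 : L.prod ≤ m ^ L.length := by
        refine List.prod_le_pow_card L m ?_
        intro x hx
        exact hmax x (List.mem_toFinset.2 hx)
      rw [← hprod]
      refine h1.trans ?_
      exact Nat.pow_le_pow_right (hb m hmL).1 hlen

end Pool.Agent.Work.MP_e0c7e8_nt.SM
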