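import Pool.Agent.Work.MP_e0c7e8_nt.SM.Stmts
import Pool.Agent.Work.MP_e0c7e8_nt.SM.Basic

/-!
# Item G8: short sums of Jacobi symbols to smooth moduli
-/

set_option autoImplicit false

namespace Pool.Agent.Work.MP_e0c7e8_nt.SM

open Finset Filter Topology

namespace ItemG8

lemma abs_le_one {ψ : ℤ → ℝ} (hψ : ∀ n, |ψ n| ≤ 1) (q : ℕ) (n : ℤ) :
    |ψ n * ((jacobiSym n q : ℤ) : ℝ)| ≤ 1 := by
  rw [abs_mul]
  have h : |((jacobiSym n q : ℤ) : ℝ)| ≤ 1 := by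
    rcases jacobiSym.trichotomy n q with h | h | h <;> rw [h] <;> norm_num
  calc |ψ n| * |((jacobiSym n q : ℤ) : ℝ)| ≤ 1 * 1 :=
        mul_le_mul (hψ n) h (abs_nonneg _) zero_le_one
    _ = 1 := one_mul 1

/-- the lower bound for the square root of `m` -/
lemma sqrt_lower {Y η : ℝ} (hY : 1 ≤ Y) {s m q : ℕ}
    (h1 : Y ^ η / 8 ≤ q) (h2 : q ≤ m ^ (s + 1)) :
    Y ^ (η / (2 * ((s : ℝ) + 1))) / 8 ≤ Real.sqrt m := by
  have hY0 : 0 < Y := by linarith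
  have hk : (2 * (s + 1)) ≠ 0 := by omega
  rw [← pow_le_pow_iff_left₀ (by positivity) (Real.sqrt_nonneg _) hk]
  have e1 : Real.sqrt m ^ (2 * (s + 1)) = (m : ℝ) ^ (s + 1) := by
    rw [pow_mul, Real.sq_sqrt (Nat.cast_nonneg m)]
  have e2 : (Y ^ (η / (2 * ((s : ℝ) + 1))) / 8) ^ (2 * (s + 1)) =
      Y ^ η / 8 ^ (2 * (s + 1)) := by
    rw [div_pow, ← Real.rpow_natCast (Y ^ (η / (2 * ((s : ℝ) + 1)))) (2 * (s + 1)),
      ← Real.rpow_mul hY0.le]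
    congr 2
    push_cast
    field_simp
  rw [e1, e2]
  have h3 : (q : ℝ) ≤ (m : ℝ) ^ (s + 1) := by exact_mod_cast h2
  refine le_trans ?_ (h1.trans h3)
  have h8 : (8 : ℝ) ≤ 8 ^ (2 * (s + 1)) := by
    calc (8 : ℝ) = 8 ^ 1 := (pow_one _).symm
      _ ≤ 8 ^ (2 * (s + 1)) := pow_le_pow_right₀ (by norm_num) (by omega)
  exact div_le_div_of_nonneg_left (Real.rpow_nonneg hY0.le _) (by norm_num) h8

/-- the main condition of the iteration -/
lemma main_cond {Y η κ ι C1 : ℝ} {s m q N H : ℕ} (hη : 0 < η) (hY : 1 ≤ Y)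
    (hκ : κ = η / (16 * ((s : ℝ) + 1) ^ 2)) (hι : ι = η / (8 * ((s : ℝ) + 1)))
    (hC1 : 0 < C1) (hK : ((2 : ℝ) ^ s) ^ m.primeFactors.card ≤ C1 * (m : ℝ) ^ ι)
    (h1 : Y ^ η / 8 ≤ q) (h2 : q ≤ m ^ (s + 1)) (hm : (m : ℝ) ≤ Y)
    (hH : (H : ℝ) ≤ Y ^ κ) (hN : 0 < N) (hmB : (m : ℝ) ≤ (N : ℝ) / Y ^ η) :
    ((2 : ℝ) ^ s) ^ m.primeFactors.card * Real.sqrt ((H : ℝ) ^ s) / Real.sqrt m +
      (m : ℝ) / N ≤ (8 * C1 + 2) * Y ^ (-κ) := by
  have hY0 : 0 < Y := by linarith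
  have hs0 : (0 : ℝ) ≤ s := Nat.cast_nonneg s
  have hκ0 : 0 < κ := by rw [hκ]; positivity
  have hι0 : 0 < ι := by rw [hι]; positivity
  have hNr : (0 : ℝ) < N := by exact_mod_cast hN
  have hlow := sqrt_lower hY h1 h2
  have hYp : 0 < Y ^ (η / (2 * ((s : ℝ) + 1))) / 8 := by positivity
  have hsq : 0 < Real.sqrt m := lt_of_lt_of_le hYp hlow
  have a1 : ((2 : ℝ) ^ s) ^ m.primeFactors.card ≤ C1 * Y ^ ι := by
    refine hK.trans (mul_le_mul_of_nonneg_left ?_ hC1.le)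
    exact Real.rpow_le_rpow (Nat.cast_nonneg m) hm hι0.le
  have a2 : Real.sqrt ((H : ℝ) ^ s) ≤ Y ^ (κ * s / 2) := by
    have b1 : (H : ℝ) ^ s ≤ (Y ^ κ) ^ s := pow_le_pow_left₀ (Nat.cast_nonneg H) hH s
    have b2 : (Y ^ κ) ^ s = (Y ^ (κ * s / 2)) ^ 2 := by
      rw [← Real.rpow_natCast (Y ^ κ) s, ← Real.rpow_mul hY0.le,
        ← Real.rpow_natCast (Y ^ (κ * s / 2)) 2, ← Real.rpow_mul hY0.le]
      congr 1
      push_cast
      ring
    rw [b2] at b1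
    exact (Real.sqrt_le_sqrt b1).trans_eq (Real.sqrt_sq (Real.rpow_nonneg hY0.le _))
  have a3 : ((2 : ℝ) ^ s) ^ m.primeFactors.card * Real.sqrt ((H : ℝ) ^ s) / Real.sqrt m ≤
      (C1 * Y ^ ι) * Y ^ (κ * s / 2) / (Y ^ (η / (2 * ((s : ℝ) + 1))) / 8) := by
    have b1 : ((2 : ℝ) ^ s) ^ m.primeFactors.card * Real.sqrt ((H : ℝ) ^ s) ≤
        (C1 * Y ^ ι) * Y ^ (κ * s / 2) :=
      mul_le_mul a1 a2 (Real.sqrt_nonneg _) (by positivity)
    exact div_le_div₀ (by positivity) b1 hYp hlow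
  have a4 : (C1 * Y ^ ι) * Y ^ (κ * s / 2) / (Y ^ (η / (2 * ((s : ℝ) + 1))) / 8) =
      8 * C1 * Y ^ (ι + κ * s / 2 - η / (2 * ((s : ℝ) + 1))) := by
    rw [Real.rpow_sub hY0, Real.rpow_add hY0]
    field_simp
  have hexp : ι + κ * s / 2 - η / (2 * ((s : ℝ) + 1)) ≤ -κ := by
    have e1 : η / (2 * ((s : ℝ) + 1)) = 8 * ((s : ℝ) + 1) * κ := by
      rw [hκ]
      field_simp
      ring
    have e2 : ι = 2 * ((s : ℝ) + 1) * κ := by
      rw [hκ, hι]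
      field_simp
      ring
    rw [e1, e2]
    nlinarith
  have a5 : 8 * C1 * Y ^ (ι + κ * s / 2 - η / (2 * ((s : ℝ) + 1))) ≤ 8 * C1 * Y ^ (-κ) :=
    mul_le_mul_of_nonneg_left (Real.rpow_le_rpow_of_exponent_le hY hexp) (by positivity)
  have a6 : (m : ℝ) / N ≤ Y ^ (-κ) := by
    have b1 : (m : ℝ) / N ≤ Y ^ (-η) := by
      rw [div_le_iff₀ hNr, Real.rpow_neg hY0.le]
      calc (m : ℝ) ≤ (N : ℝ) / Y ^ η := hmB
        _ = (Y ^ η)⁻¹ * N := by rw [div_eq_mul_inv, mul_comm]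
    have hκη : κ ≤ η := by
      rw [hκ]
      apply div_le_self hη.le
      nlinarith
    exact b1.trans (Real.rpow_le_rpow_of_exponent_le hY (by linarith))
  have hYn : 0 < Y ^ (-κ) := Real.rpow_pos_of_pos hY0 _
  nlinarith

end ItemG8

theorem claimG8 (h6b : ClaimG6b) (h7 : ClaimG7) (hN : ClaimN1) : ClaimG8 := by
  intro η hη hη1
  obtain ⟨s, hs⟩ := exists_nat_ge (2 / η)
  have hs2 : 2 ≤ (s : ℝ) * η := (div_le_iff₀ hη).1 hs
  have hs1 : 1 ≤ s := by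
    rcases Nat.eq_zero_or_pos s with h | h
    · rw [h] at hs2; norm_num at hs2
    · exact h
  obtain ⟨κ, hκ⟩ : ∃ κ : ℝ, κ = η / (16 * ((s : ℝ) + 1) ^ 2) := ⟨_, rfl⟩
  obtain ⟨ι, hι⟩ : ∃ ι : ℝ, ι = η / (8 * ((s : ℝ) + 1)) := ⟨_, rfl⟩
  have hs0 : (0 : ℝ) ≤ s := Nat.cast_nonneg s
  have hκ0 : 0 < κ := by rw [hκ]; positivity
  have hι0 : 0 < ι := by rw [hι]; positivity
  have hκη : κ < η := by
    rw [hκ, div_lt_iff₀ (by positivity)]
    nlinarith [sq_nonneg (s : ℝ)]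
  obtain ⟨C1, hC1, hC1'⟩ := hN (2 ^ s) (one_le_pow₀ (by norm_num)) ι hι0
  have ev : ∀ᶠ Y : ℝ in atTop, 8 ≤ Y ^ (η - κ) ∧ 8 * C1 + 2 ≤ Y ^ κ :=
    ((tendsto_rpow_atTop (by linarith : 0 < η - κ)).eventually_ge_atTop 8).and
      ((tendsto_rpow_atTop hκ0).eventually_ge_atTop (8 * C1 + 2))
  obtain ⟨Y0, hY0⟩ := eventually_atTop.1 ev
  have hc0 : 0 < κ / 2 ^ s := by positivity
  have hZ : 0 < (max Y0 1) ^ (κ / 2 ^ s) :=
    Real.rpow_pos_of_pos (lt_of_lt_of_le zero_lt_one (le_max_right _ _)) _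
  have hD : 0 < (8 * C1 + 2) ^ ((1 : ℝ) / 2 ^ s) := Real.rpow_pos_of_pos (by linarith) _
  refine ⟨κ / 2 ^ s, hc0, (max Y0 1) ^ (κ / 2 ^ s) + 8 * (8 * C1 + 2) ^ ((1 : ℝ) / 2 ^ s),
    by positivity, ?_⟩
  intro Y q N ψ hY hψ hψ8 hodd hsf hqY hqY' hp hN2 M L hL
  have hYpos : 0 < Y := by linarith
  have hYc : 0 < Y ^ (-(κ / 2 ^ s)) := Real.rpow_pos_of_pos hYpos _
  have hNr0 : (0 : ℝ) ≤ N := Nat.cast_nonneg N
  rcases lt_or_ge Y Y0 with hlt | hge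
  · -- trivial bound
    have h1 := abs_isum_le (ItemG8.abs_le_one hψ q) M L
    have h2 : (L : ℝ) ≤ N := by exact_mod_cast hL
    have h3 : Y ^ (κ / 2 ^ s) ≤ (max Y0 1) ^ (κ / 2 ^ s) :=
      Real.rpow_le_rpow hYpos.le (hlt.le.trans (le_max_left _ _)) hc0.le
    have h4 : Y ^ (κ / 2 ^ s) * Y ^ (-(κ / 2 ^ s)) = 1 := by
      rw [← Real.rpow_add hYpos, add_neg_cancel, Real.rpow_zero]
    have h5 : 1 ≤ ((max Y0 1) ^ (κ / 2 ^ s) + 8 * (8 * C1 + 2) ^ ((1 : ℝ) / 2 ^ s)) *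
        Y ^ (-(κ / 2 ^ s)) := by
      refine h4.symm.le.trans (mul_le_mul_of_nonneg_right ?_ hYc.le)
      linarith
    calc |isum (fun n => ψ n * ((jacobiSym n q : ℤ) : ℝ)) M L| ≤ L := h1
      _ ≤ N := h2
      _ = 1 * N := (one_mul _).symm
      _ ≤ (((max Y0 1) ^ (κ / 2 ^ s) + 8 * (8 * C1 + 2) ^ ((1 : ℝ) / 2 ^ s)) *
        Y ^ (-(κ / 2 ^ s))) * N := mul_le_mul_of_nonneg_right h5 hNr0
      _ = _ := by ring
  · obtain ⟨hY8, hYC⟩ := hY0 Y hge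
    have hY1 : 1 < Y := by
      rcases eq_or_lt_of_le hY with h | h
      · rw [← h, Real.one_rpow] at hY8
        norm_num at hY8
      · exact h
    have hYη : 1 < Y ^ η := Real.one_lt_rpow hY1 hη
    have hYη0 : 0 < Y ^ η := by linarith
    have hB : Y ^ η ≤ (N : ℝ) / Y ^ η := by
      rw [le_div_iff₀ hYη0, ← Real.rpow_add hYpos]
      have : η + η = 2 * η := by ring
      rw [this]
      exact hN2
    have hNpos : 0 < N := by
      rcases Nat.eq_zero_or_pos N with h | h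
      · rw [h] at hB
        simp at hB
        linarith
      · exact h
    have hNr : (0 : ℝ) < N := by exact_mod_cast hNpos
    have hq2 : (q : ℝ) ^ 2 ≤ ((N : ℝ) / Y ^ η) ^ (s + 1) := by
      have e1 : (q : ℝ) ^ 2 ≤ Y ^ 2 := pow_le_pow_left₀ (Nat.cast_nonneg q) hqY 2
      have e2 : Y ^ 2 ≤ (Y ^ η) ^ (s + 1) := by
        rw [← Real.rpow_natCast Y 2, ← Real.rpow_natCast (Y ^ η) (s + 1), ← Real.rpow_mul hYpos.le]
        apply Real.rpow_le_rpow_of_exponent_le hY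
        push_cast
        nlinarith
      exact e1.trans (e2.trans (pow_le_pow_left₀ hYη0.le hB _))
    obtain ⟨qs, m, hlen, hprod, hqsB, hmB, hqm⟩ := h7 q s ((N : ℝ) / Y ^ η) hsf
      (lt_of_lt_of_le hYη hB) (fun p hp1 hp2 => by
        rw [le_div_iff₀ hYη0]
        exact hp p hp1 hp2) hq2
    have hq0 : q ≠ 0 := hsf.ne_zero
    have hm0 : m ≠ 0 := by
      rintro rfl
      rw [mul_zero] at hprod
      exact hq0 hprod.symm
    have hqs0 : qs.prod ≠ 0 := by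
      intro h
      rw [h, zero_mul] at hprod
      exact hq0 hprod.symm
    have hsf' : Squarefree (qs.prod * m) := by rw [hprod]; exact hsf
    have hmq : m ∣ q := ⟨qs.prod, by rw [← hprod]; ring⟩
    have hcop : qs.prod.Coprime m := ((Nat.squarefree_mul_iff).1 hsf').1
    have hxpos : ∀ x ∈ qs, 0 < x := by
      intro x hx
      rcases Nat.eq_zero_or_pos x with h | h
      · rw [h] at hx
        exact absurd (List.prod_eq_zero hx) hqs0
      · exact h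
    have hxcop : ∀ x ∈ qs, x.Coprime m := fun x hx =>
      Nat.Coprime.coprime_dvd_left (List.dvd_prod hx) hcop
    have hm1 : 1 ≤ m := Nat.one_le_iff_ne_zero.2 hm0
    have hmY : (m : ℝ) ≤ Y := by
      have : m ≤ q := Nat.le_of_dvd (Nat.pos_of_ne_zero hq0) hmq
      have h' : (m : ℝ) ≤ q := by exact_mod_cast this
      exact h'.trans hqY
    -- the parameter H
    have hYκ : 1 ≤ Y ^ κ := Real.one_le_rpow hY hκ0.le
    obtain ⟨H, hH⟩ : ∃ H : ℕ, H = ⌊Y ^ κ⌋₊ := ⟨_, rfl⟩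
    have hH1 : 1 ≤ H := by
      rw [hH]
      exact Nat.le_floor (by exact_mod_cast hYκ)
    have hHle : (H : ℝ) ≤ Y ^ κ := by
      rw [hH]
      exact Nat.floor_le (by positivity)
    have hHge : Y ^ κ ≤ 2 * H := by
      have h1 : Y ^ κ < H + 1 := by
        rw [hH]
        exact Nat.lt_floor_add_one _
      have h2 : (1 : ℝ) ≤ H := by exact_mod_cast hH1
      linarith
    have hHpos : (0 : ℝ) < H := by exact_mod_cast hH1
    have hYnk : Y ^ (-κ) = (Y ^ κ)⁻¹ := Real.rpow_neg hYpos.le κ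
    have hYκ0 : 0 < Y ^ κ := by linarith
    have hδ0 : 0 < (8 * C1 + 2) * Y ^ (-κ) := by positivity
    have hδ1 : (8 * C1 + 2) * Y ^ (-κ) ≤ 1 := by
      rw [hYnk, ← div_eq_mul_inv, div_le_one hYκ0]
      exact hYC
    have hHδ : 1 / (H : ℝ) ≤ (8 * C1 + 2) * Y ^ (-κ) := by
      have h1 : 1 / (H : ℝ) ≤ 2 * Y ^ (-κ) := by
        rw [hYnk, div_le_iff₀ hHpos, mul_assoc, mul_comm (Y ^ κ)⁻¹, ← mul_assoc,
          ← div_eq_mul_inv, one_le_div hYκ0]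
        exact hHge
      refine h1.trans (mul_le_mul_of_nonneg_right ?_ (by positivity))
      linarith
    have h8 : ∀ x ∈ qs, 8 * x * H ≤ N := by
      intro x hx
      have h1 : (8 : ℝ) * x * H ≤ N := by
        have h2 := hqsB x hx
        have h3 : Y ^ (η - κ) * Y ^ κ = Y ^ η := by
          rw [← Real.rpow_add hYpos, sub_add_cancel]
        calc (8 : ℝ) * x * H ≤ Y ^ (η - κ) * ((N : ℝ) / Y ^ η) * Y ^ κ := by
              gcongr
          _ = (Y ^ (η - κ) * Y ^ κ) * ((N : ℝ) / Y ^ η) := by ring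
          _ = N := by
              rw [h3]
              field_simp
      exact_mod_cast h1
    have hmodd : Odd m := by
      obtain ⟨w, hw⟩ := hmq
      rw [hw] at hodd
      exact Nat.Odd.of_mul_left hodd
    have hmsf : Squarefree m := Squarefree.squarefree_of_dvd hmq hsf
    have hcond := ItemG8.main_cond hη hY hκ hι hC1 (hC1' m hm1) hqY' hqm hmY hHle hNpos hmB
    obtain ⟨q0, qs', rfl⟩ : ∃ q0 qs', qs = q0 :: qs' := by
      cases qs with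
      | nil => simp at hlen; omega
      | cons a b => exact ⟨a, b, rfl⟩
    have hlen' : qs'.length + 1 = s := by simpa using hlen
    have hfin := h6b q0 qs' m N H ((8 * C1 + 2) * Y ^ (-κ)) ψ hψ hψ8 hmodd hmsf
      (by omega) hNpos hδ0 hδ1 hHδ h8 hxcop hxpos (by rw [hlen']; exact hcond) M L hL
    have hqeq : q0 * (qs'.prod * m) = q := by
      rw [← hprod, List.prod_cons]
      ring
    rw [hqeq, hlen'] at hfin
    refine hfin.trans ?_
    have e1 : ((8 * C1 + 2) * Y ^ (-κ)) ^ ((1 : ℝ) / 2 ^ s) =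
        (8 * C1 + 2) ^ ((1 : ℝ) / 2 ^ s) * Y ^ (-(κ / 2 ^ s)) := by
      rw [Real.mul_rpow (by linarith) (by positivity), ← Real.rpow_mul hYpos.le]
      congr 2
      ring
    rw [e1]
    have e2 : 8 * (N : ℝ) * ((8 * C1 + 2) ^ ((1 : ℝ) / 2 ^ s) * Y ^ (-(κ / 2 ^ s))) =
        8 * (8 * C1 + 2) ^ ((1 : ℝ) / 2 ^ s) * N * Y ^ (-(κ / 2 ^ s)) := by ring
    rw [e2]
    apply mul_le_mul_of_nonneg_right _ hYc.le
    apply mul_le_mul_of_nonneg_right _ hNr0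
    linarith

end Pool.Agent.Work.MP_e0c7e8_nt.SM
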