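import Pool.Agent.Work.MP_e0c7e8_nt.SM.Stmts
import Pool.Agent.Work.MP_e0c7e8_nt.SM.Basic

/-!
# Item N1: `K ^ ω(n)` is small
-/

set_option autoImplicit false

namespace Pool.Agent.Work.MP_e0c7e8_nt.SM

open Finset

theorem claimN1 : ClaimN1 := by
  intro K hK ι hι
  have hK0 : 0 < K := by linarith
  set P0 : ℕ := ⌈K ^ (1 / ι)⌉₊ with hP0
  refine ⟨K ^ P0, by positivity, ?_⟩
  intro n hn
  have hlarge : ∀ p : ℕ, P0 ≤ p → K ≤ (p : ℝ) ^ ι := by
    intro p hp
    have h1 : K ^ (1 / ι) ≤ p := (Nat.le_ceil _).trans (by exact_mod_cast hp)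
    calc K = (K ^ (1 / ι)) ^ ι := by
          rw [← Real.rpow_mul hK0.le, one_div, inv_mul_cancel₀ hι.ne', Real.rpow_one]
      _ ≤ (p : ℝ) ^ ι := Real.rpow_le_rpow (by positivity) h1 hι.le
  have hsplit : K ^ n.primeFactors.card =
      (∏ p ∈ n.primeFactors.filter (fun p => p < P0), K) *
      ∏ p ∈ n.primeFactors.filter (fun p => ¬ p < P0), K := by
    rw [Finset.prod_filter_mul_prod_filter_not, Finset.prod_const]
  rw [hsplit]
  have h1 : (∏ p ∈ n.primeFactors.filter (fun p => p < P0), K) ≤ K ^ P0 := by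
    rw [Finset.prod_const]
    apply pow_le_pow_right₀ hK
    calc (n.primeFactors.filter (fun p => p < P0)).card ≤ (range P0).card := by
          apply Finset.card_le_card
          intro x hx
          rw [mem_filter] at hx
          exact mem_range.2 hx.2
      _ = P0 := card_range _
  have h2 : (∏ p ∈ n.primeFactors.filter (fun p => ¬ p < P0), K) ≤ (n : ℝ) ^ ι := by
    calc (∏ p ∈ n.primeFactors.filter (fun p => ¬ p < P0), K)
        ≤ ∏ p ∈ n.primeFactors.filter (fun p => ¬ p < P0), (p : ℝ) ^ ι := by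
          apply Finset.prod_le_prod
          · intro _ _; exact hK0.le
          · intro p hp
            rw [mem_filter] at hp
            exact hlarge p (not_lt.1 hp.2)
      _ = (∏ p ∈ n.primeFactors.filter (fun p => ¬ p < P0), (p : ℝ)) ^ ι := by
          rw [Real.finsetProd_rpow _ _ (fun _ _ => Nat.cast_nonneg _)]
      _ ≤ (n : ℝ) ^ ι := by
          apply Real.rpow_le_rpow (Finset.prod_nonneg fun _ _ => Nat.cast_nonneg _) _ hι.le
          have h3 : ∏ p ∈ n.primeFactors.filter (fun p => ¬ p < P0), p ≤ n := by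
            apply Nat.le_of_dvd (by omega)
            exact (Finset.prod_dvd_prod_of_subset _ _ _ (Finset.filter_subset _ _)).trans
              (Nat.prod_primeFactors_dvd n)
          rw [← Nat.cast_prod]
          exact_mod_cast h3
  exact mul_le_mul h1 h2 (Finset.prod_nonneg fun _ _ => hK0.le) (by positivity)

end Pool.Agent.Work.MP_e0c7e8_nt.SM
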