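import Pool.Agent.Work.MP_e0c7e8_nt.SM.Stmts
import Pool.Agent.Work.MP_e0c7e8_nt.SM.Basic

/-!
# Item N2: the summed decomposition
-/

set_option autoImplicit false

namespace Pool.Agent.Work.MP_e0c7e8_nt.SM

open Finset

namespace ItemN2

theorem inner (d : ℤ) (x m : ℕ) (hm : 0 < m) :
    ∑ a ∈ (Icc 1 x).filter (fun a => m ∣ a), (TT d (a / m) : ℤ) = (MM d (x / m) : ℤ) := by
  unfold MM
  rw [Nat.cast_sum]
  refine Finset.sum_nbij' (fun a => a / m) (fun b => m * b) ?_ ?_ ?_ ?_ ?_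
  · intro a ha
    obtain ⟨h1, h2⟩ := mem_filter.1 ha
    obtain ⟨h3, h4⟩ := mem_Icc.1 h1
    exact mem_Icc.2 ⟨Nat.div_pos (Nat.le_of_dvd h3 h2) hm, Nat.div_le_div_right h4⟩
  · intro b hb
    obtain ⟨h1, h2⟩ := mem_Icc.1 hb
    refine mem_filter.2 ⟨mem_Icc.2 ⟨?_, ?_⟩, dvd_mul_right _ _⟩
    · exact Nat.mul_pos hm h1
    · exact (Nat.mul_le_mul_left m h2).trans (Nat.mul_div_le x m)
  · intro a ha
    exact Nat.mul_div_cancel' (mem_filter.1 ha).2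
  · intro b _
    exact Nat.mul_div_cancel_left b hm
  · intro a _
    rfl

end ItemN2

theorem claimN2 (ha : ClaimN2a) : ClaimN2 := by
  intro d x
  have h1 : ∑ a ∈ Icc 1 x, ff d a ≤ ∑ a ∈ Icc 1 x,
      ∑ g ∈ a.divisors.filter (fun g => ∀ p ∈ g.primeFactors, p ∣ 2 * d.natAbs),
      ∑ e ∈ a.divisors.filter (fun e => g * e ^ 2 ∣ a), (TT d (a / (g * e ^ 2)) : ℤ) :=
    sum_le_sum (fun a h => ha d a (mem_Icc.1 h).1)
  refine h1.trans (le_of_eq ?_)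
  rw [Finset.sum_comm' (s' := fun g => (Icc 1 x).filter (fun a => g ∣ a))
    (t' := (Icc 1 x).filter (fun g => ∀ p ∈ g.primeFactors, p ∣ 2 * d.natAbs))]
  · refine sum_congr rfl (fun g hg => ?_)
    obtain ⟨hg1, _⟩ := mem_filter.1 hg
    obtain ⟨hg2, _⟩ := mem_Icc.1 hg1
    rw [Finset.sum_comm' (s' := fun e => (Icc 1 x).filter (fun a => g * e ^ 2 ∣ a))
      (t' := (Icc 1 x).filter (fun e => g * e ^ 2 ≤ x))]
    · refine sum_congr rfl (fun e he => ?_)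
      obtain ⟨he1, _⟩ := mem_filter.1 he
      obtain ⟨he2, _⟩ := mem_Icc.1 he1
      exact ItemN2.inner d x (g * e ^ 2) (Nat.mul_pos hg2 (pow_pos he2 2))
    · intro a e
      simp only [mem_filter, mem_Icc, Nat.mem_divisors]
      constructor
      · rintro ⟨⟨⟨h2, h3⟩, h4⟩, ⟨h5, h6⟩, h7⟩
        exact ⟨⟨⟨h2, h3⟩, h7⟩, ⟨Nat.pos_of_dvd_of_pos h5 h2,
          (Nat.le_of_dvd h2 h5).trans h3⟩, (Nat.le_of_dvd h2 h7).trans h3⟩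
      · rintro ⟨⟨⟨h2, h3⟩, h4⟩, ⟨h5, h6⟩, h7⟩
        refine ⟨⟨⟨h2, h3⟩, (dvd_mul_right _ _).trans h4⟩, ⟨?_, by omega⟩, h4⟩
        exact ((dvd_pow_self e two_ne_zero).trans (dvd_mul_left _ _)).trans h4
  · intro a g
    simp only [mem_filter, mem_Icc, Nat.mem_divisors]
    constructor
    · rintro ⟨⟨h2, h3⟩, ⟨h4, h5⟩, h6⟩
      exact ⟨⟨⟨h2, h3⟩, h4⟩, ⟨Nat.pos_of_dvd_of_pos h4 h2, (Nat.le_of_dvd h2 h4).trans h3⟩, h6⟩
    · rintro ⟨⟨⟨h2, h3⟩, h4⟩, ⟨h5, h6⟩, h7⟩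
      exact ⟨⟨h2, h3⟩, ⟨h4, by omega⟩, h7⟩

end Pool.Agent.Work.MP_e0c7e8_nt.SM
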