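import Pool.Agent.Work.MP_e0c7e8_nt.SM.Stmts
import Pool.Agent.Work.MP_e0c7e8_nt.SM.Basic

/-!
# N2a: the local decomposition of `1 * χ`
-/

set_option autoImplicit false

namespace Pool.Agent.Work.MP_e0c7e8_nt.SM

open Finset

namespace ItemN2a

/-- the index set -/
def SS (d : ℤ) (a : ℕ) : Finset (ℕ × ℕ) :=
  (a.divisors ×ˢ a.divisors).filter
    (fun x => (∀ p ∈ x.1.primeFactors, p ∣ 2 * d.natAbs) ∧ x.1 * x.2 ^ 2 ∣ a)

/-- the right-hand side -/
def RR (d : ℤ) (a : ℕ) : ℕ := ∑ x ∈ SS d a, TT d (a / (x.1 * x.2 ^ 2))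

lemma mem_SS {d : ℤ} {a : ℕ} (ha : a ≠ 0) {x : ℕ × ℕ} :
    x ∈ SS d a ↔ (∀ p ∈ x.1.primeFactors, p ∣ 2 * d.natAbs) ∧ x.1 * x.2 ^ 2 ∣ a := by
  unfold SS
  rw [mem_filter, mem_product, Nat.mem_divisors, Nat.mem_divisors]
  constructor
  · exact fun h => h.2
  · intro h
    refine ⟨⟨⟨(Dvd.intro _ rfl).trans h.2, ha⟩, ⟨?_, ha⟩⟩, h⟩
    exact ((dvd_pow_self _ two_ne_zero).trans (Dvd.intro_left _ rfl)).trans h.2

lemma TT_mul {d : ℤ} {m n : ℕ} (h : Nat.Coprime m n) : TT d (m * n) = TT d m * TT d n := by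
  unfold TT
  rw [h.primeFactors_mul, card_union_of_disjoint h.disjoint_primeFactors, pow_add]
  by_cases h1 : ∀ p ∈ m.primeFactors, chi d p = 1
  · by_cases h2 : ∀ p ∈ n.primeFactors, chi d p = 1
    · rw [if_pos h1, if_pos h2, if_pos]
      intro p hp
      rcases mem_union.1 hp with h3 | h3
      · exact h1 p h3
      · exact h2 p h3
    · rw [if_neg h2, if_neg, mul_zero]
      exact fun h3 => h2 fun p hp => h3 p (mem_union_right _ hp)
  · rw [if_neg h1, if_neg, zero_mul]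
    exact fun h3 => h1 fun p hp => h3 p (mem_union_left _ hp)

lemma TT_one (d : ℤ) : TT d 1 = 1 := by simp [TT]

lemma TT_pow {d : ℤ} {p : ℕ} (hp : p.Prime) {i : ℕ} (hi : i ≠ 0) (h : chi d p = 1) :
    TT d (p ^ i) = 2 := by
  unfold TT
  rw [Nat.primeFactors_prime_pow hi hp]
  simp [h]

lemma chi_pow (d : ℤ) (p i : ℕ) : chi d (p ^ i) = chi d p ^ i := by
  induction i with
  | zero => simp [chi_one]
  | succ n ih => rw [pow_succ, chi_mul, ih, pow_succ]

lemma ff_pow {d : ℤ} {p : ℕ} (hp : p.Prime) (j : ℕ) :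
    ff d (p ^ j) = ∑ i ∈ range (j + 1), chi d p ^ i := by
  unfold ff
  rw [Nat.sum_divisors_prime_pow hp]
  exact sum_congr rfl fun i _ => chi_pow d p i

lemma ff_mul {d : ℤ} {m n : ℕ} (h : Nat.Coprime m n) : ff d (m * n) = ff d m * ff d n := by
  unfold ff
  rw [h.divisors_mul, sum_map]
  simp only [Function.Embedding.coeFn_mk]
  refine (sum_attach (m.divisors ×ˢ n.divisors) (fun p => chi d (p.1 * p.2))).trans ?_
  rw [sum_product, sum_mul_sum]
  exact sum_congr rfl fun i _ => sum_congr rfl fun k _ => chi_mul d i k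

lemma chi_eq_zero {d : ℤ} {p : ℕ} (hp : p.Prime) (h : p ∣ 2 * d.natAbs) : chi d p = 0 := by
  by_cases h2 : p = 2
  · subst h2
    exact chi_of_not_odd (by decide)
  · rw [chi_of_odd (hp.odd_of_ne_two h2)]
    have : NeZero p := ⟨hp.ne_zero⟩
    rw [jacobiSym.eq_zero_iff_not_coprime]
    have h3 : p ∣ d.natAbs := by
      rcases (Nat.Prime.dvd_mul hp).1 h with h4 | h4
      · exact absurd ((Nat.prime_dvd_prime_iff_eq hp Nat.prime_two).1 h4) h2
      · exact h4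
    intro h4
    have h5 : p ∣ Int.gcd d p := by
      rw [Int.gcd]
      exact Nat.dvd_gcd h3 (by simp)
    rw [h4] at h5
    exact hp.one_lt.ne' (Nat.dvd_one.1 h5)

lemma chi_ne_zero {d : ℤ} {p : ℕ} (hp : p.Prime) (h : ¬ p ∣ 2 * d.natAbs) : chi d p ≠ 0 := by
  have h2 : p ≠ 2 := fun h2 => h (h2 ▸ Dvd.intro _ rfl)
  rw [chi_of_odd (hp.odd_of_ne_two h2)]
  have : NeZero p := ⟨hp.ne_zero⟩
  rw [Ne, jacobiSym.eq_zero_iff_not_coprime, not_not]
  rw [Int.gcd]
  have : ((p : ℤ)).natAbs = p := by simp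
  rw [this]
  refine Nat.Coprime.symm ((Nat.Prime.coprime_iff_not_dvd hp).2 fun h3 => h ?_)
  exact h3.mul_left 2

lemma RR_mul {d : ℤ} {m n : ℕ} (hm : m ≠ 0) (hn : n ≠ 0) (h : Nat.Coprime m n) :
    RR d m * RR d n ≤ RR d (m * n) := by
  unfold RR
  rw [sum_mul_sum, ← sum_product']
  have hmn : m * n ≠ 0 := mul_ne_zero hm hn
  have hinj : Set.InjOn (fun x : (ℕ × ℕ) × (ℕ × ℕ) => ((x.1.1 * x.2.1, x.1.2 * x.2.2) : ℕ × ℕ))
      ((SS d m ×ˢ SS d n : Finset ((ℕ × ℕ) × (ℕ × ℕ))) : Set ((ℕ × ℕ) × (ℕ × ℕ))) := by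
    rintro ⟨⟨g, e⟩, ⟨g', e'⟩⟩ hx ⟨⟨k, f⟩, ⟨k', f'⟩⟩ hy hxy
    rw [mem_coe, mem_product] at hx hy
    simp only [SS, mem_filter, mem_product] at hx hy
    simp only [Prod.mk.injEq] at hxy
    have h1 := h.mul_injOn_divisors (x₁ := (g, g')) (x₂ := (k, k'))
      (by simp only [coe_product, Set.mem_prod, mem_coe]; exact ⟨hx.1.1.1, hx.2.1.1⟩)
      (by simp only [coe_product, Set.mem_prod, mem_coe]; exact ⟨hy.1.1.1, hy.2.1.1⟩) hxy.1
    have h2 := h.mul_injOn_divisors (x₁ := (e, e')) (x₂ := (f, f'))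
      (by simp only [coe_product, Set.mem_prod, mem_coe]; exact ⟨hx.1.1.2, hx.2.1.2⟩)
      (by simp only [coe_product, Set.mem_prod, mem_coe]; exact ⟨hy.1.1.2, hy.2.1.2⟩) hxy.2
    simp only [Prod.mk.injEq] at h1 h2
    rw [h1.1, h1.2, h2.1, h2.2]
  have hval : ∀ x ∈ SS d m ×ˢ SS d n,
      TT d (m / (x.1.1 * x.1.2 ^ 2)) * TT d (n / (x.2.1 * x.2.2 ^ 2)) =
        TT d (m * n / ((x.1.1 * x.2.1) * (x.1.2 * x.2.2) ^ 2)) := by
    rintro ⟨⟨g, e⟩, ⟨g', e'⟩⟩ hx
    rw [mem_product, mem_SS hm, mem_SS hn] at hx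
    have e1 : (g * g') * (e * e') ^ 2 = (g * e ^ 2) * (g' * e' ^ 2) := by ring
    simp only at hx ⊢
    rw [e1, Nat.mul_div_mul_comm hx.1.2 hx.2.2, TT_mul]
    exact (h.coprime_dvd_left (Nat.div_dvd_of_dvd hx.1.2)).coprime_dvd_right
      (Nat.div_dvd_of_dvd hx.2.2)
  rw [sum_congr rfl hval, ← sum_image (f := fun x : ℕ × ℕ => TT d (m * n / (x.1 * x.2 ^ 2))) hinj]
  refine sum_le_sum_of_subset fun x hx => ?_
  rw [mem_image] at hx
  obtain ⟨⟨⟨g, e⟩, ⟨g', e'⟩⟩, hx, rfl⟩ := hx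
  rw [mem_product, mem_SS hm, mem_SS hn] at hx
  rw [mem_SS hmn]
  simp only at hx ⊢
  refine ⟨fun p hp => ?_, ?_⟩
  · rw [Nat.mem_primeFactors] at hp
    have h0 : g * g' ≠ 0 := hp.2.2
    rcases hp.1.dvd_mul.1 hp.2.1 with h3 | h3
    · exact hx.1.1 p (Nat.mem_primeFactors.2 ⟨hp.1, h3, left_ne_zero_of_mul h0⟩)
    · exact hx.2.1 p (Nat.mem_primeFactors.2 ⟨hp.1, h3, right_ne_zero_of_mul h0⟩)
  · have e1 : (g * g') * (e * e') ^ 2 = (g * e ^ 2) * (g' * e' ^ 2) := by ring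
    rw [e1]
    exact mul_dvd_mul hx.1.2 hx.2.2

lemma RR_prime_ge {d : ℤ} {p : ℕ} (hp : p.Prime) (j : ℕ) :
    ∑ i ∈ range (j / 2 + 1), TT d (p ^ (j - 2 * i)) ≤ RR d (p ^ j) := by
  have hinj : Set.InjOn (fun i : ℕ => ((1, p ^ i) : ℕ × ℕ)) ((range (j / 2 + 1) : Finset ℕ) : Set ℕ) := by
    intro i _ k _ h
    simp only [Prod.mk.injEq, true_and] at h
    exact Nat.pow_right_injective hp.two_le h
  have h1 : ∀ i ∈ range (j / 2 + 1), TT d (p ^ (j - 2 * i)) =
      TT d (p ^ j / (1 * (p ^ i) ^ 2)) := by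
    intro i hi
    rw [mem_range] at hi
    rw [one_mul, ← pow_mul, mul_comm i 2, Nat.pow_div (by omega) hp.pos]
  rw [sum_congr rfl h1, ← sum_image (f := fun x : ℕ × ℕ => TT d (p ^ j / (x.1 * x.2 ^ 2))) hinj]
  unfold RR
  refine sum_le_sum_of_subset fun x hx => ?_
  rw [mem_image] at hx
  obtain ⟨i, hi, rfl⟩ := hx
  rw [mem_range] at hi
  rw [mem_SS (pow_ne_zero _ hp.ne_zero)]
  refine ⟨by simp, ?_⟩
  simp only
  rw [one_mul, ← pow_mul]
  exact pow_dvd_pow _ (by omega)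

lemma sum_two (j : ℕ) : j + 1 ≤ ∑ i ∈ range (j / 2 + 1), (if j - 2 * i = 0 then 1 else 2) := by
  rw [sum_range_succ]
  have h1 : ∑ i ∈ range (j / 2), (if j - 2 * i = 0 then 1 else 2) = ∑ _i ∈ range (j / 2), 2 := by
    refine sum_congr rfl fun i hi => ?_
    rw [mem_range] at hi
    rw [if_neg (by omega)]
  rw [h1, sum_const, card_range]
  simp only [smul_eq_mul]
  split_ifs with h <;> omega

lemma prime_pow {d : ℤ} {p : ℕ} (hp : p.Prime) (j : ℕ) : ff d (p ^ j) ≤ RR d (p ^ j) := by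
  rw [ff_pow hp]
  by_cases h : p ∣ 2 * d.natAbs
  · rw [chi_eq_zero hp h]
    have h1 : ∑ i ∈ range (j + 1), (0 : ℤ) ^ i = 1 := by
      rw [sum_range_succ', sum_eq_zero, pow_zero, zero_add]
      intro i _
      exact zero_pow (Nat.succ_ne_zero i)
    rw [h1]
    have h2 : TT d (p ^ j / (p ^ j * 1 ^ 2)) ≤ RR d (p ^ j) := by
      unfold RR
      refine single_le_sum (f := fun x : ℕ × ℕ => TT d (p ^ j / (x.1 * x.2 ^ 2)))
        (fun _ _ => Nat.zero_le _) (a := (p ^ j, 1)) ?_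
      rw [mem_SS (pow_ne_zero _ hp.ne_zero)]
      refine ⟨fun q hq => ?_, by simp⟩
      simp only at hq
      have h3 := Nat.mem_primeFactors.1 hq
      rw [(Nat.prime_dvd_prime_iff_eq h3.1 hp).1 (h3.1.dvd_of_dvd_pow h3.2.1)]
      exact h
    rw [one_pow, mul_one, Nat.div_self (pow_pos hp.pos j), TT_one] at h2
    exact_mod_cast h2
  · have h0 := RR_prime_ge (d := d) hp j
    have h0' : ((∑ i ∈ range (j / 2 + 1), TT d (p ^ (j - 2 * i)) : ℕ) : ℤ) ≤ (RR d (p ^ j) : ℕ) := by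
      exact_mod_cast h0
    refine le_trans ?_ h0'
    rcases chi_trichotomy d p with h1 | h1 | h1
    · exact absurd h1 (chi_ne_zero hp h)
    · rw [h1]
      have h2 : ∑ i ∈ range (j / 2 + 1), TT d (p ^ (j - 2 * i)) =
          ∑ i ∈ range (j / 2 + 1), (if j - 2 * i = 0 then 1 else 2) := by
        refine sum_congr rfl fun i _ => ?_
        split_ifs with h3
        · rw [h3, pow_zero, TT_one]
        · exact TT_pow hp h3 h1
      rw [h2]
      have h4 := sum_two j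
      simp only [one_pow, sum_const, card_range, nsmul_eq_mul, mul_one]
      exact_mod_cast h4
    · rw [h1]
      rcases Nat.even_or_odd j with ⟨i, hi⟩ | ⟨i, hi⟩
      · have h5 : ∑ k ∈ range (j + 1), (-1 : ℤ) ^ k = 1 := by
          rw [neg_one_geom_sum, if_neg]
          rw [Nat.not_even_iff_odd]
          exact ⟨i, by omega⟩
        rw [h5]
        have h6 : TT d (p ^ (j - 2 * (j / 2))) ≤ ∑ i ∈ range (j / 2 + 1), TT d (p ^ (j - 2 * i)) :=
          single_le_sum (f := fun i => TT d (p ^ (j - 2 * i))) (fun _ _ => Nat.zero_le _)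
            (mem_range.2 (Nat.lt_succ_self _))
        have h7 : j - 2 * (j / 2) = 0 := by omega
        rw [h7, pow_zero, TT_one] at h6
        exact_mod_cast h6
      · have h5 : ∑ k ∈ range (j + 1), (-1 : ℤ) ^ k = 0 := by
          rw [neg_one_geom_sum, if_pos]
          exact ⟨i + 1, by omega⟩
        rw [h5]
        exact Int.natCast_nonneg _

lemma ff_nonneg (d : ℤ) (a : ℕ) : 0 ≤ ff d a := by
  induction a using Nat.recOnPosPrimePosCoprime with
  | prime_pow p n hp hn =>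
    rw [ff_pow hp]
    rcases chi_trichotomy d p with h | h | h
    · rw [h]
      exact sum_nonneg fun i _ => pow_nonneg le_rfl i
    · rw [h]
      exact sum_nonneg fun i _ => pow_nonneg zero_le_one i
    · rw [h, neg_one_geom_sum]
      split_ifs <;> norm_num
  | zero => simp [ff]
  | one => simp [ff, chi_one]
  | coprime a b ha hb hab h1 h2 =>
    rw [ff_mul hab]
    exact mul_nonneg h1 h2

lemma main (d : ℤ) (a : ℕ) : 1 ≤ a → ff d a ≤ RR d a := by
  induction a using Nat.recOnPosPrimePosCoprime with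
  | prime_pow p n hp hn => exact fun _ => prime_pow hp n
  | zero => intro h; exact absurd h (by decide)
  | one =>
    intro _
    simpa using prime_pow (d := d) Nat.prime_two 0
  | coprime a b ha hb hab h1 h2 =>
    intro _
    rw [ff_mul hab]
    have h3 := h1 (by omega)
    have h4 := h2 (by omega)
    have h5 : ((RR d a * RR d b : ℕ) : ℤ) ≤ (RR d (a * b) : ℕ) := by
      exact_mod_cast RR_mul (by omega) (by omega) hab
    refine le_trans ?_ h5
    push_cast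
    exact mul_le_mul h3 h4 (ff_nonneg d b) (by positivity)

end ItemN2a

open ItemN2a in
theorem claimN2a : ClaimN2a := by
  intro d a ha
  refine (main d a ha).trans (le_of_eq ?_)
  unfold RR SS
  rw [sum_filter, sum_product, sum_filter]
  push_cast
  refine sum_congr rfl fun g _ => ?_
  by_cases h : ∀ p ∈ g.primeFactors, p ∣ 2 * d.natAbs
  · rw [if_pos h, sum_filter]
    refine sum_congr rfl fun e _ => ?_
    by_cases h2 : g * e ^ 2 ∣ a
    · rw [if_pos ⟨h, h2⟩, if_pos h2]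
    · rw [if_neg (fun h3 => h2 h3.2), if_neg h2]
  · rw [if_neg h]
    refine sum_eq_zero fun e _ => ?_
    rw [if_neg (fun h3 => h h3.1)]

end Pool.Agent.Work.MP_e0c7e8_nt.SM
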