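import Pool.Agent.Work.MP_e0c7e8_nt.SM.Basic

/-!
# Abel summation
-/

set_option autoImplicit false

namespace Pool.Agent.Work.MP_e0c7e8_nt.SM

open Finset

/-- Abel summation identity -/
lemma abel_identity (f w : ℕ → ℝ) (N k : ℕ) :
    ∑ n ∈ Ioc N (N + k), f n * w n =
      (∑ n ∈ Ioc N (N + k), f n) * w (N + k + 1) +
      ∑ n ∈ Ioc N (N + k), (∑ j ∈ Ioc N n, f j) * (w n - w (n + 1)) := by
  induction k with
  | zero => simp
  | succ k ih =>
    have h : Ioc N (N + (k + 1)) = insert (N + (k + 1)) (Ioc N (N + k)) := by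
      ext x; simp only [mem_Ioc, mem_insert]; omega
    have hnot : N + (k + 1) ∉ Ioc N (N + k) := by
      rw [mem_Ioc]; omega
    rw [h, Finset.sum_insert hnot, Finset.sum_insert hnot, Finset.sum_insert hnot, ih, h,
      Finset.sum_insert hnot]
    have e : N + (k + 1) = N + k + 1 := by ring
    rw [e]
    ring

/-- Abel summation bound: `|Σ_{N<n≤M} f(n) w(n)| ≤ Y w(N+1)` for decreasing `w ≥ 0` if all
`|Σ_{N<j≤n} f j| ≤ Y`. -/
lemma abel_bound (f w : ℕ → ℝ) (N M : ℕ) (Y : ℝ) (hw0 : ∀ n, N < n → 0 ≤ w n)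
    (hw : ∀ n, N < n → w (n + 1) ≤ w n)
    (hY : ∀ n, N ≤ n → |∑ j ∈ Ioc N n, f j| ≤ Y) (hNM : N ≤ M) :
    |∑ n ∈ Ioc N M, f n * w n| ≤ Y * w (N + 1) := by
  obtain ⟨k, rfl⟩ : ∃ k, M = N + k := ⟨M - N, by omega⟩
  have hY0 : 0 ≤ Y := (abs_nonneg _).trans (hY N le_rfl)
  rw [abel_identity]
  have htel : ∀ k : ℕ, ∑ n ∈ Ioc N (N + k), (w n - w (n + 1)) = w (N + 1) - w (N + k + 1) := by
    intro k
    induction k with
    | zero => simp
    | succ k ih =>
      have h : Ioc N (N + (k + 1)) = insert (N + (k + 1)) (Ioc N (N + k)) := by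
        ext x; simp only [mem_Ioc, mem_insert]; omega
      have hnot : N + (k + 1) ∉ Ioc N (N + k) := by
        rw [mem_Ioc]; omega
      rw [h, Finset.sum_insert hnot, ih]
      have e : N + (k + 1) = N + k + 1 := by ring
      rw [e]
      ring
  have h1 : |∑ n ∈ Ioc N (N + k), (∑ j ∈ Ioc N n, f j) * (w n - w (n + 1))| ≤
      Y * (w (N + 1) - w (N + k + 1)) := by
    rw [← htel k, Finset.mul_sum]
    refine (Finset.abs_sum_le_sum_abs _ _).trans (Finset.sum_le_sum ?_)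
    intro n hn
    rw [mem_Ioc] at hn
    have h3 : 0 ≤ w n - w (n + 1) := by linarith [hw n hn.1]
    rw [abs_mul, abs_of_nonneg h3]
    exact mul_le_mul_of_nonneg_right (hY n hn.1.le) h3
  have h2 : |(∑ n ∈ Ioc N (N + k), f n) * w (N + k + 1)| ≤ Y * w (N + k + 1) := by
    have h3 := hw0 (N + k + 1) (by omega)
    rw [abs_mul, abs_of_nonneg h3]
    exact mul_le_mul_of_nonneg_right (hY (N + k) (by omega)) h3
  calc _ ≤ |(∑ n ∈ Ioc N (N + k), f n) * w (N + k + 1)| +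
        |∑ n ∈ Ioc N (N + k), (∑ j ∈ Ioc N n, f j) * (w n - w (n + 1))| := abs_add_le _ _
    _ ≤ Y * w (N + k + 1) + Y * (w (N + 1) - w (N + k + 1)) := add_le_add h2 h1
    _ = Y * w (N + 1) := by ring

lemma sum_Ioc_eq (f : ℕ → ℝ) {N n : ℕ} (h : N ≤ n) :
    ∑ j ∈ Ioc N n, f j = ∑ j ∈ Icc 1 n, f j - ∑ j ∈ Icc 1 N, f j := by
  rw [eq_sub_iff_add_eq, ← Finset.sum_union]
  · congr 1
    ext x; simp only [mem_Icc, mem_union, mem_Ioc]; omega
  · rw [Finset.disjoint_left]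
    intro x hx hx'
    rw [mem_Ioc] at hx
    rw [mem_Icc] at hx'
    omega

end Pool.Agent.Work.MP_e0c7e8_nt.SM
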