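import Pool.Agent.Work.MP_e0c7e8_nt.SM.Stmts
import Pool.Agent.Work.MP_e0c7e8_nt.SM.Basic

/-!
# Item S6: the hyperbola identity
-/

set_option autoImplicit false

namespace Pool.Agent.Work.MP_e0c7e8_nt.SM

open Finset

namespace ItemS6

/-- sums over `l m ≤ N` -/
lemma sum_antidiag (F : ℕ → ℕ → ℝ) (N : ℕ) :
    ∑ n ∈ Icc 1 N, ∑ p ∈ n.divisorsAntidiagonal, F p.1 p.2 =
      ∑ l ∈ Icc 1 N, ∑ m ∈ Icc 1 (N / l), F l m := by
  rw [Finset.sum_sigma', Finset.sum_sigma']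
  refine Finset.sum_bij' (fun x _ => ⟨x.2.1, x.2.2⟩) (fun x _ => ⟨x.1 * x.2, (x.1, x.2)⟩)
    ?_ ?_ ?_ ?_ ?_
  · rintro ⟨n, p⟩ h
    simp only [mem_sigma, mem_Icc, Nat.mem_divisorsAntidiagonal] at h ⊢
    obtain ⟨⟨h1, h2⟩, h3, h4⟩ := h
    have hp1 : 0 < p.1 := Nat.pos_of_ne_zero (by rintro h; rw [h, zero_mul] at h3; omega)
    have hp2 : 0 < p.2 := Nat.pos_of_ne_zero (by rintro h; rw [h, mul_zero] at h3; omega)
    refine ⟨⟨hp1, ?_⟩, hp2, ?_⟩
    · calc p.1 ≤ p.1 * p.2 := Nat.le_mul_of_pos_right _ hp2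
        _ = n := h3
        _ ≤ N := h2
    · rw [Nat.le_div_iff_mul_le hp1, mul_comm, h3]
      exact h2
  · rintro ⟨l, m⟩ h
    simp only [mem_sigma, mem_Icc, Nat.mem_divisorsAntidiagonal] at h ⊢
    obtain ⟨⟨h1, h2⟩, h3, h4⟩ := h
    rw [Nat.le_div_iff_mul_le h1, mul_comm] at h4
    have : 0 < l * m := Nat.mul_pos h1 h3
    exact ⟨⟨this, h4⟩, trivial, this.ne'⟩
  · rintro ⟨n, p⟩ h
    simp only [mem_sigma, mem_Icc, Nat.mem_divisorsAntidiagonal] at h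
    obtain ⟨_, h3, _⟩ := h
    simp only [Sigma.mk.injEq]
    exact ⟨h3, by simp [h3]⟩
  · rintro ⟨l, m⟩ _
    rfl
  · rintro ⟨n, p⟩ _
    rfl

lemma sum_swap (F : ℕ → ℕ → ℝ) (N : ℕ) :
    ∑ l ∈ Icc 1 N, ∑ m ∈ Icc 1 (N / l), F l m = ∑ m ∈ Icc 1 N, ∑ l ∈ Icc 1 (N / m), F l m := by
  apply Finset.sum_comm'
  intro l m
  simp only [mem_Icc]
  constructor
  · rintro ⟨⟨h1, h2⟩, h3, h4⟩
    rw [Nat.le_div_iff_mul_le h1] at h4
    refine ⟨⟨h1, ?_⟩, h3, ?_⟩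
    · rw [Nat.le_div_iff_mul_le h3, mul_comm]; exact h4
    · exact (Nat.le_mul_of_pos_right _ h1).trans h4
  · rintro ⟨⟨h1, h2⟩, h3, h4⟩
    rw [Nat.le_div_iff_mul_le h3] at h2
    refine ⟨⟨h1, ?_⟩, h3, ?_⟩
    · exact (Nat.le_mul_of_pos_right _ h3).trans h2
    · rw [Nat.le_div_iff_mul_le h1, mul_comm]; exact h2

end ItemS6

open ItemS6 in
theorem claimS6 : ClaimS6 := by
  intro u v N y hy hyN
  rw [sum_antidiag (fun a b => u a * v b)]
  have h1 : ∑ l ∈ Icc 1 N, ∑ m ∈ Icc 1 (N / l), u l * v m =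
      ∑ l ∈ Icc 1 y, ∑ m ∈ Icc 1 (N / l), u l * v m +
      ∑ l ∈ Ioc y N, ∑ m ∈ Icc 1 (N / l), u l * v m := by
    rw [← Finset.sum_union]
    · congr 1
      ext x; simp only [mem_Icc, mem_union, mem_Ioc]; omega
    · rw [Finset.disjoint_left]
      intro x hx hx'
      rw [mem_Icc] at hx
      rw [mem_Ioc] at hx'
      omega
  rw [h1]
  congr 1
  · apply Finset.sum_congr rfl
    intro l _
    rw [Finset.mul_sum]
  · have h2 : ∑ l ∈ Ioc y N, ∑ m ∈ Icc 1 (N / l), u l * v m =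
        ∑ m ∈ Icc 1 (N / y), ∑ l ∈ Ioc y (N / m), u l * v m := by
      apply Finset.sum_comm'
      intro l m
      simp only [mem_Icc, mem_Ioc]
      constructor
      · rintro ⟨⟨h1, h2⟩, h3, h4⟩
        have hl : 0 < l := by omega
        rw [Nat.le_div_iff_mul_le hl] at h4
        refine ⟨⟨h1, ?_⟩, h3, ?_⟩
        · rw [Nat.le_div_iff_mul_le h3, mul_comm]; exact h4
        · rw [Nat.le_div_iff_mul_le (by omega)]
          exact (Nat.mul_le_mul_left m h1.le).trans h4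
      · rintro ⟨⟨h1, h2⟩, h3, h4⟩
        rw [Nat.le_div_iff_mul_le h3] at h2
        refine ⟨⟨h1, ?_⟩, h3, ?_⟩
        · exact (Nat.le_mul_of_pos_right _ h3).trans h2
        · rw [Nat.le_div_iff_mul_le (by omega), mul_comm]; exact h2
    rw [h2]
    apply Finset.sum_congr rfl
    intro m hm
    rw [mem_Icc] at hm
    have hym : y ≤ N / m := by
      rw [Nat.le_div_iff_mul_le hm.1, mul_comm]
      have := hm.2
      rw [Nat.le_div_iff_mul_le (by omega)] at this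
      exact this
    have h3 : ∑ l ∈ Icc 1 (N / m), u l = ∑ l ∈ Icc 1 y, u l + ∑ l ∈ Ioc y (N / m), u l := by
      rw [← Finset.sum_union]
      · congr 1
        ext x; simp only [mem_Icc, mem_union, mem_Ioc]; omega
      · rw [Finset.disjoint_left]
        intro x hx hx'
        rw [mem_Icc] at hx
        rw [mem_Ioc] at hx'
        omega
    rw [h3, add_sub_cancel_left, Finset.mul_sum]
    apply Finset.sum_congr rfl
    intro l _
    ring

end Pool.Agent.Work.MP_e0c7e8_nt.SM
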