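import Pool.Agent.Work.MP_e0c7e8_nt.SM.Stmts
import Pool.Agent.Work.MP_e0c7e8_nt.SM.ItemS6
import Pool.Agent.Work.MP_e0c7e8_nt.SM.Abel

/-!
# Item N3: lower bound for the sum of `1 * χ`
-/

set_option autoImplicit false

namespace Pool.Agent.Work.MP_e0c7e8_nt.SM

open Finset

namespace ItemN3

lemma ff_eq (d : ℤ) (n : ℕ) : ff d n = ∑ p ∈ n.divisorsAntidiagonal, chi d p.1 * 1 := by
  unfold ff
  simp only [mul_one]
  exact (Nat.sum_divisorsAntidiagonal (fun a _ => chi d a)).symm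

lemma sum_inv_le (x : ℕ) : ∑ l ∈ Icc 1 x, (1 : ℝ) / l ≤ 1 + Real.log x := by
  have h := harmonic_le_one_add_log x
  rw [harmonic_eq_sum_Icc] at h
  push_cast at h
  simpa [one_div] using h

end ItemN3

open ItemN3 in
theorem claimN3 : ClaimN3 := by
  intro d A x B hA hAx hB hX
  have hx1 : 1 ≤ x := hA.trans hAx
  have hxR : (0 : ℝ) < x := by exact_mod_cast hx1
  -- the hyperbola identity
  have h6 := claimS6 (fun n => (chi d n : ℝ)) (fun _ => (1 : ℝ)) x A hA hAx
  have hL : ∑ a ∈ Icc 1 x, (ff d a : ℝ) =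
      ∑ n ∈ Icc 1 x, ∑ p ∈ n.divisorsAntidiagonal, (chi d p.1 : ℝ) * 1 := by
    apply Finset.sum_congr rfl
    intro n _
    rw [ff_eq]
    push_cast
    rfl
  rw [hL, h6]
  have hcard : ∀ k : ℕ, ∑ _m ∈ Icc 1 k, (1 : ℝ) = k := by
    intro k; simp
  have p1 : (x : ℝ) * ∑ m ∈ Icc 1 A, (chi d m : ℝ) / m - A ≤
      ∑ l ∈ Icc 1 A, (chi d l : ℝ) * ∑ _m ∈ Icc 1 (x / l), (1 : ℝ) := by
    have : (A : ℝ) = ∑ _m ∈ Icc 1 A, (1 : ℝ) := (hcard A).symm
    rw [Finset.mul_sum, this, ← Finset.sum_sub_distrib]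
    apply Finset.sum_le_sum
    intro l hl
    rw [mem_Icc] at hl
    rw [hcard]
    have hl0 : (0 : ℝ) < l := by exact_mod_cast hl.1
    have h1 : ((x / l : ℕ) : ℝ) ≤ (x : ℝ) / l := Nat.cast_div_le
    have h2 : (x : ℝ) / l < ((x / l : ℕ) : ℝ) + 1 := by
      rw [div_lt_iff₀ hl0]
      have := Nat.lt_div_mul_add (a := x) (b := l) hl.1
      have h3 : (x : ℝ) < ((x / l * l + l : ℕ) : ℝ) := by exact_mod_cast this
      push_cast at h3
      nlinarith
    have h4 : |(chi d l : ℝ) * ((x : ℝ) / l - ((x / l : ℕ) : ℝ))| ≤ 1 := by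
      rw [abs_mul]
      calc |(chi d l : ℝ)| * |(x : ℝ) / l - ((x / l : ℕ) : ℝ)| ≤ 1 * 1 := by
            apply mul_le_mul (abs_chi_real_le d l) _ (abs_nonneg _) zero_le_one
            rw [abs_le]
            constructor <;> linarith
        _ = 1 := one_mul 1
    have h5 := (abs_le.1 h4).2
    have h7 : (x : ℝ) * ((chi d l : ℝ) / l) = (chi d l : ℝ) * ((x : ℝ) / l) := by ring
    rw [h7]
    linarith [mul_sub (chi d l : ℝ) ((x : ℝ) / l) ((x / l : ℕ) : ℝ)]
  have p2 : |∑ m ∈ Icc 1 (x / A), (1 : ℝ) *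
      (∑ l ∈ Icc 1 (x / m), (chi d l : ℝ) - ∑ l ∈ Icc 1 A, (chi d l : ℝ))| ≤
      2 * B * x * (1 + Real.log x) := by
    refine (Finset.abs_sum_le_sum_abs _ _).trans ?_
    calc ∑ m ∈ Icc 1 (x / A), |(1 : ℝ) *
          (∑ l ∈ Icc 1 (x / m), (chi d l : ℝ) - ∑ l ∈ Icc 1 A, (chi d l : ℝ))|
        ≤ ∑ m ∈ Icc 1 (x / A), 2 * B * x * (1 / (m : ℝ)) := by
          apply Finset.sum_le_sum
          intro m hm
          rw [mem_Icc] at hm
          rw [one_mul]
          have hAm : A ≤ x / m := by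
            rw [Nat.le_div_iff_mul_le hm.1, mul_comm]
            have := hm.2
            rwa [Nat.le_div_iff_mul_le (by omega)] at this
          have hm0 : (0 : ℝ) < m := by exact_mod_cast hm.1
          have h1 : ((x / m : ℕ) : ℝ) ≤ (x : ℝ) / m := Nat.cast_div_le
          have h2 : (A : ℝ) ≤ ((x / m : ℕ) : ℝ) := by exact_mod_cast hAm
          calc |∑ l ∈ Icc 1 (x / m), (chi d l : ℝ) - ∑ l ∈ Icc 1 A, (chi d l : ℝ)|
              ≤ |∑ l ∈ Icc 1 (x / m), (chi d l : ℝ)| + |∑ l ∈ Icc 1 A, (chi d l : ℝ)| := abs_sub _ _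
            _ ≤ B * ((x / m : ℕ) : ℝ) + B * A := add_le_add (hX _ hAm) (hX _ le_rfl)
            _ ≤ B * ((x : ℝ) / m) + B * ((x : ℝ) / m) := by
                apply add_le_add
                · exact mul_le_mul_of_nonneg_left h1 hB
                · exact mul_le_mul_of_nonneg_left (h2.trans h1) hB
            _ = 2 * B * x * (1 / (m : ℝ)) := by ring
      _ = 2 * B * x * ∑ m ∈ Icc 1 (x / A), (1 / (m : ℝ)) := by rw [Finset.mul_sum]
      _ ≤ 2 * B * x * (1 + Real.log x) := by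
          apply mul_le_mul_of_nonneg_left _ (by positivity)
          refine le_trans ?_ (sum_inv_le x)
          apply Finset.sum_le_sum_of_subset_of_nonneg
          · intro m hm
            rw [mem_Icc] at hm ⊢
            exact ⟨hm.1, hm.2.trans (Nat.div_le_self _ _)⟩
          · intro m _ _
            positivity
  have p2' := (abs_le.1 p2).1
  linarith

end Pool.Agent.Work.MP_e0c7e8_nt.SM
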