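import Pool.Agent.Work.MP_e0c7e8_nt.SM.Stmts
import Pool.Agent.Work.MP_e0c7e8_nt.SM.ItemN3

/-!
# Item N4: the tail of `L(1, χ)`
-/

set_option autoImplicit false

namespace Pool.Agent.Work.MP_e0c7e8_nt.SM

open Finset Filter Topology

namespace ItemN4

lemma tele (M0 k : ℕ) :
    ∑ n ∈ Ioc M0 (M0 + k), ((1 : ℝ) / n - 1 / ((n : ℝ) + 1)) =
      1 / ((M0 : ℝ) + 1) - 1 / ((M0 : ℝ) + k + 1) := by
  induction k with
  | zero => simp
  | succ k ih =>
    have h : Ioc M0 (M0 + (k + 1)) = insert (M0 + (k + 1)) (Ioc M0 (M0 + k)) := by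
      ext x; simp only [mem_Ioc, mem_insert]; omega
    have hnot : M0 + (k + 1) ∉ Ioc M0 (M0 + k) := by
      rw [mem_Ioc]; omega
    rw [h, Finset.sum_insert hnot, ih]
    push_cast
    ring

end ItemN4

open ItemN4 ItemN3 in
theorem claimN4 (h1 : ClaimS1) (h2 : ClaimS2) : ClaimN4 := by
  intro d A B hd hA hB hX
  have hd0 : d ≠ 0 := by rintro rfl; exact hd ⟨0, rfl⟩
  have hdR : (1 : ℝ) ≤ |(d : ℝ)| := by
    have : (1 : ℤ) ≤ |d| := Int.one_le_abs hd0
    exact_mod_cast this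
  have hd0R : (0 : ℝ) < |(d : ℝ)| := by linarith
  set M0 : ℕ := 4 * d.natAbs ^ 2 with hM0
  have hM0R : (M0 : ℝ) = 4 * |(d : ℝ)| ^ 2 := by
    rw [hM0]
    push_cast
    rw [Nat.cast_natAbs]
    push_cast
    ring
  have hM01 : 1 ≤ M0 := by
    have : 0 < d.natAbs := Int.natAbs_pos.2 hd0
    have h3 : 0 < d.natAbs ^ 2 := by positivity
    omega
  -- bound for every M
  have key : ∀ M : ℕ, A ≤ M → |∑ n ∈ Icc 1 M, (chi d n : ℝ) * (n : ℝ) ^ (-(1 : ℝ)) -
      ∑ m ∈ Icc 1 A, (chi d m : ℝ) / m| ≤ B * (6 + 2 * Real.log |(d : ℝ)|) + 1 / |(d : ℝ)| +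
        4 * |(d : ℝ)| * (1 / ((M : ℝ) + 1)) := by
    intro M hM
    have e0 : ∀ k : ℕ, ∑ n ∈ Icc 1 k, (chi d n : ℝ) * (n : ℝ) ^ (-(1 : ℝ)) =
        ∑ n ∈ Icc 1 k, (chi d n : ℝ) * (1 / (n : ℝ)) := by
      intro k
      apply Finset.sum_congr rfl
      intro n _
      rw [Real.rpow_neg_one, one_div]
    have e1 : ∑ m ∈ Icc 1 A, (chi d m : ℝ) / m = ∑ n ∈ Icc 1 A, (chi d n : ℝ) * (1 / (n : ℝ)) := by
      apply Finset.sum_congr rfl
      intro n _
      ring
    rw [e0, e1, ← sum_Ioc_eq (fun n => (chi d n : ℝ) * (1 / (n : ℝ))) hM]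
    obtain ⟨k, rfl⟩ : ∃ k, M = A + k := ⟨M - A, by omega⟩
    rw [abel_identity (fun n => (chi d n : ℝ)) (fun n => 1 / (n : ℝ))]
    set X : ℕ → ℝ := fun n => ∑ j ∈ Icc 1 n, (chi d j : ℝ) with hXdef
    have hw : ∀ n ∈ Ioc A (A + k), (∑ j ∈ Ioc A n, (chi d j : ℝ)) *
        (1 / ((n : ℕ) : ℝ) - 1 / (((n + 1 : ℕ)) : ℝ)) =
        X n * ((1 : ℝ) / n - 1 / ((n : ℝ) + 1)) - X A * ((1 : ℝ) / n - 1 / ((n : ℝ) + 1)) := by
      intro n hn
      rw [mem_Ioc] at hn
      rw [sum_Ioc_eq _ hn.1.le]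
      push_cast
      ring
    rw [Finset.sum_congr rfl hw, Finset.sum_sub_distrib, ← Finset.mul_sum, tele A k,
      sum_Ioc_eq _ (Nat.le_add_right A k)]
    have e2 : (X (A + k) - X A) * (1 / (((A + k + 1 : ℕ)) : ℝ)) +
        (∑ n ∈ Ioc A (A + k), X n * ((1 : ℝ) / n - 1 / ((n : ℝ) + 1)) -
          X A * (1 / ((A : ℝ) + 1) - 1 / ((A : ℝ) + k + 1))) =
        X (A + k) * (1 / ((((A + k : ℕ)) : ℝ) + 1)) +
          ∑ n ∈ Ioc A (A + k), X n * ((1 : ℝ) / n - 1 / ((n : ℝ) + 1)) - X A * (1 / ((A : ℝ) + 1)) := by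
      push_cast
      ring
    change |(X (A + k) - X A) * (1 / (((A + k + 1 : ℕ)) : ℝ)) +
        (∑ n ∈ Ioc A (A + k), X n * ((1 : ℝ) / n - 1 / ((n : ℝ) + 1)) -
          X A * (1 / ((A : ℝ) + 1) - 1 / ((A : ℝ) + k + 1)))| ≤ _
    rw [e2]
    have b1 : |X (A + k) * (1 / ((((A + k : ℕ)) : ℝ) + 1))| ≤
        4 * |(d : ℝ)| * (1 / ((((A + k : ℕ)) : ℝ) + 1)) := by
      have hp : (0 : ℝ) ≤ 1 / ((((A + k : ℕ)) : ℝ) + 1) := by positivity
      rw [abs_mul, abs_of_nonneg hp]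
      exact mul_le_mul_of_nonneg_right (h1 d hd _) hp
    have b2 : |X A * (1 / ((A : ℝ) + 1))| ≤ B := by
      have hp : (0 : ℝ) ≤ 1 / ((A : ℝ) + 1) := by positivity
      rw [abs_mul, abs_of_nonneg hp]
      calc |X A| * (1 / ((A : ℝ) + 1)) ≤ (B * A) * (1 / ((A : ℝ) + 1)) :=
            mul_le_mul_of_nonneg_right (hX A le_rfl) hp
        _ = B * (A / ((A : ℝ) + 1)) := by ring
        _ ≤ B * 1 := by
            apply mul_le_mul_of_nonneg_left _ hB
            rw [div_le_one (by positivity)]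
            linarith
        _ = B := mul_one B
    have b3 : |∑ n ∈ Ioc A (A + k), X n * ((1 : ℝ) / n - 1 / ((n : ℝ) + 1))| ≤
        B * (1 + Real.log M0) + 1 / |(d : ℝ)| := by
      refine (Finset.abs_sum_le_sum_abs _ _).trans ?_
      have hpt : ∀ n ∈ Ioc A (A + k), |X n * ((1 : ℝ) / n - 1 / ((n : ℝ) + 1))| ≤
          (if n ≤ M0 then B * (1 / (n : ℝ)) else 0) +
          (if n ≤ M0 then 0 else 4 * |(d : ℝ)| * ((1 : ℝ) / n - 1 / ((n : ℝ) + 1))) := by
        intro n hn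
        rw [mem_Ioc] at hn
        have hn0 : (0 : ℝ) < n := by
          have : 0 < n := by omega
          exact_mod_cast this
        have hw0 : (1 : ℝ) / n - 1 / ((n : ℝ) + 1) = 1 / (n * ((n : ℝ) + 1)) := by
          field_simp
          ring
        have hwp : (0 : ℝ) ≤ (1 : ℝ) / n - 1 / ((n : ℝ) + 1) := by
          rw [hw0]; positivity
        rw [abs_mul, abs_of_nonneg hwp]
        split_ifs with h
        · rw [add_zero]
          calc |X n| * ((1 : ℝ) / n - 1 / ((n : ℝ) + 1))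
              ≤ (B * n) * ((1 : ℝ) / n - 1 / ((n : ℝ) + 1)) :=
                mul_le_mul_of_nonneg_right (hX n hn.1.le) hwp
            _ = B * (1 / ((n : ℝ) + 1)) := by
                rw [hw0]
                field_simp
            _ ≤ B * (1 / (n : ℝ)) := by
                apply mul_le_mul_of_nonneg_left _ hB
                apply one_div_le_one_div_of_le hn0
                linarith
        · rw [zero_add]
          exact mul_le_mul_of_nonneg_right (h1 d hd n) hwp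
      refine (Finset.sum_le_sum hpt).trans ?_
      rw [Finset.sum_add_distrib]
      apply add_le_add
      · rw [← Finset.sum_filter, ← Finset.mul_sum]
        apply mul_le_mul_of_nonneg_left _ hB
        refine le_trans ?_ (sum_inv_le M0)
        apply Finset.sum_le_sum_of_subset_of_nonneg
        · intro n hn
          rw [mem_filter, mem_Ioc] at hn
          rw [mem_Icc]
          omega
        · intro n _ _
          positivity
      · have hsplit : ∑ n ∈ Ioc A (A + k), (if n ≤ M0 then 0 else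
            4 * |(d : ℝ)| * ((1 : ℝ) / n - 1 / ((n : ℝ) + 1))) ≤
            ∑ n ∈ Ioc M0 (M0 + (A + k)), 4 * |(d : ℝ)| * ((1 : ℝ) / n - 1 / ((n : ℝ) + 1)) := by
          have : ∀ n : ℕ, (if n ≤ M0 then (0 : ℝ) else
              4 * |(d : ℝ)| * ((1 : ℝ) / n - 1 / ((n : ℝ) + 1))) =
              (if ¬ n ≤ M0 then 4 * |(d : ℝ)| * ((1 : ℝ) / n - 1 / ((n : ℝ) + 1)) else 0) := by
            intro n
            split_ifs <;> simp_all
          simp_rw [this]
          rw [← Finset.sum_filter]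
          apply Finset.sum_le_sum_of_subset_of_nonneg
          · intro n hn
            rw [mem_filter, mem_Ioc] at hn
            rw [mem_Ioc]
            omega
          · intro n hn _
            rw [mem_Ioc] at hn
            have hn0 : (0 : ℝ) < n := by
              have : 0 < n := by omega
              exact_mod_cast this
            apply mul_nonneg (by positivity)
            rw [sub_nonneg]
            apply one_div_le_one_div_of_le hn0
            linarith
        refine hsplit.trans ?_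
        rw [← Finset.mul_sum, tele]
        have h9 : (1 : ℝ) / ((M0 : ℝ) + 1) - 1 / ((M0 : ℝ) + ((A + k : ℕ) : ℝ) + 1) ≤
            1 / (M0 : ℝ) := by
          have : (0 : ℝ) ≤ 1 / ((M0 : ℝ) + ((A + k : ℕ) : ℝ) + 1) := by positivity
          have h10 : (1 : ℝ) / ((M0 : ℝ) + 1) ≤ 1 / (M0 : ℝ) := by
            apply one_div_le_one_div_of_le
            · exact_mod_cast hM01
            · linarith
          linarith
        calc 4 * |(d : ℝ)| * ((1 : ℝ) / ((M0 : ℝ) + 1) - 1 / ((M0 : ℝ) + ((A + k : ℕ) : ℝ) + 1))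
            ≤ 4 * |(d : ℝ)| * (1 / (M0 : ℝ)) := mul_le_mul_of_nonneg_left h9 (by positivity)
          _ = 1 / |(d : ℝ)| := by
              rw [hM0R]
              field_simp
    have hlog : Real.log M0 ≤ 2 + 2 * Real.log |(d : ℝ)| := by
      rw [hM0R, Real.log_mul (by norm_num) (by positivity), Real.log_pow]
      have : Real.log 4 ≤ 2 := by
        have h4 : (4 : ℝ) = 2 ^ 2 := by norm_num
        rw [h4, Real.log_pow]
        have := Real.log_two_lt_d9
        push_cast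
        linarith
      push_cast
      linarith
    calc |X (A + k) * (1 / ((((A + k : ℕ)) : ℝ) + 1)) +
          ∑ n ∈ Ioc A (A + k), X n * ((1 : ℝ) / n - 1 / ((n : ℝ) + 1)) - X A * (1 / ((A : ℝ) + 1))|
        ≤ |X (A + k) * (1 / ((((A + k : ℕ)) : ℝ) + 1))| +
          |∑ n ∈ Ioc A (A + k), X n * ((1 : ℝ) / n - 1 / ((n : ℝ) + 1))| +
          |X A * (1 / ((A : ℝ) + 1))| := by
            refine (abs_sub _ _).trans ?_
            apply add_le_add_left
            exact abs_add_le _ _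
      _ ≤ 4 * |(d : ℝ)| * (1 / ((((A + k : ℕ)) : ℝ) + 1)) +
          (B * (1 + Real.log M0) + 1 / |(d : ℝ)|) + B := by
            apply add_le_add (add_le_add b1 b3) b2
      _ ≤ B * (6 + 2 * Real.log |(d : ℝ)|) + 1 / |(d : ℝ)| +
        4 * |(d : ℝ)| * (1 / ((((A + k : ℕ)) : ℝ) + 1)) := by
            have : B * (1 + Real.log M0) ≤ B * (3 + 2 * Real.log |(d : ℝ)|) :=
              mul_le_mul_of_nonneg_left (by linarith) hB
            nlinarith
  -- the limit
  have hlim := (h2 d hd 1 one_pos).1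
  have hl2 : Tendsto (fun M : ℕ => |∑ n ∈ Icc 1 M, (chi d n : ℝ) * (n : ℝ) ^ (-(1 : ℝ)) -
      ∑ m ∈ Icc 1 A, (chi d m : ℝ) / m|) atTop
      (𝓝 |LL d 1 - ∑ m ∈ Icc 1 A, (chi d m : ℝ) / m|) := (hlim.sub_const _).abs
  have hl3 : Tendsto (fun M : ℕ => B * (6 + 2 * Real.log |(d : ℝ)|) + 1 / |(d : ℝ)| +
      4 * |(d : ℝ)| * (1 / ((M : ℝ) + 1))) atTop
      (𝓝 (B * (6 + 2 * Real.log |(d : ℝ)|) + 1 / |(d : ℝ)| + 4 * |(d : ℝ)| * 0)) :=
    (tendsto_one_div_add_atTop_nhds_zero_nat.const_mul _).const_add _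
  rw [mul_zero, add_zero] at hl3
  apply le_of_tendsto_of_tendsto hl2 hl3
  filter_upwards [eventually_ge_atTop A] with M hM
  exact key M hM

end Pool.Agent.Work.MP_e0c7e8_nt.SM
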