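import Pool.Agent.Work.MP_e0c7e8_nt.SM.Stmts
import Pool.Agent.Work.MP_e0c7e8_nt.SM.Basic
import Pool.Agent.Work.MP_e0c7e8_nt.SM.ItemN3

/-!
# Item N5: from all ideals to primitive ideals
-/

set_option autoImplicit false

namespace Pool.Agent.Work.MP_e0c7e8_nt.SM

open Finset

namespace ItemN5

lemma TT_le (d : ℤ) (a : ℕ) (ha : 1 ≤ a) : TT d a ≤ a.divisors.card := by
  unfold TT
  split_ifs
  · rw [Nat.card_divisors (by omega)]
    refine Finset.pow_card_le_prod _ _ _ ?_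
    intro p hp
    have h1 : 1 ≤ a.factorization p := by
      have hpp := Nat.prime_of_mem_primeFactors hp
      exact (hpp.dvd_iff_one_le_factorization (by omega)).1 (Nat.dvd_of_mem_primeFactors hp)
    omega
  · exact Nat.zero_le _

lemma sum_tau (y : ℕ) : ∑ a ∈ Icc 1 y, (a.divisors.card : ℝ) ≤ y * (1 + Real.log y) := by
  have h1 : ∑ a ∈ Icc 1 y, a.divisors.card = ∑ l ∈ Icc 1 y, y / l := by
    have h2 : ∀ a ∈ Icc 1 y, a.divisors.card = ∑ l ∈ Icc 1 y, if l ∣ a then 1 else 0 := by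
      intro a ha
      rw [mem_Icc] at ha
      rw [← Finset.card_filter]
      congr 1
      ext l
      rw [Nat.mem_divisors, mem_filter, mem_Icc]
      constructor
      · rintro ⟨h3, _⟩
        exact ⟨⟨Nat.pos_of_dvd_of_pos h3 ha.1, (Nat.le_of_dvd ha.1 h3).trans ha.2⟩, h3⟩
      · rintro ⟨_, h3⟩
        exact ⟨h3, by omega⟩
    rw [Finset.sum_congr rfl h2, Finset.sum_comm]
    apply Finset.sum_congr rfl
    intro l _
    rw [← Finset.card_filter]
    have : Icc 1 y = Ioc 0 y := by ext; simp [Nat.succ_le_iff]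
    rw [this]
    exact Nat.Ioc_filter_dvd_card_eq_div y l
  have h3 : ∑ a ∈ Icc 1 y, (a.divisors.card : ℝ) = ∑ l ∈ Icc 1 y, ((y / l : ℕ) : ℝ) := by
    exact_mod_cast h1
  rw [h3]
  calc ∑ l ∈ Icc 1 y, ((y / l : ℕ) : ℝ) ≤ ∑ l ∈ Icc 1 y, (y : ℝ) * (1 / l) := by
        apply Finset.sum_le_sum
        intro l _
        rw [mul_one_div]
        exact Nat.cast_div_le
    _ = y * ∑ l ∈ Icc 1 y, (1 : ℝ) / l := by rw [Finset.mul_sum]
    _ ≤ y * (1 + Real.log y) :=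
        mul_le_mul_of_nonneg_left (ItemN3.sum_inv_le y) (Nat.cast_nonneg y)

lemma MM_le (d : ℤ) (y : ℕ) : (MM d y : ℝ) ≤ y * (1 + Real.log y) := by
  refine le_trans ?_ (sum_tau y)
  unfold MM
  push_cast
  apply Finset.sum_le_sum
  intro a ha
  rw [mem_Icc] at ha
  exact_mod_cast TT_le d a ha.1

lemma MM_mono (d : ℤ) {y x : ℕ} (h : y ≤ x) : MM d y ≤ MM d x := by
  unfold MM
  exact Finset.sum_le_sum_of_subset (Finset.Icc_subset_Icc_right h)

lemma sum_sq (x : ℕ) : ∑ e ∈ Icc 1 x, (1 : ℝ) / (e : ℝ) ^ 2 ≤ 2 := by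
  have key : ∀ x : ℕ, ∑ e ∈ Icc 1 (x + 1), (1 : ℝ) / (e : ℝ) ^ 2 ≤ 2 - 1 / ((x : ℝ) + 1) := by
    intro x
    induction x with
    | zero => norm_num
    | succ x ih =>
      rw [Finset.sum_Icc_succ_top (by omega)]
      have h1 : (1 : ℝ) / (((x + 1 + 1 : ℕ) : ℝ)) ^ 2 ≤ 1 / ((x : ℝ) + 1) -
          1 / (((x + 1 : ℕ) : ℝ) + 1) := by
        push_cast
        have hx : (0 : ℝ) ≤ x := Nat.cast_nonneg x
        rw [div_sub_div _ _ (by positivity) (by positivity), div_le_div_iff₀ (by positivity)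
          (by positivity)]
        nlinarith
      linarith
  rcases Nat.eq_zero_or_pos x with h | h
  · subst h; norm_num
  · obtain ⟨k, rfl⟩ : ∃ k, x = k + 1 := ⟨x - 1, by omega⟩
    have := key k
    have h2 : (0 : ℝ) ≤ 1 / ((k : ℝ) + 1) := by positivity
    linarith

lemma step32 (y : ℝ) (hy : 0 < y) :
    (y + 1) ^ (-(3 / 2) : ℝ) ≤ 2 * y ^ (-(1 / 2) : ℝ) - 2 * (y + 1) ^ (-(1 / 2) : ℝ) := by
  have e1 : (y + 1) ^ (-(3 / 2) : ℝ) = 1 / ((y + 1) * Real.sqrt (y + 1)) := by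
    rw [show (-(3 / 2) : ℝ) = -(1 + 1 / 2) by norm_num, Real.rpow_neg (by positivity),
      Real.rpow_add (by positivity), Real.rpow_one, ← Real.sqrt_eq_rpow, one_div]
  have e2 : ∀ z : ℝ, 0 < z → z ^ (-(1 / 2) : ℝ) = 1 / Real.sqrt z := by
    intro z hz
    rw [Real.rpow_neg hz.le, ← Real.sqrt_eq_rpow, one_div]
  rw [e1, e2 y hy, e2 (y + 1) (by linarith)]
  set a := Real.sqrt y with ha
  set b := Real.sqrt (y + 1) with hb
  have ha0 : 0 < a := Real.sqrt_pos.2 hy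
  have hb0 : 0 < b := Real.sqrt_pos.2 (by linarith)
  have ha2 : a ^ 2 = y := Real.sq_sqrt hy.le
  have hb2 : b ^ 2 = y + 1 := Real.sq_sqrt (by linarith)
  have hab : a ≤ b := Real.sqrt_le_sqrt (by linarith)
  have h3 : y + 1 = b ^ 2 := hb2.symm
  rw [h3]
  have h4 : 2 * (1 / a) - 2 * (1 / b) = 2 * (b - a) / (a * b) := by
    field_simp
  rw [h4, div_le_div_iff₀ (by positivity) (by positivity)]
  -- a b ≤ 2 (b - a) b ^ 3; (b - a) (b + a) = 1
  have h5 : (b - a) * (b + a) = 1 := by nlinarith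
  have h6 : 1 ≤ 2 * b * (b - a) := by nlinarith
  have h7 : a * b ≤ b ^ 2 := by nlinarith
  have h8 : b ^ 2 * 1 ≤ b ^ 2 * (2 * b * (b - a)) := mul_le_mul_of_nonneg_left h6 (by positivity)
  nlinarith

lemma sum_32 (x : ℕ) : ∑ e ∈ Icc 1 x, (e : ℝ) ^ (-(3 / 2) : ℝ) ≤ 3 := by
  have key : ∀ x : ℕ, ∑ e ∈ Icc 1 (x + 1), (e : ℝ) ^ (-(3 / 2) : ℝ) ≤
      3 - 2 * ((x : ℝ) + 1) ^ (-(1 / 2) : ℝ) := by
    intro x
    induction x with
    | zero => norm_num
    | succ x ih =>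
      rw [Finset.sum_Icc_succ_top (by omega)]
      have h1 := step32 ((x : ℝ) + 1) (by positivity)
      push_cast
      linarith
  rcases Nat.eq_zero_or_pos x with h | h
  · subst h; norm_num
  · obtain ⟨k, rfl⟩ : ∃ k, x = k + 1 := ⟨x - 1, by omega⟩
    have := key k
    have h2 : (0 : ℝ) ≤ ((k : ℝ) + 1) ^ (-(1 / 2) : ℝ) := by positivity
    linarith

/-- `n ↦ n ^ (-3/4)` as a homomorphism. -/
noncomputable def fh : ℕ →* ℝ where
  toFun n := (n : ℝ) ^ (-(3 / 4) : ℝ)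
  map_one' := by simp
  map_mul' m n := by
    push_cast
    exact Real.mul_rpow (Nat.cast_nonneg m) (Nat.cast_nonneg n)

lemma fh_apply (n : ℕ) : fh n = (n : ℝ) ^ (-(3 / 4) : ℝ) := rfl

lemma fh_prime {p : ℕ} (hp : p.Prime) : fh p ≤ 2 / 3 := by
  rw [fh_apply]
  have h2 : (2 : ℝ) ≤ p := by exact_mod_cast hp.two_le
  have h3 : (p : ℝ) ^ (-(3 / 4) : ℝ) ≤ (2 : ℝ) ^ (-(3 / 4) : ℝ) :=
    Real.rpow_le_rpow_of_nonpos (by norm_num) h2 (by norm_num)
  refine h3.trans ?_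
  have h4 : ((2 : ℝ) ^ (-(3 / 4) : ℝ)) ^ 4 ≤ (2 / 3 : ℝ) ^ 4 := by
    rw [← Real.rpow_natCast, ← Real.rpow_mul (by norm_num)]
    norm_num
  exact le_of_pow_le_pow_left₀ (by norm_num) (by norm_num) h4

lemma sum_g (D : ℕ) (hD : D ≠ 0) (x : ℕ) :
    ∑ g ∈ (Icc 1 x).filter (fun g => ∀ p ∈ g.primeFactors, p ∣ D), (g : ℝ) ^ (-(3 / 4) : ℝ) ≤
      (3 : ℝ) ^ D.primeFactors.card := by
  classical
  have hn : ∀ {p : ℕ}, p.Prime → ‖fh p‖ < 1 := by
    intro p hp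
    have h1 := fh_prime hp
    have h2 : 0 ≤ fh p := by rw [fh_apply]; positivity
    rw [Real.norm_of_nonneg h2]
    linarith
  obtain ⟨h1, h2⟩ := EulerProduct.summable_and_hasSum_factoredNumbers_prod_filter_prime_geometric
    (f := fh) hn D.primeFactors
  set G := (Icc 1 x).filter (fun g => ∀ p ∈ g.primeFactors, p ∣ D) with hG
  have hmem : ∀ g ∈ G, g ∈ Nat.factoredNumbers D.primeFactors := by
    intro g hg
    rw [hG, mem_filter, mem_Icc] at hg
    rw [Nat.mem_factoredNumbers]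
    refine ⟨by omega, fun p hp => ?_⟩
    have hp' : p ∈ g.primeFactors := by
      rw [Nat.mem_primeFactors]
      exact ⟨Nat.prime_of_mem_primeFactorsList hp, Nat.dvd_of_mem_primeFactorsList hp, by omega⟩
    rw [Nat.mem_primeFactors]
    exact ⟨Nat.prime_of_mem_primeFactorsList hp, hg.2 p hp', hD⟩
  have h3 : ∑ g ∈ G, (g : ℝ) ^ (-(3 / 4) : ℝ) =
      ∑ m ∈ G.subtype (fun m => m ∈ Nat.factoredNumbers D.primeFactors), fh (m : ℕ) := by
    have h4 := Finset.sum_subtype_of_mem (s := G)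
      (p := fun m => m ∈ Nat.factoredNumbers D.primeFactors) (fun m => fh m) hmem
    rw [h4]
    rfl
  rw [h3]
  have h5 : ∑ m ∈ G.subtype (fun m => m ∈ Nat.factoredNumbers D.primeFactors), fh (m : ℕ) ≤
      ∏ p ∈ D.primeFactors with p.Prime, (1 - fh p)⁻¹ := by
    refine sum_le_hasSum _ (fun m _ => ?_) h2
    rw [fh_apply]; positivity
  refine h5.trans ?_
  have h6 : D.primeFactors.filter (fun p => p.Prime) = D.primeFactors := by
    apply Finset.filter_true_of_mem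
    intro p hp
    exact Nat.prime_of_mem_primeFactors hp
  rw [h6, ← Finset.prod_const]
  apply Finset.prod_le_prod
  · intro p hp
    have := fh_prime (Nat.prime_of_mem_primeFactors hp)
    rw [inv_nonneg]
    linarith
  · intro p hp
    have := fh_prime (Nat.prime_of_mem_primeFactors hp)
    rw [inv_le_comm₀ (by linarith) (by norm_num)]
    norm_num
    linarith

end ItemN5

open ItemN5 in
theorem claimN5 (h2 : ClaimN2) (hN : ClaimN1) : ClaimN5 := by
  classical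
  intro ι hι
  obtain ⟨C1, hC1, hω⟩ := hN 3 (by norm_num) ι hι
  refine ⟨3 * (C1 * 2 ^ ι), by positivity, ?_⟩
  intro d x E hd hx hE
  have hD : 2 * d.natAbs ≠ 0 := by
    have := Int.natAbs_ne_zero.2 hd
    omega
  have hxR : (1 : ℝ) ≤ x := by exact_mod_cast hx
  have hlx : 0 ≤ Real.log x := Real.log_nonneg hxR
  have hE0 : 0 < E := by linarith
  set G := (Icc 1 x).filter (fun g => ∀ p ∈ g.primeFactors, p ∣ 2 * d.natAbs) with hG
  have hN2 : ∑ a ∈ Icc 1 x, (ff d a : ℝ) ≤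
      ∑ g ∈ G, ∑ e ∈ (Icc 1 x).filter (fun e => g * e ^ 2 ≤ x),
        (MM d (x / (g * e ^ 2)) : ℝ) := by
    have := h2 d x
    exact_mod_cast this
  refine hN2.trans ?_
  -- termwise bound
  have hterm : ∀ g ∈ G, ∀ e ∈ (Icc 1 x).filter (fun e => g * e ^ 2 ≤ x),
      (MM d (x / (g * e ^ 2)) : ℝ) ≤ (if (g : ℝ) * (e : ℝ) ^ 2 ≤ E then (MM d x : ℝ) else 0) +
        (x * (1 + Real.log x) * E ^ (-(1 / 4) : ℝ)) *
          ((g : ℝ) ^ (-(3 / 4) : ℝ) * (e : ℝ) ^ (-(3 / 2) : ℝ)) := by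
    intro g hg e he
    rw [hG, mem_filter, mem_Icc] at hg
    rw [mem_filter, mem_Icc] at he
    have hg1 : (1 : ℝ) ≤ g := by exact_mod_cast hg.1.1
    have he1 : (1 : ℝ) ≤ e := by exact_mod_cast he.1.1
    have hpos : 0 ≤ (x * (1 + Real.log x) * E ^ (-(1 / 4) : ℝ)) *
        ((g : ℝ) ^ (-(3 / 4) : ℝ) * (e : ℝ) ^ (-(3 / 2) : ℝ)) := by positivity
    split_ifs with h
    · have h3 : (MM d (x / (g * e ^ 2)) : ℝ) ≤ (MM d x : ℝ) := by
        exact_mod_cast MM_mono d (Nat.div_le_self x _)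
      linarith
    · push Not at h
      rw [zero_add]
      set y := x / (g * e ^ 2) with hy
      have hge : 0 < g * e ^ 2 := by
        have h4 : 0 < e := he.1.1
        have h5 : 0 < g := hg.1.1
        positivity
      have hyle : (y : ℝ) ≤ (x : ℝ) / ((g : ℝ) * (e : ℝ) ^ 2) := by
        have : ((x / (g * e ^ 2) : ℕ) : ℝ) ≤ (x : ℝ) / ((g * e ^ 2 : ℕ) : ℝ) := Nat.cast_div_le
        push_cast at this
        exact this
      have hy1 : 1 ≤ y := by
        rw [hy, Nat.le_div_iff_mul_le hge]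
        simpa using he.2
      have hyx : y ≤ x := Nat.div_le_self x _
      have hlog : Real.log y ≤ Real.log x :=
        Real.log_le_log (by exact_mod_cast hy1) (by exact_mod_cast hyx)
      have hlogy : 0 ≤ Real.log y := Real.log_nonneg (by exact_mod_cast hy1)
      set z := (g : ℝ) * (e : ℝ) ^ 2 with hz
      have hz0 : 0 < z := by positivity
      have h6 : (MM d y : ℝ) ≤ (x / z) * (1 + Real.log x) := by
        refine (MM_le d y).trans ?_
        exact mul_le_mul hyle (by linarith) (by linarith) (by positivity)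
      have h7 : (1 : ℝ) / z ≤ E ^ (-(1 / 4) : ℝ) * z ^ (-(3 / 4) : ℝ) := by
        have e1 : (1 : ℝ) / z = z ^ (-(1 / 4) : ℝ) * z ^ (-(3 / 4) : ℝ) := by
          rw [← Real.rpow_add hz0]
          norm_num
          rw [Real.rpow_neg_one]
        rw [e1]
        apply mul_le_mul_of_nonneg_right _ (by positivity)
        exact Real.rpow_le_rpow_of_nonpos hE0 h.le (by norm_num)
      have h8 : z ^ (-(3 / 4) : ℝ) = (g : ℝ) ^ (-(3 / 4) : ℝ) * (e : ℝ) ^ (-(3 / 2) : ℝ) := by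
        rw [hz, Real.mul_rpow (by positivity) (by positivity)]
        congr 1
        rw [← Real.rpow_natCast, ← Real.rpow_mul (by positivity)]
        norm_num
      rw [h8] at h7
      calc (MM d y : ℝ) ≤ (x / z) * (1 + Real.log x) := h6
        _ = (x * (1 + Real.log x)) * (1 / z) := by ring
        _ ≤ (x * (1 + Real.log x)) * (E ^ (-(1 / 4) : ℝ) *
            ((g : ℝ) ^ (-(3 / 4) : ℝ) * (e : ℝ) ^ (-(3 / 2) : ℝ))) :=
            mul_le_mul_of_nonneg_left h7 (by positivity)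
        _ = _ := by ring
  -- enlarge the range of e
  have hstep : ∑ g ∈ G, ∑ e ∈ (Icc 1 x).filter (fun e => g * e ^ 2 ≤ x),
        (MM d (x / (g * e ^ 2)) : ℝ) ≤
      ∑ g ∈ G, ∑ e ∈ Icc 1 x, ((if (g : ℝ) * (e : ℝ) ^ 2 ≤ E then (MM d x : ℝ) else 0) +
        (x * (1 + Real.log x) * E ^ (-(1 / 4) : ℝ)) *
          ((g : ℝ) ^ (-(3 / 4) : ℝ) * (e : ℝ) ^ (-(3 / 2) : ℝ))) := by
    apply Finset.sum_le_sum
    intro g hg
    refine (Finset.sum_le_sum (hterm g hg)).trans ?_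
    apply Finset.sum_le_sum_of_subset_of_nonneg (Finset.filter_subset _ _)
    intro e _ _
    have : (0 : ℝ) ≤ if (g : ℝ) * (e : ℝ) ^ 2 ≤ E then (MM d x : ℝ) else 0 := by
      split_ifs <;> positivity
    positivity
  refine hstep.trans ?_
  simp only [Finset.sum_add_distrib]
  have hA : ∑ g ∈ G, ∑ e ∈ Icc 1 x, (if (g : ℝ) * (e : ℝ) ^ 2 ≤ E then (MM d x : ℝ) else 0) ≤
      2 * E * MM d x := by
    rw [Finset.sum_comm]
    have h9 : ∀ e ∈ Icc 1 x,
        ∑ g ∈ G, (if (g : ℝ) * (e : ℝ) ^ 2 ≤ E then (MM d x : ℝ) else 0) ≤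
        (E * MM d x) * (1 / (e : ℝ) ^ 2) := by
      intro e he
      rw [mem_Icc] at he
      have he1 : (1 : ℝ) ≤ e := by exact_mod_cast he.1
      have he2 : (0 : ℝ) < (e : ℝ) ^ 2 := by positivity
      rw [← Finset.sum_filter, Finset.sum_const, nsmul_eq_mul]
      have h10 : (G.filter (fun g : ℕ => (g : ℝ) * (e : ℝ) ^ 2 ≤ E)).card ≤
          ⌊E / (e : ℝ) ^ 2⌋₊ := by
        have hsub : G.filter (fun g : ℕ => (g : ℝ) * (e : ℝ) ^ 2 ≤ E) ⊆
            Icc 1 ⌊E / (e : ℝ) ^ 2⌋₊ := by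
          intro g hg
          rw [mem_filter, hG, mem_filter, mem_Icc] at hg
          rw [mem_Icc]
          refine ⟨hg.1.1.1, Nat.le_floor ?_⟩
          rw [le_div_iff₀ he2]
          exact hg.2
        refine (Finset.card_le_card hsub).trans ?_
        simp
      have h11 : ((G.filter (fun g : ℕ => (g : ℝ) * (e : ℝ) ^ 2 ≤ E)).card : ℝ) ≤
          E / (e : ℝ) ^ 2 := by
        refine le_trans (by exact_mod_cast h10) (Nat.floor_le (by positivity))
      calc _ ≤ E / (e : ℝ) ^ 2 * (MM d x : ℝ) :=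
            mul_le_mul_of_nonneg_right h11 (Nat.cast_nonneg _)
        _ = _ := by ring
    refine (Finset.sum_le_sum h9).trans ?_
    rw [← Finset.mul_sum]
    have h12 := sum_sq x
    have h13 : 0 ≤ E * (MM d x : ℝ) := by positivity
    calc _ ≤ (E * (MM d x : ℝ)) * 2 := mul_le_mul_of_nonneg_left h12 h13
      _ = _ := by ring
  have hB : ∑ g ∈ G, ∑ e ∈ Icc 1 x, (x * (1 + Real.log x) * E ^ (-(1 / 4) : ℝ)) *
          ((g : ℝ) ^ (-(3 / 4) : ℝ) * (e : ℝ) ^ (-(3 / 2) : ℝ)) ≤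
      3 * (C1 * 2 ^ ι) * |(d : ℝ)| ^ ι * x * (1 + Real.log x) * E ^ (-(1 / 4) : ℝ) := by
    have e1 : ∑ g ∈ G, ∑ e ∈ Icc 1 x, (x * (1 + Real.log x) * E ^ (-(1 / 4) : ℝ)) *
          ((g : ℝ) ^ (-(3 / 4) : ℝ) * (e : ℝ) ^ (-(3 / 2) : ℝ)) =
        (x * (1 + Real.log x) * E ^ (-(1 / 4) : ℝ)) *
          ((∑ g ∈ G, (g : ℝ) ^ (-(3 / 4) : ℝ)) * ∑ e ∈ Icc 1 x, (e : ℝ) ^ (-(3 / 2) : ℝ)) := by
      rw [Finset.sum_mul_sum, Finset.mul_sum]
      apply Finset.sum_congr rfl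
      intro g _
      rw [Finset.mul_sum]
    rw [e1]
    have h14 := sum_g (2 * d.natAbs) hD x
    have h15 := sum_32 x
    have h16 := hω (2 * d.natAbs) (by omega)
    have h17 : ((2 * d.natAbs : ℕ) : ℝ) ^ ι = 2 ^ ι * |(d : ℝ)| ^ ι := by
      rw [← Real.mul_rpow (by norm_num) (abs_nonneg _)]
      congr 1
      push_cast
      rw [Nat.cast_natAbs]
      push_cast
      ring
    rw [h17] at h16
    have h18 : (0 : ℝ) ≤ ∑ e ∈ Icc 1 x, (e : ℝ) ^ (-(3 / 2) : ℝ) :=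
      Finset.sum_nonneg (fun e _ => by positivity)
    have h19 : (∑ g ∈ G, (g : ℝ) ^ (-(3 / 4) : ℝ)) * ∑ e ∈ Icc 1 x, (e : ℝ) ^ (-(3 / 2) : ℝ) ≤
        (C1 * (2 ^ ι * |(d : ℝ)| ^ ι)) * 3 :=
      mul_le_mul (h14.trans h16) h15 h18 (by positivity)
    calc _ ≤ (x * (1 + Real.log x) * E ^ (-(1 / 4) : ℝ)) *
          ((C1 * (2 ^ ι * |(d : ℝ)| ^ ι)) * 3) := mul_le_mul_of_nonneg_left h19 (by positivity)
      _ = _ := by ring
  exact add_le_add hA hB

end Pool.Agent.Work.MP_e0c7e8_nt.SM
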