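import Pool.Agent.Work.MP_e0c7e8_nt.SM.Stmts
import Pool.Agent.Work.MP_e0c7e8_nt.SM.Basic

/-!
# Item S1: partial sums of `chi d`
-/

set_option autoImplicit false

namespace Pool.Agent.Work.MP_e0c7e8_nt.SM

open Finset

namespace ItemS1

lemma isSquare_or_odd (q : ℕ) (hq : q ≠ 0) :
    IsSquare q ∨ ∃ l k M : ℕ, l.Prime ∧ Odd k ∧ ¬ l ∣ M ∧ q = l ^ k * M := by
  obtain ⟨a, b, hab, hsq⟩ := Nat.sq_mul_squarefree q
  by_cases ha : a = 1
  · left
    exact ⟨b, by rw [← hab, ha]; ring⟩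
  · right
    obtain ⟨l, hl, hla⟩ := Nat.exists_prime_and_dvd ha
    have ha0 : a ≠ 0 := fun h => by rw [h] at hsq; exact not_squarefree_zero hsq
    have hb0 : b ≠ 0 := by
      rintro rfl
      apply hq
      rw [← hab]
      simp
    obtain ⟨c, rfl⟩ := hla
    have hlc : ¬ l ∣ c := by
      rintro ⟨c', rfl⟩
      have := hsq l ⟨c', by ring⟩
      exact hl.one_lt.ne' (Nat.isUnit_iff.1 this)
    obtain ⟨e, m, hm, hbm⟩ := Nat.exists_eq_pow_mul_and_not_dvd hb0 l hl.ne_one
    refine ⟨l, 2 * e + 1, m ^ 2 * c, hl, ⟨e, rfl⟩, ?_, ?_⟩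
    · intro h
      rcases (Nat.Prime.dvd_mul hl).1 h with h | h
      · exact hm (hl.dvd_of_dvd_pow h)
      · exact hlc h
    · rw [← hab, hbm]
      ring

lemma decomp (s : ℤ) (e q n : ℕ) : jacobiSym (s * 2 ^ e * (q : ℤ)) n =
    jacobiSym s n * jacobiSym 2 n ^ e * jacobiSym q n := by
  rw [jacobiSym.mul_left, jacobiSym.mul_left, jacobiSym.pow_left]

lemma two_of {n c : ℕ} (hn : n % 8 = c % 8) (hc : Odd n) : jacobiSym 2 n = ZMod.χ₈ (c : ZMod 8) := by
  rw [jacobiSym.at_two hc]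
  congr 1
  exact (ZMod.natCast_eq_natCast_iff' n c 8).2 hn

lemma neg_one_of {n c : ℕ} (hn : n % 8 = c % 8) (hc : Odd n) :
    jacobiSym (-1) n = ZMod.χ₄ (c : ZMod 4) := by
  rw [jacobiSym.at_neg_one hc]
  congr 1
  exact (ZMod.natCast_eq_natCast_iff' n c 4).2 (by omega)

lemma exists_neg_A (s : ℤ) (hs : s = 1 ∨ s = -1) (e l k M : ℕ) (hl : l.Prime) (hk : Odd k)
    (hlM : ¬ l ∣ M) (hodd : Odd (l ^ k * M)) :
    ∃ n : ℕ, chi (s * 2 ^ e * ((l ^ k * M : ℕ) : ℤ)) n = -1 := by
  have hk0 : k ≠ 0 := fun h => by rw [h] at hk; exact absurd hk (by decide)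
  have hM : Odd M := (Nat.odd_mul.1 hodd).2
  have hlo : Odd l := by
    have := (Nat.odd_mul.1 hodd).1
    exact Nat.Odd.of_mul_left (m := l) (n := l ^ (k - 1)) (by
      rw [← pow_succ', Nat.sub_add_cancel (Nat.one_le_iff_ne_zero.2 hk0)]; exact this)
  have : Fact l.Prime := ⟨hl⟩
  have hl2 : l ≠ 2 := fun h => by rw [h] at hlo; exact absurd hlo (by decide)
  obtain ⟨a, ha⟩ := FiniteField.exists_nonsquare (F := ZMod l) (by
    rw [ZMod.ringChar_zmod_n]; exact hl2)
  have hco : Nat.Coprime (8 * M) l := by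
    rw [Nat.coprime_comm, Nat.Prime.coprime_iff_not_dvd hl]
    intro h
    rcases (Nat.Prime.dvd_mul hl).1 h with h | h
    · have h8 : l ∣ 2 ^ 3 := by simpa using h
      have h2 : l ∣ 2 := hl.dvd_of_dvd_pow h8
      exact hl2 ((Nat.prime_dvd_prime_iff_eq hl Nat.prime_two).1 h2)
    · exact hlM h
  obtain ⟨n, hn1, hn2⟩ := Nat.chineseRemainder hco 1 a.val
  have hn8 : n % 8 = 1 := by
    have := hn1.of_mul_right M
    exact this
  have hnM : n ≡ 1 [MOD M] := hn1.of_mul_left 8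
  have hno : Odd n := by rw [Nat.odd_iff]; omega
  refine ⟨n, ?_⟩
  have hs1 : jacobiSym s n = 1 := by
    rcases hs with rfl | rfl
    · exact jacobiSym.one_left n
    · rw [neg_one_of (c := 1) (by simpa using hn8) hno]; decide
  have h21 : jacobiSym 2 n = 1 := by
    rw [two_of (c := 1) (by simpa using hn8) hno]; decide
  have hM0 : M ≠ 0 := fun h => by rw [h] at hM; exact absurd hM (by decide)
  have hl1 : jacobiSym n l = -1 := by
    rw [← jacobiSym.legendreSym.to_jacobiSym, legendreSym.eq_neg_one_iff]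
    have : ((n : ℤ) : ZMod l) = a := by
      have h3 := (ZMod.natCast_eq_natCast_iff n a.val l).2 hn2
      rw [ZMod.natCast_zmod_val] at h3
      simpa using h3
    rw [this]
    exact ha
  have hMn : jacobiSym n M = 1 := by
    rw [← jacobiSym.one_left M]
    apply jacobiSym.mod_left'
    have h3 : (n : ℤ) % M = ((n % M : ℕ) : ℤ) := by push_cast; rfl
    have h4 : (1 : ℤ) % M = ((1 % M : ℕ) : ℤ) := by push_cast; rfl
    rw [h3, h4]
    exact congrArg _ hnM
  rw [chi_of_odd hno, decomp, hs1, h21, one_pow, one_mul, one_mul,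
    jacobiSym.quadratic_reciprocity_one_mod_four' hodd (by omega : n % 4 = 1),
    jacobiSym.mul_right' _ (pow_ne_zero _ hl.ne_zero) hM0, jacobiSym.pow_right, hl1, hMn, mul_one]
  exact hk.neg_one_pow

lemma exists_neg_B (s : ℤ) (e t c : ℕ) (ht : Odd t) (hc : Odd c)
    (h : jacobiSym s c * (ZMod.χ₈ (c : ZMod 8)) ^ e = -1) (hs : s = 1 ∨ s = -1) :
    ∃ n : ℕ, chi (s * 2 ^ e * ((t * t : ℕ) : ℤ)) n = -1 := by
  have hco : Nat.Coprime 8 (t * t) := by
    have h1 : Nat.Coprime 2 t := (Nat.coprime_two_left (n := t)).2 ht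
    have h2 : Nat.Coprime (2 ^ 3) t := Nat.Coprime.pow_left 3 h1
    have h3 : Nat.Coprime 8 t := by simpa using h2
    exact Nat.Coprime.mul_right h3 h3
  obtain ⟨n, hn1, hn2⟩ := Nat.chineseRemainder hco c 1
  have hn8 : n % 8 = c % 8 := hn1
  have hno : Odd n := by rw [Nat.odd_iff] at hc ⊢; omega
  refine ⟨n, ?_⟩
  have hnt : Nat.Coprime t n := by
    have h1 : n ≡ 1 [MOD t] := hn2.of_mul_right t
    have h2 : Nat.gcd n t = Nat.gcd 1 t := h1.gcd_eq
    rw [Nat.coprime_comm]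
    rw [Nat.Coprime, h2, Nat.gcd_one_left]
  have hq : jacobiSym ((t * t : ℕ) : ℤ) n = 1 := by
    have : ((t * t : ℕ) : ℤ) = (t : ℤ) ^ 2 := by push_cast; ring
    rw [this]
    exact jacobiSym.sq_one' (by simpa [Int.gcd] using hnt)
  have hsn : jacobiSym s n = jacobiSym s c := by
    rcases hs with rfl | rfl
    · rw [jacobiSym.one_left, jacobiSym.one_left]
    · rw [neg_one_of hn8 hno, neg_one_of rfl hc]
  rw [chi_of_odd hno, decomp, hq, mul_one, hsn, two_of hn8 hno]
  exact h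

lemma exists_neg {d : ℤ} (hd : ¬ IsSquare d) : ∃ n : ℕ, chi d n = -1 := by
  have hd0 : d ≠ 0 := by
    rintro rfl
    exact hd ⟨0, by simp⟩
  obtain ⟨e, q, hq, hdq⟩ := Nat.exists_eq_two_pow_mul_odd (Int.natAbs_ne_zero.2 hd0)
  have hs : ∃ s : ℤ, (s = 1 ∨ s = -1) ∧ d = s * 2 ^ e * (q : ℤ) := by
    have h1 : ((d.natAbs : ℕ) : ℤ) = 2 ^ e * (q : ℤ) := by rw [hdq]; push_cast; ring
    rcases Int.natAbs_eq d with h | h
    · exact ⟨1, Or.inl rfl, by rw [one_mul, ← h1, ← h]⟩
    · exact ⟨-1, Or.inr rfl, by rw [neg_one_mul, neg_mul, ← h1, ← h]⟩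
  obtain ⟨s, hs, hds⟩ := hs
  have hq0 : q ≠ 0 := fun h => by rw [h] at hq; exact absurd hq (by decide)
  rcases isSquare_or_odd q hq0 with ⟨t, ht⟩ | ⟨l, k, M, hl, hk, hlM, hqM⟩
  · rw [ht] at hds hq
    have hto : Odd t := (Nat.odd_mul.1 hq).1
    rcases Nat.even_or_odd e with he | he
    · rcases hs with rfl | rfl
      · exfalso
        obtain ⟨f, rfl⟩ := he
        apply hd
        exact ⟨2 ^ f * t, by rw [hds, pow_add]; push_cast; ring⟩
      · rw [hds]
        apply exists_neg_B (-1) e t 3 hto (by decide) _ (Or.inr rfl)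
        have h1 : jacobiSym (-1) 3 = -1 := by
          rw [neg_one_of (c := 3) rfl (by decide)]; decide
        have h2 : ZMod.χ₈ ((3 : ℕ) : ZMod 8) = -1 := by decide
        rw [h1, h2, he.neg_one_pow, mul_one]
    · rcases hs with rfl | rfl
      · rw [hds]
        apply exists_neg_B 1 e t 3 hto (by decide) _ (Or.inl rfl)
        have h2 : ZMod.χ₈ ((3 : ℕ) : ZMod 8) = -1 := by decide
        rw [jacobiSym.one_left, h2, he.neg_one_pow, one_mul]
      · rw [hds]
        apply exists_neg_B (-1) e t 5 hto (by decide) _ (Or.inr rfl)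
        have h1 : jacobiSym (-1) 5 = 1 := by
          rw [neg_one_of (c := 5) rfl (by decide)]; decide
        have h2 : ZMod.χ₈ ((5 : ℕ) : ZMod 8) = -1 := by decide
        rw [h1, h2, he.neg_one_pow, one_mul]
  · rw [hqM] at hds hq
    rw [hds]
    exact exists_neg_A s hs e l k M hl hk hlM hq

lemma chi_mod (d : ℤ) (n : ℕ) : chi d (n % (4 * d.natAbs)) = chi d n := by
  have h : Function.Periodic (chi d) (4 * d.natAbs) := fun n => chi_periodic d n
  exact h.map_mod_nat n

lemma period_sum {d : ℤ} (hd : ¬ IsSquare d) : ∑ k ∈ range (4 * d.natAbs), chi d k = 0 := by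
  obtain ⟨n, hn⟩ := exists_neg hd
  have hd0 : d ≠ 0 := by
    rintro rfl
    exact hd ⟨0, by simp⟩
  have hP : 0 < 4 * d.natAbs := by have := Int.natAbs_pos.2 hd0; omega
  have hno : Odd n := by
    by_contra h
    rw [chi_of_not_odd h] at hn
    exact absurd hn (by decide)
  have hcd : Nat.Coprime d.natAbs n := by
    by_contra h
    have : NeZero n := ⟨fun h => by rw [h] at hno; exact absurd hno (by decide)⟩
    have h0 : jacobiSym d n = 0 := by
      rw [jacobiSym.eq_zero_iff_not_coprime]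
      simpa [Int.gcd] using h
    rw [chi_of_odd hno, h0] at hn
    exact absurd hn (by decide)
  have hco : Nat.Coprime (4 * d.natAbs) n := by
    apply Nat.Coprime.mul_left _ hcd
    have h1 : Nat.Coprime 2 n := (Nat.coprime_two_left (n := n)).2 hno
    have h2 : Nat.Coprime (2 ^ 2) n := Nat.Coprime.pow_left 2 h1
    simpa using h2
  have hinj : Set.InjOn (fun k => (n * k) % (4 * d.natAbs))
      (range (4 * d.natAbs) : Set ℕ) := by
    intro a ha b hb hab
    have ha' : a < 4 * d.natAbs := by simpa using ha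
    have hb' : b < 4 * d.natAbs := by simpa using hb
    have h1 : n * a ≡ n * b [MOD 4 * d.natAbs] := hab
    have h2 : a ≡ b [MOD 4 * d.natAbs] := Nat.ModEq.cancel_left_of_coprime hco h1
    have h3 : a % (4 * d.natAbs) = b % (4 * d.natAbs) := h2
    rwa [Nat.mod_eq_of_lt ha', Nat.mod_eq_of_lt hb'] at h3
  have hmaps : Set.MapsTo (fun k => (n * k) % (4 * d.natAbs))
      (range (4 * d.natAbs) : Set ℕ) (range (4 * d.natAbs) : Set ℕ) := by
    intro a _
    have := Nat.mod_lt (n * a) hP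
    simpa using this
  have himg : (range (4 * d.natAbs)).image (fun k => (n * k) % (4 * d.natAbs)) =
      range (4 * d.natAbs) := by
    apply Finset.eq_of_subset_of_card_le
    · intro x hx
      obtain ⟨a, ha, rfl⟩ := Finset.mem_image.1 hx
      exact Finset.mem_range.2 (Nat.mod_lt _ hP)
    · rw [Finset.card_image_of_injOn hinj]
  have hsum : ∑ k ∈ range (4 * d.natAbs), chi d k =
      ∑ k ∈ range (4 * d.natAbs), chi d ((n * k) % (4 * d.natAbs)) := by
    conv_lhs => rw [← himg]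
    rw [Finset.sum_image hinj]
  have hneg : ∑ k ∈ range (4 * d.natAbs), chi d ((n * k) % (4 * d.natAbs)) =
      - ∑ k ∈ range (4 * d.natAbs), chi d k := by
    rw [← Finset.sum_neg_distrib]
    apply Finset.sum_congr rfl
    intro k _
    rw [chi_mod, chi_mul, hn, neg_one_mul]
  rw [hneg] at hsum
  linarith

lemma sum_range_period {d : ℤ} (hd : ¬ IsSquare d) (q r : ℕ) :
    ∑ k ∈ range (4 * d.natAbs * q + r), chi d k = ∑ k ∈ range r, chi d k := by
  induction q with
  | zero => simp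
  | succ q ih =>
    have h1 : 4 * d.natAbs * (q + 1) + r = 4 * d.natAbs + (4 * d.natAbs * q + r) := by ring
    rw [h1, Finset.sum_range_add, period_sum hd, zero_add, ← ih]
    apply Finset.sum_congr rfl
    intro k _
    rw [add_comm, chi_periodic]

end ItemS1

theorem claimS1 : ClaimS1 := by
  intro d hd N
  have hd0 : d ≠ 0 := by
    rintro rfl
    exact hd ⟨0, by simp⟩
  have hP : 0 < 4 * d.natAbs := by have := Int.natAbs_pos.2 hd0; omega
  have h1 : ∑ n ∈ Icc 1 N, chi d n = ∑ n ∈ range (N + 1), chi d n := by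
    rw [Finset.range_eq_Ico, Finset.sum_eq_sum_Ico_succ_bot (by omega : 0 < N + 1), chi_zero,
      zero_add]
    rfl
  have h2 : ∑ n ∈ range (N + 1), chi d n =
      ∑ n ∈ range ((N + 1) % (4 * d.natAbs)), chi d n := by
    conv_lhs => rw [← Nat.div_add_mod (N + 1) (4 * d.natAbs)]
    exact ItemS1.sum_range_period hd _ _
  have h3 : |∑ n ∈ range ((N + 1) % (4 * d.natAbs)), chi d n| ≤ 4 * (d.natAbs : ℤ) := by
    refine (Finset.abs_sum_le_sum_abs _ _).trans ?_
    refine (Finset.sum_le_sum fun n _ => abs_chi_le d n).trans ?_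
    simp only [Finset.sum_const, Finset.card_range, nsmul_eq_mul, mul_one]
    have := (Nat.mod_lt (N + 1) hP).le
    exact_mod_cast this
  have h4 : |∑ n ∈ Icc 1 N, chi d n| ≤ 4 * |d| := by
    rw [h1, h2, Int.abs_eq_natAbs d]
    exact h3
  have h5 : (∑ n ∈ Icc 1 N, (chi d n : ℝ)) = ((∑ n ∈ Icc 1 N, chi d n : ℤ) : ℝ) := by
    push_cast
    rfl
  rw [h5]
  exact_mod_cast h4

end Pool.Agent.Work.MP_e0c7e8_nt.SM
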