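import Pool.Agent.Work.MP_e0c7e8_nt.SM.Stmts
import Pool.Agent.Work.MP_e0c7e8_nt.SM.Basic

/-!
# Item S3: continuity of `L(β, χ)`
-/

set_option autoImplicit false

namespace Pool.Agent.Work.MP_e0c7e8_nt.SM

open Finset Filter Topology

theorem claimS3 (h2 : ClaimS2) : ClaimS3 := by
  intro d hd
  have hunif : TendstoUniformlyOn (fun (N : ℕ) (β : ℝ) =>
      ∑ n ∈ Icc 1 N, (chi d n : ℝ) * (n : ℝ) ^ (-β)) (LL d) atTop (Set.Icc (1 / 2) 1) := by
    rw [Metric.tendstoUniformlyOn_iff]
    intro ε hε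
    have htend0 : Tendsto (fun N : ℕ => 8 * |(d : ℝ)| * (N : ℝ) ^ (-(1 / 2 : ℝ))) atTop (𝓝 0) := by
      have := (tendsto_rpow_neg_atTop (show (0 : ℝ) < 1 / 2 by norm_num)).comp
        tendsto_natCast_atTop_atTop
      have h2 := this.const_mul (8 * |(d : ℝ)|)
      simpa using h2
    have h3 : ∀ᶠ N : ℕ in atTop, 8 * |(d : ℝ)| * (N : ℝ) ^ (-(1 / 2 : ℝ)) < ε :=
      htend0.eventually (gt_mem_nhds hε)
    filter_upwards [h3, eventually_ge_atTop 1] with N hN hN1 β hβ
    rw [Real.dist_eq]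
    refine ((h2 d hd β (by linarith [hβ.1])).2 N hN1).trans_lt (lt_of_le_of_lt ?_ hN)
    apply mul_le_mul_of_nonneg_left _ (by positivity)
    apply Real.rpow_le_rpow_of_exponent_le
    · exact_mod_cast hN1
    · linarith [hβ.1]
  apply hunif.continuousOn
  apply Filter.Eventually.frequently
  filter_upwards with N
  apply continuousOn_finset_sum
  intro n hn
  rw [mem_Icc] at hn
  apply ContinuousOn.mul continuousOn_const
  apply ContinuousOn.rpow continuousOn_const (continuousOn_neg)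
  intro x _
  left
  have : 0 < n := hn.1
  positivity

end Pool.Agent.Work.MP_e0c7e8_nt.SM
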