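import Pool.Agent.Work.MP_e0c7e8_nt.SM.Stmts
import Pool.Agent.Work.MP_e0c7e8_nt.SM.ItemN3

/-!
# Item S7a: partial sums of `(1 * χ)(n) n ^ (-β)`
-/

set_option autoImplicit false

namespace Pool.Agent.Work.MP_e0c7e8_nt.SM

open Finset Filter Topology

namespace ItemS7

lemma rpow_tangent {x y p : ℝ} (hx : 0 ≤ x) (hy : 0 < y) (hp0 : 0 ≤ p) (hp1 : p ≤ 1) :
    x ^ p ≤ y ^ p + p * y ^ (p - 1) * (x - y) := by
  have h1 := rpow_one_add_le_one_add_mul_self (s := x / y - 1) (p := p)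
    (by have : 0 ≤ x / y := by positivity
        linarith) hp0 hp1
  have e1 : 1 + (x / y - 1) = x / y := by ring
  rw [e1, Real.div_rpow hx hy.le] at h1
  have hyp : 0 < y ^ p := Real.rpow_pos_of_pos hy p
  rw [div_le_iff₀ hyp] at h1
  refine h1.trans (le_of_eq ?_)
  rw [Real.rpow_sub hy, Real.rpow_one]
  field_simp

/-- `Σ_{m ≤ M} m^{-β} ≤ M^{1-β}/(1-β)` -/
lemma sum_rpow_le (β : ℝ) (h1 : 0 ≤ β) (h2 : β < 1) (M : ℕ) :
    ∑ m ∈ Icc 1 M, (m : ℝ) ^ (-β) ≤ (M : ℝ) ^ (1 - β) / (1 - β) := by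
  have hp : 0 < 1 - β := by linarith
  induction M with
  | zero =>
    simp only [Nat.cast_zero]
    rw [Real.zero_rpow hp.ne']
    simp
  | succ M ih =>
    rw [Finset.sum_Icc_succ_top (by omega)]
    have hM : (0 : ℝ) < (M : ℝ) + 1 := by positivity
    have t2 := rpow_tangent (x := (M : ℝ)) (y := (M : ℝ) + 1) (p := 1 - β) (by positivity)
      (by positivity) hp.le (by linarith)
    have e : 1 - β - 1 = -β := by ring
    rw [e] at t2
    have u2 : ((M : ℝ) + 1) ^ (-β) ≤ (((M : ℝ) + 1) ^ (1 - β) - (M : ℝ) ^ (1 - β)) / (1 - β) := by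
      rw [le_div_iff₀ hp]
      linarith
    push_cast
    have e2 : (((M : ℝ) + 1) ^ (1 - β) - (M : ℝ) ^ (1 - β)) / (1 - β) =
      ((M : ℝ) + 1) ^ (1 - β) / (1 - β) - (M : ℝ) ^ (1 - β) / (1 - β) := by ring
    rw [e2] at u2
    linarith

/-- basic facts on `y = ⌊√x⌋` -/
lemma floor_facts {x : ℝ} (hx : 1 ≤ x) :
    1 ≤ ⌊Real.sqrt x⌋₊ ∧ ⌊Real.sqrt x⌋₊ ≤ ⌊x⌋₊ ∧ ((⌊Real.sqrt x⌋₊ : ℕ) : ℝ) ≤ Real.sqrt x ∧
      Real.sqrt x ≤ 2 * ((⌊Real.sqrt x⌋₊ : ℕ) : ℝ) ∧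
      ((⌊x⌋₊ / ⌊Real.sqrt x⌋₊ : ℕ) : ℝ) ≤ 2 * Real.sqrt x := by
  have h1 : 1 ≤ Real.sqrt x := Real.one_le_sqrt.2 hx
  have h2 : 1 ≤ ⌊Real.sqrt x⌋₊ := Nat.le_floor (by exact_mod_cast h1)
  have h3 : Real.sqrt x ≤ x := by
    rw [Real.sqrt_le_left (by linarith)]
    nlinarith
  have h4 : ((⌊Real.sqrt x⌋₊ : ℕ) : ℝ) ≤ Real.sqrt x := Nat.floor_le (by linarith)
  have h5 : Real.sqrt x < (⌊Real.sqrt x⌋₊ : ℝ) + 1 := Nat.lt_floor_add_one _
  have h2' : (1 : ℝ) ≤ (⌊Real.sqrt x⌋₊ : ℝ) := by exact_mod_cast h2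
  have h6 : Real.sqrt x ≤ 2 * ((⌊Real.sqrt x⌋₊ : ℕ) : ℝ) := by linarith
  refine ⟨h2, Nat.floor_le_floor h3, h4, h6, ?_⟩
  calc ((⌊x⌋₊ / ⌊Real.sqrt x⌋₊ : ℕ) : ℝ) ≤ (⌊x⌋₊ : ℝ) / (⌊Real.sqrt x⌋₊ : ℝ) := Nat.cast_div_le
    _ ≤ x / (⌊Real.sqrt x⌋₊ : ℝ) := by
        apply div_le_div_of_nonneg_right (Nat.floor_le (by linarith)) (by linarith)
    _ ≤ 2 * Real.sqrt x := by
        rw [div_le_iff₀ (by linarith)]
        have h7 : Real.sqrt x * Real.sqrt x = x := Real.mul_self_sqrt (by linarith)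
        nlinarith

/-- `y^{-β} ≤ 2 x^{-β/2}` -/
lemma y_rpow {x β : ℝ} (hx : 1 ≤ x) (h0 : 0 ≤ β) (h1 : β ≤ 1) {y : ℝ} (hy : 0 < y)
    (h : Real.sqrt x ≤ 2 * y) : y ^ (-β) ≤ 2 * x ^ (-(β / 2)) := by
  have hs : 0 < Real.sqrt x := Real.sqrt_pos.2 (by linarith)
  calc y ^ (-β) ≤ (Real.sqrt x / 2) ^ (-β) :=
        Real.rpow_le_rpow_of_nonpos (by linarith) (by linarith) (by linarith)
    _ = (Real.sqrt x) ^ (-β) * 2 ^ β := by
        rw [Real.div_rpow hs.le (by norm_num), Real.rpow_neg (by norm_num : (0:ℝ) ≤ 2)]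
        field_simp
    _ ≤ (Real.sqrt x) ^ (-β) * 2 := by
        apply mul_le_mul_of_nonneg_left _ (by positivity)
        calc (2 : ℝ) ^ β ≤ 2 ^ (1 : ℝ) := Real.rpow_le_rpow_of_exponent_le (by norm_num) h1
          _ = 2 := Real.rpow_one 2
    _ = 2 * x ^ (-(β / 2)) := by
        rw [Real.sqrt_eq_rpow, ← Real.rpow_mul (by linarith)]
        rw [mul_comm]
        congr 2
        ring

lemma abs_u_le (d : ℤ) (β : ℝ) (l : ℕ) : |(chi d l : ℝ) * (l : ℝ) ^ (-β)| ≤ (l : ℝ) ^ (-β) := by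
  have h : (0 : ℝ) ≤ (l : ℝ) ^ (-β) := by positivity
  rw [abs_mul, abs_of_nonneg h]
  calc |(chi d l : ℝ)| * (l : ℝ) ^ (-β) ≤ 1 * (l : ℝ) ^ (-β) :=
        mul_le_mul_of_nonneg_right (abs_chi_real_le d l) h
    _ = _ := one_mul _

end ItemS7

open ItemS7 ItemN3 in
theorem claimS7a (h2 : ClaimS2) (h5 : ClaimS5) (h6 : ClaimS6) : ClaimS7a := by
  refine ⟨200, by norm_num, ?_⟩
  intro d hd β hβ0 hβ1 x hx
  have hd0 : d ≠ 0 := by rintro rfl; exact hd ⟨0, rfl⟩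
  have hdR : (1 : ℝ) ≤ |(d : ℝ)| := by
    have : (1 : ℤ) ≤ |d| := Int.one_le_abs hd0
    exact_mod_cast this
  have hx0 : (0 : ℝ) < x := by linarith
  set p : ℝ := 1 - β with hp
  have hp0 : 0 < p := by linarith
  have hp1 : p ≤ 1 := by linarith
  have h1p : 1 ≤ 1 / p := by rw [le_div_iff₀ hp0]; linarith
  obtain ⟨hy1, hyN, hy2, hy3, hNy⟩ := floor_facts hx
  set y : ℕ := ⌊Real.sqrt x⌋₊ with hydef
  set N : ℕ := ⌊x⌋₊ with hNdef
  have hy1R : (1 : ℝ) ≤ y := by exact_mod_cast hy1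
  set U : ℕ → ℝ := fun n => ∑ l ∈ Icc 1 n, (chi d l : ℝ) * (l : ℝ) ^ (-β) with hU
  -- the identity
  have hid := h6 (fun l => (chi d l : ℝ) * (l : ℝ) ^ (-β)) (fun m => (m : ℝ) ^ (-β)) N y hy1 hyN
  have hL : ∑ n ∈ Icc 1 N, (ff d n : ℝ) * (n : ℝ) ^ (-β) =
      ∑ n ∈ Icc 1 N, ∑ q ∈ n.divisorsAntidiagonal,
        (chi d q.1 : ℝ) * (q.1 : ℝ) ^ (-β) * (q.2 : ℝ) ^ (-β) := by
    apply Finset.sum_congr rfl
    intro n _
    rw [ff_eq]
    push_cast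
    rw [Finset.sum_mul]
    apply Finset.sum_congr rfl
    intro q hq
    rw [Nat.mem_divisorsAntidiagonal] at hq
    rw [← hq.1]
    push_cast
    rw [Real.mul_rpow (by positivity) (by positivity)]
    ring
  rw [hL, hid]
  -- first part
  have hfirst : |∑ l ∈ Icc 1 y, (chi d l : ℝ) * (l : ℝ) ^ (-β) *
      ∑ m ∈ Icc 1 (N / l), (m : ℝ) ^ (-β) -
      (x ^ p / p * ∑ l ∈ Icc 1 y, (chi d l : ℝ) * (l : ℝ) ^ (-(1 : ℝ)) + zc β * U y)| ≤
      2 * x ^ (1 / 2 - β) := by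
    have e1 : x ^ p / p * ∑ l ∈ Icc 1 y, (chi d l : ℝ) * (l : ℝ) ^ (-(1 : ℝ)) + zc β * U y =
        ∑ l ∈ Icc 1 y, (chi d l : ℝ) * (l : ℝ) ^ (-β) * ((x / l) ^ p / p + zc β) := by
      rw [hU, Finset.mul_sum, Finset.mul_sum, ← Finset.sum_add_distrib]
      apply Finset.sum_congr rfl
      intro l hl
      rw [mem_Icc] at hl
      have hl0 : (0 : ℝ) < l := by
        have : 0 < l := hl.1
        exact_mod_cast this
      have e2 : (l : ℝ) ^ (-(1 : ℝ)) = (l : ℝ) ^ (-β) * (l : ℝ) ^ (-p) := by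
        rw [← Real.rpow_add hl0, hp]
        congr 1
        ring
      rw [Real.div_rpow hx0.le hl0.le, e2, Real.rpow_neg hl0.le p]
      field_simp
    rw [e1, ← Finset.sum_sub_distrib]
    refine (Finset.abs_sum_le_sum_abs _ _).trans ?_
    calc ∑ l ∈ Icc 1 y, |(chi d l : ℝ) * (l : ℝ) ^ (-β) * ∑ m ∈ Icc 1 (N / l), (m : ℝ) ^ (-β) -
          (chi d l : ℝ) * (l : ℝ) ^ (-β) * ((x / l) ^ p / p + zc β)|
        ≤ ∑ l ∈ Icc 1 y, 2 * x ^ (-β) := by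
          apply Finset.sum_le_sum
          intro l hl
          rw [mem_Icc] at hl
          have hl0 : (0 : ℝ) < l := by
            have : 0 < l := hl.1
            exact_mod_cast this
          have hlx : 1 ≤ x / l := by
            rw [le_div_iff₀ hl0, one_mul]
            have h7 : (l : ℝ) ≤ y := by exact_mod_cast hl.2
            have h8 : (y : ℝ) ≤ N := by exact_mod_cast hyN
            have h9 : (N : ℝ) ≤ x := Nat.floor_le hx0.le
            linarith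
          have hfl : N / l = ⌊x / l⌋₊ := by rw [hNdef, Nat.floor_div_natCast]
          have h10 := (h5 β (by linarith) hβ1).2.2 (x / l) hlx
          rw [← mul_sub, abs_mul, hfl]
          have h11 : |∑ m ∈ Icc 1 ⌊x / (l : ℝ)⌋₊, (m : ℝ) ^ (-β) - ((x / l) ^ p / p + zc β)| ≤
              2 * (x / l) ^ (-β) := by
            have e3 : ∑ m ∈ Icc 1 ⌊x / (l : ℝ)⌋₊, (m : ℝ) ^ (-β) - ((x / l) ^ p / p + zc β) =
              ∑ m ∈ Icc 1 ⌊x / (l : ℝ)⌋₊, (m : ℝ) ^ (-β) - (x / l) ^ (1 - β) / (1 - β) - zc β := by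
              rw [hp]; ring
            rw [e3]
            exact h10
          calc |(chi d l : ℝ) * (l : ℝ) ^ (-β)| *
                |∑ m ∈ Icc 1 ⌊x / (l : ℝ)⌋₊, (m : ℝ) ^ (-β) - ((x / l) ^ p / p + zc β)|
              ≤ (l : ℝ) ^ (-β) * (2 * (x / l) ^ (-β)) :=
                mul_le_mul (abs_u_le d β l) h11 (abs_nonneg _) (by positivity)
            _ = 2 * x ^ (-β) := by
                rw [Real.div_rpow hx0.le hl0.le]
                have : (l : ℝ) ^ (-β) ≠ 0 := (Real.rpow_pos_of_pos hl0 _).ne'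
                field_simp
      _ = y * (2 * x ^ (-β)) := by simp
      _ ≤ Real.sqrt x * (2 * x ^ (-β)) := mul_le_mul_of_nonneg_right hy2 (by positivity)
      _ = 2 * x ^ (1 / 2 - β) := by
          rw [Real.sqrt_eq_rpow, show (1 : ℝ) / 2 - β = 1 / 2 + (-β) by ring, Real.rpow_add hx0]
          ring
  have hy0 : (0 : ℝ) < y := by linarith
  -- main terms
  have hm1 : |x ^ p / p * ∑ l ∈ Icc 1 y, (chi d l : ℝ) * (l : ℝ) ^ (-(1 : ℝ)) -
      LL d 1 * x ^ p / p| ≤ 1 / p * |(d : ℝ)| * (16 * x ^ (1 / 2 - β)) := by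
    have h7 := (h2 d hd 1 one_pos).2 y hy1
    have h8 := y_rpow hx zero_le_one le_rfl hy0 hy3
    have e : x ^ p / p * ∑ l ∈ Icc 1 y, (chi d l : ℝ) * (l : ℝ) ^ (-(1 : ℝ)) -
      LL d 1 * x ^ p / p = -(x ^ p / p * (LL d 1 -
        ∑ l ∈ Icc 1 y, (chi d l : ℝ) * (l : ℝ) ^ (-(1 : ℝ)))) := by ring
    have hxp : 0 ≤ x ^ p / p := by positivity
    rw [e, abs_neg, abs_mul, abs_of_nonneg hxp]
    calc x ^ p / p * |LL d 1 - ∑ l ∈ Icc 1 y, (chi d l : ℝ) * (l : ℝ) ^ (-(1 : ℝ))|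
        ≤ x ^ p / p * (8 * |(d : ℝ)| * (2 * x ^ (-(1 / 2 : ℝ)))) := by
          apply mul_le_mul_of_nonneg_left _ hxp
          exact h7.trans (mul_le_mul_of_nonneg_left h8 (by positivity))
      _ = 1 / p * |(d : ℝ)| * (16 * (x ^ p * x ^ (-(1 / 2 : ℝ)))) := by ring
      _ = 1 / p * |(d : ℝ)| * (16 * x ^ (1 / 2 - β)) := by
          rw [← Real.rpow_add hx0]
          congr 3
          rw [hp]; ring
  have hUy : |LL d β - U y| ≤ |(d : ℝ)| * (16 * x ^ (-(β / 2))) := by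
    have h7 := (h2 d hd β (by linarith)).2 y hy1
    have h8 := y_rpow hx (by linarith) hβ1.le hy0 hy3
    calc |LL d β - U y| ≤ 8 * |(d : ℝ)| * (y : ℝ) ^ (-β) := h7
      _ ≤ 8 * |(d : ℝ)| * (2 * x ^ (-(β / 2))) := mul_le_mul_of_nonneg_left h8 (by positivity)
      _ = _ := by ring
  have hm2 : |zc β * U y - zc β * LL d β| ≤ 1 / p * |(d : ℝ)| * (16 * x ^ (-(β / 2))) := by
    have e : zc β * U y - zc β * LL d β = -(zc β * (LL d β - U y)) := by ring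
    rw [e, abs_neg, abs_mul, mul_assoc (1 / p)]
    exact mul_le_mul (h5 β (by linarith) hβ1).2.1 hUy (abs_nonneg _) (by positivity)
  -- second part
  have hsecond : |∑ m ∈ Icc 1 (N / y), (m : ℝ) ^ (-β) * (U (N / m) - U y)| ≤
      1 / p * |(d : ℝ)| * (64 * x ^ (1 / 2 - β)) := by
    refine (Finset.abs_sum_le_sum_abs _ _).trans ?_
    calc ∑ m ∈ Icc 1 (N / y), |(m : ℝ) ^ (-β) * (U (N / m) - U y)|
        ≤ ∑ m ∈ Icc 1 (N / y), (m : ℝ) ^ (-β) * (|(d : ℝ)| * (32 * x ^ (-(β / 2)))) := by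
          apply Finset.sum_le_sum
          intro m hm
          rw [mem_Icc] at hm
          have hmp : (0 : ℝ) ≤ (m : ℝ) ^ (-β) := by positivity
          rw [abs_mul, abs_of_nonneg hmp]
          apply mul_le_mul_of_nonneg_left _ hmp
          have hyNm : y ≤ N / m := by
            rw [Nat.le_div_iff_mul_le hm.1, mul_comm]
            have := hm.2
            rwa [Nat.le_div_iff_mul_le (by omega)] at this
          have h7 := (h2 d hd β (by linarith)).2 (N / m) (hy1.trans hyNm)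
          have h9 : ((N / m : ℕ) : ℝ) ^ (-β) ≤ (y : ℝ) ^ (-β) :=
            Real.rpow_le_rpow_of_nonpos hy0 (by exact_mod_cast hyNm) (by linarith)
          have h8 := y_rpow hx (by linarith) hβ1.le hy0 hy3
          have h10 : |LL d β - U (N / m)| ≤ |(d : ℝ)| * (16 * x ^ (-(β / 2))) := by
            calc |LL d β - U (N / m)| ≤ 8 * |(d : ℝ)| * ((N / m : ℕ) : ℝ) ^ (-β) := h7
              _ ≤ 8 * |(d : ℝ)| * (2 * x ^ (-(β / 2))) :=
                  mul_le_mul_of_nonneg_left (h9.trans h8) (by positivity)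
              _ = _ := by ring
          have e : U (N / m) - U y = (LL d β - U y) - (LL d β - U (N / m)) := by ring
          rw [e]
          calc |(LL d β - U y) - (LL d β - U (N / m))| ≤ |LL d β - U y| + |LL d β - U (N / m)| :=
                abs_sub _ _
            _ ≤ |(d : ℝ)| * (16 * x ^ (-(β / 2))) + |(d : ℝ)| * (16 * x ^ (-(β / 2))) :=
                add_le_add hUy h10
            _ = _ := by ring
      _ = (∑ m ∈ Icc 1 (N / y), (m : ℝ) ^ (-β)) * (|(d : ℝ)| * (32 * x ^ (-(β / 2)))) := by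
          rw [Finset.sum_mul]
      _ ≤ (2 * x ^ (p / 2) / p) * (|(d : ℝ)| * (32 * x ^ (-(β / 2)))) := by
          apply mul_le_mul_of_nonneg_right _ (by positivity)
          refine (sum_rpow_le β (by linarith) hβ1 (N / y)).trans ?_
          rw [← hp]
          apply div_le_div_of_nonneg_right _ hp0.le
          calc ((N / y : ℕ) : ℝ) ^ p ≤ (2 * Real.sqrt x) ^ p :=
                Real.rpow_le_rpow (by positivity) hNy hp0.le
            _ = 2 ^ p * x ^ (p / 2) := by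
                rw [Real.mul_rpow (by norm_num) (Real.sqrt_nonneg _), Real.sqrt_eq_rpow,
                  ← Real.rpow_mul hx0.le]
                congr 2
                ring
            _ ≤ 2 * x ^ (p / 2) := by
                apply mul_le_mul_of_nonneg_right _ (by positivity)
                calc (2 : ℝ) ^ p ≤ 2 ^ (1 : ℝ) :=
                      Real.rpow_le_rpow_of_exponent_le (by norm_num) hp1
                  _ = 2 := Real.rpow_one 2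
      _ = 1 / p * |(d : ℝ)| * (64 * (x ^ (p / 2) * x ^ (-(β / 2)))) := by ring
      _ = 1 / p * |(d : ℝ)| * (64 * x ^ (1 / 2 - β)) := by
          rw [← Real.rpow_add hx0]
          congr 3
          rw [hp]; ring
  -- exponents
  have hexp1 : x ^ (1 / 2 - β) ≤ x ^ (-(1 / 4) : ℝ) :=
    Real.rpow_le_rpow_of_exponent_le hx (by linarith)
  have hexp2 : x ^ (-(β / 2)) ≤ x ^ (-(1 / 4) : ℝ) :=
    Real.rpow_le_rpow_of_exponent_le hx (by linarith)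
  set T : ℝ := x ^ (-(1 / 4) : ℝ) with hT
  have hT0 : 0 < T := Real.rpow_pos_of_pos hx0 _
  have hcoef : 1 ≤ 1 / p * |(d : ℝ)| := by nlinarith
  set K : ℝ := 1 / p * |(d : ℝ)| with hK
  have hfin : (∑ l ∈ Icc 1 y, (chi d l : ℝ) * (l : ℝ) ^ (-β) * ∑ m ∈ Icc 1 (N / l), (m : ℝ) ^ (-β) +
      ∑ m ∈ Icc 1 (N / y), (m : ℝ) ^ (-β) * (U (N / m) - U y)) - LL d 1 * x ^ p / p -
      zc β * LL d β =
      (∑ l ∈ Icc 1 y, (chi d l : ℝ) * (l : ℝ) ^ (-β) * ∑ m ∈ Icc 1 (N / l), (m : ℝ) ^ (-β) -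
      (x ^ p / p * ∑ l ∈ Icc 1 y, (chi d l : ℝ) * (l : ℝ) ^ (-(1 : ℝ)) + zc β * U y)) +
      ((x ^ p / p * ∑ l ∈ Icc 1 y, (chi d l : ℝ) * (l : ℝ) ^ (-(1 : ℝ)) - LL d 1 * x ^ p / p)) +
      (zc β * U y - zc β * LL d β) +
      ∑ m ∈ Icc 1 (N / y), (m : ℝ) ^ (-β) * (U (N / m) - U y) := by ring
  rw [hp] at hfin ⊢
  rw [hfin, ← hp]
  have b1 : 2 * x ^ (1 / 2 - β) ≤ K * (2 * T) := by nlinarith
  have b2 : K * (16 * x ^ (1 / 2 - β)) ≤ K * (16 * T) :=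
    mul_le_mul_of_nonneg_left (by linarith) (by linarith)
  have b3 : K * (16 * x ^ (-(β / 2))) ≤ K * (16 * T) :=
    mul_le_mul_of_nonneg_left (by linarith) (by linarith)
  have b4 : K * (64 * x ^ (1 / 2 - β)) ≤ K * (64 * T) :=
    mul_le_mul_of_nonneg_left (by linarith) (by linarith)
  have tri := abs_add_le
    ((∑ l ∈ Icc 1 y, (chi d l : ℝ) * (l : ℝ) ^ (-β) * ∑ m ∈ Icc 1 (N / l), (m : ℝ) ^ (-β) -
      (x ^ p / p * ∑ l ∈ Icc 1 y, (chi d l : ℝ) * (l : ℝ) ^ (-(1 : ℝ)) + zc β * U y)) +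
      ((x ^ p / p * ∑ l ∈ Icc 1 y, (chi d l : ℝ) * (l : ℝ) ^ (-(1 : ℝ)) - LL d 1 * x ^ p / p)) +
      (zc β * U y - zc β * LL d β))
    (∑ m ∈ Icc 1 (N / y), (m : ℝ) ^ (-β) * (U (N / m) - U y))
  have tri2 := abs_add_le
    ((∑ l ∈ Icc 1 y, (chi d l : ℝ) * (l : ℝ) ^ (-β) * ∑ m ∈ Icc 1 (N / l), (m : ℝ) ^ (-β) -
      (x ^ p / p * ∑ l ∈ Icc 1 y, (chi d l : ℝ) * (l : ℝ) ^ (-(1 : ℝ)) + zc β * U y)) +
      ((x ^ p / p * ∑ l ∈ Icc 1 y, (chi d l : ℝ) * (l : ℝ) ^ (-(1 : ℝ)) - LL d 1 * x ^ p / p)))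
      (zc β * U y - zc β * LL d β)
  have tri3 := abs_add_le
    ((∑ l ∈ Icc 1 y, (chi d l : ℝ) * (l : ℝ) ^ (-β) * ∑ m ∈ Icc 1 (N / l), (m : ℝ) ^ (-β) -
      (x ^ p / p * ∑ l ∈ Icc 1 y, (chi d l : ℝ) * (l : ℝ) ^ (-(1 : ℝ)) + zc β * U y)))
      ((x ^ p / p * ∑ l ∈ Icc 1 y, (chi d l : ℝ) * (l : ℝ) ^ (-(1 : ℝ)) - LL d 1 * x ^ p / p))
  have e200 : 200 / p * |(d : ℝ)| * T = 200 * K * T := by rw [hK]; ring
  rw [e200]
  have hKT : 0 < K * T := by positivity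
  nlinarith [hfirst, hm1, hm2, hsecond]

end Pool.Agent.Work.MP_e0c7e8_nt.SM
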