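import Pool.Agent.Work.MP_e0c7e8_nt.SM.Stmts
import Pool.Agent.Work.MP_e0c7e8_nt.SM.ItemN3
import Pool.Agent.Work.MP_e0c7e8_nt.SM.ItemS7a

/-!
# Item S4: positivity of `L(1, χ)`
-/

set_option autoImplicit false

namespace Pool.Agent.Work.MP_e0c7e8_nt.SM

open Finset Filter Topology

namespace ItemS4

open ItemS7 ItemN3

/-- partial sums of `(1 * χ)(n) n ^ (-β)` for `1 / 2 ≤ β < 1` -/
theorem est (h2 : ClaimS2) (h5 : ClaimS5) (h6 : ClaimS6) (d : ℤ) (hd : ¬ IsSquare d) (β : ℝ)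
    (hβ0 : 1 / 2 ≤ β) (hβ1 : β < 1) (x : ℝ) (hx : 1 ≤ x) :
    |∑ n ∈ Icc 1 ⌊x⌋₊, (ff d n : ℝ) * (n : ℝ) ^ (-β) - LL d 1 * x ^ (1 - β) / (1 - β) -
      zc β * LL d β| ≤ 98 * (1 / (1 - β) * |(d : ℝ)|) := by
  have hd0 : d ≠ 0 := by rintro rfl; exact hd ⟨0, rfl⟩
  have hdR : (1 : ℝ) ≤ |(d : ℝ)| := by
    have : (1 : ℤ) ≤ |d| := Int.one_le_abs hd0
    exact_mod_cast this
  have hx0 : (0 : ℝ) < x := by linarith
  set p : ℝ := 1 - β with hp
  have hp0 : 0 < p := by linarith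
  have hp1 : p ≤ 1 := by linarith
  have h1p : 1 ≤ 1 / p := by rw [le_div_iff₀ hp0]; linarith
  obtain ⟨hy1, hyN, hy2, hy3, hNy⟩ := floor_facts hx
  set y : ℕ := ⌊Real.sqrt x⌋₊ with hydef
  set N : ℕ := ⌊x⌋₊ with hNdef
  have hy1R : (1 : ℝ) ≤ y := by exact_mod_cast hy1
  set U : ℕ → ℝ := fun n => ∑ l ∈ Icc 1 n, (chi d l : ℝ) * (l : ℝ) ^ (-β) with hU
  -- the identity
  have hid := h6 (fun l => (chi d l : ℝ) * (l : ℝ) ^ (-β)) (fun m => (m : ℝ) ^ (-β)) N y hy1 hyN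
  have hL : ∑ n ∈ Icc 1 N, (ff d n : ℝ) * (n : ℝ) ^ (-β) =
      ∑ n ∈ Icc 1 N, ∑ q ∈ n.divisorsAntidiagonal,
        (chi d q.1 : ℝ) * (q.1 : ℝ) ^ (-β) * (q.2 : ℝ) ^ (-β) := by
    apply Finset.sum_congr rfl
    intro n _
    rw [ff_eq]
    push_cast
    rw [Finset.sum_mul]
    apply Finset.sum_congr rfl
    intro q hq
    rw [Nat.mem_divisorsAntidiagonal] at hq
    rw [← hq.1]
    push_cast
    rw [Real.mul_rpow (by positivity) (by positivity)]
    ring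
  rw [hL, hid]
  -- first part
  have hfirst : |∑ l ∈ Icc 1 y, (chi d l : ℝ) * (l : ℝ) ^ (-β) *
      ∑ m ∈ Icc 1 (N / l), (m : ℝ) ^ (-β) -
      (x ^ p / p * ∑ l ∈ Icc 1 y, (chi d l : ℝ) * (l : ℝ) ^ (-(1 : ℝ)) + zc β * U y)| ≤
      2 * x ^ (1 / 2 - β) := by
    have e1 : x ^ p / p * ∑ l ∈ Icc 1 y, (chi d l : ℝ) * (l : ℝ) ^ (-(1 : ℝ)) + zc β * U y =
        ∑ l ∈ Icc 1 y, (chi d l : ℝ) * (l : ℝ) ^ (-β) * ((x / l) ^ p / p + zc β) := by
      rw [hU, Finset.mul_sum, Finset.mul_sum, ← Finset.sum_add_distrib]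
      apply Finset.sum_congr rfl
      intro l hl
      rw [mem_Icc] at hl
      have hl0 : (0 : ℝ) < l := by
        have : 0 < l := hl.1
        exact_mod_cast this
      have e2 : (l : ℝ) ^ (-(1 : ℝ)) = (l : ℝ) ^ (-β) * (l : ℝ) ^ (-p) := by
        rw [← Real.rpow_add hl0, hp]
        congr 1
        ring
      rw [Real.div_rpow hx0.le hl0.le, e2, Real.rpow_neg hl0.le p]
      field_simp
    rw [e1, ← Finset.sum_sub_distrib]
    refine (Finset.abs_sum_le_sum_abs _ _).trans ?_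
    calc ∑ l ∈ Icc 1 y, |(chi d l : ℝ) * (l : ℝ) ^ (-β) * ∑ m ∈ Icc 1 (N / l), (m : ℝ) ^ (-β) -
          (chi d l : ℝ) * (l : ℝ) ^ (-β) * ((x / l) ^ p / p + zc β)|
        ≤ ∑ l ∈ Icc 1 y, 2 * x ^ (-β) := by
          apply Finset.sum_le_sum
          intro l hl
          rw [mem_Icc] at hl
          have hl0 : (0 : ℝ) < l := by
            have : 0 < l := hl.1
            exact_mod_cast this
          have hlx : 1 ≤ x / l := by
            rw [le_div_iff₀ hl0, one_mul]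
            have h7 : (l : ℝ) ≤ y := by exact_mod_cast hl.2
            have h8 : (y : ℝ) ≤ N := by exact_mod_cast hyN
            have h9 : (N : ℝ) ≤ x := Nat.floor_le hx0.le
            linarith
          have hfl : N / l = ⌊x / l⌋₊ := by rw [hNdef, Nat.floor_div_natCast]
          have h10 := (h5 β (by linarith) hβ1).2.2 (x / l) hlx
          rw [← mul_sub, abs_mul, hfl]
          have h11 : |∑ m ∈ Icc 1 ⌊x / (l : ℝ)⌋₊, (m : ℝ) ^ (-β) - ((x / l) ^ p / p + zc β)| ≤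
              2 * (x / l) ^ (-β) := by
            have e3 : ∑ m ∈ Icc 1 ⌊x / (l : ℝ)⌋₊, (m : ℝ) ^ (-β) - ((x / l) ^ p / p + zc β) =
              ∑ m ∈ Icc 1 ⌊x / (l : ℝ)⌋₊, (m : ℝ) ^ (-β) - (x / l) ^ (1 - β) / (1 - β) - zc β := by
              rw [hp]; ring
            rw [e3]
            exact h10
          calc |(chi d l : ℝ) * (l : ℝ) ^ (-β)| *
                |∑ m ∈ Icc 1 ⌊x / (l : ℝ)⌋₊, (m : ℝ) ^ (-β) - ((x / l) ^ p / p + zc β)|
              ≤ (l : ℝ) ^ (-β) * (2 * (x / l) ^ (-β)) :=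
                mul_le_mul (abs_u_le d β l) h11 (abs_nonneg _) (by positivity)
            _ = 2 * x ^ (-β) := by
                rw [Real.div_rpow hx0.le hl0.le]
                have : (l : ℝ) ^ (-β) ≠ 0 := (Real.rpow_pos_of_pos hl0 _).ne'
                field_simp
      _ = y * (2 * x ^ (-β)) := by simp
      _ ≤ Real.sqrt x * (2 * x ^ (-β)) := mul_le_mul_of_nonneg_right hy2 (by positivity)
      _ = 2 * x ^ (1 / 2 - β) := by
          rw [Real.sqrt_eq_rpow, show (1 : ℝ) / 2 - β = 1 / 2 + (-β) by ring, Real.rpow_add hx0]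
          ring
  have hy0 : (0 : ℝ) < y := by linarith
  -- main terms
  have hm1 : |x ^ p / p * ∑ l ∈ Icc 1 y, (chi d l : ℝ) * (l : ℝ) ^ (-(1 : ℝ)) -
      LL d 1 * x ^ p / p| ≤ 1 / p * |(d : ℝ)| * (16 * x ^ (1 / 2 - β)) := by
    have h7 := (h2 d hd 1 one_pos).2 y hy1
    have h8 := y_rpow hx zero_le_one le_rfl hy0 hy3
    have e : x ^ p / p * ∑ l ∈ Icc 1 y, (chi d l : ℝ) * (l : ℝ) ^ (-(1 : ℝ)) -
      LL d 1 * x ^ p / p = -(x ^ p / p * (LL d 1 -
        ∑ l ∈ Icc 1 y, (chi d l : ℝ) * (l : ℝ) ^ (-(1 : ℝ)))) := by ring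
    have hxp : 0 ≤ x ^ p / p := by positivity
    rw [e, abs_neg, abs_mul, abs_of_nonneg hxp]
    calc x ^ p / p * |LL d 1 - ∑ l ∈ Icc 1 y, (chi d l : ℝ) * (l : ℝ) ^ (-(1 : ℝ))|
        ≤ x ^ p / p * (8 * |(d : ℝ)| * (2 * x ^ (-(1 / 2 : ℝ)))) := by
          apply mul_le_mul_of_nonneg_left _ hxp
          exact h7.trans (mul_le_mul_of_nonneg_left h8 (by positivity))
      _ = 1 / p * |(d : ℝ)| * (16 * (x ^ p * x ^ (-(1 / 2 : ℝ)))) := by ring
      _ = 1 / p * |(d : ℝ)| * (16 * x ^ (1 / 2 - β)) := by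
          rw [← Real.rpow_add hx0]
          congr 3
          rw [hp]; ring
  have hUy : |LL d β - U y| ≤ |(d : ℝ)| * (16 * x ^ (-(β / 2))) := by
    have h7 := (h2 d hd β (by linarith)).2 y hy1
    have h8 := y_rpow hx (by linarith) hβ1.le hy0 hy3
    calc |LL d β - U y| ≤ 8 * |(d : ℝ)| * (y : ℝ) ^ (-β) := h7
      _ ≤ 8 * |(d : ℝ)| * (2 * x ^ (-(β / 2))) := mul_le_mul_of_nonneg_left h8 (by positivity)
      _ = _ := by ring
  have hm2 : |zc β * U y - zc β * LL d β| ≤ 1 / p * |(d : ℝ)| * (16 * x ^ (-(β / 2))) := by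
    have e : zc β * U y - zc β * LL d β = -(zc β * (LL d β - U y)) := by ring
    rw [e, abs_neg, abs_mul, mul_assoc (1 / p)]
    exact mul_le_mul (h5 β (by linarith) hβ1).2.1 hUy (abs_nonneg _) (by positivity)
  -- second part
  have hsecond : |∑ m ∈ Icc 1 (N / y), (m : ℝ) ^ (-β) * (U (N / m) - U y)| ≤
      1 / p * |(d : ℝ)| * (64 * x ^ (1 / 2 - β)) := by
    refine (Finset.abs_sum_le_sum_abs _ _).trans ?_
    calc ∑ m ∈ Icc 1 (N / y), |(m : ℝ) ^ (-β) * (U (N / m) - U y)|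
        ≤ ∑ m ∈ Icc 1 (N / y), (m : ℝ) ^ (-β) * (|(d : ℝ)| * (32 * x ^ (-(β / 2)))) := by
          apply Finset.sum_le_sum
          intro m hm
          rw [mem_Icc] at hm
          have hmp : (0 : ℝ) ≤ (m : ℝ) ^ (-β) := by positivity
          rw [abs_mul, abs_of_nonneg hmp]
          apply mul_le_mul_of_nonneg_left _ hmp
          have hyNm : y ≤ N / m := by
            rw [Nat.le_div_iff_mul_le hm.1, mul_comm]
            have := hm.2
            rwa [Nat.le_div_iff_mul_le (by omega)] at this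
          have h7 := (h2 d hd β (by linarith)).2 (N / m) (hy1.trans hyNm)
          have h9 : ((N / m : ℕ) : ℝ) ^ (-β) ≤ (y : ℝ) ^ (-β) :=
            Real.rpow_le_rpow_of_nonpos hy0 (by exact_mod_cast hyNm) (by linarith)
          have h8 := y_rpow hx (by linarith) hβ1.le hy0 hy3
          have h10 : |LL d β - U (N / m)| ≤ |(d : ℝ)| * (16 * x ^ (-(β / 2))) := by
            calc |LL d β - U (N / m)| ≤ 8 * |(d : ℝ)| * ((N / m : ℕ) : ℝ) ^ (-β) := h7
              _ ≤ 8 * |(d : ℝ)| * (2 * x ^ (-(β / 2))) :=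
                  mul_le_mul_of_nonneg_left (h9.trans h8) (by positivity)
              _ = _ := by ring
          have e : U (N / m) - U y = (LL d β - U y) - (LL d β - U (N / m)) := by ring
          rw [e]
          calc |(LL d β - U y) - (LL d β - U (N / m))| ≤ |LL d β - U y| + |LL d β - U (N / m)| :=
                abs_sub _ _
            _ ≤ |(d : ℝ)| * (16 * x ^ (-(β / 2))) + |(d : ℝ)| * (16 * x ^ (-(β / 2))) :=
                add_le_add hUy h10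
            _ = _ := by ring
      _ = (∑ m ∈ Icc 1 (N / y), (m : ℝ) ^ (-β)) * (|(d : ℝ)| * (32 * x ^ (-(β / 2)))) := by
          rw [Finset.sum_mul]
      _ ≤ (2 * x ^ (p / 2) / p) * (|(d : ℝ)| * (32 * x ^ (-(β / 2)))) := by
          apply mul_le_mul_of_nonneg_right _ (by positivity)
          refine (sum_rpow_le β (by linarith) hβ1 (N / y)).trans ?_
          rw [← hp]
          apply div_le_div_of_nonneg_right _ hp0.le
          calc ((N / y : ℕ) : ℝ) ^ p ≤ (2 * Real.sqrt x) ^ p :=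
                Real.rpow_le_rpow (by positivity) hNy hp0.le
            _ = 2 ^ p * x ^ (p / 2) := by
                rw [Real.mul_rpow (by norm_num) (Real.sqrt_nonneg _), Real.sqrt_eq_rpow,
                  ← Real.rpow_mul hx0.le]
                congr 2
                ring
            _ ≤ 2 * x ^ (p / 2) := by
                apply mul_le_mul_of_nonneg_right _ (by positivity)
                calc (2 : ℝ) ^ p ≤ 2 ^ (1 : ℝ) :=
                      Real.rpow_le_rpow_of_exponent_le (by norm_num) hp1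
                  _ = 2 := Real.rpow_one 2
      _ = 1 / p * |(d : ℝ)| * (64 * (x ^ (p / 2) * x ^ (-(β / 2)))) := by ring
      _ = 1 / p * |(d : ℝ)| * (64 * x ^ (1 / 2 - β)) := by
          rw [← Real.rpow_add hx0]
          congr 3
          rw [hp]; ring
  -- exponents
  have hexp1 : x ^ (1 / 2 - β) ≤ 1 := Real.rpow_le_one_of_one_le_of_nonpos hx (by linarith)
  have hexp2 : x ^ (-(β / 2)) ≤ 1 := Real.rpow_le_one_of_one_le_of_nonpos hx (by linarith)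
  have hcoef : 1 ≤ 1 / p * |(d : ℝ)| := by nlinarith
  set K : ℝ := 1 / p * |(d : ℝ)| with hK
  have hfin : (∑ l ∈ Icc 1 y, (chi d l : ℝ) * (l : ℝ) ^ (-β) * ∑ m ∈ Icc 1 (N / l), (m : ℝ) ^ (-β) +
      ∑ m ∈ Icc 1 (N / y), (m : ℝ) ^ (-β) * (U (N / m) - U y)) - LL d 1 * x ^ p / p -
      zc β * LL d β =
      (∑ l ∈ Icc 1 y, (chi d l : ℝ) * (l : ℝ) ^ (-β) * ∑ m ∈ Icc 1 (N / l), (m : ℝ) ^ (-β) -
      (x ^ p / p * ∑ l ∈ Icc 1 y, (chi d l : ℝ) * (l : ℝ) ^ (-(1 : ℝ)) + zc β * U y)) +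
      ((x ^ p / p * ∑ l ∈ Icc 1 y, (chi d l : ℝ) * (l : ℝ) ^ (-(1 : ℝ)) - LL d 1 * x ^ p / p)) +
      (zc β * U y - zc β * LL d β) +
      ∑ m ∈ Icc 1 (N / y), (m : ℝ) ^ (-β) * (U (N / m) - U y) := by ring
  rw [hp] at hfin ⊢
  rw [hfin, ← hp]
  have b1 : 2 * x ^ (1 / 2 - β) ≤ 2 * K := by linarith
  have b2 : K * (16 * x ^ (1 / 2 - β)) ≤ K * 16 :=
    mul_le_mul_of_nonneg_left (by linarith) (by linarith)
  have b3 : K * (16 * x ^ (-(β / 2))) ≤ K * 16 :=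
    mul_le_mul_of_nonneg_left (by linarith) (by linarith)
  have b4 : K * (64 * x ^ (1 / 2 - β)) ≤ K * 64 :=
    mul_le_mul_of_nonneg_left (by linarith) (by linarith)
  have tri := abs_add_le
    ((∑ l ∈ Icc 1 y, (chi d l : ℝ) * (l : ℝ) ^ (-β) * ∑ m ∈ Icc 1 (N / l), (m : ℝ) ^ (-β) -
      (x ^ p / p * ∑ l ∈ Icc 1 y, (chi d l : ℝ) * (l : ℝ) ^ (-(1 : ℝ)) + zc β * U y)) +
      ((x ^ p / p * ∑ l ∈ Icc 1 y, (chi d l : ℝ) * (l : ℝ) ^ (-(1 : ℝ)) - LL d 1 * x ^ p / p)) +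
      (zc β * U y - zc β * LL d β))
    (∑ m ∈ Icc 1 (N / y), (m : ℝ) ^ (-β) * (U (N / m) - U y))
  have tri2 := abs_add_le
    ((∑ l ∈ Icc 1 y, (chi d l : ℝ) * (l : ℝ) ^ (-β) * ∑ m ∈ Icc 1 (N / l), (m : ℝ) ^ (-β) -
      (x ^ p / p * ∑ l ∈ Icc 1 y, (chi d l : ℝ) * (l : ℝ) ^ (-(1 : ℝ)) + zc β * U y)) +
      ((x ^ p / p * ∑ l ∈ Icc 1 y, (chi d l : ℝ) * (l : ℝ) ^ (-(1 : ℝ)) - LL d 1 * x ^ p / p)))
      (zc β * U y - zc β * LL d β)
  have tri3 := abs_add_le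
    ((∑ l ∈ Icc 1 y, (chi d l : ℝ) * (l : ℝ) ^ (-β) * ∑ m ∈ Icc 1 (N / l), (m : ℝ) ^ (-β) -
      (x ^ p / p * ∑ l ∈ Icc 1 y, (chi d l : ℝ) * (l : ℝ) ^ (-(1 : ℝ)) + zc β * U y)))
      ((x ^ p / p * ∑ l ∈ Icc 1 y, (chi d l : ℝ) * (l : ℝ) ^ (-(1 : ℝ)) - LL d 1 * x ^ p / p))
  linarith [hfirst, hm1, hm2, hsecond]

/-- `χ` as an arithmetic function -/
def chiA (d : ℤ) : ArithmeticFunction ℤ := ⟨fun n => chi d n, chi_zero d⟩

theorem chiA_mult (d : ℤ) : (chiA d).IsMultiplicative := by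
  rw [ArithmeticFunction.IsMultiplicative.iff_ne_zero]
  exact ⟨chi_one d, fun {m n} _ _ _ => chi_mul d m n⟩

theorem ff_mul (d : ℤ) {a b : ℕ} (h : a.Coprime b) : ff d (a * b) = ff d a * ff d b := by
  have h1 : ∀ n : ℕ, ff d n = (chiA d * (ArithmeticFunction.zeta : ArithmeticFunction ℤ)) n := by
    intro n
    rw [ArithmeticFunction.coe_mul_zeta_apply]
    rfl
  rw [h1, h1, h1]
  exact ((chiA_mult d).mul ArithmeticFunction.isMultiplicative_zeta.natCast).map_mul_of_coprime h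

theorem chi_pow (d : ℤ) (p i : ℕ) : chi d (p ^ i) = chi d p ^ i := by
  induction i with
  | zero => simpa using chi_one d
  | succ i ih => rw [pow_succ, chi_mul, ih, pow_succ]

theorem ff_prime_pow (d : ℤ) {p : ℕ} (hp : p.Prime) (k : ℕ) :
    ff d (p ^ k) = ∑ i ∈ Finset.range (k + 1), chi d p ^ i := by
  unfold ff
  rw [Nat.sum_divisors_prime_pow hp]
  exact Finset.sum_congr rfl fun i _ => chi_pow d p i

theorem geom {c : ℤ} (hc : c = 0 ∨ c = 1 ∨ c = -1) (k : ℕ) :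
    0 ≤ ∑ i ∈ Finset.range (k + 1), c ^ i ∧ 1 ≤ ∑ i ∈ Finset.range (2 * k + 1), c ^ i := by
  rcases hc with h | h | h
  · subst h
    rw [Finset.sum_range_succ', Finset.sum_range_succ']
    simp
  · subst h
    simp
    omega
  · subst h
    rw [neg_one_geom_sum, neg_one_geom_sum]
    refine ⟨?_, ?_⟩
    · split_ifs <;> norm_num
    · rw [if_neg]
      rw [Nat.not_even_iff_odd]
      exact ⟨k, rfl⟩

theorem ff_nonneg (d : ℤ) (n : ℕ) : 0 ≤ ff d n := by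
  induction n using Nat.recOnPosPrimePosCoprime with
  | prime_pow p k hp hk =>
    rw [ff_prime_pow d hp]
    exact (geom (chi_trichotomy d p) k).1
  | zero => simp [ff]
  | one => simp [ff, chi_one]
  | coprime a b ha hb hab iha ihb =>
    rw [ff_mul d hab]
    exact mul_nonneg iha ihb

theorem ff_sq (d : ℤ) (n : ℕ) (hn : n ≠ 0) : 1 ≤ ff d (n ^ 2) := by
  induction n using Nat.recOnPosPrimePosCoprime with
  | prime_pow p k hp hk =>
    rw [← pow_mul, ff_prime_pow d hp, mul_comm k 2]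
    exact (geom (chi_trichotomy d p) k).2
  | zero => exact absurd rfl hn
  | one => simp [ff, chi_one]
  | coprime a b ha hb hab iha ihb =>
    rw [mul_pow, ff_mul d (hab.pow 2 2)]
    have h1 := iha (by omega)
    have h2 := ihb (by omega)
    nlinarith

/-- lower bound for the partial sums -/
theorem lower (d : ℤ) (M : ℕ) :
    Real.log (M + 1) ≤ ∑ n ∈ Icc 1 (M ^ 2), (ff d n : ℝ) * (n : ℝ) ^ (-(1 / 2 : ℝ)) := by
  have h1 : Real.log (M + 1) ≤ ∑ m ∈ Icc 1 M, (1 : ℝ) / m := by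
    have h := log_add_one_le_harmonic M
    rw [harmonic_eq_sum_Icc] at h
    push_cast at h
    simpa [one_div] using h
  refine h1.trans ?_
  have h2 : ∑ m ∈ Icc 1 M, (1 : ℝ) / m ≤
      ∑ m ∈ Icc 1 M, (ff d (m ^ 2) : ℝ) * ((m ^ 2 : ℕ) : ℝ) ^ (-(1 / 2 : ℝ)) := by
    refine Finset.sum_le_sum fun m hm => ?_
    rw [mem_Icc] at hm
    have hm0 : (0 : ℝ) < m := by exact_mod_cast hm.1
    have e : ((m ^ 2 : ℕ) : ℝ) ^ (-(1 / 2 : ℝ)) = 1 / m := by
      push_cast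
      rw [Real.rpow_neg (by positivity), ← Real.sqrt_eq_rpow, Real.sqrt_sq hm0.le, one_div]
    rw [e]
    have h3 : (1 : ℝ) ≤ (ff d (m ^ 2) : ℝ) := by exact_mod_cast ff_sq d m (by omega)
    have h4 : (0 : ℝ) ≤ 1 / m := by positivity
    nlinarith
  refine h2.trans ?_
  rw [← Finset.sum_image (f := fun n : ℕ => (ff d n : ℝ) * (n : ℝ) ^ (-(1 / 2 : ℝ)))
    (g := fun m : ℕ => m ^ 2)]
  · refine Finset.sum_le_sum_of_subset_of_nonneg ?_ ?_
    · intro n hn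
      obtain ⟨m, hm, rfl⟩ := Finset.mem_image.1 hn
      rw [mem_Icc] at hm ⊢
      exact ⟨Nat.one_le_pow _ _ hm.1, Nat.pow_le_pow_left hm.2 2⟩
    · intro n _ _
      have : (0 : ℝ) ≤ (ff d n : ℝ) := by exact_mod_cast ff_nonneg d n
      positivity
  · intro a _ b _ hab
    exact Nat.pow_left_injective (n := 2) (by norm_num) hab

end ItemS4

open ItemS4 in
theorem claimS4 (h2 : ClaimS2) (h5 : ClaimS5) (h6 : ClaimS6) : ClaimS4 := by
  intro d hd
  by_contra hcon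
  push Not at hcon
  set C : ℝ := |zc (1 / 2) * LL d (1 / 2)| + 98 * (1 / (1 - 1 / 2) * |(d : ℝ)|) with hC
  have key : ∀ M : ℕ, 1 ≤ M → Real.log (M + 1) ≤ C := by
    intro M hM
    have hM1 : (1 : ℝ) ≤ (M : ℝ) := by exact_mod_cast hM
    have h := est h2 h5 h6 d hd (1 / 2) le_rfl (by norm_num) ((M : ℝ) ^ 2) (one_le_pow₀ hM1)
    have e1 : ⌊(M : ℝ) ^ 2⌋₊ = M ^ 2 := by
      have : ((M ^ 2 : ℕ) : ℝ) = (M : ℝ) ^ 2 := by push_cast; rfl
      rw [← this, Nat.floor_natCast]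
    rw [e1] at h
    have h3 := (abs_le.1 h).2
    have h4 : LL d 1 * ((M : ℝ) ^ 2) ^ ((1 : ℝ) - 1 / 2) / (1 - 1 / 2) ≤ 0 := by
      have h5 : (0 : ℝ) ≤ ((M : ℝ) ^ 2) ^ ((1 : ℝ) - 1 / 2) := by positivity
      have h6 : LL d 1 * ((M : ℝ) ^ 2) ^ ((1 : ℝ) - 1 / 2) ≤ 0 :=
        mul_nonpos_of_nonpos_of_nonneg hcon h5
      exact div_nonpos_of_nonpos_of_nonneg h6 (by norm_num)
    have h5 := le_abs_self (zc (1 / 2) * LL d (1 / 2))
    have h6 := lower d M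
    have e2 : (-(1 / 2 : ℝ)) = -(1 / 2) := rfl
    linarith
  have hlim : Tendsto (fun M : ℕ => Real.log ((M : ℝ) + 1)) atTop atTop := by
    refine Real.tendsto_log_atTop.comp ?_
    exact tendsto_atTop_add_const_right _ _ tendsto_natCast_atTop_atTop
  obtain ⟨M, hM⟩ := ((hlim.eventually_gt_atTop C).and (eventually_ge_atTop 1)).exists
  exact absurd (key M hM.2) (not_le.2 hM.1)

end Pool.Agent.Work.MP_e0c7e8_nt.SM
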