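import Pool.Agent.Work.MP_e0c7e8_nt.SM.Stmts
import Pool.Agent.Work.MP_e0c7e8_nt.SM.Basic

/-!
# Item S5: partial sums of the zeta function
-/

set_option autoImplicit false

namespace Pool.Agent.Work.MP_e0c7e8_nt.SM

open Finset Filter Topology

namespace ItemS5

lemma tangent {x y p : ℝ} (hx : 0 ≤ x) (hy : 0 < y) (hp0 : 0 ≤ p) (hp1 : p ≤ 1) :
    x ^ p ≤ y ^ p + p * y ^ (p - 1) * (x - y) := by
  have h1 := rpow_one_add_le_one_add_mul_self (s := x / y - 1) (p := p)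
    (by have : 0 ≤ x / y := by positivity
        linarith) hp0 hp1
  have e1 : 1 + (x / y - 1) = x / y := by ring
  rw [e1, Real.div_rpow hx hy.le] at h1
  have hyp : 0 < y ^ p := Real.rpow_pos_of_pos hy p
  rw [div_le_iff₀ hyp] at h1
  refine h1.trans (le_of_eq ?_)
  rw [Real.rpow_sub hy, Real.rpow_one]
  field_simp

/-- the difference `Σ_{n ≤ N} n^{-β} - N^{1-β}/(1-β)` -/
noncomputable def E (β : ℝ) (N : ℕ) : ℝ :=
  ∑ n ∈ Icc 1 N, (n : ℝ) ^ (-β) - (N : ℝ) ^ (1 - β) / (1 - β)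

lemma E_succ (β : ℝ) (N : ℕ) :
    E β (N + 1) = E β N + ((N : ℝ) + 1) ^ (-β) -
      (((N : ℝ) + 1) ^ (1 - β) - (N : ℝ) ^ (1 - β)) / (1 - β) := by
  unfold E
  rw [Finset.sum_Icc_succ_top (by omega)]
  push_cast
  ring

lemma step (β : ℝ) (h1 : 0 < β) (h2 : β < 1) (N : ℕ) (hN : 1 ≤ N) :
    E β (N + 1) ≤ E β N ∧ E β N - (N : ℝ) ^ (-β) ≤ E β (N + 1) - ((N : ℝ) + 1) ^ (-β) := by
  have hN' : (0 : ℝ) < N := by exact_mod_cast hN
  have hp : 0 < 1 - β := by linarith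
  have t1 := tangent (x := (N : ℝ) + 1) (y := N) (p := 1 - β) (by positivity) hN' hp.le
    (by linarith)
  have t2 := tangent (x := (N : ℝ)) (y := (N : ℝ) + 1) (p := 1 - β) (by positivity)
    (by positivity) hp.le (by linarith)
  have e : 1 - β - 1 = -β := by ring
  rw [e] at t1 t2
  have u1 : (((N : ℝ) + 1) ^ (1 - β) - (N : ℝ) ^ (1 - β)) / (1 - β) ≤ (N : ℝ) ^ (-β) := by
    rw [div_le_iff₀ hp]
    linarith
  have u2 : ((N : ℝ) + 1) ^ (-β) ≤ (((N : ℝ) + 1) ^ (1 - β) - (N : ℝ) ^ (1 - β)) / (1 - β) := by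
    rw [le_div_iff₀ hp]
    linarith
  rw [E_succ]
  constructor <;> linarith

lemma anti (β : ℝ) (h1 : 0 < β) (h2 : β < 1) (N k : ℕ) (hN : 1 ≤ N) :
    E β (N + k) ≤ E β N ∧ E β N - (N : ℝ) ^ (-β) ≤ E β (N + k) - ((N + k : ℕ) : ℝ) ^ (-β) := by
  induction k with
  | zero => simp
  | succ k ih =>
    have := step β h1 h2 (N + k) (by omega)
    rw [← Nat.add_assoc]
    push_cast at ih this ⊢
    exact ⟨this.1.trans ih.1, ih.2.trans this.2⟩

end ItemS5

open ItemS5 in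
theorem claimS5 : ClaimS5 := by
  intro β hβ0 hβ1
  have h1 : 0 < β := by linarith
  have hp : 0 < 1 - β := by linarith
  have hanti : Antitone (fun N : ℕ => E β (N + 1)) := by
    apply antitone_nat_of_succ_le
    intro N
    exact (step β h1 hβ1 (N + 1) (by omega)).1
  have hbdd : ∀ N : ℕ, E β 1 - 1 ≤ E β (N + 1) := by
    intro N
    have := (anti β h1 hβ1 1 N le_rfl).2
    have h3 : (0 : ℝ) ≤ ((1 + N : ℕ) : ℝ) ^ (-β) := by positivity
    rw [Nat.cast_one, Real.one_rpow] at this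
    rw [add_comm N 1]
    linarith
  have hbb : BddBelow (Set.range (fun N : ℕ => E β (N + 1))) := by
    refine ⟨E β 1 - 1, ?_⟩
    rintro _ ⟨N, rfl⟩
    exact hbdd N
  have htend1 := tendsto_atTop_ciInf hanti hbb
  set z := ⨅ i : ℕ, E β (i + 1) with hz
  have htend : Tendsto (fun N : ℕ => E β N) atTop (𝓝 z) :=
    (tendsto_add_atTop_iff_nat 1).1 htend1
  have hzc : zc β = z := by
    have : Tendsto (fun N : ℕ => ∑ n ∈ Icc 1 N, (n : ℝ) ^ (-β) - (N : ℝ) ^ (1 - β) / (1 - β))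
      atTop (𝓝 z) := htend
    exact this.limUnder_eq
  have hup : ∀ N : ℕ, 1 ≤ N → z ≤ E β N := by
    intro N hN
    apply le_of_tendsto htend
    filter_upwards [eventually_ge_atTop N] with M hM
    obtain ⟨k, rfl⟩ : ∃ k, M = N + k := ⟨M - N, by omega⟩
    exact (anti β h1 hβ1 N k hN).1
  have hlow : ∀ N : ℕ, 1 ≤ N → E β N - (N : ℝ) ^ (-β) ≤ z := by
    intro N hN
    apply ge_of_tendsto htend
    filter_upwards [eventually_ge_atTop N] with M hM
    obtain ⟨k, rfl⟩ : ∃ k, M = N + k := ⟨M - N, by omega⟩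
    have := (anti β h1 hβ1 N k hN).2
    have h3 : (0 : ℝ) ≤ ((N + k : ℕ) : ℝ) ^ (-β) := by positivity
    linarith
  have hE1 : E β 1 = 1 - 1 / (1 - β) := by
    unfold E
    simp
  have hz1 : z ≤ 1 - 1 / (1 - β) := by rw [← hE1]; exact hup 1 le_rfl
  have hz2 : -(1 / (1 - β)) ≤ z := by
    have := hlow 1 le_rfl
    rw [hE1, Nat.cast_one, Real.one_rpow] at this
    linarith
  have h1b : 1 < 1 / (1 - β) := by
    rw [lt_div_iff₀ hp]
    linarith
  rw [hzc]
  refine ⟨by linarith, ?_, ?_⟩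
  · rw [abs_le]
    constructor
    · exact hz2
    · linarith
  · intro x hx
    set N : ℕ := ⌊x⌋₊ with hN
    have hN1 : 1 ≤ N := by
      rw [hN]
      exact Nat.le_floor (by exact_mod_cast hx)
    have hN' : (1 : ℝ) ≤ N := by exact_mod_cast hN1
    have hNx : (N : ℝ) ≤ x := Nat.floor_le (by linarith)
    have hxN : x < N + 1 := Nat.lt_floor_add_one x
    have hN0 : (0 : ℝ) < N := by linarith
    have t1 := tangent (x := x) (y := (N : ℝ)) (p := 1 - β) (by linarith) hN0 hp.le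
      (by linarith)
    have e : 1 - β - 1 = -β := by ring
    rw [e] at t1
    have hmono : (N : ℝ) ^ (1 - β) ≤ x ^ (1 - β) :=
      Real.rpow_le_rpow hN0.le hNx hp.le
    have hNb : 0 < (N : ℝ) ^ (-β) := Real.rpow_pos_of_pos hN0 _
    have u1 : (x ^ (1 - β) - (N : ℝ) ^ (1 - β)) / (1 - β) ≤ (N : ℝ) ^ (-β) := by
      rw [div_le_iff₀ hp]
      have h4 : (1 - β) * (N : ℝ) ^ (-β) * (x - N) ≤ (1 - β) * (N : ℝ) ^ (-β) * 1 :=
        mul_le_mul_of_nonneg_left (by linarith) (by positivity)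
      linarith
    have u0 : 0 ≤ (x ^ (1 - β) - (N : ℝ) ^ (1 - β)) / (1 - β) := by
      apply div_nonneg _ hp.le
      linarith
    have hNbx : (N : ℝ) ^ (-β) ≤ 2 * x ^ (-β) := by
      have h5 : x / 2 ≤ N := by linarith
      calc (N : ℝ) ^ (-β) ≤ (x / 2) ^ (-β) :=
            Real.rpow_le_rpow_of_nonpos (by linarith) h5 (by linarith)
        _ = x ^ (-β) * 2 ^ β := by
            rw [Real.div_rpow (by linarith) (by norm_num), Real.rpow_neg (by norm_num : (0:ℝ) ≤ 2)]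
            field_simp
        _ ≤ x ^ (-β) * 2 := by
            apply mul_le_mul_of_nonneg_left _ (by positivity)
            calc (2 : ℝ) ^ β ≤ 2 ^ (1 : ℝ) :=
                  Real.rpow_le_rpow_of_exponent_le (by norm_num) hβ1.le
              _ = 2 := Real.rpow_one 2
        _ = 2 * x ^ (-β) := mul_comm _ _
    have h6 : ∑ n ∈ Icc 1 N, (n : ℝ) ^ (-β) - x ^ (1 - β) / (1 - β) - z =
        (E β N - z) - (x ^ (1 - β) - (N : ℝ) ^ (1 - β)) / (1 - β) := by
      unfold E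
      ring
    rw [h6]
    have h7 := hup N hN1
    have h8 := hlow N hN1
    refine le_trans ?_ hNbx
    rw [abs_le]
    constructor <;> linarith

end Pool.Agent.Work.MP_e0c7e8_nt.SM
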