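import Pool.Agent.Work.MP_e0c7e8_nt.SM.Stmts
import Pool.Agent.Work.MP_e0c7e8_nt.SM.ItemS7a

/-!
# Item S7b: partial sums of `(χ * χ')(n) n ^ (-β)`
-/

set_option autoImplicit false

namespace Pool.Agent.Work.MP_e0c7e8_nt.SM

open Finset Filter Topology

namespace ItemS7

lemma one_le_abs {d : ℤ} (hd : ¬ IsSquare d) : (1 : ℝ) ≤ |(d : ℝ)| := by
  have hd0 : d ≠ 0 := by rintro rfl; exact hd ⟨0, rfl⟩
  have : (1 : ℤ) ≤ |d| := Int.one_le_abs hd0
  exact_mod_cast this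

lemma abs_LL_le (h2 : ClaimS2) {d : ℤ} (hd : ¬ IsSquare d) {β : ℝ} (hβ : 0 < β) :
    |LL d β| ≤ 9 * |(d : ℝ)| := by
  have h := (h2 d hd β hβ).2 1 le_rfl
  have h1 : ∑ n ∈ Icc 1 1, (chi d n : ℝ) * (n : ℝ) ^ (-β) = 1 := by
    simp [chi_one]
  rw [h1, Nat.cast_one, Real.one_rpow, mul_one] at h
  have h3 := one_le_abs hd
  have h4 : |LL d β| ≤ |LL d β - 1| + |1| := by
    calc |LL d β| = |(LL d β - 1) + 1| := by ring_nf
      _ ≤ _ := abs_add_le _ _
  rw [abs_one] at h4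
  linarith

/-- the difference `U(n) - L` for `n ≥ y` -/
lemma U_diff (h2 : ClaimS2) {d : ℤ} (hd : ¬ IsSquare d) {β x : ℝ} (hβ : 0 < β) (hβ1 : β ≤ 1)
    (hx : 1 ≤ x) {y n : ℕ} (hy1 : 1 ≤ y) (hy3 : Real.sqrt x ≤ 2 * (y : ℝ)) (hyn : y ≤ n) :
    |LL d β - ∑ l ∈ Icc 1 n, (chi d l : ℝ) * (l : ℝ) ^ (-β)| ≤
      |(d : ℝ)| * (16 * x ^ (-(β / 2))) := by
  have hy0 : (0 : ℝ) < y := by exact_mod_cast hy1
  have h7 := (h2 d hd β hβ).2 n (hy1.trans hyn)
  have h9 : (n : ℝ) ^ (-β) ≤ (y : ℝ) ^ (-β) :=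
    Real.rpow_le_rpow_of_nonpos hy0 (by exact_mod_cast hyn) (by linarith)
  have h8 := y_rpow hx hβ.le hβ1 hy0 hy3
  calc _ ≤ 8 * |(d : ℝ)| * (n : ℝ) ^ (-β) := h7
    _ ≤ 8 * |(d : ℝ)| * (2 * x ^ (-(β / 2))) :=
        mul_le_mul_of_nonneg_left (h9.trans h8) (by positivity)
    _ = _ := by ring

lemma sum_rpow_le' {β : ℝ} (h : 7 / 8 ≤ β) (M : ℕ) :
    ∑ m ∈ Icc 1 M, (m : ℝ) ^ (-β) ≤ 8 * (M : ℝ) ^ (1 / 8 : ℝ) := by
  calc ∑ m ∈ Icc 1 M, (m : ℝ) ^ (-β) ≤ ∑ m ∈ Icc 1 M, (m : ℝ) ^ (-(7 / 8) : ℝ) := by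
        apply Finset.sum_le_sum
        intro m hm
        rw [mem_Icc] at hm
        apply Real.rpow_le_rpow_of_exponent_le
        · exact_mod_cast hm.1
        · linarith
    _ ≤ (M : ℝ) ^ (1 - 7 / 8 : ℝ) / (1 - 7 / 8) := sum_rpow_le (7 / 8) (by norm_num) (by norm_num) M
    _ = 8 * (M : ℝ) ^ (1 / 8 : ℝ) := by
        norm_num
        ring

end ItemS7

open ItemS7 ItemN3 in
theorem claimS7b (h2 : ClaimS2) (h6 : ClaimS6) : ClaimS7b := by
  refine ⟨700, by norm_num, ?_⟩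
  intro d e hd he β hβ0 hβ1 x hx
  have hdR := one_le_abs hd
  have heR := one_le_abs he
  have hx0 : (0 : ℝ) < x := by linarith
  have hβp : 0 < β := by linarith
  obtain ⟨hy1, hyN, hy2, hy3, hNy⟩ := floor_facts hx
  set y : ℕ := ⌊Real.sqrt x⌋₊ with hydef
  set N : ℕ := ⌊x⌋₊ with hNdef
  have hy1R : (1 : ℝ) ≤ y := by exact_mod_cast hy1
  have hy0 : (0 : ℝ) < y := by linarith
  set U : ℕ → ℝ := fun n => ∑ l ∈ Icc 1 n, (chi d l : ℝ) * (l : ℝ) ^ (-β) with hU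
  set V : ℕ → ℝ := fun n => ∑ l ∈ Icc 1 n, (chi e l : ℝ) * (l : ℝ) ^ (-β) with hV
  have hid := h6 (fun l => (chi d l : ℝ) * (l : ℝ) ^ (-β)) (fun l => (chi e l : ℝ) * (l : ℝ) ^ (-β))
    N y hy1 hyN
  have hL : ∑ n ∈ Icc 1 N, ((∑ p ∈ n.divisorsAntidiagonal, chi d p.1 * chi e p.2 : ℤ) : ℝ) *
      (n : ℝ) ^ (-β) =
      ∑ n ∈ Icc 1 N, ∑ q ∈ n.divisorsAntidiagonal,
        (chi d q.1 : ℝ) * (q.1 : ℝ) ^ (-β) * ((chi e q.2 : ℝ) * (q.2 : ℝ) ^ (-β)) := by
    apply Finset.sum_congr rfl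
    intro n _
    push_cast
    rw [Finset.sum_mul]
    apply Finset.sum_congr rfl
    intro q hq
    rw [Nat.mem_divisorsAntidiagonal] at hq
    rw [← hq.1]
    push_cast
    rw [Real.mul_rpow (by positivity) (by positivity)]
    ring
  rw [hL, hid]
  have hfirst : |∑ l ∈ Icc 1 y, (chi d l : ℝ) * (l : ℝ) ^ (-β) * V (N / l) - LL e β * U y| ≤
      16 * |(e : ℝ)| * x ^ (1 / 2 - β) := by
    have e1 : LL e β * U y = ∑ l ∈ Icc 1 y, (chi d l : ℝ) * (l : ℝ) ^ (-β) * LL e β := by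
      rw [hU, Finset.mul_sum]
      apply Finset.sum_congr rfl
      intro l _
      ring
    rw [e1, ← Finset.sum_sub_distrib]
    refine (Finset.abs_sum_le_sum_abs _ _).trans ?_
    calc ∑ l ∈ Icc 1 y, |(chi d l : ℝ) * (l : ℝ) ^ (-β) * V (N / l) -
          (chi d l : ℝ) * (l : ℝ) ^ (-β) * LL e β|
        ≤ ∑ l ∈ Icc 1 y, 16 * |(e : ℝ)| * x ^ (-β) := by
          apply Finset.sum_le_sum
          intro l hl
          rw [mem_Icc] at hl
          have hl0 : (0 : ℝ) < l := by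
            have : 0 < l := hl.1
            exact_mod_cast this
          have hlN : l ≤ N := hl.2.trans hyN
          have hN1 : 1 ≤ N / l := (Nat.one_le_div_iff hl.1).2 hlN
          have hN2 : x / l ≤ 2 * ((N / l : ℕ) : ℝ) := by
            have hfl : N / l = ⌊x / l⌋₊ := by rw [hNdef, Nat.floor_div_natCast]
            have h7 : x / l < (⌊x / (l : ℝ)⌋₊ : ℝ) + 1 := Nat.lt_floor_add_one _
            rw [hfl] at hN1 ⊢
            have h8 : (1 : ℝ) ≤ (⌊x / (l : ℝ)⌋₊ : ℝ) := by exact_mod_cast hN1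
            linarith
          have h9 : ((N / l : ℕ) : ℝ) ^ (-β) ≤ 2 * (x / l) ^ (-β) := by
            have hxl : 0 < x / l := by positivity
            calc ((N / l : ℕ) : ℝ) ^ (-β) ≤ (x / l / 2) ^ (-β) :=
                  Real.rpow_le_rpow_of_nonpos (by positivity) (by linarith) (by linarith)
              _ = (x / l) ^ (-β) * 2 ^ β := by
                  rw [Real.div_rpow hxl.le (by norm_num),
                    Real.rpow_neg (by norm_num : (0:ℝ) ≤ 2)]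
                  field_simp
              _ ≤ (x / l) ^ (-β) * 2 := by
                  apply mul_le_mul_of_nonneg_left _ (by positivity)
                  calc (2 : ℝ) ^ β ≤ 2 ^ (1 : ℝ) :=
                        Real.rpow_le_rpow_of_exponent_le (by norm_num) hβ1
                    _ = 2 := Real.rpow_one 2
              _ = _ := mul_comm _ _
          have h10 := (h2 e he β hβp).2 (N / l) hN1
          rw [← mul_sub, abs_mul]
          calc |(chi d l : ℝ) * (l : ℝ) ^ (-β)| * |V (N / l) - LL e β|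
              ≤ (l : ℝ) ^ (-β) * (8 * |(e : ℝ)| * (2 * (x / l) ^ (-β))) := by
                apply mul_le_mul (abs_u_le d β l) _ (abs_nonneg _) (by positivity)
                rw [abs_sub_comm]
                exact h10.trans (mul_le_mul_of_nonneg_left h9 (by positivity))
            _ = 16 * |(e : ℝ)| * x ^ (-β) := by
                rw [Real.div_rpow hx0.le hl0.le]
                have : (l : ℝ) ^ (-β) ≠ 0 := (Real.rpow_pos_of_pos hl0 _).ne'
                field_simp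
                ring
      _ = y * (16 * |(e : ℝ)| * x ^ (-β)) := by simp
      _ ≤ Real.sqrt x * (16 * |(e : ℝ)| * x ^ (-β)) :=
          mul_le_mul_of_nonneg_right hy2 (by positivity)
      _ = 16 * |(e : ℝ)| * x ^ (1 / 2 - β) := by
          rw [Real.sqrt_eq_rpow, show (1 : ℝ) / 2 - β = 1 / 2 + (-β) by ring, Real.rpow_add hx0]
          ring
  have hUy := U_diff h2 hd hβp hβ1 hx hy1 hy3 le_rfl
  have hmain : |LL e β * U y - LL d β * LL e β| ≤ 144 * |(d : ℝ)| * |(e : ℝ)| * x ^ (-(β / 2)) := by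
    have e1 : LL e β * U y - LL d β * LL e β = -(LL e β * (LL d β - U y)) := by ring
    rw [e1, abs_neg, abs_mul]
    calc |LL e β| * |LL d β - U y| ≤ (9 * |(e : ℝ)|) * (|(d : ℝ)| * (16 * x ^ (-(β / 2)))) :=
          mul_le_mul (abs_LL_le h2 he hβp) hUy (abs_nonneg _) (by positivity)
      _ = _ := by ring
  have hsecond : |∑ m ∈ Icc 1 (N / y), (chi e m : ℝ) * (m : ℝ) ^ (-β) * (U (N / m) - U y)| ≤
      512 * |(d : ℝ)| * x ^ (1 / 16 - β / 2) := by
    refine (Finset.abs_sum_le_sum_abs _ _).trans ?_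
    calc ∑ m ∈ Icc 1 (N / y), |(chi e m : ℝ) * (m : ℝ) ^ (-β) * (U (N / m) - U y)|
        ≤ ∑ m ∈ Icc 1 (N / y), (m : ℝ) ^ (-β) * (|(d : ℝ)| * (32 * x ^ (-(β / 2)))) := by
          apply Finset.sum_le_sum
          intro m hm
          rw [mem_Icc] at hm
          have hyNm : y ≤ N / m := by
            rw [Nat.le_div_iff_mul_le hm.1, mul_comm]
            have := hm.2
            rwa [Nat.le_div_iff_mul_le (by omega)] at this
          rw [abs_mul]
          apply mul_le_mul (abs_u_le e β m) _ (abs_nonneg _) (by positivity)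
          have h10 := U_diff h2 hd hβp hβ1 hx hy1 hy3 hyNm
          have e1 : U (N / m) - U y = (LL d β - U y) - (LL d β - U (N / m)) := by ring
          rw [e1]
          calc |(LL d β - U y) - (LL d β - U (N / m))| ≤ |LL d β - U y| + |LL d β - U (N / m)| :=
                abs_sub _ _
            _ ≤ |(d : ℝ)| * (16 * x ^ (-(β / 2))) + |(d : ℝ)| * (16 * x ^ (-(β / 2))) :=
                add_le_add hUy h10
            _ = _ := by ring
      _ = (∑ m ∈ Icc 1 (N / y), (m : ℝ) ^ (-β)) * (|(d : ℝ)| * (32 * x ^ (-(β / 2)))) := by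
          rw [Finset.sum_mul]
      _ ≤ (16 * x ^ (1 / 16 : ℝ)) * (|(d : ℝ)| * (32 * x ^ (-(β / 2)))) := by
          apply mul_le_mul_of_nonneg_right _ (by positivity)
          refine (sum_rpow_le' hβ0 (N / y)).trans ?_
          calc 8 * ((N / y : ℕ) : ℝ) ^ (1 / 8 : ℝ) ≤ 8 * (2 * Real.sqrt x) ^ (1 / 8 : ℝ) := by
                apply mul_le_mul_of_nonneg_left _ (by norm_num)
                exact Real.rpow_le_rpow (by positivity) hNy (by norm_num)
            _ = 8 * (2 ^ (1 / 8 : ℝ) * x ^ (1 / 16 : ℝ)) := by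
                rw [Real.mul_rpow (by norm_num) (Real.sqrt_nonneg _), Real.sqrt_eq_rpow,
                  ← Real.rpow_mul hx0.le]
                norm_num
            _ ≤ 8 * (2 * x ^ (1 / 16 : ℝ)) := by
                apply mul_le_mul_of_nonneg_left _ (by norm_num)
                apply mul_le_mul_of_nonneg_right _ (by positivity)
                calc (2 : ℝ) ^ (1 / 8 : ℝ) ≤ 2 ^ (1 : ℝ) :=
                      Real.rpow_le_rpow_of_exponent_le (by norm_num) (by norm_num)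
                  _ = 2 := Real.rpow_one 2
            _ = 16 * x ^ (1 / 16 : ℝ) := by ring
      _ = 512 * |(d : ℝ)| * (x ^ (1 / 16 : ℝ) * x ^ (-(β / 2))) := by ring
      _ = 512 * |(d : ℝ)| * x ^ (1 / 16 - β / 2) := by
          rw [← Real.rpow_add hx0]
          congr 2
  have hexp1 : x ^ (1 / 2 - β) ≤ x ^ (-(1 / 4) : ℝ) :=
    Real.rpow_le_rpow_of_exponent_le hx (by linarith)
  have hexp2 : x ^ (-(β / 2)) ≤ x ^ (-(1 / 4) : ℝ) :=
    Real.rpow_le_rpow_of_exponent_le hx (by linarith)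
  have hexp3 : x ^ (1 / 16 - β / 2) ≤ x ^ (-(1 / 4) : ℝ) :=
    Real.rpow_le_rpow_of_exponent_le hx (by linarith)
  set T : ℝ := x ^ (-(1 / 4) : ℝ) with hT
  have hT0 : 0 < T := Real.rpow_pos_of_pos hx0 _
  have b1 : 16 * |(e : ℝ)| * x ^ (1 / 2 - β) ≤ 16 * (|(d : ℝ)| * |(e : ℝ)| * T) := by
    calc 16 * |(e : ℝ)| * x ^ (1 / 2 - β) ≤ 16 * |(e : ℝ)| * T :=
          mul_le_mul_of_nonneg_left hexp1 (by positivity)
      _ = 16 * (1 * |(e : ℝ)| * T) := by ring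
      _ ≤ 16 * (|(d : ℝ)| * |(e : ℝ)| * T) := by gcongr
  have b2 : 144 * |(d : ℝ)| * |(e : ℝ)| * x ^ (-(β / 2)) ≤ 144 * (|(d : ℝ)| * |(e : ℝ)| * T) := by
    calc 144 * |(d : ℝ)| * |(e : ℝ)| * x ^ (-(β / 2)) ≤ 144 * |(d : ℝ)| * |(e : ℝ)| * T :=
          mul_le_mul_of_nonneg_left hexp2 (by positivity)
      _ = _ := by ring
  have b3 : 512 * |(d : ℝ)| * x ^ (1 / 16 - β / 2) ≤ 512 * (|(d : ℝ)| * |(e : ℝ)| * T) := by
    calc 512 * |(d : ℝ)| * x ^ (1 / 16 - β / 2) ≤ 512 * |(d : ℝ)| * T :=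
          mul_le_mul_of_nonneg_left hexp3 (by positivity)
      _ = 512 * (|(d : ℝ)| * 1 * T) := by ring
      _ ≤ 512 * (|(d : ℝ)| * |(e : ℝ)| * T) := by gcongr
  have hfin : (∑ l ∈ Icc 1 y, (chi d l : ℝ) * (l : ℝ) ^ (-β) * V (N / l) +
      ∑ m ∈ Icc 1 (N / y), (chi e m : ℝ) * (m : ℝ) ^ (-β) * (U (N / m) - U y)) -
      LL d β * LL e β =
      ((∑ l ∈ Icc 1 y, (chi d l : ℝ) * (l : ℝ) ^ (-β) * V (N / l) - LL e β * U y) +
      (LL e β * U y - LL d β * LL e β)) +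
      ∑ m ∈ Icc 1 (N / y), (chi e m : ℝ) * (m : ℝ) ^ (-β) * (U (N / m) - U y) := by ring
  rw [hfin]
  have t1 := abs_add_le
    ((∑ l ∈ Icc 1 y, (chi d l : ℝ) * (l : ℝ) ^ (-β) * V (N / l) - LL e β * U y) +
      (LL e β * U y - LL d β * LL e β))
    (∑ m ∈ Icc 1 (N / y), (chi e m : ℝ) * (m : ℝ) ^ (-β) * (U (N / m) - U y))
  have t2 := abs_add_le
    (∑ l ∈ Icc 1 y, (chi d l : ℝ) * (l : ℝ) ^ (-β) * V (N / l) - LL e β * U y)
      (LL e β * U y - LL d β * LL e β)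
  have e700 : 700 * |(d : ℝ)| * |(e : ℝ)| * T = 700 * (|(d : ℝ)| * |(e : ℝ)| * T) := by ring
  rw [e700]
  have hpos : 0 < |(d : ℝ)| * |(e : ℝ)| * T := by positivity
  linarith

end Pool.Agent.Work.MP_e0c7e8_nt.SM
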