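import Pool.Agent.Work.MP_e0c7e8_nt.SM.Stmts
import Pool.Agent.Work.MP_e0c7e8_nt.SM.Basic
import Pool.Agent.Work.MP_e0c7e8_nt.SM.ItemN3
import Pool.Agent.Work.MP_e0c7e8_nt.SM.ItemS6
import Pool.Agent.Work.MP_e0c7e8_nt.SM.ItemS7a

/-!
# S8: the main inequality of Siegel
-/

set_option autoImplicit false

namespace Pool.Agent.Work.MP_e0c7e8_nt.SM

open Finset

namespace ItemS8

/-- `τ(n) / n`. -/
noncomputable def T (n : ℕ) : ℝ := ∑ p ∈ n.divisorsAntidiagonal, (1 : ℝ) / p.1 * (1 / p.2)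

lemma T_nonneg (n : ℕ) : 0 ≤ T n := Finset.sum_nonneg fun p _ => by positivity

lemma sum_T (M : ℕ) : ∑ n ∈ Icc 1 M, T n ≤ (1 + Real.log M) ^ 2 := by
  have h := ItemS6.sum_antidiag (fun a b => (1 : ℝ) / a * (1 / b)) M
  have h0 : 0 ≤ ∑ l ∈ Icc 1 M, (1 : ℝ) / l := Finset.sum_nonneg fun l _ => by positivity
  calc ∑ n ∈ Icc 1 M, T n = ∑ l ∈ Icc 1 M, ∑ m ∈ Icc 1 (M / l), (1 : ℝ) / l * (1 / m) := h
    _ ≤ ∑ l ∈ Icc 1 M, ∑ m ∈ Icc 1 M, (1 : ℝ) / l * (1 / m) := by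
        apply Finset.sum_le_sum
        intro l _
        apply Finset.sum_le_sum_of_subset_of_nonneg
        · exact Finset.Icc_subset_Icc_right (Nat.div_le_self _ _)
        · intro m _ _
          positivity
    _ = (∑ l ∈ Icc 1 M, (1 : ℝ) / l) ^ 2 := by
        rw [sq, Finset.sum_mul_sum]
    _ ≤ (1 + Real.log M) ^ 2 := pow_le_pow_left₀ h0 (ItemN3.sum_inv_le M) 2

lemma conv_le (F : ℕ → ℕ → ℝ) (hF : ∀ a b, |F a b| ≤ 1) (n : ℕ) :
    |∑ p ∈ n.divisorsAntidiagonal, F p.1 p.2| * (1 / (n : ℝ)) ≤ T n := by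
  have h1 : |∑ p ∈ n.divisorsAntidiagonal, F p.1 p.2| ≤ ∑ p ∈ n.divisorsAntidiagonal, (1 : ℝ) :=
    (Finset.abs_sum_le_sum_abs _ _).trans (Finset.sum_le_sum fun p _ => hF _ _)
  refine (mul_le_mul_of_nonneg_right h1 (by positivity)).trans (le_of_eq ?_)
  unfold T
  rw [Finset.sum_mul]
  apply Finset.sum_congr rfl
  intro p hp
  rw [← (Nat.mem_divisorsAntidiagonal.1 hp).1]
  push_cast
  rw [one_mul, one_div_mul_one_div]

lemma log_bound {x : ℝ} (hx : 1 ≤ x) : (1 + Real.log x) ^ 2 ≤ 4225 * x ^ ((1 : ℝ) / 32) := by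
  have h1 := Real.log_le_rpow_div (x := x) (by linarith) (show (0 : ℝ) < 1 / 64 by norm_num)
  have h2 : 1 ≤ x ^ ((1 : ℝ) / 64) := Real.one_le_rpow hx (by norm_num)
  have h3 : 0 ≤ 1 + Real.log x := by have := Real.log_nonneg hx; linarith
  have h4 : 1 + Real.log x ≤ 65 * x ^ ((1 : ℝ) / 64) := by
    have e : x ^ ((1 : ℝ) / 64) / (1 / 64) = 64 * x ^ ((1 : ℝ) / 64) := by ring
    rw [e] at h1
    linarith
  calc (1 + Real.log x) ^ 2 ≤ (65 * x ^ ((1 : ℝ) / 64)) ^ 2 := pow_le_pow_left₀ h3 h4 2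
    _ = 4225 * (x ^ ((1 : ℝ) / 64) * x ^ ((1 : ℝ) / 64)) := by ring
    _ = 4225 * x ^ ((1 : ℝ) / 32) := by
        rw [← Real.rpow_add (by linarith)]
        norm_num

lemma sum_T_le {x : ℝ} (hx : 1 ≤ x) (M : ℕ) (hM1 : 1 ≤ M) (hM : (M : ℝ) ≤ x) :
    ∑ n ∈ Icc 1 M, T n ≤ 4225 * x ^ ((1 : ℝ) / 32) := by
  have hM0 : (1 : ℝ) ≤ M := by exact_mod_cast hM1
  refine (sum_T M).trans (le_trans ?_ (log_bound hx))
  apply pow_le_pow_left₀
  · have := Real.log_nonneg hM0; linarith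
  · have := Real.log_le_log (by linarith) hM; linarith

/-- coefficients -/
def gg (d e : ℤ) (n : ℕ) : ℤ := ∑ p ∈ n.divisorsAntidiagonal, chi e p.1 * chi (d * e) p.2

lemma gg_le (d e : ℤ) (n : ℕ) : |(gg d e n : ℝ)| * (1 / (n : ℝ)) ≤ T n := by
  have h := conv_le (fun a b => (chi e a : ℝ) * (chi (d * e) b : ℝ)) (by
    intro a b
    rw [abs_mul]
    exact mul_le_one₀ (abs_chi_real_le _ _) (abs_nonneg _) (abs_chi_real_le _ _)) n
  unfold gg
  push_cast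
  exact h

lemma ff_le (d : ℤ) (n : ℕ) : |(ff d n : ℝ)| * (1 / (n : ℝ)) ≤ T n := by
  have h := conv_le (fun a _ => (chi d a : ℝ)) (fun a _ => abs_chi_real_le _ _) n
  rw [ItemN3.ff_eq]
  push_cast
  simpa using h

lemma one_le_sum (h8a : ClaimS8a) (d e : ℤ) (b : ℝ) (N : ℕ) (hN : 1 ≤ N) :
    1 ≤ ∑ n ∈ Icc 1 N, ∑ p ∈ n.divisorsAntidiagonal,
      ((gg d e p.1 : ℝ) * (p.1 : ℝ) ^ (-b)) * ((ff d p.2 : ℝ) * (p.2 : ℝ) ^ (-b)) := by
  have key : ∀ n : ℕ, ∑ p ∈ n.divisorsAntidiagonal,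
      ((gg d e p.1 : ℝ) * (p.1 : ℝ) ^ (-b)) * ((ff d p.2 : ℝ) * (p.2 : ℝ) ^ (-b)) =
      ((∑ p ∈ n.divisorsAntidiagonal, gg d e p.1 * ff d p.2 : ℤ) : ℝ) * (n : ℝ) ^ (-b) := by
    intro n
    push_cast
    rw [Finset.sum_mul]
    apply Finset.sum_congr rfl
    intro p hp
    rw [← (Nat.mem_divisorsAntidiagonal.1 hp).1]
    push_cast
    rw [Real.mul_rpow (by positivity) (by positivity)]
    ring
  rw [Finset.sum_congr rfl fun n _ => key n]
  have hpos : ∀ n ∈ Icc 1 N, 0 ≤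
      ((∑ p ∈ n.divisorsAntidiagonal, gg d e p.1 * ff d p.2 : ℤ) : ℝ) * (n : ℝ) ^ (-b) := by
    intro n _
    apply mul_nonneg
    · have := h8a d e n
      unfold gg
      exact_mod_cast this
    · positivity
  have h1 := Finset.single_le_sum hpos (Finset.mem_Icc.2 ⟨le_rfl, hN⟩)
  refine le_trans (le_of_eq ?_) h1
  simp [gg, ff, chi_one, Nat.divisorsAntidiagonal_one]

lemma LL_le (h2 : ClaimS2) (d : ℤ) (hd : ¬ IsSquare d) (hdR : (1 : ℝ) ≤ |(d : ℝ)|) (b : ℝ)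
    (hb : 0 < b) : |LL d b| ≤ 9 * |(d : ℝ)| := by
  have h := (h2 d hd b hb).2 1 le_rfl
  simp only [Finset.Icc_self, Finset.sum_singleton, chi_one] at h
  norm_num at h
  have h3 : |LL d b| ≤ |LL d b - 1| + 1 := by
    have := abs_add_le (LL d b - 1) 1
    simpa using this
  linarith

end ItemS8

open ItemS8 in
theorem claimS8 (h2 : ClaimS2) (h5 : ClaimS5) (h6 : ClaimS6) (h7a : ClaimS7a) (h7b : ClaimS7b)
    (h8a : ClaimS8a) : ClaimS8 := by
  obtain ⟨Ca, hCa, H7a⟩ := h7a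
  obtain ⟨Cb, hCb, H7b⟩ := h7b
  refine ⟨16936 * Cb + 4225 * Ca, by positivity, ?_⟩
  intro d e hd he hde b hb0 hb1 x hx
  have hd0 : d ≠ 0 := by rintro rfl; exact hd ⟨0, rfl⟩
  have he0 : e ≠ 0 := by rintro rfl; exact he ⟨0, rfl⟩
  have hdR : (1 : ℝ) ≤ |(d : ℝ)| := by
    have : (1 : ℤ) ≤ |d| := Int.one_le_abs hd0
    exact_mod_cast this
  have heR : (1 : ℝ) ≤ |(e : ℝ)| := by
    have : (1 : ℤ) ≤ |e| := Int.one_le_abs he0
    exact_mod_cast this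
  have hx0 : (0 : ℝ) < x := by linarith
  have hp0 : 0 < 1 - b := by linarith
  have hp1 : 1 - b ≤ 1 / 16 := by linarith
  set N := ⌊x⌋₊ with hN
  set y := ⌊Real.sqrt x⌋₊ with hy
  obtain ⟨hy1, hyN, hysq, hy2, -⟩ := ItemS7.floor_facts hx
  rw [← hy] at hy1 hyN hysq hy2
  rw [← hN] at hyN
  have hN1 : 1 ≤ N := hy1.trans hyN
  have hNx : (N : ℝ) ≤ x := Nat.floor_le hx0.le
  have hyR : (1 : ℝ) ≤ y := by exact_mod_cast hy1
  have hy0 : (0 : ℝ) < y := by linarith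
  have hyx : (y : ℝ) ≤ x := le_trans (by exact_mod_cast hyN) hNx
  set D := |(d : ℝ)| with hD
  set E := |(e : ℝ)| with hE
  have hDE : |((d * e : ℤ) : ℝ)| = D * E := by push_cast; rw [abs_mul]
  set u : ℕ → ℝ := fun l => (gg d e l : ℝ) * (l : ℝ) ^ (-b) with hu
  set v : ℕ → ℝ := fun m => (ff d m : ℝ) * (m : ℝ) ^ (-b) with hv
  have hone := one_le_sum h8a d e b N hN1
  have hS6 := h6 u v N y hy1 hyN
  have hone' : 1 ≤ ∑ l ∈ Icc 1 y, u l * ∑ m ∈ Icc 1 (N / l), v m +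
      ∑ m ∈ Icc 1 (N / y), v m * (∑ l ∈ Icc 1 (N / m), u l - ∑ l ∈ Icc 1 y, u l) := by
    rw [← hS6]; exact hone
  set A := ∑ l ∈ Icc 1 y, u l * ∑ m ∈ Icc 1 (N / l), v m with hA
  set B := ∑ m ∈ Icc 1 (N / y), v m * (∑ l ∈ Icc 1 (N / m), u l - ∑ l ∈ Icc 1 y, u l) with hB
  -- powers of x
  set X := x ^ (-(1 / 32) : ℝ) with hX
  have hX0 : 0 < X := Real.rpow_pos_of_pos hx0 _
  have hX8 : x ^ (-(1 / 8) : ℝ) ≤ X := Real.rpow_le_rpow_of_exponent_le hx (by norm_num)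
  have hX16 : x ^ (-(1 / 16) : ℝ) ≤ X := Real.rpow_le_rpow_of_exponent_le hx (by norm_num)
  have hX8' : 0 < x ^ (-(1 / 8) : ℝ) := Real.rpow_pos_of_pos hx0 _
  have hX16' : 0 < x ^ (-(1 / 16) : ℝ) := Real.rpow_pos_of_pos hx0 _
  have hmul16 : x ^ (-(1 / 16) : ℝ) * x ^ ((1 : ℝ) / 32) = X := by
    rw [← Real.rpow_add hx0, hX]; norm_num
  -- bounds for G
  have hy14 : (y : ℝ) ^ (-(1 / 4) : ℝ) ≤ 2 * x ^ (-(1 / 8) : ℝ) := by
    have := ItemS7.y_rpow (β := 1 / 4) hx (by norm_num) (by norm_num) hy0 hy2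
    norm_num at this ⊢
    exact this
  have hy14' : 0 < (y : ℝ) ^ (-(1 / 4) : ℝ) := Real.rpow_pos_of_pos hy0 _
  have hG : ∀ n : ℕ, y ≤ n → |∑ l ∈ Icc 1 n, u l - LL e b * LL (d * e) b| ≤
      2 * Cb * (D * E ^ 2) * x ^ (-(1 / 8) : ℝ) := by
    intro n hn
    have hnR : (y : ℝ) ≤ n := by exact_mod_cast hn
    have h := H7b e (d * e) he hde b (by linarith) hb1.le n (by linarith)
    rw [Nat.floor_natCast, hDE] at h
    refine h.trans ?_
    have h3 : (n : ℝ) ^ (-(1 / 4) : ℝ) ≤ (y : ℝ) ^ (-(1 / 4) : ℝ) :=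
      Real.rpow_le_rpow_of_nonpos hy0 hnR (by norm_num)
    calc Cb * |(e : ℝ)| * (D * E) * (n : ℝ) ^ (-(1 / 4) : ℝ)
        ≤ Cb * |(e : ℝ)| * (D * E) * (2 * x ^ (-(1 / 8) : ℝ)) :=
          mul_le_mul_of_nonneg_left (h3.trans hy14) (by positivity)
      _ = _ := by rw [← hE]; ring
  have hG1 : |∑ l ∈ Icc 1 y, (gg d e l : ℝ) * (l : ℝ) ^ (-1 : ℝ) - LL e 1 * LL (d * e) 1| ≤
      2 * Cb * (D * E ^ 2) * x ^ (-(1 / 8) : ℝ) := by
    have h := H7b e (d * e) he hde 1 (by norm_num) le_rfl y hyR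
    rw [Nat.floor_natCast, hDE] at h
    refine h.trans ?_
    calc Cb * |(e : ℝ)| * (D * E) * (y : ℝ) ^ (-(1 / 4) : ℝ)
        ≤ Cb * |(e : ℝ)| * (D * E) * (2 * x ^ (-(1 / 8) : ℝ)) :=
          mul_le_mul_of_nonneg_left hy14 (by positivity)
      _ = _ := by rw [← hE]; ring
  set G0 := ∑ l ∈ Icc 1 y, u l with hG0
  set G1 := ∑ l ∈ Icc 1 y, (gg d e l : ℝ) * (l : ℝ) ^ (-1 : ℝ) with hG1d
  -- the part A
  set P := LL d 1 * x ^ (1 - b) / (1 - b) with hP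
  set R := zc b * LL d b with hR
  have hAmain : ∑ l ∈ Icc 1 y, u l * (LL d 1 * (x / l) ^ (1 - b) / (1 - b) + R) =
      P * G1 + R * G0 := by
    rw [hG1d, hG0, Finset.mul_sum, Finset.mul_sum, ← Finset.sum_add_distrib]
    apply Finset.sum_congr rfl
    intro l hl
    have hl1 : 1 ≤ l := (Finset.mem_Icc.1 hl).1
    have hl0 : (0 : ℝ) < l := by exact_mod_cast hl1
    have e1 : (l : ℝ) ^ (-b) * (x / l) ^ (1 - b) = x ^ (1 - b) * (l : ℝ) ^ (-1 : ℝ) := by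
      have e0 : (-b - (1 - b) : ℝ) = -1 := by ring
      rw [Real.div_rpow hx0.le hl0.le, mul_div_assoc', mul_comm, mul_div_assoc,
        ← Real.rpow_sub hl0, e0]
    rw [hP, hu]
    calc (gg d e l : ℝ) * (l : ℝ) ^ (-b) * (LL d 1 * (x / l) ^ (1 - b) / (1 - b) + R)
        = (gg d e l : ℝ) * LL d 1 / (1 - b) * ((l : ℝ) ^ (-b) * (x / l) ^ (1 - b)) +
          R * ((gg d e l : ℝ) * (l : ℝ) ^ (-b)) := by ring
      _ = _ := by rw [e1]; ring
  have hAerr : |A - (P * G1 + R * G0)| ≤ 4225 * Ca / (1 - b) * D * X := by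
    rw [← hAmain, hA, ← Finset.sum_sub_distrib]
    refine (Finset.abs_sum_le_sum_abs _ _).trans ?_
    have hterm : ∀ l ∈ Icc 1 y, |u l * ∑ m ∈ Icc 1 (N / l), v m -
        u l * (LL d 1 * (x / l) ^ (1 - b) / (1 - b) + R)| ≤
        Ca / (1 - b) * D * x ^ (-(1 / 16) : ℝ) * T l := by
      intro l hl
      obtain ⟨hl1, hly⟩ := Finset.mem_Icc.1 hl
      have hl0 : (0 : ℝ) < l := by exact_mod_cast hl1
      have hl1R : (1 : ℝ) ≤ l := by exact_mod_cast hl1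
      have hlyR : (l : ℝ) ≤ y := by exact_mod_cast hly
      have hxl : 1 ≤ x / l := by rw [le_div_iff₀ hl0]; linarith
      have h := H7a d hd b (by linarith) hb1 (x / l) hxl
      rw [Nat.floor_div_natCast, ← hN] at h
      rw [← mul_sub, abs_mul]
      have h' : |∑ m ∈ Icc 1 (N / l), v m - (LL d 1 * (x / l) ^ (1 - b) / (1 - b) + R)| ≤
          Ca / (1 - b) * D * (x / l) ^ (-(1 / 4) : ℝ) := by
        have e2 : ∑ m ∈ Icc 1 (N / l), v m - (LL d 1 * (x / l) ^ (1 - b) / (1 - b) + R) =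
          ∑ n ∈ Icc 1 (N / l), (ff d n : ℝ) * (n : ℝ) ^ (-b) -
            LL d 1 * (x / l) ^ (1 - b) / (1 - b) - zc b * LL d b := by
          rw [hv, hR]; ring
        rw [e2]
        exact h
      have hul : |u l| = |(gg d e l : ℝ)| * (l : ℝ) ^ (-b) := by
        rw [hu, abs_mul, abs_of_nonneg (Real.rpow_nonneg hl0.le _)]
      have hpw : |u l| * (x / l) ^ (-(1 / 4) : ℝ) ≤ x ^ (-(1 / 16) : ℝ) * T l := by
        rw [hul]
        have e3 : (l : ℝ) ^ (-b) * (x / l) ^ (-(1 / 4) : ℝ) =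
            (1 / (l : ℝ)) * ((l : ℝ) ^ (5 / 4 - b) * x ^ (-(1 / 4) : ℝ)) := by
          rw [Real.div_rpow hx0.le hl0.le, mul_div_assoc', mul_comm ((l : ℝ) ^ (-b)),
            mul_div_assoc, ← Real.rpow_sub hl0]
          have e4 : (5 / 4 - b : ℝ) = 1 + (-b - -(1 / 4)) := by ring
          rw [e4, Real.rpow_add hl0, Real.rpow_one]
          field_simp
        have e5 : (l : ℝ) ^ (5 / 4 - b) ≤ x ^ ((3 : ℝ) / 16) := by
          calc (l : ℝ) ^ (5 / 4 - b) ≤ (l : ℝ) ^ ((3 : ℝ) / 8) :=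
                Real.rpow_le_rpow_of_exponent_le hl1R (by linarith)
            _ ≤ (Real.sqrt x) ^ ((3 : ℝ) / 8) :=
                Real.rpow_le_rpow hl0.le (hlyR.trans hysq) (by norm_num)
            _ = x ^ ((3 : ℝ) / 16) := by
                rw [Real.sqrt_eq_rpow, ← Real.rpow_mul hx0.le]; norm_num
        have e6 : x ^ ((3 : ℝ) / 16) * x ^ (-(1 / 4) : ℝ) = x ^ (-(1 / 16) : ℝ) := by
          rw [← Real.rpow_add hx0]; norm_num
        calc |(gg d e l : ℝ)| * (l : ℝ) ^ (-b) * (x / l) ^ (-(1 / 4) : ℝ)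
            = |(gg d e l : ℝ)| * ((l : ℝ) ^ (-b) * (x / l) ^ (-(1 / 4) : ℝ)) := by ring
          _ = (|(gg d e l : ℝ)| * (1 / (l : ℝ))) * ((l : ℝ) ^ (5 / 4 - b) *
                x ^ (-(1 / 4) : ℝ)) := by rw [e3]; ring
          _ ≤ T l * x ^ (-(1 / 16) : ℝ) := by
              apply mul_le_mul (gg_le d e l) _ (by positivity) (T_nonneg l)
              rw [← e6]
              exact mul_le_mul_of_nonneg_right e5 (Real.rpow_nonneg hx0.le _)
          _ = _ := mul_comm _ _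
      calc |u l| * |∑ m ∈ Icc 1 (N / l), v m - (LL d 1 * (x / l) ^ (1 - b) / (1 - b) + R)|
          ≤ |u l| * (Ca / (1 - b) * D * (x / l) ^ (-(1 / 4) : ℝ)) :=
            mul_le_mul_of_nonneg_left h' (abs_nonneg _)
        _ = Ca / (1 - b) * D * (|u l| * (x / l) ^ (-(1 / 4) : ℝ)) := by ring
        _ ≤ Ca / (1 - b) * D * (x ^ (-(1 / 16) : ℝ) * T l) :=
            mul_le_mul_of_nonneg_left hpw (by positivity)
        _ = _ := by ring
    refine (Finset.sum_le_sum hterm).trans ?_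
    rw [← Finset.mul_sum]
    calc Ca / (1 - b) * D * x ^ (-(1 / 16) : ℝ) * ∑ l ∈ Icc 1 y, T l
        ≤ Ca / (1 - b) * D * x ^ (-(1 / 16) : ℝ) * (4225 * x ^ ((1 : ℝ) / 32)) :=
          mul_le_mul_of_nonneg_left (sum_T_le hx y hy1 hyx) (by positivity)
      _ = 4225 * Ca / (1 - b) * D * (x ^ (-(1 / 16) : ℝ) * x ^ ((1 : ℝ) / 32)) := by ring
      _ = _ := by rw [hmul16]
  -- the part B
  have hBerr : |B| ≤ 16900 * Cb * (D * E ^ 2) * X := by
    rw [hB]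
    refine (Finset.abs_sum_le_sum_abs _ _).trans ?_
    have hNy1 : 1 ≤ N / y := (Nat.one_le_div_iff (by omega)).2 hyN
    have hNyx : ((N / y : ℕ) : ℝ) ≤ x :=
      le_trans (by exact_mod_cast Nat.div_le_self N y) hNx
    have hterm : ∀ m ∈ Icc 1 (N / y), |v m * (∑ l ∈ Icc 1 (N / m), u l - G0)| ≤
        4 * Cb * (D * E ^ 2) * x ^ (-(1 / 16) : ℝ) * T m := by
      intro m hm
      obtain ⟨hm1, hmN⟩ := Finset.mem_Icc.1 hm
      have hm0 : (0 : ℝ) < m := by exact_mod_cast hm1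
      have hm1R : (1 : ℝ) ≤ m := by exact_mod_cast hm1
      have hmx : (m : ℝ) ≤ x := le_trans (by exact_mod_cast hmN) hNyx
      have hyNm : y ≤ N / m := by
        rw [Nat.le_div_iff_mul_le (by omega)]
        have := (Nat.le_div_iff_mul_le (show 0 < y by omega)).1 hmN
        rw [mul_comm]; exact this
      have h1 := hG (N / m) hyNm
      have h2' := hG y le_rfl
      rw [← hG0] at h2'
      have h3 : |∑ l ∈ Icc 1 (N / m), u l - G0| ≤ 4 * Cb * (D * E ^ 2) * x ^ (-(1 / 8) : ℝ) := by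
        have e1 : ∑ l ∈ Icc 1 (N / m), u l - G0 =
            (∑ l ∈ Icc 1 (N / m), u l - LL e b * LL (d * e) b) -
              (G0 - LL e b * LL (d * e) b) := by ring
        rw [e1]
        refine (abs_sub _ _).trans ?_
        linarith
      have h4 : |v m| ≤ T m * x ^ ((1 : ℝ) / 16) := by
        have e2 : |v m| = (|(ff d m : ℝ)| * (1 / (m : ℝ))) * (m : ℝ) ^ (1 - b) := by
          rw [hv, abs_mul, abs_of_nonneg (Real.rpow_nonneg hm0.le _)]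
          have e3 : (1 - b : ℝ) = 1 + -b := by ring
          rw [e3, Real.rpow_add hm0, Real.rpow_one]
          field_simp
        rw [e2]
        apply mul_le_mul (ff_le d m) _ (by positivity) (T_nonneg m)
        calc (m : ℝ) ^ (1 - b) ≤ (m : ℝ) ^ ((1 : ℝ) / 16) :=
              Real.rpow_le_rpow_of_exponent_le hm1R hp1
          _ ≤ x ^ ((1 : ℝ) / 16) := Real.rpow_le_rpow hm0.le hmx (by norm_num)
      have e6 : x ^ ((1 : ℝ) / 16) * x ^ (-(1 / 8) : ℝ) = x ^ (-(1 / 16) : ℝ) := by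
        rw [← Real.rpow_add hx0]; norm_num
      rw [abs_mul]
      have hT := T_nonneg m
      calc |v m| * |∑ l ∈ Icc 1 (N / m), u l - G0|
          ≤ (T m * x ^ ((1 : ℝ) / 16)) * (4 * Cb * (D * E ^ 2) * x ^ (-(1 / 8) : ℝ)) :=
            mul_le_mul h4 h3 (abs_nonneg _) (by positivity)
        _ = 4 * Cb * (D * E ^ 2) * (x ^ ((1 : ℝ) / 16) * x ^ (-(1 / 8) : ℝ)) * T m := by ring
        _ = _ := by rw [e6]
    refine (Finset.sum_le_sum hterm).trans ?_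
    rw [← Finset.mul_sum]
    calc 4 * Cb * (D * E ^ 2) * x ^ (-(1 / 16) : ℝ) * ∑ m ∈ Icc 1 (N / y), T m
        ≤ 4 * Cb * (D * E ^ 2) * x ^ (-(1 / 16) : ℝ) * (4225 * x ^ ((1 : ℝ) / 32)) :=
          mul_le_mul_of_nonneg_left (sum_T_le hx (N / y) hNy1 hNyx) (by positivity)
      _ = 16900 * Cb * (D * E ^ 2) * (x ^ (-(1 / 16) : ℝ) * x ^ ((1 : ℝ) / 32)) := by ring
      _ = _ := by rw [hmul16]
  -- the main terms
  set K := D ^ 3 * E ^ 3 / (1 - b) * X with hK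
  have hip : 1 ≤ 1 / (1 - b) := by rw [le_div_iff₀ hp0]; linarith
  have hD3 : D ^ 2 ≤ D ^ 3 := pow_le_pow_right₀ hdR (by norm_num)
  have hD13 : D ≤ D ^ 3 := le_self_pow₀ hdR (by norm_num)
  have hE3 : E ^ 2 ≤ E ^ 3 := pow_le_pow_right₀ heR (by norm_num)
  have hE13 : 1 ≤ E ^ 3 := one_le_pow₀ heR
  have hD0 : 0 < D := by linarith
  have hE0 : 0 < E := by linarith
  have hDE22 : D ^ 2 * E ^ 2 ≤ D ^ 3 * E ^ 3 := mul_le_mul hD3 hE3 (by positivity) (by positivity)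
  have hDE12 : D * E ^ 2 ≤ D ^ 3 * E ^ 3 := mul_le_mul hD13 hE3 (by positivity) (by positivity)
  have hD1 : D ≤ D ^ 3 * E ^ 3 := by
    calc D = D * 1 := (mul_one D).symm
      _ ≤ _ := mul_le_mul hD13 hE13 zero_le_one (by positivity)
  have hLd1 := LL_le h2 d hd hdR 1 one_pos
  have hLdb := LL_le h2 d hd hdR b (by linarith)
  have hzc := (h5 b (by linarith) hb1).2.1
  have hxb : x ^ (1 - b) ≤ x ^ ((1 : ℝ) / 16) := Real.rpow_le_rpow_of_exponent_le hx hp1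
  have hxb0 : 0 < x ^ (1 - b) := Real.rpow_pos_of_pos hx0 _
  have e6 : x ^ ((1 : ℝ) / 16) * x ^ (-(1 / 8) : ℝ) = x ^ (-(1 / 16) : ℝ) := by
    rw [← Real.rpow_add hx0]; norm_num
  have hPabs : |P| ≤ 9 * D * x ^ ((1 : ℝ) / 16) / (1 - b) := by
    rw [hP, abs_div, abs_mul, abs_of_pos hp0, abs_of_pos hxb0]
    apply div_le_div_of_nonneg_right _ hp0.le
    exact mul_le_mul hLd1 hxb hxb0.le (by positivity)
  have hRabs : |R| ≤ 9 * D / (1 - b) := by
    rw [hR, abs_mul]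
    calc |zc b| * |LL d b| ≤ 1 / (1 - b) * (9 * D) :=
          mul_le_mul hzc hLdb (abs_nonneg _) (by positivity)
      _ = _ := by ring
  have ht1 : |P * (G1 - LL e 1 * LL (d * e) 1)| ≤ 18 * Cb * K := by
    rw [abs_mul]
    calc |P| * |G1 - LL e 1 * LL (d * e) 1|
        ≤ (9 * D * x ^ ((1 : ℝ) / 16) / (1 - b)) * (2 * Cb * (D * E ^ 2) * x ^ (-(1 / 8) : ℝ)) :=
          mul_le_mul hPabs hG1 (abs_nonneg _) (by positivity)
      _ = 18 * Cb * ((D ^ 2 * E ^ 2) / (1 - b) *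
            (x ^ ((1 : ℝ) / 16) * x ^ (-(1 / 8) : ℝ))) := by ring
      _ ≤ 18 * Cb * K := by
          rw [e6, hK]
          apply mul_le_mul_of_nonneg_left _ (by positivity)
          exact mul_le_mul (div_le_div_of_nonneg_right hDE22 hp0.le) hX16 hX16'.le (by positivity)
  have ht2 : |R * (G0 - LL e b * LL (d * e) b)| ≤ 18 * Cb * K := by
    rw [abs_mul]
    have h2' := hG y le_rfl
    rw [← hG0] at h2'
    calc |R| * |G0 - LL e b * LL (d * e) b|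
        ≤ (9 * D / (1 - b)) * (2 * Cb * (D * E ^ 2) * x ^ (-(1 / 8) : ℝ)) :=
          mul_le_mul hRabs h2' (abs_nonneg _) (by positivity)
      _ = 18 * Cb * ((D ^ 2 * E ^ 2) / (1 - b) * x ^ (-(1 / 8) : ℝ)) := by ring
      _ ≤ 18 * Cb * K := by
          rw [hK]
          apply mul_le_mul_of_nonneg_left _ (by positivity)
          exact mul_le_mul (div_le_div_of_nonneg_right hDE22 hp0.le) hX8 hX8'.le (by positivity)
  have ht3 : |A - (P * G1 + R * G0)| ≤ 4225 * Ca * K := by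
    refine hAerr.trans ?_
    have : 4225 * Ca / (1 - b) * D * X = 4225 * Ca * (D / (1 - b) * X) := by ring
    rw [this, hK]
    apply mul_le_mul_of_nonneg_left _ (by positivity)
    exact mul_le_mul_of_nonneg_right (div_le_div_of_nonneg_right hD1 hp0.le) hX0.le
  have ht4 : |B| ≤ 16900 * Cb * K := by
    refine hBerr.trans ?_
    have : 16900 * Cb * (D * E ^ 2) * X = 16900 * Cb * ((D * E ^ 2) * 1 * X) := by ring
    rw [this, hK]
    apply mul_le_mul_of_nonneg_left _ (by positivity)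
    apply mul_le_mul_of_nonneg_right _ hX0.le
    calc D * E ^ 2 * 1 ≤ D ^ 3 * E ^ 3 * (1 / (1 - b)) :=
          mul_le_mul hDE12 hip zero_le_one (by positivity)
      _ = _ := by ring
  have hfinal : (16936 * Cb + 4225 * Ca) * (D ^ 3 * E ^ 3) / (1 - b) * X =
      (16936 * Cb + 4225 * Ca) * K := by rw [hK]; ring
  rw [hfinal]
  have hmain : LL d 1 * LL e 1 * LL (d * e) 1 * x ^ (1 - b) / (1 - b) +
      zc b * LL d b * LL e b * LL (d * e) b =
      P * (LL e 1 * LL (d * e) 1) + R * (LL e b * LL (d * e) b) := by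
    rw [hP, hR]; ring
  rw [hmain]
  have a1 := le_abs_self (P * (G1 - LL e 1 * LL (d * e) 1))
  have a2 := le_abs_self (R * (G0 - LL e b * LL (d * e) b))
  have a3 := le_abs_self (A - (P * G1 + R * G0))
  have a4 := le_abs_self B
  nlinarith [a1, a2, a3, a4, ht1, ht2, ht3, ht4, hone']

end Pool.Agent.Work.MP_e0c7e8_nt.SM
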