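import Pool.Agent.Work.MP_e0c7e8_nt.SM.Stmts
import Pool.Agent.Work.MP_e0c7e8_nt.SM.Basic

/-!
# Item S8a: nonnegative coefficients
-/

set_option autoImplicit false

namespace Pool.Agent.Work.MP_e0c7e8_nt.SM

namespace ItemS8a

open Finset ArithmeticFunction

/-- partial geometric sums -/
def G (c : ℤ) (k : ℕ) : ℤ := ∑ i ∈ range (k + 1), c ^ i

lemma G_succ (c : ℤ) (k : ℕ) : G c (k + 1) = G c k + c ^ (k + 1) := by
  unfold G; rw [sum_range_succ]

lemma G_zero (c : ℤ) : G c 0 = 1 := by simp [G]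

lemma G_neg (k : ℕ) : 2 * G (-1) k = 1 + (-1) ^ k := by
  induction k with
  | zero => simp [G_zero]
  | succ k ih => rw [G_succ, mul_add, ih]; ring

lemma G_one (k : ℕ) : G 1 k = k + 1 := by simp [G]

lemma G_zero' (k : ℕ) : G 0 k = 1 := by
  induction k with
  | zero => simp [G_zero]
  | succ k ih => rw [G_succ, ih]; simp

lemma neg_pow_ge (k : ℕ) : (0 : ℤ) ≤ 1 + (-1) ^ k := by
  rcases neg_one_pow_eq_or ℤ k with h | h <;> rw [h] <;> norm_num

lemma G_nonneg {c : ℤ} (hc : c = 0 ∨ c = 1 ∨ c = -1) (k : ℕ) : 0 ≤ G c k := by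
  rcases hc with h | h | h
  · rw [h, G_zero']; norm_num
  · rw [h, G_one]; positivity
  · have h1 := G_neg k
    have h2 := neg_pow_ge k
    rw [h]; omega

lemma G_neg_pow (k : ℕ) : (-1 : ℤ) ^ k * G (-1) k = G (-1) k := by
  have h1 := G_neg k
  rcases neg_one_pow_eq_or ℤ k with h | h
  · rw [h, one_mul]
  · rw [h] at h1 ⊢
    have : G (-1) k = 0 := by omega
    rw [this]; norm_num

lemma alt (m : ℤ) (n : ℕ) : 4 * ∑ i ∈ range n, (-1 : ℤ) ^ i * (((i : ℤ) + 1) * (m - i)) =
    (m + 1) - (-1) ^ n * (-2 * (n : ℤ) ^ 2 + 2 * m * n + m + 1) := by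
  induction n with
  | zero => simp
  | succ n ih => rw [sum_range_succ, mul_add, ih, pow_succ]; push_cast; ring

lemma S_nonneg {c w : ℤ} (hc : c = 0 ∨ c = 1 ∨ c = -1) (hw : w = 0 ∨ w = 1 ∨ w = -1) (n : ℕ) :
    0 ≤ ∑ i ∈ range (n + 1), (w ^ i * G c i) * G c (n - i) := by
  by_cases hw0 : 0 ≤ w
  · refine sum_nonneg fun i _ => ?_
    exact mul_nonneg (mul_nonneg (pow_nonneg hw0 _) (G_nonneg hc _)) (G_nonneg hc _)
  · have hw1 : w = -1 := by omega
    subst hw1
    rcases hc with h | h | h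
    · subst h
      have h1 := G_nonneg (c := -1) (Or.inr (Or.inr rfl)) n
      have h2 : ∑ i ∈ range (n + 1), ((-1 : ℤ) ^ i * G 0 i) * G 0 (n - i) = G (-1) n := by
        unfold G
        refine sum_congr rfl fun i _ => ?_
        have h3 := G_zero' i
        have h4 := G_zero' (n - i)
        unfold G at h3 h4
        rw [h3, h4]; ring
      rw [h2]; exact h1
    · subst h
      have h1 : ∑ i ∈ range (n + 1), ((-1 : ℤ) ^ i * G 1 i) * G 1 (n - i) =
          ∑ i ∈ range (n + 1), (-1 : ℤ) ^ i * (((i : ℤ) + 1) * (((n : ℤ) + 1) - i)) := by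
        refine sum_congr rfl fun i hi => ?_
        have hi' : i ≤ n := by have := mem_range.1 hi; omega
        rw [G_one, G_one, Nat.cast_sub hi']; ring
      have h2 := alt ((n : ℤ) + 1) (n + 1)
      rw [h1]
      have h4 : 4 * ∑ i ∈ range (n + 1), (-1 : ℤ) ^ i * (((i : ℤ) + 1) * (((n : ℤ) + 1) - i)) =
          ((n : ℤ) + 2) * (1 + (-1) ^ n) := by
        rw [h2, pow_succ]; push_cast; ring
      have h5 : (0 : ℤ) ≤ ((n : ℤ) + 2) * (1 + (-1) ^ n) :=
        mul_nonneg (by positivity) (neg_pow_ge n)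
      omega
    · subst h
      refine sum_nonneg fun i _ => ?_
      rw [G_neg_pow]
      exact mul_nonneg (G_nonneg (Or.inr (Or.inr rfl)) _) (G_nonneg (Or.inr (Or.inr rfl)) _)

lemma chi_pow (d : ℤ) (p k : ℕ) : chi d (p ^ k) = chi d p ^ k := by
  induction k with
  | zero => simp [chi_one]
  | succ k ih => rw [pow_succ, chi_mul, ih, pow_succ]

/-- `chi d` as an arithmetic function -/
def cF (d : ℤ) : ArithmeticFunction ℤ := ⟨fun n => chi d n, chi_zero d⟩

lemma cF_apply (d : ℤ) (n : ℕ) : cF d n = chi d n := rfl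

lemma cF_mult (d : ℤ) : (cF d).IsMultiplicative := by
  refine ⟨chi_one d, ?_⟩
  intro m n _
  exact chi_mul d m n

/-- `ff d` as an arithmetic function -/
def fF (d : ℤ) : ArithmeticFunction ℤ := cF d * (ArithmeticFunction.zeta : ArithmeticFunction ℤ)

lemma fF_apply (d : ℤ) (n : ℕ) : fF d n = ff d n := by
  unfold fF ff
  rw [coe_mul_zeta_apply]
  rfl

lemma fF_mult (d : ℤ) : (fF d).IsMultiplicative :=
  (cF_mult d).mul isMultiplicative_zeta.natCast

lemma ff_pow (d : ℤ) {p : ℕ} (hp : p.Prime) (k : ℕ) : ff d (p ^ k) = G (chi d p) k := by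
  unfold ff G
  rw [Nat.sum_divisors_prime_pow hp]
  exact sum_congr rfl fun i _ => chi_pow d p i

/-- the coefficients as an arithmetic function -/
def aF (d e : ℤ) : ArithmeticFunction ℤ := (pmul (cF e) (fF d)) * fF d

lemma aF_mult (d e : ℤ) : (aF d e).IsMultiplicative :=
  ((cF_mult e).pmul (fF_mult d)).mul (fF_mult d)

lemma aF_apply (d e : ℤ) (n : ℕ) :
    aF d e n = ∑ p ∈ n.divisorsAntidiagonal, (chi e p.1 * ff d p.1) * ff d p.2 := by
  unfold aF
  rw [ArithmeticFunction.mul_apply]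
  refine sum_congr rfl fun p _ => ?_
  rw [pmul_apply, cF_apply, fF_apply, fF_apply]

lemma innerS (d e : ℤ) (n : ℕ) :
    ∑ r ∈ n.divisorsAntidiagonal, chi e r.1 * chi (d * e) r.2 = chi e n * ff d n := by
  have h1 : ∑ r ∈ n.divisorsAntidiagonal, chi e r.1 * chi (d * e) r.2 =
      ∑ r ∈ n.divisorsAntidiagonal, chi e n * chi d r.2 := by
    refine sum_congr rfl fun r hr => ?_
    have h2 : r.1 * r.2 = n := (Nat.mem_divisorsAntidiagonal.1 hr).1
    rw [chi_mul_left, ← h2, chi_mul]; ring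
  rw [h1, ← mul_sum]
  congr 1
  unfold ff
  exact Nat.sum_divisorsAntidiagonal' (fun _ y => chi d y)

lemma aF_pow (d e : ℤ) {p : ℕ} (hp : p.Prime) (n : ℕ) : 0 ≤ aF d e (p ^ n) := by
  have h0 : aF d e (p ^ n) =
      ∑ i ∈ range (n + 1), (chi e p ^ i * G (chi d p) i) * G (chi d p) (n - i) := by
    rw [aF_apply, Nat.sum_divisorsAntidiagonal (fun x y => (chi e x * ff d x) * ff d y),
      Nat.sum_divisors_prime_pow hp]
    refine sum_congr rfl fun i hi => ?_
    have hi' : i ≤ n := by have := mem_range.1 hi; omega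
    rw [Nat.pow_div hi' hp.pos, chi_pow, ff_pow d hp, ff_pow d hp]
  rw [h0]
  exact S_nonneg (chi_trichotomy d p) (chi_trichotomy e p) n

lemma aF_nonneg (d e : ℤ) (n : ℕ) : 0 ≤ aF d e n := by
  rcases Nat.eq_zero_or_pos n with h | h
  · subst h; simp
  · rw [(aF_mult d e).multiplicative_factorization (aF d e) h.ne']
    unfold Finsupp.prod
    refine prod_nonneg fun p hp => ?_
    exact aF_pow d e (Nat.prime_of_mem_primeFactors (by simpa using hp)) _

end ItemS8a

open ItemS8a in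
theorem claimS8a : ClaimS8a := by
  intro d e n
  have h := aF_nonneg d e n
  rw [aF_apply] at h
  have h1 : ∑ p ∈ n.divisorsAntidiagonal,
      (∑ r ∈ p.1.divisorsAntidiagonal, chi e r.1 * chi (d * e) r.2) * ff d p.2 =
      ∑ p ∈ n.divisorsAntidiagonal, (chi e p.1 * ff d p.1) * ff d p.2 := by
    refine Finset.sum_congr rfl fun p _ => ?_
    rw [innerS]
  rw [h1]; exact h

end Pool.Agent.Work.MP_e0c7e8_nt.SM
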