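import Pool.Agent.Work.MP_e0c7e8_nt.SM.Stmts
import Pool.Agent.Work.MP_e0c7e8_nt.SM.Basic

/-!
# Item S9: square factors in `L(1, χ)`
-/

set_option autoImplicit false

namespace Pool.Agent.Work.MP_e0c7e8_nt.SM

open Finset Filter Topology

namespace ItemS9

/-- partial sums -/
noncomputable def PS (d : ℤ) (N : ℕ) : ℝ := ∑ n ∈ Icc 1 N, (chi d n : ℝ) * (n : ℝ) ^ (-(1 : ℝ))

lemma nonsq {d : ℤ} (hd : ¬ IsSquare d) {s : ℕ} (hs : 0 < s) : ¬ IsSquare (d * (s : ℤ) ^ 2) := by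
  rintro ⟨r, hr⟩
  apply hd
  have h1 : (s : ℤ) ^ 2 ∣ r ^ 2 := ⟨d, by rw [sq r, ← hr]; ring⟩
  have h2 : (s : ℤ) ∣ r := (Int.pow_dvd_pow_iff two_ne_zero).1 h1
  obtain ⟨k, hk⟩ := h2
  refine ⟨k, ?_⟩
  have h3 : (s : ℤ) ^ 2 ≠ 0 := pow_ne_zero 2 (by exact_mod_cast hs.ne')
  apply mul_right_cancel₀ h3
  rw [hr, hk]
  ring

lemma PS_mul (d : ℤ) {p : ℕ} (hp : p.Prime) (N : ℕ) :
    PS (d * (p : ℤ) ^ 2) N = PS d N - (chi d p : ℝ) / p * PS d (N / p) := by
  unfold PS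
  have h1 : ∀ n ∈ Icc 1 N, (chi (d * (p : ℤ) ^ 2) n : ℝ) * (n : ℝ) ^ (-(1 : ℝ)) =
      (chi d n : ℝ) * (n : ℝ) ^ (-(1 : ℝ)) -
        if p ∣ n then (chi d n : ℝ) * (n : ℝ) ^ (-(1 : ℝ)) else 0 := by
    intro n _
    rw [chi_sq]
    by_cases h : p ∣ n
    · rw [if_pos h, if_neg]
      · simp
      · rw [Nat.Prime.coprime_iff_not_dvd hp]
        exact not_not.2 h
    · rw [if_neg h, if_pos]
      · simp
      · rw [Nat.Prime.coprime_iff_not_dvd hp]
        exact h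
  rw [Finset.sum_congr rfl h1, Finset.sum_sub_distrib]
  congr 1
  rw [← Finset.sum_filter, Finset.mul_sum]
  symm
  apply Finset.sum_bij (fun m _ => p * m)
  · intro m hm
    rw [mem_Icc] at hm
    rw [mem_filter, mem_Icc]
    refine ⟨⟨?_, ?_⟩, dvd_mul_right _ _⟩
    · exact Nat.mul_pos hp.pos hm.1
    · rw [mul_comm]
      exact (Nat.le_div_iff_mul_le hp.pos).1 hm.2
  · intro m1 _ m2 _ h
    exact Nat.eq_of_mul_eq_mul_left hp.pos h
  · intro n hn
    rw [mem_filter, mem_Icc] at hn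
    obtain ⟨m, hm⟩ := hn.2
    refine ⟨m, ?_, hm.symm⟩
    rw [mem_Icc]
    constructor
    · rcases Nat.eq_zero_or_pos m with h | h
      · rw [h] at hm
        omega
      · exact h
    · rw [Nat.le_div_iff_mul_le hp.pos, mul_comm, ← hm]
      exact hn.1.2
  · intro m hm
    rw [chi_mul]
    push_cast
    rw [Real.rpow_neg_one, Real.rpow_neg_one, mul_inv]
    ring

lemma LL_mul (h2 : ClaimS2) {d : ℤ} (hd : ¬ IsSquare d) {p : ℕ} (hp : p.Prime) :
    LL (d * (p : ℤ) ^ 2) 1 = (1 - (chi d p : ℝ) / p) * LL d 1 := by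
  have t1 := (h2 _ (nonsq hd hp.pos) 1 one_pos).1
  have t2 := (h2 _ hd 1 one_pos).1
  have t3 : Tendsto (fun N : ℕ => PS d (N / p)) atTop (𝓝 (LL d 1)) :=
    t2.comp (Nat.tendsto_div_const_atTop hp.ne_zero)
  have t4 : Tendsto (fun N : ℕ => PS d N - (chi d p : ℝ) / p * PS d (N / p)) atTop
      (𝓝 (LL d 1 - (chi d p : ℝ) / p * LL d 1)) := t2.sub (t3.const_mul _)
  have t5 : Tendsto (fun N : ℕ => PS (d * (p : ℤ) ^ 2) N) atTop
      (𝓝 (LL d 1 - (chi d p : ℝ) / p * LL d 1)) := by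
    refine t4.congr fun N => ?_
    rw [PS_mul d hp]
  rw [tendsto_nhds_unique t1 t5]
  ring

lemma main (h2 : ClaimS2) (h4 : ClaimS4) {d : ℤ} (hd : ¬ IsSquare d) (s : ℕ) : 0 < s →
    ((2 : ℝ) ^ s.primeFactors.card)⁻¹ * LL d 1 ≤ LL (d * (s : ℤ) ^ 2) 1 := by
  induction s using induction_on_primes with
  | zero => intro h; exact absurd h (lt_irrefl _)
  | one => intro _; simp
  | prime_mul p t hp ih =>
    intro hpt
    have ht : 0 < t := Nat.pos_of_mul_pos_left hpt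
    have ih' := ih ht
    have hL := h4 _ (nonsq hd ht)
    have e1 : d * ((p * t : ℕ) : ℤ) ^ 2 = (d * (t : ℤ) ^ 2) * (p : ℤ) ^ 2 := by
      push_cast; ring
    rw [e1, LL_mul h2 (nonsq hd ht) hp]
    by_cases hdv : p ∣ t
    · have h5 : chi (d * (t : ℤ) ^ 2) p = 0 := by
        rw [chi_sq, if_neg]
        intro hc
        exact (Nat.Prime.coprime_iff_not_dvd hp).1 hc.symm hdv
      have h6 : (p * t).primeFactors = t.primeFactors := by
        rw [Nat.primeFactors_mul hp.ne_zero ht.ne', hp.primeFactors]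
        apply Finset.union_eq_right.2
        intro q hq
        rw [Finset.mem_singleton] at hq
        rw [hq]
        exact Nat.mem_primeFactors.2 ⟨hp, hdv, ht.ne'⟩
      rw [h5, h6]
      simpa using ih'
    · have h6 : (p * t).primeFactors.card = t.primeFactors.card + 1 := by
        rw [Nat.primeFactors_mul hp.ne_zero ht.ne', hp.primeFactors,
          Finset.card_union_of_disjoint, Finset.card_singleton, add_comm]
        rw [Finset.disjoint_singleton_left]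
        intro hq
        exact hdv (Nat.dvd_of_mem_primeFactors hq)
      rw [h6, pow_succ, mul_inv]
      have hp2 : (2 : ℝ) ≤ p := by exact_mod_cast hp.two_le
      have h7 : (chi (d * (t : ℤ) ^ 2) p : ℝ) / p ≤ 1 / 2 := by
        have h8 := (abs_le.1 (abs_chi_real_le (d * (t : ℤ) ^ 2) p)).2
        rw [div_le_div_iff₀ (by linarith) two_pos]
        linarith
      calc ((2 : ℝ) ^ t.primeFactors.card)⁻¹ * 2⁻¹ * LL d 1
          = 2⁻¹ * (((2 : ℝ) ^ t.primeFactors.card)⁻¹ * LL d 1) := by ring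
        _ ≤ 2⁻¹ * LL (d * (t : ℤ) ^ 2) 1 := by
            apply mul_le_mul_of_nonneg_left ih' (by norm_num)
        _ ≤ (1 - (chi (d * (t : ℤ) ^ 2) p : ℝ) / p) * LL (d * (t : ℤ) ^ 2) 1 := by
            apply mul_le_mul_of_nonneg_right _ hL.le
            linarith

end ItemS9

open ItemS9 in
theorem claimS9 (h2 : ClaimS2) (h4 : ClaimS4) (hN : ClaimN1) : ClaimS9 := by
  intro ε hε
  obtain ⟨C, hC, hCb⟩ := hN 2 (by norm_num) ε hε
  refine ⟨C⁻¹, inv_pos.2 hC, fun d s hd hs => ?_⟩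
  have h1 := main h2 h4 hd s hs
  refine le_trans ?_ h1
  apply mul_le_mul_of_nonneg_right _ (h4 d hd).le
  have hs' : (0 : ℝ) < s := by exact_mod_cast hs
  rw [Real.rpow_neg hs'.le, ← mul_inv]
  apply inv_anti₀ (by positivity)
  exact hCb s hs

end Pool.Agent.Work.MP_e0c7e8_nt.SM
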