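import Pool.Agent.Work.MP_e0c7e8_nt.SM.ItemG2x
import Pool.Agent.Work.MP_e0c7e8_nt.SM.ItemG10
import Pool.Agent.Work.MP_e0c7e8_nt.SM.ItemG3
import Pool.Agent.Work.MP_e0c7e8_nt.SM.ItemG4
import Pool.Agent.Work.MP_e0c7e8_nt.SM.ItemG5
import Pool.Agent.Work.MP_e0c7e8_nt.SM.ItemG6
import Pool.Agent.Work.MP_e0c7e8_nt.SM.ItemG6b
import Pool.Agent.Work.MP_e0c7e8_nt.SM.ItemG7
import Pool.Agent.Work.MP_e0c7e8_nt.SM.ItemG8
import Pool.Agent.Work.MP_e0c7e8_nt.SM.ItemG9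
import Pool.Agent.Work.MP_e0c7e8_nt.SM.ItemH3
import Pool.Agent.Work.MP_e0c7e8_nt.SM.ItemN1
import Pool.Agent.Work.MP_e0c7e8_nt.SM.ItemN2
import Pool.Agent.Work.MP_e0c7e8_nt.SM.ItemN2a
import Pool.Agent.Work.MP_e0c7e8_nt.SM.ItemN3
import Pool.Agent.Work.MP_e0c7e8_nt.SM.ItemN4
import Pool.Agent.Work.MP_e0c7e8_nt.SM.ItemN5
import Pool.Agent.Work.MP_e0c7e8_nt.SM.ItemN6
import Pool.Agent.Work.MP_e0c7e8_nt.SM.ItemS1
import Pool.Agent.Work.MP_e0c7e8_nt.SM.ItemS2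
import Pool.Agent.Work.MP_e0c7e8_nt.SM.ItemS3
import Pool.Agent.Work.MP_e0c7e8_nt.SM.ItemS4
import Pool.Agent.Work.MP_e0c7e8_nt.SM.ItemS5
import Pool.Agent.Work.MP_e0c7e8_nt.SM.ItemS6
import Pool.Agent.Work.MP_e0c7e8_nt.SM.ItemS7a
import Pool.Agent.Work.MP_e0c7e8_nt.SM.ItemS7b
import Pool.Agent.Work.MP_e0c7e8_nt.SM.ItemS8
import Pool.Agent.Work.MP_e0c7e8_nt.SM.ItemS8a
import Pool.Agent.Work.MP_e0c7e8_nt.SM.ItemS9
import Pool.Agent.Work.MP_e0c7e8_nt.SM.ItemS10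
import Pool.Agent.Work.MP_e0c7e8_nt.SM.ItemC0
import Pool.Agent.Work.MP_e0c7e8_nt.SM.ItemC1a1
import Pool.Agent.Work.MP_e0c7e8_nt.SM.ItemC1a2
import Pool.Agent.Work.MP_e0c7e8_nt.SM.ItemC1b
import Pool.Agent.Work.MP_e0c7e8_nt.SM.ItemC1c
import Pool.Agent.Work.MP_e0c7e8_nt.SM.ItemC2b
import Pool.Agent.Work.MP_e0c7e8_nt.SM.ItemC2b0
import Pool.Agent.Work.MP_e0c7e8_nt.SM.ItemC2b1
import Pool.Agent.Work.MP_e0c7e8_nt.SM.ItemC2b2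
import Pool.Agent.Work.MP_e0c7e8_nt.SM.ItemC2c
import Pool.Agent.Work.MP_e0c7e8_nt.SM.ItemL7

/-!
# The main theorem
-/

set_option autoImplicit false

namespace Pool.Agent.Work.MP_e0c7e8_nt.SM

theorem mainOf :
    ∀ a m : ℕ, 0 < m → ∀ η : ℝ, 0 < η → ∀ ε : ℝ, 0 < ε → ∃ C : ℝ, 0 < C ∧
      ∀ d : ℤ, d < 0 → (d % 4 = 0 ∨ d % 4 = 1) →
        Smp d (|(d : ℝ)| ^ ((1 : ℝ) / (2 * m) - η)) →
        (Nat.card {x : ClassGroup ↥(Od d) // x ^ (2 ^ a * m) = 1} : ℝ) ≤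
          C * |(d : ℝ)| ^ ((1 : ℝ) / 2 - 1 / (2 * m) + ε) := by
  have s2 := claimS2 claimS1
  have s4 := claimS4 s2 claimS5 claimS6
  have c2b1 := claimC2b1 claimC0
  have g10 : ClaimG10 := claimG10 (claimG8 (claimG6b claimG4
    (claimG6 (claimG3 claimG2x) claimG4 claimG5)) claimG7 claimN1) claimG9 claimS1 claimN1
  have l4 : ClaimL4 := claimL4 (claimL3 (claimL2b claimG4 (claimL2 (claimL1 claimG2x claimG5)
    claimG4 claimG5)) claimG7) claimG9 g10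
  have s10 : ClaimS10 := claimS10 s2 (claimS3 s2) s4 claimS5
    (claimS8 s2 claimS5 claimS6 (claimS7a s2 claimS5 claimS6) (claimS7b s2 claimS6) claimS8a)
    (claimS9 s2 s4 claimN1)
  have l5 : ClaimL5 := claimL5 l4 s10 claimN3 (claimN4 claimS1 s2) (claimN5 (claimN2 claimN2a) claimN1)
  have hF : ClaimL6 := claimL6 (claimC1a (claimC1a1 claimC0)) (claimC1c claimC1b claimN1)
    (claimC2c (claimC2b claimC2b0 c2b1 (claimC2b2 claimC0 c2b1))) l5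
  exact claimL7 claimC0 (claimC1a1 claimC0) (claimC1a (claimC1a1 claimC0)) hF

/-- The main theorem, with two separate bounds. -/
theorem main2Of :
    ∀ a m : ℕ, 0 < m → ∀ η : ℝ, 0 < η → ∀ ε : ℝ, 0 < ε → ∃ C : ℝ, 0 < C ∧
      ∀ d : ℤ, d < 0 → (d % 4 = 0 ∨ d % 4 = 1) →
        (∃ q : ℕ, (q : ℝ) ≤ |(d : ℝ)| ^ ((1 : ℝ) / m - η) ∧
          ∀ p : ℕ, p.Prime → p ≠ q → Odd (padicValInt p d) →
            (p : ℝ) ≤ |(d : ℝ)| ^ ((1 : ℝ) / (2 * m) - η)) →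
        (Nat.card {x : ClassGroup ↥(Od d) // x ^ (2 ^ a * m) = 1} : ℝ) ≤
          C * |(d : ℝ)| ^ ((1 : ℝ) / 2 - 1 / (2 * m) + ε) := by
  intro a m hm η hη ε hε
  obtain ⟨C, hC, h⟩ := mainOf a m hm (η / 2) (by linarith) ε hε
  refine ⟨C, hC, ?_⟩
  rintro d hd hd4 ⟨q, hq, hp⟩
  have hb1 : (1 : ℝ) ≤ |(d : ℝ)| := by
    have : (1 : ℤ) ≤ |d| := Int.one_le_abs hd.ne
    exact_mod_cast this
  have hb0 : (0 : ℝ) < |(d : ℝ)| := by linarith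
  apply h d hd hd4
  refine ⟨q, ?_, ?_⟩
  · refine hq.trans (le_of_eq ?_)
    rw [← Real.rpow_natCast, ← Real.rpow_mul hb0.le]
    congr 1
    have : (m : ℝ) ≠ 0 := by positivity
    push_cast
    field_simp
  · intro p hpp hne ho
    refine (hp p hpp hne ho).trans ?_
    apply Real.rpow_le_rpow_of_exponent_le hb1
    linarith

end Pool.Agent.Work.MP_e0c7e8_nt.SM
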