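import Pool.Agent.Work.MP_e0c7e8_nt.SM.StmtsX
import Pool.Agent.Work.MP_e0c7e8_nt.SM.Basic

/-!
# Item X10: few split primes make the sum of `χ_d(p) / p` negative
-/

set_option autoImplicit false

namespace Pool.Agent.Work.MP_e0c7e8_nt.SM

open Finset

namespace ItemX10

theorem dvd_of_chi_zero {d : ℤ} {p : ℕ} (hp : p.Prime) (h2 : 2 < p) (h : chi d p = 0) :
    p ∣ d.natAbs := by
  have : Fact p.Prime := ⟨hp⟩
  rw [chi_prime (by omega), legendreSym.eq_zero_iff] at h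
  exact Int.natCast_dvd.1 ((ZMod.intCast_zmod_eq_zero_iff_dvd d p).1 h)

theorem card_zero_le (d : ℤ) (hd : d ≠ 0) (B : Finset ℕ)
    (hB : ∀ p ∈ B, p.Prime ∧ 2 < p ∧ chi d p = 0) : (B.card : ℝ) ≤ Real.log |(d : ℝ)| := by
  have h1 : ∏ p ∈ B, p ∣ d.natAbs :=
    Finset.prod_primes_dvd _ (fun p hp => (hB p hp).1.prime)
      (fun p hp => dvd_of_chi_zero (hB p hp).1 (hB p hp).2.1 (hB p hp).2.2)
  have h2 : 3 ^ B.card ≤ ∏ p ∈ B, p := by
    rw [← Finset.prod_const]
    exact Finset.prod_le_prod' fun p hp => (hB p hp).2.1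
  have h3 : 3 ^ B.card ≤ d.natAbs :=
    h2.trans (Nat.le_of_dvd (Int.natAbs_pos.2 hd) h1)
  have h4 : ((3 : ℝ)) ^ B.card ≤ |(d : ℝ)| := by
    have h5 : (((3 ^ B.card : ℕ)) : ℝ) ≤ ((d.natAbs : ℕ) : ℝ) := by exact_mod_cast h3
    rw [Nat.cast_natAbs, Int.cast_abs] at h5
    push_cast at h5
    exact h5
  have h6 := Real.log_le_log (by positivity) h4
  rw [Real.log_pow] at h6
  have h7 : (1 : ℝ) ≤ Real.log 3 := by
    rw [Real.le_log_iff_exp_le (by norm_num)]
    linarith [Real.exp_one_lt_d9]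
  have h8 : (0 : ℝ) ≤ B.card := Nat.cast_nonneg _
  nlinarith

end ItemX10

open ItemX10 in
theorem claimX10 : ClaimX10 := by
  intro d W Z hd hW
  set P := (Ioc W Z).filter Nat.Prime with hP
  have hWr : (2 : ℝ) ≤ W := by exact_mod_cast hW
  have hW0 : (0 : ℝ) < W := by linarith
  have hmem : ∀ p ∈ P, p.Prime ∧ W < p ∧ p ≤ Z := by
    intro p hp
    rw [hP, mem_filter, mem_Ioc] at hp
    exact ⟨hp.2, hp.1.1, hp.1.2⟩
  have hterm : ∀ p ∈ P, (chi d p : ℝ) / p ≤ -(1 / (p : ℝ)) +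
      (2 * (if chi d p = 1 then 1 else 0) + (if chi d p = 0 then 1 else 0)) * (1 / (W : ℝ)) := by
    intro p hp
    obtain ⟨_, h1, _⟩ := hmem p hp
    have h2 : (W : ℝ) < p := by exact_mod_cast h1
    have h3 : (0 : ℝ) < p := by linarith
    have h4 : 1 / (p : ℝ) ≤ 1 / W := one_div_le_one_div_of_le hW0 h2.le
    have h5 : 0 < 1 / (W : ℝ) := by positivity
    rcases chi_trichotomy d p with h | h | h
    · rw [h]; simp only [Int.cast_zero, zero_div]
      norm_num
      rw [one_div, one_div] at h4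
      linarith
    · rw [h]; norm_num
      rw [one_div, one_div] at h4
      linarith
    · rw [h]
      have e : ((-1 : ℤ) : ℝ) / p = -(1 / (p : ℝ)) := by push_cast; ring
      rw [e]
      norm_num
  have hA : ((P.filter (fun p => chi d p = 1)).card : ℝ) ≤ Pd d Z := by
    have : P.filter (fun p => chi d p = 1) ⊆ (Icc 1 Z).filter (fun p => p.Prime ∧ chi d p = 1) := by
      intro p hp
      rw [mem_filter] at hp
      obtain ⟨h1, h2, h3⟩ := hmem p hp.1
      rw [mem_filter, mem_Icc]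
      exact ⟨⟨h1.one_lt.le, h3⟩, h1, hp.2⟩
    exact_mod_cast Finset.card_le_card this
  have hB : ((P.filter (fun p => chi d p = 0)).card : ℝ) ≤ Real.log |(d : ℝ)| := by
    refine card_zero_le d hd _ fun p hp => ?_
    rw [mem_filter] at hp
    obtain ⟨h1, h2, h3⟩ := hmem p hp.1
    exact ⟨h1, by omega, hp.2⟩
  have hlog : 0 ≤ Real.log |(d : ℝ)| := le_trans (Nat.cast_nonneg _) hB
  have hsum := Finset.sum_le_sum hterm
  have e1 : ∑ p ∈ P, (-(1 / (p : ℝ)) +
      (2 * (if chi d p = 1 then 1 else 0) + (if chi d p = 0 then 1 else 0)) * (1 / (W : ℝ))) =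
      -qq W Z + (2 * ((P.filter (fun p => chi d p = 1)).card : ℝ) +
        ((P.filter (fun p => chi d p = 0)).card : ℝ)) * (1 / (W : ℝ)) := by
    rw [Finset.sum_add_distrib, Finset.sum_neg_distrib, ← Finset.sum_mul, Finset.sum_add_distrib,
      ← Finset.mul_sum, Finset.sum_boole, Finset.sum_boole]
    rfl
  rw [e1] at hsum
  refine hsum.trans ?_
  rw [div_eq_mul_one_div (2 * (Pd d Z : ℝ) + 2 * Real.log |(d : ℝ)|) (W : ℝ)]
  have h9 : 0 ≤ 1 / (W : ℝ) := by positivity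
  have h10 := mul_le_mul_of_nonneg_right
    (show 2 * ((P.filter (fun p => chi d p = 1)).card : ℝ) +
        ((P.filter (fun p => chi d p = 0)).card : ℝ) ≤
      2 * (Pd d Z : ℝ) + 2 * Real.log |(d : ℝ)| by linarith) h9
  linarith

end Pool.Agent.Work.MP_e0c7e8_nt.SM
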