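import Pool.Agent.Work.MP_e0c7e8_nt.SM.StmtsX
import Pool.Agent.Work.MP_e0c7e8_nt.SM.Basic

/-!
# Item X2: large torsion implies few ideals of small norm
-/

set_option autoImplicit false

namespace Pool.Agent.Work.MP_e0c7e8_nt.SM

open Finset

theorem claimX2 (h1a : ClaimC1a) (h1c : ClaimC1c) (h2c : ClaimC2c) : ClaimX2 := by
  intro m hm ε hε
  obtain ⟨C1, hC1, h1c'⟩ := h1c (ε / 4) (by positivity)
  refine ⟨max 5 (C1 ^ (4 / ε)), by positivity, ?_⟩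
  intro d hd hd4 hbig hT
  have hnat : ((d.natAbs : ℕ) : ℝ) = |(d : ℝ)| := by
    rw [Nat.cast_natAbs]; push_cast; rfl
  obtain ⟨hfin, hcard⟩ := h1a d hd hd4
  have hcl : (Nat.card (ClassGroup ↥(Od d)) : ℝ) ≤ C1 * |(d : ℝ)| ^ (1 / 2 + ε / 4) := by
    refine le_trans ?_ (h1c' d hd hd4)
    exact_mod_cast hcard
  have hD5 : 5 ≤ |(d : ℝ)| := (le_max_left _ _).trans hbig
  have hDC : C1 ^ (4 / ε) ≤ |(d : ℝ)| := (le_max_right _ _).trans hbig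
  have hpos : 0 < |(d : ℝ)| := by linarith
  have hC : C1 ≤ |(d : ℝ)| ^ (ε / 4) := by
    calc C1 = (C1 ^ (4 / ε)) ^ (ε / 4) := by
          rw [← Real.rpow_mul hC1.le]
          have : 4 / ε * (ε / 4) = 1 := by field_simp
          rw [this, Real.rpow_one]
      _ ≤ _ := Real.rpow_le_rpow (by positivity) hDC (by positivity)
  set x : ℕ := ⌊(|(d : ℝ)| / 5) ^ ((1 : ℝ) / (2 * m))⌋₊ with hx
  have hx2 : 4 * x ^ (2 * m) < d.natAbs := by
    have h1 : (x : ℝ) ≤ (|(d : ℝ)| / 5) ^ ((1 : ℝ) / (2 * m)) := Nat.floor_le (by positivity)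
    have h2 : (x : ℝ) ^ (2 * m) ≤ |(d : ℝ)| / 5 := by
      calc (x : ℝ) ^ (2 * m) ≤ ((|(d : ℝ)| / 5) ^ ((1 : ℝ) / (2 * m))) ^ (2 * m) :=
            pow_le_pow_left₀ (by positivity) h1 _
        _ = |(d : ℝ)| / 5 := by
            rw [← Real.rpow_natCast, ← Real.rpow_mul (by positivity)]
            have : (1 : ℝ) / (2 * m) * ((2 * m : ℕ) : ℝ) = 1 := by
              push_cast
              have : (m : ℝ) ≠ 0 := by positivity
              field_simp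
            rw [this, Real.rpow_one]
    have h3 : (4 * x ^ (2 * m) : ℝ) < (d.natAbs : ℝ) := by
      rw [hnat]
      linarith
    exact_mod_cast h3
  have h2 := h2c d m x hd hd4 hm hx2 hfin
  have h2' : (Nat.card {y : ClassGroup ↥(Od d) // y ^ m = 1} : ℝ) * (MM d x : ℝ) ≤
      Nat.card (ClassGroup ↥(Od d)) := by exact_mod_cast h2
  have htpos : 0 < |(d : ℝ)| ^ ((1 : ℝ) / 2 - 1 / (2 * m) + ε) := by positivity
  have h3 : (MM d x : ℝ) * |(d : ℝ)| ^ ((1 : ℝ) / 2 - 1 / (2 * m) + ε) ≤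
      C1 * |(d : ℝ)| ^ (1 / 2 + ε / 4) := by
    calc (MM d x : ℝ) * |(d : ℝ)| ^ ((1 : ℝ) / 2 - 1 / (2 * m) + ε)
        ≤ (MM d x : ℝ) * (Nat.card {y : ClassGroup ↥(Od d) // y ^ m = 1} : ℝ) :=
          mul_le_mul_of_nonneg_left hT.le (by positivity)
      _ = (Nat.card {y : ClassGroup ↥(Od d) // y ^ m = 1} : ℝ) * (MM d x : ℝ) := mul_comm _ _
      _ ≤ Nat.card (ClassGroup ↥(Od d)) := h2'
      _ ≤ _ := hcl
  have h4 : (MM d x : ℝ) ≤ C1 * |(d : ℝ)| ^ (1 / 2 + ε / 4) /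
      |(d : ℝ)| ^ ((1 : ℝ) / 2 - 1 / (2 * m) + ε) := (le_div_iff₀ htpos).2 h3
  refine h4.trans ?_
  rw [mul_div_assoc, ← Real.rpow_sub hpos]
  calc C1 * |(d : ℝ)| ^ (1 / 2 + ε / 4 - ((1 : ℝ) / 2 - 1 / (2 * m) + ε))
      ≤ |(d : ℝ)| ^ (ε / 4) * |(d : ℝ)| ^ (1 / 2 + ε / 4 - ((1 : ℝ) / 2 - 1 / (2 * m) + ε)) :=
        mul_le_mul_of_nonneg_right hC (by positivity)
    _ = |(d : ℝ)| ^ ((1 : ℝ) / (2 * m) - ε / 2) := by
        rw [← Real.rpow_add hpos]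
        congr 1
        ring

end Pool.Agent.Work.MP_e0c7e8_nt.SM
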