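import Pool.Agent.Work.MP_e0c7e8_nt.SM.StmtsX
import Pool.Agent.Work.MP_e0c7e8_nt.SM.Basic
import Pool.Agent.Work.MP_e0c7e8_nt.Mert

set_option autoImplicit false

namespace Pool.Agent.Work.MP_e0c7e8_nt.SM

open Finset

theorem claimX5 : ClaimX5 := by
  intro c hc0 hc1
  obtain ⟨C, hC⟩ := Pool.Agent.Work.MP_e0c7e8_nt.Mert.mertens1.2
  have hC0 : 0 ≤ C := le_trans (abs_nonneg _) (hC 1 le_rfl)
  refine ⟨Real.exp (4 * C / c + 1), Real.one_le_exp (by positivity), fun Z hZ => ?_⟩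
  have hZ1 : 1 < Z := lt_of_lt_of_le (Real.one_lt_exp_iff.2 (by positivity)) hZ
  have hZ0 : 0 < Z := by linarith
  have hlog : 4 * C / c + 1 ≤ Real.log Z := (Real.le_log_iff_exp_le hZ0).2 hZ
  have hlog0 : 0 < Real.log Z := lt_of_lt_of_le (by positivity) hlog
  have hx1 : 1 ≤ Z ^ (1 - c) := Real.one_le_rpow hZ1.le (by linarith)
  have hxZ : Z ^ (1 - c) ≤ Z := by
    calc Z ^ (1 - c) ≤ Z ^ (1 : ℝ) := Real.rpow_le_rpow_of_exponent_le hZ1.le (by linarith)
      _ = Z := Real.rpow_one Z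
  have h1 := abs_le.1 (hC Z hZ1.le)
  have h2 := abs_le.1 (hC (Z ^ (1 - c)) hx1)
  rw [Real.log_rpow hZ0] at h2
  set W := ⌊Z ^ (1 - c)⌋₊ with hW
  set N := ⌊Z⌋₊ with hN
  have hWN : W ≤ N := Nat.floor_le_floor hxZ
  have hsplit : ∑ p ∈ (Finset.Icc 1 N).filter Nat.Prime, Real.log p / (p : ℝ) =
      ∑ p ∈ (Finset.Icc 1 W).filter Nat.Prime, Real.log p / (p : ℝ) +
        ∑ p ∈ (Finset.Ioc W N).filter Nat.Prime, Real.log p / (p : ℝ) := by
    rw [← Finset.sum_union]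
    · refine Finset.sum_congr ?_ fun _ _ => rfl
      ext p
      simp only [Finset.mem_filter, Finset.mem_union, Finset.mem_Icc, Finset.mem_Ioc]
      constructor
      · rintro ⟨⟨h3, h4⟩, h5⟩
        rcases Nat.lt_or_ge W p with h6 | h6
        · exact Or.inr ⟨⟨h6, h4⟩, h5⟩
        · exact Or.inl ⟨⟨h3, h6⟩, h5⟩
      · rintro (⟨⟨h3, h4⟩, h5⟩ | ⟨⟨h3, h4⟩, h5⟩)
        · exact ⟨⟨h3, by omega⟩, h5⟩
        · exact ⟨⟨by omega, h4⟩, h5⟩
    · rw [Finset.disjoint_left]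
      intro p hp hp'
      simp only [Finset.mem_filter, Finset.mem_Icc, Finset.mem_Ioc] at hp hp'
      omega
  have hterm : ∑ p ∈ (Finset.Ioc W N).filter Nat.Prime, Real.log p / (p : ℝ) ≤
      Real.log Z * qq W N := by
    unfold qq
    rw [Finset.mul_sum]
    refine Finset.sum_le_sum fun p hp => ?_
    simp only [Finset.mem_filter, Finset.mem_Ioc] at hp
    have hp0 : (0 : ℝ) < p := by exact_mod_cast hp.2.pos
    have hpZ : (p : ℝ) ≤ Z := le_trans (by exact_mod_cast hp.1.2) (Nat.floor_le hZ0.le)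
    have h3 : Real.log p ≤ Real.log Z := Real.log_le_log hp0 hpZ
    rw [mul_one_div]
    exact div_le_div_of_nonneg_right h3 hp0.le
  have h4 : c * Real.log Z - 2 * C ≤ Real.log Z * qq W N := by
    have : (1 - c) * Real.log Z = Real.log Z - c * Real.log Z := by ring
    linarith [h1.1, h2.2]
  have h5 : 4 * C + c ≤ c * Real.log Z := by
    have h6 := mul_le_mul_of_nonneg_left hlog hc0.le
    have h7 : c * (4 * C / c + 1) = 4 * C + c := by
      field_simp
    linarith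
  have h8 : c / 4 * Real.log Z ≤ qq W N * Real.log Z := by
    nlinarith
  exact le_of_mul_le_mul_right h8 hlog0

end Pool.Agent.Work.MP_e0c7e8_nt.SM
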