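import Pool.Agent.Work.MP_e0c7e8_nt.SM.StmtsX
import Pool.Agent.Work.MP_e0c7e8_nt.SM.Basic

set_option autoImplicit false

namespace Pool.Agent.Work.MP_e0c7e8_nt.SM

open Finset

namespace ItemX6

open ArithmeticFunction

/-- `μ(l)` as a real number. -/
noncomputable def mr (l : ℕ) : ℝ := ((ArithmeticFunction.moebius l : ℤ) : ℝ)

/-- `φ(l)` as a real number. -/
noncomputable def ph (l : ℕ) : ℝ := (Nat.totient l : ℝ)

/-- The sum of `μ² / φ`. -/
noncomputable def VV (R : ℕ) : ℝ := ∑ l ∈ Icc 1 R, mr l ^ 2 / ph l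

/-- The diagonal variables. -/
noncomputable def yy (R l : ℕ) : ℝ := mr l / (ph l * VV R)

/-- The weights. -/
noncomputable def lam (R e : ℕ) : ℝ :=
  (e : ℝ) * ∑ l ∈ (Icc 1 R).filter (fun l => e ∣ l), mr (l / e) * yy R l

theorem ph_pos {l : ℕ} (hl : 1 ≤ l) : 0 < ph l := by
  unfold ph
  exact_mod_cast Nat.totient_pos.2 hl

theorem abs_mr_le (l : ℕ) : |mr l| ≤ 1 := by
  unfold mr
  have h : |ArithmeticFunction.moebius l| ≤ 1 := ArithmeticFunction.abs_moebius_le_one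
  exact_mod_cast h

theorem abs_mr_sq (l : ℕ) : |mr l| = mr l ^ 2 := by
  unfold mr
  by_cases h : Squarefree l
  · have h2 : (ArithmeticFunction.moebius l) ^ 2 = 1 :=
      ArithmeticFunction.moebius_sq_eq_one_of_squarefree h
    have h1 : |ArithmeticFunction.moebius l| = 1 :=
      ArithmeticFunction.abs_moebius_eq_one_of_squarefree h
    have h3 : (((ArithmeticFunction.moebius l : ℤ) : ℝ)) ^ 2 = 1 := by exact_mod_cast h2
    have h4 : |((ArithmeticFunction.moebius l : ℤ) : ℝ)| = 1 := by exact_mod_cast h1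
    rw [h3, h4]
  · rw [ArithmeticFunction.moebius_eq_zero_of_not_squarefree h]
    simp

theorem VV_ge_one {R : ℕ} (hR : 1 ≤ R) : 1 ≤ VV R := by
  unfold VV
  have h1 : (1 : ℕ) ∈ Icc 1 R := by simp [hR]
  have h2 : mr 1 ^ 2 / ph 1 = 1 := by
    unfold mr ph
    simp
  calc (1 : ℝ) = mr 1 ^ 2 / ph 1 := h2.symm
    _ ≤ _ := Finset.single_le_sum (f := fun l => mr l ^ 2 / ph l) (fun l hl => by
        have := ph_pos (mem_Icc.1 hl).1
        positivity) h1

theorem lam_one {R : ℕ} (hR : 1 ≤ R) : lam R 1 = 1 := by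
  have hV := VV_ge_one hR
  have hV0 : VV R ≠ 0 := by positivity
  unfold lam
  rw [Nat.cast_one, one_mul, Finset.filter_true_of_mem (fun l _ => one_dvd l)]
  have h : ∀ l ∈ Icc 1 R, mr (l / 1) * yy R l = (mr l ^ 2 / ph l) / VV R := by
    intro l _
    rw [Nat.div_one]
    unfold yy
    rw [← mul_div_assoc, div_div, sq]
  rw [Finset.sum_congr rfl h, ← Finset.sum_div]
  exact div_self hV0

theorem abs_lam {R : ℕ} (hR : 1 ≤ R) (e : ℕ) : |lam R e| ≤ R := by
  have hV := VV_ge_one hR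
  have hV0 : 0 < VV R := by positivity
  by_cases he : e ≤ R
  · have h1 : |∑ l ∈ (Icc 1 R).filter (fun l => e ∣ l), mr (l / e) * yy R l| ≤ 1 := by
      calc _ ≤ ∑ l ∈ (Icc 1 R).filter (fun l => e ∣ l), |mr (l / e) * yy R l| :=
            Finset.abs_sum_le_sum_abs _ _
        _ ≤ ∑ l ∈ (Icc 1 R).filter (fun l => e ∣ l), (mr l ^ 2 / ph l) / VV R := by
            refine Finset.sum_le_sum fun l hl => ?_
            have hp := ph_pos (mem_Icc.1 (mem_filter.1 hl).1).1
            rw [abs_mul]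
            unfold yy
            rw [abs_div, abs_of_pos (mul_pos hp hV0), abs_mr_sq l, ← div_div]
            exact mul_le_of_le_one_left (by positivity) (abs_mr_le _)
        _ ≤ ∑ l ∈ Icc 1 R, (mr l ^ 2 / ph l) / VV R := by
            refine Finset.sum_le_sum_of_subset_of_nonneg (Finset.filter_subset _ _) ?_
            intro l hl _
            have hp := ph_pos (mem_Icc.1 hl).1
            positivity
        _ = 1 := by
            rw [← Finset.sum_div]
            exact div_self hV0.ne'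
    unfold lam
    rw [abs_mul, Nat.abs_cast]
    calc (e : ℝ) * _ ≤ (e : ℝ) * 1 := mul_le_mul_of_nonneg_left h1 (Nat.cast_nonneg e)
      _ ≤ R := by rw [mul_one]; exact_mod_cast he
  · have h2 : (Icc 1 R).filter (fun l => e ∣ l) = ∅ := by
      rw [Finset.filter_eq_empty_iff]
      intro l hl hd
      have h3 := mem_Icc.1 hl
      have := Nat.le_of_dvd (by omega) hd
      omega
    unfold lam
    rw [h2, Finset.sum_empty, mul_zero, abs_zero]
    positivity

theorem inner (R g l : ℕ) (hg : 1 ≤ g) (hl : l ∈ Icc 1 R) :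
    ∑ e ∈ (Icc 1 R).filter (fun e => g ∣ e ∧ e ∣ l), mr (l / e) = if l = g then 1 else 0 := by
  obtain ⟨hl1, hl2⟩ := mem_Icc.1 hl
  by_cases hd : g ∣ l
  · obtain ⟨m, rfl⟩ := hd
    have hm : m ≠ 0 := by rintro rfl; simp at hl1
    have e1 : (Icc 1 R).filter (fun e => g ∣ e ∧ e ∣ g * m) = m.divisors.image (fun f => g * f) := by
      ext e
      simp only [mem_filter, mem_Icc, mem_image, Nat.mem_divisors]
      constructor
      · rintro ⟨_, ⟨f, rfl⟩, h2⟩
        exact ⟨f, ⟨Nat.dvd_of_mul_dvd_mul_left (by omega) h2, hm⟩, rfl⟩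
      · rintro ⟨f, ⟨h1, _⟩, rfl⟩
        have h3 : g * f ∣ g * m := Nat.mul_dvd_mul_left g h1
        have h4 := Nat.le_of_dvd (by omega) h3
        have h5 : 0 < g * f := Nat.pos_of_dvd_of_pos h3 (by omega)
        exact ⟨⟨h5, by omega⟩, ⟨f, rfl⟩, h3⟩
    rw [e1, Finset.sum_image (fun a _ b _ h => Nat.eq_of_mul_eq_mul_left (by omega) h)]
    have e2 : ∀ f ∈ m.divisors, mr (g * m / (g * f)) = mr (m / f) := by
      intro f _
      rw [Nat.mul_div_mul_left _ _ (by omega)]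
    rw [Finset.sum_congr rfl e2, Nat.sum_div_divisors m mr]
    have h6 : ∑ f ∈ m.divisors, ArithmeticFunction.moebius f = if m = 1 then 1 else 0 := by
      rw [← ArithmeticFunction.coe_mul_zeta_apply, ArithmeticFunction.moebius_mul_coe_zeta,
        ArithmeticFunction.one_apply]
    have h7 : ∑ f ∈ m.divisors, mr f = if m = 1 then 1 else 0 := by
      unfold mr
      rw [← Int.cast_sum, h6]
      split_ifs <;> simp
    rw [h7]
    by_cases hm1 : m = 1
    · rw [if_pos hm1, if_pos (by rw [hm1, mul_one])]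
    · rw [if_neg hm1, if_neg]
      intro h
      apply hm1
      have : g * m = g * 1 := by rw [h, mul_one]
      exact Nat.eq_of_mul_eq_mul_left (by omega) this
  · have e1 : (Icc 1 R).filter (fun e => g ∣ e ∧ e ∣ l) = ∅ := by
      rw [Finset.filter_eq_empty_iff]
      rintro e _ ⟨h1, h2⟩
      exact hd (h1.trans h2)
    rw [e1, Finset.sum_empty, if_neg]
    rintro rfl
    exact hd dvd_rfl

theorem diag (R g : ℕ) (hg : g ∈ Icc 1 R) :
    ∑ e ∈ (Icc 1 R).filter (fun e => g ∣ e), lam R e / e = yy R g := by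
  have hg1 := (mem_Icc.1 hg).1
  have h1 : ∀ e ∈ (Icc 1 R).filter (fun e => g ∣ e), lam R e / e =
      ∑ l ∈ Icc 1 R, if e ∣ l then mr (l / e) * yy R l else 0 := by
    intro e he
    have he1 := (mem_Icc.1 (mem_filter.1 he).1).1
    have he0 : (e : ℝ) ≠ 0 := by
      have : (0 : ℝ) < e := by exact_mod_cast he1
      exact this.ne'
    unfold lam
    rw [mul_div_cancel_left₀ _ he0, Finset.sum_filter]
  rw [Finset.sum_congr rfl h1, Finset.sum_comm]
  have h2 : ∀ l ∈ Icc 1 R, (∑ e ∈ (Icc 1 R).filter (fun e => g ∣ e),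
      if e ∣ l then mr (l / e) * yy R l else 0) = if l = g then yy R g else 0 := by
    intro l hl
    rw [← Finset.sum_filter, Finset.filter_filter, ← Finset.sum_mul, inner R g l hg1 hl]
    split_ifs with h
    · rw [one_mul, h]
    · rw [zero_mul]
  rw [Finset.sum_congr rfl h2, Finset.sum_ite_eq' (Icc 1 R) g, if_pos hg]

theorem gcd_sum (R e f : ℕ) (he : e ∈ Icc 1 R) :
    ((Nat.gcd e f : ℕ) : ℝ) = ∑ g ∈ Icc 1 R, if g ∣ e ∧ g ∣ f then ph g else 0 := by
  obtain ⟨he1, he2⟩ := mem_Icc.1 he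
  have h1 : (Nat.gcd e f).divisors = (Icc 1 R).filter (fun g => g ∣ e ∧ g ∣ f) := by
    ext g
    simp only [Nat.mem_divisors, mem_filter, mem_Icc, Nat.dvd_gcd_iff]
    constructor
    · rintro ⟨h, _⟩
      have h3 := Nat.le_of_dvd (by omega) h.1
      have h4 : 0 < g := Nat.pos_of_dvd_of_pos h.1 (by omega)
      exact ⟨⟨h4, by omega⟩, h⟩
    · rintro ⟨_, h⟩
      exact ⟨h, (Nat.gcd_pos_of_pos_left _ (by omega)).ne'⟩
  rw [← Finset.sum_filter, ← h1]
  unfold ph
  rw [← Nat.cast_sum, Nat.sum_totient]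

theorem sm_eq {R : ℕ} (hR : 1 ≤ R) : sm R (lam R) = 1 / VV R := by
  have hV := VV_ge_one hR
  have hV0 : VV R ≠ 0 := by positivity
  have h1 : ∀ e ∈ Icc 1 R, ∀ f ∈ Icc 1 R, lam R e * lam R f / (Nat.lcm e f : ℝ) =
      ∑ g ∈ Icc 1 R, ph g * ((if g ∣ e then lam R e / e else 0) *
        (if g ∣ f then lam R f / f else 0)) := by
    intro e he f hf
    have he1 : (0 : ℝ) < e := by exact_mod_cast (mem_Icc.1 he).1
    have hf1 : (0 : ℝ) < f := by exact_mod_cast (mem_Icc.1 hf).1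
    have hl : (0 : ℝ) < (Nat.lcm e f : ℝ) := by
      exact_mod_cast Nat.lcm_pos (mem_Icc.1 he).1 (mem_Icc.1 hf).1
    have hgl : ((Nat.gcd e f : ℕ) : ℝ) * (Nat.lcm e f : ℝ) = e * f := by
      exact_mod_cast Nat.gcd_mul_lcm e f
    have h2 : lam R e * lam R f / (Nat.lcm e f : ℝ) =
        ((Nat.gcd e f : ℕ) : ℝ) * (lam R e / e * (lam R f / f)) := by
      rw [div_mul_div_comm, ← hgl]
      have hg : (0 : ℝ) < ((Nat.gcd e f : ℕ) : ℝ) := by
        exact_mod_cast Nat.gcd_pos_of_pos_left _ (mem_Icc.1 he).1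
      field_simp
    rw [h2, gcd_sum R e f he, Finset.sum_mul]
    refine Finset.sum_congr rfl fun g _ => ?_
    by_cases a : g ∣ e
    · by_cases b : g ∣ f
      · rw [if_pos ⟨a, b⟩, if_pos a, if_pos b]
      · rw [if_neg (fun h => b h.2), if_neg b]; ring
    · rw [if_neg (fun h => a h.1), if_neg a]; ring
  unfold sm
  rw [Finset.sum_congr rfl (fun e he => Finset.sum_congr rfl (h1 e he))]
  have h3 : ∀ e ∈ Icc 1 R, (∑ f ∈ Icc 1 R, ∑ g ∈ Icc 1 R,
      ph g * ((if g ∣ e then lam R e / e else 0) * (if g ∣ f then lam R f / f else 0))) =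
      ∑ g ∈ Icc 1 R, ph g * ((if g ∣ e then lam R e / e else 0) * yy R g) := by
    intro e _
    rw [Finset.sum_comm]
    refine Finset.sum_congr rfl fun g hg => ?_
    rw [← Finset.mul_sum, ← Finset.mul_sum, ← Finset.sum_filter, diag R g hg]
  rw [Finset.sum_congr rfl h3, Finset.sum_comm]
  have h4 : ∀ g ∈ Icc 1 R, (∑ e ∈ Icc 1 R, ph g * ((if g ∣ e then lam R e / e else 0) *
      yy R g)) = (mr g ^ 2 / ph g) / VV R ^ 2 := by
    intro g hg
    rw [← Finset.mul_sum, ← Finset.sum_mul, ← Finset.sum_filter, diag R g hg]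
    have hp := ph_pos (mem_Icc.1 hg).1
    unfold yy
    field_simp
  rw [Finset.sum_congr rfl h4, ← Finset.sum_div]
  change VV R / VV R ^ 2 = 1 / VV R
  rw [sq, ← div_div, div_self hV0]

theorem sum_sq (n : ℕ) : ∑ s ∈ Icc 1 (n + 1), 1 / (s : ℝ) ^ 2 ≤ 2 - 1 / ((n : ℝ) + 1) := by
  induction n with
  | zero => simp; norm_num
  | succ n ih =>
    rw [Finset.sum_Icc_succ_top (by omega)]
    have h1 : (0 : ℝ) < (n : ℝ) + 1 := by positivity
    have h2 : (1 : ℝ) / ((n + 1 + 1 : ℕ) : ℝ) ^ 2 ≤ 1 / ((n : ℝ) + 1) - 1 / ((n : ℝ) + 1 + 1) := by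
      push_cast
      rw [div_sub_div _ _ h1.ne' (by positivity), div_le_div_iff₀ (by positivity) (by positivity)]
      nlinarith
    push_cast at h2 ⊢
    linarith

theorem V_ge {R : ℕ} (hR : 1 ≤ R) : Real.log (R + 1) ≤ 2 * VV R := by
  have h1 : Real.log (R + 1) ≤ ∑ n ∈ Icc 1 R, 1 / (n : ℝ) := by
    have h := log_add_one_le_harmonic R
    rw [harmonic_eq_sum_Icc] at h
    push_cast at h
    simpa [one_div] using h
  choose a b hab hsf using fun n : ℕ => Nat.sq_mul_squarefree n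
  let G : ℕ × ℕ → ℝ := fun q => (1 / (q.1 : ℝ)) * (1 / (q.2 : ℝ) ^ 2)
  let Sf : Finset ℕ := (Icc 1 R).filter Squarefree
  have hmem : ∀ n ∈ Icc 1 R, (a n, b n) ∈ Sf ×ˢ Icc 1 R := by
    intro n hn
    obtain ⟨hn1, hn2⟩ := mem_Icc.1 hn
    have h := hab n
    have hpos : 0 < b n ^ 2 * a n := by omega
    have ha : 0 < a n := Nat.pos_of_mul_pos_left hpos
    have hb2 : 0 < b n ^ 2 := Nat.pos_of_mul_pos_right hpos
    have hb : 0 < b n := by
      rcases Nat.eq_zero_or_pos (b n) with h0 | h0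
      · rw [h0] at hb2; simp at hb2
      · exact h0
    have h3 : a n ≤ n := by
      calc a n ≤ b n ^ 2 * a n := Nat.le_mul_of_pos_left _ hb2
        _ = n := h
    have h4 : b n ≤ n := by
      calc b n ≤ b n ^ 2 := Nat.le_self_pow (by norm_num) _
        _ ≤ b n ^ 2 * a n := Nat.le_mul_of_pos_right _ ha
        _ = n := h
    simp only [Sf, mem_product, mem_filter, mem_Icc]
    exact ⟨⟨⟨ha, by omega⟩, hsf n⟩, hb, by omega⟩
  have hinj : Set.InjOn (fun n => (a n, b n)) (Icc 1 R : Finset ℕ) := by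
    intro n _ m _ h
    have e1 : a n = a m := congrArg Prod.fst h
    have e2 : b n = b m := congrArg Prod.snd h
    rw [← hab n, ← hab m, e1, e2]
  have h2 : ∑ n ∈ Icc 1 R, 1 / (n : ℝ) ≤ ∑ q ∈ Sf ×ˢ Icc 1 R, G q := by
    have e1 : ∑ n ∈ Icc 1 R, 1 / (n : ℝ) = ∑ n ∈ Icc 1 R, G (a n, b n) := by
      refine Finset.sum_congr rfl fun n _ => ?_
      have h := hab n
      have h' : (n : ℝ) = (b n : ℝ) ^ 2 * (a n : ℝ) := by exact_mod_cast h.symm
      show 1 / (n : ℝ) = (1 / (a n : ℝ)) * (1 / (b n : ℝ) ^ 2)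
      rw [h', one_div_mul_one_div, mul_comm]
    rw [e1, ← Finset.sum_image (f := G) (g := fun n => (a n, b n)) hinj]
    refine Finset.sum_le_sum_of_subset_of_nonneg ?_ ?_
    · intro q hq
      obtain ⟨n, hn, rfl⟩ := mem_image.1 hq
      exact hmem n hn
    · intro q _ _
      show (0 : ℝ) ≤ (1 / (q.1 : ℝ)) * (1 / (q.2 : ℝ) ^ 2)
      positivity
  have h3 : ∑ q ∈ Sf ×ˢ Icc 1 R, G q = (∑ l ∈ Sf, 1 / (l : ℝ)) * ∑ s ∈ Icc 1 R, 1 / (s : ℝ) ^ 2 := by
    rw [Finset.sum_mul_sum, Finset.sum_product]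
  have h4 : ∑ s ∈ Icc 1 R, 1 / (s : ℝ) ^ 2 ≤ 2 := by
    have h := sum_sq (R - 1)
    rw [show R - 1 + 1 = R by omega] at h
    have : (0 : ℝ) ≤ 1 / (((R - 1 : ℕ) : ℝ) + 1) := by positivity
    linarith
  have h5 : ∑ l ∈ Sf, 1 / (l : ℝ) ≤ VV R := by
    unfold VV
    calc ∑ l ∈ Sf, 1 / (l : ℝ) ≤ ∑ l ∈ Sf, mr l ^ 2 / ph l := by
          refine Finset.sum_le_sum fun l hl => ?_
          obtain ⟨hl1, hl2⟩ := mem_filter.1 hl
          have hp := ph_pos (mem_Icc.1 hl1).1
          have e1 : mr l ^ 2 = 1 := by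
            rw [← abs_mr_sq]
            unfold mr
            have h1 : |ArithmeticFunction.moebius l| = 1 :=
              ArithmeticFunction.abs_moebius_eq_one_of_squarefree hl2
            exact_mod_cast h1
          rw [e1]
          refine one_div_le_one_div_of_le hp ?_
          unfold ph
          exact_mod_cast Nat.totient_le l
      _ ≤ _ := by
          refine Finset.sum_le_sum_of_subset_of_nonneg (Finset.filter_subset _ _) ?_
          intro l hl _
          have hp := ph_pos (mem_Icc.1 hl).1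
          positivity
  have h6 : 0 ≤ ∑ l ∈ Sf, 1 / (l : ℝ) := Finset.sum_nonneg fun l _ => by positivity
  calc Real.log (R + 1) ≤ ∑ n ∈ Icc 1 R, 1 / (n : ℝ) := h1
    _ ≤ (∑ l ∈ Sf, 1 / (l : ℝ)) * ∑ s ∈ Icc 1 R, 1 / (s : ℝ) ^ 2 := by rw [← h3]; exact h2
    _ ≤ (∑ l ∈ Sf, 1 / (l : ℝ)) * 2 := mul_le_mul_of_nonneg_left h4 h6
    _ ≤ 2 * VV R := by linarith

end ItemX6

theorem claimX6 : ClaimX6 := by
  intro R hR
  refine ⟨ItemX6.lam R, ItemX6.lam_one hR, ItemX6.abs_lam hR, ?_⟩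
  rw [ItemX6.sm_eq hR]
  have hV := ItemX6.VV_ge_one hR
  have h := ItemX6.V_ge hR
  have hlog : 0 < Real.log ((R : ℝ) + 1) := by
    apply Real.log_pos
    have : (1 : ℝ) ≤ R := by exact_mod_cast hR
    linarith
  rw [div_le_div_iff₀ (by linarith) hlog]
  linarith

end Pool.Agent.Work.MP_e0c7e8_nt.SM
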