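import Pool.Agent.Work.MP_e0c7e8_nt.SM.StmtsX
import Pool.Agent.Work.MP_e0c7e8_nt.SM.Basic
import Pool.Agent.Work.MP_e0c7e8_nt.SM.Abel

set_option autoImplicit false

namespace Pool.Agent.Work.MP_e0c7e8_nt.SM

open Finset

namespace ItemX7

lemma ww_eq (R : ℕ) (l : ℕ → ℝ) (n : ℕ) :
    ww R l n = ∑ e ∈ Icc 1 R, ∑ f ∈ Icc 1 R,
      if Nat.lcm e f ∣ n then l e * l f else 0 := by
  unfold ww
  rw [Finset.sum_filter, sq, Finset.sum_mul_sum]
  refine Finset.sum_congr rfl fun e _ => Finset.sum_congr rfl fun f _ => ?_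
  by_cases h1 : e ∣ n
  · by_cases h2 : f ∣ n
    · rw [if_pos h1, if_pos h2, if_pos (Nat.lcm_dvd h1 h2)]
    · rw [if_neg h2, if_neg (fun h => h2 ((Nat.dvd_lcm_right e f).trans h)), mul_zero]
  · rw [if_neg h1, if_neg (fun h => h1 ((Nat.dvd_lcm_left e f).trans h)), zero_mul]

lemma reindex (h : ℕ → ℝ) (A B L : ℕ) (hL : 0 < L) :
    ∑ n ∈ Ioc A B, (if L ∣ n then h n else 0) = ∑ m ∈ Ioc (A / L) (B / L), h (L * m) := by
  rw [← Finset.sum_filter]
  symm
  refine Finset.sum_bij (fun m _ => L * m) ?_ ?_ ?_ ?_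
  · intro m hm
    rw [mem_Ioc] at hm
    rw [mem_filter, mem_Ioc]
    refine ⟨⟨?_, ?_⟩, Dvd.intro _ rfl⟩
    · have := (Nat.div_lt_iff_lt_mul hL).1 hm.1
      rwa [Nat.mul_comm] at this
    · have := (Nat.le_div_iff_mul_le hL).1 hm.2
      rwa [Nat.mul_comm] at this
  · intro m _ m' _ h
    exact Nat.eq_of_mul_eq_mul_left hL h
  · intro n hn
    rw [mem_filter, mem_Ioc] at hn
    obtain ⟨⟨h1, h2⟩, m, rfl⟩ := hn
    refine ⟨m, ?_, rfl⟩
    rw [mem_Ioc]
    constructor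
    · rw [Nat.div_lt_iff_lt_mul hL, Nat.mul_comm]; exact h1
    · rw [Nat.le_div_iff_mul_le hL, Nat.mul_comm]; exact h2
  · intro m _; rfl

lemma swap (R A B : ℕ) (l h : ℕ → ℝ) :
    ∑ n ∈ Ioc A B, ww R l n * h n = ∑ e ∈ Icc 1 R, ∑ f ∈ Icc 1 R,
      l e * l f * ∑ m ∈ Ioc (A / Nat.lcm e f) (B / Nat.lcm e f), h (Nat.lcm e f * m) := by
  have h1 : ∀ n ∈ Ioc A B, ww R l n * h n = ∑ e ∈ Icc 1 R, ∑ f ∈ Icc 1 R,
      l e * l f * (if Nat.lcm e f ∣ n then h n else 0) := by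
    intro n _
    rw [ww_eq, Finset.sum_mul]
    refine Finset.sum_congr rfl fun e _ => ?_
    rw [Finset.sum_mul]
    refine Finset.sum_congr rfl fun f _ => ?_
    split_ifs <;> ring
  rw [Finset.sum_congr rfl h1, Finset.sum_comm]
  refine Finset.sum_congr rfl fun e he => ?_
  rw [Finset.sum_comm]
  refine Finset.sum_congr rfl fun f hf => ?_
  rw [← Finset.mul_sum]
  rw [mem_Icc] at he hf
  rw [reindex h A B _ (Nat.lcm_pos (by omega) (by omega))]

lemma harm (a k : ℕ) (ha : 1 ≤ a) :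
    Real.log (((a + k + 1 : ℕ) : ℝ) / (a + 1 : ℕ)) ≤ ∑ m ∈ Ioc a (a + k), (1 : ℝ) / m ∧
      ∑ m ∈ Ioc a (a + k), (1 : ℝ) / m ≤ Real.log (((a + k : ℕ) : ℝ) / a) := by
  have ha' : (0 : ℝ) < a := by exact_mod_cast ha
  induction k with
  | zero =>
    constructor
    · have : ((a + 0 + 1 : ℕ) : ℝ) / ((a + 1 : ℕ) : ℝ) = 1 := by
        rw [add_zero]
        exact div_self (by positivity)
      rw [this]; simp
    · have : ((a + 0 : ℕ) : ℝ) / (a : ℝ) = 1 := by
        rw [add_zero]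
        exact div_self ha'.ne'
      rw [this]; simp
  | succ k ih =>
    have hs : ∑ m ∈ Ioc a (a + (k + 1)), (1 : ℝ) / m =
        ∑ m ∈ Ioc a (a + k), (1 : ℝ) / m + 1 / ((a + k + 1 : ℕ) : ℝ) := by
      rw [show a + (k + 1) = (a + k) + 1 by ring, Finset.sum_Ioc_succ_top (by omega)]
    have hx : (0 : ℝ) < ((a + k : ℕ) : ℝ) := by exact_mod_cast (by omega : 0 < a + k)
    have hx1 : (0 : ℝ) < ((a + k + 1 : ℕ) : ℝ) := by positivity
    have hx2 : (0 : ℝ) < ((a + (k + 1) + 1 : ℕ) : ℝ) := by positivity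
    have ha1 : (0 : ℝ) < ((a + 1 : ℕ) : ℝ) := by positivity
    rw [hs]
    constructor
    · have e1 : Real.log (((a + (k + 1) + 1 : ℕ) : ℝ) / (a + 1 : ℕ)) =
          Real.log (((a + k + 1 : ℕ) : ℝ) / (a + 1 : ℕ)) +
            Real.log (((a + (k + 1) + 1 : ℕ) : ℝ) / ((a + k + 1 : ℕ) : ℝ)) := by
        rw [Real.log_div hx2.ne' ha1.ne', Real.log_div hx1.ne' ha1.ne',
          Real.log_div hx2.ne' hx1.ne']
        ring
      have e2 := Real.log_le_sub_one_of_pos (div_pos hx2 hx1)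
      have e3 : ((a + (k + 1) + 1 : ℕ) : ℝ) / ((a + k + 1 : ℕ) : ℝ) - 1 =
          1 / ((a + k + 1 : ℕ) : ℝ) := by
        rw [div_sub_one hx1.ne']
        push_cast
        congr 1
        ring
      rw [e3] at e2
      linarith [ih.1]
    · have e1 : Real.log (((a + (k + 1) : ℕ) : ℝ) / a) =
          Real.log (((a + k : ℕ) : ℝ) / a) -
            Real.log (((a + k : ℕ) : ℝ) / ((a + k + 1 : ℕ) : ℝ)) := by
        rw [show a + (k + 1) = a + k + 1 by ring, Real.log_div hx1.ne' ha'.ne',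
          Real.log_div hx.ne' ha'.ne', Real.log_div hx.ne' hx1.ne']
        ring
      have e2 := Real.log_le_sub_one_of_pos (div_pos hx hx1)
      have e3 : ((a + k : ℕ) : ℝ) / ((a + k + 1 : ℕ) : ℝ) - 1 =
          - (1 / ((a + k + 1 : ℕ) : ℝ)) := by
        rw [div_sub_one hx1.ne', ← neg_div]
        push_cast
        congr 1
        ring
      rw [e3] at e2
      linarith [ih.2]

lemma inner (A B L : ℕ) (hL : 1 ≤ L) (hA : 2 * L ≤ A) (hAB : A ≤ B) :
    |∑ m ∈ Ioc (A / L) (B / L), (1 : ℝ) / m - Real.log ((B : ℝ) / A)| ≤ 2 * L / A := by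
  have ha : 1 ≤ A / L := (Nat.le_div_iff_mul_le (by omega)).2 (by omega)
  have hab : A / L ≤ B / L := Nat.div_le_div_right hAB
  obtain ⟨k, hk⟩ : ∃ k, B / L = A / L + k := ⟨B / L - A / L, by omega⟩
  have hh := harm (A / L) k ha
  rw [← hk] at hh
  set a := A / L with hadef
  set b := B / L with hbdef
  have hLr : (0 : ℝ) < L := by exact_mod_cast (by omega : 0 < L)
  have hAr : (0 : ℝ) < A := by exact_mod_cast (by omega : 0 < A)
  have hBr : (0 : ℝ) < B := by exact_mod_cast (by omega : 0 < B)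
  have har : (0 : ℝ) < a := by exact_mod_cast (by omega : 0 < a)
  have hbr : (0 : ℝ) < b := by exact_mod_cast (by omega : 0 < b)
  have h2LA : 2 * (L : ℝ) ≤ A := by exact_mod_cast hA
  -- integer inequalities
  have i1 : A < (a + 1) * L := by
    have := Nat.lt_succ_self a
    rw [Nat.succ_eq_add_one, hadef, Nat.div_lt_iff_lt_mul (by omega)] at this
    exact this
  have i2 : a * L ≤ A := Nat.div_mul_le_self A L
  have i3 : B < (b + 1) * L := by
    have := Nat.lt_succ_self b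
    rw [Nat.succ_eq_add_one, hbdef, Nat.div_lt_iff_lt_mul (by omega)] at this
    exact this
  have i4 : b * L ≤ B := Nat.div_mul_le_self B L
  have r1 : (A : ℝ) < (a + 1) * L := by exact_mod_cast i1
  have r2 : (a : ℝ) * L ≤ A := by exact_mod_cast i2
  have r3 : (B : ℝ) < (b + 1) * L := by exact_mod_cast i3
  have r4 : (b : ℝ) * L ≤ B := by exact_mod_cast i4
  have hAL : (0 : ℝ) < A - L := by linarith
  rw [abs_le]
  constructor
  · -- lower bound
    have e1 : Real.log ((B : ℝ) / (A + L)) ≤ Real.log (((b + 1 : ℕ) : ℝ) / (a + 1 : ℕ)) := by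
      apply Real.log_le_log (by positivity)
      push_cast
      rw [div_le_div_iff₀ (by positivity) (by positivity)]
      nlinarith
    have e2 : Real.log ((B : ℝ) / (A + L)) =
        Real.log ((B : ℝ) / A) - Real.log ((A + L : ℝ) / A) := by
      rw [Real.log_div hBr.ne' (by positivity), Real.log_div hBr.ne' hAr.ne',
        Real.log_div (by positivity) hAr.ne']
      ring
    have e3 := Real.log_le_sub_one_of_pos (show (0 : ℝ) < (A + L : ℝ) / A by positivity)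
    have e4 : (A + L : ℝ) / A - 1 = L / A := by field_simp; ring
    have e5 : (L : ℝ) / A ≤ 2 * L / A := by
      apply div_le_div_of_nonneg_right _ hAr.le
      linarith
    have e6 := hh.1
    rw [e2] at e1
    rw [e4] at e3
    linarith
  · have e1 : Real.log ((b : ℝ) / a) ≤ Real.log ((B : ℝ) / (A - L)) := by
      apply Real.log_le_log (by positivity)
      rw [div_le_div_iff₀ har hAL]
      have : (a : ℝ) * L ≥ A - L := by linarith
      nlinarith
    have e2 : Real.log ((B : ℝ) / (A - L)) =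
        Real.log ((B : ℝ) / A) + Real.log ((A : ℝ) / (A - L)) := by
      rw [Real.log_div hBr.ne' hAL.ne', Real.log_div hBr.ne' hAr.ne',
        Real.log_div hAr.ne' hAL.ne']
      ring
    have e3 := Real.log_le_sub_one_of_pos (show (0 : ℝ) < (A : ℝ) / (A - L) by positivity)
    have e4 : (A : ℝ) / (A - L) - 1 ≤ 2 * L / A := by
      rw [div_sub_one hAL.ne', div_le_div_iff₀ hAL hAr]
      nlinarith
    have e6 := hh.2
    linarith

lemma chi_inner (h1 : ClaimS1) (D : ℤ) (hD : ¬ IsSquare D) (a b : ℕ) (hab : a ≤ b) :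
    |∑ m ∈ Ioc a b, (chi D m : ℝ) * (1 / m)| ≤ 8 * |(D : ℝ)| * (1 / ((a + 1 : ℕ) : ℝ)) := by
  refine abel_bound (fun m => (chi D m : ℝ)) (fun m => 1 / (m : ℝ)) a b _ ?_ ?_ ?_ hab
  · intro n _; positivity
  · intro n hn
    apply one_div_le_one_div_of_le
    · exact_mod_cast (by omega : 0 < n)
    · push_cast; linarith
  · intro n hn
    rw [sum_Ioc_eq _ hn]
    have e1 := h1 D hD n
    have e2 := h1 D hD a
    calc _ ≤ |∑ j ∈ Icc 1 n, (chi D j : ℝ)| + |∑ j ∈ Icc 1 a, (chi D j : ℝ)| := abs_sub _ _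
      _ ≤ _ := by linarith

lemma card_bound (R : ℕ) (F : ℕ → ℕ → ℝ) (K : ℝ)
    (h : ∀ e ∈ Icc 1 R, ∀ f ∈ Icc 1 R, |F e f| ≤ K) :
    |∑ e ∈ Icc 1 R, ∑ f ∈ Icc 1 R, F e f| ≤ R ^ 2 * K := by
  calc _ ≤ ∑ e ∈ Icc 1 R, |∑ f ∈ Icc 1 R, F e f| := Finset.abs_sum_le_sum_abs _ _
    _ ≤ ∑ e ∈ Icc 1 R, ∑ f ∈ Icc 1 R, |F e f| :=
        Finset.sum_le_sum fun e _ => Finset.abs_sum_le_sum_abs _ _
    _ ≤ ∑ e ∈ Icc 1 R, ∑ f ∈ Icc 1 R, K :=
        Finset.sum_le_sum fun e he => Finset.sum_le_sum fun f hf => h e he f hf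
    _ = _ := by simp; ring

end ItemX7

open ItemX7 in
theorem claimX7 (h1 : ClaimS1) : ClaimX7 := by
  intro R A B l hR hRA hAB hl
  have hRr : (1 : ℝ) ≤ R := by exact_mod_cast hR
  have hA0 : 0 < A := by
    have : 0 < R ^ 2 := Nat.pow_pos (by omega)
    omega
  have hAr : (0 : ℝ) < A := by exact_mod_cast hA0
  have hlcm : ∀ e ∈ Icc 1 R, ∀ f ∈ Icc 1 R, 1 ≤ Nat.lcm e f ∧ Nat.lcm e f ≤ R ^ 2 := by
    intro e he f hf
    rw [mem_Icc] at he hf
    have e1 : 0 < Nat.lcm e f := Nat.lcm_pos (by omega) (by omega)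
    have e2 : Nat.lcm e f ≤ e * f :=
      Nat.le_of_dvd (Nat.mul_pos (by omega) (by omega)) (Nat.lcm_dvd_mul e f)
    have e3 : e * f ≤ R * R := Nat.mul_le_mul he.2 hf.2
    rw [sq]
    omega
  have hll : ∀ e f, |l e * l f| ≤ (R : ℝ) ^ 2 := by
    intro e f
    rw [abs_mul, sq]
    exact mul_le_mul (hl e) (hl f) (abs_nonneg _) (by positivity)
  constructor
  · intro D hD
    have e1 : ∑ n ∈ Ioc A B, ww R l n * (chi D n : ℝ) / n =
        ∑ n ∈ Ioc A B, ww R l n * ((chi D n : ℝ) * (1 / n)) :=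
      Finset.sum_congr rfl fun n _ => by ring
    rw [e1, swap]
    have e2 : |∑ e ∈ Icc 1 R, ∑ f ∈ Icc 1 R, l e * l f *
        ∑ m ∈ Ioc (A / Nat.lcm e f) (B / Nat.lcm e f),
          (chi D (Nat.lcm e f * m) : ℝ) * (1 / ((Nat.lcm e f * m : ℕ) : ℝ))| ≤
        R ^ 2 * (R ^ 2 * (8 * |(D : ℝ)| / A)) := by
      apply card_bound
      intro e he f hf
      obtain ⟨hL1, hL2⟩ := hlcm e he f hf
      generalize Nat.lcm e f = L at hL1 hL2
      have hLr : (0 : ℝ) < L := by exact_mod_cast (by omega : 0 < L)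
      rw [abs_mul]
      apply mul_le_mul (hll e f) _ (abs_nonneg _) (by positivity)
      have e3 : ∑ m ∈ Ioc (A / L) (B / L), (chi D (L * m) : ℝ) * (1 / ((L * m : ℕ) : ℝ)) =
          (chi D L : ℝ) * (1 / L) * ∑ m ∈ Ioc (A / L) (B / L), (chi D m : ℝ) * (1 / m) := by
        rw [Finset.mul_sum]
        refine Finset.sum_congr rfl fun m _ => ?_
        rw [chi_mul]
        push_cast
        ring
      rw [e3, abs_mul, abs_mul]
      have e4 := chi_inner h1 D hD (A / L) (B / L) (Nat.div_le_div_right hAB)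
      have e5 := abs_chi_real_le D L
      have e6 : |(1 : ℝ) / L| = 1 / L := abs_of_pos (by positivity)
      rw [e6]
      have e7 : |(chi D L : ℝ)| * (1 / L) ≤ 1 / L := by
        have := mul_le_mul_of_nonneg_right e5 (show (0 : ℝ) ≤ 1 / L by positivity)
        rwa [one_mul] at this
      have i1 : A < (A / L + 1) * L := by
        have := Nat.lt_succ_self (A / L)
        rw [Nat.succ_eq_add_one, Nat.div_lt_iff_lt_mul (by omega)] at this
        exact this
      have r1 : (A : ℝ) < ((A / L + 1 : ℕ) : ℝ) * L := by exact_mod_cast i1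
      have e8 : (1 : ℝ) / L * (8 * |(D : ℝ)| * (1 / ((A / L + 1 : ℕ) : ℝ))) ≤
          8 * |(D : ℝ)| / A := by
        have e9 : (1 : ℝ) / L * (8 * |(D : ℝ)| * (1 / ((A / L + 1 : ℕ) : ℝ))) =
            8 * |(D : ℝ)| / (((A / L + 1 : ℕ) : ℝ) * L) := by
          have : ((A / L + 1 : ℕ) : ℝ) ≠ 0 := by positivity
          field_simp
        rw [e9]
        exact div_le_div_of_nonneg_left (by positivity) hAr r1.le
      calc _ ≤ (1 : ℝ) / L * (8 * |(D : ℝ)| * (1 / ((A / L + 1 : ℕ) : ℝ))) :=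
            mul_le_mul e7 e4 (abs_nonneg _) (by positivity)
        _ ≤ _ := e8
    refine e2.trans ?_
    have e3 : (R : ℝ) ^ 2 * (R ^ 2 * (8 * |(D : ℝ)| / A)) = 8 * R ^ 4 * |(D : ℝ)| / A := by ring
    rw [e3]
    apply div_le_div_of_nonneg_right _ hAr.le
    have : (0 : ℝ) ≤ R ^ 4 * |(D : ℝ)| := by positivity
    nlinarith
  · have e1 : ∑ n ∈ Ioc A B, ww R l n / n = ∑ n ∈ Ioc A B, ww R l n * (1 / n) :=
      Finset.sum_congr rfl fun n _ => by ring
    rw [e1, swap]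
    unfold sm
    rw [Finset.mul_sum]
    have e2 : ∑ e ∈ Icc 1 R, Real.log ((B : ℝ) / A) *
        ∑ f ∈ Icc 1 R, l e * l f / (Nat.lcm e f : ℝ) =
        ∑ e ∈ Icc 1 R, ∑ f ∈ Icc 1 R,
          l e * l f * ((1 / (Nat.lcm e f : ℝ)) * Real.log ((B : ℝ) / A)) := by
      refine Finset.sum_congr rfl fun e _ => ?_
      rw [Finset.mul_sum]
      exact Finset.sum_congr rfl fun f _ => by ring
    rw [e2]
    have e3 : ∑ e ∈ Icc 1 R, ∑ f ∈ Icc 1 R, l e * l f *
        ∑ m ∈ Ioc (A / Nat.lcm e f) (B / Nat.lcm e f),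
          (1 : ℝ) / ((Nat.lcm e f * m : ℕ) : ℝ) -
        ∑ e ∈ Icc 1 R, ∑ f ∈ Icc 1 R,
          l e * l f * ((1 / (Nat.lcm e f : ℝ)) * Real.log ((B : ℝ) / A)) =
        ∑ e ∈ Icc 1 R, ∑ f ∈ Icc 1 R, l e * l f * ((1 / (Nat.lcm e f : ℝ)) *
          (∑ m ∈ Ioc (A / Nat.lcm e f) (B / Nat.lcm e f), (1 : ℝ) / m -
            Real.log ((B : ℝ) / A))) := by
      rw [← Finset.sum_sub_distrib]
      refine Finset.sum_congr rfl fun e _ => ?_
      rw [← Finset.sum_sub_distrib]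
      refine Finset.sum_congr rfl fun f _ => ?_
      have : ∑ m ∈ Ioc (A / Nat.lcm e f) (B / Nat.lcm e f),
          (1 : ℝ) / ((Nat.lcm e f * m : ℕ) : ℝ) =
          (1 / (Nat.lcm e f : ℝ)) *
            ∑ m ∈ Ioc (A / Nat.lcm e f) (B / Nat.lcm e f), (1 : ℝ) / m := by
        rw [Finset.mul_sum]
        refine Finset.sum_congr rfl fun m _ => ?_
        push_cast
        rw [one_div_mul_one_div]
      rw [this]
      ring
    have e4 : |∑ e ∈ Icc 1 R, ∑ f ∈ Icc 1 R, l e * l f * ((1 / (Nat.lcm e f : ℝ)) *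
          (∑ m ∈ Ioc (A / Nat.lcm e f) (B / Nat.lcm e f), (1 : ℝ) / m -
            Real.log ((B : ℝ) / A)))| ≤ R ^ 2 * (R ^ 2 * (2 / A)) := by
      apply card_bound
      intro e he f hf
      obtain ⟨hL1, hL2⟩ := hlcm e he f hf
      generalize Nat.lcm e f = L at hL1 hL2
      have hLr : (0 : ℝ) < L := by exact_mod_cast (by omega : 0 < L)
      rw [abs_mul]
      apply mul_le_mul (hll e f) _ (abs_nonneg _) (by positivity)
      rw [abs_mul, abs_of_pos (show (0 : ℝ) < 1 / L by positivity)]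
      have e5 := inner A B L hL1 (by omega) hAB
      calc _ ≤ (1 : ℝ) / L * (2 * L / A) := mul_le_mul_of_nonneg_left e5 (by positivity)
        _ = _ := by field_simp
    have e5 := (le_abs_self _).trans e4
    have e6 : (R : ℝ) ^ 2 * (R ^ 2 * (2 / A)) ≤ 8 * R ^ 4 / A := by
      have : (R : ℝ) ^ 2 * (R ^ 2 * (2 / A)) = 2 * R ^ 4 / A := by ring
      rw [this]
      apply div_le_div_of_nonneg_right _ hAr.le
      have : (0 : ℝ) ≤ R ^ 4 := by positivity
      nlinarith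
    linarith

end Pool.Agent.Work.MP_e0c7e8_nt.SM
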