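import Pool.Agent.Work.MP_e0c7e8_nt.SM.StmtsX
import Pool.Agent.Work.MP_e0c7e8_nt.SM.Basic

/-! Item X8: the dual large sieve. -/

set_option autoImplicit false

namespace Pool.Agent.Work.MP_e0c7e8_nt.SM

open Finset

namespace ItemX8

lemma ww_nonneg (R : ℕ) (l : ℕ → ℝ) (n : ℕ) : 0 ≤ ww R l n := sq_nonneg _

lemma expand (R A B : ℕ) (l : ℕ → ℝ) (S : Finset ℤ) :
    ∑ n ∈ Ioc A B, ww R l n * (∑ d ∈ S, (chi d n : ℝ)) ^ 2 / n =
      ∑ d ∈ S, ∑ e ∈ S, ∑ n ∈ Ioc A B, ww R l n * (chi (d * e) n : ℝ) / n := by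
  have h1 : ∀ n ∈ Ioc A B, ww R l n * (∑ d ∈ S, (chi d n : ℝ)) ^ 2 / n =
      ∑ d ∈ S, ∑ e ∈ S, ww R l n * (chi (d * e) n : ℝ) / n := by
    intro n _
    rw [pow_two, Finset.sum_mul_sum, Finset.mul_sum, Finset.sum_div]
    refine Finset.sum_congr rfl fun d _ => ?_
    rw [Finset.mul_sum, Finset.sum_div]
    refine Finset.sum_congr rfl fun e _ => ?_
    rw [chi_mul_left]
    push_cast
    ring
  rw [Finset.sum_congr rfl h1, Finset.sum_comm]
  refine Finset.sum_congr rfl fun d _ => ?_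
  rw [Finset.sum_comm]

end ItemX8

open ItemX8 in
theorem claimX8 (h7 : ClaimX7) : ClaimX8 := by
  intro R A B l X S hR hA hAB hl hX hS
  obtain ⟨hoff, hdiag⟩ := h7 R A B l hR hA hAB hl
  have hM2 : (0 : ℝ) ≤ 16 * R ^ 4 * X ^ 2 / A := by positivity
  rw [expand]
  set M1 : ℝ := Real.log ((B : ℝ) / A) * sm R l + 8 * R ^ 4 / A with hM1
  set M2 : ℝ := 16 * R ^ 4 * X ^ 2 / A with hM2'
  have key : ∀ d ∈ S, ∀ e ∈ S, ∑ n ∈ Ioc A B, ww R l n * (chi (d * e) n : ℝ) / n ≤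
      (if d = e then M1 else 0) + M2 := by
    intro d hd e he
    by_cases hde : d = e
    · rw [if_pos hde]
      have h1 : ∑ n ∈ Ioc A B, ww R l n * (chi (d * e) n : ℝ) / n ≤
          ∑ n ∈ Ioc A B, ww R l n / n := by
        refine Finset.sum_le_sum fun n _ => ?_
        refine div_le_div_of_nonneg_right ?_ (Nat.cast_nonneg n)
        have h2 := (abs_le.mp (abs_chi_real_le (d * e) n)).2
        nlinarith [ww_nonneg R l n]
      linarith
    · rw [if_neg hde, zero_add]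
      refine (le_abs_self _).trans ((hoff (d * e) (hS d hd e he hde)).trans ?_)
      rw [hM2']
      refine div_le_div_of_nonneg_right ?_ (Nat.cast_nonneg A)
      have h3 : |((d * e : ℤ) : ℝ)| ≤ X ^ 2 := by
        push_cast
        rw [abs_mul, pow_two]
        exact mul_le_mul (hX d hd) (hX e he) (abs_nonneg _) ((abs_nonneg _).trans (hX d hd))
      exact mul_le_mul_of_nonneg_left h3 (by positivity)
  calc ∑ d ∈ S, ∑ e ∈ S, ∑ n ∈ Ioc A B, ww R l n * (chi (d * e) n : ℝ) / n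
      ≤ ∑ d ∈ S, ∑ e ∈ S, ((if d = e then M1 else 0) + M2) :=
        Finset.sum_le_sum fun d hd => Finset.sum_le_sum fun e he => key d hd e he
    _ = ∑ d ∈ S, (M1 + S.card * M2) := by
        refine Finset.sum_congr rfl fun d hd => ?_
        rw [Finset.sum_add_distrib, Finset.sum_ite_eq, if_pos hd, Finset.sum_const, nsmul_eq_mul]
    _ = S.card * M1 + (S.card : ℝ) ^ 2 * M2 := by
        rw [Finset.sum_const, nsmul_eq_mul]; ring

end Pool.Agent.Work.MP_e0c7e8_nt.SM
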