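import Pool.Agent.Work.MP_e0c7e8_nt.SM.StmtsX
import Pool.Agent.Work.MP_e0c7e8_nt.SM.Basic

/-!
# X9: products of `r` primes
-/

set_option autoImplicit false

namespace Pool.Agent.Work.MP_e0c7e8_nt.SM

open Finset

namespace ItemX9

/-- `chi d` as a monoid homomorphism. -/
def chiHom (d : ℤ) : ℕ →* ℤ where
  toFun := chi d
  map_one' := chi_one d
  map_mul' := chi_mul d

lemma chi_prod (d : ℤ) {r : ℕ} (t : Fin r → ℕ) : chi d (∏ i, t i) = ∏ i, chi d (t i) :=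
  map_prod (chiHom d) t univ

/-- the tuples -/
def TT (W Z r : ℕ) : Finset (Fin r → ℕ) :=
  Fintype.piFinset (fun _ : Fin r => (Ioc W Z).filter Nat.Prime)

lemma mem_TT {W Z r : ℕ} {t : Fin r → ℕ} :
    t ∈ TT W Z r ↔ ∀ i, (W < t i ∧ t i ≤ Z) ∧ (t i).Prime := by
  simp [TT, Fintype.mem_piFinset]

lemma expand (d : ℤ) (W Z r : ℕ) :
    (∑ p ∈ (Ioc W Z).filter Nat.Prime, (chi d p : ℝ) / p) ^ r =
      ∑ t ∈ TT W Z r, (chi d (∏ i, t i) : ℝ) / ((∏ i, t i : ℕ) : ℝ) := by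
  rw [TT, Finset.sum_pow']
  refine Finset.sum_congr rfl fun t _ => ?_
  rw [chi_prod, Finset.prod_div_distrib]
  push_cast
  rfl

lemma expand_one (W Z r : ℕ) :
    qq W Z ^ r = ∑ t ∈ TT W Z r, (1 : ℝ) / ((∏ i, t i : ℕ) : ℝ) := by
  rw [TT, qq, Finset.sum_pow']
  refine Finset.sum_congr rfl fun t _ => ?_
  rw [Finset.prod_div_distrib]
  push_cast
  simp

lemma prime_dvd_prod {r : ℕ} {t : Fin r → ℕ} (ht : ∀ i, (t i).Prime) {q : ℕ} (hq : q.Prime)
    (h : q ∣ ∏ i, t i) : ∃ i, q = t i := by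
  obtain ⟨i, _, hi⟩ := (Prime.dvd_finset_prod_iff hq.prime t).1 h
  exact ⟨i, (Nat.prime_dvd_prime_iff_eq hq (ht i)).1 hi⟩

lemma ww_one {W Z r R : ℕ} {l : ℕ → ℝ} (hR : 1 ≤ R) (hRW : R ≤ W) (hl : l 1 = 1)
    {t : Fin r → ℕ} (ht : t ∈ TT W Z r) : ww R l (∏ i, t i) = 1 := by
  rw [mem_TT] at ht
  have h1 : (Icc 1 R).filter (fun e => e ∣ ∏ i, t i) = {1} := by
    ext e
    simp only [mem_filter, mem_Icc, mem_singleton]
    constructor
    · rintro ⟨⟨h1, h2⟩, h3⟩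
      by_contra hne
      have hq := Nat.minFac_prime hne
      obtain ⟨i, hi⟩ := prime_dvd_prod (fun i => (ht i).2) hq ((Nat.minFac_dvd e).trans h3)
      have h4 := (ht i).1.1
      have h5 : e.minFac ≤ e := Nat.minFac_le h1
      omega
    · rintro rfl
      exact ⟨⟨le_rfl, hR⟩, one_dvd _⟩
  rw [ww, h1, sum_singleton, hl, one_pow]

lemma mem_Ioc_prod {W Z r : ℕ} (hr : 1 ≤ r) (hW : 0 < W) {t : Fin r → ℕ}
    (ht : t ∈ TT W Z r) : ∏ i, t i ∈ Ioc (W ^ r) (Z ^ r) := by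
  rw [mem_TT] at ht
  rw [mem_Ioc]
  haveI : Nonempty (Fin r) := ⟨⟨0, hr⟩⟩
  constructor
  · calc W ^ r = ∏ _i : Fin r, W := by simp
      _ < ∏ i, t i := Finset.prod_lt_prod_of_nonempty (fun _ _ => hW) (fun i _ => (ht i).1.1)
        univ_nonempty
  · calc ∏ i, t i ≤ ∏ _i : Fin r, Z :=
        Finset.prod_le_prod (fun _ _ => Nat.zero_le _) (fun i _ => (ht i).1.2)
      _ = Z ^ r := by simp

lemma card_fiber (W Z r n : ℕ) :
    ((TT W Z r).filter (fun t => ∏ i, t i = n)).card ≤ r ^ r := by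
  rcases ((TT W Z r).filter (fun t => ∏ i, t i = n)).eq_empty_or_nonempty with h | ⟨t0, h0⟩
  · rw [h, card_empty]; exact Nat.zero_le _
  · rw [mem_filter, mem_TT] at h0
    obtain ⟨h1, h2⟩ := h0
    have hcard : n.primeFactors.card ≤ r := by
      have hsub : n.primeFactors ⊆ univ.image t0 := by
        intro q hq
        have hq1 := Nat.prime_of_mem_primeFactors hq
        have hq2 := Nat.dvd_of_mem_primeFactors hq
        rw [← h2] at hq2
        obtain ⟨i, hi⟩ := prime_dvd_prod (fun i => (h1 i).2) hq1 hq2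
        exact mem_image.2 ⟨i, mem_univ _, hi.symm⟩
      calc _ ≤ (univ.image t0).card := card_le_card hsub
        _ ≤ (univ : Finset (Fin r)).card := card_image_le
        _ = r := by simp
    have hn : n ≠ 0 := by
      rw [← h2]
      exact Finset.prod_ne_zero_iff.2 fun i _ => (h1 i).2.ne_zero
    have hsub : (TT W Z r).filter (fun t => ∏ i, t i = n) ⊆
        Fintype.piFinset (fun _ : Fin r => n.primeFactors) := by
      intro t ht
      rw [mem_filter, mem_TT] at ht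
      rw [Fintype.mem_piFinset]
      intro i
      refine Nat.mem_primeFactors.2 ⟨(ht.1 i).2, ?_, hn⟩
      rw [← ht.2]
      exact Finset.dvd_prod_of_mem t (mem_univ i)
    calc _ ≤ (Fintype.piFinset (fun _ : Fin r => n.primeFactors)).card := card_le_card hsub
      _ = n.primeFactors.card ^ r := by simp [Fintype.card_piFinset]
      _ ≤ r ^ r := Nat.pow_le_pow_left hcard r

end ItemX9

open ItemX9 in
theorem claimX9 : ClaimX9 := by
  intro W Z r R l S hr hR hRW hl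
  set G : ℕ → ℝ := fun n => ∑ d ∈ S, (chi d n : ℝ) with hG
  have hW : 0 < W := by omega
  have e1 : ∑ d ∈ S, (∑ p ∈ (Ioc W Z).filter Nat.Prime, (chi d p : ℝ) / p) ^ r =
      ∑ t ∈ ItemX9.TT W Z r, G (∏ i, t i) / ((∏ i, t i : ℕ) : ℝ) := by
    simp_rw [expand]
    rw [Finset.sum_comm]
    refine Finset.sum_congr rfl fun t _ => ?_
    rw [hG, Finset.sum_div]
  rw [e1]
  have e2 : (∑ t ∈ ItemX9.TT W Z r, G (∏ i, t i) / ((∏ i, t i : ℕ) : ℝ)) ^ 2 ≤
      (∑ t ∈ ItemX9.TT W Z r, (1 : ℝ) / ((∏ i, t i : ℕ) : ℝ)) *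
        ∑ t ∈ ItemX9.TT W Z r, G (∏ i, t i) ^ 2 / ((∏ i, t i : ℕ) : ℝ) := by
    refine Finset.sum_sq_le_sum_mul_sum_of_sq_eq_mul _ (fun t _ => by positivity)
      (fun t _ => by positivity) (fun t _ => ?_)
    rw [div_pow, div_mul_div_comm, one_mul, sq ((∏ i, t i : ℕ) : ℝ)]
  refine e2.trans ?_
  rw [← expand_one, mul_assoc]
  have hq : 0 ≤ qq W Z := Finset.sum_nonneg fun p _ => by positivity
  refine mul_le_mul_of_nonneg_left ?_ (pow_nonneg hq r)
  have e3 : ∑ t ∈ ItemX9.TT W Z r, G (∏ i, t i) ^ 2 / ((∏ i, t i : ℕ) : ℝ) =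
      ∑ n ∈ Ioc (W ^ r) (Z ^ r), ∑ t ∈ (ItemX9.TT W Z r).filter (fun t => ∏ i, t i = n),
        ww R l n * G n ^ 2 / (n : ℝ) := by
    rw [← Finset.sum_fiberwise_of_maps_to (g := fun t : Fin r → ℕ => ∏ i, t i)
      (fun t ht => mem_Ioc_prod hr hW ht)]
    refine Finset.sum_congr rfl fun n _ => Finset.sum_congr rfl fun t ht => ?_
    rw [mem_filter] at ht
    rw [← ht.2, ww_one hR hRW hl ht.1, one_mul]
  rw [e3, Finset.mul_sum]
  refine Finset.sum_le_sum fun n _ => ?_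
  rw [Finset.sum_const, nsmul_eq_mul]
  refine mul_le_mul_of_nonneg_right ?_ ?_
  · exact_mod_cast card_fiber W Z r n
  · have : 0 ≤ ww R l n := sq_nonneg _
    positivity

end Pool.Agent.Work.MP_e0c7e8_nt.SM
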