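import Pool.Agent.Work.MP_e0c7e8_nt.SM.ItemX1
import Pool.Agent.Work.MP_e0c7e8_nt.SM.ItemX2
import Pool.Agent.Work.MP_e0c7e8_nt.SM.ItemX3
import Pool.Agent.Work.MP_e0c7e8_nt.SM.ItemX5
import Pool.Agent.Work.MP_e0c7e8_nt.SM.ItemX6
import Pool.Agent.Work.MP_e0c7e8_nt.SM.ItemX7
import Pool.Agent.Work.MP_e0c7e8_nt.SM.ItemX8
import Pool.Agent.Work.MP_e0c7e8_nt.SM.ItemX9
import Pool.Agent.Work.MP_e0c7e8_nt.SM.ItemX10
import Pool.Agent.Work.MP_e0c7e8_nt.SM.ItemX12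
import Pool.Agent.Work.MP_e0c7e8_nt.SM.ItemS1
import Pool.Agent.Work.MP_e0c7e8_nt.SM.ItemN1
import Pool.Agent.Work.MP_e0c7e8_nt.SM.ItemC0
import Pool.Agent.Work.MP_e0c7e8_nt.SM.ItemC1a1
import Pool.Agent.Work.MP_e0c7e8_nt.SM.ItemC1a2
import Pool.Agent.Work.MP_e0c7e8_nt.SM.ItemC1b
import Pool.Agent.Work.MP_e0c7e8_nt.SM.ItemC1c
import Pool.Agent.Work.MP_e0c7e8_nt.SM.ItemC2b
import Pool.Agent.Work.MP_e0c7e8_nt.SM.ItemC2b0
import Pool.Agent.Work.MP_e0c7e8_nt.SM.ItemC2b1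
import Pool.Agent.Work.MP_e0c7e8_nt.SM.ItemC2b2
import Pool.Agent.Work.MP_e0c7e8_nt.SM.ItemC2c

/-!
# The main theorem: few exceptions
-/

set_option autoImplicit false

namespace Pool.Agent.Work.MP_e0c7e8_nt.SM

theorem mainX : ClaimX12 := by
  have c1a1 := claimC1a1 claimC0
  have c1a := claimC1a c1a1
  have c2b1 := claimC2b1 claimC0
  have c2c : ClaimC2c := claimC2c (claimC2b claimC2b0 c2b1 (claimC2b2 claimC0 c2b1))
  exact claimX12 claimC0 c1a1 c1a (claimX2 c1a (claimC1c claimC1b claimN1) c2c) (claimX3 claimX1)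
    (claimX4 claimX5 claimX6 (claimX8 (claimX7 claimS1)) claimX9 claimX10)

end Pool.Agent.Work.MP_e0c7e8_nt.SM
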