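import Pool.Agent.Work.MP_e0c7e8_nt.SM.Stmts

/-!
# Torsion in class groups, few exceptions: statements
-/

set_option autoImplicit false

namespace Pool.Agent.Work.MP_e0c7e8_nt.SM

open Finset

/-- The number of primes up to `y` with `χ_d(p) = 1`. -/
def Pd (d : ℤ) (y : ℕ) : ℕ := ((Icc 1 y).filter (fun p => p.Prime ∧ chi d p = 1)).card

/-- The sieve weight `(sum over e | n, e ≤ R, of l e) ^ 2`. -/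
noncomputable def ww (R : ℕ) (l : ℕ → ℝ) (n : ℕ) : ℝ :=
  (∑ e ∈ (Icc 1 R).filter (fun e => e ∣ n), l e) ^ 2

/-- The main term of the sieve. -/
noncomputable def sm (R : ℕ) (l : ℕ → ℝ) : ℝ :=
  ∑ e ∈ Icc 1 R, ∑ f ∈ Icc 1 R, l e * l f / (Nat.lcm e f : ℝ)

/-- The sum of `1 / p` over the primes in `(W, Z]`. -/
noncomputable def qq (W Z : ℕ) : ℝ := ∑ p ∈ (Ioc W Z).filter Nat.Prime, (1 : ℝ) / p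

/-- Products of different elements are not squares. -/
def NSq (S : Finset ℤ) : Prop := ∀ d ∈ S, ∀ e ∈ S, d ≠ e → ¬ IsSquare (d * e)

/-- X1: many split primes give many ideals. -/
def ClaimX1 : Prop :=
  ∀ (d : ℤ) (y j x : ℕ), 1 ≤ j → y ^ j ≤ x → Pd d y ^ j ≤ j ^ j * MM d x

/-- X2: large torsion implies few ideals of small norm. -/
def ClaimX2 : Prop :=
  ∀ m : ℕ, 0 < m → ∀ ε : ℝ, 0 < ε → ∃ D : ℝ, 0 < D ∧ ∀ d : ℤ, d < 0 → (d % 4 = 0 ∨ d % 4 = 1) →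
    D ≤ |(d : ℝ)| →
    |(d : ℝ)| ^ ((1 : ℝ) / 2 - 1 / (2 * m) + ε) <
      (Nat.card {x : ClassGroup ↥(Od d) // x ^ m = 1} : ℝ) →
    (MM d ⌊(|(d : ℝ)| / 5) ^ ((1 : ℝ) / (2 * m))⌋₊ : ℝ) ≤ |(d : ℝ)| ^ ((1 : ℝ) / (2 * m) - ε / 2)

/-- X3: few ideals of small norm imply few split primes. -/
def ClaimX3 : Prop :=
  ∀ m : ℕ, 0 < m → ∀ ε : ℝ, 0 < ε → ε ≤ 1 → ∃ K : ℕ, 0 < K ∧ ∃ c : ℝ, 0 < c ∧ c < 1 / 2 ∧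
    ∃ X0 : ℝ, 1 ≤ X0 ∧ ∀ (X : ℝ) (d : ℤ), X0 ≤ X → X ^ ((1 : ℝ) / 2) ≤ |(d : ℝ)| →
      |(d : ℝ)| ≤ X →
      (MM d ⌊(|(d : ℝ)| / 5) ^ ((1 : ℝ) / (2 * m))⌋₊ : ℝ) ≤
        |(d : ℝ)| ^ ((1 : ℝ) / (2 * m) - ε / 2) →
      (Pd d ⌊X ^ ((1 : ℝ) / K)⌋₊ : ℝ) ≤ X ^ ((1 - c) / K)

/-- X4: a bounded number of fields with few split primes (Linnik). -/
def ClaimX4 : Prop :=
  ∀ K : ℕ, 0 < K → ∀ c : ℝ, 0 < c → c < 1 / 2 → ∃ J : ℕ, ∃ X0 : ℝ, 1 ≤ X0 ∧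
    ∀ (X : ℝ) (S : Finset ℤ), X0 ≤ X →
      (∀ d ∈ S, d ≠ 0 ∧ |(d : ℝ)| ≤ X ∧ (Pd d ⌊X ^ ((1 : ℝ) / K)⌋₊ : ℝ) ≤ X ^ ((1 - c) / K)) →
      NSq S → S.card ≤ J

/-- X5: Mertens. -/
def ClaimX5 : Prop :=
  ∀ c : ℝ, 0 < c → c < 1 → ∃ Z0 : ℝ, 1 ≤ Z0 ∧ ∀ Z : ℝ, Z0 ≤ Z →
    c / 4 ≤ qq ⌊Z ^ (1 - c)⌋₊ ⌊Z⌋₊

/-- X6: Selberg's weights. -/
def ClaimX6 : Prop :=
  ∀ R : ℕ, 1 ≤ R → ∃ l : ℕ → ℝ, l 1 = 1 ∧ (∀ e, |l e| ≤ R) ∧ sm R l ≤ 2 / Real.log (R + 1)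

/-- X7: weighted sums. -/
def ClaimX7 : Prop :=
  ∀ (R A B : ℕ) (l : ℕ → ℝ), 1 ≤ R → 2 * R ^ 2 ≤ A → A ≤ B → (∀ e, |l e| ≤ R) →
    (∀ D : ℤ, ¬ IsSquare D →
      |∑ n ∈ Ioc A B, ww R l n * (chi D n : ℝ) / n| ≤ 16 * R ^ 4 * |(D : ℝ)| / A) ∧
    ∑ n ∈ Ioc A B, ww R l n / n ≤ Real.log ((B : ℝ) / A) * sm R l + 8 * R ^ 4 / A

/-- X8: the dual large sieve. -/
def ClaimX8 : Prop :=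
  ∀ (R A B : ℕ) (l : ℕ → ℝ) (X : ℝ) (S : Finset ℤ), 1 ≤ R → 2 * R ^ 2 ≤ A → A ≤ B →
    (∀ e, |l e| ≤ R) → (∀ d ∈ S, |(d : ℝ)| ≤ X) → NSq S →
    ∑ n ∈ Ioc A B, ww R l n * (∑ d ∈ S, (chi d n : ℝ)) ^ 2 / n ≤
      S.card * (Real.log ((B : ℝ) / A) * sm R l + 8 * R ^ 4 / A) +
        (S.card : ℝ) ^ 2 * (16 * R ^ 4 * X ^ 2 / A)

/-- X9: products of `r` primes. -/
def ClaimX9 : Prop :=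
  ∀ (W Z r R : ℕ) (l : ℕ → ℝ) (S : Finset ℤ), 1 ≤ r → 1 ≤ R → R ≤ W → l 1 = 1 →
    (∑ d ∈ S, (∑ p ∈ (Ioc W Z).filter Nat.Prime, (chi d p : ℝ) / p) ^ r) ^ 2 ≤
      qq W Z ^ r * (r : ℝ) ^ r *
        ∑ n ∈ Ioc (W ^ r) (Z ^ r), ww R l n * (∑ d ∈ S, (chi d n : ℝ)) ^ 2 / n

/-- X10: few split primes make the sum of `χ_d(p) / p` negative. -/
def ClaimX10 : Prop :=
  ∀ (d : ℤ) (W Z : ℕ), d ≠ 0 → 2 ≤ W →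
    ∑ p ∈ (Ioc W Z).filter Nat.Prime, (chi d p : ℝ) / p ≤
      -qq W Z + (2 * Pd d Z + 2 * Real.log |(d : ℝ)|) / W

/-- The final theorem. -/
def ClaimX11 : Prop :=
  ∀ a m : ℕ, 0 < m → ∀ ε : ℝ, 0 < ε → ∃ C : ℝ, 0 < C ∧ ∀ X : ℝ, 3 ≤ X → ∀ S : Finset ℤ,
    (∀ d ∈ S, d < 0 ∧ (d % 4 = 0 ∨ d % 4 = 1) ∧ |(d : ℝ)| ≤ X ∧
      C * |(d : ℝ)| ^ ((1 : ℝ) / 2 - 1 / (2 * m) + ε) <
        (Nat.card {x : ClassGroup ↥(Od d) // x ^ (2 ^ a * m) = 1} : ℝ)) →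
    NSq S → (S.card : ℝ) ≤ C * (1 + Real.log (Real.log X))

end Pool.Agent.Work.MP_e0c7e8_nt.SM
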