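import Mathlib

/-!
# Torsion in class groups of orders with smooth discriminants: definitions
-/

set_option autoImplicit false

namespace Pool.Agent.Work.MP_e0c7e8_nt.SM

open Finset

/-- The generator `(d + i √|d|) / 2`. -/
noncomputable def tht (d : ℤ) : ℂ :=
  ((d : ℂ) + Complex.I * ((Real.sqrt (-(d : ℝ)) : ℝ) : ℂ)) / 2

/-- The order of discriminant `d < 0` (as in the frozen statement). -/
noncomputable abbrev Od (d : ℤ) : Subalgebra ℤ ℂ :=
  Algebra.adjoin ℤ ({((d : ℂ) + Complex.I * ((Real.sqrt (-(d : ℝ)) : ℝ) : ℂ)) / 2} : Set ℂ)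

/-- The generator as an element of the order. -/
noncomputable def th (d : ℤ) : ↥(Od d) := ⟨_, Algebra.subset_adjoin (Set.mem_singleton _)⟩

/-- The ideal `(p, n + θ)`. -/
noncomputable def Pi1 (d : ℤ) (p : ℕ) (n : ℤ) : Ideal ↥(Od d) :=
  Ideal.span {(p : ↥(Od d)), (n : ↥(Od d)) + th d}

/-- The conjugate ideal `(p, n + d - θ)`. -/
noncomputable def Pi2 (d : ℤ) (p : ℕ) (n : ℤ) : Ideal ↥(Od d) :=
  Ideal.span {(p : ↥(Od d)), (n : ↥(Od d)) + d - th d}

/-- The Jacobi symbol `(d | n)` for odd `n`, and `0` for even `n`. -/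
def chi (d : ℤ) (n : ℕ) : ℤ := if Odd n then jacobiSym d n else 0

/-- `1 * χ`. -/
def ff (d : ℤ) (a : ℕ) : ℤ := ∑ m ∈ a.divisors, chi d m

/-- The norm of `n + θ`; note `4 F = (2 n + d) ^ 2 - d`. -/
def FF (d n : ℤ) : ℤ := n ^ 2 + d * n + (d ^ 2 - d) / 4

/-- The number of roots of `F` modulo `a`. -/
def wt (d : ℤ) (a : ℕ) : ℕ := ((range a).filter (fun n : ℕ => (a : ℤ) ∣ FF d n)).card

/-- `2 ^ ω(a)` if all primes dividing `a` split (and are odd), otherwise `0`. -/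
def TT (d : ℤ) (a : ℕ) : ℕ :=
  if ∀ p ∈ a.primeFactors, chi d p = 1 then 2 ^ a.primeFactors.card else 0

/-- The number of primitive ideals of norm at most `x`, odd and prime to `d`. -/
def MM (d : ℤ) (x : ℕ) : ℕ := ∑ a ∈ Icc 1 x, TT d a

/-- The sum of `g` over the `N` integers from `M`. -/
noncomputable def isum (g : ℤ → ℝ) (M : ℤ) (N : ℕ) : ℝ := ∑ n ∈ Ico M (M + N), g n

/-- All sums over intervals with at most `N` elements are at most `B`. -/
def SB (g : ℤ → ℝ) (N : ℕ) (B : ℝ) : Prop := ∀ (M : ℤ) (L : ℕ), L ≤ N → |isum g M L| ≤ B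

/-- The product of the Jacobi symbols `(n + a | q)`, `a` in the list. -/
noncomputable def PJ (q : ℕ) (A : List ℤ) (n : ℤ) : ℝ :=
  (A.map (fun a : ℤ => ((jacobiSym (n + a) q : ℤ) : ℝ))).prod

/-- The number of entries of `A` in the residue class `r` modulo `l`. -/
def cnt (l : ℕ) (A : List ℤ) (r : ZMod l) : ℕ := (A.map (fun a : ℤ => (a : ZMod l))).count r

/-- The parity of `cnt` is not constant. -/
def Nc (l : ℕ) (A : List ℤ) : Prop := ∃ r r' : ZMod l, Odd (cnt l A r) ∧ ¬ Odd (cnt l A r')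

/-- `L(β, χ_d)` for `d` not a square. -/
noncomputable def LL (d : ℤ) (β : ℝ) : ℝ :=
  Filter.limUnder Filter.atTop
    (fun N : ℕ => ∑ n ∈ Icc 1 N, (chi d n : ℝ) * (n : ℝ) ^ (-β))

/-- `ζ(β)` for `0 < β < 1`. -/
noncomputable def zc (β : ℝ) : ℝ :=
  Filter.limUnder Filter.atTop
    (fun N : ℕ => ∑ n ∈ Icc 1 N, (n : ℝ) ^ (-β) - (N : ℝ) ^ (1 - β) / (1 - β))

/-- Smoothness: all primes dividing `d` to an odd power are at most `B`. -/
def Smo (d : ℤ) (B : ℝ) : Prop := ∀ p : ℕ, p.Prime → Odd (padicValInt p d) → (p : ℝ) ≤ B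

end Pool.Agent.Work.MP_e0c7e8_nt.SM
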