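import Pool.Agent.Work.MP_e0c7e8_nt.SM.Stmts
import Pool.Agent.Work.MP_e0c7e8_nt.SM.Basic

/-!
# Item F: final assembly
-/

set_option autoImplicit false

namespace Pool.Agent.Work.MP_e0c7e8_nt.SM

open Finset

theorem claimFinal (h1a : ClaimC1a) (h1c : ClaimC1c) (h2c : ClaimC2c) (h6 : ClaimN6) :
    ClaimFinal := by
  intro k hk η hη ε hε
  obtain ⟨c, hc, D, hD, h6'⟩ := h6 k hk η hη (ε / 2) (by positivity)
  obtain ⟨C1, hC1, h1c'⟩ := h1c (ε / 2) (by positivity)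
  set D' : ℝ := max D 5 with hD'
  refine ⟨C1 / c + C1 * D' ^ (1 / 2 + ε / 2), by positivity, ?_⟩
  intro d hd hd4 hsmo
  have hd0 : d ≠ 0 := by omega
  have habs1 : (1 : ℝ) ≤ |(d : ℝ)| := by
    have : (1 : ℤ) ≤ |d| := Int.one_le_abs hd0
    exact_mod_cast this
  have hnat : ((d.natAbs : ℕ) : ℝ) = |(d : ℝ)| := by
    rw [Nat.cast_natAbs]; push_cast; rfl
  obtain ⟨hfin, hcard⟩ := h1a d hd hd4
  have hcl : (Nat.card (ClassGroup ↥(Od d)) : ℝ) ≤ C1 * |(d : ℝ)| ^ (1 / 2 + ε / 2) := by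
    refine le_trans ?_ (h1c' d hd hd4)
    exact_mod_cast hcard
  have hk2 : (1 : ℝ) / (2 * k) ≤ 1 / 2 := by
    have : (1 : ℝ) ≤ k := by exact_mod_cast hk
    rw [div_le_div_iff₀ (by positivity) (by norm_num)]
    linarith
  have hpos : 0 < |(d : ℝ)| := by linarith
  have htor : (Nat.card {x : ClassGroup ↥(Od d) // x ^ k = 1} : ℝ) ≤
      Nat.card (ClassGroup ↥(Od d)) := by
    have := Finite.card_subtype_le (fun x : ClassGroup ↥(Od d) => x ^ k = 1)
    exact_mod_cast this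
  by_cases hbig : D' ≤ |(d : ℝ)|
  · have hD1 : D ≤ |(d : ℝ)| := (le_max_left _ _).trans hbig
    have hD5 : 5 ≤ |(d : ℝ)| := (le_max_right _ _).trans hbig
    set x : ℕ := ⌊(|(d : ℝ)| / 5) ^ ((1 : ℝ) / (2 * k))⌋₊ with hx
    have hM := h6' d hd hD1 hsmo
    rw [← hx] at hM
    have hx2 : 4 * x ^ (2 * k) < d.natAbs := by
      have h1 : (x : ℝ) ≤ (|(d : ℝ)| / 5) ^ ((1 : ℝ) / (2 * k)) := Nat.floor_le (by positivity)
      have h2 : (x : ℝ) ^ (2 * k) ≤ |(d : ℝ)| / 5 := by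
        calc (x : ℝ) ^ (2 * k) ≤ ((|(d : ℝ)| / 5) ^ ((1 : ℝ) / (2 * k))) ^ (2 * k) :=
              pow_le_pow_left₀ (by positivity) h1 _
          _ = |(d : ℝ)| / 5 := by
              rw [← Real.rpow_natCast, ← Real.rpow_mul (by positivity)]
              have : (1 : ℝ) / (2 * k) * ((2 * k : ℕ) : ℝ) = 1 := by
                push_cast
                have : (k : ℝ) ≠ 0 := by positivity
                field_simp
              rw [this, Real.rpow_one]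
      have h3 : (4 * x ^ (2 * k) : ℝ) < (d.natAbs : ℝ) := by
        rw [hnat]
        linarith
      exact_mod_cast h3
    have h2 := h2c d k x hd hd4 hk hx2 hfin
    have h2' : (Nat.card {y : ClassGroup ↥(Od d) // y ^ k = 1} : ℝ) * (MM d x : ℝ) ≤
        Nat.card (ClassGroup ↥(Od d)) := by exact_mod_cast h2
    have hMpos : 0 < c * |(d : ℝ)| ^ ((1 : ℝ) / (2 * k) - ε / 2) := by positivity
    have hMM : 0 < (MM d x : ℝ) := lt_of_lt_of_le hMpos hM
    have h3 : (Nat.card {y : ClassGroup ↥(Od d) // y ^ k = 1} : ℝ) ≤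
        (C1 * |(d : ℝ)| ^ (1 / 2 + ε / 2)) / (c * |(d : ℝ)| ^ ((1 : ℝ) / (2 * k) - ε / 2)) := by
      rw [le_div_iff₀ hMpos]
      calc (Nat.card {y : ClassGroup ↥(Od d) // y ^ k = 1} : ℝ) *
            (c * |(d : ℝ)| ^ ((1 : ℝ) / (2 * k) - ε / 2))
          ≤ (Nat.card {y : ClassGroup ↥(Od d) // y ^ k = 1} : ℝ) * (MM d x : ℝ) :=
            mul_le_mul_of_nonneg_left hM (by positivity)
        _ ≤ Nat.card (ClassGroup ↥(Od d)) := h2'
        _ ≤ _ := hcl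
    have h4 : (C1 * |(d : ℝ)| ^ (1 / 2 + ε / 2)) / (c * |(d : ℝ)| ^ ((1 : ℝ) / (2 * k) - ε / 2)) =
        C1 / c * |(d : ℝ)| ^ ((1 : ℝ) / 2 - 1 / (2 * k) + ε) := by
      rw [mul_div_mul_comm, ← Real.rpow_sub hpos]
      congr 2
      ring
    rw [h4] at h3
    refine h3.trans ?_
    apply mul_le_mul_of_nonneg_right _ (by positivity)
    have : 0 ≤ C1 * D' ^ (1 / 2 + ε / 2) := by positivity
    linarith
  · have hsmall : |(d : ℝ)| ≤ D' := (not_le.1 hbig).le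
    have h5 : (1 : ℝ) ≤ |(d : ℝ)| ^ ((1 : ℝ) / 2 - 1 / (2 * k) + ε) :=
      Real.one_le_rpow habs1 (by linarith)
    have h6 : C1 * |(d : ℝ)| ^ (1 / 2 + ε / 2) ≤ C1 * D' ^ (1 / 2 + ε / 2) := by
      apply mul_le_mul_of_nonneg_left _ hC1.le
      exact Real.rpow_le_rpow (by positivity) hsmall (by positivity)
    calc (Nat.card {x : ClassGroup ↥(Od d) // x ^ k = 1} : ℝ)
        ≤ C1 * D' ^ (1 / 2 + ε / 2) := (htor.trans hcl).trans h6
      _ ≤ (C1 / c + C1 * D' ^ (1 / 2 + ε / 2)) * 1 := by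
          have : 0 ≤ C1 / c := by positivity
          linarith
      _ ≤ _ := mul_le_mul_of_nonneg_left h5 (by positivity)

end Pool.Agent.Work.MP_e0c7e8_nt.SM
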