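import Pool.Agent.Work.MP_e0c7e8_nt.SM.Stmts
import Pool.Agent.Work.MP_e0c7e8_nt.SM.Basic
import Pool.Agent.Work.MP_e0aece_nt.Bd.B02

/-!
# Item G1: complete character sums modulo a prime, from Weil's bound
-/

set_option autoImplicit false

namespace Pool.Agent.Work.MP_e0c7e8_nt.SM

open Finset

namespace ItemG1

variable {l : ℕ} [Fact l.Prime]

/-- The real quadratic character. -/
noncomputable def qc (l : ℕ) [Fact l.Prime] (y : ZMod l) : ℝ := ((quadraticChar (ZMod l) y : ℤ) : ℝ)

lemma cnt_zero_iff (A : List ℤ) (r : ZMod l) :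
    cnt l A r = 0 ↔ r ∉ (A.map (fun a : ℤ => (a : ZMod l))) := by
  unfold cnt
  exact List.count_eq_zero

lemma sum_cnt (A : List ℤ) : ∑ r : ZMod l, cnt l A r = A.length := by
  induction A with
  | nil => simp [cnt]
  | cons a A ih =>
    have h : ∀ r : ZMod l, cnt l (a :: A) r = cnt l A r + (if r = (a : ZMod l) then 1 else 0) := by
      intro r
      unfold cnt
      rw [List.map_cons, List.count_cons]
      by_cases hr : r = (a : ZMod l)
      · subst hr; simp
      · have hr' : ¬ ((a : ZMod l) = r) := fun h => hr h.symm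
        simp [hr, hr']
    rw [Finset.sum_congr rfl (fun r _ => h r), Finset.sum_add_distrib, ih,
      Finset.sum_ite_eq' Finset.univ (a : ZMod l) (fun _ => 1)]
    simp

lemma prod_eq (A : List ℤ) (x : ZMod l) :
    (A.map (fun a : ℤ => ((quadraticChar (ZMod l) (x + (a : ZMod l)) : ℤ) : ℝ))).prod =
      ∏ r : ZMod l, qc l (x + r) ^ cnt l A r := by
  induction A with
  | nil => simp [cnt]
  | cons a A ih =>
    have h : ∀ r : ZMod l, cnt l (a :: A) r = cnt l A r + (if r = (a : ZMod l) then 1 else 0) := by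
      intro r
      unfold cnt
      rw [List.map_cons, List.count_cons]
      by_cases hr : r = (a : ZMod l)
      · subst hr; simp
      · have hr' : ¬ ((a : ZMod l) = r) := fun h => hr h.symm
        simp [hr, hr']
    rw [List.map_cons, List.prod_cons, ih]
    have h2 : ∀ r : ZMod l, qc l (x + r) ^ cnt l (a :: A) r =
        qc l (x + r) ^ cnt l A r * (if r = (a : ZMod l) then qc l (x + r) else 1) := by
      intro r
      rw [h r, pow_add]
      congr 1
      by_cases hr : r = (a : ZMod l) <;> simp [hr]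
    rw [Finset.prod_congr rfl (fun r _ => h2 r), Finset.prod_mul_distrib,
      Finset.prod_ite_eq' Finset.univ (a : ZMod l) (fun r => qc l (x + r))]
    simp only [Finset.mem_univ, if_true]
    unfold qc
    ring

lemma qc_cases (y : ZMod l) : (y = 0 ∧ qc l y = 0) ∨ (y ≠ 0 ∧ (qc l y = 1 ∨ qc l y = -1)) := by
  by_cases hy : y = 0
  · left
    refine ⟨hy, ?_⟩
    unfold qc
    rw [hy, quadraticChar_zero]
    simp
  · right
    refine ⟨hy, ?_⟩
    rcases quadraticChar_dichotomy hy with h | h
    · left; unfold qc; rw [h]; simp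
    · right; unfold qc; rw [h]; simp

lemma qc_abs_le (y : ZMod l) : |qc l y| ≤ 1 := by
  rcases qc_cases y with ⟨_, h⟩ | ⟨_, h | h⟩ <;> rw [h] <;> norm_num

lemma qc_odd (y : ZMod l) (k : ℕ) (hk : Odd k) : qc l y ^ k = qc l y := by
  rcases qc_cases y with ⟨_, h⟩ | ⟨_, h | h⟩
  · rw [h, zero_pow]
    rintro rfl
    exact absurd hk (by decide)
  · rw [h, one_pow]
  · rw [h, hk.neg_one_pow]

lemma qc_even (y : ZMod l) (hy : y ≠ 0) (k : ℕ) (hk : ¬ Odd k) : qc l y ^ k = 1 := by
  have hk' : Even k := Nat.not_odd_iff_even.1 hk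
  rcases qc_cases y with ⟨h0, _⟩ | ⟨_, h | h⟩
  · exact absurd h0 hy
  · rw [h, one_pow]
  · rw [h, hk'.neg_one_pow]

/-- Weil's bound for products over a set of shifts. -/
lemma weil_set (hW : Pool.Agent.Work.MP_e0aece_nt.Sq.ClaimWeil) (hl : l ≠ 2)
    (O : Finset (ZMod l)) (hO : O.Nonempty) :
    |∑ x : ZMod l, ∏ r ∈ O, qc l (x + r)| ≤ (O.card : ℝ) * Real.sqrt l := by
  classical
  set χ : MulChar (ZMod l) ℂ := (quadraticChar (ZMod l)).ringHomComp (Int.castRingHom ℂ) with hχ
  have hne : χ ≠ 1 := by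
    intro h
    have hq : quadraticChar (ZMod l) ≠ 1 := by
      apply quadraticChar_ne_one
      rw [ZMod.ringChar_zmod_n]
      exact hl
    apply hq
    ext y
    have h1 := congrArg (fun ψ : MulChar (ZMod l) ℂ => ψ y) h
    simp only [hχ, MulChar.ringHomComp_apply, MulChar.one_apply_coe] at h1
    rw [MulChar.one_apply_coe]
    have h2 : (((quadraticChar (ZMod l)) (y : ZMod l) : ℤ) : ℂ) = ((1 : ℤ) : ℂ) := by
      simpa using h1
    exact_mod_cast h2
  have hcard : 1 ≤ O.card := Finset.card_pos.2 hO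
  have key := hW l O.card (fun j => - ((O.equivFin.symm j : O) : ZMod l)) (fun _ => χ) hcard
    (by
      intro i j hij
      have h1 : ((O.equivFin.symm i : O) : ZMod l) = ((O.equivFin.symm j : O) : ZMod l) :=
        neg_injective hij
      exact O.equivFin.symm.injective (Subtype.ext h1))
    (fun _ => hne)
  have e : (∑ x : ZMod l, ∏ j : Fin O.card, χ (x - - ((O.equivFin.symm j : O) : ZMod l))) =
      ((∑ x : ZMod l, ∏ r ∈ O, qc l (x + r) : ℝ) : ℂ) := by
    push_cast
    refine Finset.sum_congr rfl fun x _ => ?_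
    have e1 : ∏ j : Fin O.card, χ (x - - ((O.equivFin.symm j : O) : ZMod l)) =
        ∏ r : O, χ (x + (r : ZMod l)) := by
      refine Fintype.prod_equiv O.equivFin.symm _ _ (fun j => ?_)
      rw [sub_neg_eq_add]
    rw [e1, ← Finset.prod_coe_sort O (fun r => ((qc l (x + r) : ℝ) : ℂ))]
    refine Finset.prod_congr rfl fun r _ => ?_
    rw [hχ, MulChar.ringHomComp_apply]
    unfold qc
    simp
  rw [e, Complex.norm_real, Real.norm_eq_abs] at key
  exact key

end ItemG1

open ItemG1 in
theorem claimG1 (hW : Pool.Agent.Work.MP_e0aece_nt.Sq.ClaimWeil) : ClaimG1 := by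
  classical
  intro l _ hl A hA
  set O : Finset (ZMod l) := Finset.univ.filter (fun r => Odd (cnt l A r)) with hO
  set E : Finset (ZMod l) := Finset.univ.filter (fun r => ¬ Odd (cnt l A r) ∧ 0 < cnt l A r) with hE
  have hOne : O.Nonempty := by
    obtain ⟨r, hr⟩ := hA
    exact ⟨r, Finset.mem_filter.2 ⟨Finset.mem_univ _, hr⟩⟩
  -- pointwise
  have hpt : ∀ x : ZMod l,
      |(A.map (fun a : ℤ => ((quadraticChar (ZMod l) (x + (a : ZMod l)) : ℤ) : ℝ))).prod -
        ∏ r ∈ O, qc l (x + r)| ≤ ∑ r ∈ E, (if x = -r then (1 : ℝ) else 0) := by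
    intro x
    rw [prod_eq]
    have hsplit : ∏ r : ZMod l, qc l (x + r) ^ cnt l A r =
        (∏ r ∈ O, qc l (x + r)) * ∏ r ∈ E, qc l (x + r) ^ cnt l A r := by
      have h1 : ∏ r : ZMod l, qc l (x + r) ^ cnt l A r =
          (∏ r ∈ Finset.univ.filter (fun r => Odd (cnt l A r)), qc l (x + r) ^ cnt l A r) *
          ∏ r ∈ Finset.univ.filter (fun r => ¬ Odd (cnt l A r)), qc l (x + r) ^ cnt l A r :=
        (Finset.prod_filter_mul_prod_filter_not _ _ _).symm
      rw [h1]
      congr 1
      · exact Finset.prod_congr rfl fun r hr => qc_odd _ _ (Finset.mem_filter.1 hr).2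
      · symm
        apply Finset.prod_subset
        · intro r hr
          exact Finset.mem_filter.2 ⟨Finset.mem_univ _, (Finset.mem_filter.1 hr).2.1⟩
        · intro r hr hr2
          have h2 := (Finset.mem_filter.1 hr).2
          have h3 : cnt l A r = 0 := by
            by_contra h4
            exact hr2 (Finset.mem_filter.2 ⟨Finset.mem_univ _, h2, Nat.pos_of_ne_zero h4⟩)
          rw [h3, pow_zero]
    rw [hsplit]
    have hg : |∏ r ∈ O, qc l (x + r)| ≤ 1 := by
      rw [Finset.abs_prod]
      exact Finset.prod_le_one (fun _ _ => abs_nonneg _) (fun r _ => qc_abs_le _)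
    by_cases hx : ∃ r ∈ E, x = -r
    · obtain ⟨r0, hr0, hx0⟩ := hx
      have hzero : ∏ r ∈ E, qc l (x + r) ^ cnt l A r = 0 := by
        apply Finset.prod_eq_zero hr0
        have h1 : x + r0 = 0 := by rw [hx0]; ring
        have h2 : qc l (x + r0) = 0 := by
          unfold qc; rw [h1, quadraticChar_zero]; simp
        rw [h2, zero_pow]
        exact (Finset.mem_filter.1 hr0).2.2.ne'
      rw [hzero, mul_zero, zero_sub, abs_neg]
      refine hg.trans ?_
      have h3 : (if x = -r0 then (1 : ℝ) else 0) ≤ ∑ r ∈ E, (if x = -r then (1 : ℝ) else 0) :=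
        Finset.single_le_sum (f := fun r => if x = -r then (1 : ℝ) else 0)
          (fun r _ => by split_ifs <;> norm_num) hr0
      rw [if_pos hx0] at h3
      exact h3
    · push Not at hx
      have hone : ∏ r ∈ E, qc l (x + r) ^ cnt l A r = 1 := by
        apply Finset.prod_eq_one
        intro r hr
        apply qc_even
        · intro h
          exact hx r hr (eq_neg_of_add_eq_zero_left h)
        · exact (Finset.mem_filter.1 hr).2.1
      rw [hone, mul_one, sub_self, abs_zero]
      exact Finset.sum_nonneg fun r _ => by split_ifs <;> norm_num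
  have hdiff : |∑ x : ZMod l,
      (A.map (fun a : ℤ => ((quadraticChar (ZMod l) (x + (a : ZMod l)) : ℤ) : ℝ))).prod -
      ∑ x : ZMod l, ∏ r ∈ O, qc l (x + r)| ≤ E.card := by
    rw [← Finset.sum_sub_distrib]
    refine (Finset.abs_sum_le_sum_abs _ _).trans ?_
    refine (Finset.sum_le_sum fun x _ => hpt x).trans ?_
    rw [Finset.sum_comm]
    have : ∀ r ∈ E, ∑ x : ZMod l, (if x = -r then (1 : ℝ) else 0) = 1 := by
      intro r _
      rw [Finset.sum_ite_eq' Finset.univ (-r) (fun _ => (1 : ℝ))]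
      simp
    rw [Finset.sum_congr rfl this]
    simp
  have hweil := weil_set hW hl O hOne
  have hlen : O.card + E.card ≤ A.length := by
    rw [← sum_cnt (l := l) A]
    have hdisj : Disjoint O E := by
      rw [Finset.disjoint_left]
      intro r h1 h2
      exact (Finset.mem_filter.1 h2).2.1 (Finset.mem_filter.1 h1).2
    rw [← Finset.card_union_of_disjoint hdisj, Finset.card_eq_sum_ones]
    refine (Finset.sum_le_sum (fun r hr => ?_)).trans
      (Finset.sum_le_sum_of_subset (Finset.subset_univ (O ∪ E)))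
    rcases Finset.mem_union.1 hr with h | h
    · have h1 := (Finset.mem_filter.1 h).2
      exact h1.pos
    · exact (Finset.mem_filter.1 h).2.2
  have hs : (1 : ℝ) ≤ Real.sqrt l := by
    rw [Real.one_le_sqrt]
    exact_mod_cast (Fact.out : l.Prime).one_lt.le
  have h5 := abs_sub_abs_le_abs_sub (∑ x : ZMod l,
      (A.map (fun a : ℤ => ((quadraticChar (ZMod l) (x + (a : ZMod l)) : ℤ) : ℝ))).prod)
      (∑ x : ZMod l, ∏ r ∈ O, qc l (x + r))
  have h6 : (O.card : ℝ) + E.card ≤ A.length := by exact_mod_cast hlen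
  have h7 : (E.card : ℝ) ≤ E.card * Real.sqrt l := by
    have : (0 : ℝ) ≤ E.card := Nat.cast_nonneg _
    nlinarith
  have h8 : ((O.card : ℝ) + E.card) * Real.sqrt l ≤ A.length * Real.sqrt l :=
    mul_le_mul_of_nonneg_right h6 (by linarith)
  nlinarith

end Pool.Agent.Work.MP_e0c7e8_nt.SM
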