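import Pool.Agent.Work.MP_e0c7e8_nt.SM.Stmts
import Pool.Agent.Work.MP_e0c7e8_nt.SM.Basic
import Pool.Agent.Work.MP_e0c7e8_nt.Sm.Comp

/-!
# Item G2: complete sums, from the bound of helper16
-/

set_option autoImplicit false

namespace Pool.Agent.Work.MP_e0c7e8_nt.SM

open Finset

namespace ItemG2x

open Pool.Agent.Work.MP_e0c7e8_nt.Sm

lemma cc_eq (p : ℕ) (A : List ℤ) (x : ZMod p) : cc p A x = ((cnt p A x : ℕ) : ZMod 2) := by
  unfold cc cnt
  induction A with
  | nil => simp
  | cons a A ih =>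
    rw [List.map_cons, List.sum_cons, ih, List.map_cons, List.count_cons]
    push_cast
    rw [add_comm]
    congr 1
    by_cases h : (a : ZMod p) = x
    · simp [h]
    · simp [h]

lemma not_nc_of_dg {p : ℕ} {A : List ℤ} (h : dg p A) : ¬ Nc p A := by
  rintro ⟨r, r', hr, hr'⟩
  have h1 := h r r'
  rw [cc_eq, cc_eq] at h1
  have h2 : ((cnt p A r : ℕ) : ZMod 2) = 1 := (ZMod.natCast_eq_one_iff_odd).2 hr
  rw [h2] at h1
  exact hr' ((ZMod.natCast_eq_one_iff_odd).1 h1.symm)

lemma Dg_le {m : ℕ} {A : List ℤ} {u : ℕ} (hu : 0 < u)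
    (hbad : ∀ l : ℕ, l.Prime → l ∣ m → ¬ Nc l A → l ∣ u) : Dg m A ≤ u := by
  classical
  unfold Dg
  rw [← Finset.prod_filter]
  have h1 : (∏ p ∈ m.primeFactors.filter (fun p => dg p A), p) ∣ u := by
    apply Finset.prod_primes_dvd
    · intro p hp
      rw [mem_filter] at hp
      exact (Nat.prime_of_mem_primeFactors hp.1).prime
    · intro p hp
      rw [mem_filter] at hp
      exact hbad p (Nat.prime_of_mem_primeFactors hp.1) (Nat.dvd_of_mem_primeFactors hp.1)
        (not_nc_of_dg hp.2)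
  have h2 := Nat.le_of_dvd hu h1
  have h3 : ((∏ p ∈ m.primeFactors.filter (fun p => dg p A), p : ℕ) : ℝ) ≤ u := by exact_mod_cast h2
  rw [Nat.cast_prod] at h3
  exact h3

end ItemG2x

open ItemG2x Pool.Agent.Work.MP_e0c7e8_nt.Sm in
theorem claimG2x : ClaimG2 := by
  intro m hmo hms A u hu hA hbad
  have hm0 : m ≠ 0 := hmo.pos.ne'
  have hne : NeZero m := ⟨hm0⟩
  have hL : 1 ≤ A.length := List.length_pos_iff.2 hA
  have h1 := CS_bound A hL m hne hms hmo
  have h2 := sum_period m (gz m A) 0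
  have h3 : ∑ x ∈ range m, PJ m A x = CS m A := by
    unfold CS
    rw [← h2, zero_add]
    refine Finset.sum_nbij' (fun x : ℕ => (x : ℤ)) (fun x : ℤ => x.toNat) ?_ ?_ ?_ ?_ ?_
    · intro x hx
      rw [mem_range] at hx
      rw [mem_Ico]
      omega
    · intro x hx
      rw [mem_Ico] at hx
      rw [mem_range]
      omega
    · intro x _
      simp
    · intro x hx
      rw [mem_Ico] at hx
      exact Int.toNat_of_nonneg hx.1
    · intro x _
      rw [gz_intCast]
      rfl
  rw [h3]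
  refine h1.trans ?_
  apply mul_le_mul_of_nonneg_left _ (by positivity)
  apply Real.sqrt_le_sqrt
  exact mul_le_mul_of_nonneg_left (Dg_le hu hbad) (Nat.cast_nonneg m)

end Pool.Agent.Work.MP_e0c7e8_nt.SM
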