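import Pool.Agent.Work.MP_e0c7e8_nt.SM.Stmts
import Pool.Agent.Work.MP_e0c7e8_nt.SM.Basic

/-!
# Item G9: the symbol of a squarefree number in terms of its odd part
-/

set_option autoImplicit false

namespace Pool.Agent.Work.MP_e0c7e8_nt.SM

open Finset

namespace ItemG9

/-- the factor which depends on `n` modulo `8` -/
noncomputable def psi (a : ℤ) (q : ℕ) (n : ℤ) : ℝ :=
  if Odd (n % 8).toNat then
    ((jacobiSym a (n % 8).toNat * (-1) ^ (q / 2 * ((n % 8).toNat / 2)) : ℤ) : ℝ) else 0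

lemma psi_abs (a : ℤ) (q : ℕ) (n : ℤ) : |psi a q n| ≤ 1 := by
  unfold psi
  split_ifs
  · rw [← Int.cast_abs, abs_mul]
    have h2 : |(-1 : ℤ) ^ (q / 2 * ((n % 8).toNat / 2))| = 1 := by
      rw [abs_pow]; simp
    rw [h2, mul_one]
    rcases jacobiSym.trichotomy a (n % 8).toNat with h | h | h <;> rw [h] <;> simp
  · simp

lemma psi_per (a : ℤ) (q : ℕ) (n : ℤ) : psi a q (n + 8) = psi a q n := by
  unfold psi
  have : (n + 8) % 8 = n % 8 := by omega
  rw [this]

lemma sign_mod (q n : ℕ) : (-1 : ℤ) ^ (q / 2 * (n / 2)) = (-1) ^ (q / 2 * (n % 8 / 2)) := by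
  have h : n / 2 = 4 * (n / 8) + n % 8 / 2 := by omega
  have h2 : q / 2 * (n / 2) = 2 * (2 * (q / 2 * (n / 8))) + q / 2 * (n % 8 / 2) := by
    rw [h]; ring
  rw [h2, pow_add, pow_mul]
  simp

lemma jac_mod {a : ℤ} (ha : 4 * a.natAbs ∣ 8) {n : ℕ} (hn : Odd n) :
    jacobiSym a n = jacobiSym a (n % 8) := by
  have h1 : Odd (n % 8) := by
    rw [Nat.odd_iff] at hn ⊢
    omega
  rw [jacobiSym.mod_right a hn, jacobiSym.mod_right a h1, Nat.mod_mod_of_dvd n ha]

lemma key {a : ℤ} (ha : 4 * a.natAbs ∣ 8) {q : ℕ} (hq : Odd q) (n : ℕ) :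
    (chi (a * q) n : ℝ) = psi a q n * ((jacobiSym n q : ℤ) : ℝ) := by
  have hr : ((n : ℤ) % 8).toNat = n % 8 := by omega
  unfold psi
  rw [hr]
  by_cases hn : Odd n
  · have h1 : Odd (n % 8) := by
      rw [Nat.odd_iff] at hn ⊢
      omega
    rw [if_pos h1, chi_of_odd hn, jacobiSym.mul_left, jac_mod ha hn,
      jacobiSym.quadratic_reciprocity hq hn, sign_mod]
    push_cast
    ring
  · have h1 : ¬ Odd (n % 8) := by
      rw [Nat.odd_iff] at hn ⊢
      omega
    rw [if_neg h1, chi_of_not_odd hn]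
    simp

end ItemG9

open ItemG9 in
theorem claimG9 : ClaimG9 := by
  intro d hd
  have hm : Squarefree d.natAbs := Int.squarefree_natAbs.2 hd
  have hd0 : d ≠ 0 := hd.ne_zero
  have hsign : (Int.sign d).natAbs = 1 := Int.natAbs_sign_of_ne_zero hd0
  have hdec : d = Int.sign d * (d.natAbs : ℤ) := by
    have := Int.sign_mul_natAbs d
    exact this.symm
  rcases Nat.even_or_odd d.natAbs with he | ho
  · obtain ⟨q, hq⟩ := he.two_dvd
    have hqo : Odd q := by
      rcases Nat.even_or_odd q with h | h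
      · exfalso
        obtain ⟨r, hr⟩ := h.two_dvd
        have h4 : 2 * 2 ∣ d.natAbs := ⟨r, by rw [hq, hr]; ring⟩
        have := hm 2 h4
        simp at this
      · exact h
    refine ⟨q, psi (Int.sign d * 2) q, hqo, ?_, ?_, ?_, psi_abs _ _, psi_per _ _, ?_⟩
    · rw [hq] at hm
      exact hm.of_mul_right
    · rw [hq]; exact Dvd.intro_left 2 rfl
    · rw [hq]
    · intro n
      have h1 : d = (Int.sign d * 2) * (q : ℤ) := by
        conv_lhs => rw [hdec, hq]
        push_cast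
        ring
      have h2 : 4 * (Int.sign d * 2).natAbs ∣ 8 := by
        rw [Int.natAbs_mul, hsign]
        decide
      have h3 := key h2 hqo n
      rw [← h1] at h3
      exact h3
  · refine ⟨d.natAbs, psi (Int.sign d) d.natAbs, ho, hm, dvd_rfl, by omega, psi_abs _ _,
      psi_per _ _, ?_⟩
    intro n
    have h2 : 4 * (Int.sign d).natAbs ∣ 8 := by
      rw [hsign]
      decide
    have h3 := key h2 ho n
    rw [← hdec] at h3
    exact h3

end Pool.Agent.Work.MP_e0c7e8_nt.SM
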