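import Pool.Agent.Work.MP_e0c7e8_nt.SM.ItemC2b2

/-!
# Item H1: an ideal whose square is principal
-/

set_option autoImplicit false

namespace Pool.Agent.Work.MP_e0c7e8_nt.SM

open Finset

namespace ItemH

open ItemC2b2

lemma th_sq {d : ℤ} (hth : th d * ((d : ↥(Od d)) - th d) = (((d ^ 2 - d) / 4 : ℤ) : ↥(Od d))) :
    th d * th d = (d : ↥(Od d)) * th d - (((d ^ 2 - d) / 4 : ℤ) : ↥(Od d)) := by
  rw [← hth]; ring

/-- Membership in the ideal `(a, n + θ)`. -/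
lemma mem_dvd {d : ℤ} (hd : d < 0)
    (hrep : ∀ z : ↥(Od d), ∃ u v : ℤ, z = (u : ↥(Od d)) + (v : ↥(Od d)) * th d)
    (hnb : ∀ u v : ℤ, (v : ℝ) ^ 2 * |(d : ℝ)| ≤
      4 * Complex.normSq (((u : ↥(Od d)) + (v : ↥(Od d)) * th d : ↥(Od d)) : ℂ))
    (hth : th d * ((d : ↥(Od d)) - th d) = (((d ^ 2 - d) / 4 : ℤ) : ↥(Od d)))
    (a : ℕ) (n : ℤ) (hdiv : (a : ℤ) ∣ FF d n) (u v : ℤ)
    (hz : (u : ↥(Od d)) + (v : ↥(Od d)) * th d ∈ Pi1 d a n) : (a : ℤ) ∣ u - n * v := by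
  unfold Pi1 at hz
  rw [Ideal.mem_span_pair] at hz
  obtain ⟨x, y, hxy⟩ := hz
  obtain ⟨x1, x2, rfl⟩ := hrep x
  obtain ⟨y1, y2, rfl⟩ := hrep y
  have hs := th_sq hth
  set c0 : ℤ := (d ^ 2 - d) / 4 with hc0
  have h1 : (u : ↥(Od d)) + (v : ↥(Od d)) * th d =
      ((a * x1 + (y1 * n - y2 * c0) : ℤ) : ↥(Od d)) +
        ((a * x2 + (y1 + y2 * n + y2 * d) : ℤ) : ↥(Od d)) * th d := by
    rw [← hxy]
    push_cast
    linear_combination (y2 : ↥(Od d)) * hs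
  obtain ⟨h2, h3⟩ := coord hd hnb h1
  obtain ⟨c, hc⟩ := hdiv
  refine ⟨x1 - n * x2 - y2 * c, ?_⟩
  rw [h2, h3]
  unfold FF at hc
  rw [← hc0] at hc
  linear_combination -y2 * hc

/-- The content of an ideal with principal square is one. -/
lemma content {d : ℤ} (hd : d < 0)
    (hrep : ∀ z : ↥(Od d), ∃ u v : ℤ, z = (u : ↥(Od d)) + (v : ↥(Od d)) * th d)
    (hnb : ∀ u v : ℤ, (v : ℝ) ^ 2 * |(d : ℝ)| ≤
      4 * Complex.normSq (((u : ↥(Od d)) + (v : ↥(Od d)) * th d : ↥(Od d)) : ℂ))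
    (hth : th d * ((d : ↥(Od d)) - th d) = (((d ^ 2 - d) / 4 : ℤ) : ↥(Od d)))
    (a : ℕ) (n c : ℤ) (hc : FF d n = a * c) (w : ↥(Od d)) (hw : w ≠ 0)
    (hI : Pi1 d a n * Pi1 d a n = Ideal.span {w}) (g : ℤ) (h1 : g ∣ a) (h2 : g ∣ 2 * n + d)
    (h3 : g ∣ c) : g ∣ 1 := by
  obtain ⟨a', ha'⟩ := h1
  obtain ⟨m', hm'⟩ := h2
  obtain ⟨c', hc'⟩ := h3
  have hs := th_sq hth
  have haO : (a : ↥(Od d)) = (g : ↥(Od d)) * (a' : ↥(Od d)) := by
    have : ((a : ℤ) : ↥(Od d)) = ((g * a' : ℤ) : ↥(Od d)) := by rw [ha']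
    push_cast at this
    exact this
  have hmO : 2 * (n : ↥(Od d)) + (d : ↥(Od d)) = (g : ↥(Od d)) * (m' : ↥(Od d)) := by
    have : ((2 * n + d : ℤ) : ↥(Od d)) = ((g * m' : ℤ) : ↥(Od d)) := by rw [hm']
    push_cast at this
    exact this
  have hFO : (n : ↥(Od d)) * n + d * n + (((d ^ 2 - d) / 4 : ℤ) : ↥(Od d)) =
      (a : ↥(Od d)) * ((g : ↥(Od d)) * (c' : ↥(Od d))) := by
    have : ((n ^ 2 + d * n + (d ^ 2 - d) / 4 : ℤ) : ↥(Od d)) = ((a * (g * c') : ℤ) : ↥(Od d)) := by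
      rw [← hc', ← hc]; rfl
    push_cast at this
    push_cast
    linear_combination this
  have hsq : ((n : ↥(Od d)) + th d) * ((n : ↥(Od d)) + th d) =
      (g : ↥(Od d)) * ((m' : ↥(Od d)) * ((n : ↥(Od d)) + th d) - (c' : ↥(Od d)) * a) := by
    linear_combination hs - hFO + ((n : ↥(Od d)) + th d) * hmO
  have hle : Ideal.span {(n : ↥(Od d)) + th d} * Pi1 d a n ≤
      Ideal.span {(g : ↥(Od d))} * Pi1 d a n := by
    rw [Ideal.mul_le]
    intro r hr s hs'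
    rw [Ideal.mem_span_singleton'] at hr
    obtain ⟨r', rfl⟩ := hr
    have hs2 := hs'
    unfold Pi1 at hs2
    rw [Ideal.mem_span_pair] at hs2
    obtain ⟨x, y, hxy⟩ := hs2
    have hA : (a : ↥(Od d)) ∈ Pi1 d a n := Ideal.subset_span (by simp)
    have hN : (n : ↥(Od d)) + th d ∈ Pi1 d a n := Ideal.subset_span (by simp)
    have e : r' * ((n : ↥(Od d)) + th d) * s = (g : ↥(Od d)) *
        ((r' * x * a' + r' * y * m') * ((n : ↥(Od d)) + th d) + (-(r' * y * c')) * (a : ↥(Od d))) := by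
      rw [← hxy]
      linear_combination (r' * ((n : ↥(Od d)) + th d) * x) * haO + (r' * y) * hsq
    rw [e]
    exact Ideal.mul_mem_mul (Ideal.mem_span_singleton_self _)
      (Ideal.add_mem _ (Ideal.mul_mem_left _ _ hN) (Ideal.mul_mem_left _ _ hA))
  have hle2 : Ideal.span {((n : ↥(Od d)) + th d) * w} ≤ Ideal.span {(g : ↥(Od d)) * w} := by
    rw [← Ideal.span_singleton_mul_span_singleton, ← Ideal.span_singleton_mul_span_singleton,
      ← hI, ← mul_assoc, ← mul_assoc]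
    exact Ideal.mul_mono_left hle
  rw [Ideal.span_singleton_le_span_singleton] at hle2
  obtain ⟨z, hz⟩ := hle2
  have hz2 : (n : ↥(Od d)) + th d = (g : ↥(Od d)) * z := by
    apply mul_right_cancel₀ hw
    rw [hz]; ring
  obtain ⟨z1, z2, rfl⟩ := hrep z
  have h4 : (n : ↥(Od d)) + ((1 : ℤ) : ↥(Od d)) * th d = ((g * z1 : ℤ) : ↥(Od d)) +
      ((g * z2 : ℤ) : ↥(Od d)) * th d := by
    push_cast
    linear_combination hz2
  exact ⟨z2, (coord hd hnb h4).2⟩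

/-- The product of the ideal and its conjugate. -/
lemma mul_conj {d : ℤ}
    (hth : th d * ((d : ↥(Od d)) - th d) = (((d ^ 2 - d) / 4 : ℤ) : ↥(Od d)))
    (a : ℕ) (n c : ℤ) (hc : FF d n = a * c)
    (x y z : ℤ) (hxyz : (a : ℤ) * x + (2 * n + d) * y + c * z = 1) :
    Pi1 d a n * Pi2 d a n = Ideal.span {(a : ↥(Od d))} := by
  have hFO : (n : ↥(Od d)) * n + d * n + (((d ^ 2 - d) / 4 : ℤ) : ↥(Od d)) =
      (a : ↥(Od d)) * (c : ↥(Od d)) := by
    have : ((n ^ 2 + d * n + (d ^ 2 - d) / 4 : ℤ) : ↥(Od d)) = ((a * c : ℤ) : ↥(Od d)) := by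
      rw [← hc]; rfl
    push_cast at this
    linear_combination this
  have hpr : ((n : ↥(Od d)) + th d) * ((n : ↥(Od d)) + d - th d) = (a : ↥(Od d)) * c := by
    linear_combination hth + hFO
  have hO : (a : ↥(Od d)) * x + (2 * n + d) * y + c * z = 1 := by
    have : ((a * x + (2 * n + d) * y + c * z : ℤ) : ↥(Od d)) = ((1 : ℤ) : ↥(Od d)) := by rw [hxyz]
    push_cast at this
    exact this
  unfold Pi1 Pi2
  apply le_antisymm
  · rw [Ideal.mul_le]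
    intro r hr s hs
    rw [Ideal.mem_span_pair] at hr hs
    obtain ⟨r1, r2, rfl⟩ := hr
    obtain ⟨s1, s2, rfl⟩ := hs
    rw [Ideal.mem_span_singleton]
    refine ⟨r1 * s1 * a + r1 * s2 * ((n : ↥(Od d)) + d - th d) + r2 * s1 * ((n : ↥(Od d)) + th d) +
      r2 * s2 * c, ?_⟩
    linear_combination (r2 * s2) * hpr
  · rw [Ideal.span_singleton_le_iff_mem]
    have hA : (a : ↥(Od d)) ∈ Ideal.span {(a : ↥(Od d)), (n : ↥(Od d)) + th d} :=
      Ideal.subset_span (by simp)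
    have hN : (n : ↥(Od d)) + th d ∈ Ideal.span {(a : ↥(Od d)), (n : ↥(Od d)) + th d} :=
      Ideal.subset_span (by simp)
    have hA' : (a : ↥(Od d)) ∈ Ideal.span {(a : ↥(Od d)), (n : ↥(Od d)) + d - th d} :=
      Ideal.subset_span (by simp)
    have hN' : (n : ↥(Od d)) + d - th d ∈ Ideal.span {(a : ↥(Od d)), (n : ↥(Od d)) + d - th d} :=
      Ideal.subset_span (by simp)
    have e : (a : ↥(Od d)) = x * ((a : ↥(Od d)) * a) + y * ((a : ↥(Od d)) * ((n : ↥(Od d)) + d - th d)) +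
        y * (((n : ↥(Od d)) + th d) * a) +
        z * (((n : ↥(Od d)) + th d) * ((n : ↥(Od d)) + d - th d)) := by
      rw [hpr]
      linear_combination (-(a : ↥(Od d))) * hO
    have hmem := Ideal.add_mem _ (Ideal.add_mem _ (Ideal.add_mem _
      (Ideal.mul_mem_left _ (x : ↥(Od d)) (Ideal.mul_mem_mul hA hA'))
      (Ideal.mul_mem_left _ (y : ↥(Od d)) (Ideal.mul_mem_mul hA hN')))
      (Ideal.mul_mem_left _ (y : ↥(Od d)) (Ideal.mul_mem_mul hN hA')))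
      (Ideal.mul_mem_left _ (z : ↥(Od d)) (Ideal.mul_mem_mul hN hN'))
    rw [← e] at hmem
    exact hmem

/-- An ideal with principal square. -/
theorem key (h0 : ClaimC0) {d : ℤ} (hd : d < 0) (hd4 : d % 4 = 0 ∨ d % 4 = 1) (a : ℕ) (n : ℤ)
    (ha : 0 < a) (h3 : 3 * a ^ 2 ≤ d.natAbs) (hdiv : (a : ℤ) ∣ FF d n) (w : ↥(Od d))
    (hw : w ≠ 0) (hI : Pi1 d a n * Pi1 d a n = Ideal.span {w}) :
    ∃ u v : ℤ, (2 * u + v * d) ^ 2 - v ^ 2 * d = 4 * a ^ 2 ∧ v ^ 2 ≤ 1 ∧ (a : ℤ) ∣ u - n * v ∧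
      (v = 0 → (a : ℤ) ∣ 2 * n + d) := by
  obtain ⟨hrep, hnorm, hnb, hth, σ, hσ, hσn⟩ := h0 d hd hd4
  obtain ⟨c, hc⟩ := hdiv
  -- the content is one
  have hg : ∃ x y z : ℤ, (a : ℤ) * x + (2 * n + d) * y + c * z = 1 := by
    have h1 := Int.gcd_eq_gcd_ab (a : ℤ) (2 * n + d)
    have h2 := Int.gcd_eq_gcd_ab ((Int.gcd (a : ℤ) (2 * n + d) : ℕ) : ℤ) c
    set g1 : ℕ := Int.gcd (a : ℤ) (2 * n + d) with hg1
    set g2 : ℕ := Int.gcd ((g1 : ℕ) : ℤ) c with hg2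
    have hd1 : (g2 : ℤ) ∣ (g1 : ℤ) := Int.gcd_dvd_left _ _
    have hd2 : (g2 : ℤ) ∣ c := Int.gcd_dvd_right _ _
    have hd3 : (g1 : ℤ) ∣ (a : ℤ) := Int.gcd_dvd_left _ _
    have hd4 : (g1 : ℤ) ∣ 2 * n + d := Int.gcd_dvd_right _ _
    have hone : (g2 : ℤ) ∣ 1 := content hd hrep hnb hth a n c hc w hw hI g2
      (hd1.trans hd3) (hd1.trans hd4) hd2
    have hone' : (g2 : ℤ) = 1 := by
      have h5 : g2 ∣ 1 := by exact_mod_cast hone
      have h6 : g2 = 1 := Nat.dvd_one.1 h5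
      exact_mod_cast h6
    rw [hone'] at h2
    refine ⟨Int.gcdA (a : ℤ) (2 * n + d) * Int.gcdA (g1 : ℤ) c,
      Int.gcdB (a : ℤ) (2 * n + d) * Int.gcdA (g1 : ℤ) c, Int.gcdB (g1 : ℤ) c, ?_⟩
    rw [h2, h1]
    ring
  obtain ⟨x, y, z, hxyz⟩ := hg
  have hmc := mul_conj hth a n c hc x y z hxyz
  have hI2 : Pi2 d a n * Pi2 d a n = Ideal.span {σ w} := by
    have h1 := congrArg (Ideal.map (σ : ↥(Od d) →+* ↥(Od d))) hI
    rw [Ideal.map_mul, map_Pi1 σ hσ, Ideal.map_span, Set.image_singleton] at h1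
    exact h1
  have hprod : Ideal.span {w * σ w} = Ideal.span {(a : ↥(Od d)) * a} := by
    rw [← Ideal.span_singleton_mul_span_singleton, ← Ideal.span_singleton_mul_span_singleton,
      ← hI, ← hI2, ← hmc]
    ring
  obtain ⟨u, v, huv⟩ := hrep w
  set c0 : ℤ := (d ^ 2 - d) / 4 with hc0
  set N : ℤ := u ^ 2 + u * v * d + v ^ 2 * c0 with hN
  have hc04 : 4 * c0 = d ^ 2 - d := by
    rw [hc0]
    apply Int.mul_ediv_cancel'
    rcases hd4 with h | h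
    · obtain ⟨k, rfl⟩ : (4 : ℤ) ∣ d := Int.dvd_of_emod_eq_zero h
      exact ⟨4 * k ^ 2 - k, by ring⟩
    · obtain ⟨k, hk⟩ : (4 : ℤ) ∣ d - 1 := by omega
      have : d = 4 * k + 1 := by linarith
      subst this
      exact ⟨(4 * k + 1) * k, by ring⟩
  have hnw : Complex.normSq (w : ℂ) = (N : ℝ) := by
    rw [huv, hnorm u v]
  have hwN : w * σ w = (N : ↥(Od d)) := by
    apply Subtype.ext
    rw [hσn w, hnw]
    simp
  have hN0 : 0 ≤ N := by
    have : (0 : ℝ) ≤ (N : ℝ) := by rw [← hnw]; exact Complex.normSq_nonneg _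
    exact_mod_cast this
  have hNa : N = (a : ℤ) ^ 2 := by
    rw [hwN] at hprod
    have e1 : (a : ↥(Od d)) * a = (((a : ℤ) ^ 2 : ℤ) : ↥(Od d)) := by push_cast; ring
    rw [e1] at hprod
    have h1 : ((N : ℤ) : ↥(Od d)) ∣ (((a : ℤ) ^ 2 : ℤ) : ↥(Od d)) := by
      rw [← Ideal.span_singleton_le_span_singleton, hprod]
    have h2 : (((a : ℤ) ^ 2 : ℤ) : ↥(Od d)) ∣ ((N : ℤ) : ↥(Od d)) := by
      rw [← Ideal.span_singleton_le_span_singleton, hprod]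
    have h1' := dvd_of_dvd hd hrep hnb h1
    have h2' := dvd_of_dvd hd hrep hnb h2
    exact Int.dvd_antisymm hN0 (by positivity) h1' h2'
  have h4N : (2 * u + v * d) ^ 2 - v ^ 2 * d = 4 * (a : ℤ) ^ 2 := by
    rw [← hNa, hN]
    linear_combination (-v ^ 2) * hc04
  have h3' : 3 * (a : ℤ) ^ 2 ≤ -d := by
    have : ((3 * a ^ 2 : ℕ) : ℤ) ≤ (d.natAbs : ℤ) := by exact_mod_cast h3
    rw [Int.ofNat_natAbs_of_nonpos hd.le] at this
    push_cast at this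
    exact this
  refine ⟨u, v, h4N, ?_, ?_, ?_⟩
  · by_contra hcon
    have hcon' : 2 ≤ v ^ 2 := by omega
    nlinarith [sq_nonneg (2 * u + v * d)]
  · refine mem_dvd hd hrep hnb hth a n ⟨c, hc⟩ u v ?_
    rw [← huv]
    have h1 : w ∈ Pi1 d a n * Pi1 d a n := by rw [hI]; exact Ideal.mem_span_singleton_self _
    exact Ideal.mul_le_right h1
  · intro hv
    subst hv
    have hua : u ^ 2 = (a : ℤ) ^ 2 := by nlinarith
    have hdv : (a : ↥(Od d)) ∣ w := by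
      rw [huv]
      rcases sq_eq_sq_iff_eq_or_eq_neg.1 hua with h | h
      · rw [h]; push_cast; exact ⟨1, by ring⟩
      · rw [h]; push_cast; exact ⟨-1, by ring⟩
    have hsq : ((n : ↥(Od d)) + th d) * ((n : ↥(Od d)) + th d) ∈ Pi1 d a n * Pi1 d a n :=
      Ideal.mul_mem_mul (Ideal.subset_span (by simp)) (Ideal.subset_span (by simp))
    rw [hI, Ideal.mem_span_singleton] at hsq
    obtain ⟨t, ht⟩ := hdv.trans hsq
    obtain ⟨t1, t2, rfl⟩ := hrep t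
    have hs := th_sq hth
    have h4 : ((n ^ 2 - c0 : ℤ) : ↥(Od d)) + ((2 * n + d : ℤ) : ↥(Od d)) * th d =
        ((a * t1 : ℤ) : ↥(Od d)) + ((a * t2 : ℤ) : ↥(Od d)) * th d := by
      push_cast
      rw [← hc0] at hs
      push_cast at hs
      linear_combination ht - hs
    exact ⟨t2, (coord hd hnb h4).2⟩

end ItemH

end Pool.Agent.Work.MP_e0c7e8_nt.SM
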