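import Pool.Agent.Work.MP_e0c7e8_nt.SM.ItemH1
import Pool.Agent.Work.MP_e0c7e8_nt.SM.ItemC1a2

/-!
# Item H2: the number of classes of order dividing two
-/

set_option autoImplicit false

namespace Pool.Agent.Work.MP_e0c7e8_nt.SM

open Finset

namespace ItemH

open ItemC2b2

/-- The arithmetic data attached to a class of order dividing two. -/
def Dat (d : ℤ) (a n : ℕ) (u v : ℤ) : Prop :=
  0 < a ∧ n < a ∧ (2 * u + v * d) ^ 2 - v ^ 2 * d = 4 * (a : ℤ) ^ 2 ∧ v ^ 2 ≤ 1 ∧
    (a : ℤ) ∣ u - n * v ∧ (v = 0 → (a : ℤ) ∣ 2 * n + d) ∧ (a : ℤ) ∣ FF d n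

/-- The code of the data. -/
def code (d : ℤ) (a n : ℕ) (u v : ℤ) : Bool × Bool × ℕ :=
  if v = 0 then (true, decide (a ≤ 2 * n), a) else
    (false, decide (v = 1), (2 * (a : ℤ) - (2 * u + v * d)).toNat)

/-- Positivity of both factors. -/
lemma pos_of {d : ℤ} (hd : d < 0) {a : ℕ} {u v : ℤ} (ha : 0 < a)
    (h : (2 * u + v * d) ^ 2 - v ^ 2 * d = 4 * (a : ℤ) ^ 2) (hv2 : v ^ 2 = 1) :
    0 < 2 * (a : ℤ) - (2 * u + v * d) ∧ 0 < 2 * (a : ℤ) + (2 * u + v * d) := by
  rw [hv2] at h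
  set X : ℤ := 2 * u + v * d with hX
  have ha' : (0 : ℤ) < a := by exact_mod_cast ha
  have hlt : X ^ 2 < (2 * (a : ℤ)) ^ 2 := by nlinarith
  have := abs_lt_of_sq_lt_sq hlt (by linarith)
  rw [abs_lt] at this
  constructor <;> linarith [this.1, this.2]

lemma code_mem {d : ℤ} (hd : d < 0) (hd4 : d % 4 = 0 ∨ d % 4 = 1) {a n : ℕ} {u v : ℤ}
    (h : Dat d a n u v) :
    code d a n u v ∈ (univ : Finset Bool) ×ˢ (univ : Finset Bool) ×ˢ d.natAbs.divisors := by
  obtain ⟨ha, hn, hN, hv, hdv, hz, hF⟩ := h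
  rw [mem_product, mem_product]
  refine ⟨mem_univ _, mem_univ _, ?_⟩
  rw [Nat.mem_divisors]
  refine ⟨?_, by omega⟩
  unfold code
  have h4F : 4 * FF d n = (2 * (n : ℤ) + d) ^ 2 - d := by
    unfold FF
    have hc04 : 4 * ((d ^ 2 - d) / 4) = d ^ 2 - d := by
      apply Int.mul_ediv_cancel'
      rcases hd4 with h | h
      · obtain ⟨k, rfl⟩ : (4 : ℤ) ∣ d := Int.dvd_of_emod_eq_zero h
        exact ⟨4 * k ^ 2 - k, by ring⟩
      · obtain ⟨k, hk⟩ : (4 : ℤ) ∣ d - 1 := by omega
        have : d = 4 * k + 1 := by linarith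
        subst this
        exact ⟨(4 * k + 1) * k, by ring⟩
    linear_combination hc04
  split_ifs with h0
  · show a ∣ d.natAbs
    have h1 := hz h0
    have h2 : (a : ℤ) ∣ d := by
      obtain ⟨c, hc⟩ := hF
      obtain ⟨e, he⟩ := h1
      refine ⟨(2 * n + d) * e - 4 * c, ?_⟩
      rw [hc] at h4F
      linear_combination h4F + (2 * (n : ℤ) + d) * he
    have h3 := Int.natAbs_dvd_natAbs.2 h2
    rwa [Int.natAbs_natCast] at h3
  · show (2 * (a : ℤ) - (2 * u + v * d)).toNat ∣ d.natAbs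
    have hv2 : v ^ 2 = 1 := by
      have : 0 < v ^ 2 := by positivity
      omega
    obtain ⟨hp1, hp2⟩ := pos_of hd ha hN hv2
    have h3 : (((2 * (a : ℤ) - (2 * u + v * d)).toNat : ℕ) : ℤ) ∣ ((d.natAbs : ℕ) : ℤ) := by
      rw [Int.toNat_of_nonneg hp1.le, Int.ofNat_natAbs_of_nonpos hd.le]
      refine ⟨2 * (a : ℤ) + (2 * u + v * d), ?_⟩
      rw [hv2] at hN
      linear_combination hN
    exact_mod_cast h3

lemma code_inj {d : ℤ} (hd : d < 0) {a n a' n' : ℕ} {u v u' v' : ℤ}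
    (h : Dat d a n u v) (h' : Dat d a' n' u' v') (he : code d a n u v = code d a' n' u' v') :
    a = a' ∧ n = n' := by
  obtain ⟨ha, hn, hN, hv, hdv, hz, hF⟩ := h
  obtain ⟨ha', hn', hN', hv', hdv', hz', hF'⟩ := h'
  unfold code at he
  split_ifs at he with h0 h0'
  · simp only [Prod.mk.injEq, true_and] at he
    obtain ⟨e1, e2⟩ := he
    subst e2
    refine ⟨rfl, ?_⟩
    have h1 := hz h0
    have h2 := hz' h0'
    have h3 : (a : ℤ) ∣ 2 * (n : ℤ) - 2 * n' := by
      have := dvd_sub h1 h2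
      have e : 2 * (n : ℤ) + d - (2 * n' + d) = 2 * n - 2 * n' := by ring
      rwa [e] at this
    have e3 : (a ≤ 2 * n) ↔ (a ≤ 2 * n') := by
      rw [decide_eq_decide] at e1
      exact e1
    have h4 : 2 * (n : ℤ) - 2 * n' = 0 := by
      apply Int.eq_zero_of_abs_lt_dvd h3
      rw [abs_lt]
      by_cases hc : a ≤ 2 * n
      · have hc' := e3.1 hc
        constructor <;> omega
      · have hc' : ¬ a ≤ 2 * n' := fun hx => hc (e3.2 hx)
        constructor <;> omega
    omega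
  · simp at he
  · simp at he
  · simp only [Prod.mk.injEq, true_and] at he
    obtain ⟨e1, e2⟩ := he
    have hv2 : v ^ 2 = 1 := by
      have : 0 < v ^ 2 := by positivity
      omega
    have hv2' : v' ^ 2 = 1 := by
      have : 0 < v' ^ 2 := by positivity
      omega
    have hvv : v = v' := by
      rw [decide_eq_decide] at e1
      have q : ∀ x : ℤ, x ^ 2 = 1 → x = 1 ∨ x = -1 := by
        intro x hx
        have : (x - 1) * (x + 1) = 0 := by linear_combination hx
        rcases mul_eq_zero.1 this with h | h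
        · left; omega
        · right; omega
      rcases q v hv2 with hx | hx <;> rcases q v' hv2' with hy | hy <;> omega
    subst hvv
    obtain ⟨hp1, hp2⟩ := pos_of hd ha hN hv2
    obtain ⟨hp1', hp2'⟩ := pos_of hd ha' hN' hv2'
    have ht : 2 * (a : ℤ) - (2 * u + v * d) = 2 * (a' : ℤ) - (2 * u' + v * d) := by
      have : (((2 * (a : ℤ) - (2 * u + v * d)).toNat : ℕ) : ℤ) =
        (((2 * (a' : ℤ) - (2 * u' + v * d)).toNat : ℕ) : ℤ) := by rw [e2]
      rwa [Int.toNat_of_nonneg hp1.le, Int.toNat_of_nonneg hp1'.le] at this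
    have hs : 2 * (a : ℤ) + (2 * u + v * d) = 2 * (a' : ℤ) + (2 * u' + v * d) := by
      have h5 : (2 * (a : ℤ) - (2 * u + v * d)) * (2 * (a : ℤ) + (2 * u + v * d)) =
          (2 * (a : ℤ) - (2 * u + v * d)) * (2 * (a' : ℤ) + (2 * u' + v * d)) := by
        nth_rewrite 2 [ht]
        linear_combination hN' - hN
      exact mul_left_cancel₀ hp1.ne' h5
    have haa : a = a' := by
      have : (a : ℤ) = a' := by linarith
      exact_mod_cast this
    subst haa
    refine ⟨rfl, ?_⟩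
    have huu : u = u' := by linarith
    subst huu
    have h6 : (a : ℤ) ∣ ((n : ℤ) - n') * v := by
      have := dvd_sub hdv' hdv
      have e : u - (n' : ℤ) * v - (u - n * v) = (n - n') * v := by ring
      rwa [e] at this
    have h7 : (a : ℤ) ∣ (n : ℤ) - n' := by
      have := Dvd.dvd.mul_right h6 v
      have e : ((n : ℤ) - n') * v * v = n - n' := by linear_combination ((n : ℤ) - n') * hv2
      rwa [e] at this
    have h8 : (n : ℤ) - n' = 0 := by
      apply Int.eq_zero_of_abs_lt_dvd h7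
      rw [abs_lt]
      constructor <;> omega
    omega

end ItemH

open ItemH ItemC1a2 in
/-- The two-torsion bound. -/
theorem claimH (h0 : ClaimC0) (h1 : ClaimC1a1) : ∀ d : ℤ, d < 0 → (d % 4 = 0 ∨ d % 4 = 1) →
    Nat.card {y : ClassGroup ↥(Od d) // y ^ 2 = 1} ≤ 4 * d.natAbs.divisors.card := by
  classical
  intro d hd hd4
  have hex : ∀ c : {y : ClassGroup ↥(Od d) // y ^ 2 = 1},
      ∃ (a n : ℕ) (u v : ℤ) (I : (FractionalIdeal (nonZeroDivisors ↥(Od d)) (FractionRing ↥(Od d)))ˣ)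
        (J : Ideal ↥(Od d)) (α : ↥(Od d)), Dat d a n u v ∧ α ≠ 0 ∧
        (I : FractionalIdeal (nonZeroDivisors ↥(Od d)) (FractionRing ↥(Od d))) = J ∧
        ClassGroup.mk (FractionRing ↥(Od d)) I = c.1 ∧
        Ideal.span {(a : ↥(Od d))} * J = Ideal.span {α} * Pi1 d a n := by
    intro c
    obtain ⟨I, J, hJ, hIJ, hIc⟩ := rep c.1
    obtain ⟨α, a, n, hα, ha, hn, h3, hdvd, hspan⟩ := h1 d hd hd4 J hJ
    have hc2 : ClassGroup.mk (FractionRing ↥(Od d)) (I * I) =
        ClassGroup.mk (FractionRing ↥(Od d)) 1 := by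
      rw [map_mul, map_one, hIc, ← sq]
      exact c.2
    rw [ClassGroup.mk_eq_mk_of_coe_ideal (I' := J * J) (J' := ⊤)
      (by rw [Units.val_mul, hIJ, FractionalIdeal.coeIdeal_mul]) (by simp)] at hc2
    obtain ⟨x, y, hx, hy, hxy⟩ := hc2
    have haO : (a : ↥(Od d)) ≠ 0 := by exact_mod_cast ha.ne'
    have hP : Ideal.span {x * α ^ 2} * (Pi1 d a n * Pi1 d a n) =
        Ideal.span {(a : ↥(Od d)) ^ 2 * y} := by
      have e1 : Ideal.span {x * α ^ 2} * (Pi1 d a n * Pi1 d a n) =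
          Ideal.span {x} * ((Ideal.span {α} * Pi1 d a n) * (Ideal.span {α} * Pi1 d a n)) := by
        rw [← Ideal.span_singleton_mul_span_singleton, sq, ← Ideal.span_singleton_mul_span_singleton]
        ring
      have e2 : Ideal.span {x} * ((Ideal.span {(a : ↥(Od d))} * J) *
          (Ideal.span {(a : ↥(Od d))} * J)) = Ideal.span {(a : ↥(Od d))} * Ideal.span {(a : ↥(Od d))}
            * (Ideal.span {x} * (J * J)) := by
        ring
      have hspan' : Ideal.span {α} * Pi1 d a n = Ideal.span {(a : ↥(Od d))} * J := by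
        rw [hspan]; rfl
      rw [e1, hspan', e2, hxy, Ideal.mul_top, Ideal.span_singleton_mul_span_singleton,
        Ideal.span_singleton_mul_span_singleton]
      congr 2
      ring
    have hxα : x * α ^ 2 ≠ 0 := mul_ne_zero hx (pow_ne_zero _ hα)
    have hmem : (a : ↥(Od d)) ^ 2 * y ∈ Ideal.span {x * α ^ 2} * (Pi1 d a n * Pi1 d a n) := by
      rw [hP]; exact Ideal.mem_span_singleton_self _
    rw [Ideal.mem_span_singleton_mul] at hmem
    obtain ⟨w, hw, hww⟩ := hmem
    have hw0 : w ≠ 0 := by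
      rintro rfl
      rw [mul_zero] at hww
      exact mul_ne_zero (pow_ne_zero 2 haO) hy hww.symm
    have hII : Pi1 d a n * Pi1 d a n = Ideal.span {w} := by
      have hP' : Ideal.span {x * α ^ 2} * (Pi1 d a n * Pi1 d a n) =
          Ideal.span {x * α ^ 2} * Ideal.span {w} := by
        rw [hP, Ideal.span_singleton_mul_span_singleton, hww]
      exact (Ideal.span_singleton_mul_right_inj hxα).1 hP'
    obtain ⟨u, v, k1, k2, k3, k4⟩ := key h0 hd hd4 a n ha h3 hdvd w hw0 hII
    refine ⟨a, n, u, v, I, J, α, ⟨ha, hn, k1, k2, k3, k4, hdvd⟩, hα, hIJ, hIc, ?_⟩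
    rw [hspan]; rfl
  choose a n u v I J α hD hα hIJ hIc hspan using hex
  set S : Finset (Bool × Bool × ℕ) :=
    (univ : Finset Bool) ×ˢ (univ : Finset Bool) ×ˢ d.natAbs.divisors with hS
  let f : {y : ClassGroup ↥(Od d) // y ^ 2 = 1} → {x // x ∈ S} :=
    fun c => ⟨code d (a c) (n c) (u c) (v c), code_mem hd hd4 (hD c)⟩
  have hf : Function.Injective f := by
    intro c c' h
    have h2 : code d (a c) (n c) (u c) (v c) = code d (a c') (n c') (u c') (v c') :=
      congrArg Subtype.val h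
    obtain ⟨ha', hn'⟩ := code_inj hd (hD c) (hD c') h2
    apply Subtype.ext
    rw [← hIc c, ← hIc c', ClassGroup.mk_eq_mk_of_coe_ideal (hIJ c) (hIJ c')]
    have hac : ((a c : ℕ) : ↥(Od d)) ≠ 0 := by
      have := (hD c).1
      exact_mod_cast this.ne'
    refine ⟨α c' * (a c : ↥(Od d)), α c * (a c : ↥(Od d)), mul_ne_zero (hα c') hac,
      mul_ne_zero (hα c) hac, ?_⟩
    have e1 := hspan c
    have e2 := hspan c'
    rw [← ha', ← hn'] at e2
    rw [← Ideal.span_singleton_mul_span_singleton, ← Ideal.span_singleton_mul_span_singleton,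
      mul_assoc, mul_assoc, e1, e2, ← mul_assoc, ← mul_assoc,
      mul_comm (Ideal.span {α c'}) (Ideal.span {α c})]
  have hcard := Nat.card_le_card_of_injective f hf
  rw [Nat.card_eq_fintype_card (α := {x // x ∈ S}), Fintype.card_coe, hS, card_product,
    card_product] at hcard
  simp only [card_univ, Fintype.card_bool] at hcard
  calc _ ≤ _ := hcard
    _ = _ := by ring

end Pool.Agent.Work.MP_e0c7e8_nt.SM
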