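import Pool.Agent.Work.MP_e0c7e8_nt.SM.Stmts
import Pool.Agent.Work.MP_e0c7e8_nt.SM.Basic
import Pool.Agent.Work.MP_e0c7e8_nt.SM.ItemG3

/-!
# Item L1: incomplete sums modulo a prime longer than the interval
-/

set_option autoImplicit false

namespace Pool.Agent.Work.MP_e0c7e8_nt.SM

open Finset

/-- L1: incomplete sums modulo a prime, nontrivial for `P` up to `N ^ 2`. -/
def ClaimL1 : Prop :=
  ∀ (P : ℕ) (A : List ℤ), P.Prime → P ≠ 2 → A ≠ [] → Nc P A → ∀ N : ℕ,
    SB (PJ P A) N ((N : ℝ) * A.length / Real.sqrt P +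
      Real.sqrt ((2 + 2 * A.length) * N * Real.sqrt P) + Real.sqrt P)

namespace ItemL1

open ItemG3

lemma complete (h2 : ClaimG2) {P : ℕ} {A : List ℤ} (hP : P.Prime) (hP2 : P ≠ 2) (hA : A ≠ [])
    (hN : Nc P A) : |∑ x ∈ range P, PJ P A x| ≤ A.length * Real.sqrt P := by
  have h := h2 P (hP.odd_of_ne_two hP2) hP.squarefree A 1 one_pos hA (by
    intro l hl hlP hnc
    have : l = P := (Nat.prime_dvd_prime_iff_eq hl hP).1 hlP
    rw [this] at hnc
    exact absurd hN hnc)
  rw [Nat.Prime.primeFactors hP, card_singleton, pow_one, Nat.cast_one, mul_one] at h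
  exact h

/-- The correlations. -/
lemma corr (h2 : ClaimG2) (h5 : ClaimG5) {P : ℕ} {A : List ℤ} (hP : P.Prime) (hP2 : P ≠ 2)
    (hA : A ≠ []) (hN : Nc P A) (t : ℕ) (ht0 : 0 < t) (htP : t < P) :
    |∑ x ∈ range P, PJ P A (x : ℤ) * PJ P A ((x : ℤ) + t)| ≤ 2 * A.length * Real.sqrt P := by
  have hnd : ¬ (P : ℤ) ∣ (t : ℤ) := by
    intro h
    have h' : P ∣ t := by exact_mod_cast h
    exact absurd (Nat.le_of_dvd ht0 h') (by omega)
  have hNc := h5 P hP hP2 A t hnd hN
  have h := complete h2 hP hP2 (A := A ++ A.map (fun a => a + (t : ℤ))) (by simp [hA]) hNc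
  have e : ∀ x ∈ range P, PJ P (A ++ A.map (fun a => a + (t : ℤ))) (x : ℤ) =
      PJ P A (x : ℤ) * PJ P A ((x : ℤ) + t) := by
    intro x _
    rw [PJ_append, PJ_shift]
  rw [Finset.sum_congr rfl e] at h
  refine h.trans (le_of_eq ?_)
  rw [List.length_append, List.length_map]
  push_cast
  ring

lemma isum_shift (F : ℤ → ℝ) (M h : ℤ) (L : ℕ) :
    isum (fun n => F (n + h)) M L = isum F (M + h) L := by
  unfold isum
  refine Finset.sum_bij' (fun n _ => n + h) (fun n _ => n - h) ?_ ?_ ?_ ?_ ?_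
  · intro n hn
    rw [mem_Ico] at hn ⊢
    omega
  · intro n hn
    rw [mem_Ico] at hn ⊢
    omega
  · intro n _; ring
  · intro n _; ring
  · intro n _; rfl

lemma isum_sum {ι : Type} (S : Finset ι) (F : ι → ℤ → ℝ) (M : ℤ) (L : ℕ) :
    isum (fun n => ∑ i ∈ S, F i n) M L = ∑ i ∈ S, isum (F i) M L := by
  unfold isum
  rw [Finset.sum_comm]

/-- One term of the second moment. -/
lemma term (h2 : ClaimG2) (h5 : ClaimG5) {P : ℕ} {A : List ℤ} (hP : P.Prime) (hP2 : P ≠ 2)
    (hA : A ≠ []) (hN : Nc P A) (M : ℤ) (h h' : ℕ) (hh : h < h') (hh' : h' < P) :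
    |isum (fun n => PJ P A (n + h) * PJ P A (n + h')) M P| ≤ 2 * A.length * Real.sqrt P := by
  have hper : ∀ n : ℤ, PJ P A (n + P) = PJ P A n := by
    intro n
    have := PJ_periodic P A n 1
    rwa [one_mul] at this
  set G : ℤ → ℝ := fun n => PJ P A n * PJ P A (n + ((h' - h : ℕ) : ℤ)) with hG
  have hGper : ∀ n : ℤ, G (n + P) = G n := by
    intro n
    simp only [hG]
    rw [hper n]
    have : n + (P : ℤ) + ((h' - h : ℕ) : ℤ) = (n + ((h' - h : ℕ) : ℤ)) + P := by ring
    rw [this, hper]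
  have e : (fun n : ℤ => PJ P A (n + h) * PJ P A (n + h')) = fun n : ℤ => G (n + (h : ℤ)) := by
    funext n
    simp only [hG]
    congr 2
    have : ((h' - h : ℕ) : ℤ) = (h' : ℤ) - h := by
      rw [Nat.cast_sub hh.le]
    rw [this]
    ring
  rw [e, isum_shift, isum_period_all hGper, isum_zero_range]
  exact corr h2 h5 hP hP2 hA hN (h' - h) (by omega) (by omega)

/-- The second moment. -/
lemma moment (h2 : ClaimG2) (h5 : ClaimG5) {P : ℕ} {A : List ℤ} (hP : P.Prime) (hP2 : P ≠ 2)
    (hA : A ≠ []) (hN : Nc P A) (M : ℤ) (s : ℕ) (hs : s ≤ P) :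
    isum (fun n => (∑ h ∈ range s, PJ P A (n + h)) ^ 2) M P ≤
      s * P + (s : ℝ) ^ 2 * (2 * A.length * Real.sqrt P) := by
  set W : ℝ := 2 * A.length * Real.sqrt P with hW
  have hW0 : 0 ≤ W := by positivity
  have e : (fun n : ℤ => (∑ h ∈ range s, PJ P A (n + h)) ^ 2) =
      fun n : ℤ => ∑ x ∈ range s ×ˢ range s, PJ P A (n + x.1) * PJ P A (n + x.2) := by
    funext n
    rw [sq, Finset.sum_mul_sum, Finset.sum_product]
  rw [e, isum_sum]
  have hb : ∀ x ∈ range s ×ˢ range s,
      isum (fun n : ℤ => PJ P A (n + (x.1 : ℤ)) * PJ P A (n + (x.2 : ℤ))) M P ≤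
        (if x.1 = x.2 then (P : ℝ) else 0) + W := by
    intro x hx
    rw [mem_product, mem_range, mem_range] at hx
    rcases lt_trichotomy x.1 x.2 with h | h | h
    · rw [if_neg h.ne, zero_add]
      exact (le_abs_self _).trans (term h2 h5 hP hP2 hA hN M x.1 x.2 h (by omega))
    · rw [if_pos h]
      have h1 := abs_isum_le (g := fun n : ℤ => PJ P A (n + (x.1 : ℤ)) * PJ P A (n + (x.2 : ℤ)))
        (fun n => by
          rw [abs_mul]
          calc _ ≤ (1 : ℝ) * 1 := mul_le_mul (abs_PJ_le _ _ _) (abs_PJ_le _ _ _) (abs_nonneg _)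
                zero_le_one
            _ = 1 := one_mul 1) M P
      exact ((le_abs_self _).trans h1).trans (by linarith)
    · rw [if_neg h.ne', zero_add]
      have h3 := term h2 h5 hP hP2 hA hN M x.2 x.1 h (by omega)
      have e2 : (fun n : ℤ => PJ P A (n + (x.1 : ℤ)) * PJ P A (n + (x.2 : ℤ))) =
          fun n : ℤ => PJ P A (n + (x.2 : ℤ)) * PJ P A (n + (x.1 : ℤ)) := by
        funext n; ring
      rw [e2]
      exact (le_abs_self _).trans h3
  refine (Finset.sum_le_sum hb).trans ?_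
  rw [Finset.sum_add_distrib]
  apply add_le_add
  · rw [Finset.sum_product]
    have : ∀ a ∈ range s, ∑ b ∈ range s, (if a = b then (P : ℝ) else 0) = P := by
      intro a ha
      rw [Finset.sum_ite_eq]
      simp [ha]
    rw [Finset.sum_congr rfl this]
    simp
  · rw [Finset.sum_const, card_product, card_range, nsmul_eq_mul]
    push_cast
    apply le_of_eq
    ring

/-- Short intervals. -/
lemma short (h2 : ClaimG2) (h5 : ClaimG5) {P : ℕ} {A : List ℤ} (hP : P.Prime) (hP2 : P ≠ 2)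
    (hA : A ≠ []) (hN : Nc P A) (M : ℤ) (L N : ℕ) (hLP : L ≤ P) (hLN : L ≤ N) :
    |isum (PJ P A) M L| ≤ Real.sqrt ((2 + 2 * A.length) * N * Real.sqrt P) + Real.sqrt P := by
  obtain ⟨s, hs⟩ : ∃ s : ℕ, s = Nat.sqrt P := ⟨_, rfl⟩
  have hPR : (0 : ℝ) < P := by exact_mod_cast hP.pos
  have hs1 : 1 ≤ s := by rw [hs]; exact Nat.sqrt_pos.2 hP.pos
  have hs1R : (1 : ℝ) ≤ s := by exact_mod_cast hs1
  have hsP : s ≤ P := by rw [hs]; exact Nat.sqrt_le_self P
  have hle : (s : ℝ) ≤ Real.sqrt P := by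
    rw [hs]
    exact Real.nat_sqrt_le_real_sqrt
  have hge : Real.sqrt P ≤ 2 * s := by
    have h1 : Real.sqrt P ≤ s + 1 := by
      rw [hs]
      exact Real.real_sqrt_le_nat_sqrt_succ
    linarith
  set K := PJ P A with hK
  set S := isum K M L with hS
  set V : ℤ → ℝ := fun n => ∑ h ∈ range s, K (n + h) with hV
  -- shifts
  have hshift : ∀ h : ℕ, |isum K (M + h) L - S| ≤ 2 * h := by
    intro h
    have a1 := isum_add K M h L
    have a2 := isum_add K M L h
    rw [add_comm h L, a2] at a1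
    have a3 : isum K (M + h) L - S = isum K (M + L) h - isum K M h := by
      rw [hS]; linarith
    rw [a3]
    have b1 := abs_isum_le (abs_PJ_le P A) (M + L) h
    have b2 := abs_isum_le (abs_PJ_le P A) M h
    have b3 := abs_sub (isum K (M + L) h) (isum K M h)
    linarith
  have hVs : isum V M L = ∑ h ∈ range s, isum K (M + h) L := by
    rw [hV, isum_sum]
    refine Finset.sum_congr rfl fun h _ => ?_
    exact isum_shift K M h L
  have h3 : |(s : ℝ) * S - isum V M L| ≤ (s : ℝ) ^ 2 := by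
    have e : (s : ℝ) * S - isum V M L = ∑ h ∈ range s, (S - isum K (M + h) L) := by
      rw [Finset.sum_sub_distrib, hVs]
      simp
    rw [e]
    refine (Finset.abs_sum_le_sum_abs _ _).trans ?_
    have : ∀ h ∈ range s, |S - isum K (M + h) L| ≤ 2 * (h : ℝ) := by
      intro h _
      rw [abs_sub_comm]
      exact hshift h
    refine (Finset.sum_le_sum this).trans ?_
    rw [← Finset.mul_sum]
    have h4 : ∀ n : ℕ, 2 * ∑ h ∈ range n, (h : ℝ) ≤ (n : ℝ) ^ 2 := by
      intro n
      induction n with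
      | zero => simp
      | succ n ih =>
        rw [Finset.sum_range_succ]
        push_cast
        nlinarith
    exact h4 s
  -- Cauchy-Schwarz
  have h4 : (isum V M L) ^ 2 ≤ (L : ℝ) * (s * P + (s : ℝ) ^ 2 * (2 * A.length * Real.sqrt P)) := by
    have c1 : (isum V M L) ^ 2 ≤ (L : ℝ) * isum (fun n => V n ^ 2) M L := by
      unfold isum
      have := sq_sum_le_card_mul_sum_sq (s := Ico M (M + (L : ℤ))) (f := V)
      rw [Int.card_Ico] at this
      simpa using this
    have c2 : isum (fun n => V n ^ 2) M L ≤ isum (fun n => V n ^ 2) M P := by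
      unfold isum
      apply Finset.sum_le_sum_of_subset_of_nonneg
      · apply Finset.Ico_subset_Ico le_rfl
        have : (L : ℤ) ≤ P := by exact_mod_cast hLP
        linarith
      · intro n _ _
        positivity
    have c3 := moment h2 h5 hP hP2 hA hN M s hsP
    exact c1.trans (mul_le_mul_of_nonneg_left (c2.trans c3) (by positivity))
  have h5' : (isum V M L) ^ 2 ≤
      (s * Real.sqrt ((2 + 2 * A.length) * N * Real.sqrt P)) ^ 2 := by
    refine h4.trans ?_
    rw [mul_pow, Real.sq_sqrt (by positivity)]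
    have c1 : (s : ℝ) * P ≤ (s : ℝ) ^ 2 * (2 * Real.sqrt P) := by
      have : (P : ℝ) = Real.sqrt P * Real.sqrt P := (Real.mul_self_sqrt hPR.le).symm
      calc (s : ℝ) * P = s * (Real.sqrt P * Real.sqrt P) := by rw [← this]
        _ ≤ s * ((2 * s) * Real.sqrt P) := by gcongr
        _ = _ := by ring
    have c2 : (L : ℝ) ≤ N := by exact_mod_cast hLN
    calc (L : ℝ) * (s * P + (s : ℝ) ^ 2 * (2 * A.length * Real.sqrt P))
        ≤ (N : ℝ) * ((s : ℝ) ^ 2 * (2 * Real.sqrt P) + (s : ℝ) ^ 2 * (2 * A.length * Real.sqrt P)) := by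
          gcongr
      _ = _ := by ring
  have h6 : |isum V M L| ≤ s * Real.sqrt ((2 + 2 * A.length) * N * Real.sqrt P) :=
    abs_le_of_sq_le_sq h5' (by positivity)
  have h7 : (s : ℝ) * |S| ≤ s * (Real.sqrt ((2 + 2 * A.length) * N * Real.sqrt P) + s) := by
    have c1 : |(s : ℝ) * S| ≤ |isum V M L| + (s : ℝ) ^ 2 := by
      have := abs_sub_abs_le_abs_sub ((s : ℝ) * S) (isum V M L)
      linarith
    rw [abs_mul, abs_of_nonneg (by positivity : (0 : ℝ) ≤ s)] at c1
    nlinarith
  have h8 := le_of_mul_le_mul_left h7 (by positivity)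
  linarith

end ItemL1

open ItemL1 ItemG3 in
theorem claimL1 (h2 : ClaimG2) (h5 : ClaimG5) : ClaimL1 := by
  intro P A hP hP2 hA hNc N M L hL
  have hPR : (0 : ℝ) < P := by exact_mod_cast hP.pos
  have hF : ∀ n : ℤ, PJ P A (n + P) = PJ P A n := by
    intro n
    have := PJ_periodic P A n 1
    rwa [one_mul] at this
  have hT := complete h2 hP hP2 hA hNc
  have hsplit : L = L / P * P + L % P := by rw [Nat.div_add_mod' L P]
  rw [hsplit, isum_add, isum_blocks hF, isum_zero_range]
  calc |((L / P : ℕ) : ℝ) * ∑ x ∈ range P, PJ P A x + isum (PJ P A) (M + ((L / P * P : ℕ) : ℤ)) (L % P)|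
      ≤ |((L / P : ℕ) : ℝ) * ∑ x ∈ range P, PJ P A x| +
        |isum (PJ P A) (M + ((L / P * P : ℕ) : ℤ)) (L % P)| := abs_add_le _ _
    _ ≤ (N : ℝ) * A.length / Real.sqrt P +
        (Real.sqrt ((2 + 2 * A.length) * N * Real.sqrt P) + Real.sqrt P) := by
        apply add_le_add
        · rw [abs_mul, abs_of_nonneg (by positivity : (0 : ℝ) ≤ ((L / P : ℕ) : ℝ))]
          have c1 : ((L / P : ℕ) : ℝ) ≤ (N : ℝ) / P := by
            calc ((L / P : ℕ) : ℝ) ≤ (L : ℝ) / P := Nat.cast_div_le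
              _ ≤ (N : ℝ) / P := by
                  apply div_le_div_of_nonneg_right _ hPR.le
                  exact_mod_cast hL
          calc ((L / P : ℕ) : ℝ) * |∑ x ∈ range P, PJ P A x|
              ≤ (N : ℝ) / P * (A.length * Real.sqrt P) :=
                mul_le_mul c1 hT (abs_nonneg _) (by positivity)
            _ = (N : ℝ) * A.length / Real.sqrt P := by
                have h1 : Real.sqrt P * Real.sqrt P = P := Real.mul_self_sqrt hPR.le
                have h2 : Real.sqrt P ≠ 0 := (Real.sqrt_pos.2 hPR).ne'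
                rw [div_mul_eq_mul_div, div_eq_div_iff hPR.ne' h2]
                linear_combination ((N : ℝ) * A.length) * h1
        · apply short h2 h5 hP hP2 hA hNc
          · exact (Nat.mod_lt L hP.pos).le
          · exact (Nat.mod_le L P).trans hL
    _ = _ := by ring

end Pool.Agent.Work.MP_e0c7e8_nt.SM
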