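import Pool.Agent.Work.MP_e0c7e8_nt.SM.ItemL1
import Pool.Agent.Work.MP_e0c7e8_nt.SM.ItemG6
import Pool.Agent.Work.MP_e0c7e8_nt.SM.ItemG6b

/-!
# Item L2: iteration, the last modulus being a large prime
-/

set_option autoImplicit false

namespace Pool.Agent.Work.MP_e0c7e8_nt.SM

open Finset

/-- The numerical condition. -/
noncomputable def LC (a : ℝ) (P N : ℕ) : ℝ :=
  a / Real.sqrt P + Real.sqrt ((2 + 2 * a) * Real.sqrt P / N) + Real.sqrt P / N

/-- L2: the iteration. -/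
def ClaimL2 : Prop :=
  ∀ (qs : List ℕ) (P : ℕ) (A : List ℤ) (N H : ℕ) (δ : ℝ), P.Prime → P ≠ 2 → A ≠ [] →
    Nc P A → 0 < H → H ≤ P → 0 < N → 0 < δ → δ ≤ 1 → 1 / (H : ℝ) ≤ δ →
    (∀ q ∈ qs, 8 * q * H ≤ N) → (∀ q ∈ qs, q.Coprime P) → (∀ q ∈ qs, 0 < q) →
    LC ((A.length : ℝ) * 2 ^ qs.length) P N ≤ δ →
    SB (PJ (qs.prod * P) A) N (8 * N * δ ^ ((1 : ℝ) / 2 ^ qs.length))

/-- L2b: with a function of period `8`. -/
def ClaimL2b : Prop :=
  ∀ (q0 : ℕ) (qs : List ℕ) (P N H : ℕ) (δ : ℝ) (ψ : ℤ → ℝ), (∀ n, |ψ n| ≤ 1) →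
    (∀ n, ψ (n + 8) = ψ n) → P.Prime → P ≠ 2 →
    0 < H → H ≤ P → 0 < N → 0 < δ → δ ≤ 1 → 1 / (H : ℝ) ≤ δ →
    (∀ q ∈ q0 :: qs, 8 * q * H ≤ N) → (∀ q ∈ q0 :: qs, q.Coprime P) → (∀ q ∈ q0 :: qs, 0 < q) →
    LC ((2 : ℝ) ^ (qs.length + 1)) P N ≤ δ →
    SB (fun n => ψ n * ((jacobiSym n (q0 * (qs.prod * P)) : ℤ) : ℝ)) N
      (8 * N * δ ^ ((1 : ℝ) / 2 ^ (qs.length + 1)))

namespace ItemL2

/-- `P` does not divide the shifts. -/
lemma not_dvd_shift {P q h H : ℕ} (hP : P.Prime) (hP2 : P ≠ 2) (hq : q.Coprime P) (h0 : 1 ≤ h)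
    (hH : h < H) (hHP : H ≤ P) : ¬ (P : ℤ) ∣ ((8 * q : ℕ) : ℤ) * h := by
  intro hdvd
  have hdvd' : P ∣ 8 * q * h := by exact_mod_cast hdvd
  rcases (hP.dvd_mul).1 hdvd' with h1 | h1
  · rcases (hP.dvd_mul).1 h1 with h2 | h2
    · have : P ∣ 2 := hP.dvd_of_dvd_pow (show P ∣ 2 ^ 3 by simpa using h2)
      exact hP2 ((Nat.prime_dvd_prime_iff_eq hP Nat.prime_two).1 this)
    · have := Nat.dvd_gcd h2 (dvd_refl P)
      rw [Nat.Coprime] at hq
      rw [hq] at this
      exact hP.one_lt.ne' (Nat.dvd_one.1 this)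
  · exact absurd (Nat.le_of_dvd (by omega) h1) (by omega)

/-- Two shifts have nonconstant parity. -/
lemma nc_pair {P : ℕ} (hP : P.Prime) (hP2 : P ≠ 2) (t : ℤ) (ht : ¬ (P : ℤ) ∣ t) :
    Nc P [0, 0 + t] := by
  have hf : Fact P.Prime := ⟨hP⟩
  have hl3 : 3 ≤ P := by
    have := hP.two_le
    omega
  have ht0 : (t : ZMod P) ≠ 0 := by
    intro h0
    exact ht ((ZMod.intCast_zmod_eq_zero_iff_dvd _ P).1 h0)
  obtain ⟨r', hr'⟩ : ∃ r' : ZMod P, r' ≠ 0 ∧ r' ≠ (t : ZMod P) := by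
    by_contra hcon2
    push Not at hcon2
    have : (Finset.univ : Finset (ZMod P)) ⊆ {0, (t : ZMod P)} := by
      intro x _
      rw [mem_insert, mem_singleton]
      by_cases hx : x = 0
      · exact Or.inl hx
      · exact Or.inr (hcon2 x hx)
    have h5 := Finset.card_le_card this
    rw [Finset.card_univ, ZMod.card] at h5
    have h6 := Finset.card_le_two (a := (0 : ZMod P)) (b := (t : ZMod P))
    omega
  refine ⟨0, r', ?_, ?_⟩
  · have : cnt P [0, 0 + t] (0 : ZMod P) = 1 := by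
      unfold cnt
      simp only [List.map_cons, List.map_nil, List.count_cons, List.count_nil, zero_add]
      simp [ht0]
    rw [this]
    exact odd_one
  · have : cnt P [0, 0 + t] r' = 0 := by
      unfold cnt
      simp only [List.map_cons, List.map_nil, List.count_cons, List.count_nil, zero_add]
      have e1 : ((((0 : ℤ) : ZMod P) == r') : Bool) = false := by
        rw [Int.cast_zero, beq_eq_false_iff_ne]
        exact fun h => hr'.1 h.symm
      have e2 : (((t : ZMod P) == r') : Bool) = false := by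
        rw [beq_eq_false_iff_ne]
        exact fun h => hr'.2 h.symm
      rw [e1, e2]
      simp
    rw [this]
    decide

end ItemL2

open ItemL2 ItemG6 in
theorem claimL2 (h1 : ClaimL1) (h4 : ClaimG4) (h5 : ClaimG5) : ClaimL2 := by
  intro qs
  induction qs with
  | nil =>
    intro P A N H δ hP hP2 hA hNc hH hHP hN hδ hδ1 hHδ _ _ _ hfin
    have hNR : (0 : ℝ) < N := by exact_mod_cast hN
    have h := h1 P A hP hP2 hA hNc N
    simp only [List.prod_nil, one_mul, List.length_nil, pow_zero, mul_one, div_one,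
      Real.rpow_one] at hfin ⊢
    apply SB_mono h
    have e1 : (N : ℝ) * A.length / Real.sqrt P +
        Real.sqrt ((2 + 2 * A.length) * N * Real.sqrt P) + Real.sqrt P =
        N * LC (A.length : ℝ) P N := by
      unfold LC
      have c1 : (2 + 2 * (A.length : ℝ)) * N * Real.sqrt P =
          (N : ℝ) ^ 2 * ((2 + 2 * (A.length : ℝ)) * Real.sqrt P / N) := by
        field_simp
      rw [c1, Real.sqrt_mul (by positivity), Real.sqrt_sq hNR.le]
      have c2 : Real.sqrt P = N * (Real.sqrt P / N) := by field_simp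
      nth_rewrite 3 [c2]
      ring
    rw [e1]
    calc (N : ℝ) * LC (A.length : ℝ) P N ≤ N * δ := mul_le_mul_of_nonneg_left hfin hNR.le
      _ ≤ 8 * N * δ := by nlinarith [mul_pos hNR hδ]
  | cons q qs ih =>
    intro P A N H δ hP hP2 hA hNc hH hHP hN hδ hδ1 hHδ hq hcop hpos hfin
    have hq0 : 0 < q := hpos q (by simp)
    have hprod : 0 < qs.prod * P := by
      apply Nat.mul_pos _ hP.pos
      apply Nat.pos_of_ne_zero
      apply List.prod_ne_zero
      intro h0
      exact absurd (hpos 0 (by simp [h0])) (by omega)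
    have hne1 : NeZero q := ⟨hq0.ne'⟩
    have hne2 : NeZero (qs.prod * P) := ⟨hprod.ne'⟩
    have hIH : ∀ h : ℕ, 1 ≤ h → h < H →
        SB (fun n => PJ (qs.prod * P) A n * PJ (qs.prod * P) A (n + ((8 * q : ℕ) : ℤ) * h)) N
          (8 * N * δ ^ ((1 : ℝ) / 2 ^ qs.length)) := by
      intro h hh1 hhH
      have e : (fun n => PJ (qs.prod * P) A n * PJ (qs.prod * P) A (n + ((8 * q : ℕ) : ℤ) * h)) =
          PJ (qs.prod * P) (A ++ A.map (fun a => a + ((8 * q : ℕ) : ℤ) * h)) := by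
        funext n
        rw [PJ_append, PJ_shift]
      rw [e]
      apply ih P (A ++ A.map (fun a => a + ((8 * q : ℕ) : ℤ) * h)) N H δ hP hP2
        (by simp [hA]) _ hH hHP hN hδ hδ1 hHδ
        (fun x hx => hq x (by simp [hx])) (fun x hx => hcop x (by simp [hx]))
        (fun x hx => hpos x (by simp [hx]))
      · have e2 : (((A ++ A.map (fun a => a + ((8 * q : ℕ) : ℤ) * h)).length : ℕ) : ℝ) *
            2 ^ qs.length = (A.length : ℝ) * 2 ^ (q :: qs).length := by
          rw [List.length_append, List.length_map, List.length_cons]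
          push_cast
          ring
        rw [e2]
        exact hfin
      · exact h5 P hP hP2 A _ (not_dvd_shift hP hP2 (hcop q (by simp)) hh1 hhH hHP) hNc
    intro M L hL
    have hv := h4 (PJ q A) (PJ (qs.prod * P) A) (8 * q) N H (8 * N * δ ^ ((1 : ℝ) / 2 ^ qs.length))
      (abs_PJ_le _ _) (abs_PJ_le _ _)
      (fun n => by
        have := PJ_periodic q A n 8
        push_cast
        exact this) hH (by positivity) hIH M L hL
    have e3 : (fun n => PJ q A n * PJ (qs.prod * P) A n) = PJ ((q :: qs).prod * P) A := by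
      funext n
      rw [List.prod_cons, mul_assoc, PJ_mul q (qs.prod * P)]
    rw [e3] at hv
    rw [List.length_cons]
    exact num_step hN hH hδ hδ1 hHδ (hq q (by simp)) hv

open ItemL2 ItemG6 in
theorem claimL2b (h4 : ClaimG4) (h6 : ClaimL2) : ClaimL2b := by
  intro q0 qs P N H δ ψ hψ hper hP hP2 hH hHP hN hδ hδ1 hHδ hq hcop hpos hfin
  have hq0 : 0 < q0 := hpos q0 (by simp)
  have hprod : 0 < qs.prod * P := by
    apply Nat.mul_pos _ hP.pos
    apply Nat.pos_of_ne_zero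
    apply List.prod_ne_zero
    intro h0
    exact absurd (hpos 0 (by simp [h0])) (by omega)
  have hne1 : NeZero q0 := ⟨hq0.ne'⟩
  have hne2 : NeZero (qs.prod * P) := ⟨hprod.ne'⟩
  have hperk : ∀ (k : ℕ) (n : ℤ), ψ (n + 8 * k) = ψ n := by
    intro k
    induction k with
    | zero => intro n; simp
    | succ k ih =>
      intro n
      have : n + 8 * ((k + 1 : ℕ) : ℤ) = (n + 8 * k) + 8 := by push_cast; ring
      rw [this, hper, ih]
  have hIH : ∀ h : ℕ, 1 ≤ h → h < H →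
      SB (fun n => PJ (qs.prod * P) [0] n * PJ (qs.prod * P) [0] (n + ((8 * q0 : ℕ) : ℤ) * h)) N
        (8 * N * δ ^ ((1 : ℝ) / 2 ^ qs.length)) := by
    intro h hh1 hhH
    have e : (fun n => PJ (qs.prod * P) [0] n * PJ (qs.prod * P) [0] (n + ((8 * q0 : ℕ) : ℤ) * h)) =
        PJ (qs.prod * P) [0, 0 + ((8 * q0 : ℕ) : ℤ) * h] := by
      funext n
      rw [← PJ_shift, ← PJ_append]
      rfl
    rw [e]
    apply h6 qs P [0, 0 + ((8 * q0 : ℕ) : ℤ) * h] N H δ hP hP2
      (by simp) _ hH hHP hN hδ hδ1 hHδ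
      (fun x hx => hq x (by simp [hx])) (fun x hx => hcop x (by simp [hx]))
      (fun x hx => hpos x (by simp [hx]))
    · have e2 : ((([0, 0 + ((8 * q0 : ℕ) : ℤ) * h] : List ℤ).length : ℕ) : ℝ) *
          2 ^ qs.length = 2 ^ (qs.length + 1) := by
        simp only [List.length_cons, List.length_nil]
        push_cast
        ring
      rw [e2]
      exact hfin
    · exact nc_pair hP hP2 _ (not_dvd_shift hP hP2 (hcop q0 (by simp)) hh1 hhH hHP)
  have hPJ0 : ∀ (q : ℕ) (n : ℤ), PJ q [0] n = ((jacobiSym n q : ℤ) : ℝ) := by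
    intro q n
    simp [PJ]
  intro M L hL
  have hv := h4 (fun n => ψ n * PJ q0 [0] n) (PJ (qs.prod * P) [0]) (8 * q0) N H
    (8 * N * δ ^ ((1 : ℝ) / 2 ^ qs.length))
    (fun n => by
      rw [abs_mul]
      calc |ψ n| * |PJ q0 [0] n| ≤ 1 * 1 :=
            mul_le_mul (hψ n) (abs_PJ_le _ _ _) (abs_nonneg _) zero_le_one
        _ = 1 := one_mul 1)
    (abs_PJ_le _ _)
    (fun n => by
      have h7 := PJ_periodic q0 [0] n 8
      have h8 := hperk q0 n
      push_cast
      rw [h7, h8]) hH (by positivity) hIH M L hL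
  have e3 : (fun n => ψ n * PJ q0 [0] n * PJ (qs.prod * P) [0] n) =
      (fun n => ψ n * ((jacobiSym n (q0 * (qs.prod * P)) : ℤ) : ℝ)) := by
    funext n
    rw [mul_assoc, ← PJ_mul q0 (qs.prod * P), hPJ0]
  rw [e3] at hv
  exact num_step hN hH hδ hδ1 hHδ (hq q0 (by simp)) hv

end Pool.Agent.Work.MP_e0c7e8_nt.SM
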