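import Pool.Agent.Work.MP_e0c7e8_nt.SM.ItemL2
import Pool.Agent.Work.MP_e0c7e8_nt.SM.ItemG8

/-!
# Item L3: short sums of Jacobi symbols, one large prime
-/

set_option autoImplicit false

namespace Pool.Agent.Work.MP_e0c7e8_nt.SM

open Finset Filter Topology

/-- L3: the bound for odd squarefree moduli `P q`, `P` a large prime, `q` smooth. -/
def ClaimL3 : Prop :=
  ∀ η : ℝ, 0 < η → η < 1 → ∃ c : ℝ, 0 < c ∧ ∃ C : ℝ, 0 < C ∧
    ∀ (Y : ℝ) (P q N : ℕ) (ψ : ℤ → ℝ), 1 ≤ Y → (∀ n, |ψ n| ≤ 1) → (∀ n, ψ (n + 8) = ψ n) →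
      P.Prime → P ≠ 2 → Squarefree q → q.Coprime P → (q : ℝ) ≤ Y →
      Y ^ η ≤ P → (P : ℝ) * Y ^ η ≤ (N : ℝ) ^ 2 →
      (∀ p : ℕ, p.Prime → p ∣ q → (p : ℝ) * Y ^ η ≤ N) → Y ^ (2 * η) ≤ N →
      SB (fun n => ψ n * ((jacobiSym n (q * P) : ℤ) : ℝ)) N (C * N * Y ^ (-c))

namespace ItemL3

/-- the numerical condition -/
lemma cond {Y η a : ℝ} {P N : ℕ} (hY : 1 ≤ Y) (hη : 0 < η) (ha : 1 ≤ a) (hN : 0 < N)
    (h1 : Y ^ η ≤ P) (h2 : (P : ℝ) * Y ^ η ≤ (N : ℝ) ^ 2) :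
    LC a P N ≤ (5 * a) * Y ^ (-(η / 4)) := by
  have hY0 : 0 < Y := by linarith
  have hNR : (0 : ℝ) < N := by exact_mod_cast hN
  have hP0 : (0 : ℝ) < P := lt_of_lt_of_le (Real.rpow_pos_of_pos hY0 _) h1
  set y : ℝ := Y ^ (η / 4) with hy
  have hy1 : 1 ≤ y := Real.one_le_rpow hY (by positivity)
  have hy0 : 0 < y := by linarith
  have hyη : Y ^ η = y ^ 4 := by
    rw [hy, ← Real.rpow_natCast, ← Real.rpow_mul hY0.le]
    congr 1
    push_cast
    ring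
  have hyn : Y ^ (-(η / 4)) = 1 / y := by
    rw [Real.rpow_neg hY0.le, ← hy, one_div]
  rw [hyn]
  set r : ℝ := Real.sqrt P with hr
  have hr0 : 0 < r := Real.sqrt_pos.2 hP0
  have hrr : r ^ 2 = P := Real.sq_sqrt hP0.le
  have hry : y ^ 2 ≤ r := by
    rw [hr]
    apply Real.le_sqrt_of_sq_le
    rw [← pow_mul]
    rw [hyη] at h1
    exact h1
  have hrN : r * y ^ 2 ≤ N := by
    have : (r * y ^ 2) ^ 2 ≤ (N : ℝ) ^ 2 := by
      rw [mul_pow, hrr, ← pow_mul]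
      rw [hyη] at h2
      exact h2
    exact (pow_le_pow_iff_left₀ (by positivity) hNR.le two_ne_zero).1 this
  have hrN' : r / N ≤ 1 / y ^ 2 := by
    rw [div_le_div_iff₀ hNR (by positivity), one_mul]
    exact hrN
  have hyy : 1 / y ^ 2 ≤ 1 / y := by
    apply one_div_le_one_div_of_le hy0
    nlinarith
  unfold LC
  have t1 : a / r ≤ a * (1 / y) := by
    rw [div_eq_mul_one_div]
    apply mul_le_mul_of_nonneg_left _ (by linarith)
    apply one_div_le_one_div_of_le hy0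
    nlinarith
  have t2 : Real.sqrt ((2 + 2 * a) * r / N) ≤ 2 * a * (1 / y) := by
    apply Real.sqrt_le_iff.2
    refine ⟨by positivity, ?_⟩
    calc (2 + 2 * a) * r / N = (2 + 2 * a) * (r / N) := by ring
      _ ≤ (2 + 2 * a) * (1 / y ^ 2) := mul_le_mul_of_nonneg_left hrN' (by linarith)
      _ ≤ (4 * a ^ 2) * (1 / y ^ 2) := by
          apply mul_le_mul_of_nonneg_right _ (by positivity)
          nlinarith
      _ = (2 * a * (1 / y)) ^ 2 := by
          rw [mul_pow, mul_pow, div_pow]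
          ring
  have t3 : r / N ≤ a * (1 / y) := by
    calc r / N ≤ 1 / y := hrN'.trans hyy
      _ = 1 * (1 / y) := (one_mul _).symm
      _ ≤ a * (1 / y) := mul_le_mul_of_nonneg_right ha (by positivity)
  have hpos : 0 ≤ a * (1 / y) := by positivity
  linarith

end ItemL3

theorem claimL3 (h6b : ClaimL2b) (h7 : ClaimG7) : ClaimL3 := by
  intro η hη hη1
  obtain ⟨s, hs⟩ := exists_nat_ge (2 / η)
  have hs2 : 2 ≤ (s : ℝ) * η := (div_le_iff₀ hη).1 hs
  obtain ⟨κ, hκ⟩ : ∃ κ : ℝ, κ = η / 4 := ⟨_, rfl⟩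
  obtain ⟨a, ha⟩ : ∃ a : ℝ, a = 2 ^ (s + 1) := ⟨_, rfl⟩
  have ha1 : 1 ≤ a := by rw [ha]; exact one_le_pow₀ (by norm_num)
  have hκ0 : 0 < κ := by rw [hκ]; positivity
  have hκη : κ < η := by rw [hκ]; linarith
  have ev : ∀ᶠ Y : ℝ in atTop, 8 ≤ Y ^ (η - κ) ∧ 5 * a ≤ Y ^ κ :=
    ((tendsto_rpow_atTop (by linarith : 0 < η - κ)).eventually_ge_atTop 8).and
      ((tendsto_rpow_atTop hκ0).eventually_ge_atTop (5 * a))
  obtain ⟨Y0, hY0⟩ := eventually_atTop.1 ev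
  have hc0 : 0 < κ / 2 ^ (s + 1) := by positivity
  have hZ : 0 < (max Y0 1) ^ (κ / 2 ^ (s + 1)) :=
    Real.rpow_pos_of_pos (lt_of_lt_of_le zero_lt_one (le_max_right _ _)) _
  have hD : 0 < (5 * a) ^ ((1 : ℝ) / 2 ^ (s + 1)) := Real.rpow_pos_of_pos (by linarith) _
  refine ⟨κ / 2 ^ (s + 1), hc0, (max Y0 1) ^ (κ / 2 ^ (s + 1)) +
    8 * (5 * a) ^ ((1 : ℝ) / 2 ^ (s + 1)), by positivity, ?_⟩
  intro Y P q N ψ hY hψ hψ8 hP hP2 hsf hcop hqY hPY hPN hp hN2 M L hL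
  have hYpos : 0 < Y := by linarith
  have hYc : 0 < Y ^ (-(κ / 2 ^ (s + 1))) := Real.rpow_pos_of_pos hYpos _
  have hNr0 : (0 : ℝ) ≤ N := Nat.cast_nonneg N
  rcases lt_or_ge Y Y0 with hlt | hge
  · -- trivial bound
    have h1 := abs_isum_le (ItemG8.abs_le_one hψ (q * P)) M L
    have h2 : (L : ℝ) ≤ N := by exact_mod_cast hL
    have h3 : Y ^ (κ / 2 ^ (s + 1)) ≤ (max Y0 1) ^ (κ / 2 ^ (s + 1)) :=
      Real.rpow_le_rpow hYpos.le (hlt.le.trans (le_max_left _ _)) hc0.le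
    have h4 : Y ^ (κ / 2 ^ (s + 1)) * Y ^ (-(κ / 2 ^ (s + 1))) = 1 := by
      rw [← Real.rpow_add hYpos, add_neg_cancel, Real.rpow_zero]
    have h5 : 1 ≤ ((max Y0 1) ^ (κ / 2 ^ (s + 1)) + 8 * (5 * a) ^ ((1 : ℝ) / 2 ^ (s + 1))) *
        Y ^ (-(κ / 2 ^ (s + 1))) := by
      refine h4.symm.le.trans (mul_le_mul_of_nonneg_right ?_ hYc.le)
      linarith
    calc |isum (fun n => ψ n * ((jacobiSym n (q * P) : ℤ) : ℝ)) M L| ≤ L := h1
      _ ≤ N := h2
      _ = 1 * N := (one_mul _).symm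
      _ ≤ (((max Y0 1) ^ (κ / 2 ^ (s + 1)) + 8 * (5 * a) ^ ((1 : ℝ) / 2 ^ (s + 1))) *
        Y ^ (-(κ / 2 ^ (s + 1)))) * N := mul_le_mul_of_nonneg_right h5 hNr0
      _ = _ := by ring
  · obtain ⟨hY8, hYC⟩ := hY0 Y hge
    have hY1 : 1 < Y := by
      rcases eq_or_lt_of_le hY with h | h
      · rw [← h, Real.one_rpow] at hY8
        norm_num at hY8
      · exact h
    have hYη : 1 < Y ^ η := Real.one_lt_rpow hY1 hη
    have hYη0 : 0 < Y ^ η := by linarith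
    have hB : Y ^ η ≤ (N : ℝ) / Y ^ η := by
      rw [le_div_iff₀ hYη0, ← Real.rpow_add hYpos]
      have : η + η = 2 * η := by ring
      rw [this]
      exact hN2
    have hNpos : 0 < N := by
      rcases Nat.eq_zero_or_pos N with h | h
      · rw [h] at hB
        simp at hB
        linarith
      · exact h
    have hNr : (0 : ℝ) < N := by exact_mod_cast hNpos
    have hq2 : (q : ℝ) ^ 2 ≤ ((N : ℝ) / Y ^ η) ^ (s + 1) := by
      have e1 : (q : ℝ) ^ 2 ≤ Y ^ 2 := pow_le_pow_left₀ (Nat.cast_nonneg q) hqY 2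
      have e2 : Y ^ 2 ≤ (Y ^ η) ^ (s + 1) := by
        rw [← Real.rpow_natCast Y 2, ← Real.rpow_natCast (Y ^ η) (s + 1), ← Real.rpow_mul hYpos.le]
        apply Real.rpow_le_rpow_of_exponent_le hY
        push_cast
        nlinarith
      exact e1.trans (e2.trans (pow_le_pow_left₀ hYη0.le hB _))
    obtain ⟨qs, m, hlen, hprod, hqsB, hmB, hqm⟩ := h7 q s ((N : ℝ) / Y ^ η) hsf
      (lt_of_lt_of_le hYη hB) (fun p hp1 hp2 => by
        rw [le_div_iff₀ hYη0]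
        exact hp p hp1 hp2) hq2
    have hq0 : q ≠ 0 := hsf.ne_zero
    have hm0 : m ≠ 0 := by
      rintro rfl
      rw [mul_zero] at hprod
      exact hq0 hprod.symm
    have hqs0 : qs.prod ≠ 0 := by
      intro h
      rw [h, zero_mul] at hprod
      exact hq0 hprod.symm
    have hmq : m ∣ q := ⟨qs.prod, by rw [← hprod]; ring⟩
    have hxpos : ∀ x ∈ m :: qs, 0 < x := by
      intro x hx
      rcases List.mem_cons.1 hx with h | h
      · rw [h]; omega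
      · rcases Nat.eq_zero_or_pos x with h' | h'
        · rw [h'] at h
          exact absurd (List.prod_eq_zero h) hqs0
        · exact h'
    have hxcop : ∀ x ∈ m :: qs, x.Coprime P := by
      intro x hx
      rcases List.mem_cons.1 hx with h | h
      · rw [h]; exact Nat.Coprime.coprime_dvd_left hmq hcop
      · exact Nat.Coprime.coprime_dvd_left ((List.dvd_prod h).trans ⟨m, hprod.symm⟩) hcop
    have hxB : ∀ x ∈ m :: qs, (x : ℝ) ≤ (N : ℝ) / Y ^ η := by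
      intro x hx
      rcases List.mem_cons.1 hx with h | h
      · rw [h]; exact hmB
      · exact hqsB x h
    -- the parameter H
    have hYκ : 1 ≤ Y ^ κ := Real.one_le_rpow hY hκ0.le
    obtain ⟨H, hH⟩ : ∃ H : ℕ, H = ⌊Y ^ κ⌋₊ := ⟨_, rfl⟩
    have hH1 : 1 ≤ H := by
      rw [hH]
      exact Nat.le_floor (by exact_mod_cast hYκ)
    have hHle : (H : ℝ) ≤ Y ^ κ := by
      rw [hH]
      exact Nat.floor_le (by positivity)
    have hHP : H ≤ P := by
      have h1 : (H : ℝ) ≤ P := by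
        refine hHle.trans (le_trans ?_ hPY)
        exact Real.rpow_le_rpow_of_exponent_le hY hκη.le
      exact_mod_cast h1
    have hHge : Y ^ κ ≤ 2 * H := by
      have h1 : Y ^ κ < H + 1 := by
        rw [hH]
        exact Nat.lt_floor_add_one _
      have h2 : (1 : ℝ) ≤ H := by exact_mod_cast hH1
      linarith
    have hHpos : (0 : ℝ) < H := by exact_mod_cast hH1
    have hYnk : Y ^ (-κ) = (Y ^ κ)⁻¹ := Real.rpow_neg hYpos.le κ
    have hYκ0 : 0 < Y ^ κ := by linarith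
    have hδ0 : 0 < (5 * a) * Y ^ (-κ) := by positivity
    have hδ1 : (5 * a) * Y ^ (-κ) ≤ 1 := by
      rw [hYnk, ← div_eq_mul_inv, div_le_one hYκ0]
      exact hYC
    have hHδ : 1 / (H : ℝ) ≤ (5 * a) * Y ^ (-κ) := by
      have h1 : 1 / (H : ℝ) ≤ 2 * Y ^ (-κ) := by
        rw [hYnk, div_le_iff₀ hHpos, mul_assoc, mul_comm (Y ^ κ)⁻¹, ← mul_assoc,
          ← div_eq_mul_inv, one_le_div hYκ0]
        exact hHge
      refine h1.trans (mul_le_mul_of_nonneg_right ?_ (by positivity))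
      linarith
    have h8 : ∀ x ∈ m :: qs, 8 * x * H ≤ N := by
      intro x hx
      have h1 : (8 : ℝ) * x * H ≤ N := by
        have h2 := hxB x hx
        have h3 : Y ^ (η - κ) * Y ^ κ = Y ^ η := by
          rw [← Real.rpow_add hYpos, sub_add_cancel]
        calc (8 : ℝ) * x * H ≤ Y ^ (η - κ) * ((N : ℝ) / Y ^ η) * Y ^ κ := by
              gcongr
          _ = (Y ^ (η - κ) * Y ^ κ) * ((N : ℝ) / Y ^ η) := by ring
          _ = N := by
              rw [h3]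
              field_simp
      exact_mod_cast h1
    have hcond : LC ((2 : ℝ) ^ (qs.length + 1)) P N ≤ (5 * a) * Y ^ (-κ) := by
      rw [hlen, ← ha, hκ]
      exact ItemL3.cond hY hη ha1 hNpos hPY hPN
    have hfin := h6b m qs P N H ((5 * a) * Y ^ (-κ)) ψ hψ hψ8 hP hP2
      (by omega) hHP hNpos hδ0 hδ1 hHδ h8 hxcop hxpos hcond M L hL
    have hqeq : m * (qs.prod * P) = q * P := by
      rw [← hprod]
      ring
    rw [hqeq, hlen] at hfin
    refine hfin.trans ?_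
    have e1 : ((5 * a) * Y ^ (-κ)) ^ ((1 : ℝ) / 2 ^ (s + 1)) =
        (5 * a) ^ ((1 : ℝ) / 2 ^ (s + 1)) * Y ^ (-(κ / 2 ^ (s + 1))) := by
      rw [Real.mul_rpow (by linarith) (by positivity), ← Real.rpow_mul hYpos.le]
      congr 2
      ring
    rw [e1]
    have e2 : 8 * (N : ℝ) * ((5 * a) ^ ((1 : ℝ) / 2 ^ (s + 1)) * Y ^ (-(κ / 2 ^ (s + 1)))) =
        8 * (5 * a) ^ ((1 : ℝ) / 2 ^ (s + 1)) * N * Y ^ (-(κ / 2 ^ (s + 1))) := by ring
    rw [e2]
    apply mul_le_mul_of_nonneg_right _ hYc.le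
    apply mul_le_mul_of_nonneg_right _ hNr0
    linarith

end Pool.Agent.Work.MP_e0c7e8_nt.SM
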