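import Pool.Agent.Work.MP_e0c7e8_nt.SM.ItemL3
import Pool.Agent.Work.MP_e0c7e8_nt.SM.ItemG10

/-!
# Item L4: short character sums, one large prime allowed
-/

set_option autoImplicit false

namespace Pool.Agent.Work.MP_e0c7e8_nt.SM

open Finset

/-- All primes dividing `d` to an odd power are at most `B`, except possibly one, which is at
most `B ^ 2`. -/
def Smp (d : ℤ) (B : ℝ) : Prop :=
  ∃ P : ℕ, (P : ℝ) ≤ B ^ 2 ∧ ∀ p : ℕ, p.Prime → p ≠ P → Odd (padicValInt p d) → (p : ℝ) ≤ B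

/-- L4: short character sums for all nonsquare `d`. -/
def ClaimL4 : Prop :=
  ∀ η : ℝ, 0 < η → η < 1 → ∃ c : ℝ, 0 < c ∧ ∃ C : ℝ, 0 < C ∧
    ∀ (Y : ℝ) (d : ℤ) (N : ℕ), 1 ≤ Y → |(d : ℝ)| ≤ Y → ¬ IsSquare d →
      Smp d ((N : ℝ) / Y ^ η) → Y ^ (2 * η) ≤ N →
      |∑ n ∈ Icc 1 N, (chi d n : ℝ)| ≤ C * N * Y ^ (-c)

namespace ItemL4

open ItemG10

/-- `core` with a large prime -/
theorem core2 (η c1 C1 : ℝ) (hη : 0 < η) (hc1 : 0 < c1) (hC1 : 0 < C1)
    (h8 : ∀ (Y : ℝ) (P q N : ℕ) (ψ : ℤ → ℝ), 1 ≤ Y → (∀ n, |ψ n| ≤ 1) → (∀ n, ψ (n + 8) = ψ n) →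
      P.Prime → P ≠ 2 → Squarefree q → q.Coprime P → (q : ℝ) ≤ Y →
      Y ^ (η / 2) ≤ P → (P : ℝ) * Y ^ (η / 2) ≤ (N : ℝ) ^ 2 →
      (∀ p : ℕ, p.Prime → p ∣ q → (p : ℝ) * Y ^ (η / 2) ≤ N) → Y ^ (2 * (η / 2)) ≤ N →
      SB (fun n => ψ n * ((jacobiSym n (q * P) : ℤ) : ℝ)) N (C1 * N * Y ^ (-c1)))
    (h9 : ClaimG9) (Y : ℝ) (hY : 1 ≤ Y) (hY2 : 2 ≤ Y ^ (η / 4)) (d : ℤ)
    (hsq : Squarefree d) (hdY : |(d : ℝ)| ≤ Y) (N e : ℕ) (he : 1 ≤ e)
    (heY : (e : ℝ) ≤ Y ^ (η / 4)) (hN : Y ^ (2 * η) ≤ N) (P : ℕ) (hP : P.Prime)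
    (hPd : P ∣ d.natAbs) (hPl : (N : ℝ) / Y ^ η < P) (hPu : (P : ℝ) ≤ (N / Y ^ η) ^ 2)
    (hp : ∀ p : ℕ, p.Prime → p ≠ P → p ∣ d.natAbs → (p : ℝ) ≤ N / Y ^ η) :
    |∑ m ∈ Icc 1 (N / e), (chi d m : ℝ)| ≤ (C1 + 1) * (N * Y ^ (-(min c1 (η / 4)))) := by
  have hY0 : 0 < Y := by linarith
  have hN0 : (0 : ℝ) ≤ N := Nat.cast_nonneg N
  set c2 := min c1 (η / 4) with hc2
  have hc2a : c2 ≤ c1 := min_le_left _ _
  have hc2b : c2 ≤ η / 4 := min_le_right _ _
  have hT : 0 ≤ N * Y ^ (-c2) := by positivity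
  have hYη : 0 < Y ^ η := by positivity
  obtain ⟨q', ψ, hqo, hqs, hqd, hdq, hψ1, hψ8, hchi⟩ := h9 d hsq
  set M := N / e with hM
  have he0 : (0 : ℝ) < e := by exact_mod_cast he
  have hdabs : |(d : ℝ)| = (d.natAbs : ℝ) := by
    rw [Nat.cast_natAbs, Int.cast_abs]
  have hd0 : d ≠ 0 := hsq.ne_zero
  -- lower bound for P
  have hPlow : Y ^ η < P := by
    refine lt_of_le_of_lt ?_ hPl
    rw [le_div_iff₀ hYη, ← Real.rpow_add hY0]
    have : η + η = 2 * η := by ring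
    rw [this]
    exact hN
  have hPodd : P ≠ 2 := by
    rintro rfl
    have h1 : Y ^ (η / 4) ≤ Y ^ η := Real.rpow_le_rpow_of_exponent_le hY (by linarith)
    push_cast at hPlow
    linarith
  -- P divides q'
  have hPq : P ∣ q' := by
    have h1 : (d.natAbs : ℕ) ≤ 2 * q' := hdq
    obtain ⟨w, hw⟩ := hqd
    have hq'0 : 0 < q' := hqo.pos
    have hw2 : w ≤ 2 := by
      by_contra hcon
      push Not at hcon
      have : q' * w ≤ q' * 2 := by rw [← hw]; linarith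
      have := Nat.le_of_mul_le_mul_left this hq'0
      omega
    rw [hw] at hPd
    rcases (hP.dvd_mul).1 hPd with h | h
    · exact h
    · exfalso
      have hw0 : w ≠ 0 := by
        rintro rfl
        rw [mul_zero] at hw
        exact hd0 (Int.natAbs_eq_zero.1 hw)
      have h3 := Nat.le_of_dvd (Nat.pos_of_ne_zero hw0) h
      have h4 := hP.two_le
      have : P = 2 := by omega
      exact hPodd this
  obtain ⟨q, hq⟩ := hPq
  have hq0 : 0 < q := by
    rcases Nat.eq_zero_or_pos q with h | h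
    · rw [h, mul_zero] at hq
      exact absurd hqo.pos (by omega)
    · exact h
  have hqP : q' = q * P := by rw [hq]; ring
  have hqsf : Squarefree (q * P) := by rw [← hqP]; exact hqs
  have hqcop : q.Coprime P := ((Nat.squarefree_mul_iff).1 hqsf).1
  have hqsq : Squarefree q := ((Nat.squarefree_mul_iff).1 hqsf).2.1
  have hMlow : (N : ℝ) * Y ^ (-(η / 2)) ≤ M := by
    have h1 : (N : ℝ) / e < M + 1 := by
      rw [div_lt_iff₀ he0]
      have : N < (N / e + 1) * e := by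
        rw [mul_comm]
        exact Nat.lt_mul_div_succ N he
      exact_mod_cast this
    set u := Y ^ (-(η / 4)) with hu
    have hu0 : 0 < u := by positivity
    have hu1 : u * Y ^ (η / 4) = 1 := by
      rw [hu, ← Real.rpow_add hY0]
      simp
    have hu2 : u ≤ 1 / 2 := by
      rw [le_div_iff₀ (by norm_num)]
      nlinarith
    have hu3 : Y ^ (-(η / 2)) = u * u := by
      rw [hu, ← Real.rpow_add hY0]
      congr 1; ring
    have hNe : (N : ℝ) * u ≤ N / e := by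
      rw [le_div_iff₀ he0, mul_assoc]
      have : u * e ≤ 1 := by
        rw [← hu1]
        exact mul_le_mul_of_nonneg_left heY hu0.le
      nlinarith
    have h2 : 2 ≤ (N : ℝ) * u := by
      calc (2 : ℝ) ≤ Y ^ (η / 4) := hY2
        _ ≤ Y ^ (2 * η - η / 4) := Real.rpow_le_rpow_of_exponent_le hY (by linarith)
        _ = Y ^ (2 * η) * u := by rw [hu, ← Real.rpow_add hY0]; congr 1
        _ ≤ N * u := mul_le_mul_of_nonneg_right hN hu0.le
    rw [hu3]
    nlinarith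
  have hMN : (M : ℝ) ≤ N := by exact_mod_cast Nat.div_le_self N e
  have h22 : Y ^ η = Y ^ (η / 2) * Y ^ (η / 2) := by
    rw [← Real.rpow_add hY0]; congr 1; ring
  have h33 : Y ^ (η / 2) * Y ^ (-(η / 2)) = 1 := by
    rw [← Real.rpow_add hY0]; simp
  have h44 : 0 < Y ^ (-(η / 2)) := by positivity
  have h55 : 0 < Y ^ (η / 2) := by positivity
  have hsb := h8 Y P q M ψ hY hψ1 hψ8 hP hPodd hqsq hqcop ?_ ?_ ?_ ?_ ?_ 1 M le_rfl
  · have h1 : ∑ m ∈ Icc 1 M, (chi d m : ℝ) =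
        isum (fun n => ψ n * ((jacobiSym n (q * P) : ℤ) : ℝ)) 1 M := by
      rw [isum_eq]
      refine Finset.sum_congr rfl fun n _ => ?_
      rw [hchi n, hqP]
    rw [h1]
    refine hsb.trans ?_
    have h2 : Y ^ (-c1) ≤ Y ^ (-c2) := Real.rpow_le_rpow_of_exponent_le hY (by linarith)
    calc C1 * M * Y ^ (-c1) ≤ C1 * N * Y ^ (-c2) := by gcongr
      _ ≤ (C1 + 1) * (N * Y ^ (-c2)) := by nlinarith
  · rw [hdabs] at hdY
    refine le_trans ?_ hdY
    have h1 : q ∣ d.natAbs := Dvd.dvd.trans ⟨P, hqP⟩ hqd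
    exact_mod_cast Nat.le_of_dvd (Int.natAbs_pos.2 hd0) h1
  · refine le_trans ?_ hPlow.le
    exact Real.rpow_le_rpow_of_exponent_le hY (by linarith)
  · -- P Y^(η/2) ≤ M^2
    have h1 : (P : ℝ) * (Y ^ η) ^ 2 ≤ (N : ℝ) ^ 2 := by
      rw [div_pow, le_div_iff₀ (by positivity)] at hPu
      exact hPu
    have h2 : ((N : ℝ) * Y ^ (-(η / 2))) ^ 2 ≤ (M : ℝ) ^ 2 :=
      pow_le_pow_left₀ (by positivity) hMlow 2
    refine le_trans ?_ h2
    have hone : 1 ≤ Y ^ (η / 2) := Real.one_le_rpow hY (by positivity)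
    calc (P : ℝ) * Y ^ (η / 2) ≤ (P : ℝ) * (Y ^ (η / 2) * Y ^ (η / 2)) := by
          apply mul_le_mul_of_nonneg_left _ (by positivity)
          nlinarith
      _ = (P : ℝ) * (Y ^ η) ^ 2 * (Y ^ (-(η / 2))) ^ 2 := by
          rw [h22]
          have : (Y ^ (η / 2) * Y ^ (η / 2)) ^ 2 * (Y ^ (-(η / 2))) ^ 2 =
              (Y ^ (η / 2) * Y ^ (η / 2)) * (Y ^ (η / 2) * Y ^ (-(η / 2))) ^ 2 := by ring
          rw [mul_assoc, this, h33]
          ring
      _ ≤ (N : ℝ) ^ 2 * (Y ^ (-(η / 2))) ^ 2 := mul_le_mul_of_nonneg_right h1 (by positivity)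
      _ = ((N : ℝ) * Y ^ (-(η / 2))) ^ 2 := by ring
  · intro p hpp hpq
    have hpP : p ≠ P := by
      rintro rfl
      have := Nat.dvd_gcd hpq (dvd_refl p)
      rw [Nat.Coprime] at hqcop
      rw [hqcop] at this
      exact hpp.one_lt.ne' (Nat.dvd_one.1 this)
    have h1 := hp p hpp hpP (hpq.trans (Dvd.dvd.trans ⟨P, hqP⟩ hqd))
    refine le_trans ?_ hMlow
    rw [le_div_iff₀ hYη] at h1
    calc (p : ℝ) * Y ^ (η / 2) = p * Y ^ η * Y ^ (-(η / 2)) := by
          rw [h22]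
          linear_combination -(p : ℝ) * Y ^ (η / 2) * h33
      _ ≤ N * Y ^ (-(η / 2)) := mul_le_mul_of_nonneg_right h1 h44.le
  · refine le_trans ?_ hMlow
    calc Y ^ (2 * (η / 2)) ≤ Y ^ (2 * η - η / 2) :=
          Real.rpow_le_rpow_of_exponent_le hY (by linarith)
      _ = Y ^ (2 * η) * Y ^ (-(η / 2)) := by rw [← Real.rpow_add hY0]; congr 1
      _ ≤ N * Y ^ (-(η / 2)) := mul_le_mul_of_nonneg_right hN (by positivity)

end ItemL4

open ItemG10 ItemL4 in
theorem claimL4 (h8 : ClaimL3) (h9 : ClaimG9) (h10 : ClaimG10) : ClaimL4 := by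
  intro η hη hη1
  obtain ⟨c0, hc0, C0, hC0, h10'⟩ := h10 η hη hη1
  obtain ⟨c1, hc1, C1, hC1, h8'⟩ := h8 (η / 2) (by positivity) (by linarith)
  obtain ⟨c2, hc2⟩ : ∃ c2, c2 = min c1 (η / 4) := ⟨_, rfl⟩
  have hc20 : 0 < c2 := by rw [hc2]; exact lt_min hc1 (by positivity)
  have hc2b : c2 ≤ η / 4 := by rw [hc2]; exact min_le_right _ _
  obtain ⟨C2, hC2, hdiv⟩ := Pool.Agent.Work.MP_e0aece_nt.exists_divisor_bound (c2 / 2)
    (by positivity)
  obtain ⟨c3, hc3, hc3a, hc3b⟩ : ∃ c3 : ℝ, 0 < c3 ∧ c3 ≤ c0 ∧ c3 ≤ c2 / 2 :=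
    ⟨min c0 (c2 / 2), lt_min hc0 (by positivity), min_le_left _ _, min_le_right _ _⟩
  refine ⟨c3, hc3, C0 + (C2 * (C1 + 1) + 2), by positivity, ?_⟩
  intro Y d N hY hdY hd hSmp hN
  have hY0 : 0 < Y := by linarith
  have hN0 : (0 : ℝ) ≤ N := Nat.cast_nonneg N
  have hYη : 0 < Y ^ η := by positivity
  have hcmp0 : Y ^ (-c0) ≤ Y ^ (-c3) := Real.rpow_le_rpow_of_exponent_le hY (by linarith)
  have hcmp2 : Y ^ (-(c2 / 2)) ≤ Y ^ (-c3) := Real.rpow_le_rpow_of_exponent_le hY (by linarith)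
  have hpos3 : 0 ≤ (N : ℝ) * Y ^ (-c3) := by positivity
  have hCpos : 0 ≤ C2 * (C1 + 1) + 2 := by positivity
  by_cases hS : Smo d ((N : ℝ) / Y ^ η)
  · refine (h10' Y d N hY hdY hd hS hN).trans ?_
    calc C0 * N * Y ^ (-c0) ≤ C0 * N * Y ^ (-c3) := by gcongr
      _ = C0 * (N * Y ^ (-c3)) := by ring
      _ ≤ (C0 + (C2 * (C1 + 1) + 2)) * (N * Y ^ (-c3)) := by
          apply mul_le_mul_of_nonneg_right _ hpos3
          linarith
      _ = _ := by ring
  · obtain ⟨P, hPB, hPp⟩ := hSmp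
    unfold Smo at hS
    push Not at hS
    obtain ⟨p0, hp0, hp0odd, hp0B⟩ := hS
    have hp0P : p0 = P := by
      by_contra hne
      exact absurd (hPp p0 hp0 hne hp0odd) (not_le.2 hp0B)
    subst hp0P
    have key : |∑ n ∈ Icc 1 N, (chi d n : ℝ)| ≤ (C2 * (C1 + 1) + 2) * N * Y ^ (-(c2 / 2)) := by
      by_cases hY2 : 2 ≤ Y ^ (η / 4)
      · obtain ⟨d', s, hs, hsq, hdd, hd', hle1, hle2, hodd⟩ := decomp d hd
        have hdabs : |(d : ℝ)| = (d.natAbs : ℝ) := by rw [Nat.cast_natAbs, Int.cast_abs]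
        have hdabs' : |(d' : ℝ)| = (d'.natAbs : ℝ) := by rw [Nat.cast_natAbs, Int.cast_abs]
        have hd'Y : |(d' : ℝ)| ≤ Y := by
          rw [hdabs']
          rw [hdabs] at hdY
          exact le_trans (by exact_mod_cast hle1) hdY
        have hsY : (s : ℝ) ≤ Y := by
          rw [hdabs] at hdY
          exact le_trans (by exact_mod_cast hle2) hdY
        have hPd' : p0 ∣ d'.natAbs := by
          by_contra hcon
          have : Fact p0.Prime := ⟨hp0⟩
          have hd'0 : d'.natAbs ≠ 0 := Int.natAbs_ne_zero.2 hsq.ne_zero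
          unfold padicValInt at hp0odd
          rw [hdd, Int.natAbs_mul, Int.natAbs_pow, Int.natAbs_natCast,
            padicValNat.mul hd'0 (pow_ne_zero 2 hs), padicValNat.pow,
            padicValNat.eq_zero_of_not_dvd hcon, zero_add] at hp0odd
          exact (Nat.not_even_iff_odd.2 hp0odd) (even_two_mul _)
        have h1 : ∑ n ∈ Icc 1 N, (chi d n : ℝ) =
            ∑ n ∈ Icc 1 N, ((if Nat.Coprime s n then chi d' n else 0 : ℤ) : ℝ) := by
          refine Finset.sum_congr rfl fun n _ => ?_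
          rw [hdd, chi_sq]
        rw [h1]
        have h2 := abs_coprime_sum d' s N hs ((C1 + 1) * (N * Y ^ (-c2))) (by
          intro e he
          have he1 : 1 ≤ e := Nat.pos_of_mem_divisors he
          have he0 : (0 : ℝ) < e := by exact_mod_cast he1
          by_cases heY : (e : ℝ) ≤ Y ^ (η / 4)
          · rw [hc2]
            exact core2 η c1 C1 hη hc1 hC1 h8' h9 Y hY hY2 d' hsq hd'Y N e he1 heY hN
              p0 hp0 hPd' hp0B hPB
              (fun p hp hpP hpd => hPp p hp hpP (hodd p hp hpd))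
          · push Not at heY
            refine (trivial_bound d' (N / e)).trans ?_
            have h3 : ((N / e : ℕ) : ℝ) ≤ N / e := Nat.cast_div_le
            refine h3.trans ?_
            have h4 : (N : ℝ) / e ≤ N * Y ^ (-c2) := by
              rw [div_eq_mul_inv]
              refine mul_le_mul_of_nonneg_left ?_ hN0
              rw [Real.rpow_neg hY0.le]
              have h5 : Y ^ c2 ≤ Y ^ (η / 4) := Real.rpow_le_rpow_of_exponent_le hY hc2b
              exact inv_anti₀ (by positivity) (h5.trans heY.le)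
            have h6 : 0 ≤ N * Y ^ (-c2) := by positivity
            nlinarith)
        refine h2.trans ?_
        have h3 : (s.divisors.card : ℝ) ≤ C2 * Y ^ (c2 / 2) := by
          refine (hdiv s (Nat.pos_of_ne_zero hs)).trans ?_
          gcongr
        have h4 : Y ^ (c2 / 2) * Y ^ (-c2) = Y ^ (-(c2 / 2)) := by
          rw [← Real.rpow_add hY0]; congr 1; ring
        have h5 : 0 ≤ (N : ℝ) * Y ^ (-(c2 / 2)) := by positivity
        calc (s.divisors.card : ℝ) * ((C1 + 1) * (N * Y ^ (-c2)))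
            ≤ (C2 * Y ^ (c2 / 2)) * ((C1 + 1) * (N * Y ^ (-c2))) := by gcongr
          _ = C2 * (C1 + 1) * (N * (Y ^ (c2 / 2) * Y ^ (-c2))) := by ring
          _ = C2 * (C1 + 1) * (N * Y ^ (-(c2 / 2))) := by rw [h4]
          _ ≤ (C2 * (C1 + 1) + 2) * N * Y ^ (-(c2 / 2)) := by nlinarith
      · push Not at hY2
        refine (trivial_bound d N).trans ?_
        have h1 : Y ^ (c2 / 2) ≤ 2 :=
          (Real.rpow_le_rpow_of_exponent_le hY (by linarith)).trans hY2.le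
        have h2 : Y ^ (c2 / 2) * Y ^ (-(c2 / 2)) = 1 := by
          rw [← Real.rpow_add hY0]; simp
        have h3 : 0 < Y ^ (-(c2 / 2)) := by positivity
        have h4 : 1 ≤ 2 * Y ^ (-(c2 / 2)) := by
          rw [← h2]
          exact mul_le_mul_of_nonneg_right h1 h3.le
        have h5 : 0 ≤ C2 * (C1 + 1) := by positivity
        have h6 : 0 ≤ (N : ℝ) * Y ^ (-(c2 / 2)) := by positivity
        calc (N : ℝ) = N * 1 := (mul_one _).symm
          _ ≤ N * (2 * Y ^ (-(c2 / 2))) := mul_le_mul_of_nonneg_left h4 hN0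
          _ ≤ (C2 * (C1 + 1) + 2) * N * Y ^ (-(c2 / 2)) := by nlinarith
    refine key.trans ?_
    calc (C2 * (C1 + 1) + 2) * N * Y ^ (-(c2 / 2)) ≤ (C2 * (C1 + 1) + 2) * N * Y ^ (-c3) := by
          gcongr
      _ = (C2 * (C1 + 1) + 2) * (N * Y ^ (-c3)) := by ring
      _ ≤ (C0 + (C2 * (C1 + 1) + 2)) * (N * Y ^ (-c3)) := by
          apply mul_le_mul_of_nonneg_right _ hpos3
          linarith
      _ = _ := by ring

end Pool.Agent.Work.MP_e0c7e8_nt.SM
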