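import Pool.Agent.Work.MP_e0c7e8_nt.SM.Stmts
import Pool.Agent.Work.MP_e0c7e8_nt.SM.Basic

/-!
# S10: Siegel's theorem, assembly
-/

set_option autoImplicit false

namespace Pool.Agent.Work.MP_e0c7e8_nt.SM

open Finset Filter Topology

namespace ItemS10

lemma ne_zero_of_not_isSquare {d : ℤ} (h : ¬ IsSquare d) : d ≠ 0 := by
  rintro rfl
  exact h ⟨0, by simp⟩

lemma one_le_abs {d : ℤ} (h : ¬ IsSquare d) : (1 : ℝ) ≤ |(d : ℝ)| := by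
  have h0 := ne_zero_of_not_isSquare h
  have h1 : (1 : ℤ) ≤ |d| := Int.one_le_abs h0
  exact_mod_cast h1

/-- upper bound for `L(1, χ)` -/
lemma LL_one_le (h2 : ClaimS2) {ε : ℝ} (hε : 0 < ε) {d : ℤ} (hd : ¬ IsSquare d) :
    LL d 1 ≤ (9 + 1 / ε) * |(d : ℝ)| ^ ε := by
  have h0 := ne_zero_of_not_isSquare hd
  have hD := one_le_abs hd
  set N := d.natAbs with hN
  have hN1 : 1 ≤ N := Int.natAbs_pos.2 h0
  have hNabs : (N : ℝ) = |(d : ℝ)| := by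
    rw [hN, Nat.cast_natAbs]; push_cast; rfl
  have h3 := (h2 d hd 1 one_pos).2 N hN1
  have h4 := (abs_le.1 h3).2
  have hNpos : (0 : ℝ) < N := by exact_mod_cast hN1
  have h5 : 8 * |(d : ℝ)| * (N : ℝ) ^ (-1 : ℝ) = 8 := by
    rw [← hNabs, Real.rpow_neg_one]
    field_simp
  have h6 : ∑ n ∈ Icc 1 N, (chi d n : ℝ) * (n : ℝ) ^ (-1 : ℝ) ≤ 1 + Real.log N := by
    have h7 : ∑ n ∈ Icc 1 N, (chi d n : ℝ) * (n : ℝ) ^ (-1 : ℝ) ≤ ∑ n ∈ Icc 1 N, ((n : ℝ))⁻¹ := by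
      apply Finset.sum_le_sum
      intro n hn
      rw [Real.rpow_neg_one]
      have h8 : (chi d n : ℝ) ≤ 1 := (abs_le.1 (abs_chi_real_le d n)).2
      have h9 : (0 : ℝ) ≤ (n : ℝ)⁻¹ := by positivity
      nlinarith
    have h10 := harmonic_le_one_add_log N
    have h11 : ((harmonic N : ℚ) : ℝ) = ∑ n ∈ Icc 1 N, ((n : ℝ))⁻¹ := by
      rw [harmonic_eq_sum_Icc]; push_cast; rfl
    rw [h11] at h10
    linarith
  have h12 : Real.log N ≤ (N : ℝ) ^ ε / ε := Real.log_le_rpow_div hNpos.le hε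
  have h13 : (1 : ℝ) ≤ |(d : ℝ)| ^ ε := Real.one_le_rpow hD hε.le
  rw [h5] at h4
  rw [hNabs] at h12 h6
  have h14 : (9 + 1 / ε) * |(d : ℝ)| ^ ε = 9 * |(d : ℝ)| ^ ε + |(d : ℝ)| ^ ε / ε := by ring
  rw [h14]
  linarith

/-- The common input for both cases. -/
lemma exists_pair (h3 : ClaimS3) (h4 : ClaimS4) (h5 : ClaimS5) {b0 : ℝ} (hb0 : 15 / 16 ≤ b0)
    (hb1 : b0 < 1) :
    ∃ (d1 : ℤ) (b : ℝ), ¬ IsSquare d1 ∧ b0 ≤ b ∧ b < 1 ∧ ∀ d : ℤ, ¬ IsSquare d →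
      ¬ IsSquare (d1 * d) → zc b * LL d1 b * LL d b * LL (d1 * d) b ≤ 0 := by
  by_cases hA : ∃ (d1 : ℤ) (b : ℝ), ¬ IsSquare d1 ∧ b0 ≤ b ∧ b < 1 ∧ LL d1 b = 0
  · obtain ⟨d1, b, h1, hb, hb', h0⟩ := hA
    refine ⟨d1, b, h1, hb, hb', fun d _ _ => ?_⟩
    rw [h0]; simp
  · push Not at hA
    have hpos : ∀ d : ℤ, ¬ IsSquare d → 0 < LL d b0 := by
      intro d hd
      by_contra hcon
      push Not at hcon
      have hcont : ContinuousOn (LL d) (Set.Icc b0 1) :=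
        (h3 d hd).mono (Set.Icc_subset_Icc (by linarith) le_rfl)
      have h6 := intermediate_value_Icc hb1.le hcont
      have h7 : (0 : ℝ) ∈ Set.Icc (LL d b0) (LL d 1) := ⟨hcon, (h4 d hd).le⟩
      obtain ⟨b, hb, hb'⟩ := h6 h7
      have hb2 : b ≠ 1 := by
        rintro rfl
        exact absurd hb' (h4 d hd).ne'
      exact hA d b hd hb.1 (lt_of_le_of_ne hb.2 hb2) hb'
    have hm4 : ¬ IsSquare (-4 : ℤ) := by
      rintro ⟨r, hr⟩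
      nlinarith [mul_self_nonneg r]
    refine ⟨-4, b0, hm4, le_rfl, hb1, fun d hd hd' => ?_⟩
    have h8 := (h5 b0 (by linarith) hb1).1
    have h9 := hpos _ hm4
    have h10 := hpos _ hd
    have h11 := hpos _ hd'
    have h12 : 0 ≤ LL (-4) b0 * LL d b0 * LL (-4 * d) b0 := by positivity
    have h13 : zc b0 * LL (-4) b0 * LL d b0 * LL (-4 * d) b0 =
      zc b0 * (LL (-4) b0 * LL d b0 * LL (-4 * d) b0) := by ring
    rw [h13]
    exact mul_nonpos_of_nonpos_of_nonneg h8.le h12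

/-- The main case. -/
lemma main_case (h2 : ClaimS2) (h3 : ClaimS3) (h4 : ClaimS4) (h5 : ClaimS5) (h8 : ClaimS8)
    {ε : ℝ} (hε : 0 < ε) (hε1 : ε ≤ 1) :
    ∃ (d1 : ℤ) (c : ℝ), ¬ IsSquare d1 ∧ 0 < c ∧ ∀ d : ℤ, ¬ IsSquare d → ¬ IsSquare (d1 * d) →
      c * |(d : ℝ)| ^ (-ε) ≤ LL d 1 := by
  obtain ⟨d1, b, hd1, hb, hb1, hneg⟩ := exists_pair h3 h4 h5 (b0 := 1 - ε / 400)
    (by linarith) (by linarith)
  obtain ⟨C, hC, h8⟩ := h8
  have hD1 := one_le_abs hd1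
  have h1b : 0 < 1 - b := by linarith
  set K1 : ℝ := 2 * C * |(d1 : ℝ)| ^ 3 / (1 - b) + 1 with hK1
  have hK1' : 1 ≤ K1 := by
    rw [hK1]
    have : 0 ≤ 2 * C * |(d1 : ℝ)| ^ 3 / (1 - b) := by positivity
    linarith
  have hK1pos : 0 < K1 := by linarith
  have hL1 := h4 d1 hd1
  set c : ℝ := (1 - b) / 2 / (K1 ^ (32 * (1 - b)) * (LL d1 1 *
    ((9 + 1 / (ε / 8)) * |(d1 : ℝ)| ^ (ε / 8)))) with hc
  have hden : 0 < K1 ^ (32 * (1 - b)) * (LL d1 1 *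
      ((9 + 1 / (ε / 8)) * |(d1 : ℝ)| ^ (ε / 8))) := by positivity
  have hcpos : 0 < c := by
    rw [hc]
    exact div_pos (by linarith) hden
  refine ⟨d1, c, hd1, hcpos, fun d hd hdd => ?_⟩
  have hD := one_le_abs hd
  have hDpos : 0 < |(d : ℝ)| := by linarith
  set x : ℝ := (K1 * |(d : ℝ)| ^ 3) ^ (32 : ℝ) with hx
  have hbase : 1 ≤ K1 * |(d : ℝ)| ^ 3 := by
    have : 1 ≤ |(d : ℝ)| ^ 3 := one_le_pow₀ hD
    nlinarith
  have hbase0 : 0 < K1 * |(d : ℝ)| ^ 3 := by linarith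
  have hx1 : 1 ≤ x := Real.one_le_rpow hbase (by norm_num)
  have h9 := h8 d1 d hd1 hd hdd b (by linarith) hb1 x hx1
  have h10 := hneg d hd hdd
  have hxpow : x ^ (-(1 / 32) : ℝ) = (K1 * |(d : ℝ)| ^ 3)⁻¹ := by
    rw [hx, ← Real.rpow_mul hbase0.le, ← Real.rpow_neg_one]
    norm_num
  have herr : C * (|(d1 : ℝ)| ^ 3 * |(d : ℝ)| ^ 3) / (1 - b) * x ^ (-(1 / 32) : ℝ) ≤ 1 / 2 := by
    rw [hxpow]
    have h11 : C * (|(d1 : ℝ)| ^ 3 * |(d : ℝ)| ^ 3) / (1 - b) * (K1 * |(d : ℝ)| ^ 3)⁻¹ =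
        C * |(d1 : ℝ)| ^ 3 / (1 - b) / K1 := by
      field_simp
    rw [h11, div_le_iff₀ hK1pos, hK1]
    have h12 : 2 * C * |(d1 : ℝ)| ^ 3 / (1 - b) = 2 * (C * |(d1 : ℝ)| ^ 3 / (1 - b)) := by ring
    rw [h12]
    linarith
  have hxb : x ^ (1 - b) ≤ K1 ^ (32 * (1 - b)) * |(d : ℝ)| ^ (ε / 4) := by
    rw [hx, ← Real.rpow_mul hbase0.le, Real.mul_rpow hK1pos.le (by positivity)]
    apply mul_le_mul_of_nonneg_left _ (by positivity)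
    rw [← Real.rpow_natCast, ← Real.rpow_mul hDpos.le]
    apply Real.rpow_le_rpow_of_exponent_le hD
    push_cast
    nlinarith
  have hxb0 : 0 < x ^ (1 - b) := Real.rpow_pos_of_pos (by linarith) _
  set lam : ℝ := LL d1 1 * LL d 1 * LL (d1 * d) 1 with hlam
  have hLd := h4 d hd
  have hLdd := h4 (d1 * d) hdd
  have hlampos : 0 < lam := by positivity
  have h13 : 1 / 2 ≤ lam * x ^ (1 - b) / (1 - b) := by linarith
  rw [le_div_iff₀ h1b] at h13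
  have h14 : (1 - b) / 2 ≤ lam * (K1 ^ (32 * (1 - b)) * |(d : ℝ)| ^ (ε / 4)) := by
    have := mul_le_mul_of_nonneg_left hxb hlampos.le
    linarith
  have h15 := LL_one_le h2 (ε := ε / 8) (by linarith) hdd
  have h16 : |((d1 * d : ℤ) : ℝ)| ^ (ε / 8) = |(d1 : ℝ)| ^ (ε / 8) * |(d : ℝ)| ^ (ε / 8) := by
    push_cast
    rw [abs_mul, Real.mul_rpow (abs_nonneg _) (abs_nonneg _)]
  rw [h16] at h15
  -- combine
  have h17 : lam ≤ LL d1 1 * LL d 1 *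
      ((9 + 1 / (ε / 8)) * (|(d1 : ℝ)| ^ (ε / 8) * |(d : ℝ)| ^ (ε / 8))) := by
    rw [hlam]
    exact mul_le_mul_of_nonneg_left h15 (by positivity)
  have h18 : (1 - b) / 2 ≤ LL d1 1 * LL d 1 *
      ((9 + 1 / (ε / 8)) * (|(d1 : ℝ)| ^ (ε / 8) * |(d : ℝ)| ^ (ε / 8))) *
      (K1 ^ (32 * (1 - b)) * |(d : ℝ)| ^ (ε / 4)) :=
    h14.trans (mul_le_mul_of_nonneg_right h17 (by positivity))
  have h19 : LL d1 1 * LL d 1 *
      ((9 + 1 / (ε / 8)) * (|(d1 : ℝ)| ^ (ε / 8) * |(d : ℝ)| ^ (ε / 8))) *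
      (K1 ^ (32 * (1 - b)) * |(d : ℝ)| ^ (ε / 4)) =
      (LL d 1 * (|(d : ℝ)| ^ (ε / 8) * |(d : ℝ)| ^ (ε / 4))) *
      (K1 ^ (32 * (1 - b)) * (LL d1 1 * ((9 + 1 / (ε / 8)) * |(d1 : ℝ)| ^ (ε / 8)))) := by
    ring
  rw [h19, ← div_le_iff₀ hden, ← hc, ← Real.rpow_add hDpos] at h18
  -- `c ≤ LL d 1 * |d| ^ (3 ε / 8)`
  have h20 : c * |(d : ℝ)| ^ (-(ε / 8 + ε / 4)) ≤ LL d 1 := by
    rw [Real.rpow_neg hDpos.le, ← div_eq_mul_inv, div_le_iff₀ (Real.rpow_pos_of_pos hDpos _)]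
    exact h18
  refine le_trans ?_ h20
  apply mul_le_mul_of_nonneg_left _ hcpos.le
  apply Real.rpow_le_rpow_of_exponent_le hD
  linarith

/-- decomposition of an integer -/
lemma exists_squarefree_part {d : ℤ} (hd : d ≠ 0) :
    ∃ (d0 : ℤ) (s : ℕ), 0 < s ∧ Squarefree d0 ∧ d = d0 * (s : ℤ) ^ 2 := by
  have h1 : 0 < d.natAbs := Int.natAbs_pos.2 hd
  obtain ⟨a, s, _, hs, hab, hsq⟩ := Nat.sq_mul_squarefree_of_pos h1
  refine ⟨d.sign * a, s, hs, ?_, ?_⟩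
  · rw [← Int.squarefree_natAbs, Int.natAbs_mul, Int.natAbs_sign_of_ne_zero hd, one_mul,
      Int.natAbs_natCast]
    exact hsq
  · have h2 : ((s ^ 2 * a : ℕ) : ℤ) = (d.natAbs : ℤ) := by rw [hab]
    push_cast at h2
    have h3 : d.sign * (d.natAbs : ℤ) = d := Int.sign_mul_natAbs d
    calc d = d.sign * (d.natAbs : ℤ) := h3.symm
      _ = d.sign * ((s : ℤ) ^ 2 * a) := by rw [h2]; push_cast; rfl
      _ = d.sign * a * (s : ℤ) ^ 2 := by ring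

/-- if `d₁ d` is a square and `d = d₀ s ^ 2`, then `d₀ ∣ d₁` -/
lemma dvd_of_isSquare_mul {d1 d0 : ℤ} {s : ℕ} (hs : 0 < s) (hsq : Squarefree d0)
    (h : IsSquare (d1 * (d0 * (s : ℤ) ^ 2))) : d0 ∣ d1 := by
  obtain ⟨t, ht⟩ := h
  have hs' : (s : ℤ) ≠ 0 := by exact_mod_cast hs.ne'
  have h1 : (s : ℤ) ^ 2 ∣ t ^ 2 := ⟨d1 * d0, by rw [sq t, ← ht]; ring⟩
  have h2 : (s : ℤ) ∣ t := (Int.pow_dvd_pow_iff two_ne_zero).1 h1
  obtain ⟨r, rfl⟩ := h2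
  have h3 : d1 * d0 = r ^ 2 := by
    have h4 : (s : ℤ) ^ 2 * (d1 * d0) = (s : ℤ) ^ 2 * r ^ 2 := by
      have := ht; linarith [this, show d1 * (d0 * (s : ℤ) ^ 2) = (s : ℤ) ^ 2 * (d1 * d0) by ring,
        show (s : ℤ) * r * ((s : ℤ) * r) = (s : ℤ) ^ 2 * r ^ 2 by ring]
    exact mul_left_cancel₀ (pow_ne_zero 2 hs') h4
  have h5 : d0 ∣ r := hsq.isRadical 2 r ⟨d1, by rw [← h3]; ring⟩
  obtain ⟨k, rfl⟩ := h5
  have hd0 : d0 ≠ 0 := hsq.ne_zero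
  refine ⟨k ^ 2, ?_⟩
  have h6 : d0 * d1 = d0 * (d0 * k ^ 2) := by linarith [h3, show (d0 * k) ^ 2 = d0 * (d0 * k ^ 2) by ring, mul_comm d0 d1]
  exact mul_left_cancel₀ hd0 h6

/-- the minimum over finitely many discriminants -/
lemma exists_min (h4 : ClaimS4) (B : ℤ) : ∃ m0 : ℝ, 0 < m0 ∧ ∀ d0 : ℤ, ¬ IsSquare d0 →
    |d0| ≤ B → m0 ≤ LL d0 1 := by
  classical
  by_cases hB : 0 ≤ B
  · obtain ⟨z, _, hz⟩ := Finset.exists_min_image (Icc (-B) B)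
      (fun z : ℤ => if IsSquare z then (1 : ℝ) else LL z 1) ⟨0, by simp [hB]⟩
    refine ⟨if IsSquare z then (1 : ℝ) else LL z 1, ?_, ?_⟩
    · split_ifs with h
      · exact one_pos
      · exact h4 z h
    · intro d0 hd0 hd0'
      have := hz d0 (by rw [Finset.mem_Icc]; exact abs_le.1 hd0')
      simp only [hd0, if_false] at this
      exact this
  · refine ⟨1, one_pos, fun d0 _ h => ?_⟩
    exact absurd ((abs_nonneg d0).trans h) hB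

end ItemS10

open ItemS10 in
theorem claimS10 (h2 : ClaimS2) (h3 : ClaimS3) (h4 : ClaimS4) (h5 : ClaimS5) (h8 : ClaimS8)
    (h9 : ClaimS9) : ClaimS10 := by
  have key : ∀ ε : ℝ, 0 < ε → ε ≤ 1 → ∃ c : ℝ, 0 < c ∧ ∀ d : ℤ, ¬ IsSquare d →
      c * |(d : ℝ)| ^ (-ε) ≤ LL d 1 := by
    intro ε hε hε1
    obtain ⟨d1, c, hd1, hc, hmain⟩ := main_case h2 h3 h4 h5 h8 hε hε1
    obtain ⟨c9, hc9, h9⟩ := h9 ε hε
    obtain ⟨m0, hm0, hmin⟩ := exists_min h4 |d1|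
    refine ⟨min c (c9 * m0), lt_min hc (by positivity), fun d hd => ?_⟩
    have hD := one_le_abs hd
    have hpow : 0 < |(d : ℝ)| ^ (-ε) := Real.rpow_pos_of_pos (by linarith) _
    by_cases hdd : IsSquare (d1 * d)
    · obtain ⟨d0, s, hs, hsq, rfl⟩ := exists_squarefree_part (ne_zero_of_not_isSquare hd)
      have hdvd := dvd_of_isSquare_mul hs hsq hdd
      have hd0 : ¬ IsSquare d0 := by
        rintro ⟨r, rfl⟩
        exact hd ⟨r * s, by ring⟩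
      have hle : |d0| ≤ |d1| := by
        have h10 : |d1| ≠ 0 := abs_ne_zero.2 (ne_zero_of_not_isSquare hd1)
        exact Int.le_of_dvd (lt_of_le_of_ne (abs_nonneg _) (Ne.symm h10))
          ((abs_dvd_abs _ _).2 hdvd)
      have h11 := hmin d0 hd0 hle
      have h12 := h9 d0 s hd0 hs
      have hs1 : (1 : ℝ) ≤ s := by exact_mod_cast hs
      have h13 : |((d0 * (s : ℤ) ^ 2 : ℤ) : ℝ)| ^ (-ε) ≤ (s : ℝ) ^ (-ε) := by
        apply Real.rpow_le_rpow_of_nonpos (by linarith) _ (by linarith)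
        push_cast
        rw [abs_mul, abs_of_nonneg (show (0 : ℝ) ≤ (s : ℝ) ^ 2 by positivity)]
        have := one_le_abs hd0
        nlinarith
      calc min c (c9 * m0) * |((d0 * (s : ℤ) ^ 2 : ℤ) : ℝ)| ^ (-ε)
          ≤ (c9 * m0) * (s : ℝ) ^ (-ε) :=
            mul_le_mul (min_le_right _ _) h13 hpow.le (by positivity)
        _ = c9 * (s : ℝ) ^ (-ε) * m0 := by ring
        _ ≤ c9 * (s : ℝ) ^ (-ε) * LL d0 1 :=
            mul_le_mul_of_nonneg_left h11 (by positivity)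
        _ ≤ _ := h12
    · exact (mul_le_mul_of_nonneg_right (min_le_left _ _) hpow.le).trans (hmain d hd hdd)
  intro ε hε
  obtain ⟨c, hc, h⟩ := key (min ε 1) (lt_min hε one_pos) (min_le_right _ _)
  refine ⟨c, hc, fun d hd => le_trans ?_ (h d hd)⟩
  apply mul_le_mul_of_nonneg_left _ hc.le
  apply Real.rpow_le_rpow_of_exponent_le (one_le_abs hd)
  have := min_le_left ε 1
  linarith

end Pool.Agent.Work.MP_e0c7e8_nt.SM
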