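import Pool.Agent.Work.MP_e0c7e8_nt.SM.Stmts
import Pool.Agent.Work.MP_e0c7e8_nt.SM.Abel

/-!
# Item S2: convergence of `L(β, χ)`
-/

set_option autoImplicit false

namespace Pool.Agent.Work.MP_e0c7e8_nt.SM

open Finset Filter Topology

namespace ItemS2

lemma tail_bound (h1 : ClaimS1) (d : ℤ) (hd : ¬ IsSquare d) (β : ℝ) (hβ : 0 < β) (N M : ℕ)
    (hNM : N ≤ M) (hN : 1 ≤ N) :
    |∑ n ∈ Icc 1 M, (chi d n : ℝ) * (n : ℝ) ^ (-β) - ∑ n ∈ Icc 1 N, (chi d n : ℝ) * (n : ℝ) ^ (-β)|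
      ≤ 8 * |(d : ℝ)| * (N : ℝ) ^ (-β) := by
  rw [← sum_Ioc_eq (fun n => (chi d n : ℝ) * (n : ℝ) ^ (-β)) hNM]
  have h := abel_bound (fun n => (chi d n : ℝ)) (fun n => (n : ℝ) ^ (-β)) N M (8 * |(d : ℝ)|)
    (fun n _ => by positivity)
    (fun n hn => by
      apply Real.rpow_le_rpow_of_nonpos _ _ (by linarith)
      · have : 0 < n := by omega
        exact_mod_cast this
      · push_cast; linarith)
    (fun n hn => by
      rw [sum_Ioc_eq _ hn]
      calc |∑ j ∈ Icc 1 n, (chi d j : ℝ) - ∑ j ∈ Icc 1 N, (chi d j : ℝ)|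
          ≤ |∑ j ∈ Icc 1 n, (chi d j : ℝ)| + |∑ j ∈ Icc 1 N, (chi d j : ℝ)| := abs_sub _ _
        _ ≤ 4 * |(d : ℝ)| + 4 * |(d : ℝ)| := add_le_add (h1 d hd n) (h1 d hd N)
        _ = 8 * |(d : ℝ)| := by ring) hNM
  refine h.trans ?_
  apply mul_le_mul_of_nonneg_left _ (by positivity)
  apply Real.rpow_le_rpow_of_nonpos _ _ (by linarith)
  · exact_mod_cast hN
  · push_cast; linarith

end ItemS2

open ItemS2 in
theorem claimS2 (h1 : ClaimS1) : ClaimS2 := by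
  intro d hd β hβ
  set F : ℕ → ℝ := fun N => ∑ n ∈ Icc 1 N, (chi d n : ℝ) * (n : ℝ) ^ (-β) with hF
  have htend0 : Tendsto (fun N : ℕ => 8 * |(d : ℝ)| * (N : ℝ) ^ (-β)) atTop (𝓝 0) := by
    have := (tendsto_rpow_neg_atTop hβ).comp tendsto_natCast_atTop_atTop
    have h2 := this.const_mul (8 * |(d : ℝ)|)
    simpa using h2
  have hcau : CauchySeq F := by
    rw [Metric.cauchySeq_iff']
    intro ε hε
    rw [Metric.tendsto_atTop] at htend0
    obtain ⟨N0, hN0⟩ := htend0 ε hε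
    refine ⟨max N0 1, fun n hn => ?_⟩
    have h3 := tail_bound h1 d hd β hβ (max N0 1) n hn (le_max_right _ _)
    have h4 := hN0 (max N0 1) (le_max_left _ _)
    rw [Real.dist_eq, sub_zero] at h4
    rw [Real.dist_eq]
    exact h3.trans_lt ((le_abs_self _).trans_lt h4)
  obtain ⟨L, hL⟩ := cauchySeq_tendsto_of_complete hcau
  have hLL : LL d β = L := hL.limUnder_eq
  refine ⟨by rw [hLL]; exact hL, ?_⟩
  intro N hN
  rw [hLL]
  have h5 : Tendsto (fun M => |F M - F N|) atTop (𝓝 |L - F N|) :=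
    (hL.sub_const (F N)).abs
  apply le_of_tendsto h5
  filter_upwards [eventually_ge_atTop N] with M hM
  exact tail_bound h1 d hd β hβ N M hM hN

end Pool.Agent.Work.MP_e0c7e8_nt.SM
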