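import Pool.Agent.Work.MP_e0c7e8_nt.SM.StmtsX
import Pool.Agent.Work.MP_e0c7e8_nt.SM.Basic

/-!
# Item X1: many split primes give many ideals
-/

set_option autoImplicit false

namespace Pool.Agent.Work.MP_e0c7e8_nt.SM

open Finset

namespace ItemX1

/-- The split primes up to `y`. -/
def Q (d : ℤ) (y : ℕ) : Finset ℕ := (Icc 1 y).filter (fun p => p.Prime ∧ chi d p = 1)

theorem mem_Q {d : ℤ} {y p : ℕ} : p ∈ Q d y ↔ (1 ≤ p ∧ p ≤ y) ∧ p.Prime ∧ chi d p = 1 := by
  rw [Q, mem_filter, mem_Icc]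

/-- The prime factors of a product of primes. -/
theorem primeFactors_prod {j : ℕ} {t : Fin j → ℕ} (ht : ∀ i, (t i).Prime) :
    (∏ i, t i).primeFactors = univ.image t := by
  have hne : (∏ i, t i) ≠ 0 := Finset.prod_ne_zero_iff.2 (fun i _ => (ht i).ne_zero)
  ext p
  rw [Nat.mem_primeFactors, mem_image]
  constructor
  · rintro ⟨hp, hd, _⟩
    obtain ⟨i, _, hi⟩ := (Prime.dvd_finsetProd_iff hp.prime _).1 hd
    exact ⟨i, mem_univ i, ((Nat.prime_dvd_prime_iff_eq hp (ht i)).1 hi).symm⟩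
  · rintro ⟨i, _, rfl⟩
    exact ⟨ht i, Finset.dvd_prod_of_mem t (mem_univ i), hne⟩

theorem card_le_MM (d : ℤ) (x : ℕ) : ((Icc 1 x).filter (fun n => 1 ≤ TT d n)).card ≤ MM d x := by
  rw [MM, card_eq_sum_ones]
  calc ∑ _n ∈ (Icc 1 x).filter (fun n => 1 ≤ TT d n), 1
      ≤ ∑ n ∈ (Icc 1 x).filter (fun n => 1 ≤ TT d n), TT d n :=
        Finset.sum_le_sum (fun n hn => (mem_filter.1 hn).2)
    _ ≤ ∑ n ∈ Icc 1 x, TT d n :=
        Finset.sum_le_sum_of_subset (filter_subset _ _)

end ItemX1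

open ItemX1 in
theorem claimX1 : ClaimX1 := by
  classical
  intro d y j x _ hyx
  have h1 : Pd d y ^ j = (Fintype.piFinset (fun _ : Fin j => Q d y)).card := by
    rw [Fintype.card_piFinset, Finset.prod_const, Finset.card_univ, Fintype.card_fin]; rfl
  have hprime : ∀ t ∈ Fintype.piFinset (fun _ : Fin j => Q d y), ∀ i, t i ∈ Q d y :=
    fun t ht i => Fintype.mem_piFinset.1 ht i
  rw [h1]
  refine (Finset.card_le_mul_card_image_of_maps_to
    (f := fun t : Fin j → ℕ => ∏ i, t i)
    (t := (Icc 1 x).filter (fun n => 1 ≤ TT d n)) ?_ (j ^ j) ?_).trans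
    (Nat.mul_le_mul_left _ (card_le_MM d x))
  · intro t ht
    have hq := hprime t ht
    have hpr : ∀ i, (t i).Prime := fun i => (mem_Q.1 (hq i)).2.1
    have hne : (∏ i, t i) ≠ 0 := Finset.prod_ne_zero_iff.2 (fun i _ => (hpr i).ne_zero)
    rw [mem_filter, mem_Icc]
    refine ⟨⟨Nat.pos_of_ne_zero hne, ?_⟩, ?_⟩
    · refine le_trans ?_ hyx
      have h2 := Finset.prod_le_pow_card (univ : Finset (Fin j)) t y
        (fun i _ => (mem_Q.1 (hq i)).1.2)
      rwa [Finset.card_univ, Fintype.card_fin] at h2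
    · have h3 : ∀ p ∈ (∏ i, t i).primeFactors, chi d p = 1 := by
        intro p hp
        rw [primeFactors_prod hpr, mem_image] at hp
        obtain ⟨i, _, rfl⟩ := hp
        exact (mem_Q.1 (hq i)).2.2
      show 1 ≤ TT d (∏ i, t i)
      rw [TT, if_pos h3]
      exact Nat.one_le_two_pow
  · intro n _
    rcases Finset.eq_empty_or_nonempty
      ((Fintype.piFinset (fun _ : Fin j => Q d y)).filter (fun t => ∏ i, t i = n)) with h | h
    · rw [h, card_empty]; exact Nat.zero_le _
    · obtain ⟨t₀, ht₀⟩ := h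
      rw [mem_filter] at ht₀
      have hpr₀ : ∀ i, (t₀ i).Prime := fun i => (mem_Q.1 (hprime t₀ ht₀.1 i)).2.1
      have hc : n.primeFactors.card ≤ j := by
        rw [← ht₀.2, primeFactors_prod hpr₀]
        refine (card_image_le).trans ?_
        rw [Finset.card_univ, Fintype.card_fin]
      have hsub : (Fintype.piFinset (fun _ : Fin j => Q d y)).filter (fun t => ∏ i, t i = n) ⊆
          Fintype.piFinset (fun _ : Fin j => n.primeFactors) := by
        intro t ht
        rw [mem_filter] at ht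
        have hpr : ∀ i, (t i).Prime := fun i => (mem_Q.1 (hprime t ht.1 i)).2.1
        rw [Fintype.mem_piFinset]
        intro i
        rw [← ht.2, primeFactors_prod hpr]
        exact mem_image_of_mem t (mem_univ i)
      refine (card_le_card hsub).trans ?_
      rw [Fintype.card_piFinset, Finset.prod_const, Finset.card_univ, Fintype.card_fin]
      exact Nat.pow_le_pow_left hc j

end Pool.Agent.Work.MP_e0c7e8_nt.SM
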