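import Pool.Agent.Work.MP_e0c7e8_nt.SM.ItemX4
import Pool.Agent.Work.MP_e0c7e8_nt.SM.ItemH3

/-!
# Item X11: few exceptions
-/

set_option autoImplicit false

namespace Pool.Agent.Work.MP_e0c7e8_nt.SM

open Finset

namespace ItemX11

/-- Large `m`-torsion. -/
def Bad (m : ℕ) (ε : ℝ) (d : ℤ) : Prop :=
  d < 0 ∧ (d % 4 = 0 ∨ d % 4 = 1) ∧ |(d : ℝ)| ^ ((1 : ℝ) / 2 - 1 / (2 * m) + ε) <
    (Nat.card {x : ClassGroup ↥(Od d) // x ^ m = 1} : ℝ)

lemma nsq_filter {S : Finset ℤ} (h : NSq S) (P : ℤ → Prop) [DecidablePred P] : NSq (S.filter P) := by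
  intro d hd e he hne
  exact h d (mem_filter.1 hd).1 e (mem_filter.1 he).1 hne

/-- The number of bad fields in `[X ^ (1/2), X]` is bounded. -/
lemma window (h2 : ClaimX2) (h3 : ClaimX3) (h4 : ClaimX4) (m : ℕ) (hm : 0 < m) (ε : ℝ)
    (hε : 0 < ε) (hε1 : ε ≤ 1) : ∃ J : ℕ, ∃ X0 : ℝ, 3 ≤ X0 ∧ ∀ (X : ℝ) (S : Finset ℤ), X0 ≤ X →
      (∀ d ∈ S, Bad m ε d ∧ X ^ ((1 : ℝ) / 2) ≤ |(d : ℝ)| ∧ |(d : ℝ)| ≤ X) → NSq S →
      S.card ≤ J := by
  obtain ⟨D, hD, h2'⟩ := h2 m hm ε hε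
  obtain ⟨K, hK, c, hc, hc2, X1, hX1, h3'⟩ := h3 m hm ε hε hε1
  obtain ⟨J, X2, hX2, h4'⟩ := h4 K hK c hc hc2
  refine ⟨J, max 3 (max (D ^ 2) (max X1 X2)), le_max_left _ _, ?_⟩
  intro X S hX hS hN
  have hX3 : 3 ≤ X := (le_max_left _ _).trans hX
  have hXD : D ^ 2 ≤ X := ((le_max_left _ _).trans (le_max_right _ _)).trans hX
  have hXX1 : X1 ≤ X :=
    (((le_max_left _ _).trans (le_max_right _ _)).trans (le_max_right _ _)).trans hX
  have hXX2 : X2 ≤ X :=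
    (((le_max_right _ _).trans (le_max_right _ _)).trans (le_max_right _ _)).trans hX
  have hDX : D ≤ X ^ ((1 : ℝ) / 2) := by
    have h := Real.rpow_le_rpow (by positivity) hXD (by norm_num : (0 : ℝ) ≤ 1 / 2)
    rw [← Real.rpow_natCast, ← Real.rpow_mul hD.le] at h
    norm_num at h
    norm_num
    exact h
  apply h4' X S hXX2 _ hN
  intro d hd
  obtain ⟨⟨hd0, hd4, hbad⟩, hlow, hup⟩ := hS d hd
  refine ⟨hd0.ne, hup, ?_⟩
  exact h3' X d hXX1 hlow hup (h2' d hd0 hd4 (hDX.trans hlow) hbad)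

lemma count (h2 : ClaimX2) (h3 : ClaimX3) (h4 : ClaimX4) (m : ℕ) (hm : 0 < m) (ε : ℝ)
    (hε : 0 < ε) (hε1 : ε ≤ 1) : ∃ C : ℝ, 0 < C ∧ ∀ (X : ℝ) (S : Finset ℤ), 3 ≤ X →
      (∀ d ∈ S, Bad m ε d ∧ |(d : ℝ)| ≤ X) → NSq S →
      (S.card : ℝ) ≤ C * (1 + Real.log (Real.log X)) := by
  classical
  obtain ⟨J, X0, hX0, hw⟩ := window h2 h3 h4 m hm ε hε hε1
  have hP : ∀ (n : ℕ) (X : ℝ) (S : Finset ℤ), 1 ≤ X → X ≤ X0 ^ ((2 : ℝ) ^ n) →
      (∀ d ∈ S, Bad m ε d ∧ |(d : ℝ)| ≤ X) → NSq S → (S.card : ℝ) ≤ n * J + 3 * X0 := by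
    intro n
    induction n with
    | zero =>
      intro X S hX1 hX hS _
      rw [pow_zero, Real.rpow_one] at hX
      have := ItemX4.card_le hX1 (fun d hd => (hS d hd).2)
      push_cast
      linarith
    | succ n ih =>
      intro X S hX1 hX hS hN
      by_cases hXX : X ≤ X0
      · have := ItemX4.card_le hX1 (fun d hd => (hS d hd).2)
        have h0 : (0 : ℝ) ≤ ((n + 1 : ℕ) : ℝ) * J := by positivity
        linarith
      · push Not at hXX
        have hX0' : (0 : ℝ) < X0 := by linarith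
        have hhalf : X ^ ((1 : ℝ) / 2) ≤ X0 ^ ((2 : ℝ) ^ n) := by
          have h := Real.rpow_le_rpow (by linarith) hX (by norm_num : (0 : ℝ) ≤ 1 / 2)
          rw [← Real.rpow_mul hX0'.le] at h
          have e : (2 : ℝ) ^ (n + 1) * (1 / 2) = 2 ^ n := by rw [pow_succ]; ring
          rwa [e] at h
        have h1 : (1 : ℝ) ≤ X ^ ((1 : ℝ) / 2) := Real.one_le_rpow hX1 (by norm_num)
        set S1 := S.filter (fun d : ℤ => X ^ ((1 : ℝ) / 2) ≤ |(d : ℝ)|) with hS1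
        set S2 := S.filter (fun d : ℤ => ¬ X ^ ((1 : ℝ) / 2) ≤ |(d : ℝ)|) with hS2
        have hcard : S.card = S1.card + S2.card := by
          rw [hS1, hS2, Finset.card_filter_add_card_filter_not]
        have hc1 : S1.card ≤ J := by
          apply hw X S1 hXX.le
          · intro d hd
            rw [hS1, mem_filter] at hd
            exact ⟨(hS d hd.1).1, hd.2, (hS d hd.1).2⟩
          · exact nsq_filter hN _
        have hc2 : (S2.card : ℝ) ≤ n * J + 3 * X0 := by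
          apply ih (X ^ ((1 : ℝ) / 2)) S2 h1 hhalf
          · intro d hd
            rw [hS2, mem_filter] at hd
            exact ⟨(hS d hd.1).1, (not_le.1 hd.2).le⟩
          · exact nsq_filter hN _
        rw [hcard]
        push_cast
        have hc1' : (S1.card : ℝ) ≤ J := by exact_mod_cast hc1
        linarith
  refine ⟨2 * J + 3 * X0, by positivity, ?_⟩
  intro X S hX hS hN
  have hlog3 : (1 : ℝ) ≤ Real.log 3 := by
    rw [Real.le_log_iff_exp_le (by norm_num)]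
    have := Real.exp_one_lt_d9
    linarith
  have hlogX : 1 ≤ Real.log X := hlog3.trans (Real.log_le_log (by norm_num) hX)
  have hll : 0 ≤ Real.log (Real.log X) := Real.log_nonneg hlogX
  obtain ⟨n, hn⟩ : ∃ n : ℕ, n = ⌈Real.log (Real.log X) / Real.log 2⌉₊ := ⟨_, rfl⟩
  have hlog2 : 0 < Real.log 2 := Real.log_pos (by norm_num)
  have hn1 : Real.log (Real.log X) ≤ n * Real.log 2 := by
    rw [← div_le_iff₀ hlog2, hn]
    exact Nat.le_ceil _
  have hn2 : (n : ℝ) ≤ 2 * Real.log (Real.log X) + 1 := by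
    have h := Nat.ceil_lt_add_one (show 0 ≤ Real.log (Real.log X) / Real.log 2 by positivity)
    rw [← hn] at h
    have h2 : Real.log (Real.log X) / Real.log 2 ≤ 2 * Real.log (Real.log X) := by
      rw [div_le_iff₀ hlog2]
      have := Real.log_two_gt_d9
      nlinarith
    linarith
  have hbound : X ≤ X0 ^ ((2 : ℝ) ^ n) := by
    have h1 : Real.log X ≤ 2 ^ n := by
      rw [← Real.log_le_log_iff (by linarith) (by positivity), Real.log_pow]
      exact hn1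
    have h2 : Real.log X ≤ Real.log (X0 ^ ((2 : ℝ) ^ n)) := by
      rw [Real.log_rpow (by linarith)]
      have h3 : 1 ≤ Real.log X0 := hlog3.trans (Real.log_le_log (by norm_num) hX0)
      nlinarith [show (0 : ℝ) < 2 ^ n by positivity]
    exact (Real.log_le_log_iff (by linarith) (Real.rpow_pos_of_pos (by linarith) _)).1 h2
  have h := hP n X S (by linarith) hbound hS hN
  have hJ : (0 : ℝ) ≤ J := by positivity
  calc (S.card : ℝ) ≤ n * J + 3 * X0 := h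
    _ ≤ (2 * Real.log (Real.log X) + 1) * J + 3 * X0 := by nlinarith
    _ ≤ (2 * J + 3 * X0) * (1 + Real.log (Real.log X)) := by
        have : 0 ≤ 3 * X0 * Real.log (Real.log X) := by positivity
        nlinarith

end ItemX11

open ItemH ItemX11 in
theorem claimX11 (h0 : ClaimC0) (h11 : ClaimC1a1) (h1a : ClaimC1a) (h2 : ClaimX2) (h3 : ClaimX3)
    (h4 : ClaimX4) : ClaimX11 := by
  intro a m hm ε hε
  obtain ⟨ε1, hε1⟩ : ∃ ε1 : ℝ, ε1 = min ε 1 := ⟨_, rfl⟩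
  have hε10 : 0 < ε1 := by rw [hε1]; exact lt_min hε one_pos
  have hε1ε : ε1 ≤ ε := by rw [hε1]; exact min_le_left _ _
  have hε11 : ε1 ≤ 1 := by rw [hε1]; exact min_le_right _ _
  obtain ⟨C1, hC1, hcount⟩ := count h2 h3 h4 m hm (ε1 / 2) (by positivity) (by linarith)
  have hδ : 0 < ε1 / (2 * (a + 1)) := by positivity
  obtain ⟨C2, hC2, hD⟩ := Pool.Agent.Work.MP_e0aece_nt.exists_divisor_bound _ hδ
  refine ⟨(4 * C2) ^ a + C1, by positivity, ?_⟩
  intro X hX S hS hN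
  have hlog3 : (1 : ℝ) ≤ Real.log 3 := by
    rw [Real.le_log_iff_exp_le (by norm_num)]
    have := Real.exp_one_lt_d9
    linarith
  have hll : 0 ≤ Real.log (Real.log X) :=
    Real.log_nonneg (hlog3.trans (Real.log_le_log (by norm_num) hX))
  have hmain := hcount X S hX ?_ hN
  · refine hmain.trans ?_
    apply mul_le_mul_of_nonneg_right _ (by linarith)
    have : 0 ≤ (4 * C2) ^ a := by positivity
    linarith
  intro d hd
  obtain ⟨hd0, hd4, hdX, hbig⟩ := hS d hd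
  refine ⟨⟨hd0, hd4, ?_⟩, hdX⟩
  haveI := (h1a d hd0 hd4).1
  have e1 := card_tors_mul (ClassGroup ↥(Od d)) (2 ^ a) m
  have e2 := card_tors_two_pow (ClassGroup ↥(Od d)) a
  have e3 := claimH h0 h11 d hd0 hd4
  have hd1 : 1 ≤ d.natAbs := by omega
  have hnat : (d.natAbs : ℝ) = |(d : ℝ)| := by
    rw [Nat.cast_natAbs, Int.cast_abs]
  have hb1 : (1 : ℝ) ≤ |(d : ℝ)| := by
    rw [← hnat]; exact_mod_cast hd1
  have hb0 : (0 : ℝ) < |(d : ℝ)| := by linarith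
  have e5 := hD d.natAbs hd1
  rw [hnat] at e5
  have e6 : (Nat.card {y : ClassGroup ↥(Od d) // y ^ 2 = 1} : ℝ) ≤
      4 * C2 * |(d : ℝ)| ^ (ε1 / (2 * (a + 1))) := by
    calc (Nat.card {y : ClassGroup ↥(Od d) // y ^ 2 = 1} : ℝ) ≤ ((4 * d.natAbs.divisors.card : ℕ) : ℝ) := by
          exact_mod_cast e3
      _ = 4 * (d.natAbs.divisors.card : ℝ) := by push_cast; ring
      _ ≤ 4 * (C2 * |(d : ℝ)| ^ (ε1 / (2 * (a + 1)))) := by gcongr
      _ = _ := by ring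
  have e7 : (Nat.card {y : ClassGroup ↥(Od d) // y ^ (2 ^ a) = 1} : ℝ) ≤
      (4 * C2) ^ a * |(d : ℝ)| ^ (ε1 / 2) := by
    calc (Nat.card {y : ClassGroup ↥(Od d) // y ^ (2 ^ a) = 1} : ℝ) ≤
        (Nat.card {y : ClassGroup ↥(Od d) // y ^ 2 = 1} : ℝ) ^ a := by exact_mod_cast e2
      _ ≤ (4 * C2 * |(d : ℝ)| ^ (ε1 / (2 * (a + 1)))) ^ a := by gcongr
      _ = (4 * C2) ^ a * |(d : ℝ)| ^ (ε1 / (2 * (a + 1)) * a) := by
          rw [mul_pow, Real.rpow_mul_natCast hb0.le]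
      _ ≤ (4 * C2) ^ a * |(d : ℝ)| ^ (ε1 / 2) := by
          refine mul_le_mul_of_nonneg_left ?_ (by positivity)
          apply Real.rpow_le_rpow_of_exponent_le hb1
          rw [div_mul_eq_mul_div, div_le_div_iff₀ (by positivity) (by norm_num)]
          nlinarith
  obtain ⟨T, hT⟩ : ∃ T : ℝ, T = (Nat.card {y : ClassGroup ↥(Od d) // y ^ m = 1} : ℝ) := ⟨_, rfl⟩
  have hT0 : 0 ≤ T := by rw [hT]; positivity
  rw [← hT]
  have hchain : ((4 * C2) ^ a + C1) * |(d : ℝ)| ^ ((1 : ℝ) / 2 - 1 / (2 * m) + ε) <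
      (4 * C2) ^ a * |(d : ℝ)| ^ (ε1 / 2) * T := by
    refine lt_of_lt_of_le hbig ?_
    calc (Nat.card {x : ClassGroup ↥(Od d) // x ^ (2 ^ a * m) = 1} : ℝ)
        ≤ (Nat.card {y : ClassGroup ↥(Od d) // y ^ (2 ^ a) = 1} : ℝ) *
          (Nat.card {y : ClassGroup ↥(Od d) // y ^ m = 1} : ℝ) := by exact_mod_cast e1
      _ ≤ ((4 * C2) ^ a * |(d : ℝ)| ^ (ε1 / 2)) * T := by
          rw [← hT]
          exact mul_le_mul_of_nonneg_right e7 hT0
  by_contra hcon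
  push Not at hcon
  have h1 : (4 * C2) ^ a * |(d : ℝ)| ^ (ε1 / 2) * T ≤
      (4 * C2) ^ a * (|(d : ℝ)| ^ (ε1 / 2) * |(d : ℝ)| ^ ((1 : ℝ) / 2 - 1 / (2 * m) + ε1 / 2)) := by
    rw [mul_assoc]
    apply mul_le_mul_of_nonneg_left _ (by positivity)
    exact mul_le_mul_of_nonneg_left hcon (by positivity)
  rw [← Real.rpow_add hb0] at h1
  have h2' : |(d : ℝ)| ^ (ε1 / 2 + ((1 : ℝ) / 2 - 1 / (2 * m) + ε1 / 2)) ≤
      |(d : ℝ)| ^ ((1 : ℝ) / 2 - 1 / (2 * m) + ε) := by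
    apply Real.rpow_le_rpow_of_exponent_le hb1
    linarith
  have h3' : (4 * C2) ^ a * |(d : ℝ)| ^ (ε1 / 2 + ((1 : ℝ) / 2 - 1 / (2 * m) + ε1 / 2)) ≤
      (4 * C2) ^ a * |(d : ℝ)| ^ ((1 : ℝ) / 2 - 1 / (2 * m) + ε) :=
    mul_le_mul_of_nonneg_left h2' (by positivity)
  have h4' : 0 ≤ C1 * |(d : ℝ)| ^ ((1 : ℝ) / 2 - 1 / (2 * m) + ε) := by positivity
  nlinarith

end Pool.Agent.Work.MP_e0c7e8_nt.SM
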