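import Pool.Agent.Work.MP_e0c7e8_nt.SM.StmtsX
import Pool.Agent.Work.MP_e0c7e8_nt.SM.Basic

/-!
# Item X4: a bounded number of fields with few split primes
-/

set_option autoImplicit false

namespace Pool.Agent.Work.MP_e0c7e8_nt.SM

open Finset Filter Topology

namespace ItemX4

lemma card_le {X : ℝ} (hX : 1 ≤ X) {S : Finset ℤ} (h : ∀ d ∈ S, |(d : ℝ)| ≤ X) :
    (S.card : ℝ) ≤ 3 * X := by
  have hsub : S ⊆ Icc (-(⌊X⌋ : ℤ)) ⌊X⌋ := by
    intro d hd
    have h1 := h d hd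
    rw [abs_le] at h1
    rw [mem_Icc]
    constructor
    · have : ((-d : ℤ) : ℝ) ≤ X := by push_cast; linarith
      have := Int.le_floor.2 this
      linarith
    · exact Int.le_floor.2 h1.2
  have h2 := Finset.card_le_card hsub
  rw [Int.card_Icc] at h2
  have h3 : (0 : ℤ) ≤ ⌊X⌋ := Int.floor_nonneg.2 (by linarith)
  have h4 : ((⌊X⌋ + 1 - -⌊X⌋).toNat : ℤ) = 2 * ⌊X⌋ + 1 := by
    rw [Int.toNat_of_nonneg (by linarith)]
    ring
  have h5 : ((S.card : ℕ) : ℤ) ≤ 2 * ⌊X⌋ + 1 := by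
    rw [← h4]
    exact_mod_cast h2
  have h6 : (S.card : ℝ) ≤ 2 * (⌊X⌋ : ℝ) + 1 := by exact_mod_cast h5
  have h7 := Int.floor_le X
  linarith

/-- The eventual inequalities. -/
lemma eventually_ok (K : ℕ) (c : ℝ) (hc : 0 < c) : ∀ᶠ Z : ℝ in atTop,
    16 ≤ Z ∧ 4 * Z ^ (-(c / 2)) + 4 * K * (Real.log Z * Z ^ (-(1 / 2) : ℝ)) ≤ c / 16 := by
  have h1 : Tendsto (fun Z : ℝ => Z ^ (-(c / 2))) atTop (𝓝 0) :=
    tendsto_rpow_neg_atTop (by positivity)
  have h2 : Tendsto (fun Z : ℝ => Real.log Z * Z ^ (-(1 / 2) : ℝ)) atTop (𝓝 0) := by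
    have h := (isLittleO_log_rpow_atTop (r := 1 / 2) (by norm_num)).tendsto_div_nhds_zero
    refine h.congr' ?_
    filter_upwards [eventually_gt_atTop (0 : ℝ)] with Z hZ
    rw [Real.rpow_neg hZ.le, div_eq_mul_inv]
  have h3 : Tendsto (fun Z : ℝ => 4 * Z ^ (-(c / 2)) + 4 * K * (Real.log Z * Z ^ (-(1 / 2) : ℝ)))
      atTop (𝓝 (4 * 0 + 4 * K * 0)) := (h1.const_mul 4).add (h2.const_mul (4 * K : ℝ))
  have h4 : (4 * 0 + 4 * (K : ℝ) * 0) < c / 16 := by
    have : 0 < c / 16 := by positivity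
    simpa using this
  filter_upwards [eventually_ge_atTop (16 : ℝ), h3.eventually_lt_const h4] with Z hZ hZ2
  exact ⟨hZ, hZ2.le⟩

end ItemX4

open ItemX4 in
theorem claimX4 (h5 : ClaimX5) (h6 : ClaimX6) (h8 : ClaimX8) (h9 : ClaimX9) (h10 : ClaimX10) :
    ClaimX4 := by
  intro K hK c hc hc2
  obtain ⟨Z0, hZ0, h5'⟩ := h5 (c / 2) (by positivity) (by linarith)
  obtain ⟨Z1, hZ1⟩ := eventually_atTop.1 (eventually_ok K c hc)
  obtain ⟨r, hr⟩ : ∃ r : ℕ, r = 16 * K := ⟨_, rfl⟩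
  have hr1 : 1 ≤ r := by omega
  have hreven : Even r := ⟨8 * K, by omega⟩
  refine ⟨⌈(4 * (r : ℝ)) ^ r * (4 * r + 2) * (8 / c) ^ r⌉₊, max 4 ((max Z0 (max Z1 1)) ^ K),
    le_max_of_le_left (by norm_num), ?_⟩
  intro X S hX hS hNS
  have hX4 : (4 : ℝ) ≤ X := (le_max_left _ _).trans hX
  have hX0 : (0 : ℝ) < X := by linarith
  have hX1 : (1 : ℝ) ≤ X := by linarith
  have hKR : (1 : ℝ) ≤ K := by exact_mod_cast hK
  set Z : ℝ := X ^ ((1 : ℝ) / K) with hZ
  have hZge : max Z0 (max Z1 1) ≤ Z := by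
    have h1 : (max Z0 (max Z1 1)) ^ K ≤ X := (le_max_right _ _).trans hX
    have hb : (0 : ℝ) ≤ max Z0 (max Z1 1) := le_max_of_le_right (le_max_of_le_right zero_le_one)
    have h2 := Real.rpow_le_rpow (pow_nonneg hb K) h1 (by positivity : (0 : ℝ) ≤ 1 / K)
    rw [← Real.rpow_natCast, ← Real.rpow_mul hb] at h2
    have h3 : (K : ℝ) * (1 / K) = 1 := by field_simp
    rwa [h3, Real.rpow_one] at h2
  have hZZ0 : Z0 ≤ Z := (le_max_left _ _).trans hZge
  have hZZ1 : Z1 ≤ Z := ((le_max_left _ _).trans (le_max_right _ _)).trans hZge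
  obtain ⟨hZ16, hZsmall⟩ := hZ1 Z hZZ1
  have hZ0' : (0 : ℝ) < Z := by linarith
  have hZone : (1 : ℝ) ≤ Z := by linarith
  have hZX : Z ≤ X := by
    calc Z = X ^ ((1 : ℝ) / K) := hZ
      _ ≤ X ^ (1 : ℝ) := Real.rpow_le_rpow_of_exponent_le hX1 (by
          rw [div_le_one (by linarith)]
          exact hKR)
      _ = X := Real.rpow_one X
  have hZK : Z ^ (8 * K : ℝ) = X ^ (8 : ℝ) := by
    rw [hZ, ← Real.rpow_mul hX0.le]
    congr 1
    field_simp
  have hlogZ : 0 < Real.log Z := Real.log_pos (by linarith)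
  have hlogX : Real.log X = K * Real.log Z := by
    rw [hZ, Real.log_rpow hX0]
    field_simp
  obtain ⟨W, hW⟩ : ∃ W : ℕ, W = ⌊Z ^ (1 - c / 2)⌋₊ := ⟨_, rfl⟩
  obtain ⟨Zn, hZn⟩ : ∃ Zn : ℕ, Zn = ⌊Z⌋₊ := ⟨_, rfl⟩
  obtain ⟨R, hR⟩ : ∃ R : ℕ, R = ⌊Z ^ ((1 : ℝ) / 2)⌋₊ := ⟨_, rfl⟩
  have hq := h5' Z hZZ0
  rw [← hW, ← hZn] at hq
  obtain ⟨q, hqdef⟩ : ∃ q : ℝ, q = qq W Zn := ⟨_, rfl⟩
  have hqc : c / 8 ≤ q := by rw [hqdef]; linarith
  have hq0 : 0 < q := by
    have : 0 < c / 8 := by positivity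
    linarith
  -- sizes
  have hZhalf : (4 : ℝ) ≤ Z ^ ((1 : ℝ) / 2) := by
    have h1 := Real.rpow_le_rpow (by norm_num : (0 : ℝ) ≤ 16) hZ16 (by norm_num : (0 : ℝ) ≤ 1 / 2)
    have h2 : (16 : ℝ) ^ ((1 : ℝ) / 2) = 4 := by
      rw [show (16 : ℝ) = 4 ^ (2 : ℝ) by norm_num, ← Real.rpow_mul (by norm_num)]
      norm_num
    linarith
  have hZquart : (2 : ℝ) ≤ Z ^ ((1 : ℝ) / 4) := by
    have h1 := Real.rpow_le_rpow (by norm_num : (0 : ℝ) ≤ 16) hZ16 (by norm_num : (0 : ℝ) ≤ 1 / 4)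
    have h2 : (16 : ℝ) ^ ((1 : ℝ) / 4) = 2 := by
      rw [show (16 : ℝ) = 2 ^ (4 : ℝ) by norm_num, ← Real.rpow_mul (by norm_num)]
      norm_num
    linarith
  have hWup : (2 : ℝ) * Z ^ ((1 : ℝ) / 2) ≤ Z ^ (1 - c / 2) := by
    calc (2 : ℝ) * Z ^ ((1 : ℝ) / 2) ≤ Z ^ ((1 : ℝ) / 4) * Z ^ ((1 : ℝ) / 2) :=
          mul_le_mul_of_nonneg_right hZquart (by positivity)
      _ = Z ^ ((1 : ℝ) / 4 + 1 / 2) := by rw [Real.rpow_add hZ0']
      _ ≤ Z ^ (1 - c / 2) := Real.rpow_le_rpow_of_exponent_le hZone (by linarith)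
  have hWlow : Z ^ (1 - c / 2) / 2 ≤ W := by
    have h1 := Nat.lt_floor_add_one (Z ^ (1 - c / 2))
    rw [← hW] at h1
    linarith
  have hWhalf : Z ^ ((1 : ℝ) / 2) ≤ W := by linarith
  have hWR : (4 : ℝ) ≤ W := by linarith
  have hW2 : 2 ≤ W := by
    have : (2 : ℝ) ≤ W := by linarith
    exact_mod_cast this
  have hRle : (R : ℝ) ≤ Z ^ ((1 : ℝ) / 2) := by rw [hR]; exact Nat.floor_le (by positivity)
  have hR1 : 1 ≤ R := by
    rw [hR]
    apply Nat.le_floor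
    push_cast
    linarith
  have hRW : R ≤ W := by
    have : (R : ℝ) ≤ W := hRle.trans hWhalf
    exact_mod_cast this
  have hR2 : (R : ℝ) ^ 2 ≤ Z := by
    calc (R : ℝ) ^ 2 ≤ (Z ^ ((1 : ℝ) / 2)) ^ 2 := pow_le_pow_left₀ (by positivity) hRle 2
      _ = Z := by
          rw [← Real.rpow_natCast, ← Real.rpow_mul hZ0'.le]
          norm_num
  have hWZ : W ≤ Zn := by
    rw [hW, hZn]
    apply Nat.floor_le_floor
    calc Z ^ (1 - c / 2) ≤ Z ^ (1 : ℝ) := Real.rpow_le_rpow_of_exponent_le hZone (by linarith)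
      _ = Z := Real.rpow_one Z
  -- A and B
  obtain ⟨A, hA⟩ : ∃ A : ℕ, A = W ^ r := ⟨_, rfl⟩
  obtain ⟨B, hB⟩ : ∃ B : ℕ, B = Zn ^ r := ⟨_, rfl⟩
  have hAR : X ^ 8 ≤ (A : ℝ) := by
    rw [hA]
    push_cast
    calc X ^ 8 = X ^ (8 : ℝ) := by norm_cast
      _ = Z ^ (8 * K : ℝ) := hZK.symm
      _ = (Z ^ ((1 : ℝ) / 2)) ^ r := by
          rw [← Real.rpow_natCast, ← Real.rpow_mul hZ0'.le, hr]
          congr 1
          push_cast
          ring
      _ ≤ (W : ℝ) ^ r := pow_le_pow_left₀ (by positivity) hWhalf r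
  have hA0 : (0 : ℝ) < A := lt_of_lt_of_le (by positivity) hAR
  have hAB : A ≤ B := by rw [hA, hB]; exact Nat.pow_le_pow_left hWZ r
  have hRA : 2 * R ^ 2 ≤ A := by
    have h1 : (2 : ℝ) * (R : ℝ) ^ 2 ≤ A := by
      calc (2 : ℝ) * (R : ℝ) ^ 2 ≤ 2 * X := by linarith
        _ ≤ X ^ 8 := by
            have h2 : X ^ 2 ≤ X ^ 8 := pow_le_pow_right₀ hX1 (by norm_num)
            nlinarith
        _ ≤ A := hAR
    exact_mod_cast h1
  obtain ⟨l, hl1, hlR, hsm⟩ := h6 R hR1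
  have hNSq := hNS
  have h8' := h8 R A B l X S hR1 hRA hAB hlR (fun d hd => (hS d hd).2.1) hNS
  have h9' := h9 W Zn r R l S hr1 hR1 hRW hl1
  rw [← hA, ← hB, ← hqdef] at h9'
  -- the right side
  obtain ⟨N, hN⟩ : ∃ N : ℝ, N = (S.card : ℝ) := ⟨_, rfl⟩
  have hN0 : 0 ≤ N := by rw [hN]; positivity
  have hN3 : N ≤ 3 * X := by
    rw [hN]
    exact card_le hX1 (fun d hd => (hS d hd).2.1)
  have hR4 : (R : ℝ) ^ 4 ≤ X ^ 2 := by
    calc (R : ℝ) ^ 4 = ((R : ℝ) ^ 2) ^ 2 := by ring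
      _ ≤ X ^ 2 := pow_le_pow_left₀ (by positivity) (hR2.trans hZX) 2
  have hlogAB : Real.log ((B : ℝ) / A) ≤ r * Real.log Z := by
    have hBA : (1 : ℝ) ≤ A := by
      have : 1 ≤ A := by
        have : 0 < A := by exact_mod_cast hA0
        exact this
      exact_mod_cast this
    have hBZ : (B : ℝ) ≤ Z ^ r := by
      rw [hB]
      push_cast
      apply pow_le_pow_left₀ (by positivity)
      rw [hZn]
      exact Nat.floor_le hZ0'.le
    have hBpos : (0 : ℝ) < B := lt_of_lt_of_le hA0 (by exact_mod_cast hAB)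
    calc Real.log ((B : ℝ) / A) ≤ Real.log (Z ^ r) := by
          apply Real.log_le_log (by positivity)
          rw [div_le_iff₀ hA0]
          have : 0 ≤ Z ^ r := by positivity
          nlinarith
      _ = r * Real.log Z := Real.log_pow _ _
  have hlogAB0 : 0 ≤ Real.log ((B : ℝ) / A) := by
    apply Real.log_nonneg
    rw [one_le_div hA0]
    exact_mod_cast hAB
  have hsm2 : sm R l ≤ 4 / Real.log Z := by
    refine hsm.trans ?_
    have h1 : Z ^ ((1 : ℝ) / 2) ≤ (R : ℝ) + 1 := by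
      have := Nat.lt_floor_add_one (Z ^ ((1 : ℝ) / 2))
      rw [← hR] at this
      exact this.le
    have h2 : Real.log Z / 2 ≤ Real.log ((R : ℝ) + 1) := by
      have h3 := Real.log_le_log (by positivity) h1
      rw [Real.log_rpow hZ0'] at h3
      linarith
    calc 2 / Real.log ((R : ℝ) + 1) ≤ 2 / (Real.log Z / 2) :=
          div_le_div_of_nonneg_left (by norm_num) (by positivity) h2
      _ = 4 / Real.log Z := by field_simp; norm_num
  have hmain : Real.log ((B : ℝ) / A) * sm R l ≤ 4 * r := by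
    calc Real.log ((B : ℝ) / A) * sm R l ≤ Real.log ((B : ℝ) / A) * (4 / Real.log Z) :=
          mul_le_mul_of_nonneg_left hsm2 hlogAB0
      _ ≤ (r * Real.log Z) * (4 / Real.log Z) :=
          mul_le_mul_of_nonneg_right hlogAB (by positivity)
      _ = 4 * r := by field_simp
  have herr1 : 8 * (R : ℝ) ^ 4 / A ≤ 1 := by
    rw [div_le_one hA0]
    calc 8 * (R : ℝ) ^ 4 ≤ 8 * X ^ 2 := by linarith
      _ ≤ X ^ 8 := by
          have h1 : (8 : ℝ) ≤ X ^ 6 := by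
            calc (8 : ℝ) ≤ 4 ^ 6 := by norm_num
              _ ≤ X ^ 6 := pow_le_pow_left₀ (by norm_num) hX4 6
          have h2 : X ^ 8 = X ^ 6 * X ^ 2 := by ring
          rw [h2]
          exact mul_le_mul_of_nonneg_right h1 (by positivity)
      _ ≤ A := hAR
  have herr2 : N ^ 2 * (16 * (R : ℝ) ^ 4 * X ^ 2 / A) ≤ N := by
    have h1 : N * (16 * (R : ℝ) ^ 4 * X ^ 2 / A) ≤ 1 := by
      rw [mul_div_assoc', div_le_one hA0]
      calc N * (16 * (R : ℝ) ^ 4 * X ^ 2) ≤ (3 * X) * (16 * X ^ 2 * X ^ 2) := by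
            gcongr
        _ = 48 * X ^ 5 := by ring
        _ ≤ X ^ 8 := by
            have h1 : (48 : ℝ) ≤ X ^ 3 := by
              calc (48 : ℝ) ≤ 4 ^ 3 := by norm_num
                _ ≤ X ^ 3 := pow_le_pow_left₀ (by norm_num) hX4 3
            have h2 : X ^ 8 = X ^ 3 * X ^ 5 := by ring
            rw [h2]
            exact mul_le_mul_of_nonneg_right h1 (by positivity)
        _ ≤ A := hAR
    calc N ^ 2 * (16 * (R : ℝ) ^ 4 * X ^ 2 / A) = N * (N * (16 * (R : ℝ) ^ 4 * X ^ 2 / A)) := by ring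
      _ ≤ N * 1 := mul_le_mul_of_nonneg_left h1 hN0
      _ = N := mul_one N
  rw [← hN] at h8'
  have h8'' : ∑ n ∈ Ioc A B, ww R l n * (∑ d ∈ S, (chi d n : ℝ)) ^ 2 / n ≤ N * (4 * r + 2) := by
    refine h8'.trans ?_
    have h1 : N * (Real.log ((B : ℝ) / A) * sm R l + 8 * (R : ℝ) ^ 4 / A) ≤ N * (4 * r + 1) :=
      mul_le_mul_of_nonneg_left (by linarith) hN0
    linarith
  -- the left side
  have hleft : ∀ d ∈ S, (q / 2) ^ r ≤
      (∑ p ∈ (Ioc W Zn).filter Nat.Prime, (chi d p : ℝ) / p) ^ r := by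
    intro d hd
    obtain ⟨hd0, hdX, hPd⟩ := hS d hd
    have h1 := h10 d W Zn hd0 hW2
    rw [← hqdef] at h1
    rw [← hZn] at hPd
    have hdpos : 0 < |(d : ℝ)| := abs_pos.2 (by exact_mod_cast hd0)
    have hlogd : Real.log |(d : ℝ)| ≤ K * Real.log Z := by
      rw [← hlogX]
      exact Real.log_le_log hdpos hdX
    have hPd' : (Pd d Zn : ℝ) ≤ Z ^ (1 - c) := by
      refine hPd.trans (le_of_eq ?_)
      rw [hZ, ← Real.rpow_mul hX0.le]
      congr 1
      ring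
    have hW0 : (0 : ℝ) < W := by linarith
    have h2 : (2 * (Pd d Zn : ℝ) + 2 * Real.log |(d : ℝ)|) / W ≤ c / 16 := by
      have hV : 0 < Z ^ (1 - c / 2) / 2 := by positivity
      have hnum : 0 ≤ 2 * Z ^ (1 - c) + 2 * (K * Real.log Z) := by positivity
      calc (2 * (Pd d Zn : ℝ) + 2 * Real.log |(d : ℝ)|) / W
          ≤ (2 * Z ^ (1 - c) + 2 * (K * Real.log Z)) / W :=
            div_le_div_of_nonneg_right (by linarith) hW0.le
        _ ≤ (2 * Z ^ (1 - c) + 2 * (K * Real.log Z)) / (Z ^ (1 - c / 2) / 2) :=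
            div_le_div_of_nonneg_left hnum hV hWlow
        _ = 4 * (Z ^ (1 - c) / Z ^ (1 - c / 2)) + 4 * K * (Real.log Z * (Z ^ (1 - c / 2))⁻¹) := by
            field_simp
            ring
        _ ≤ 4 * Z ^ (-(c / 2)) + 4 * K * (Real.log Z * Z ^ (-(1 / 2) : ℝ)) := by
            apply add_le_add
            · apply mul_le_mul_of_nonneg_left _ (by norm_num)
              rw [← Real.rpow_sub hZ0']
              apply le_of_eq
              congr 1
              ring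
            · apply mul_le_mul_of_nonneg_left _ (by positivity)
              apply mul_le_mul_of_nonneg_left _ hlogZ.le
              rw [← Real.rpow_neg hZ0'.le]
              exact Real.rpow_le_rpow_of_exponent_le hZone (by linarith)
        _ ≤ c / 16 := hZsmall
    have h3 : ∑ p ∈ (Ioc W Zn).filter Nat.Prime, (chi d p : ℝ) / p ≤ -(q / 2) := by
      linarith
    rw [← hreven.pow_abs (∑ p ∈ (Ioc W Zn).filter Nat.Prime, (chi d p : ℝ) / p)]
    apply pow_le_pow_left₀ (by positivity)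
    rw [abs_of_nonpos (by linarith)]
    linarith
  have hsumleft : N * (q / 2) ^ r ≤
      ∑ d ∈ S, (∑ p ∈ (Ioc W Zn).filter Nat.Prime, (chi d p : ℝ) / p) ^ r := by
    have := Finset.sum_le_sum hleft
    rw [Finset.sum_const, nsmul_eq_mul, ← hN] at this
    exact this
  have hsq : (N * (q / 2) ^ r) ^ 2 ≤ q ^ r * (r : ℝ) ^ r * (N * (4 * r + 2)) := by
    calc (N * (q / 2) ^ r) ^ 2 ≤
        (∑ d ∈ S, (∑ p ∈ (Ioc W Zn).filter Nat.Prime, (chi d p : ℝ) / p) ^ r) ^ 2 :=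
          pow_le_pow_left₀ (by positivity) hsumleft 2
      _ ≤ _ := h9'
      _ ≤ _ := mul_le_mul_of_nonneg_left h8'' (by positivity)
  -- conclusion
  have hfin : N ≤ (4 * (r : ℝ)) ^ r * (4 * r + 2) * (8 / c) ^ r := by
    rcases eq_or_lt_of_le hN0 with h | h
    · rw [← h]; positivity
    · have hqr : 0 < q ^ r := by positivity
      have h1 : (N * (q / 2) ^ r) ^ 2 = (N * q ^ r) * (N * q ^ r / 4 ^ r) := by
        rw [mul_pow, ← pow_mul, div_pow]
        have : (2 : ℝ) ^ (r * 2) = 4 ^ r := by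
          rw [mul_comm, pow_mul]; norm_num
        rw [this, pow_mul]
        ring
      have h2 : q ^ r * (r : ℝ) ^ r * (N * (4 * r + 2)) = (N * q ^ r) * ((r : ℝ) ^ r * (4 * r + 2)) := by
        ring
      rw [h1, h2] at hsq
      have h3 : N * q ^ r / 4 ^ r ≤ (r : ℝ) ^ r * (4 * r + 2) :=
        le_of_mul_le_mul_left hsq (by positivity)
      rw [div_le_iff₀ (by positivity)] at h3
      have h4 : N * (c / 8) ^ r ≤ (r : ℝ) ^ r * (4 * r + 2) * 4 ^ r := by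
        refine le_trans ?_ h3
        apply mul_le_mul_of_nonneg_left _ hN0
        exact pow_le_pow_left₀ (by positivity) hqc r
      have h5 : N = N * (c / 8) ^ r * (8 / c) ^ r := by
        rw [mul_assoc, ← mul_pow]
        have : c / 8 * (8 / c) = 1 := by field_simp
        rw [this, one_pow, mul_one]
      rw [h5]
      calc N * (c / 8) ^ r * (8 / c) ^ r ≤ (r : ℝ) ^ r * (4 * r + 2) * 4 ^ r * (8 / c) ^ r :=
            mul_le_mul_of_nonneg_right h4 (by positivity)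
        _ = (4 * (r : ℝ)) ^ r * (4 * r + 2) * (8 / c) ^ r := by
            rw [mul_pow]; ring
  have hceil : N ≤ ((⌈(4 * (r : ℝ)) ^ r * (4 * r + 2) * (8 / c) ^ r⌉₊ : ℕ) : ℝ) :=
    hfin.trans (Nat.le_ceil _)
  rw [hN] at hceil
  exact_mod_cast hceil

end Pool.Agent.Work.MP_e0c7e8_nt.SM
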