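import Pool.Agent.Work.MP_e0c7e8_nt.SM.Defs

/-!
# Torsion in class groups of orders with smooth discriminants: statements
-/

set_option autoImplicit false

namespace Pool.Agent.Work.MP_e0c7e8_nt.SM

open Finset Filter Topology

/-! ## Group G: short character sums to smooth moduli -/

/-- G1: complete sums modulo a prime (from Weil's bound). -/
def ClaimG1 : Prop :=
  ∀ (l : ℕ) [Fact l.Prime], l ≠ 2 → ∀ (A : List ℤ), (∃ r : ZMod l, Odd (cnt l A r)) →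
    |∑ x : ZMod l, (A.map (fun a : ℤ => ((quadraticChar (ZMod l) (x + (a : ZMod l)) : ℤ) : ℝ))).prod|
      ≤ A.length * Real.sqrt l

/-- G2: complete sums modulo `m` odd and squarefree. -/
def ClaimG2 : Prop :=
  ∀ (m : ℕ), Odd m → Squarefree m → ∀ (A : List ℤ) (u : ℕ), 0 < u → A ≠ [] →
    (∀ l : ℕ, l.Prime → l ∣ m → ¬ Nc l A → l ∣ u) →
    |∑ x ∈ range m, PJ m A x| ≤ (A.length : ℝ) ^ m.primeFactors.card * Real.sqrt (m * u)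

/-- G3: incomplete sums. -/
def ClaimG3 : Prop :=
  ∀ (m : ℕ), Odd m → Squarefree m → ∀ (A : List ℤ) (u : ℕ), 0 < u → A ≠ [] →
    (∀ l : ℕ, l.Prime → l ∣ m → ¬ Nc l A → l ∣ u) →
    ∀ N : ℕ, SB (PJ m A) N
      ((N : ℝ) / m * ((A.length : ℝ) ^ m.primeFactors.card * Real.sqrt (m * u)) + m)

/-- G4: the van der Corput step. -/
def ClaimG4 : Prop :=
  ∀ (f g : ℤ → ℝ) (Q N H : ℕ) (B : ℝ), (∀ n, |f n| ≤ 1) → (∀ n, |g n| ≤ 1) →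
    (∀ n, f (n + Q) = f n) → 0 < H → 0 ≤ B →
    (∀ h : ℕ, 1 ≤ h → h < H → SB (fun n => g n * g (n + Q * h)) N B) →
    ∀ (M : ℤ) (L : ℕ), L ≤ N →
      (isum (fun n => f n * g n) M L) ^ 2 ≤ ((N : ℝ) + Q * H) / H * (N + 2 * H * B)

/-- G5: nonconstant parity is preserved. -/
def ClaimG5 : Prop :=
  ∀ (l : ℕ), l.Prime → l ≠ 2 → ∀ (A : List ℤ) (t : ℤ), ¬ (l : ℤ) ∣ t → Nc l A →
    Nc l (A ++ A.map (fun a => a + t))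

/-- G6: the iteration. -/
def ClaimG6 : Prop :=
  ∀ (qs : List ℕ) (m : ℕ) (A : List ℤ) (u N H : ℕ) (δ : ℝ), Odd m → Squarefree m → A ≠ [] →
    0 < u → 0 < H → 0 < N → 0 < δ → δ ≤ 1 → 1 / (H : ℝ) ≤ δ → (∀ q ∈ qs, 8 * q * H ≤ N) →
    (∀ q ∈ qs, q.Coprime m) → (∀ q ∈ qs, 0 < q) →
    (∀ l : ℕ, l.Prime → l ∣ m → ¬ Nc l A → l ∣ u) →
    ((A.length : ℝ) * 2 ^ qs.length) ^ m.primeFactors.card * Real.sqrt (u * (H : ℝ) ^ qs.length) /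
      Real.sqrt m + (m : ℝ) / N ≤ δ →
    SB (PJ (qs.prod * m) A) N (8 * N * δ ^ ((1 : ℝ) / 2 ^ qs.length))

/-- G6b: the same with a function of period `8`. -/
def ClaimG6b : Prop :=
  ∀ (q0 : ℕ) (qs : List ℕ) (m N H : ℕ) (δ : ℝ) (ψ : ℤ → ℝ), (∀ n, |ψ n| ≤ 1) →
    (∀ n, ψ (n + 8) = ψ n) → Odd m → Squarefree m →
    0 < H → 0 < N → 0 < δ → δ ≤ 1 → 1 / (H : ℝ) ≤ δ →
    (∀ q ∈ q0 :: qs, 8 * q * H ≤ N) → (∀ q ∈ q0 :: qs, q.Coprime m) → (∀ q ∈ q0 :: qs, 0 < q) →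
    ((2 : ℝ) ^ (qs.length + 1)) ^ m.primeFactors.card * Real.sqrt ((H : ℝ) ^ (qs.length + 1)) /
      Real.sqrt m + (m : ℝ) / N ≤ δ →
    SB (fun n => ψ n * ((jacobiSym n (q0 * (qs.prod * m)) : ℤ) : ℝ)) N
      (8 * N * δ ^ ((1 : ℝ) / 2 ^ (qs.length + 1)))

/-- G7: factorization of a smooth number. -/
def ClaimG7 : Prop :=
  ∀ (q s : ℕ) (B : ℝ), Squarefree q → 1 < B → (∀ p : ℕ, p.Prime → p ∣ q → (p : ℝ) ≤ B) →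
    (q : ℝ) ^ 2 ≤ B ^ (s + 1) →
    ∃ (qs : List ℕ) (m : ℕ), qs.length = s ∧ qs.prod * m = q ∧ (∀ x ∈ qs, (x : ℝ) ≤ B) ∧
      (m : ℝ) ≤ B ∧ q ≤ m ^ (s + 1)

/-- G8: the bound for odd squarefree moduli; `Y` is a size parameter. -/
def ClaimG8 : Prop :=
  ∀ η : ℝ, 0 < η → η < 1 → ∃ c : ℝ, 0 < c ∧ ∃ C : ℝ, 0 < C ∧
    ∀ (Y : ℝ) (q N : ℕ) (ψ : ℤ → ℝ), 1 ≤ Y → (∀ n, |ψ n| ≤ 1) → (∀ n, ψ (n + 8) = ψ n) →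
      Odd q → Squarefree q → (q : ℝ) ≤ Y → Y ^ η / 8 ≤ q →
      (∀ p : ℕ, p.Prime → p ∣ q → (p : ℝ) * Y ^ η ≤ N) → Y ^ (2 * η) ≤ N →
      SB (fun n => ψ n * ((jacobiSym n q : ℤ) : ℝ)) N (C * N * Y ^ (-c))

/-- G9: `χ_d` for squarefree `d`, in terms of its odd part. -/
def ClaimG9 : Prop :=
  ∀ d : ℤ, Squarefree d → ∃ (q : ℕ) (ψ : ℤ → ℝ), Odd q ∧ Squarefree q ∧ q ∣ d.natAbs ∧
    d.natAbs ≤ 2 * q ∧ (∀ n, |ψ n| ≤ 1) ∧ (∀ n, ψ (n + 8) = ψ n) ∧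
    ∀ n : ℕ, (chi d n : ℝ) = ψ n * ((jacobiSym n q : ℤ) : ℝ)

/-- G10: short character sums for all nonsquare `d`. -/
def ClaimG10 : Prop :=
  ∀ η : ℝ, 0 < η → η < 1 → ∃ c : ℝ, 0 < c ∧ ∃ C : ℝ, 0 < C ∧
    ∀ (Y : ℝ) (d : ℤ) (N : ℕ), 1 ≤ Y → |(d : ℝ)| ≤ Y → ¬ IsSquare d →
      Smo d ((N : ℝ) / Y ^ η) → Y ^ (2 * η) ≤ N →
      |∑ n ∈ Icc 1 N, (chi d n : ℝ)| ≤ C * N * Y ^ (-c)

/-! ## Group S: Siegel's theorem -/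

/-- S1: sums of `χ_d`. -/
def ClaimS1 : Prop :=
  ∀ d : ℤ, ¬ IsSquare d → ∀ N : ℕ, |∑ n ∈ Icc 1 N, (chi d n : ℝ)| ≤ 4 * |(d : ℝ)|

/-- S2: convergence. -/
def ClaimS2 : Prop :=
  ∀ d : ℤ, ¬ IsSquare d → ∀ β : ℝ, 0 < β →
    Tendsto (fun N : ℕ => ∑ n ∈ Icc 1 N, (chi d n : ℝ) * (n : ℝ) ^ (-β)) atTop (𝓝 (LL d β)) ∧
    ∀ N : ℕ, 1 ≤ N →
      |LL d β - ∑ n ∈ Icc 1 N, (chi d n : ℝ) * (n : ℝ) ^ (-β)| ≤ 8 * |(d : ℝ)| * (N : ℝ) ^ (-β)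

/-- S3: continuity. -/
def ClaimS3 : Prop := ∀ d : ℤ, ¬ IsSquare d → ContinuousOn (LL d) (Set.Icc (1 / 2) 1)

/-- S4: positivity at `1`. -/
def ClaimS4 : Prop := ∀ d : ℤ, ¬ IsSquare d → 0 < LL d 1

/-- S5: partial sums of the zeta function. -/
def ClaimS5 : Prop :=
  ∀ β : ℝ, 1 / 2 ≤ β → β < 1 → zc β < 0 ∧ |zc β| ≤ 1 / (1 - β) ∧ ∀ x : ℝ, 1 ≤ x →
    |∑ n ∈ Icc 1 ⌊x⌋₊, (n : ℝ) ^ (-β) - x ^ (1 - β) / (1 - β) - zc β| ≤ 2 * x ^ (-β)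

/-- S6: the hyperbola identity. -/
def ClaimS6 : Prop :=
  ∀ (u v : ℕ → ℝ) (N y : ℕ), 1 ≤ y → y ≤ N →
    ∑ n ∈ Icc 1 N, ∑ p ∈ n.divisorsAntidiagonal, u p.1 * v p.2 =
      ∑ l ∈ Icc 1 y, u l * ∑ m ∈ Icc 1 (N / l), v m +
      ∑ m ∈ Icc 1 (N / y), v m * (∑ l ∈ Icc 1 (N / m), u l - ∑ l ∈ Icc 1 y, u l)

/-- S7a: partial sums of `(1 * χ)(n) n ^ (-β)`. -/
def ClaimS7a : Prop :=
  ∃ C : ℝ, 0 < C ∧ ∀ d : ℤ, ¬ IsSquare d → ∀ β : ℝ, 7 / 8 ≤ β → β < 1 → ∀ x : ℝ, 1 ≤ x →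
    |∑ n ∈ Icc 1 ⌊x⌋₊, (ff d n : ℝ) * (n : ℝ) ^ (-β) - LL d 1 * x ^ (1 - β) / (1 - β) -
      zc β * LL d β| ≤ C / (1 - β) * |(d : ℝ)| * x ^ (-(1 / 4) : ℝ)

/-- S7b: partial sums of `(χ * χ')(n) n ^ (-β)`. -/
def ClaimS7b : Prop :=
  ∃ C : ℝ, 0 < C ∧ ∀ d e : ℤ, ¬ IsSquare d → ¬ IsSquare e → ∀ β : ℝ, 7 / 8 ≤ β → β ≤ 1 →
    ∀ x : ℝ, 1 ≤ x →
    |∑ n ∈ Icc 1 ⌊x⌋₊, ((∑ p ∈ n.divisorsAntidiagonal, chi d p.1 * chi e p.2 : ℤ) : ℝ) *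
      (n : ℝ) ^ (-β) - LL d β * LL e β| ≤ C * |(d : ℝ)| * |(e : ℝ)| * x ^ (-(1 / 4) : ℝ)

/-- S8a: the coefficients of `ζ L L' L''` are nonnegative. -/
def ClaimS8a : Prop :=
  ∀ (d e : ℤ) (n : ℕ), 0 ≤ ∑ p ∈ n.divisorsAntidiagonal,
    (∑ r ∈ p.1.divisorsAntidiagonal, chi e r.1 * chi (d * e) r.2) * ff d p.2

/-- S8: the main inequality. -/
def ClaimS8 : Prop :=
  ∃ C : ℝ, 0 < C ∧ ∀ d e : ℤ, ¬ IsSquare d → ¬ IsSquare e → ¬ IsSquare (d * e) →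
    ∀ β : ℝ, 15 / 16 ≤ β → β < 1 → ∀ x : ℝ, 1 ≤ x →
    1 ≤ LL d 1 * LL e 1 * LL (d * e) 1 * x ^ (1 - β) / (1 - β) +
      zc β * LL d β * LL e β * LL (d * e) β +
      C * (|(d : ℝ)| ^ 3 * |(e : ℝ)| ^ 3) / (1 - β) * x ^ (-(1 / 32) : ℝ)

/-- S9: square factors. -/
def ClaimS9 : Prop :=
  ∀ ε : ℝ, 0 < ε → ∃ c : ℝ, 0 < c ∧ ∀ (d : ℤ) (s : ℕ), ¬ IsSquare d → 0 < s →
    c * (s : ℝ) ^ (-ε) * LL d 1 ≤ LL (d * (s : ℤ) ^ 2) 1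

/-- S10: Siegel's theorem. -/
def ClaimS10 : Prop :=
  ∀ ε : ℝ, 0 < ε → ∃ c : ℝ, 0 < c ∧ ∀ d : ℤ, ¬ IsSquare d → c * |(d : ℝ)| ^ (-ε) ≤ LL d 1

/-! ## Group N: counting primitive ideals -/

/-- N1: `K ^ ω(n)` is small. -/
def ClaimN1 : Prop :=
  ∀ K : ℝ, 1 ≤ K → ∀ ι : ℝ, 0 < ι → ∃ C : ℝ, 0 < C ∧ ∀ n : ℕ, 1 ≤ n →
    K ^ n.primeFactors.card ≤ C * (n : ℝ) ^ ι

/-- N2a: the local decomposition. -/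
def ClaimN2a : Prop :=
  ∀ (d : ℤ) (a : ℕ), 1 ≤ a →
    ff d a ≤ ∑ g ∈ a.divisors.filter (fun g => ∀ p ∈ g.primeFactors, p ∣ 2 * d.natAbs),
      ∑ e ∈ a.divisors.filter (fun e => g * e ^ 2 ∣ a), (TT d (a / (g * e ^ 2)) : ℤ)

/-- N2: summed up. -/
def ClaimN2 : Prop :=
  ∀ (d : ℤ) (x : ℕ),
    ∑ a ∈ Icc 1 x, ff d a ≤
      ∑ g ∈ (Icc 1 x).filter (fun g => ∀ p ∈ g.primeFactors, p ∣ 2 * d.natAbs),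
        ∑ e ∈ (Icc 1 x).filter (fun e => g * e ^ 2 ≤ x), (MM d (x / (g * e ^ 2)) : ℤ)

/-- N3: lower bound for the sum of `1 * χ`. -/
def ClaimN3 : Prop :=
  ∀ (d : ℤ) (A x : ℕ) (B : ℝ), 1 ≤ A → A ≤ x → 0 ≤ B →
    (∀ n : ℕ, A ≤ n → |∑ j ∈ Icc 1 n, (chi d j : ℝ)| ≤ B * n) →
    (x : ℝ) * ∑ m ∈ Icc 1 A, (chi d m : ℝ) / m - A - 2 * B * x * (1 + Real.log x) ≤
      ∑ a ∈ Icc 1 x, (ff d a : ℝ)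

/-- N4: the tail of `L(1, χ)`. -/
def ClaimN4 : Prop :=
  ∀ (d : ℤ) (A : ℕ) (B : ℝ), ¬ IsSquare d → 1 ≤ A → 0 ≤ B →
    (∀ n : ℕ, A ≤ n → |∑ j ∈ Icc 1 n, (chi d j : ℝ)| ≤ B * n) →
    |LL d 1 - ∑ m ∈ Icc 1 A, (chi d m : ℝ) / m| ≤
      B * (6 + 2 * Real.log |(d : ℝ)|) + 1 / |(d : ℝ)|

/-- N5: from all ideals to primitive ideals. -/
def ClaimN5 : Prop :=
  ∀ ι : ℝ, 0 < ι → ∃ C : ℝ, 0 < C ∧ ∀ (d : ℤ) (x : ℕ) (E : ℝ), d ≠ 0 → 1 ≤ x → 1 ≤ E →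
    ∑ a ∈ Icc 1 x, (ff d a : ℝ) ≤ 2 * E * MM d x +
      C * |(d : ℝ)| ^ ι * x * (1 + Real.log x) * E ^ (-(1 / 4) : ℝ)

/-- N6: many primitive ideals of norm at most `(|d| / 5) ^ (1 / 2k)`. -/
def ClaimN6 : Prop :=
  ∀ k : ℕ, 0 < k → ∀ η : ℝ, 0 < η → ∀ ε : ℝ, 0 < ε → ∃ c : ℝ, 0 < c ∧ ∃ D : ℝ, 0 < D ∧
    ∀ d : ℤ, d < 0 → D ≤ |(d : ℝ)| → Smo d (|(d : ℝ)| ^ ((1 : ℝ) / (2 * k) - η)) →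
      c * |(d : ℝ)| ^ ((1 : ℝ) / (2 * k) - ε) ≤
        MM d ⌊(|(d : ℝ)| / 5) ^ ((1 : ℝ) / (2 * k))⌋₊

/-! ## Group C: the class group -/

/-- C0: the structure of the order. -/
def ClaimC0 : Prop :=
  ∀ d : ℤ, d < 0 → (d % 4 = 0 ∨ d % 4 = 1) →
    (∀ z : ↥(Od d), ∃ u v : ℤ, z = (u : ↥(Od d)) + (v : ↥(Od d)) * th d) ∧
    (∀ u v : ℤ, Complex.normSq (((u : ↥(Od d)) + (v : ↥(Od d)) * th d : ↥(Od d)) : ℂ) =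
      ((u ^ 2 + u * v * d + v ^ 2 * ((d ^ 2 - d) / 4) : ℤ) : ℝ)) ∧
    (∀ u v : ℤ, (v : ℝ) ^ 2 * |(d : ℝ)| ≤
      4 * Complex.normSq (((u : ↥(Od d)) + (v : ↥(Od d)) * th d : ↥(Od d)) : ℂ)) ∧
    th d * ((d : ↥(Od d)) - th d) = (((d ^ 2 - d) / 4 : ℤ) : ↥(Od d)) ∧
    ∃ σ : ↥(Od d) ≃+* ↥(Od d), σ (th d) = (d : ↥(Od d)) - th d ∧
      ∀ z : ↥(Od d), ((z * σ z : ↥(Od d)) : ℂ) = (Complex.normSq (z : ℂ) : ℂ)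

/-- C1a1: reduction of ideals. -/
def ClaimC1a1 : Prop :=
  ∀ d : ℤ, d < 0 → (d % 4 = 0 ∨ d % 4 = 1) → ∀ J : Ideal ↥(Od d), J ≠ ⊥ →
    ∃ (α : ↥(Od d)) (a n : ℕ), α ≠ 0 ∧ 0 < a ∧ n < a ∧ 3 * a ^ 2 ≤ d.natAbs ∧
      (a : ℤ) ∣ FF d n ∧
      Ideal.span {(a : ↥(Od d))} * J =
        Ideal.span {α} * Ideal.span {(a : ↥(Od d)), (n : ↥(Od d)) + th d}

/-- C1a: reduction. -/
def ClaimC1a : Prop :=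
  ∀ d : ℤ, d < 0 → (d % 4 = 0 ∨ d % 4 = 1) →
    Finite (ClassGroup ↥(Od d)) ∧
    Nat.card (ClassGroup ↥(Od d)) ≤ ∑ a ∈ Icc 1 (Nat.sqrt (d.natAbs / 3)), wt d a

/-- C1b: the number of roots. -/
def ClaimC1b : Prop :=
  ∀ d : ℤ, d ≠ 0 → (d % 4 = 0 ∨ d % 4 = 1) → ∀ a : ℕ, 1 ≤ a →
    wt d a ≤ 4 * 2 ^ a.primeFactors.card *
      ∑ s ∈ a.divisors.filter (fun s : ℕ => s ^ 2 ∣ a ∧ ((s : ℤ) ^ 2 ∣ d)), s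

/-- C1c: the class number bound. -/
def ClaimC1c : Prop :=
  ∀ ε : ℝ, 0 < ε → ∃ C : ℝ, 0 < C ∧ ∀ d : ℤ, d < 0 → (d % 4 = 0 ∨ d % 4 = 1) →
    (∑ a ∈ Icc 1 (Nat.sqrt (d.natAbs / 3)), wt d a : ℝ) ≤ C * |(d : ℝ)| ^ (1 / 2 + ε)

/-- C2b0: roots modulo split primes. -/
def ClaimC2b0 : Prop :=
  ∀ (d : ℤ) (p : ℕ), (d % 4 = 0 ∨ d % 4 = 1) → p.Prime → chi d p = 1 →
    ∃ n : ℤ, (p : ℤ) ∣ FF d n ∧ ¬ (p : ℤ) ∣ 2 * n + d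

/-- C2b1: the product of a prime ideal and its conjugate. -/
def ClaimC2b1 : Prop :=
  ∀ (d : ℤ) (p : ℕ) (n : ℤ), d < 0 → (d % 4 = 0 ∨ d % 4 = 1) → p.Prime →
    (p : ℤ) ∣ FF d n → ¬ (p : ℤ) ∣ 2 * n + d →
    Pi1 d p n * Pi2 d p n = Ideal.span {(p : ↥(Od d))}

/-- C2b2: a short product of prime ideals is not principal. -/
def ClaimC2b2 : Prop :=
  ∀ (d : ℤ) (S : Finset ℕ) (n : ℕ → ℤ) (f g : ℕ → ℕ) (α : ↥(Od d)), d < 0 →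
    (d % 4 = 0 ∨ d % 4 = 1) →
    (∀ p ∈ S, p.Prime ∧ (p : ℤ) ∣ FF d (n p) ∧ ¬ (p : ℤ) ∣ 2 * n p + d) →
    (∀ p ∈ S, f p = 0 ∨ g p = 0) → 4 * ∏ p ∈ S, p ^ (f p + g p) < d.natAbs →
    ∏ p ∈ S, (Pi1 d p (n p) ^ f p * Pi2 d p (n p) ^ g p) = Ideal.span {α} →
    ∀ p ∈ S, f p = 0 ∧ g p = 0

/-- C2b: classes of short products of split primes are different. -/
def ClaimC2b : Prop :=
  ∀ d : ℤ, d < 0 → (d % 4 = 0 ∨ d % 4 = 1) → ∃ c : ℕ → ClassGroup ↥(Od d),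
    ∀ (S : Finset ℕ) (e : ℕ → ℤ), (∀ p ∈ S, p.Prime ∧ chi d p = 1) →
      4 * ∏ p ∈ S, p ^ (e p).natAbs < d.natAbs → ∏ p ∈ S, c p ^ e p = 1 → ∀ p ∈ S, e p = 0

/-- C2c: the torsion bound. -/
def ClaimC2c : Prop :=
  ∀ (d : ℤ) (k x : ℕ), d < 0 → (d % 4 = 0 ∨ d % 4 = 1) → 0 < k → 4 * x ^ (2 * k) < d.natAbs →
    Finite (ClassGroup ↥(Od d)) →
    Nat.card {y : ClassGroup ↥(Od d) // y ^ k = 1} * MM d x ≤ Nat.card (ClassGroup ↥(Od d))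

/-- The final theorem. -/
def ClaimFinal : Prop :=
  ∀ k : ℕ, 0 < k → ∀ η : ℝ, 0 < η → ∀ ε : ℝ, 0 < ε → ∃ C : ℝ, 0 < C ∧
    ∀ d : ℤ, d < 0 → (d % 4 = 0 ∨ d % 4 = 1) →
      Smo d (|(d : ℝ)| ^ ((1 : ℝ) / (2 * k) - η)) →
      (Nat.card {x : ClassGroup ↥(Od d) // x ^ k = 1} : ℝ) ≤
        C * |(d : ℝ)| ^ ((1 : ℝ) / 2 - 1 / (2 * k) + ε)

end Pool.Agent.Work.MP_e0c7e8_nt.SM
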